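import Pool.Agent.Work.MP_e056c9_an.C8

/-! # Contraction of the dead part in a degenerate run, and the final statement of the block -/

set_option autoImplicit false
set_option linter.unusedSectionVars false
set_option linter.unusedVariables false
open Polynomial Filter Topology

namespace Pool.Agent.Work.MP_e056c9_an

/-! ### arithmetic means -/

section
variable {ι : Type*} [DecidableEq ι]

lemma arith_upper {P : Finset ι} {A G G' : ι → ℝ} (hA : ∀ i ∈ P, 0 < A i) {T : ℝ}
    (hle : ∀ i ∈ P, G' i ≤ T * G i) :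
    (∑ i ∈ P, A i * G' i) ≤ T * (∑ i ∈ P, A i * G i) ∧
    ((∑ i ∈ P, A i * G' i) = T * (∑ i ∈ P, A i * G i) → ∀ i ∈ P, G' i = T * G i) := by
  have h1 : ∀ i ∈ P, A i * G' i ≤ T * (A i * G i) := by
    intro i hi
    nlinarith [mul_le_mul_of_nonneg_left (hle i hi) (hA i hi).le]
  constructor
  · rw [Finset.mul_sum]; exact Finset.sum_le_sum h1
  · intro heq
    rw [Finset.mul_sum] at heq
    have h4 := (Finset.sum_eq_sum_iff_of_le h1).1 heq
    intro i hi
    have h5 := h4 i hi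
    have h6 : A i * (G' i - T * G i) = 0 := by linear_combination h5
    rcases mul_eq_zero.1 h6 with h7 | h7
    · exact absurd h7 (hA i hi).ne'
    · linarith

lemma arith_lower {P : Finset ι} {A G G' : ι → ℝ} (hA : ∀ i ∈ P, 0 < A i) {T : ℝ}
    (hle : ∀ i ∈ P, T * G i ≤ G' i) :
    T * (∑ i ∈ P, A i * G i) ≤ (∑ i ∈ P, A i * G' i) ∧
    ((∑ i ∈ P, A i * G' i) = T * (∑ i ∈ P, A i * G i) → ∀ i ∈ P, G' i = T * G i) := by
  have h1 : ∀ i ∈ P, T * (A i * G i) ≤ A i * G' i := by
    intro i hi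
    nlinarith [mul_le_mul_of_nonneg_left (hle i hi) (hA i hi).le]
  constructor
  · rw [Finset.mul_sum]; exact Finset.sum_le_sum h1
  · intro heq
    rw [Finset.mul_sum] at heq
    have h4 := (Finset.sum_eq_sum_iff_of_le h1).1 heq.symm
    intro i hi
    have h5 := h4 i hi
    have h6 : A i * (G' i - T * G i) = 0 := by linear_combination -h5
    rcases mul_eq_zero.1 h6 with h7 | h7
    · exact absurd h7 (hA i hi).ne'
    · linarith

end

section
variable {ι : Type*} [Fintype ι] [DecidableEq ι]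

/-- the limit at `|P| = r` is an arithmetic mean -/
lemma E0_arith {x w : ι → ℝ} (hx : Function.Injective x) (hw : ∀ i, 0 < w i) {P : Finset ι} {r : ℕ}
    (hP : P.card = r) :
    E0 x w P (r + 1) / E0 x w P r = ∑ j ∈ Pᶜ, (DD x (insert j P) / DD x P) * w j := by
  subst hP
  rw [E0_card x w P, E0_succ x w P]
  have hpr : 0 < ∏ i ∈ P, w i := Finset.prod_pos fun i _ => hw i
  have hDD := DD_pos hx P
  rw [mul_div_mul_left _ _ hpr.ne', Finset.sum_div]
  refine Finset.sum_congr rfl fun j hj => ?_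
  ring

end

section
variable {f : ℝ[X]} {α β : ℝ} {c : Fin (f.natDegree - 1) → ℝ}

/-- there is a dead critical value -/
lemma exists_dead_crit (h : Hull f α β c) {D : Set ℝ} (hD : Closed f α β c D) :
    ∃ j, f.eval (c j) ∈ D := by
  obtain ⟨e, he⟩ := hD.ne
  obtain ⟨j, n, rfl⟩ := (mem_Z0.1 (hD.sub he)).1
  refine ⟨j, ?_⟩
  induction n with
  | zero => exact he
  | succ n ih =>
    rw [it_succ] at he
    exact ih ((hD.iff h ⟨j, n, rfl⟩).1 he)

lemma T0_dead (h : Hull f α β c) {D : Set ℝ} (hD : Closed f α β c D) :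
    ∃ v₀ ∈ D, ∀ e ∈ D, ∃ (ι : Type) (_ : DecidableEq ι)
      (P : Finset ι) (y : ι → ℝ) (A : ι → ℝ), (∀ i ∈ P, 0 < A i) ∧
      (∀ i ∈ P, y i ∈ D) ∧ (∃ i ∈ P, y i = v₀) ∧
      ∀ G : Option ℝ → ℝ, (∀ t ∈ Sp (ZS f c), 0 < G t) →
        T0 f c D (ell f c D) G (some e) = ∑ i ∈ P, A i * G (some (y i)) := by
  have hinv := h.ZS_inv
  obtain ⟨j₀, hj₀⟩ := exists_dead_crit h hD
  refine ⟨f.eval (c j₀), hj₀, ?_⟩
  intro z hzD
  have hz := (mem_Z0.1 (hD.sub hzD)).1
  have hval : ∀ i, f.eval (xz c z i) ∈ ZS f c := by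
    intro i
    cases i with
    | none => exact hinv.maps z hz
    | some j => exact hinv.val j
  have hx := h.xz_inj (hinv.out z hz)
  have hcard := card_Lz_dead (c := c) ((hD.iff h hz).2 hzD)
  have hg : ∀ i, 0 < |f.leadingCoeff| * |(chie (xz c z) i).eval (xz c z i)| := fun i =>
    mul_pos (abs_pos.2 (lc_ne h.two_le)) (abs_pos.2 (chie_eval_ne hx i))
  refine ⟨Option (Fin (f.natDegree - 1)), inferInstance, (Lz f c D z)ᶜ,
    fun i => f.eval (xz c z i), fun i => DD (xz c z) (insert i (Lz f c D z)) / DD (xz c z) (Lz f c D z)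
      / (|f.leadingCoeff| * |(chie (xz c z) i).eval (xz c z i)|), ?_, ?_, ?_, ?_⟩
  · intro i _
    exact div_pos (div_pos (DD_pos hx _) (DD_pos hx _)) (hg i)
  · intro i hi
    by_contra h0
    exact (Finset.mem_compl.1 hi) (mem_Lz.2 h0)
  · refine ⟨some j₀, Finset.mem_compl.2 fun h0 => (mem_Lz.1 h0) hj₀, rfl⟩
  · intro G hG
    have hw : ∀ i, 0 < om f (xz c z) (fun y => G (some y)) i := fun i =>
      om_pos h.two_le hx (fun i => hG _ (some_mem_Sp.2 (hval i))) i
    have h1 : T0 f c D (ell f c D) G (some z)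
        = E0 (xz c z) (om f (xz c z) (fun y => G (some y))) (Lz f c D z) (ell f c D + 1)
        / E0 (xz c z) (om f (xz c z) (fun y => G (some y))) (Lz f c D z) (ell f c D) := rfl
    rw [h1, E0_arith hx hw hcard]
    refine Finset.sum_congr rfl fun i _ => ?_
    unfold om
    ring

/-- equality case of the contraction in the limit -/
lemma dead_limit (h : Hull f α β c) {D : Set ℝ} (hD : Closed f α β c D)
    {G G' : Option ℝ → ℝ}
    (hG : ∀ t ∈ Sp (ZS f c), 0 < G t) (hG' : ∀ t ∈ Sp (ZS f c), 0 < G' t) {b : ℝ}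
    (hosc : OscLe (some '' D) G G' b) {s t : ℝ} (hs : s ∈ D)
    (ht : t ∈ D)
    (hst : b ≤ RR (T0 f c D (ell f c D) G) (T0 f c D (ell f c D) G') (some s)
      - RR (T0 f c D (ell f c D) G) (T0 f c D (ell f c D) G') (some t)) : b ≤ 0 := by
  have hDS : ∀ e ∈ D, some e ∈ Sp (ZS f c) := fun e he =>
    some_mem_Sp.2 (mem_Z0.1 (hD.sub he)).1
  obtain ⟨v₀, hv₀, hrep⟩ := T0_dead h hD
  set A : Set ℝ := (RR G G') '' (some '' D) with hA
  have hAne : A.Nonempty := ⟨_, some s, ⟨s, hs, rfl⟩, rfl⟩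
  have hAb : BddAbove A := ⟨RR G G' (some s) + b, by
    rintro y ⟨s', hs', rfl⟩
    have := hosc s' hs' (some s) ⟨s, hs, rfl⟩
    linarith⟩
  set m := sSup A with hm
  have h1 : ∀ s ∈ D, RR G G' (some s) ≤ m := fun s hs => le_csSup hAb ⟨some s, ⟨s, hs, rfl⟩, rfl⟩
  have h2 : ∀ s ∈ D, m - b ≤ RR G G' (some s) := by
    intro s hs
    have : m ≤ RR G G' (some s) + b := csSup_le hAne (by
      rintro y ⟨t, ht, rfl⟩
      linarith [hosc t ht (some s) ⟨s, hs, rfl⟩])
    linarith
  have hup : ∀ s ∈ D, G' (some s) ≤ Real.exp m * G (some s) := by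
    intro s hs
    have e1 := h1 s hs
    unfold RR at e1
    have e2 := hG _ (hDS s hs)
    have e3 := hG' _ (hDS s hs)
    rw [Real.log_le_iff_le_exp (div_pos e3 e2), div_le_iff₀ e2] at e1
    exact e1
  have hlo : ∀ s ∈ D, Real.exp (m - b) * G (some s) ≤ G' (some s) := by
    intro s hs
    have e1 := h2 s hs
    unfold RR at e1
    have e2 := hG _ (hDS s hs)
    have e3 := hG' _ (hDS s hs)
    rw [Real.le_log_iff_exp_le (div_pos e3 e2), le_div_iff₀ e2] at e1
    exact e1
  obtain ⟨ι, _, P, y, B, hB, hy, ⟨i₀, hi₀, hyi₀⟩, hform⟩ := hrep s hs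
  obtain ⟨ι', _, P', y', B', hB', hy', ⟨i₁, hi₁, hyi₁⟩, hform'⟩ := hrep t ht
  obtain ⟨u1, u2⟩ := arith_upper (P := P) (A := B) (G := fun i => G (some (y i)))
    (G' := fun i => G' (some (y i))) hB (T := Real.exp m) (fun i hi => hup _ (hy i hi))
  obtain ⟨l1, l2⟩ := arith_lower (P := P') (A := B') (G := fun i => G (some (y' i)))
    (G' := fun i => G' (some (y' i))) hB' (T := Real.exp (m - b))
    (fun i hi => hlo _ (hy' i hi))
  have p1 : 0 < ∑ i ∈ P, B i * G (some (y i)) :=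
    Finset.sum_pos (fun i hi => mul_pos (hB i hi) (hG _ (hDS _ (hy i hi)))) ⟨i₀, hi₀⟩
  have p2 : 0 < ∑ i ∈ P, B i * G' (some (y i)) :=
    Finset.sum_pos (fun i hi => mul_pos (hB i hi) (hG' _ (hDS _ (hy i hi)))) ⟨i₀, hi₀⟩
  have p3 : 0 < ∑ i ∈ P', B' i * G (some (y' i)) :=
    Finset.sum_pos (fun i hi => mul_pos (hB' i hi) (hG _ (hDS _ (hy' i hi)))) ⟨i₁, hi₁⟩
  have p4 : 0 < ∑ i ∈ P', B' i * G' (some (y' i)) :=
    Finset.sum_pos (fun i hi => mul_pos (hB' i hi) (hG' _ (hDS _ (hy' i hi)))) ⟨i₁, hi₁⟩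
  have es : RR (T0 f c D (ell f c D) G) (T0 f c D (ell f c D) G') (some s)
      = Real.log ((∑ i ∈ P, B i * G' (some (y i))) / (∑ i ∈ P, B i * G (some (y i)))) := by
    unfold RR; rw [hform G hG, hform G' hG']
  have et : RR (T0 f c D (ell f c D) G) (T0 f c D (ell f c D) G') (some t)
      = Real.log ((∑ i ∈ P', B' i * G' (some (y' i))) / (∑ i ∈ P', B' i * G (some (y' i)))) := by
    unfold RR; rw [hform' G hG, hform' G' hG']
  have k1 : RR (T0 f c D (ell f c D) G) (T0 f c D (ell f c D) G') (some s) ≤ m := by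
    rw [es, Real.log_le_iff_le_exp (div_pos p2 p1), div_le_iff₀ p1]
    exact u1
  have k2 : m - b ≤ RR (T0 f c D (ell f c D) G) (T0 f c D (ell f c D) G') (some t) := by
    rw [et, Real.le_log_iff_exp_le (div_pos p4 p3), le_div_iff₀ p3]
    exact l1
  have k3 : RR (T0 f c D (ell f c D) G) (T0 f c D (ell f c D) G') (some s) = m := by linarith
  have k4 : RR (T0 f c D (ell f c D) G) (T0 f c D (ell f c D) G') (some t) = m - b := by linarith
  have k5 : (∑ i ∈ P, B i * G' (some (y i))) = Real.exp m * (∑ i ∈ P, B i * G (some (y i))) := by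
    rw [es] at k3
    rw [← k3, Real.exp_log (div_pos p2 p1), div_mul_cancel₀ _ p1.ne']
  have k6 : (∑ i ∈ P', B' i * G' (some (y' i)))
      = Real.exp (m - b) * (∑ i ∈ P', B' i * G (some (y' i))) := by
    rw [et] at k4
    rw [← k4, Real.exp_log (div_pos p4 p3), div_mul_cancel₀ _ p3.ne']
  have k7 := u2 k5 i₀ hi₀
  have k8 := l2 k6 i₁ hi₁
  rw [hyi₀] at k7
  rw [hyi₁, k7] at k8
  have k9 := hG _ (hDS v₀ hv₀)
  have k10 : Real.exp m = Real.exp (m - b) := mul_right_cancel₀ k9.ne' k8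
  have k11 := Real.exp_injective k10
  linarith

end

section
variable {f : ℝ[X]} {α β : ℝ} {c : Fin (f.natDegree - 1) → ℝ} {L M : ℝ[X] →ₗ[ℝ] ℝ}
  (hC : Core f α β c L M)
include hC

/-- (D2) one step contraction of the dead part in a degenerate run -/
theorem dead_step (D : Set ℝ) (hD : Closed f α β c D) (c₁ C : ℝ) (hc₁ : 0 < c₁) (hC1 : 1 ≤ C) :
    ∀ η : ℝ, 0 < η → ∃ δ ε : ℝ, 0 < δ ∧ 0 < ε ∧ ∀ n n' : ℕ,
      DegLevel f α β c L D c₁ C ε n → DegLevel f α β c L D c₁ C ε n' →
      ∀ b : ℝ, OscLe (some '' D) (Hn L β n) (Hn L β n') b →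
        OscLe (some '' D) (Hn L β (f.natDegree * n + ell f c D))
          (Hn L β (f.natDegree * n' + ell f c D)) (max (b - δ) η) := by
  classical
  intro η hη
  by_contra hcon
  push Not at hcon
  choose n n' hn hn' b hb hnot using
    fun k : ℕ => hcon (1 / ((k : ℝ) + 1)) (1 / ((k : ℝ) + 1)) (by positivity) (by positivity)
  have h := hC.hull
  have hinv := h.ZS_inv
  have hell := hC.ell_lt (D := D)
  have hDS : ∀ e ∈ D, some e ∈ Sp (ZS f c) := fun e he =>
    some_mem_Sp.2 (mem_Z0.1 (hD.sub he)).1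
  have hsub : some '' D ⊆ Sp (ZS f c) := by
    rintro t ⟨e', he', rfl⟩
    exact hDS e' he'
  obtain ⟨e₀, he₀⟩ := hD.ne
  have he₀S := (mem_Z0.1 (hD.sub he₀)).1
  set U : Ultrafilter ℕ := hyperfilter ℕ with hU
  have hε : Tendsto (fun k : ℕ => 1 / ((k : ℝ) + 1)) U (𝓝 0) :=
    tendsto_one_div_add_atTop_nhds_zero_nat.mono_left Nat.hyperfilter_le_atTop
  obtain ⟨G, hG⟩ := hC.exists_limEnv hD hc₁ hC1 U he₀ hε hn
  obtain ⟨G', hG'⟩ := hC.exists_limEnv hD hc₁ hC1 U he₀ hε hn'
  -- differences of log ratios between dead states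
  set Q : (ℕ → ℕ) → (ℕ → ℕ) → ℕ → ℝ → ℝ := fun n n' k e =>
    RR (NH L β (n k)) (NH L β (n' k)) (some e) - RR (NH L β (n k)) (NH L β (n' k)) (some e₀) with hQ
  -- uniform bound
  set B := Real.log C with hBdef
  have hB0 : 0 ≤ B := Real.log_nonneg hC1
  have hup : ∀ (n : ℕ → ℕ) (k : ℕ), (∀ e ∈ D, ∀ e' ∈ D, uu L β (n k) e ≤ C * uu L β (n k) e') →
      ∀ e ∈ D, ∀ e' ∈ D, Real.log (uu L β (n k) e) - Real.log (uu L β (n k) e') ≤ B := by
    intro n k hk e he e' he'
    have p1 := hC.uu_pos (n k) (hinv.out e (mem_Z0.1 (hD.sub he)).1)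
    have p2 := hC.uu_pos (n k) (hinv.out e' (mem_Z0.1 (hD.sub he')).1)
    rw [← Real.log_div p1.ne' p2.ne']
    refine Real.log_le_log (div_pos p1 p2) ?_
    rw [div_le_iff₀ p2]
    exact hk e he e' he'
  set b' : ℕ → ℝ := fun k => min (b k) (2 * B) with hb'
  have hosc' : ∀ k, OscLe (some '' D) (NH L β (n k)) (NH L β (n' k)) (b' k) := by
    intro k s hs t ht
    refine le_min ?_ ?_
    · exact (hC.OscLe_NH (n k) (n' k) hinv hsub (b k)).2 (hb k) s hs t ht
    · obtain ⟨e, he, rfl⟩ := hs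
      obtain ⟨e', he', rfl⟩ := ht
      have p1 := hC.uu_pos (n k) (hinv.out e (mem_Z0.1 (hD.sub he)).1)
      have p2 := hC.uu_pos (n k) (hinv.out e' (mem_Z0.1 (hD.sub he')).1)
      have p3 := hC.uu_pos (n' k) (hinv.out e (mem_Z0.1 (hD.sub he)).1)
      have p4 := hC.uu_pos (n' k) (hinv.out e' (mem_Z0.1 (hD.sub he')).1)
      have h1 := hup n k (hn k).2.1 e' he' e he
      have h2 := hup n' k (hn' k).2.1 e he e' he'
      unfold RR
      rw [NH_some, NH_some, NH_some, NH_some, Real.log_div p3.ne' p1.ne',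
        Real.log_div p4.ne' p2.ne']
      linarith
  have hbB : ∀ k, b' k ∈ Set.Icc 0 (2 * B) := by
    intro k
    refine ⟨?_, min_le_right _ _⟩
    have := hosc' k (some e₀) ⟨e₀, he₀, rfl⟩ (some e₀) ⟨e₀, he₀, rfl⟩
    linarith
  obtain ⟨b₀, hb₀, hblim⟩ := ulim U hbB
  -- limit of the differences, generic
  have hlimQ : ∀ {N N' : ℕ → ℕ} {F F' : ℝ → ℝ}, (∀ e ∈ D, 0 < F e) → (∀ e ∈ D, 0 < F' e) →
      (∀ e ∈ D, Tendsto (fun k => uu L β (N k) e / uu L β (N k) e₀) U (𝓝 (F e))) →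
      (∀ e ∈ D, Tendsto (fun k => uu L β (N' k) e / uu L β (N' k) e₀) U (𝓝 (F' e))) →
      ∀ e ∈ D, Tendsto (fun k => Q N N' k e) U (𝓝 (Real.log (F' e / F e))) := by
    intro N N' F F' hF hF' hl hl' e he
    have k3 := ((hl' e he).div (hl e he) (hF e he).ne').log (div_pos (hF' e he) (hF e he)).ne'
    refine k3.congr fun k => ?_
    have q1 := hC.uu_pos (N k) (hinv.out e (mem_Z0.1 (hD.sub he)).1)
    have q2 := hC.uu_pos (N k) (hinv.out e₀ he₀S)
    have q3 := hC.uu_pos (N' k) (hinv.out e (mem_Z0.1 (hD.sub he)).1)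
    have q4 := hC.uu_pos (N' k) (hinv.out e₀ he₀S)
    rw [Pi.div_apply, hQ]
    unfold RR
    simp only
    rw [NH_some, NH_some, NH_some, NH_some, Real.log_div (div_pos q3 q4).ne' (div_pos q1 q2).ne',
        Real.log_div q3.ne' q4.ne', Real.log_div q1.ne' q2.ne', Real.log_div q3.ne' q1.ne',
        Real.log_div q4.ne' q2.ne']
    ring
  have hQlim0 : ∀ e ∈ D, Tendsto (fun k => Q n n' k e) U (𝓝 (RR G G' (some e))) := by
    intro e he
    exact hlimQ (F := fun e => G (some e)) (F' := fun e => G' (some e))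
      (fun e he => hG.pos _ (hDS e he)) (fun e he => hG'.pos _ (hDS e he))
      (fun e he => hG.dead e he) (fun e he => hG'.dead e he) e he
  have hosc : OscLe (some '' D) G G' b₀ := by
    rintro s ⟨e, he, rfl⟩ t ⟨e', he', rfl⟩
    refine le_of_tendsto_of_tendsto ((hQlim0 e he).sub (hQlim0 e' he')) hblim ?_
    refine Filter.Eventually.of_forall fun k => ?_
    have := hosc' k (some e) ⟨e, he, rfl⟩ (some e') ⟨e', he', rfl⟩
    simp only [hQ]
    linarith
  -- next level
  set σ := ell f c D with hσ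
  set T := T0 f c D σ G with hT
  set T' := T0 f c D σ G' with hT'
  have hTp : ∀ s ∈ Sp (ZS f c), 0 < T s := T0_pos h hG hell
  have hTp' : ∀ s ∈ Sp (ZS f c), 0 < T' s := T0_pos h hG' hell
  have key : ∀ {n : ℕ → ℕ} {G : Option ℝ → ℝ}, LimEnv f α β c L D U e₀ n G → ∀ e ∈ D,
      Tendsto (fun k => uu L β (f.natDegree * n k + σ) e / uu L β (f.natDegree * n k + σ) e₀) U
        (𝓝 (T0 f c D σ G (some e) / T0 f c D σ G (some e₀))) := by
    intro n G hG e he
    have h1 := hC.lim_TT hG he₀S hell (some e) (hDS e he)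
    have h2 := hC.lim_TT hG he₀S hell (some e₀) (hDS e₀ he₀)
    have hp := T0_pos h hG hell (some e₀) (hDS e₀ he₀)
    refine (h1.div h2 hp.ne').congr fun k => ?_
    have e1 := hC.NH_rec hinv (n k) σ hell (some e) (hDS e he)
    have e2 := hC.NH_rec hinv (n k) σ hell (some e₀) (hDS e₀ he₀)
    rw [NH_some] at e1 e2
    have hT0 := (TT_pos h hinv (hC.NH_pos hinv (n k)) hell).1
    rw [Pi.div_apply, e1, e2, ex_dead h hD he, ex_dead h hD he₀, pow_one]
    have h3 := hC.uu_pos (n k) (hinv.out e₀ he₀S)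
    rw [div_div_div_cancel_right₀ h3.ne', div_div_div_cancel_right₀ hT0.ne']
  have hQlim : ∀ e ∈ D, Tendsto (fun k => Q (fun k => f.natDegree * n k + σ)
      (fun k => f.natDegree * n' k + σ) k e) U
      (𝓝 (RR T T' (some e) - RR T T' (some e₀))) := by
    intro e he
    have p1 := hTp _ (hDS e he)
    have p2 := hTp' _ (hDS e he)
    have p3 := hTp _ (hDS e₀ he₀)
    have p4 := hTp' _ (hDS e₀ he₀)
    have k3 := hlimQ (N := fun k => f.natDegree * n k + σ) (N' := fun k => f.natDegree * n' k + σ)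
      (F := fun e => T (some e) / T (some e₀)) (F' := fun e => T' (some e) / T' (some e₀))
      (fun e he => div_pos (hTp _ (hDS e he)) p3) (fun e he => div_pos (hTp' _ (hDS e he)) p4)
      (fun e he => key hG e he) (fun e he => key hG' e he) e he
    have e1 : Real.log (T' (some e) / T' (some e₀) / (T (some e) / T (some e₀)))
        = RR T T' (some e) - RR T T' (some e₀) := by
      unfold RR
      rw [Real.log_div (div_pos p2 p4).ne' (div_pos p1 p3).ne',
        Real.log_div p2.ne' p4.ne', Real.log_div p1.ne' p3.ne', Real.log_div p2.ne' p1.ne',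
        Real.log_div p4.ne' p3.ne']
      ring
    rw [← e1]
    exact k3
  -- witnesses
  have hwit : ∀ k, ∃ s t : ℝ, s ∈ D ∧ t ∈ D ∧
      max (b' k - 1 / ((k : ℝ) + 1)) η
        < Q (fun k => f.natDegree * n k + σ) (fun k => f.natDegree * n' k + σ) k s
        - Q (fun k => f.natDegree * n k + σ) (fun k => f.natDegree * n' k + σ) k t := by
    intro k
    have h1 := hnot k
    rw [← hC.OscLe_NH _ _ hinv hsub] at h1
    unfold OscLe at h1
    push Not at h1
    obtain ⟨s, ⟨e, he, rfl⟩, t, ⟨e', he', rfl⟩, hlt⟩ := h1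
    refine ⟨e, e', he, he', lt_of_le_of_lt (max_le_max ?_ le_rfl) (lt_of_lt_of_eq hlt ?_)⟩
    · have : b' k ≤ b k := min_le_left _ _
      linarith
    · simp only [hQ]; ring
  choose s t hs ht hst using hwit
  have hDfin : D.Finite := by
    refine Set.Finite.subset (Set.toFinite ({α, β} : Set ℝ)) fun e he => ?_
    have := (mem_Z0.1 (hD.sub he)).2
    simpa using this
  obtain ⟨s', hs', hsev⟩ := ufin U hDfin (Filter.Eventually.of_forall hs)
  obtain ⟨t', ht', htev⟩ := ufin U hDfin (Filter.Eventually.of_forall ht)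
  have hsub2 := (hQlim s' hs').sub (hQlim t' ht')
  have hfin : η ≤ RR T T' (some s') - RR T T' (some e₀) - (RR T T' (some t') - RR T T' (some e₀)) :=
    ge_of_tendsto hsub2 (by
      filter_upwards [hsev, htev] with k h1 h2
      have := hst k
      rw [h1, h2] at this
      exact (le_trans (le_max_right _ _) this.le))
  have hfin2 : b₀ - 0 ≤ RR T T' (some s') - RR T T' (some e₀)
      - (RR T T' (some t') - RR T T' (some e₀)) :=
    le_of_tendsto_of_tendsto (hblim.sub hε) hsub2 (by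
      filter_upwards [hsev, htev] with k h1 h2
      have := hst k
      rw [h1, h2] at this
      exact (le_trans (le_max_left _ _) this.le))
  have hfin3 : b₀ ≤ RR T T' (some s') - RR T T' (some t') := by linarith
  have hb0 := dead_limit h hD hG.pos hG'.pos hosc hs' ht' hfin3
  have hfin4 : RR T T' (some s') - RR T T' (some t') ≤ b₀ := by
    by_contra hlt2
    push Not at hlt2
    have h3 := dead_limit h hD hG.pos hG'.pos (b := RR T T' (some s') - RR T T' (some t'))
      (fun s hs t ht => (hosc s hs t ht).trans hlt2.le) hs' ht' le_rfl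
    linarith
  linarith

/-- the output of the degenerate block -/
theorem degHyp (hid : f.eval (f.eval α) = f.eval α ∧ f.eval (f.eval β) = f.eval β) :
    DegHyp f α β c L where
  reset := reset hC hid
  struct := struct hC hid
  live := live_step hC
  dead := dead_step hC
  change := change_step hC

end

end Pool.Agent.Work.MP_e056c9_an
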