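import Pool.Agent.Work.MP_e056c9_an.E3

/-! # The frozen statement from the core claim. -/

set_option autoImplicit false
open Polynomial MeasureTheory

namespace Pool.Agent.Work.MP_e056c9_an

/-- The core claim: uniform limit periodicity of `u_n(z)` at the escaping points of `Z`. -/
def CoreClaim : Prop :=
  ∀ (f : ℝ[X]) (α β : ℝ) (c : Fin (f.natDegree - 1) → ℝ) (L M : ℝ[X] →ₗ[ℝ] ℝ),
    Core f α β c L M → Pool.Agent.BJ.Good f α β →
    ∀ ε : ℝ, 0 < ε → ∀ z ∈ ZS f c, z ≠ α → z ≠ β → ∃ k : ℕ, ∀ n n' : ℕ,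
      n ≡ n' [MOD f.natDegree ^ k] →
      |Real.log (uu L β n z) - Real.log (uu L β n' z)| ≤ ε

theorem frozen_of (hcore : CoreClaim) :
    ∀ f : Polynomial ℂ, 2 ≤ f.natDegree →
    ∀ J : Set ℂ,
      J = frontier {z : ℂ | Bornology.IsBounded
            (Set.range (fun n : ℕ => (fun w : ℂ => f.eval w)^[n] z))} →
      J ⊆ Set.range ((↑) : ℝ → ℂ) →
      IsTotallyDisconnected J →
      ∀ μ : MeasureTheory.Measure ℝ, MeasureTheory.IsProbabilityMeasure μ →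
        μ {x : ℝ | (x : ℂ) ∉ J} = 0 →
        (∀ ν : MeasureTheory.Measure ℝ, MeasureTheory.IsProbabilityMeasure ν →
          ν {x : ℝ | (x : ℂ) ∉ J} = 0 →
          (∫⁻ x, ∫⁻ y, (if x = y then (⊤ : ENNReal)
              else ENNReal.ofReal (Real.log ((Metric.diam J + 1) / |x - y|))) ∂μ ∂μ)
            ≤ (∫⁻ x, ∫⁻ y, (if x = y then (⊤ : ENNReal)
              else ENNReal.ofReal (Real.log ((Metric.diam J + 1) / |x - y|))) ∂ν ∂ν)) →
        ∀ P : ℕ → Polynomial ℝ,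
          (∀ n : ℕ, (P n).Monic ∧ (P n).natDegree = n ∧
            ∀ k : ℕ, k < n → ∫ x, (P n).eval x * x ^ k ∂μ = 0) →
          (∀ ε : ℝ, 0 < ε → ∃ L : ℕ, ∀ m : ℕ, ∃ τ : ℕ, m ≤ τ ∧ τ ≤ m + L ∧
            ∀ n : ℕ,
              |(∫ x, x * (P (n + τ)).eval x ^ 2 ∂μ) / (∫ x, (P (n + τ)).eval x ^ 2 ∂μ)
                - (∫ x, x * (P n).eval x ^ 2 ∂μ) / (∫ x, (P n).eval x ^ 2 ∂μ)| ≤ ε) ∧
          (∀ ε : ℝ, 0 < ε → ∃ L : ℕ, ∀ m : ℕ, ∃ τ : ℕ, m ≤ τ ∧ τ ≤ m + L ∧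
            ∀ n : ℕ,
              |(∫ x, (P (n + τ + 1)).eval x ^ 2 ∂μ) / (∫ x, (P (n + τ)).eval x ^ 2 ∂μ)
                - (∫ x, (P (n + 1)).eval x ^ 2 ∂μ) / (∫ x, (P n).eval x ^ 2 ∂μ)| ≤ ε) := by
  intro F hd J hJ hreal htd μ hμ hsupp hmin P hP
  obtain ⟨f, α, β, c, hFf, hHull, hGood, hJK⟩ := Pool.Agent.BJ.structure_S F hd J hJ hreal htd
  have hset : {x : ℝ | (x : ℂ) ∉ J} = (K f α β)ᶜ := by
    ext x
    rw [hJK]
    show ¬ ((x : ℂ) ∈ ((↑) : ℝ → ℂ) '' K f α β) ↔ ¬ (x ∈ K f α β)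
    rw [not_iff_not]
    constructor
    · rintro ⟨y, hy, hyx⟩
      rw [Complex.ofReal_inj] at hyx
      rw [← hyx]; exact hy
    · intro hx; exact ⟨x, hx, rfl⟩
  have hdiam : Metric.diam J = Metric.diam (K f α β) := by
    rw [hJK]
    exact Complex.isometry_ofReal.diam_image _
  rw [hset] at hsupp
  have hmin' : ∀ ν : Measure ℝ, IsProbabilityMeasure ν → ν (K f α β)ᶜ = 0 →
      energy (Metric.diam (K f α β)) μ ≤ energy (Metric.diam (K f α β)) ν := by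
    intro ν hν hνs
    have := hmin ν hν (by rw [hset]; exact hνs)
    rw [hdiam] at this
    exact this
  obtain ⟨hbal, hpos⟩ := Pot.potential_P f α β c hHull hGood μ hμ hsupp hmin'
  have hs : μ (Set.Icc α β)ᶜ = 0 :=
    measure_mono_null (Set.compl_subset_compl.2 (Pot.K_subset f α β)) hsupp
  obtain ⟨M, hC⟩ := core_of hHull μ hs hbal hpos
  exact apConclusion_of μ hs hC P hP (fun ε hε z hz hzα hzβ =>
    hcore f α β c _ M hC hGood ε hε z hz hzα hzβ)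

end Pool.Agent.Work.MP_e056c9_an
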