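import Pool.Agent.Work.MP_e056c9_an.Final
import Pool.Agent.Work.MP_e056c9_an.E4

/-! # The core claim from the degenerate block. -/

set_option autoImplicit false
open Polynomial MeasureTheory

namespace Pool.Agent.Work.MP_e056c9_an

theorem coreClaim_of (hDeg : ∀ (f : ℝ[X]) (α β : ℝ) (c : Fin (f.natDegree - 1) → ℝ)
    (L M : ℝ[X] →ₗ[ℝ] ℝ), Core f α β c L M →
    (f.eval (f.eval α) = f.eval α ∧ f.eval (f.eval β) = f.eval β) → DegHyp f α β c L) :
    CoreClaim := by
  intro f α β c L M hC hG ε hε z hz hzα hzβ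
  obtain ⟨k, hk⟩ := hC.final (hDeg f α β c L M hC hG.idem) ε hε
  refine ⟨k, fun n n' hnn => ?_⟩
  have h1 := hk n n' hnn
  have hzE := hC.hull.ZS_inv.out z hz
  have hz' : some z ∈ Sp (ZS f c \ Z0 f α β c) := some_mem_Sp.2 ⟨hz, fun h0 => by
    rcases h0.2 with h2 | h2
    · exact hzα h2
    · exact hzβ h2⟩
  have h2 := h1 _ hz' _ (none_mem_Sp _)
  have h3 := h1 _ (none_mem_Sp _) _ hz'
  have h4 := hC.RR_sub n n' hzE
  rw [abs_le]
  constructor <;> linarith

end Pool.Agent.Work.MP_e056c9_an
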