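import Pool.Agent.Work.MP_e056c9_an.Ext

/-! # Algebra of blocks: the basis `(f - f(c))/(X - c)`. -/

set_option autoImplicit false
set_option linter.unusedSectionVars false
set_option linter.unusedVariables false
open Polynomial

namespace Pool.Agent.Work.MP_e056c9_an

/-- Algebraic form of the balanced property. -/
structure BalL (f : ℝ[X]) (L M : ℝ[X] →ₗ[ℝ] ℝ) : Prop where
  two_le : 2 ≤ f.natDegree
  inv : ∀ H : ℝ[X], M (derivative f * H) = f.natDegree * L H
  comp : ∀ Q G : ℝ[X], G.natDegree < f.natDegree →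
      M (Q.comp f * G) = L Q * (G.coeff (f.natDegree - 1) / f.leadingCoeff)

/-- `(f - f(a))/(X - a)` -/
noncomputable def ee (f : ℝ[X]) (a : ℝ) : ℝ[X] := (f - C (f.eval a)) /ₘ (X - C a)

lemma mul_ee (f : ℝ[X]) (a : ℝ) : (X - C a) * ee f a = f - C (f.eval a) := by
  unfold ee
  rw [mul_divByMonic_eq_iff_isRoot]
  simp [IsRoot]

section
variable {f : ℝ[X]} (hd : 2 ≤ f.natDegree)
include hd

lemma f_ne : f ≠ 0 := by rintro rfl; simp at hd
lemma lc_ne : f.leadingCoeff ≠ 0 := leadingCoeff_ne_zero.2 (f_ne hd)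

lemma natDegree_sub_C' (a : ℝ) : (f - C a).natDegree = f.natDegree := natDegree_sub_C

lemma ee_natDegree (a : ℝ) : (ee f a).natDegree = f.natDegree - 1 := by
  unfold ee
  rw [natDegree_divByMonic _ (monic_X_sub_C a), natDegree_sub_C, natDegree_X_sub_C]

lemma ee_leadingCoeff (a : ℝ) : (ee f a).leadingCoeff = f.leadingCoeff := by
  have h := congrArg leadingCoeff (mul_ee f a)
  rw [leadingCoeff_mul, leadingCoeff_X_sub_C, one_mul] at h
  rw [h]
  apply leadingCoeff_sub_of_degree_lt
  refine lt_of_le_of_lt degree_C_le ?_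
  rw [← natDegree_pos_iff_degree_pos]; omega

lemma ee_coeff (a : ℝ) : (ee f a).coeff (f.natDegree - 1) = f.leadingCoeff := by
  rw [← ee_natDegree hd a]; exact ee_leadingCoeff hd a

lemma ee_ne (a : ℝ) : ee f a ≠ 0 := by
  intro h
  have := ee_leadingCoeff hd a
  rw [h, leadingCoeff_zero] at this
  exact lc_ne hd this.symm

end

section
variable {ι : Type*} [Fintype ι] [DecidableEq ι] (x : ι → ℝ)

/-- `∏ (X - x i)` -/
noncomputable def chi : ℝ[X] := ∏ i, (X - C (x i))
/-- `∏_{k ≠ i} (X - x k)` -/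
noncomputable def chie (i : ι) : ℝ[X] := ∏ k ∈ Finset.univ.erase i, (X - C (x k))

lemma chi_eq (i : ι) : chi x = (X - C (x i)) * chie x i := by
  unfold chi chie
  exact (Finset.mul_prod_erase _ (fun k => X - C (x k)) (Finset.mem_univ i)).symm

lemma chi_monic : (chi x).Monic := monic_prod_of_monic _ _ fun i _ => monic_X_sub_C _
lemma chie_monic (i : ι) : (chie x i).Monic := monic_prod_of_monic _ _ fun i _ => monic_X_sub_C _

lemma chi_natDegree : (chi x).natDegree = Fintype.card ι := by
  unfold chi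
  rw [natDegree_prod_of_monic _ _ fun i _ => monic_X_sub_C _]
  simp

lemma chie_natDegree (i : ι) : (chie x i).natDegree = Fintype.card ι - 1 := by
  unfold chie
  rw [natDegree_prod_of_monic _ _ fun i _ => monic_X_sub_C _]
  simp

lemma chie_eval_ne {x : ι → ℝ} (hx : Function.Injective x) (i : ι) : (chie x i).eval (x i) ≠ 0 := by
  unfold chie
  rw [eval_prod, Finset.prod_ne_zero_iff]
  intro k hk
  simp only [eval_sub, eval_X, eval_C]
  exact sub_ne_zero.2 fun h => (Finset.mem_erase.1 hk).1 (hx h).symm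

lemma chie_eval_of_ne {i k : ι} (hik : k ≠ i) : (chie x i).eval (x k) = 0 := by
  unfold chie
  rw [eval_prod]
  exact Finset.prod_eq_zero (Finset.mem_erase.2 ⟨hik, Finset.mem_univ _⟩) (by simp)

/-- Lagrange interpolation -/
noncomputable def lag (y : ι → ℝ) : ℝ[X] := ∑ i, C (y i / (chie x i).eval (x i)) * chie x i

lemma lag_eval {x : ι → ℝ} (hx : Function.Injective x) (y : ι → ℝ) (k : ι) :
    (lag x y).eval (x k) = y k := by
  unfold lag
  rw [eval_finsetSum, Finset.sum_eq_single k]
  · rw [eval_mul, eval_C, div_mul_cancel₀ _ (chie_eval_ne hx k)]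
  · intro i _ hik
    rw [eval_mul, chie_eval_of_ne x hik.symm, mul_zero]
  · intro h; exact absurd (Finset.mem_univ k) h

lemma lag_degree (y : ι → ℝ) : (lag x y).degree < Fintype.card ι := by
  unfold lag
  refine lt_of_le_of_lt (degree_sum_le _ _) ?_
  rw [Finset.sup_lt_iff (WithBot.bot_lt_coe _)]
  intro i _
  refine lt_of_le_of_lt (degree_mul_le _ _) ?_
  have h1 : (C (y i / (chie x i).eval (x i)) : ℝ[X]).degree ≤ 0 := degree_C_le
  have h2 : (chie x i).degree = ((Fintype.card ι - 1 : ℕ) : WithBot ℕ) := by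
    rw [degree_eq_natDegree (chie_monic x i).ne_zero, chie_natDegree]
  have hpos : 0 < Fintype.card ι := Fintype.card_pos_iff.2 ⟨i⟩
  calc (C (y i / (chie x i).eval (x i)) : ℝ[X]).degree + (chie x i).degree
      ≤ 0 + (chie x i).degree := by gcongr
    _ = ((Fintype.card ι - 1 : ℕ) : WithBot ℕ) := by rw [zero_add, h2]
    _ < (Fintype.card ι : WithBot ℕ) := by exact_mod_cast Nat.sub_lt hpos one_pos

lemma lag_of_degree {x : ι → ℝ} (hx : Function.Injective x) {b : ℝ[X]}
    (hb : b.degree < Fintype.card ι) : lag x (fun i => b.eval (x i)) = b := by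
  apply eq_of_degrees_lt_of_eval_finset_eq (Finset.univ.image x)
  · rw [Finset.card_image_of_injective _ hx, Finset.card_univ]; exact lag_degree x _
  · rw [Finset.card_image_of_injective _ hx, Finset.card_univ]; exact hb
  · intro y hy
    obtain ⟨i, hi, rfl⟩ := Finset.mem_image.1 hy
    exact lag_eval hx _ i

/-- Lemma B. -/
lemma sum_ee {x : ι → ℝ} (hx : Function.Injective x) (f : ℝ[X]) {b : ℝ[X]}
    (hb : b.degree < Fintype.card ι) :
    ∑ i, C (b.eval (x i) / (chie x i).eval (x i)) * ee f (x i) = (f * b) /ₘ chi x := by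
  symm
  apply (div_modByMonic_unique _ (lag x (fun i => b.eval (x i) * f.eval (x i))) (chi_monic x) ⟨?_, ?_⟩).1
  · rw [Finset.mul_sum]
    have h1 : ∀ i, chi x * (C (b.eval (x i) / (chie x i).eval (x i)) * ee f (x i))
        = f * (C (b.eval (x i) / (chie x i).eval (x i)) * chie x i)
          - C ((b.eval (x i) * f.eval (x i)) / (chie x i).eval (x i)) * chie x i := by
      intro i
      have h2 : chi x * (C (b.eval (x i) / (chie x i).eval (x i)) * ee f (x i))
          = C (b.eval (x i) / (chie x i).eval (x i)) * chie x i * ((X - C (x i)) * ee f (x i)) := by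
        rw [chi_eq x i]; ring
      have h3 : C ((b.eval (x i) * f.eval (x i)) / (chie x i).eval (x i))
          = C (b.eval (x i) / (chie x i).eval (x i)) * C (f.eval (x i)) := by
        rw [← C_mul]; congr 1; ring
      rw [h2, mul_ee, h3]; ring
    rw [Finset.sum_congr rfl fun i _ => h1 i, Finset.sum_sub_distrib, ← Finset.mul_sum]
    have h4 := lag_of_degree hx hb
    unfold lag at h4 ⊢
    rw [h4]; ring
  · rw [degree_eq_natDegree (chi_monic x).ne_zero, chi_natDegree]
    exact lag_degree x _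

end

section
variable {ι : Type*} [Fintype ι] [DecidableEq ι] {x : ι → ℝ} {f : ℝ[X]} {L M : ℝ[X] →ₗ[ℝ] ℝ}
  (hB : BalL f L M) {W : ℝ[X]} {κ : ℝ}
  (hW : derivative f * W = C κ * chi x) (hcard : Fintype.card ι ≤ f.natDegree)
include hB hW hcard

lemma L_eq (G : ℝ[X]) : (f.natDegree : ℝ) * L (W * G) = κ * M (chi x * G) := by
  rw [← hB.inv]
  have : derivative f * (W * G) = κ • (chi x * G) := by
    rw [← mul_assoc, hW, smul_eq_C_mul, mul_assoc]
  rw [this, map_smul, smul_eq_mul]

/-- off-diagonal entries -/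
lemma L_off {i k : ι} (hik : i ≠ k) (q q' : ℝ[X]) :
    L (W * ((q.comp f * ee f (x i)) * (q'.comp f * ee f (x k)))) = 0 := by
  have hd0 : (f.natDegree : ℝ) ≠ 0 := by
    have := hB.two_le
    exact_mod_cast (by omega : f.natDegree ≠ 0)
  have hk : k ∈ Finset.univ.erase i := Finset.mem_erase.2 ⟨hik.symm, Finset.mem_univ _⟩
  have h1 : chi x = (X - C (x i)) * ((X - C (x k)) * ∏ l ∈ (Finset.univ.erase i).erase k, (X - C (x l))) := by
    rw [chi_eq x i]; unfold chie
    rw [← Finset.mul_prod_erase _ (fun k => X - C (x k)) hk]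
  set G := ∏ l ∈ (Finset.univ.erase i).erase k, (X - C (x l)) with hG
  have hGd : G.natDegree = Fintype.card ι - 1 - 1 := by
    rw [hG, natDegree_prod_of_monic _ _ fun i _ => monic_X_sub_C _]
    simp [Finset.card_erase_of_mem hk, Finset.card_erase_of_mem (Finset.mem_univ i)]
  have h2 : chi x * ((q.comp f * ee f (x i)) * (q'.comp f * ee f (x k)))
      = ((q * q' * ((X - C (f.eval (x i))) * (X - C (f.eval (x k))))).comp f) * G := by
    have e1 := mul_ee f (x i)
    have e2 := mul_ee f (x k)
    rw [h1]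
    simp only [mul_comp, sub_comp, X_comp, C_comp]
    rw [← e1, ← e2]; ring
  have h3 := L_eq hB hW hcard ((q.comp f * ee f (x i)) * (q'.comp f * ee f (x k)))
  have hd := hB.two_le
  have hc2 : 2 ≤ Fintype.card ι := by
    have := Fintype.one_lt_card_iff.2 ⟨i, k, hik⟩; omega
  rw [h2, hB.comp _ _ (by rw [hGd]; omega), coeff_eq_zero_of_natDegree_lt (by rw [hGd]; omega)] at h3
  simp only [zero_div, mul_zero] at h3
  rcases mul_eq_zero.1 h3 with h | h
  · exact absurd h hd0
  · exact h

/-- diagonal entries -/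
lemma L_diag (i : ι) (q q' : ℝ[X]) :
    L (W * ((q.comp f * ee f (x i)) * (q'.comp f * ee f (x i))))
      = κ / f.natDegree * (chie x i).eval (x i) * L ((X - C (f.eval (x i))) * (q * q')) := by
  have hd := hB.two_le
  have hd0 : (f.natDegree : ℝ) ≠ 0 := by exact_mod_cast (by omega : f.natDegree ≠ 0)
  have hlc := lc_ne hd
  set v := (chie x i).eval (x i) with hv
  set η := (chie x i - C v) /ₘ (X - C (x i)) with hη
  have hη' : (X - C (x i)) * η = chie x i - C v := by
    rw [hη, mul_divByMonic_eq_iff_isRoot]; simp [IsRoot, hv]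
  have hcp : 0 < Fintype.card ι := Fintype.card_pos_iff.2 ⟨i⟩
  have hηd : η.natDegree < f.natDegree - 1 := by
    rw [hη, natDegree_divByMonic _ (monic_X_sub_C _), natDegree_X_sub_C, natDegree_sub_C,
      chie_natDegree]
    omega
  have h2 : chi x * ((q.comp f * ee f (x i)) * (q'.comp f * ee f (x i)))
      = ((X - C (f.eval (x i))) * (q * q')).comp f * (C v * ee f (x i))
        + ((X - C (f.eval (x i))) ^ 2 * (q * q')).comp f * η := by
    have e1 := mul_ee f (x i)
    have e3 : chie x i = C v + (X - C (x i)) * η := by rw [hη']; ring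
    rw [chi_eq x i, e3]
    simp only [mul_comp, sub_comp, X_comp, C_comp, pow_comp]
    rw [← e1]; ring
  have h3 := L_eq hB hW hcard ((q.comp f * ee f (x i)) * (q'.comp f * ee f (x i)))
  have h4 : (C v * ee f (x i)).natDegree < f.natDegree := by
    refine lt_of_le_of_lt (natDegree_C_mul_le _ _) ?_
    rw [ee_natDegree hd]; omega
  rw [h2, map_add, hB.comp _ _ h4, hB.comp _ η (by omega), coeff_C_mul, ee_coeff hd,
    coeff_eq_zero_of_natDegree_lt hηd] at h3
  have h5 : v * f.leadingCoeff / f.leadingCoeff = v := by field_simp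
  rw [h5, zero_div, mul_zero, add_zero] at h3
  field_simp
  linarith

/-- when there are fewer than `d` points, the basis vectors are orthogonal to `ℝ[f]` -/
lemma L_one (hcard' : Fintype.card ι < f.natDegree) (i : ι) (q q' : ℝ[X]) :
    L (W * (q.comp f * (q'.comp f * ee f (x i)))) = 0 := by
  have hd := hB.two_le
  have hd0 : (f.natDegree : ℝ) ≠ 0 := by exact_mod_cast (by omega : f.natDegree ≠ 0)
  have h2 : chi x * (q.comp f * (q'.comp f * ee f (x i)))
      = ((X - C (f.eval (x i))) * (q * q')).comp f * chie x i := by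
    have e1 := mul_ee f (x i)
    rw [chi_eq x i]
    simp only [mul_comp, sub_comp, X_comp, C_comp]
    rw [← e1]; ring
  have h3 := L_eq hB hW hcard (q.comp f * (q'.comp f * ee f (x i)))
  have hcp : 0 < Fintype.card ι := Fintype.card_pos_iff.2 ⟨i⟩
  have h4 : (chie x i).natDegree < f.natDegree - 1 := by rw [chie_natDegree]; omega
  rw [h2, hB.comp _ _ (by omega), coeff_eq_zero_of_natDegree_lt h4] at h3
  simp only [zero_div, mul_zero] at h3
  rcases mul_eq_zero.1 h3 with h | h
  · exact absurd h hd0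
  · exact h

/-- square of a combination -/
lemma L_sq (q : ι → ℝ[X]) :
    L (W * (∑ i, (q i).comp f * ee f (x i)) ^ 2)
      = ∑ i, κ / f.natDegree * (chie x i).eval (x i) * L ((X - C (f.eval (x i))) * (q i) ^ 2) := by
  rw [pow_two, Finset.sum_mul_sum, Finset.mul_sum, map_sum]
  refine Finset.sum_congr rfl fun i _ => ?_
  rw [Finset.mul_sum, map_sum, Finset.sum_eq_single i]
  · rw [L_diag hB hW hcard, pow_two]
  · intro k _ hki
    exact L_off hB hW hcard hki.symm _ _
  · intro h; exact absurd (Finset.mem_univ i) h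

end

lemma L_comp {f : ℝ[X]} {L M : ℝ[X] →ₗ[ℝ] ℝ} (hB : BalL f L M) (Q : ℝ[X]) :
    L (Q.comp f) = L Q := by
  have hd := hB.two_le
  have hd0 : (f.natDegree : ℝ) ≠ 0 := by exact_mod_cast (by omega : f.natDegree ≠ 0)
  have h1 := hB.inv (Q.comp f)
  have h2 : (derivative f).coeff (f.natDegree - 1) = f.natDegree * f.leadingCoeff := by
    rw [coeff_derivative, Nat.sub_add_cancel (by omega), leadingCoeff]
    have : ((f.natDegree - 1 : ℕ) : ℝ) = f.natDegree - 1 := by
      rw [Nat.cast_sub (by omega)]; simp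
    rw [this]; ring
  rw [mul_comm, hB.comp _ _ (natDegree_derivative_lt (by omega)), h2] at h1
  have hlc := lc_ne hd
  field_simp at h1
  linarith

end Pool.Agent.Work.MP_e056c9_an
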