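import Pool.Agent.Work.MP_e056c9_an.End2

/-! # From measures to functionals. -/

set_option autoImplicit false
set_option linter.unusedSectionVars false
set_option linter.unusedVariables false
open Polynomial MeasureTheory

namespace Pool.Agent.Work.MP_e056c9_an

lemma integrable_poly {α β : ℝ} (μ : Measure ℝ) (hμ : IsProbabilityMeasure μ)
    (hsupp : μ (Set.Icc α β)ᶜ = 0) {g : ℝ → ℝ} (hg : Continuous g) : Integrable g μ := by
  have h1 : IntegrableOn g (Set.Icc α β) μ := hg.continuousOn.integrableOn_compact isCompact_Icc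
  have h2 : μ.restrict (Set.Icc α β) = μ := Measure.restrict_eq_self_of_ae_mem (by
    rw [ae_iff]; exact hsupp)
  rw [IntegrableOn, h2] at h1
  exact h1

/-- the functional of a measure -/
noncomputable def LM {α β : ℝ} (μ : Measure ℝ) (hμ : IsProbabilityMeasure μ)
    (hsupp : μ (Set.Icc α β)ᶜ = 0) : ℝ[X] →ₗ[ℝ] ℝ where
  toFun p := ∫ x, p.eval x ∂μ
  map_add' p q := by
    simp only [eval_add]
    exact integral_add (integrable_poly μ hμ hsupp p.continuous)
      (integrable_poly μ hμ hsupp q.continuous)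
  map_smul' t p := by
    simp only [eval_smul, RingHom.id_apply, smul_eq_mul]
    exact integral_const_mul t _

lemma LM_apply {α β : ℝ} (μ : Measure ℝ) (hμ : IsProbabilityMeasure μ)
    (hsupp : μ (Set.Icc α β)ᶜ = 0) (p : ℝ[X]) : LM μ hμ hsupp p = ∫ x, p.eval x ∂μ := rfl

/-- BLOCKS R, C, E. -/
theorem core_C' (f : ℝ[X]) (α β : ℝ) (c : Fin (f.natDegree - 1) → ℝ) (h : Hull f α β c)
    (hDeg : ∀ L M : ℝ[X] →ₗ[ℝ] ℝ, Core f α β c L M → DegHyp f α β c L)
    (μ : Measure ℝ) (hμ : IsProbabilityMeasure μ) (hsupp : μ (Set.Icc α β)ᶜ = 0)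
    (hbal : Balanced f μ) (hpos : ∀ p : ℝ[X], p ≠ 0 → 0 < ∫ x, p.eval x ^ 2 ∂μ)
    (P : ℕ → ℝ[X])
    (hP : ∀ n : ℕ, (P n).Monic ∧ (P n).natDegree = n ∧
            ∀ k : ℕ, k < n → ∫ x, (P n).eval x * x ^ k ∂μ = 0) :
    APConclusion μ P := by
  obtain ⟨M, hM1, hM2⟩ := hbal
  set L := LM μ hμ hsupp with hL
  have hBal : BalL f L M := ⟨h.two_le, hM1, hM2⟩
  have hpos' : ∀ p : ℝ[X], p ≠ 0 → 0 < L (p ^ 2) := by
    intro p hp
    have := hpos p hp
    rw [hL, LM_apply]
    simpa [eval_pow] using this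
  have hae : ∀ᵐ x ∂μ, x ∈ Set.Icc α β := by rw [ae_iff]; exact hsupp
  have hPos : PosL α β L := by
    refine ⟨hpos', ?_⟩
    intro z hz p hp
    rw [LL_apply]
    have hne : (C z - X) * p ≠ 0 := by
      refine mul_ne_zero ?_ hp
      intro h0
      have := congrArg (coeff · 1) h0
      simp at this
    have h1 := hpos _ hne
    have hnn : ∀ᵐ x ∂μ, 0 ≤ sg β z * ((z - x) * p.eval x ^ 2) := by
      filter_upwards [hae] with x hx
      have hs : 0 ≤ sg β z * (z - x) := by
        unfold sg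
        have hlt := h.lt
        split_ifs with h2
        · have := hx.2; linarith
        · rcases hz with hz | hz
          · have := hx.1; linarith
          · exact absurd hz h2
      have := mul_nonneg hs (sq_nonneg (p.eval x))
      calc 0 ≤ sg β z * (z - x) * p.eval x ^ 2 := this
        _ = _ := by ring
    have hint : Integrable (fun x => sg β z * ((z - x) * p.eval x ^ 2)) μ :=
      integrable_poly μ hμ hsupp (by
        have := p.continuous
        fun_prop)
    have heq : sg β z * L ((C z - X) * p ^ 2) = ∫ x, sg β z * ((z - x) * p.eval x ^ 2) ∂μ := by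
      rw [hL, LM_apply, integral_const_mul]
      simp [eval_pow]
    rw [heq]
    have h0 : 0 ≤ ∫ x, sg β z * ((z - x) * p.eval x ^ 2) ∂μ := integral_nonneg_of_ae hnn
    rcases h0.eq_or_lt with h2 | h2
    · exfalso
      rw [eq_comm, integral_eq_zero_iff_of_nonneg_ae hnn hint] at h2
      have h3 : ∫ x, ((C z - X) * p).eval x ^ 2 ∂μ = 0 := by
        rw [integral_eq_zero_of_ae]
        filter_upwards [h2] with x hx
        simp only [Pi.zero_apply, mul_eq_zero, sg_ne, false_or] at hx
        simp only [eval_mul, eval_sub, eval_C, eval_X, Pi.zero_apply, mul_pow, mul_eq_zero]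
        rcases hx with hx | hx
        · left; rw [hx]; ring
        · right; exact hx
      linarith
    · exact h2
  have hC : Core f α β c L M := ⟨h, hBal, hPos⟩
  have hOP : ∀ n, IsOP L n (P n) := by
    intro n
    obtain ⟨h1, h2, h3⟩ := hP n
    refine ⟨h1, h2, fun q hq => ?_⟩
    have hmon : ∀ k < n, L (P n * X ^ k) = 0 := by
      intro k hk
      rw [hL, LM_apply, ← h3 k hk]
      simp
    by_cases hq0 : q = 0
    · rw [hq0, mul_zero, map_zero]
    have hqn : q.natDegree < n := by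
      rw [natDegree_lt_iff_degree_lt hq0]; exact hq
    rw [q.as_sum_range' n hqn, Finset.mul_sum, map_sum]
    apply Finset.sum_eq_zero
    intro k hk
    have e : P n * monomial k (q.coeff k) = (q.coeff k) • (P n * X ^ k) := by
      rw [← C_mul_X_pow_eq_monomial, smul_eq_C_mul]; ring
    rw [e, map_smul, hmon k (Finset.mem_range.1 hk), smul_zero]
  have hb : ∀ n, bb L P n = (∫ x, x * (P n).eval x ^ 2 ∂μ) / (∫ x, (P n).eval x ^ 2 ∂μ) := by
    intro n
    unfold bb
    rw [hL, LM_apply, LM_apply]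
    simp [eval_pow]
  have ha : ∀ n, aa L P n = (∫ x, (P (n + 1)).eval x ^ 2 ∂μ) / (∫ x, (P n).eval x ^ 2 ∂μ) := by
    intro n
    unfold aa
    rw [hL, LM_apply, LM_apply]
    simp [eval_pow]
  have hD := hDeg L M hC
  constructor
  · intro ε hε
    obtain ⟨l, hl⟩ := (bb_LP hC hOP hD).ap h.two_le ε hε
    refine ⟨l, fun m => ?_⟩
    obtain ⟨τ, h1, h2, h3⟩ := hl m
    refine ⟨τ, h1, h2, fun n => ?_⟩
    have := h3 n
    rw [hb, hb] at this
    exact this
  · intro ε hε
    obtain ⟨l, hl⟩ := (aa_LP hC hOP hD).ap h.two_le ε hε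
    refine ⟨l, fun m => ?_⟩
    obtain ⟨τ, h1, h2, h3⟩ := hl m
    refine ⟨τ, h1, h2, fun n => ?_⟩
    have := h3 n
    rw [ha, ha] at this
    exact this

end Pool.Agent.Work.MP_e056c9_an
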