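import Pool.Agent.Work.MP_e056c9_an.Ext

/-! # Explicit (Heine type) formula for the extremal problem with finitely many atoms. -/

set_option autoImplicit false
set_option linter.unusedSectionVars false
open Polynomial

namespace Pool.Agent.Work.MP_e056c9_an

section
variable {ι : Type*} [Fintype ι] [DecidableEq ι]

/-- squared Vandermonde determinant -/
noncomputable def DD (x : ι → ℝ) (I : Finset ι) : ℝ := ∏ i ∈ I, ∏ j ∈ I.erase i, |x i - x j|

/-- Hankel determinants of the discrete measure -/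
noncomputable def EE (x w : ι → ℝ) (k : ℕ) : ℝ :=
  ∑ I ∈ Finset.powersetCard k Finset.univ, (∏ i ∈ I, w i) * DD x I

/-- numerator of the Heine formula -/
noncomputable def heine (x w : ι → ℝ) (r : ℕ) : ℝ[X] :=
  ∑ I ∈ Finset.powersetCard r Finset.univ, C ((∏ i ∈ I, w i) * DD x I) * Lagrange.nodal I x

lemma DD_pos {x : ι → ℝ} (hx : Function.Injective x) (I : Finset ι) : 0 < DD x I := by
  refine Finset.prod_pos fun i _ => Finset.prod_pos fun j hj => ?_
  refine abs_pos.2 (sub_ne_zero.2 fun h => ?_)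
  exact (Finset.mem_erase.1 hj).1 (hx h).symm

lemma DD_erase (x : ι → ℝ) {K : Finset ι} {j : ι} (hj : j ∈ K) :
    DD x K = DD x (K.erase j) * (∏ i ∈ K.erase j, (x j - x i)) ^ 2 := by
  unfold DD
  rw [← Finset.mul_prod_erase K _ hj]
  have h1 : ∀ a ∈ K.erase j, ∏ b ∈ K.erase a, |x a - x b|
      = |x j - x a| * ∏ b ∈ (K.erase j).erase a, |x a - x b| := by
    intro a ha
    have hja : j ∈ K.erase a := Finset.mem_erase.2 ⟨(Finset.mem_erase.1 ha).1.symm, hj⟩
    rw [← Finset.mul_prod_erase (K.erase a) _ hja, Finset.erase_right_comm, abs_sub_comm]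
  rw [Finset.prod_congr rfl h1, Finset.prod_mul_distrib, ← sq_abs (∏ i ∈ K.erase j, (x j - x i)),
    Finset.abs_prod]
  ring

lemma heine_key {x : ι → ℝ} (hx : Function.Injective x) (w : ι → ℝ) (r : ℕ) {q : ℝ[X]}
    (hq : q.degree < (r + 1 : ℕ)) :
    disc x w (heine x w r * q) = EE x w (r + 1) * q.coeff r := by
  classical
  rw [disc_apply]
  have h1 : ∀ j, w j * (heine x w r * q).eval (x j)
      = ∑ I ∈ Finset.powersetCard r Finset.univ,
        w j * (((∏ i ∈ I, w i) * DD x I) * (∏ i ∈ I, (x j - x i)) * q.eval (x j)) := by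
    intro j
    rw [heine, Finset.sum_mul, eval_finsetSum, Finset.mul_sum]
    refine Finset.sum_congr rfl fun I _ => ?_
    rw [eval_mul, eval_mul, eval_C, Lagrange.eval_nodal]
  rw [Finset.sum_congr rfl fun j _ => h1 j, Finset.sum_comm]
  -- reorganise
  have h2 : ∀ I ∈ Finset.powersetCard r (Finset.univ : Finset ι),
      ∑ j, w j * (((∏ i ∈ I, w i) * DD x I) * (∏ i ∈ I, (x j - x i)) * q.eval (x j))
      = ∑ j ∈ Iᶜ, w j * (((∏ i ∈ I, w i) * DD x I) * (∏ i ∈ I, (x j - x i)) * q.eval (x j)) := by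
    intro I _
    symm
    apply Finset.sum_subset (Finset.subset_univ _)
    intro j _ hj
    have hjI : j ∈ I := by simpa using hj
    have h0 : ∏ i ∈ I, (x j - x i) = 0 := Finset.prod_eq_zero hjI (sub_self _)
    rw [h0]
    ring
  rw [Finset.sum_congr rfl h2, Finset.sum_sigma']
  have h3 : EE x w (r + 1) * q.coeff r
      = ∑ K ∈ Finset.powersetCard (r + 1) Finset.univ, ∑ j ∈ K,
        ((∏ i ∈ K, w i) * DD x K) * (q.eval (x j) / ∏ i ∈ K.erase j, (x j - x i)) := by
    rw [EE, Finset.sum_mul]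
    refine Finset.sum_congr rfl fun K hK => ?_
    have hc : K.card = r + 1 := (Finset.mem_powersetCard.1 hK).2
    have := Lagrange.coeff_eq_sum (s := K) (v := x) hx.injOn (P := q) (by rw [hc]; exact hq)
    rw [hc, Nat.add_sub_cancel] at this
    rw [this, Finset.mul_sum]
  rw [h3, Finset.sum_sigma']
  refine Finset.sum_bij' (fun p _ => ⟨insert p.2 p.1, p.2⟩) (fun p _ => ⟨p.1.erase p.2, p.2⟩)
    ?_ ?_ ?_ ?_ ?_
  · rintro ⟨I, j⟩ h
    rw [Finset.mem_sigma] at h ⊢
    obtain ⟨hI, hj⟩ := h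
    have hj' : j ∉ I := by simpa using hj
    refine ⟨?_, Finset.mem_insert_self _ _⟩
    rw [Finset.mem_powersetCard]
    exact ⟨Finset.subset_univ _, by
      rw [Finset.card_insert_of_notMem hj', (Finset.mem_powersetCard.1 hI).2]⟩
  · rintro ⟨K, j⟩ h
    rw [Finset.mem_sigma] at h ⊢
    obtain ⟨hK, hj⟩ := h
    refine ⟨?_, by simp⟩
    rw [Finset.mem_powersetCard]
    exact ⟨Finset.subset_univ _, by
      rw [Finset.card_erase_of_mem hj, (Finset.mem_powersetCard.1 hK).2, Nat.add_sub_cancel]⟩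
  · rintro ⟨I, j⟩ h
    rw [Finset.mem_sigma] at h
    have hj' : j ∉ I := by simpa using h.2
    simp only
    rw [Finset.erase_insert hj']
  · rintro ⟨K, j⟩ h
    rw [Finset.mem_sigma] at h
    simp only
    rw [Finset.insert_erase h.2]
  · rintro ⟨I, j⟩ h
    rw [Finset.mem_sigma] at h
    have hj' : j ∉ I := by simpa using h.2
    simp only
    have h4 : (insert j I).erase j = I := Finset.erase_insert hj'
    rw [Finset.prod_insert hj', DD_erase x (Finset.mem_insert_self j I), h4]
    have h5 : ∏ i ∈ I, (x j - x i) ≠ 0 := by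
      rw [Finset.prod_ne_zero_iff]
      intro i hi
      refine sub_ne_zero.2 fun e => ?_
      rw [hx e] at hj'
      exact hj' hi
    field_simp

lemma EE_pos {x w : ι → ℝ} (hx : Function.Injective x) (hw : ∀ i, 0 < w i) {k : ℕ}
    (hk : k ≤ Fintype.card ι) : 0 < EE x w k := by
  refine Finset.sum_pos (fun I _ => mul_pos (Finset.prod_pos fun i _ => hw i) (DD_pos hx I)) ?_
  rw [Finset.powersetCard_nonempty]
  simpa using hk

lemma EE_nonneg {x w : ι → ℝ} (hw : ∀ i, 0 ≤ w i) (k : ℕ) : 0 ≤ EE x w k := by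
  refine Finset.sum_nonneg fun I _ => mul_nonneg (Finset.prod_nonneg fun i _ => hw i) ?_
  exact Finset.prod_nonneg fun i _ => Finset.prod_nonneg fun j _ => abs_nonneg _

lemma EE_zero (x w : ι → ℝ) : EE x w 0 = 1 := by
  simp [EE, DD]

lemma heine_degree_le (x w : ι → ℝ) (r : ℕ) : (heine x w r).natDegree ≤ r := by
  refine natDegree_sum_le_of_forall_le _ _ fun I hI => ?_
  refine (natDegree_C_mul_le _ _).trans ?_
  rw [Lagrange.natDegree_nodal, (Finset.mem_powersetCard.1 hI).2]

lemma heine_coeff (x w : ι → ℝ) (r : ℕ) : (heine x w r).coeff r = EE x w r := by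
  rw [heine, finsetSum_coeff, EE]
  refine Finset.sum_congr rfl fun I hI => ?_
  rw [coeff_C_mul]
  have h1 : (Lagrange.nodal I x).coeff r = 1 := by
    have h2 := Lagrange.nodal_monic (s := I) (v := x)
    rw [Monic, leadingCoeff, Lagrange.natDegree_nodal, (Finset.mem_powersetCard.1 hI).2] at h2
    exact h2
  rw [h1, mul_one]

/-- the normalised Heine polynomial is the monic orthogonal polynomial -/
lemma heine_isOP {x w : ι → ℝ} (hx : Function.Injective x) {r : ℕ} (hE : EE x w r ≠ 0) :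
    IsOP (disc x w) r (C (EE x w r)⁻¹ * heine x w r) := by
  have hc : (C (EE x w r)⁻¹ * heine x w r).coeff r = 1 := by
    rw [coeff_C_mul, heine_coeff, inv_mul_cancel₀ hE]
  have hle : (C (EE x w r)⁻¹ * heine x w r).natDegree ≤ r :=
    (natDegree_C_mul_le _ _).trans (heine_degree_le x w r)
  have hnd : (C (EE x w r)⁻¹ * heine x w r).natDegree = r := by
    refine le_antisymm hle (le_natDegree_of_ne_zero ?_)
    rw [hc]; exact one_ne_zero
  refine ⟨?_, hnd, ?_⟩
  · rw [Monic, leadingCoeff, hnd, hc]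
  · intro q hq
    have h1 := heine_key hx w r (q := q) (lt_of_lt_of_le hq (by exact_mod_cast Nat.le_succ r))
    have h2 : q.coeff r = 0 := coeff_eq_zero_of_degree_lt hq
    rw [mul_assoc, ← smul_eq_C_mul, map_smul, h1, h2]; simp

/-- Heine formula for the extremal value -/
lemma hh_disc {x w : ι → ℝ} (hx : Function.Injective x) (hw : ∀ i, 0 ≤ w i) {r : ℕ}
    (hE : EE x w r ≠ 0) : hh (disc x w) r = EE x w (r + 1) / EE x w r := by
  have hop := heine_isOP hx hE
  rw [hop.hh_eq (disc_NN x w hw)]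
  set p := C (EE x w r)⁻¹ * heine x w r with hp
  have h1 : p ^ 2 = (EE x w r)⁻¹ • (heine x w r * p) := by
    rw [smul_eq_C_mul, pow_two]
    conv_lhs => rw [hp]
    rw [hp]; ring
  have h2 := heine_key hx w r (q := p) (by
    rw [degree_eq_natDegree hop.monic.ne_zero, hop.deg]
    exact_mod_cast Nat.lt_succ_self r)
  have h3 : p.coeff r = 1 := by
    have := hop.monic
    rw [Monic, leadingCoeff, hop.deg] at this
    exact this
  rw [h1, map_smul, h2, h3, smul_eq_mul, mul_one]
  field_simp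

end

end Pool.Agent.Work.MP_e056c9_an
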