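import Pool.Agent.Work.MP_e056c9_an.Env
import Pool.Agent.Work.MP_e056c9_an.Heine

/-! # Size estimates for the extremal problem and the normalised recursion -/

set_option autoImplicit false
set_option linter.unusedSectionVars false
set_option linter.unusedVariables false
open Polynomial

namespace Pool.Agent.Work.MP_e056c9_an

section
variable {ι : Type*} [Fintype ι] [DecidableEq ι]

lemma ind_PosTo {x : ι → ℝ} (hx : Function.Injective x) (T : Finset ι) {k : ℕ} (hk : k ≤ T.card) :
    PosTo (disc x (fun i => if i ∈ T then (1:ℝ) else 0)) k := by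
  intro q hq hd
  rw [disc_sq]
  by_contra hle
  push Not at hle
  have hnn : ∀ i ∈ Finset.univ, 0 ≤ (if i ∈ T then (1:ℝ) else 0) * q.eval (x i) ^ 2 := by
    intro i _
    split_ifs <;> positivity
  have h0 := (Finset.sum_eq_zero_iff_of_nonneg hnn).1
    (le_antisymm hle (Finset.sum_nonneg hnn))
  apply hq
  apply Polynomial.eq_zero_of_degree_lt_of_eval_finset_eq_zero (T.image x)
  · rw [Finset.card_image_of_injective _ hx]
    exact lt_of_lt_of_le hd (by exact_mod_cast hk)
  · intro y hy
    obtain ⟨i, hi, rfl⟩ := Finset.mem_image.1 hy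
    have := h0 i (Finset.mem_univ i)
    rw [if_pos hi, one_mul] at this
    exact pow_eq_zero_iff (two_ne_zero) |>.1 this

/-- two sided size estimate -/
theorem size_lemma {x : ι → ℝ} (hx : Function.Injective x) :
    ∃ K : ℝ, 1 ≤ K ∧ ∀ r : ℕ, r ≤ Fintype.card ι → ∀ (w : ι → ℝ), (∀ i, 0 ≤ w i) →
      ∀ (T : Finset ι) (τ : ℝ), 0 ≤ τ →
      (r + 1 ≤ T.card → (∀ i ∈ T, τ ≤ w i) → τ ≤ K * hh (disc x w) r) ∧
      (T.card ≤ r → (∀ i ∉ T, w i ≤ τ) → hh (disc x w) r ≤ K * τ) := by
  classical
  set ind : Finset ι → ι → ℝ := fun T i => if i ∈ T then (1:ℝ) else 0 with hind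
  set A : Finset ι → ℕ → ℝ := fun T r => |(hh (disc x (ind T)) r)⁻¹| with hA
  set B : Finset ι → ℕ → ℝ := fun T r =>
    ∑ i, ((Lagrange.nodal T x * X ^ (r - T.card)).eval (x i)) ^ 2 with hB
  have hAnn : ∀ T r, 0 ≤ A T r := fun T r => abs_nonneg _
  have hBnn : ∀ T r, 0 ≤ B T r := fun T r => Finset.sum_nonneg fun i _ => sq_nonneg _
  set K : ℝ := 1 + ∑ T ∈ (Finset.univ : Finset (Finset ι)),
    ∑ r ∈ Finset.range (Fintype.card ι + 1), (A T r + B T r) with hK
  have hKsum : ∀ T r, r ≤ Fintype.card ι → A T r + B T r ≤ K := by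
    intro T r hr
    have h1 : A T r + B T r ≤ ∑ r ∈ Finset.range (Fintype.card ι + 1), (A T r + B T r) :=
      Finset.single_le_sum (f := fun r => A T r + B T r)
        (fun r _ => add_nonneg (hAnn T r) (hBnn T r)) (Finset.mem_range.2 (by omega))
    have h2 : ∑ r ∈ Finset.range (Fintype.card ι + 1), (A T r + B T r)
        ≤ ∑ T ∈ (Finset.univ : Finset (Finset ι)),
          ∑ r ∈ Finset.range (Fintype.card ι + 1), (A T r + B T r) :=
      Finset.single_le_sum
        (f := fun T => ∑ r ∈ Finset.range (Fintype.card ι + 1), (A T r + B T r))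
        (fun T _ => Finset.sum_nonneg fun r _ => add_nonneg (hAnn T r) (hBnn T r))
        (Finset.mem_univ T)
    linarith
  refine ⟨K, ?_, fun r hr w hw T τ hτ => ⟨fun hT hTw => ?_, fun hT hTw => ?_⟩⟩
  · have : 0 ≤ ∑ T ∈ (Finset.univ : Finset (Finset ι)),
        ∑ r ∈ Finset.range (Fintype.card ι + 1), (A T r + B T r) :=
      Finset.sum_nonneg fun T _ => Finset.sum_nonneg fun r _ => add_nonneg (hAnn T r) (hBnn T r)
    linarith
  · -- lower bound
    have hNN : NN (disc x (ind T)) := disc_NN _ _ fun i => by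
      simp only [hind]; split_ifs <;> norm_num
    have hpos : 0 < hh (disc x (ind T)) r := hh_pos hNN (ind_PosTo hx T hT)
    rcases eq_or_lt_of_le hτ with h0 | h0
    · rw [← h0]
      have h1 := hh_nonneg (disc_NN x w hw) r
      have h2 := hKsum T r hr
      have h3 := add_nonneg (hAnn T r) (hBnn T r)
      exact mul_nonneg (by linarith) h1
    · have h1 : τ * hh (disc x (ind T)) r ≤ hh (disc x w) r := by
        rw [← hh_disc_smul h0 (fun i => by simp only [hind]; split_ifs <;> norm_num)]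
        refine hh_disc_mono (fun i => ?_) (fun i => ?_) r
        · simp only [hind]; split_ifs <;> simp [hτ]
        · simp only [hind]
          split_ifs with hi
          · rw [mul_one]; exact hTw i hi
          · rw [mul_zero]; exact hw i
      have h2 : (hh (disc x (ind T)) r)⁻¹ ≤ K := by
        have h3 := hKsum T r hr
        have h4 : A T r = (hh (disc x (ind T)) r)⁻¹ := abs_of_pos (inv_pos.2 hpos)
        have h5 := hBnn T r
        linarith
      have h3 : τ = (hh (disc x (ind T)) r)⁻¹ * (τ * hh (disc x (ind T)) r) := by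
        field_simp
      rw [h3]
      have h6 : 0 ≤ τ * hh (disc x (ind T)) r := mul_nonneg hτ hpos.le
      have h7 : 0 ≤ K := le_trans (inv_pos.2 hpos).le h2
      exact mul_le_mul h2 h1 h6 h7
  · -- upper bound
    have hmon : (Lagrange.nodal T x * X ^ (r - T.card)).Monic :=
      (Lagrange.nodal_monic).mul (monic_X_pow _)
    have hdeg : (Lagrange.nodal T x * X ^ (r - T.card)).natDegree = r := by
      rw [Monic.natDegree_mul Lagrange.nodal_monic (monic_X_pow _), Lagrange.natDegree_nodal,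
        natDegree_X_pow]
      omega
    have h1 := hh_le (disc_NN x w hw) hmon hdeg
    refine h1.trans ?_
    rw [disc_sq]
    have h2 : ∀ i ∈ Finset.univ, w i * (Lagrange.nodal T x * X ^ (r - T.card)).eval (x i) ^ 2
        ≤ τ * (Lagrange.nodal T x * X ^ (r - T.card)).eval (x i) ^ 2 := by
      intro i _
      by_cases hi : i ∈ T
      · have : (Lagrange.nodal T x * X ^ (r - T.card)).eval (x i) = 0 := by
          rw [eval_mul, Lagrange.eval_nodal_at_node hi, zero_mul]
        rw [this]; simp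
      · exact mul_le_mul_of_nonneg_right (hTw i hi) (sq_nonneg _)
    refine (Finset.sum_le_sum h2).trans ?_
    rw [← Finset.mul_sum]
    have h3 := hKsum T r hr
    have h4 := hAnn T r
    have h5 : B T r ≤ K := by linarith
    calc τ * B T r ≤ τ * K := mul_le_mul_of_nonneg_left h5 hτ
      _ = K * τ := mul_comm _ _

end

section
variable {f : ℝ[X]} {ι : Type*} [Fintype ι] [DecidableEq ι]

/-- size estimate in terms of the environment -/
theorem size_om (hd : 2 ≤ f.natDegree) {x : ι → ℝ} (hx : Function.Injective x) :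
    ∃ K : ℝ, 1 ≤ K ∧ ∀ r : ℕ, r ≤ Fintype.card ι → ∀ (U : ℝ → ℝ), (∀ i, 0 ≤ U (f.eval (x i))) →
      ∀ (T : Finset ι) (τ : ℝ), 0 ≤ τ →
      (r + 1 ≤ T.card → (∀ i ∈ T, τ ≤ U (f.eval (x i))) → τ ≤ K * hh (disc x (om f x U)) r) ∧
      (T.card ≤ r → (∀ i ∉ T, U (f.eval (x i)) ≤ τ) → hh (disc x (om f x U)) r ≤ K * τ) := by
  classical
  obtain ⟨K, hK1, hK⟩ := size_lemma hx
  set g : ι → ℝ := fun i => |f.leadingCoeff| * |(chie x i).eval (x i)| with hg
  have hgpos : ∀ i, 0 < g i := fun i =>
    mul_pos (abs_pos.2 (lc_ne hd)) (abs_pos.2 (chie_eval_ne hx i))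
  have hom : ∀ U i, om f x U i = U (f.eval (x i)) / g i := fun U i => rfl
  set G : ℝ := 1 + ∑ i, (g i + (g i)⁻¹) with hG
  have hGi : ∀ i, g i + (g i)⁻¹ ≤ G := by
    intro i
    have h1 : g i + (g i)⁻¹ ≤ ∑ i, (g i + (g i)⁻¹) :=
      Finset.single_le_sum (f := fun i => g i + (g i)⁻¹)
        (fun i _ => by have := hgpos i; positivity) (Finset.mem_univ i)
    linarith
  have hG1 : 1 ≤ G := by
    have : 0 ≤ ∑ i, (g i + (g i)⁻¹) := Finset.sum_nonneg fun i _ => by
      have := hgpos i; positivity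
    linarith
  refine ⟨K * G, by nlinarith, fun r hr U hU T τ hτ => ⟨fun hT hTw => ?_, fun hT hTw => ?_⟩⟩
  · have h1 := (hK r hr (om f x U) (fun i => om_nonneg hU i) T (τ / G) (by positivity)).1 hT
      (fun i hi => by
        rw [hom, div_le_div_iff₀ (by linarith) (hgpos i)]
        have h2 := hTw i hi
        have h3 := hGi i
        have h4 : g i ≤ G := by have := inv_pos.2 (hgpos i); linarith
        have h5 := hgpos i
        nlinarith [hU i])
    rw [div_le_iff₀ (by linarith)] at h1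
    linarith
  · have h1 := (hK r hr (om f x U) (fun i => om_nonneg hU i) T (τ * G) (by positivity)).2 hT
      (fun i hi => by
        rw [hom, div_le_iff₀ (hgpos i)]
        have h2 := hTw i hi
        have h3 := hGi i
        have h4 : (g i)⁻¹ ≤ G := by have := hgpos i; linarith
        have h5 := hgpos i
        have h6 : 1 ≤ G * g i := by
          have := mul_le_mul_of_nonneg_right h4 h5.le
          rwa [inv_mul_cancel₀ h5.ne'] at this
        calc U (f.eval (x i)) ≤ τ := h2
          _ ≤ τ * (G * g i) := le_mul_of_one_le_right hτ h6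
          _ = τ * G * g i := by ring)
    linarith

end

section
variable {f : ℝ[X]} {α β : ℝ} {c : Fin (f.natDegree - 1) → ℝ} {L M : ℝ[X] →ₗ[ℝ] ℝ}
  (hC : Core f α β c L M)
include hC

lemma om_smul {ι : Type*} [Fintype ι] [DecidableEq ι] (x : ι → ℝ) (m : ℕ) :
    om f x (fun y => Hn L β m (some y)) = fun i => hh L m * om f x (uu L β m) i := by
  funext i
  unfold om uu Hn
  have := (hC.hh_pos m).ne'
  field_simp

/-- denominators of the normalised recursion -/
noncomputable def den (f : ℝ[X]) (c : Fin (f.natDegree - 1) → ℝ) (U : ℝ → ℝ) (r : ℕ) : ℝ :=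
  if r = 0 then 1 else hh (disc c (om f c U)) (r - 1)

/-- numerators of the normalised recursion -/
noncomputable def num (f : ℝ[X]) (c : Fin (f.natDegree - 1) → ℝ) (U : ℝ → ℝ) (r : ℕ) (z : ℝ) : ℝ :=
  hh (disc (xz c z) (om f (xz c z) U)) r

lemma Core.om_uu_pos {ι : Type*} [Fintype ι] [DecidableEq ι] {x : ι → ℝ}
    (hx : Function.Injective x) (hv : ∀ i, f.eval (x i) ≤ α ∨ β ≤ f.eval (x i)) (m : ℕ) (i : ι) :
    0 < om f x (uu L β m) i :=
  om_pos hC.d2 hx (fun i => hC.uu_pos m (hv i)) i

lemma Core.TT_none (m r : ℕ) :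
    TT f c r (Hn L β m) none = hh L m * den f c (uu L β m) r := by
  unfold TT den
  split_ifs with h0
  · rw [mul_one]; rfl
  · unfold Dinf
    rw [om_smul hC c m]
    exact hh_disc_smul (hC.hh_pos m)
      (fun i => (hC.om_uu_pos hC.hull.inj hC.hull.val m i).le) _

lemma Core.TT_some (m r : ℕ) {z : ℝ} (hz : z ≤ α ∨ β ≤ z) :
    TT f c r (Hn L β m) (some z) = hh L m * num f c (uu L β m) r z := by
  show hh (disc (xz c z) (om f (xz c z) (fun y => Hn L β m (some y)))) r = _
  unfold num
  rw [om_smul hC (xz c z) m]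
  exact hh_disc_smul (hC.hh_pos m)
    (fun i => (hC.om_uu_pos (hC.hull.xz_inj hz) (hC.hull.xz_val hz) m i).le) _

lemma Core.den_pos (m r : ℕ) (hr : r < f.natDegree) : 0 < den f c (uu L β m) r := by
  have h1 := (TT_pos hC.hull hC.hull.ZS_inv (hC.Hn_pos hC.hull.ZS_inv m) hr).1
  rw [hC.TT_none] at h1
  exact (mul_pos_iff_of_pos_left (hC.hh_pos m)).1 h1

lemma Core.num_pos (m r : ℕ) (hr : r < f.natDegree) {z : ℝ} (hz : z ≤ α ∨ β ≤ z) :
    0 < num f c (uu L β m) r z := by
  have hx := hC.hull.xz_inj hz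
  unfold num
  refine Pool.Agent.Work.MP_e056c9_an.hh_pos (disc_NN _ _ fun i =>
    (hC.om_uu_pos hx (hC.hull.xz_val hz) m i).le) ?_
  have := disc_PosTo (xz c z) _ hx (fun i => hC.om_uu_pos hx (hC.hull.xz_val hz) m i)
  rw [card_opt hC.d2] at this
  exact this.mono (by omega)

/-- the normalised recursion -/
theorem Core.uu_rec (m r : ℕ) (hr : r < f.natDegree) {z : ℝ} (hz : z ≤ α ∨ β ≤ z) :
    uu L β (f.natDegree * m + r) z = num f c (uu L β m) r z / den f c (uu L β m) r := by
  have hS : InvSet f α β c {z | z ≤ α ∨ β ≤ z} :=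
    ⟨fun z hz => hz, fun j => hC.hull.val j, fun z hz => hC.hull.maps z hz⟩
  have h1 := hC.Hn_rec hS m r hr none (none_mem_Sp _)
  have h2 := hC.Hn_rec hS m r hr (some z) (some_mem_Sp.2 hz)
  rw [hC.TT_none] at h1
  rw [hC.TT_some m r hz] at h2
  have h3 : uu L β (f.natDegree * m + r) z
      = Hn L β (f.natDegree * m + r) (some z) / Hn L β (f.natDegree * m + r) none := rfl
  rw [h3, h1, h2]
  have h4 := (hC.hh_pos m).ne'
  have h6 : ((f.leadingCoeff ^ m) ^ 2)⁻¹ ≠ 0 := by
    have := lc_ne hC.d2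
    positivity
  rw [mul_div_mul_left _ _ h6, mul_div_mul_left _ _ h4]

end

end Pool.Agent.Work.MP_e056c9_an
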