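import Pool.Agent.Work.MP_e056c9_an.CDefs

/-! # Reset lemma and structure of degenerate environments -/

set_option autoImplicit false
set_option linter.unusedSectionVars false
set_option linter.unusedVariables false
open Polynomial

namespace Pool.Agent.Work.MP_e056c9_an

/-- order statistics -/
lemma order_stat {ι : Type*} [Fintype ι] [DecidableEq ι] (g : ι → ℝ) (hg : ∀ i, 0 ≤ g i) (r : ℕ)
    (hr : r < Fintype.card ι) :
    ∃ τ : ℝ, 0 ≤ τ ∧ (∃ T : Finset ι, r + 1 ≤ T.card ∧ ∀ i ∈ T, τ ≤ g i) ∧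
      (∃ T : Finset ι, T.card ≤ r ∧ ∀ i ∉ T, g i ≤ τ) := by
  classical
  have hne : (Finset.powersetCard (r + 1) (Finset.univ : Finset ι)).Nonempty := by
    rw [Finset.powersetCard_nonempty]
    simpa using hr
  -- minimum of g over T, for T nonempty
  have hmin : ∀ T ∈ Finset.powersetCard (r + 1) (Finset.univ : Finset ι),
      ∃ i ∈ T, ∀ j ∈ T, g i ≤ g j := by
    intro T hT
    have hTc := (Finset.mem_powersetCard.1 hT).2
    have : T.Nonempty := by rw [← Finset.card_pos]; omega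
    exact Finset.exists_min_image T g this
  have : Nonempty ι := Fintype.card_pos_iff.1 (by omega)
  choose! φ hφ1 hφ2 using hmin
  obtain ⟨T, hT, hTmax⟩ := Finset.exists_max_image _ (fun T => g (φ T)) hne
  refine ⟨g (φ T), hg _, ⟨T, ?_, fun i hi => hφ2 T hT i hi⟩,
    ⟨Finset.univ.filter (fun i => g (φ T) < g i), ?_, ?_⟩⟩
  · rw [(Finset.mem_powersetCard.1 hT).2]
  · by_contra hcon
    push Not at hcon
    obtain ⟨S, hS1, hS2⟩ := Finset.exists_subset_card_eq (Nat.succ_le_of_lt hcon)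
    have hSm : S ∈ Finset.powersetCard (r + 1) (Finset.univ : Finset ι) :=
      Finset.mem_powersetCard.2 ⟨Finset.subset_univ _, hS2⟩
    have h1 := hTmax S hSm
    have h2 := hS1 (hφ1 S hSm)
    rw [Finset.mem_filter] at h2
    linarith [h2.2]
  · intro i hi
    by_contra hcon
    push Not at hcon
    exact hi (Finset.mem_filter.2 ⟨Finset.mem_univ _, hcon⟩)

/-- uniform constants -/
structure Consts (f : ℝ[X]) (α β : ℝ) (c : Fin (f.natDegree - 1) → ℝ) (L : ℝ[X] →ₗ[ℝ] ℝ)
    (K Cm δ₀ : ℝ) : Prop where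
  hK : 1 ≤ K
  hCm : 1 ≤ Cm
  hδ : 0 < δ₀
  hδ1 : δ₀ ≤ 1
  pos : ∀ m z, (z ≤ α ∨ β ≤ z) → 0 < uu L β m z
  up : ∀ m j, uu L β m (f.eval (c j)) ≤ Cm
  upe : ∀ m e, (e = α ∨ e = β) → uu L β m e ≤ Cm
  lo : ∀ m j, f.eval (c j) ≠ α → f.eval (c j) ≠ β → δ₀ ≤ uu L β m (f.eval (c j))
  nlo : ∀ m r e (T : Finset (Option (Fin (f.natDegree - 1)))) τ, r < f.natDegree →
    (e = α ∨ e = β) → 0 ≤ τ → r + 1 ≤ T.card → (∀ i ∈ T, τ ≤ uu L β m (f.eval (xz c e i))) →
    τ ≤ K * num f c (uu L β m) r e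
  nup : ∀ m r e (T : Finset (Option (Fin (f.natDegree - 1)))) τ, r < f.natDegree →
    (e = α ∨ e = β) → 0 ≤ τ → T.card ≤ r → (∀ i ∉ T, uu L β m (f.eval (xz c e i)) ≤ τ) →
    num f c (uu L β m) r e ≤ K * τ
  dlo : ∀ m r (T : Finset (Fin (f.natDegree - 1))) τ, r < f.natDegree → 0 ≤ τ → τ ≤ 1 →
    r ≤ T.card → (∀ j ∈ T, τ ≤ uu L β m (f.eval (c j))) → τ ≤ K * den f c (uu L β m) r
  dup : ∀ m r (T : Finset (Fin (f.natDegree - 1))) τ, 1 ≤ r → r < f.natDegree → 0 ≤ τ →
    T.card ≤ r - 1 → (∀ j ∉ T, uu L β m (f.eval (c j)) ≤ τ) → den f c (uu L β m) r ≤ K * τ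
  dup0 : ∀ m r, r < f.natDegree → den f c (uu L β m) r ≤ K * Cm
  dpos : ∀ m r, r < f.natDegree → 0 < den f c (uu L β m) r
  hrec : ∀ m r z, r < f.natDegree → (z ≤ α ∨ β ≤ z) →
    uu L β (f.natDegree * m + r) z = num f c (uu L β m) r z / den f c (uu L β m) r

section
variable {f : ℝ[X]} {α β : ℝ} {c : Fin (f.natDegree - 1) → ℝ} {L M : ℝ[X] →ₗ[ℝ] ℝ}
  (hC : Core f α β c L M)
include hC

theorem Core.exists_consts : ∃ K Cm δ₀ : ℝ, Consts f α β c L K Cm δ₀ := by
  classical
  have hd := hC.d2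
  have h := hC.hull
  have hlt := h.lt
  obtain ⟨K1, hK11, hK1⟩ := size_om hd h.inj
  obtain ⟨K2, hK21, hK2⟩ := size_om hd (h.xz_inj (z := α) (Or.inl le_rfl))
  obtain ⟨K3, hK31, hK3⟩ := size_om hd (h.xz_inj (z := β) (Or.inr le_rfl))
  obtain ⟨δ₀, hδ0, hδ1, -⟩ := h.exists_delta
  set Cm : ℝ := 1 + (β - α) + ∑ j, |dd α β (f.eval (c j))| with hCm
  have hsum : 0 ≤ ∑ j, |dd α β (f.eval (c j))| := Finset.sum_nonneg fun j _ => abs_nonneg _
  have hCj : ∀ j, dd α β (f.eval (c j)) ≤ ∑ j, |dd α β (f.eval (c j))| := fun j =>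
    le_trans (le_abs_self _)
      (Finset.single_le_sum (f := fun j => |dd α β (f.eval (c j))|) (fun _ _ => abs_nonneg _)
        (Finset.mem_univ j))
  have hend : ∀ e, (e = α ∨ e = β) → (e ≤ α ∨ β ≤ e) := by
    rintro e (rfl | rfl)
    · exact Or.inl le_rfl
    · exact Or.inr le_rfl
  have hup : ∀ m j, uu L β m (f.eval (c j)) ≤ Cm := by
    intro m j
    have h1 := (hC.uu_bounds m (h.val j)).2
    have h2 := hCj j
    linarith
  have hnn : ∀ m j, 0 ≤ uu L β m (f.eval (c j)) := fun m j => (hC.uu_pos m (h.val j)).le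
  have hnn' : ∀ m e, (e = α ∨ e = β) → ∀ i, 0 ≤ uu L β m (f.eval (xz c e i)) := fun m e he i =>
    (hC.uu_pos m (h.xz_val (hend e he) i)).le
  set K := K1 + K2 + K3 with hK
  refine ⟨K, Cm, min δ₀ 1, ⟨by linarith, by linarith, lt_min hδ0 one_pos, min_le_right _ _, ?_, hup,
    ?_, ?_, ?_, ?_, ?_, ?_, ?_, ?_, ?_⟩⟩
  · intro m z hz; exact hC.uu_pos m hz
  · intro m e he
    have h1 := (hC.uu_bounds m (hend e he)).2
    have h2 : dd α β e = 0 := (dd_eq_zero (hend e he) hlt).2 he
    rw [h2] at h1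
    linarith
  · intro m j h1 h2
    have h3 : f.eval (c j) ∈ ZS f c := h.ZS_inv.val j
    rcases hδ1 _ h3 with h4 | h4
    · rcases h4 with h4 | h4
      · exact absurd h4 h1
      · exact absurd h4 h2
    · exact le_trans (min_le_left _ _) (le_trans h4 (hC.uu_bounds m (h.val j)).1)
  · intro m r e T τ hr he hτ hT hTw
    have hnum : 0 < num f c (uu L β m) r e := hC.num_pos m r hr (hend e he)
    have hr' : r ≤ Fintype.card (Option (Fin (f.natDegree - 1))) := by rw [card_opt hd]; omega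
    have hn := hnn' m e he
    rcases he with he | he
    · rw [he] at hTw hnum hn ⊢
      have := (hK2 r hr' (uu L β m) hn T τ hτ).1 hT hTw
      exact this.trans (mul_le_mul_of_nonneg_right (by linarith) hnum.le)
    · rw [he] at hTw hnum hn ⊢
      have := (hK3 r hr' (uu L β m) hn T τ hτ).1 hT hTw
      exact this.trans (mul_le_mul_of_nonneg_right (by linarith) hnum.le)
  · intro m r e T τ hr he hτ hT hTw
    have hr' : r ≤ Fintype.card (Option (Fin (f.natDegree - 1))) := by rw [card_opt hd]; omega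
    have hn := hnn' m e he
    rcases he with he | he
    · rw [he] at hTw hn ⊢
      have := (hK2 r hr' (uu L β m) hn T τ hτ).2 hT hTw
      exact this.trans (mul_le_mul_of_nonneg_right (by linarith) hτ)
    · rw [he] at hTw hn ⊢
      have := (hK3 r hr' (uu L β m) hn T τ hτ).2 hT hTw
      exact this.trans (mul_le_mul_of_nonneg_right (by linarith) hτ)
  · intro m r T τ hr hτ hτ1 hT hTw
    have hden := hC.den_pos m r hr
    rcases Nat.eq_zero_or_pos r with h0 | h0
    · subst h0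
      unfold den
      rw [if_pos rfl]
      linarith
    · have := (hK1 (r - 1) (by rw [Fintype.card_fin]; omega) (uu L β m) (hnn m) T τ hτ).1
        (by omega) hTw
      have h1 : den f c (uu L β m) r = hh (disc c (om f c (uu L β m))) (r - 1) := by
        unfold den; rw [if_neg (by omega)]
      rw [← h1] at this
      exact this.trans (mul_le_mul_of_nonneg_right (by linarith) hden.le)
  · intro m r T τ h0 hr hτ hT hTw
    have := (hK1 (r - 1) (by rw [Fintype.card_fin]; omega) (uu L β m) (hnn m) T τ hτ).2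
        (by omega) hTw
    have h1 : den f c (uu L β m) r = hh (disc c (om f c (uu L β m))) (r - 1) := by
      unfold den; rw [if_neg (by omega)]
    rw [h1]
    exact this.trans (mul_le_mul_of_nonneg_right (by linarith) hτ)
  · intro m r hr
    rcases Nat.eq_zero_or_pos r with h0 | h0
    · subst h0
      unfold den
      rw [if_pos rfl]
      nlinarith
    · have := (hK1 (r - 1) (by rw [Fintype.card_fin]; omega) (uu L β m) (hnn m) ∅ Cm
        (by linarith)).2 (by simp) (fun j _ => hup m j)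
      have h1 : den f c (uu L β m) r = hh (disc c (om f c (uu L β m))) (r - 1) := by
        unfold den; rw [if_neg (by omega)]
      rw [h1]
      exact this.trans (mul_le_mul_of_nonneg_right (by linarith) (by linarith))
  · intro m r hr; exact hC.den_pos m r hr
  · intro m r z hr hz; exact hC.uu_rec m r hr hz

end

end Pool.Agent.Work.MP_e056c9_an
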