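import Pool.Agent.Work.MP_e056c9_an.C2

/-! # One step size lemmas -/

set_option autoImplicit false
set_option linter.unusedSectionVars false
set_option linter.unusedVariables false
open Polynomial

namespace Pool.Agent.Work.MP_e056c9_an

section
variable {f : ℝ[X]} {α β : ℝ} {c : Fin (f.natDegree - 1) → ℝ} {L : ℝ[X] →ₗ[ℝ] ℝ}
  {K Cm δ₀ : ℝ}

lemma mem_Z0 {e : ℝ} : e ∈ Z0 f α β c ↔ e ∈ ZS f c ∧ (e = α ∨ e = β) := by
  unfold Z0; simp

lemma val_mem_Z0 {j : Fin (f.natDegree - 1)} (hj : f.eval (c j) = α ∨ f.eval (c j) = β) :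
    f.eval (c j) ∈ Z0 f α β c := mem_Z0.2 ⟨⟨j, 0, rfl⟩, hj⟩

lemma Hull.maps_Z0 (h : Hull f α β c) {e : ℝ} (he : e ∈ Z0 f α β c) : f.eval e ∈ Z0 f α β c := by
  rw [mem_Z0] at he ⊢
  exact ⟨h.ZS_inv.maps e he.1, h.end_maps he.2⟩

lemma end_out (h : Hull f α β c) {e : ℝ} (he : e = α ∨ e = β) : e ≤ α ∨ β ≤ e := by
  rcases he with he | he
  · exact Or.inl he.le
  · exact Or.inr he.ge

/-- values at live critical points -/
lemma live_val (h : Hull f α β c) (hc : Consts f α β c L K Cm δ₀) {D : Set ℝ} {c₁ : ℝ} {m : ℕ}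
    (hl : ∀ e ∈ Z0 f α β c, e ∉ D → c₁ ≤ uu L β m e) {j : Fin (f.natDegree - 1)}
    (hj : f.eval (c j) ∉ D) : min c₁ δ₀ ≤ uu L β m (f.eval (c j)) := by
  by_cases hα : f.eval (c j) = α
  · exact le_trans (min_le_left _ _) (hl _ (val_mem_Z0 (Or.inl hα)) hj)
  · by_cases hβ : f.eval (c j) = β
    · exact le_trans (min_le_left _ _) (hl _ (val_mem_Z0 (Or.inr hβ)) hj)
    · exact le_trans (min_le_right _ _) (hc.lo m j hα hβ)

lemma dead_val (h : Hull f α β c) {D : Set ℝ} {j : Fin (f.natDegree - 1)}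
    (hj : j ∉ Lset f c D) : f.eval (c j) ∈ D := by
  by_contra hcon
  exact hj (mem_Lset.2 hcon)

lemma uu_ge (h : Hull f α β c) (hc : Consts f α β c L K Cm δ₀) {m r : ℕ} (hr : r < f.natDegree)
    {e a b : ℝ} (he : e = α ∨ e = β) (ha : a ≤ K * num f c (uu L β m) r e)
    (hb : den f c (uu L β m) r ≤ K * b) (hb0 : 0 < b) (ha0 : 0 ≤ a) :
    a / (K * K * b) ≤ uu L β (f.natDegree * m + r) e := by
  rw [hc.hrec m r e hr (end_out h he)]
  have hK := hc.hK
  have hd := hc.dpos m r hr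
  rw [div_le_div_iff₀ (by positivity) hd]
  have h1 : num f c (uu L β m) r e ≥ 0 := by
    by_contra hcon
    push Not at hcon
    nlinarith
  calc a * den f c (uu L β m) r ≤ (K * num f c (uu L β m) r e) * (K * b) :=
        mul_le_mul ha hb hd.le (by positivity)
    _ = num f c (uu L β m) r e * (K * K * b) := by ring

lemma uu_le (h : Hull f α β c) (hc : Consts f α β c L K Cm δ₀) {m r : ℕ} (hr : r < f.natDegree)
    {e a b : ℝ} (he : e = α ∨ e = β) (ha : num f c (uu L β m) r e ≤ K * a)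
    (hb : b ≤ K * den f c (uu L β m) r) (hb0 : 0 < b) (ha0 : 0 ≤ a) :
    uu L β (f.natDegree * m + r) e ≤ K * K * a / b := by
  rw [hc.hrec m r e hr (end_out h he)]
  have hK := hc.hK
  have hd := hc.dpos m r hr
  rw [div_le_div_iff₀ hd hb0]
  calc num f c (uu L β m) r e * b ≤ (K * a) * (K * den f c (uu L β m) r) :=
        mul_le_mul ha hb hb0.le (by positivity)
    _ = K * K * a * den f c (uu L β m) r := by ring

/-- the finset of nodes `some j`, `j ∈ T` -/
def someSet {n : ℕ} (T : Finset (Fin n)) : Finset (Option (Fin n)) :=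
  T.map Function.Embedding.some

lemma card_someSet {n : ℕ} (T : Finset (Fin n)) : (someSet T).card = T.card :=
  Finset.card_map _

lemma mem_someSet {n : ℕ} {T : Finset (Fin n)} {i : Option (Fin n)} :
    i ∈ someSet T ↔ ∃ j ∈ T, some j = i := by
  unfold someSet
  simp

/-- lower bound of the numerator at an end, only critical nodes -/
lemma num_ge_some (h : Hull f α β c) (hc : Consts f α β c L K Cm δ₀) {m r : ℕ}
    (hr : r < f.natDegree) {e : ℝ} (he : e = α ∨ e = β) {τ : ℝ} (hτ : 0 ≤ τ)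
    (T : Finset (Fin (f.natDegree - 1))) (hT : r + 1 ≤ T.card)
    (hv : ∀ j ∈ T, τ ≤ uu L β m (f.eval (c j))) : τ ≤ K * num f c (uu L β m) r e := by
  refine hc.nlo m r e (someSet T) τ hr he hτ (by rw [card_someSet]; exact hT) ?_
  intro i hi
  obtain ⟨j, hj, rfl⟩ := mem_someSet.1 hi
  exact hv j hj

/-- lower bound of the numerator at an end, with the node itself -/
lemma num_ge_none (h : Hull f α β c) (hc : Consts f α β c L K Cm δ₀) {m r : ℕ}
    (hr : r < f.natDegree) {e : ℝ} (he : e = α ∨ e = β) {τ : ℝ} (hτ : 0 ≤ τ)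
    (T : Finset (Fin (f.natDegree - 1))) (hT : r ≤ T.card)
    (hv : ∀ j ∈ T, τ ≤ uu L β m (f.eval (c j))) (hv' : τ ≤ uu L β m (f.eval e)) :
    τ ≤ K * num f c (uu L β m) r e := by
  refine hc.nlo m r e (Finset.insertNone T) τ hr he hτ (by rw [Finset.card_insertNone]; omega) ?_
  intro i hi
  cases i with
  | none => exact hv'
  | some j => exact hv j (Finset.some_mem_insertNone.1 hi)

/-- lower bound of the numerator at an end, all nodes -/
lemma num_ge_all (h : Hull f α β c) (hc : Consts f α β c L K Cm δ₀) {m r : ℕ}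
    (hr : r < f.natDegree) {e : ℝ} (he : e = α ∨ e = β) {τ : ℝ} (hτ : 0 ≤ τ)
    (hv : ∀ j, τ ≤ uu L β m (f.eval (c j))) (hv' : τ ≤ uu L β m (f.eval e)) :
    τ ≤ K * num f c (uu L β m) r e :=
  num_ge_none h hc hr he hτ Finset.univ (by rw [Finset.card_univ, Fintype.card_fin]; omega)
    (fun j _ => hv j) hv'

/-- upper bound of the numerator at an end -/
lemma num_le_some (h : Hull f α β c) (hc : Consts f α β c L K Cm δ₀) {m r : ℕ}
    (hr : r < f.natDegree) {e : ℝ} (he : e = α ∨ e = β) {τ : ℝ} (hτ : 0 ≤ τ)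
    (T : Finset (Fin (f.natDegree - 1))) (hT : T.card ≤ r)
    (hv : ∀ j ∉ T, uu L β m (f.eval (c j)) ≤ τ) (hv' : uu L β m (f.eval e) ≤ τ) :
    num f c (uu L β m) r e ≤ K * τ := by
  refine hc.nup m r e (someSet T) τ hr he hτ (by rw [card_someSet]; exact hT) ?_
  intro i hi
  cases i with
  | none => exact hv'
  | some j =>
    refine hv j fun hj => hi ?_
    exact mem_someSet.2 ⟨j, hj, rfl⟩

/-- CHANGE: nondegenerate after a non special digit -/
lemma change_lemma (h : Hull f α β c) (hc : Consts f α β c L K Cm δ₀) {c₁ C : ℝ}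
    (hc₁ : 0 < c₁) (hC : 1 ≤ C) : ∃ c₂ : ℝ, 0 < c₂ ∧ ∀ (D : Set ℝ), Closed f α β c D →
    ∀ m r : ℕ, r < f.natDegree → r ≠ ell f c D →
    (∀ e ∈ Z0 f α β c, e ∉ D → c₁ ≤ uu L β m e) →
    (∀ e ∈ D, ∀ e' ∈ D, uu L β m e ≤ C * uu L β m e') →
    ∀ e ∈ Z0 f α β c, c₂ ≤ uu L β (f.natDegree * m + r) e := by
  have hK := hc.hK
  have hCm := hc.hCm
  have hδ := hc.hδ
  set a := min c₁ δ₀ with ha
  have ha0 : 0 < a := lt_min hc₁ hδ
  set κ := min (a / Cm) (1 / C) with hκ
  have hκ0 : 0 < κ := by positivity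
  refine ⟨min (a / (K * K * Cm)) (κ / (K * K * C)), by positivity, ?_⟩
  intro D hD m r hr hrD hl hcomp e he
  have hee := (mem_Z0.1 he).2
  have hlv : ∀ j ∈ Lset f c D, a ≤ uu L β m (f.eval (c j)) := fun j hj =>
    live_val h hc hl (mem_Lset.1 hj)
  rcases lt_or_gt_of_ne hrD with h1 | h1
  · -- r < ell
    refine le_trans (min_le_left _ _) ?_
    refine uu_ge h hc hr hee ?_ (hc.dup0 m r hr) (by linarith) ha0.le
    exact num_ge_some h hc hr hee ha0.le (Lset f c D) (by rw [card_Lset]; omega) hlv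
  · -- r > ell
    refine le_trans (min_le_right _ _) ?_
    obtain ⟨e₀, he₀⟩ := hD.ne
    have he₀Z := hD.sub he₀
    set s := uu L β m e₀ with hs
    have hs0 : 0 < s := hc.pos m e₀ (end_out h (mem_Z0.1 he₀Z).2)
    have hsC : s ≤ Cm := hc.upe m e₀ (mem_Z0.1 he₀Z).2
    have hval : ∀ y ∈ Z0 f α β c, κ * s ≤ uu L β m y := by
      intro y hy
      by_cases hyD : y ∈ D
      · have h2 := hcomp e₀ he₀ y hyD
        calc κ * s ≤ 1 / C * s := mul_le_mul_of_nonneg_right (min_le_right _ _) hs0.le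
          _ ≤ 1 / C * (C * uu L β m y) := mul_le_mul_of_nonneg_left h2 (by positivity)
          _ = uu L β m y := by field_simp
      · have h2 := hl y hy hyD
        calc κ * s ≤ a / Cm * Cm := mul_le_mul (min_le_left _ _) hsC hs0.le (by positivity)
          _ = a := by field_simp
          _ ≤ c₁ := min_le_left _ _
          _ ≤ _ := h2
    have hvall : ∀ j, κ * s ≤ uu L β m (f.eval (c j)) := by
      intro j
      by_cases hj : f.eval (c j) ∈ D
      · exact hval _ (hD.sub hj)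
      · have h2 := hlv j (mem_Lset.2 hj)
        calc κ * s ≤ a / Cm * Cm := mul_le_mul (min_le_left _ _) hsC hs0.le (by positivity)
          _ = a := by field_simp
          _ ≤ _ := h2
    have hnum := num_ge_all h hc hr hee (by positivity : 0 ≤ κ * s) hvall
      (hval _ (h.maps_Z0 he))
    have hden := hc.dup m r (Lset f c D) (C * s) (by omega) hr (by positivity)
      (by rw [card_Lset]; omega) (fun j hj => hcomp _ (dead_val h hj) e₀ he₀)
    have h3 := uu_ge h hc hr hee hnum hden (by positivity) (by positivity)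
    refine le_trans (le_of_eq ?_) h3
    field_simp

/-- KEEP: nondegenerate stays nondegenerate for one step -/
lemma keep_lemma (h : Hull f α β c) (hc : Consts f α β c L K Cm δ₀) {c₁ : ℝ}
    (hc₁ : 0 < c₁) : ∃ c₂ : ℝ, 0 < c₂ ∧ ∀ m r : ℕ, r < f.natDegree →
    (∀ e ∈ Z0 f α β c, c₁ ≤ uu L β m e) →
    ∀ e ∈ Z0 f α β c, c₂ ≤ uu L β (f.natDegree * m + r) e := by
  have hK := hc.hK
  have hCm := hc.hCm
  have hδ := hc.hδ
  set a := min c₁ δ₀ with ha
  have ha0 : 0 < a := lt_min hc₁ hδ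
  refine ⟨a / (K * K * Cm), by positivity, ?_⟩
  intro m r hr hl e he
  have hee := (mem_Z0.1 he).2
  refine uu_ge h hc hr hee ?_ (hc.dup0 m r hr) (by linarith) ha0.le
  refine num_ge_all h hc hr hee ha0.le (fun j => ?_) ?_
  · exact live_val h hc (D := ∅) (fun e he _ => hl e he) (Set.notMem_empty _)
  · exact le_trans (min_le_left _ _) (hl _ (h.maps_Z0 he))

/-- TRANSFER: the special digit keeps the structure -/
lemma transfer_lemma (h : Hull f α β c) (hc : Consts f α β c L K Cm δ₀) {c₁ C : ℝ}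
    (hc₁ : 0 < c₁) (hC : 1 ≤ C) : ∃ c₂ C₂ : ℝ, 0 < c₂ ∧ 1 ≤ C₂ ∧ ∀ (D : Set ℝ),
    Closed f α β c D → ∀ m : ℕ, ell f c D < f.natDegree →
    (∀ e ∈ Z0 f α β c, e ∉ D → c₁ ≤ uu L β m e) →
    (∀ e ∈ D, ∀ e' ∈ D, uu L β m e ≤ C * uu L β m e') →
    (∀ e ∈ Z0 f α β c, e ∉ D → c₂ ≤ uu L β (f.natDegree * m + ell f c D) e) ∧
    (∀ e ∈ D, ∀ e' ∈ D, uu L β (f.natDegree * m + ell f c D) e
      ≤ C₂ * uu L β (f.natDegree * m + ell f c D) e') := by
  have hK := hc.hK
  have hCm := hc.hCm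
  have hδ := hc.hδ
  set a := min c₁ δ₀ with ha
  have ha0 : 0 < a := lt_min hc₁ hδ
  have ha1 : a ≤ 1 := le_trans (min_le_right _ _) hc.hδ1
  set κ := min (a / Cm) (1 / C) with hκ
  have hκ0 : 0 < κ := by positivity
  refine ⟨a / (K * K * Cm), max 1 ((K * K * C / a) * (K * K * Cm / κ)), by positivity,
    le_max_left _ _, ?_⟩
  intro D hD m hr hl hcomp
  have hlv : ∀ j ∈ Lset f c D, a ≤ uu L β m (f.eval (c j)) := fun j hj =>
    live_val h hc hl (mem_Lset.1 hj)
  constructor
  · intro e he heD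
    have hee := (mem_Z0.1 he).2
    refine uu_ge h hc hr hee ?_ (hc.dup0 m _ hr) (by linarith) ha0.le
    refine num_ge_none h hc hr hee ha0.le (Lset f c D) (by rw [card_Lset]) hlv ?_
    have h1 : f.eval e ∉ D := fun hf => heD ((hD.inv e he).1 hf)
    exact le_trans (min_le_left _ _) (hl _ (h.maps_Z0 he) h1)
  · obtain ⟨e₀, he₀⟩ := hD.ne
    have he₀Z := hD.sub he₀
    set s := uu L β m e₀ with hs
    have hs0 : 0 < s := hc.pos m e₀ (end_out h (mem_Z0.1 he₀Z).2)
    have hsC : s ≤ Cm := hc.upe m e₀ (mem_Z0.1 he₀Z).2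
    have hlow : ∀ e ∈ D, κ * s / (K * K * Cm) ≤ uu L β (f.natDegree * m + ell f c D) e := by
      intro e he
      have heZ := hD.sub he
      have hee := (mem_Z0.1 heZ).2
      refine uu_ge h hc hr hee ?_ (hc.dup0 m _ hr) (by linarith) (by positivity)
      refine num_ge_none h hc hr hee (by positivity) (Lset f c D) (by rw [card_Lset])
        (fun j hj => ?_) ?_
      · calc κ * s ≤ a / Cm * Cm := mul_le_mul (min_le_left _ _) hsC hs0.le (by positivity)
          _ = a := by field_simp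
          _ ≤ _ := hlv j hj
      · have h1 : f.eval e ∈ D := (hD.inv e heZ).2 he
        have h2 := hcomp e₀ he₀ _ h1
        calc κ * s ≤ 1 / C * s := mul_le_mul_of_nonneg_right (min_le_right _ _) hs0.le
          _ ≤ 1 / C * (C * uu L β m (f.eval e)) := mul_le_mul_of_nonneg_left h2 (by positivity)
          _ = uu L β m (f.eval e) := by field_simp
    have hup : ∀ e ∈ D, uu L β (f.natDegree * m + ell f c D) e ≤ K * K * (C * s) / a := by
      intro e he
      have heZ := hD.sub he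
      have hee := (mem_Z0.1 heZ).2
      refine uu_le h hc hr hee ?_ ?_ ha0 (by positivity)
      · refine num_le_some h hc hr hee (by positivity) (Lset f c D) (by rw [card_Lset])
          (fun j hj => hcomp _ (dead_val h hj) e₀ he₀) ?_
        exact hcomp _ ((hD.inv e heZ).2 he) e₀ he₀
      · exact hc.dlo m _ (Lset f c D) a hr ha0.le ha1 (by rw [card_Lset]) hlv
    intro e he e' he'
    have h1 := hup e he
    have h2 := hlow e' he'
    have h3 : K * K * (C * s) / a = ((K * K * C / a) * (K * K * Cm / κ)) * (κ * s / (K * K * Cm)) := by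
      field_simp
    rw [h3] at h1
    refine h1.trans (mul_le_mul (le_max_right _ _) h2 (by positivity) ?_)
    exact le_trans zero_le_one (le_max_left _ _)

end

end Pool.Agent.Work.MP_e056c9_an
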