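import Pool.Agent.Work.MP_e056c9_an.C3

/-! # Reset lemma and structure of degenerate environments -/

set_option autoImplicit false
set_option linter.unusedSectionVars false
set_option linter.unusedVariables false
open Polynomial

namespace Pool.Agent.Work.MP_e056c9_an

section
variable {f : ℝ[X]} {α β : ℝ} {c : Fin (f.natDegree - 1) → ℝ} {L : ℝ[X] →ₗ[ℝ] ℝ}
  {K Cm δ₀ : ℝ}

/-- the pattern property of a level `dm+r` -/
def PP (f : ℝ[X]) (α β : ℝ) (c : Fin (f.natDegree - 1) → ℝ) (L : ℝ[X] →ₗ[ℝ] ℝ) (c₁ C : ℝ)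
    (m r : ℕ) : Prop :=
  (∀ e ∈ Z0 f α β c, c₁ ≤ uu L β (f.natDegree * m + r) e) ∨
  ∃ D : Set ℝ, Closed f α β c D ∧ r = ell f c D ∧
    (∀ e ∈ Z0 f α β c, e ∉ D → c₁ ≤ uu L β (f.natDegree * m + r) e) ∧
    (∀ e ∈ D, ∀ e' ∈ D, uu L β (f.natDegree * m + r) e ≤ C * uu L β (f.natDegree * m + r) e')

lemma PP.mono {c₁ C c₁' C' : ℝ} {m r : ℕ} (hpos : ∀ m e, e ∈ Z0 f α β c → 0 < uu L β m e)
    (h : PP f α β c L c₁ C m r) (h1 : c₁' ≤ c₁) (h2 : C ≤ C') : PP f α β c L c₁' C' m r := by
  rcases h with h | ⟨D, hD, hr, hl, hcomp⟩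
  · exact Or.inl fun e he => h1.trans (h e he)
  · refine Or.inr ⟨D, hD, hr, fun e he heD => h1.trans (hl e he heD), fun e he e' he' => ?_⟩
    refine (hcomp e he e' he').trans (mul_le_mul_of_nonneg_right h2 ?_)
    exact (hpos _ _ (hD.sub he')).le

/-- single scale case -/
lemma pp_comp (h : Hull f α β c) (hc : Consts f α β c L K Cm δ₀) {C₀ : ℝ} (hC₀ : 1 ≤ C₀)
    (hcomp : ∀ m, ∀ e ∈ Z0 f α β c, ∀ e' ∈ Z0 f α β c, uu L β m e ≤ C₀ * uu L β m e') :
    ∃ c₁ C : ℝ, 0 < c₁ ∧ 1 ≤ C ∧ ∀ m r, r < f.natDegree → PP f α β c L c₁ C m r := by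
  obtain ⟨c₂, hc₂, hch⟩ := change_lemma h hc (c₁ := 1) one_pos hC₀
  refine ⟨c₂, C₀, hc₂, hC₀, fun m r hr => ?_⟩
  by_cases hne : (Z0 f α β c).Nonempty
  · have hD : Closed f α β c (Z0 f α β c) :=
      ⟨subset_rfl, hne, fun e he => ⟨fun _ => he, fun _ => h.maps_Z0 he⟩⟩
    by_cases hrD : r = ell f c (Z0 f α β c)
    · right
      exact ⟨_, hD, hrD, fun e he heD => absurd he heD, fun e he e' he' => hcomp _ e he e' he'⟩
    · left
      exact hch _ hD m r hr hrD (fun e he heD => absurd he heD) (hcomp m)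
  · left
    intro e he
    exact absurd ⟨e, he⟩ hne

/-- both ends fixed and present -/
lemma pp_id (h : Hull f α β c) (hc : Consts f α β c L K Cm δ₀) :
    ∃ c₁ C : ℝ, 0 < c₁ ∧ 1 ≤ C ∧ ∀ p q : ℝ, (p = α ∧ q = β ∨ p = β ∧ q = α) →
      f.eval p = p → f.eval q = q → (∃ j, f.eval (c j) = q) → p ∈ Z0 f α β c →
      q ∈ Z0 f α β c → ∀ m r, r < f.natDegree → uu L β m p ≤ uu L β m q →
      PP f α β c L c₁ C m r := by
  have hK := hc.hK
  have hCm := hc.hCm
  have hδ := hc.hδ
  have hδ1 := hc.hδ1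
  set κ := δ₀ / Cm with hκ
  have hκ0 : 0 < κ := by positivity
  have hκ1 : κ ≤ 1 := by
    rw [hκ, div_le_one (by linarith)]; linarith
  refine ⟨min (δ₀ / (K * K * Cm)) (κ / (K * K)),
    max 1 ((K * K / δ₀) * (K * K * Cm / κ)), by positivity, le_max_left _ _, ?_⟩
  intro p q hpq hfp hfq hjq hpZ hqZ m r hr hst
  have hpe := (mem_Z0.1 hpZ).2
  have hqe := (mem_Z0.1 hqZ).2
  have hne : p ≠ q := by
    have := h.lt
    rcases hpq with ⟨h1, h2⟩ | ⟨h1, h2⟩
    · rw [h1, h2]; exact this.ne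
    · rw [h1, h2]; exact this.ne'
  have hends : ∀ e, (e = α ∨ e = β) ↔ (e = p ∨ e = q) := by
    intro e
    rcases hpq with ⟨h1, h2⟩ | ⟨h1, h2⟩
    · rw [h1, h2]
    · rw [h1, h2]; exact or_comm
  set s := uu L β m p with hs
  set t := uu L β m q with ht
  have hs0 : 0 < s := hc.pos m p (end_out h hpe)
  have ht0 : 0 < t := hc.pos m q (end_out h hqe)
  have htC : t ≤ Cm := hc.upe m q hqe
  have hκt : κ * t ≤ δ₀ := by
    calc κ * t ≤ κ * Cm := mul_le_mul_of_nonneg_left htC hκ0.le
      _ = δ₀ := by rw [hκ]; field_simp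
  have hκt' : κ * t ≤ t := by nlinarith
  have hκs : κ * s ≤ κ * t := mul_le_mul_of_nonneg_left hst hκ0.le
  -- the two sets
  set T0 := Lset f c ({p, q} : Set ℝ) with hT0
  set T1 := Lset f c ({p} : Set ℝ) with hT1
  have hv0 : ∀ j ∈ T0, δ₀ ≤ uu L β m (f.eval (c j)) := by
    intro j hj
    have h1 := mem_Lset.1 hj
    refine hc.lo m j (fun h2 => h1 ?_) (fun h2 => h1 ?_)
    · exact (hends _).1 (Or.inl h2)
    · exact (hends _).1 (Or.inr h2)
  have hv1 : ∀ j ∈ T1, κ * t ≤ uu L β m (f.eval (c j)) := by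
    intro j hj
    have h1 := mem_Lset.1 hj
    by_cases hq' : f.eval (c j) = q
    · rw [hq']; exact hκt'
    · refine hκt.trans (hv0 j (mem_Lset.2 ?_))
      rintro (h2 | h2)
      · exact h1 h2
      · exact hq' h2
  have hvall : ∀ j, κ * s ≤ uu L β m (f.eval (c j)) := by
    intro j
    by_cases hp' : f.eval (c j) = p
    · rw [hp']; nlinarith
    · exact hκs.trans (hv1 j (mem_Lset.2 hp'))
  have hoff0 : ∀ j ∉ T0, uu L β m (f.eval (c j)) ≤ t := by
    intro j hj
    rcases dead_val h hj with h2 | h2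
    · rw [h2]; exact hst
    · rw [h2]
  have hoff1 : ∀ j ∉ T1, uu L β m (f.eval (c j)) ≤ s := by
    intro j hj
    have h2 : f.eval (c j) = p := dead_val h hj
    rw [h2]
  have hT01 : T0.card < T1.card := by
    apply Finset.card_lt_card
    rw [Finset.ssubset_iff_subset_ne]
    constructor
    · intro j hj
      have h1 := mem_Lset.1 hj
      exact mem_Lset.2 fun h2 => h1 (Or.inl h2)
    · intro heq
      obtain ⟨j, hj⟩ := hjq
      have h1 : j ∈ T1 := mem_Lset.2 (by rw [hj]; exact fun h2 => hne h2.symm)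
      rw [← heq] at h1
      exact (mem_Lset.1 h1) (Or.inr hj)
  have hfe : ∀ e, (e = α ∨ e = β) → f.eval e = p ∨ f.eval e = q := by
    intro e he
    rcases (hends e).1 he with h1 | h1
    · rw [h1]; exact Or.inl hfp
    · rw [h1]; exact Or.inr hfq
  have hmem : ∀ e, (e = α ∨ e = β) → uu L β m (f.eval e) ≤ t := by
    intro e he
    rcases hfe e he with h1 | h1
    · rw [h1]; exact hst
    · rw [h1]
  have hmem' : ∀ e, (e = α ∨ e = β) → κ * s ≤ uu L β m (f.eval e) := by
    intro e he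
    rcases hfe e he with h1 | h1
    · rw [h1]; nlinarith
    · rw [h1]; exact hκs.trans hκt'
  have hcl0 : Closed f α β c ({p, q} : Set ℝ) := by
    refine ⟨?_, ⟨p, Or.inl rfl⟩, ?_⟩
    · rintro e (h1 | h1)
      · rw [h1]; exact hpZ
      · rw [h1]; exact hqZ
    · intro e he
      have h1 := (hends e).1 (mem_Z0.1 he).2
      exact ⟨fun _ => h1, fun _ => hfe e (mem_Z0.1 he).2⟩
  have hcl1 : Closed f α β c ({p} : Set ℝ) := by
    refine ⟨?_, ⟨p, rfl⟩, ?_⟩
    · intro e h1
      rw [Set.mem_singleton_iff.1 h1]; exact hpZ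
    · intro e he
      rcases (hends e).1 (mem_Z0.1 he).2 with h1 | h1
      · rw [h1, hfp]
      · rw [h1, hfq]
  rcases lt_trichotomy r T0.card with h0 | h0 | h0
  · -- r < l0
    left
    intro e he
    have hee := (mem_Z0.1 he).2
    refine le_trans (min_le_left _ _) ?_
    refine uu_ge h hc hr hee ?_ (hc.dup0 m r hr) (by linarith) hδ.le
    exact num_ge_some h hc hr hee hδ.le T0 (by omega) hv0
  · -- r = l0
    right
    refine ⟨_, hcl0, by rw [h0, card_Lset], ?_, ?_⟩
    · intro e he heD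
      exact absurd ((hends e).1 (mem_Z0.1 he).2) heD
    · obtain ⟨jq, hjq⟩ := hjq
      have hjq' : jq ∉ T0 := fun h1 => (mem_Lset.1 h1) (Or.inr hjq)
      have hlow : ∀ e, (e = α ∨ e = β) → κ * t / (K * K * Cm) ≤ uu L β (f.natDegree * m + r) e := by
        intro e hee
        refine uu_ge h hc hr hee ?_ (hc.dup0 m r hr) (by linarith) (by positivity)
        refine num_ge_some h hc hr hee (by positivity) (insert jq T0)
          (by rw [Finset.card_insert_of_notMem hjq']; omega) ?_
        intro j hj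
        rcases Finset.mem_insert.1 hj with h1 | h1
        · rw [h1, hjq]; exact hκt'
        · exact hκt.trans (hv0 j h1)
      have hup : ∀ e, (e = α ∨ e = β) → uu L β (f.natDegree * m + r) e ≤ K * K * t / δ₀ := by
        intro e hee
        refine uu_le h hc hr hee ?_ ?_ hδ ht0.le
        · exact num_le_some h hc hr hee ht0.le T0 (by omega) hoff0 (hmem e hee)
        · exact hc.dlo m r T0 δ₀ hr hδ.le hδ1 (by omega) hv0
      intro e he e' he'
      have hee := (hends e).2 he
      have hee' := (hends e').2 he'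
      have h1 := hup e hee
      have h2 := hlow e' hee'
      have h3 : K * K * t / δ₀ = ((K * K / δ₀) * (K * K * Cm / κ)) * (κ * t / (K * K * Cm)) := by
        field_simp
      rw [h3] at h1
      refine h1.trans (mul_le_mul (le_max_right _ _) h2 (by positivity) ?_)
      exact le_trans zero_le_one (le_max_left _ _)
  · have hden : den f c (uu L β m) r ≤ K * t :=
      hc.dup m r T0 t (by omega) hr ht0.le (by omega) hoff0
    rcases lt_trichotomy r T1.card with h1 | h1 | h1
    · -- l0 < r < l1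
      left
      intro e he
      have hee := (mem_Z0.1 he).2
      refine le_trans (min_le_right _ _) ?_
      have h3 := uu_ge h hc hr hee (num_ge_some h hc hr hee (by positivity) T1 (by omega) hv1)
        hden ht0 (by positivity)
      refine le_trans (le_of_eq ?_) h3
      field_simp
    · -- r = l1
      right
      refine ⟨_, hcl1, by rw [h1, card_Lset], ?_, ?_⟩
      · intro e he heD
        have hee := (mem_Z0.1 he).2
        have heq : e = q := by
          rcases (hends e).1 hee with h2 | h2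
          · exact absurd h2 heD
          · exact h2
        refine le_trans (min_le_right _ _) ?_
        have h3 := uu_ge h hc hr hee (num_ge_none h hc hr hee (by positivity) T1 (by omega) hv1
          (by rw [heq, hfq]; exact hκt')) hden ht0 (by positivity)
        refine le_trans (le_of_eq ?_) h3
        field_simp
      · intro e he e' he'
        rw [Set.mem_singleton_iff.1 he, Set.mem_singleton_iff.1 he']
        have h2 := hc.pos (f.natDegree * m + r) p (end_out h hpe)
        have h3 := le_max_left (1:ℝ) ((K * K / δ₀) * (K * K * Cm / κ))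
        nlinarith
    · -- r > l1
      left
      intro e he
      have hee := (mem_Z0.1 he).2
      refine le_trans (min_le_right _ _) ?_
      have hden' : den f c (uu L β m) r ≤ K * s :=
        hc.dup m r T1 s (by omega) hr hs0.le (by omega) hoff1
      have h3 := uu_ge h hc hr hee (num_ge_all h hc hr hee (by positivity) hvall (hmem' e hee))
        hden' hs0 (by positivity)
      refine le_trans (le_of_eq ?_) h3
      field_simp

/-- comparability of the ends if they have the same image -/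
lemma const_comp (h : Hull f α β c) (hc : Consts f α β c L K Cm δ₀)
    (hfe : f.eval α = f.eval β) :
    ∀ m, ∀ e ∈ Z0 f α β c, ∀ e' ∈ Z0 f α β c, uu L β m e ≤ K * K * uu L β m e' := by
  intro m e he e' he'
  have hee := (mem_Z0.1 he).2
  have hee' := (mem_Z0.1 he').2
  have hd := h.two_le
  have hK := hc.hK
  set n := m / f.natDegree with hn
  set r := m % f.natDegree with hr
  have hrlt : r < f.natDegree := Nat.mod_lt _ (by omega)
  have hm : m = f.natDegree * n + r := (Nat.div_add_mod m f.natDegree).symm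
  have hfee : f.eval e = f.eval α := by
    rcases hee with h1 | h1
    · rw [h1]
    · rw [h1, hfe]
  have hfee' : f.eval e' = f.eval α := by
    rcases hee' with h1 | h1
    · rw [h1]
    · rw [h1, hfe]
  have hval : ∀ i, f.eval (xz c e i) = f.eval (xz c α i) := by
    intro i
    cases i with
    | none => exact hfee
    | some j => rfl
  have hval' : ∀ i, f.eval (xz c e' i) = f.eval (xz c α i) := by
    intro i
    cases i with
    | none => exact hfee'
    | some j => rfl
  obtain ⟨τ, hτ0, ⟨T, hT1, hT2⟩, ⟨T', hT'1, hT'2⟩⟩ := order_stat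
    (fun i => uu L β n (f.eval (xz c α i)))
    (fun i => (hc.pos n _ (h.xz_val (Or.inl le_rfl) i)).le) r
    (by rw [card_opt hd]; exact hrlt)
  have h1 : num f c (uu L β n) r e ≤ K * τ :=
    hc.nup n r e T' τ hrlt hee hτ0 hT'1 (fun i hi => by rw [hval]; exact hT'2 i hi)
  have h2 : τ ≤ K * num f c (uu L β n) r e' :=
    hc.nlo n r e' T τ hrlt hee' hτ0 hT1 (fun i hi => by rw [hval']; exact hT2 i hi)
  have hden := hc.dpos n r hrlt
  rw [hm, hc.hrec n r e hrlt (end_out h hee), hc.hrec n r e' hrlt (end_out h hee'), ← mul_div_assoc]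
  apply div_le_div_of_nonneg_right _ hden.le
  calc num f c (uu L β n) r e ≤ K * τ := h1
    _ ≤ K * (K * num f c (uu L β n) r e') := mul_le_mul_of_nonneg_left h2 (by linarith)
    _ = _ := by ring

lemma exists_crit_end (h : Hull f α β c) {q : ℝ} (hq : f.eval α = α) (hq' : f.eval β = β)
    (hqZ : q ∈ Z0 f α β c) : ∃ j, f.eval (c j) = q := by
  obtain ⟨⟨j, n, hjn⟩, hqe⟩ := mem_Z0.1 hqZ
  have h0 : dd α β q = 0 := (dd_eq_zero (end_out h hqe) h.lt).2 hqe
  have h1 := h.it_expand (h.val j) n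
  rw [← hjn, h0] at h1
  have h2 : dd α β (f.eval (c j)) = 0 := by
    have h3 := dd_nonneg (h.val j)
    have h4 : (0:ℝ) < 2 ^ n := by positivity
    nlinarith
  have h3 := (dd_eq_zero (h.val j) h.lt).1 h2
  have h4 : ∀ n, it f n (f.eval (c j)) = f.eval (c j) := by
    intro n
    induction n with
    | zero => rfl
    | succ n ih =>
      rw [it_succ, ih]
      rcases h3 with h5 | h5
      · rw [h5, hq]
      · rw [h5, hq']
  exact ⟨j, by rw [hjn, h4]⟩

/-- the pattern property holds at all levels -/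
theorem pp_all (h : Hull f α β c) (hc : Consts f α β c L K Cm δ₀)
    (hid : f.eval (f.eval α) = f.eval α ∧ f.eval (f.eval β) = f.eval β) :
    ∃ c₁ C : ℝ, 0 < c₁ ∧ 1 ≤ C ∧ ∀ m r, r < f.natDegree → PP f α β c L c₁ C m r := by
  have hK := hc.hK
  by_cases hfe : f.eval α = f.eval β
  · exact pp_comp h hc (by nlinarith : 1 ≤ K * K) (const_comp h hc hfe)
  · have hα : f.eval α = α := by
      rcases h.end_left with h1 | h1
      · exact h1
      · rw [h1] at hid hfe
        exact absurd hid.1.symm hfe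
    have hβ : f.eval β = β := by
      rcases h.end_right with h1 | h1
      · rw [h1] at hid hfe
        exact absurd (by rw [hα]) hfe
      · exact h1
    by_cases hboth : α ∈ Z0 f α β c ∧ β ∈ Z0 f α β c
    · obtain ⟨c₁, C, hc₁, hC, hpp⟩ := pp_id h hc
      refine ⟨c₁, C, hc₁, hC, fun m r hr => ?_⟩
      rcases le_total (uu L β m α) (uu L β m β) with h1 | h1
      · exact hpp α β (Or.inl ⟨rfl, rfl⟩) hα hβ (exists_crit_end h hα hβ hboth.2) hboth.1 hboth.2
          m r hr h1
      · exact hpp β α (Or.inr ⟨rfl, rfl⟩) hβ hα (exists_crit_end h hα hβ hboth.1) hboth.2 hboth.1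
          m r hr h1
    · refine pp_comp h hc le_rfl fun m e he e' he' => ?_
      have hee := (mem_Z0.1 he).2
      have hee' := (mem_Z0.1 he').2
      have heq : e = e' := by
        rcases hee with h1 | h1 <;> rcases hee' with h2 | h2
        · rw [h1, h2]
        · rw [h1] at he
          rw [h2] at he'
          exact absurd ⟨he, he'⟩ hboth
        · rw [h1] at he
          rw [h2] at he'
          exact absurd ⟨he', he⟩ hboth
        · rw [h1, h2]
      rw [heq, one_mul]

end

section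
variable {f : ℝ[X]} {α β : ℝ} {c : Fin (f.natDegree - 1) → ℝ} {L M : ℝ[X] →ₗ[ℝ] ℝ}
  (hC : Core f α β c L M)
  (hid : f.eval (f.eval α) = f.eval α ∧ f.eval (f.eval β) = f.eval β)
include hC hid

/-- RESET: after a change of digits the environment is nondegenerate. -/
theorem reset : ∃ c₀ : ℝ, 0 < c₀ ∧ ∀ m r r' : ℕ, r < f.natDegree → r' < f.natDegree → r ≠ r' →
    ∀ e ∈ Z0 f α β c, c₀ ≤ uu L β (f.natDegree * (f.natDegree * m + r) + r') e := by
  obtain ⟨K, Cm, δ₀, hc⟩ := hC.exists_consts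
  obtain ⟨c₁, C, hc₁, hC1, hpp⟩ := pp_all hC.hull hc hid
  obtain ⟨c₂, hc₂, hch⟩ := change_lemma hC.hull hc hc₁ hC1
  obtain ⟨c₃, hc₃, hkeep⟩ := keep_lemma hC.hull hc hc₁
  refine ⟨min c₂ c₃, lt_min hc₂ hc₃, fun m r r' hr hr' hrr e he => ?_⟩
  rcases hpp m r hr with h1 | ⟨D, hD, hrD, hl, hcomp⟩
  · exact le_trans (min_le_right _ _) (hkeep _ r' hr' h1 e he)
  · exact le_trans (min_le_left _ _) (hch D hD _ r' hr' (by rw [← hrD]; exact hrr.symm) hl hcomp e he)

/-- STRUCT: a degenerate environment (two levels below any `m`) has a dead set `D`. -/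
theorem struct : ∃ ε₁ c₁ C : ℝ, 0 < ε₁ ∧ 0 < c₁ ∧ 1 ≤ C ∧ ∀ m r r' : ℕ, r < f.natDegree →
    r' < f.natDegree → ∀ n' n : ℕ, n' = f.natDegree * m + r → n = f.natDegree * n' + r' →
    (∃ e ∈ Z0 f α β c, uu L β n e ≤ ε₁) →
    ∃ D : Set ℝ, Closed f α β c D ∧ r' = ell f c D ∧
      (∀ e ∈ Z0 f α β c, e ∉ D → c₁ ≤ uu L β n e ∧ c₁ ≤ uu L β n' e) ∧
      (∀ e ∈ D, ∀ e' ∈ D, uu L β n e ≤ C * uu L β n e') ∧
      (∀ e ∈ D, ∀ e' ∈ D, uu L β n' e ≤ C * uu L β n' e') := by
  obtain ⟨K, Cm, δ₀, hc⟩ := hC.exists_consts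
  obtain ⟨c₁, C, hc₁, hC1, hpp⟩ := pp_all hC.hull hc hid
  obtain ⟨c₂, hc₂, hch⟩ := change_lemma hC.hull hc hc₁ hC1
  obtain ⟨c₃, hc₃, hkeep⟩ := keep_lemma hC.hull hc hc₁
  obtain ⟨c₄, C₄, hc₄, hC₄, htr⟩ := transfer_lemma hC.hull hc hc₁ hC1
  refine ⟨min c₂ c₃ / 2, min c₁ c₄, max C C₄, by positivity, by positivity,
    le_trans hC1 (le_max_left _ _), ?_⟩
  intro m r r' hr hr' n' n hn' hn hex
  obtain ⟨e₁, he₁, hle⟩ := hex
  have hε : min c₂ c₃ / 2 < min c₂ c₃ := by
    have : 0 < min c₂ c₃ := lt_min hc₂ hc₃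
    linarith
  have hpos : ∀ m e, e ∈ Z0 f α β c → 0 < uu L β m e := fun m e he =>
    hc.pos m e (end_out hC.hull (mem_Z0.1 he).2)
  rcases hpp m r hr with h1 | ⟨D, hD, hrD, hl, hcomp⟩
  · exfalso
    have h2 := hkeep _ r' hr' h1 e₁ he₁
    rw [← hn', ← hn] at h2
    have := le_trans (min_le_right c₂ c₃) h2
    linarith
  · rw [← hn'] at hl hcomp
    by_cases hr'D : r' = ell f c D
    · have htr' := htr D hD n' (by rw [← hr'D]; exact hr') hl hcomp
      rw [← hr'D, ← hn] at htr'
      refine ⟨D, hD, hr'D, fun e he heD => ⟨?_, ?_⟩, fun e he e' he' => ?_, fun e he e' he' => ?_⟩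
      · exact le_trans (min_le_right _ _) (htr'.1 e he heD)
      · exact le_trans (min_le_left _ _) (hl e he heD)
      · exact (htr'.2 e he e' he').trans
          (mul_le_mul_of_nonneg_right (le_max_right _ _) (hpos _ _ (hD.sub he')).le)
      · exact (hcomp e he e' he').trans
          (mul_le_mul_of_nonneg_right (le_max_left _ _) (hpos _ _ (hD.sub he')).le)
    · exfalso
      have h2 := hch D hD n' r' hr' hr'D hl hcomp e₁ he₁
      rw [← hn] at h2
      have := le_trans (min_le_left c₂ c₃) h2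
      linarith

end

end Pool.Agent.Work.MP_e056c9_an
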