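import Pool.Agent.Work.MP_e056c9_an.C4

/-! # Limits of the Hankel determinants when some weights tend to zero -/

set_option autoImplicit false
set_option linter.unusedSectionVars false
set_option linter.unusedVariables false
open Polynomial Filter Topology

namespace Pool.Agent.Work.MP_e056c9_an

section
variable {ι : Type*} [Fintype ι] [DecidableEq ι]

/-- main part of the Hankel determinant when the weights outside `P` tend to zero -/
noncomputable def E0 (x w : ι → ℝ) (P : Finset ι) (k : ℕ) : ℝ :=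
  ∑ I ∈ Finset.powersetCard k Finset.univ,
    (∏ i ∈ I, w i) * DD x I * (0:ℝ) ^ ((I \ P).card - (k - P.card))

lemma card_sdiff_ge (I P : Finset ι) : I.card - P.card ≤ (I \ P).card := by
  have h1 := Finset.card_sdiff_add_card_inter I P
  have h2 := Finset.card_le_card (Finset.inter_subset_right : I ∩ P ⊆ P)
  omega

theorem EE_tendsto {l : Filter ℕ} {x : ι → ℝ} {P : Finset ι} {w : ℕ → ι → ℝ} {m : ℕ → ℝ}
    {w₀ : ι → ℝ} (hm : ∀ k, 0 < m k) (hm0 : Tendsto m l (𝓝 0))
    (hP : ∀ i ∈ P, Tendsto (fun k => w k i) l (𝓝 (w₀ i)))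
    (hQ : ∀ i ∉ P, Tendsto (fun k => w k i / m k) l (𝓝 (w₀ i))) (j : ℕ) :
    Tendsto (fun k => EE x (w k) j / m k ^ (j - P.card)) l (𝓝 (E0 x w₀ P j)) := by
  unfold EE E0
  have h1 : (fun k => (∑ I ∈ Finset.powersetCard j Finset.univ, (∏ i ∈ I, w k i) * DD x I)
      / m k ^ (j - P.card)) = fun k => ∑ I ∈ Finset.powersetCard j Finset.univ,
        (∏ i ∈ I, (if i ∈ P then w k i else w k i / m k)) * DD x I
          * m k ^ ((I \ P).card - (j - P.card)) := by
    funext k
    rw [Finset.sum_div]
    refine Finset.sum_congr rfl fun I hI => ?_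
    have hI' := (Finset.mem_powersetCard.1 hI).2
    have h2 := card_sdiff_ge I P
    rw [hI'] at h2
    have hmk := (hm k).ne'
    have h3 : ∏ i ∈ I, w k i
        = (∏ i ∈ I, (if i ∈ P then w k i else w k i / m k)) * m k ^ (I \ P).card := by
      rw [← Finset.prod_inter_mul_prod_sdiff I P (fun i => w k i),
        ← Finset.prod_inter_mul_prod_sdiff I P (fun i => if i ∈ P then w k i else w k i / m k)]
      have h4 : ∏ i ∈ I ∩ P, (if i ∈ P then w k i else w k i / m k) = ∏ i ∈ I ∩ P, w k i :=
        Finset.prod_congr rfl fun i hi => if_pos (Finset.mem_inter.1 hi).2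
      have h5 : ∏ i ∈ I \ P, (if i ∈ P then w k i else w k i / m k)
          = (∏ i ∈ I \ P, w k i) / m k ^ (I \ P).card := by
        rw [← Finset.prod_const, ← Finset.prod_div_distrib]
        exact Finset.prod_congr rfl fun i hi => if_neg (Finset.mem_sdiff.1 hi).2
      rw [h4, h5]
      field_simp
    have h6 : m k ^ (I \ P).card = m k ^ (j - P.card) * m k ^ ((I \ P).card - (j - P.card)) := by
      rw [← pow_add]; congr 1; omega
    rw [h3, h6]
    field_simp
  rw [h1]
  refine tendsto_finsetSum _ fun I hI => ?_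
  refine ((tendsto_finsetProd _ fun i _ => ?_).mul_const _).mul (hm0.pow _)
  by_cases hi : i ∈ P
  · simp only [if_pos hi]; exact hP i hi
  · simp only [if_neg hi]; exact hQ i hi

lemma exists_min_set (P : Finset ι) {k : ℕ} (hk : k ≤ Fintype.card ι) :
    ∃ I ∈ Finset.powersetCard k (Finset.univ : Finset ι), (I \ P).card = k - P.card := by
  classical
  rcases le_total k P.card with h | h
  · obtain ⟨I, hI, hIc⟩ := Finset.exists_subset_card_eq h
    refine ⟨I, Finset.mem_powersetCard.2 ⟨Finset.subset_univ _, hIc⟩, ?_⟩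
    rw [Finset.sdiff_eq_empty_iff_subset.2 hI, Finset.card_empty]
    omega
  · obtain ⟨I, hPI, -, hIc⟩ := Finset.exists_subsuperset_card_eq (Finset.subset_univ P) h
      (by rw [Finset.card_univ]; exact hk)
    refine ⟨I, Finset.mem_powersetCard.2 ⟨Finset.subset_univ _, hIc⟩, ?_⟩
    rw [Finset.card_sdiff_of_subset hPI, hIc]

lemma E0_pos {x w : ι → ℝ} (hx : Function.Injective x) (hw : ∀ i, 0 < w i) (P : Finset ι) {k : ℕ}
    (hk : k ≤ Fintype.card ι) : 0 < E0 x w P k := by
  obtain ⟨I, hI, hIc⟩ := exists_min_set P hk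
  refine Finset.sum_pos' (fun J _ => ?_) ⟨I, hI, ?_⟩
  · refine mul_nonneg (mul_nonneg (Finset.prod_nonneg fun i _ => (hw i).le) (DD_pos hx J).le) ?_
    positivity
  · rw [hIc, Nat.sub_self, pow_zero, mul_one]
    exact mul_pos (Finset.prod_pos fun i _ => hw i) (DD_pos hx I)

/-- limit of the extremal value -/
theorem hh_lim {l : Filter ℕ} {x : ι → ℝ} (hx : Function.Injective x) {P : Finset ι}
    {w : ℕ → ι → ℝ} {m : ℕ → ℝ}
    {w₀ : ι → ℝ} (hm : ∀ k, 0 < m k) (hm0 : Tendsto m l (𝓝 0)) (hw : ∀ k i, 0 < w k i)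
    (hw₀ : ∀ i, 0 < w₀ i)
    (hP : ∀ i ∈ P, Tendsto (fun k => w k i) l (𝓝 (w₀ i)))
    (hQ : ∀ i ∉ P, Tendsto (fun k => w k i / m k) l (𝓝 (w₀ i))) {r : ℕ}
    (hr : r < Fintype.card ι) :
    Tendsto (fun k => hh (disc x (w k)) r / m k ^ ((r + 1 - P.card) - (r - P.card))) l
      (𝓝 (E0 x w₀ P (r + 1) / E0 x w₀ P r)) := by
  have h1 := EE_tendsto (x := x) hm hm0 hP hQ (r + 1)
  have h2 := EE_tendsto (x := x) hm hm0 hP hQ r
  have h3 := h1.div h2 (E0_pos hx hw₀ P hr.le).ne'
  refine h3.congr fun k => ?_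
  have h4 := EE_pos hx (hw k) (k := r) hr.le
  rw [hh_disc hx (fun i => (hw k i).le) h4.ne']
  have h5 : m k ^ (r + 1 - P.card)
      = m k ^ ((r + 1 - P.card) - (r - P.card)) * m k ^ (r - P.card) := by
    rw [← pow_add]; congr 1; omega
  have h6 := (hm k).ne'
  rw [Pi.div_apply, h5]
  field_simp

/-- explicit form at the cardinality of `P` -/
lemma E0_card (x w : ι → ℝ) (P : Finset ι) : E0 x w P P.card = (∏ i ∈ P, w i) * DD x P := by
  unfold E0
  rw [Nat.sub_self]
  rw [Finset.sum_eq_single P]
  · simp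
  · intro I hI hne
    have hIc := (Finset.mem_powersetCard.1 hI).2
    have h1 : (I \ P).card ≠ 0 := by
      intro h0
      rw [Finset.card_eq_zero, Finset.sdiff_eq_empty_iff_subset] at h0
      exact hne (Finset.eq_of_subset_of_card_le h0 hIc.ge)
    rw [Nat.sub_zero, zero_pow h1, mul_zero]
  · intro h0
    exact absurd (Finset.mem_powersetCard.2 ⟨Finset.subset_univ _, rfl⟩) h0

/-- explicit form one below the cardinality of `P` -/
lemma E0_pred (x w : ι → ℝ) (P : Finset ι) {r : ℕ} (hr : P.card = r + 1) :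
    E0 x w P r = ∑ j ∈ P, (∏ i ∈ P.erase j, w i) * DD x (P.erase j) := by
  unfold E0
  have h0 : r - P.card = 0 := by omega
  rw [h0]
  have h1 : ∀ I ∈ Finset.powersetCard r (Finset.univ : Finset ι),
      I ∉ Finset.powersetCard r P →
      (∏ i ∈ I, w i) * DD x I * (0:ℝ) ^ ((I \ P).card - 0) = 0 := by
    intro I hI hIP
    have hIc := (Finset.mem_powersetCard.1 hI).2
    have h1 : (I \ P).card ≠ 0 := by
      intro h0
      rw [Finset.card_eq_zero, Finset.sdiff_eq_empty_iff_subset] at h0
      exact hIP (Finset.mem_powersetCard.2 ⟨h0, hIc⟩)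
    rw [Nat.sub_zero, zero_pow h1, mul_zero]
  rw [← Finset.sum_subset (Finset.powersetCard_mono (Finset.subset_univ P)) h1]
  refine (Finset.sum_bij (fun j _ => P.erase j) ?_ ?_ ?_ ?_).symm
  · intro j hj
    rw [Finset.mem_powersetCard]
    exact ⟨Finset.erase_subset _ _, by rw [Finset.card_erase_of_mem hj, hr]; rfl⟩
  · intro j hj j' hj' he
    by_contra hne
    have : j ∈ P.erase j' := Finset.mem_erase.2 ⟨hne, hj⟩
    rw [← he] at this
    exact absurd this (Finset.notMem_erase _ _)
  · intro I hI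
    obtain ⟨hIP, hIc⟩ := Finset.mem_powersetCard.1 hI
    have h2 : (P \ I).card = 1 := by
      rw [Finset.card_sdiff_of_subset hIP, hr, hIc]; omega
    obtain ⟨j, hj⟩ := Finset.card_eq_one.1 h2
    have hjm : j ∈ P \ I := by rw [hj]; exact Finset.mem_singleton_self j
    refine ⟨j, (Finset.mem_sdiff.1 hjm).1, ?_⟩
    ext i
    rw [Finset.mem_erase]
    constructor
    · rintro ⟨h3, h4⟩
      by_contra h5
      have : i ∈ P \ I := Finset.mem_sdiff.2 ⟨h4, h5⟩
      rw [hj, Finset.mem_singleton] at this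
      exact h3 this
    · intro h3
      refine ⟨?_, hIP h3⟩
      rintro rfl
      exact (Finset.mem_sdiff.1 hjm).2 h3
  · intro j hj
    have h2 : P.erase j \ P = ∅ := by
      rw [Finset.sdiff_eq_empty_iff_subset]; exact Finset.erase_subset _ _
    rw [h2, Finset.card_empty, Nat.sub_zero, pow_zero, mul_one]

/-- explicit form one above the cardinality of `P` -/
lemma E0_succ (x w : ι → ℝ) (P : Finset ι) :
    E0 x w P (P.card + 1) = (∏ i ∈ P, w i) * ∑ j ∈ Pᶜ, w j * DD x (insert j P) := by
  unfold E0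
  have h0 : P.card + 1 - P.card = 1 := by omega
  rw [h0]
  have h1 : ∀ I ∈ Finset.powersetCard (P.card + 1) (Finset.univ : Finset ι),
      I ∉ (Pᶜ).image (fun j => insert j P) →
      (∏ i ∈ I, w i) * DD x I * (0:ℝ) ^ ((I \ P).card - 1) = 0 := by
    intro I hI hIP
    have hIc := (Finset.mem_powersetCard.1 hI).2
    have h2 := card_sdiff_ge I P
    have h1 : (I \ P).card ≠ 1 := by
      intro h3
      have hPI : P ⊆ I := by
        have h4 := Finset.card_sdiff_add_card_inter I P
        have h5 : (I ∩ P).card = P.card := by omega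
        have h6 := Finset.eq_of_subset_of_card_le (Finset.inter_subset_right : I ∩ P ⊆ P) h5.ge
        rw [← h6]; exact Finset.inter_subset_left
      obtain ⟨j, hj⟩ := Finset.card_eq_one.1 h3
      have hjm : j ∈ I \ P := by rw [hj]; exact Finset.mem_singleton_self j
      apply hIP
      rw [Finset.mem_image]
      refine ⟨j, Finset.mem_compl.2 (Finset.mem_sdiff.1 hjm).2, ?_⟩
      rw [Finset.insert_eq, ← hj]
      exact Finset.sdiff_union_of_subset hPI
    have h4 : (I \ P).card - 1 ≠ 0 := by omega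
    rw [zero_pow h4, mul_zero]
  have hsub : (Pᶜ).image (fun j => insert j P) ⊆
      Finset.powersetCard (P.card + 1) (Finset.univ : Finset ι) := by
    intro I hI
    obtain ⟨j, hj, rfl⟩ := Finset.mem_image.1 hI
    rw [Finset.mem_powersetCard]
    exact ⟨Finset.subset_univ _, Finset.card_insert_of_notMem (Finset.mem_compl.1 hj)⟩
  rw [← Finset.sum_subset hsub h1, Finset.sum_image, Finset.mul_sum]
  · refine Finset.sum_congr rfl fun j hj => ?_
    have hj' := Finset.mem_compl.1 hj
    have h2 : (insert j P \ P).card - 1 = 0 := by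
      have : insert j P \ P = {j} := by
        ext i
        simp only [Finset.mem_sdiff, Finset.mem_insert, Finset.mem_singleton]
        constructor
        · rintro ⟨h3 | h3, h4⟩
          · exact h3
          · exact absurd h3 h4
        · rintro rfl
          exact ⟨Or.inl rfl, hj'⟩
      rw [this, Finset.card_singleton]
    rw [h2, pow_zero, mul_one, Finset.prod_insert hj']
    ring
  · intro j hj j' hj' he
    have hj1 := Finset.mem_compl.1 hj
    have : j ∈ insert j' P := by
      have h3 : insert j P = insert j' P := he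
      rw [← h3]; exact Finset.mem_insert_self _ _
    rcases Finset.mem_insert.1 this with h3 | h3
    · exact h3
    · exact absurd h3 hj1

end

end Pool.Agent.Work.MP_e056c9_an
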