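import Pool.Agent.Work.MP_e056c9_an.C5

/-! # Limit environments along a degenerate sequence of levels -/

set_option autoImplicit false
set_option linter.unusedSectionVars false
set_option linter.unusedVariables false
open Polynomial Filter Topology

namespace Pool.Agent.Work.MP_e056c9_an

/-- live nodes of the node system of `z` -/
noncomputable def Lz (f : ℝ[X]) (c : Fin (f.natDegree - 1) → ℝ) (D : Set ℝ) (z : ℝ) :
    Finset (Option (Fin (f.natDegree - 1))) := by
  classical exact Finset.univ.filter (fun i => f.eval (xz c z i) ∉ D)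

lemma mem_Lz {f : ℝ[X]} {c : Fin (f.natDegree - 1) → ℝ} {D : Set ℝ} {z : ℝ}
    {i : Option (Fin (f.natDegree - 1))} : i ∈ Lz f c D z ↔ f.eval (xz c z i) ∉ D := by
  unfold Lz; simp

lemma card_Lz_live {f : ℝ[X]} {c : Fin (f.natDegree - 1) → ℝ} {D : Set ℝ} {z : ℝ}
    (hz : f.eval z ∉ D) : (Lz f c D z).card = ell f c D + 1 := by
  have h1 : Lz f c D z = Finset.insertNone (Lset f c D) := by
    ext i
    rw [mem_Lz]
    cases i with
    | none => simp only [Finset.none_mem_insertNone, iff_true]; exact hz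
    | some j => rw [Finset.some_mem_insertNone, mem_Lset]; exact Iff.rfl
  rw [h1, Finset.card_insertNone, card_Lset]

lemma card_Lz_dead {f : ℝ[X]} {c : Fin (f.natDegree - 1) → ℝ} {D : Set ℝ} {z : ℝ}
    (hz : f.eval z ∈ D) : (Lz f c D z).card = ell f c D := by
  have h1 : Lz f c D z = someSet (Lset f c D) := by
    ext i
    rw [mem_Lz, mem_someSet]
    cases i with
    | none =>
      constructor
      · intro h0; exact absurd hz h0
      · rintro ⟨j, -, hj⟩; exact absurd hj (by simp)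
    | some j =>
      constructor
      · intro h0; exact ⟨j, mem_Lset.2 h0, rfl⟩
      · rintro ⟨j', hj', he⟩
        rw [Option.some.injEq] at he
        rw [← he]
        exact mem_Lset.1 hj'
  rw [h1, card_someSet, card_Lset]

/-- the exponent of the small parameter -/
noncomputable def ex (f : ℝ[X]) (c : Fin (f.natDegree - 1) → ℝ) (D : Set ℝ) (r : ℕ) :
    Option ℝ → ℕ
  | none => (r - ell f c D) - (r - 1 - ell f c D)
  | some z => (r + 1 - (Lz f c D z).card) - (r - (Lz f c D z).card)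

lemma ex_none (f : ℝ[X]) (c : Fin (f.natDegree - 1) → ℝ) (D : Set ℝ) (r : ℕ) :
    ex f c D r none = (r - ell f c D) - (r - 1 - ell f c D) := rfl
lemma ex_some (f : ℝ[X]) (c : Fin (f.natDegree - 1) → ℝ) (D : Set ℝ) (r : ℕ) (z : ℝ) :
    ex f c D r (some z) = (r + 1 - (Lz f c D z).card) - (r - (Lz f c D z).card) := rfl

/-- the limit of the renormalisation step -/
noncomputable def T0 (f : ℝ[X]) (c : Fin (f.natDegree - 1) → ℝ) (D : Set ℝ) (r : ℕ)
    (G : Option ℝ → ℝ) : Option ℝ → ℝ
  | none => if r = 0 then G none else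
      E0 c (om f c (fun y => G (some y))) (Lset f c D) r
        / E0 c (om f c (fun y => G (some y))) (Lset f c D) (r - 1)
  | some z => E0 (xz c z) (om f (xz c z) (fun y => G (some y))) (Lz f c D z) (r + 1)
        / E0 (xz c z) (om f (xz c z) (fun y => G (some y))) (Lz f c D z) r

section
variable {f : ℝ[X]} {α β : ℝ} {c : Fin (f.natDegree - 1) → ℝ}

/-- a point of `ZS` and its image are both dead or both live -/
lemma Closed.iff (h : Hull f α β c) {D : Set ℝ} (hD : Closed f α β c D) {z : ℝ} (hz : z ∈ ZS f c) :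
    f.eval z ∈ D ↔ z ∈ D := by
  by_cases he : z = α ∨ z = β
  · exact hD.inv z (mem_Z0.2 ⟨hz, he⟩)
  · have hlt := h.lt
    have hout := h.ZS_inv.out z hz
    have hd : 0 < dd α β z :=
      lt_of_le_of_ne (dd_nonneg hout) (fun h0 => he ((dd_eq_zero hout hlt).1 h0.symm))
    have h1 : f.eval z ∉ D := by
      intro h0
      have h2 := (mem_Z0.1 (hD.sub h0)).2
      have h3 := (dd_eq_zero (h.maps z hout) hlt).2 h2
      have h4 := h.expand hout
      linarith
    have h2 : z ∉ D := fun h0 => he (mem_Z0.1 (hD.sub h0)).2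
    exact ⟨fun h0 => absurd h0 h1, fun h0 => absurd h0 h2⟩

lemma mem_Live {D : Set ℝ} {z : ℝ} : some z ∈ Live f c D ↔ z ∈ ZS f c ∧ z ∉ D := by
  unfold Live
  rw [some_mem_Sp]
  rfl

lemma live_subset {D : Set ℝ} : Live f c D ⊆ Sp (ZS f c) := fun s hs z hz => (hs z hz).1

lemma none_mem_Live {D : Set ℝ} : none ∈ Live f c D := none_mem_Sp _

lemma ex_change (h : Hull f α β c) {D : Set ℝ} (hD : Closed f α β c D) {r : ℕ}
    (hr : r ≠ ell f c D) {s : Option ℝ} (hs : s ∈ Sp (ZS f c)) :
    ex f c D r s = if r < ell f c D then 0 else 1 := by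
  cases s with
  | none =>
    rw [ex_none]
    split_ifs with h0
    · omega
    · omega
  | some z =>
    have hz := some_mem_Sp.1 hs
    rw [ex_some]
    by_cases hzD : f.eval z ∈ D
    · rw [card_Lz_dead hzD]
      split_ifs with h0
      · omega
      · omega
    · rw [card_Lz_live hzD]
      split_ifs with h0
      · omega
      · omega

lemma ex_live (h : Hull f α β c) {D : Set ℝ} (hD : Closed f α β c D) {s : Option ℝ}
    (hs : s ∈ Live f c D) : ex f c D (ell f c D) s = 0 := by
  cases s with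
  | none => rw [ex_none]; omega
  | some z =>
    have hz := mem_Live.1 hs
    rw [ex_some]
    rw [card_Lz_live (fun h0 => hz.2 ((hD.iff h hz.1).1 h0))]
    omega

lemma ex_dead (h : Hull f α β c) {D : Set ℝ} (hD : Closed f α β c D) {e : ℝ}
    (he : e ∈ D) : ex f c D (ell f c D) (some e) = 1 := by
  have hz := (mem_Z0.1 (hD.sub he)).1
  rw [ex_some]
  rw [card_Lz_dead ((hD.iff h hz).2 he)]
  omega

end

/-- limit of the environments along an ultrafilter, dead states divided by `uu (n k) e₀` -/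
structure LimEnv (f : ℝ[X]) (α β : ℝ) (c : Fin (f.natDegree - 1) → ℝ) (L : ℝ[X] →ₗ[ℝ] ℝ)
    (D : Set ℝ) (U : Ultrafilter ℕ) (e₀ : ℝ) (n : ℕ → ℕ) (G : Option ℝ → ℝ) : Prop where
  e₀D : e₀ ∈ D
  m0 : Tendsto (fun k => uu L β (n k) e₀) U (𝓝 0)
  none_eq : G none = 1
  pos : ∀ s ∈ Sp (ZS f c), 0 < G s
  live : ∀ s ∈ Live f c D, Tendsto (fun k => NH L β (n k) s) U (𝓝 (G s))
  dead : ∀ e ∈ D, Tendsto (fun k => uu L β (n k) e / uu L β (n k) e₀) U (𝓝 (G (some e)))

section
variable {f : ℝ[X]} {α β : ℝ} {c : Fin (f.natDegree - 1) → ℝ} {L M : ℝ[X] →ₗ[ℝ] ℝ}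
  (hC : Core f α β c L M)
include hC

/-- comparison bounds at live states -/
lemma Core.live_bounds {D : Set ℝ} {c₁ C ε : ℝ} (hc₁ : 0 < c₁) : ∃ C₁ : ℝ, 1 ≤ C₁ ∧
    ∀ n, ∀ s ∈ Live f c D, (∀ e ∈ Z0 f α β c, e ∉ D → c₁ ≤ uu L β n e) →
      min c₁ 1 * rho α β s ≤ NH L β n s ∧ NH L β n s ≤ C₁ * rho α β s := by
  obtain ⟨C₁, hC₁, hup⟩ := hC.exists_upper
  refine ⟨C₁, hC₁, fun n s hs hl => ⟨?_, hup n s (live_subset hs)⟩⟩
  cases s with
  | none => rw [hC.NH_none]; unfold rho; rw [mul_one]; exact min_le_right _ _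
  | some z =>
    obtain ⟨hz, hzD⟩ := mem_Live.1 hs
    have hzE := hC.hull.ZS_inv.out z hz
    rw [NH_some, rho_some]
    split_ifs with h0
    · rw [mul_one]
      have h1 := (dd_eq_zero hzE hC.hull.lt).1 h0
      exact le_trans (min_le_left _ _) (hl z (mem_Z0.2 ⟨hz, h1⟩) hzD)
    · have h1 := (hC.uu_bounds n hzE).1
      have h2 : 0 ≤ dd α β z := dd_nonneg hzE
      have h3 : min c₁ 1 ≤ 1 := min_le_right _ _
      nlinarith

/-- existence of limits -/
theorem Core.exists_limEnv {D : Set ℝ} (hD : Closed f α β c D) {c₁ C : ℝ} (hc₁ : 0 < c₁)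
    (hC1 : 1 ≤ C) (U : Ultrafilter ℕ) {e₀ : ℝ} (he₀ : e₀ ∈ D) {ε : ℕ → ℝ}
    (hε : Tendsto ε U (𝓝 0)) {n : ℕ → ℕ}
    (hlev : ∀ k, DegLevel f α β c L D c₁ C (ε k) (n k)) :
    ∃ G : Option ℝ → ℝ, LimEnv f α β c L D U e₀ n G := by
  classical
  have h := hC.hull
  have hinv := h.ZS_inv
  have he₀S := (mem_Z0.1 (hD.sub he₀)).1
  obtain ⟨C₁, hC₁, hbd⟩ := hC.live_bounds (D := D) (C := C) (ε := 0) hc₁
  have hρ := rho_PosOn h hinv
  have hρpos : ∀ s ∈ Sp (ZS f c), 0 < rho α β s := by
    intro s hs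
    cases s with
    | none => exact hρ.1
    | some z => exact hρ.2 z (some_mem_Sp.1 hs)
  have hmin : 0 < min c₁ 1 := lt_min hc₁ one_pos
  have hlive : ∀ s, ∃ x : ℝ, (s ∈ Live f c D → 0 < x ∧
      Tendsto (fun k => NH L β (n k) s) U (𝓝 x)) := by
    intro s
    by_cases hs : s ∈ Live f c D
    · obtain ⟨x, hx, hlim⟩ := ulim U (g := fun k => NH L β (n k) s)
        (a := min c₁ 1 * rho α β s) (b := C₁ * rho α β s)
        (fun k => ⟨(hbd (n k) s hs (hlev k).1).1, (hbd (n k) s hs (hlev k).1).2⟩)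
      exact ⟨x, fun _ => ⟨lt_of_lt_of_le (mul_pos hmin (hρpos s (live_subset hs))) hx.1, hlim⟩⟩
    · exact ⟨1, fun h0 => absurd h0 hs⟩
  have hdead : ∀ e, ∃ x : ℝ, (e ∈ D → 0 < x ∧
      Tendsto (fun k => uu L β (n k) e / uu L β (n k) e₀) U (𝓝 x)) := by
    intro e
    by_cases he : e ∈ D
    · have heS := (mem_Z0.1 (hD.sub he)).1
      obtain ⟨x, hx, hlim⟩ := ulim U (g := fun k => uu L β (n k) e / uu L β (n k) e₀)
        (a := 1 / C) (b := C)
        (fun k => by
          have h1 := hC.uu_pos (n k) (hinv.out e heS)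
          have h2 := hC.uu_pos (n k) (hinv.out e₀ he₀S)
          constructor
          · rw [div_le_div_iff₀ (by linarith) h2, one_mul, mul_comm]
            exact (hlev k).2.1 e₀ he₀ e he
          · rw [div_le_iff₀ h2]
            exact (hlev k).2.1 e he e₀ he₀)
      exact ⟨x, fun _ => ⟨lt_of_lt_of_le (by positivity) hx.1, hlim⟩⟩
    · exact ⟨1, fun h0 => absurd h0 he⟩
  choose g1 hg1 using hlive
  choose g2 hg2 using hdead
  set G : Option ℝ → ℝ := fun s => if s ∈ some '' D then g2 (s.getD 0) else g1 s with hG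
  have hGlive : ∀ s ∈ Live f c D, G s = g1 s := by
    intro s hs
    rw [hG]
    simp only
    rw [if_neg]
    rintro ⟨z, hz, rfl⟩
    exact (mem_Live.1 hs).2 hz
  have hGdead : ∀ e ∈ D, G (some e) = g2 e := by
    intro e he
    rw [hG]
    simp only
    rw [if_pos ⟨e, he, rfl⟩]
    rfl
  refine ⟨G, he₀, ?_, ?_, ?_, ?_, ?_⟩
  · refine squeeze_zero' (Filter.Eventually.of_forall fun k => ?_)
      (Filter.Eventually.of_forall fun k => (hlev k).2.2 e₀ he₀) hε
    exact (hC.uu_pos (n k) (hinv.out e₀ he₀S)).le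
  · rw [hGlive none none_mem_Live]
    have h1 := (hg1 none none_mem_Live).2
    refine tendsto_nhds_unique h1 ?_
    have : (fun k => NH L β (n k) none) = fun _ => (1:ℝ) := by
      funext k; exact hC.NH_none _
    rw [this]; exact tendsto_const_nhds
  · intro s hs
    by_cases hsD : s ∈ some '' D
    · obtain ⟨e, he, rfl⟩ := hsD
      rw [hGdead e he]
      exact (hg2 e he).1
    · have hsL : s ∈ Live f c D := by
        intro z hz
        refine ⟨hs z hz, fun hzD => hsD ⟨z, hzD, hz.symm⟩⟩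
      rw [hGlive s hsL]
      exact (hg1 s hsL).1
  · intro s hs
    rw [hGlive s hs]
    exact (hg1 s hs).2
  · intro e he
    rw [hGdead e he]
    exact (hg2 e he).2

omit hC in
lemma LimEnv.om_pos (h : Hull f α β c) {D : Set ℝ} {U : Ultrafilter ℕ} {e₀ : ℝ} {n : ℕ → ℕ}
    {G : Option ℝ → ℝ} (hG : LimEnv f α β c L D U e₀ n G) {ι : Type*} [Fintype ι] [DecidableEq ι]
    {x : ι → ℝ} (hx : Function.Injective x) (hv : ∀ i, f.eval (x i) ∈ ZS f c) (i : ι) :
    0 < om f x (fun y => G (some y)) i :=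
  Pool.Agent.Work.MP_e056c9_an.om_pos h.two_le hx
    (fun i => hG.pos _ (some_mem_Sp.2 (hv i))) i

/-- limit of the extremal value of a node system -/
theorem Core.lim_nodes {D : Set ℝ} {U : Ultrafilter ℕ} {e₀ : ℝ} {n : ℕ → ℕ}
    {G : Option ℝ → ℝ} (hG : LimEnv f α β c L D U e₀ n G) (he₀ : e₀ ∈ ZS f c)
    {ι : Type*} [Fintype ι] [DecidableEq ι]
    {x : ι → ℝ} (hx : Function.Injective x) (hv : ∀ i, f.eval (x i) ∈ ZS f c) {P : Finset ι}
    (hP : ∀ i, i ∈ P ↔ f.eval (x i) ∉ D) {r : ℕ} (hr : r < Fintype.card ι) :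
    Tendsto (fun k => hh (disc x (om f x (fun y => NH L β (n k) (some y)))) r
        / uu L β (n k) e₀ ^ ((r + 1 - P.card) - (r - P.card))) U
      (𝓝 (E0 x (om f x (fun y => G (some y))) P (r + 1)
        / E0 x (om f x (fun y => G (some y))) P r)) := by
  have h := hC.hull
  have hinv := h.ZS_inv
  refine hh_lim hx (fun k => hC.uu_pos (n k) (hinv.out e₀ he₀)) hG.m0 (fun k i => ?_)
    (fun i => hG.om_pos h hx hv i) (fun i hi => ?_) (fun i hi => ?_) hr
  · exact Pool.Agent.Work.MP_e056c9_an.om_pos h.two_le hx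
      (fun i => hC.uu_pos (n k) (hinv.out _ (hv i))) i
  · unfold om
    refine (hG.live _ (mem_Live.2 ⟨hv i, (hP i).1 hi⟩)).div_const _
  · have hi' : f.eval (x i) ∈ D := by
      by_contra h0
      exact hi ((hP i).2 h0)
    have h1 := (hG.dead _ hi').div_const (|f.leadingCoeff| * |(chie x i).eval (x i)|)
    unfold om
    refine h1.congr fun k => ?_
    have h2 : NH L β (n k) (some (f.eval (x i))) = uu L β (n k) (f.eval (x i)) := rfl
    simp only [h2]
    ring

/-- limit of one renormalisation step -/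
theorem Core.lim_TT {D : Set ℝ} {U : Ultrafilter ℕ} {e₀ : ℝ} {n : ℕ → ℕ}
    {G : Option ℝ → ℝ} (hG : LimEnv f α β c L D U e₀ n G) (he₀ : e₀ ∈ ZS f c) {r : ℕ}
    (hr : r < f.natDegree) : ∀ s ∈ Sp (ZS f c),
    Tendsto (fun k => TT f c r (NH L β (n k)) s / uu L β (n k) e₀ ^ ex f c D r s) U
      (𝓝 (T0 f c D r G s)) := by
  have h := hC.hull
  have hinv := h.ZS_inv
  intro s hs
  cases s with
  | none =>
    by_cases h0 : r = 0
    · subst h0
      have h1 : (fun k => TT f c 0 (NH L β (n k)) none / uu L β (n k) e₀ ^ ex f c D 0 none)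
          = fun k => NH L β (n k) none := by
        funext k
        unfold TT ex
        rw [if_pos rfl]
        simp
      have h2 : T0 f c D 0 G none = G none := by unfold T0; rw [if_pos rfl]
      rw [h1, h2]
      exact hG.live none none_mem_Live
    · have h1 := hC.lim_nodes hG he₀ h.inj hinv.val (P := Lset f c D) (fun i => mem_Lset)
        (r := r - 1) (by rw [Fintype.card_fin]; omega)
      have h2 : r - 1 + 1 = r := by omega
      rw [h2] at h1
      have h3 : T0 f c D r G none = E0 c (om f c (fun y => G (some y))) (Lset f c D) r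
        / E0 c (om f c (fun y => G (some y))) (Lset f c D) (r - 1) := by
        unfold T0; rw [if_neg h0]
      rw [h3]
      refine h1.congr fun k => ?_
      have h4 : TT f c r (NH L β (n k)) none
          = hh (disc c (om f c (fun y => NH L β (n k) (some y)))) (r - 1) := by
        unfold TT; rw [if_neg h0]; rfl
      rw [h4, card_Lset]
      rfl
  | some z =>
    have hz := some_mem_Sp.1 hs
    have hval : ∀ i, f.eval (xz c z i) ∈ ZS f c := by
      intro i
      cases i with
      | none => exact hinv.maps z hz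
      | some j => exact hinv.val j
    exact hC.lim_nodes hG he₀ (h.xz_inj (hinv.out z hz)) hval (P := Lz f c D z)
      (fun i => mem_Lz) (r := r) (by rw [card_opt h.two_le]; omega)

omit hC in
/-- positivity of the limit -/
theorem T0_pos (h : Hull f α β c) {D : Set ℝ} {U : Ultrafilter ℕ} {e₀ : ℝ} {n : ℕ → ℕ}
    {G : Option ℝ → ℝ} (hG : LimEnv f α β c L D U e₀ n G) {r : ℕ}
    (hr : r < f.natDegree) : ∀ s ∈ Sp (ZS f c), 0 < T0 f c D r G s := by
  have hinv := h.ZS_inv
  intro s hs
  cases s with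
  | none =>
    unfold T0
    split_ifs with h0
    · exact hG.pos none hs
    · refine div_pos (E0_pos h.inj (fun i => hG.om_pos h h.inj hinv.val i) _ ?_)
        (E0_pos h.inj (fun i => hG.om_pos h h.inj hinv.val i) _ ?_)
      · rw [Fintype.card_fin]; omega
      · rw [Fintype.card_fin]; omega
  | some z =>
    have hz := some_mem_Sp.1 hs
    have hval : ∀ i, f.eval (xz c z i) ∈ ZS f c := by
      intro i
      cases i with
      | none => exact hinv.maps z hz
      | some j => exact hinv.val j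
    have hx := h.xz_inj (hinv.out z hz)
    unfold T0
    refine div_pos (E0_pos hx (fun i => hG.om_pos h hx hval i) _ ?_)
        (E0_pos hx (fun i => hG.om_pos h hx hval i) _ ?_)
    · rw [card_opt h.two_le]; omega
    · rw [card_opt h.two_le]; omega

end

end Pool.Agent.Work.MP_e056c9_an
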