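import Pool.Agent.Work.MP_e056c9_an.C6

/-! # Change of digit after a degenerate run -/

set_option autoImplicit false
set_option linter.unusedSectionVars false
set_option linter.unusedVariables false
open Polynomial Filter Topology

namespace Pool.Agent.Work.MP_e056c9_an

section
variable {f : ℝ[X]} {α β : ℝ} {c : Fin (f.natDegree - 1) → ℝ}

/-- limit of a sequence of live states -/
lemma state_lim_live (h : Hull f α β c) {D : Set ℝ} (U : Ultrafilter ℕ) {s : ℕ → Option ℝ}
    (hs : ∀ k, s k ∈ Live f c D) {G : ℕ → Option ℝ → ℝ} {g : Option ℝ → ℝ}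
    (hlim : ∀ t ∈ Live f c D, Tendsto (fun k => G k t) U (𝓝 (g t)))
    (hnone : ∀ k, G k none = 0)
    (hbd : ∀ k z, z ∈ ZS f c → 0 < dd α β z → |G k (some z)| ≤ (β - α) / dd α β z) :
    ∃ t ∈ Live f c D, Tendsto (fun k => G k (s k)) U (𝓝 (g t)) := by
  classical
  set G' : ℕ → Option ℝ → ℝ := fun k t => if t ∈ Live f c D then G k t else 0 with hG'
  set g' : Option ℝ → ℝ := fun t => if t ∈ Live f c D then g t else 0 with hg'
  have hg0 : g none = 0 := by
    have h1 := hlim none none_mem_Live
    have h2 : (fun k => G k none) = fun _ => (0:ℝ) := by funext k; exact hnone k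
    rw [h2] at h1
    exact (tendsto_nhds_unique h1 tendsto_const_nhds)
  obtain ⟨t, ht, hlimt⟩ := state_lim h U (s := s) (fun k => live_subset (hs k)) (G := G') (g := g')
    (fun t ht => by
      by_cases h1 : t ∈ Live f c D
      · simp only [hG', hg', if_pos h1]; exact hlim t h1
      · simp only [hG', hg', if_neg h1]; exact tendsto_const_nhds)
    (fun k => by simp only [hG', if_pos (none_mem_Live (f := f) (c := c) (D := D))]; exact hnone k)
    (fun k z hz hd => by
      by_cases h1 : some z ∈ Live f c D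
      · simp only [hG', if_pos h1]; exact hbd k z hz hd
      · simp only [hG', if_neg h1, abs_zero]
        exact div_nonneg (by linarith [h.lt]) hd.le)
  have h3 : (fun k => G' k (s k)) = fun k => G k (s k) := by
    funext k
    simp only [hG', if_pos (hs k)]
  rw [h3] at hlimt
  by_cases h1 : t ∈ Live f c D
  · refine ⟨t, h1, ?_⟩
    simp only [hg', if_pos h1] at hlimt
    exact hlimt
  · refine ⟨none, none_mem_Live, ?_⟩
    simp only [hg', if_neg h1] at hlimt
    rw [hg0]
    exact hlimt

end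

section
variable {f : ℝ[X]} {α β : ℝ} {c : Fin (f.natDegree - 1) → ℝ} {L M : ℝ[X] →ₗ[ℝ] ℝ}
  (hC : Core f α β c L M)
include hC

lemma Core.NH_pos' (n : ℕ) {s : Option ℝ} (hs : s ∈ Sp (ZS f c)) : 0 < NH L β n s := by
  have := hC.NH_pos hC.hull.ZS_inv n
  cases s with
  | none => exact this.1
  | some z => exact this.2 z (some_mem_Sp.1 hs)

lemma Core.RR_none (n n' : ℕ) : RR (NH L β n) (NH L β n') none = 0 := by
  unfold RR
  rw [hC.NH_none, hC.NH_none]; simp

/-- equal limits of `n` and `n'` -/
lemma Core.lim_eq {D : Set ℝ} (hD : Closed f α β c D) {U : Ultrafilter ℕ} {e₀ : ℝ}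
    {n n' : ℕ → ℕ} {G G' : Option ℝ → ℝ} (hG : LimEnv f α β c L D U e₀ n G)
    (hG' : LimEnv f α β c L D U e₀ n' G') {ε : ℕ → ℝ} (hε : Tendsto ε U (𝓝 0))
    (hl : ∀ k, OscLe (Live f c D) (Hn L β (n k)) (Hn L β (n' k)) (ε k))
    (hd : ∀ k, OscLe (some '' D) (Hn L β (n k)) (Hn L β (n' k)) (ε k)) :
    ∀ s ∈ Sp (ZS f c), G s = G' s := by
  have h := hC.hull
  have hinv := h.ZS_inv
  have hDS : ∀ e ∈ D, e ∈ ZS f c := fun e he => (mem_Z0.1 (hD.sub he)).1
  intro s hs
  by_cases hsD : s ∈ some '' D
  · obtain ⟨e, he, rfl⟩ := hsD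
    have he₀ := hG.e₀D
    -- log ratio of the normalised dead values tends to zero
    have h1 := hG.dead e he
    have h2 := hG'.dead e he
    have p1 := hG.pos _ hs
    have p2 := hG'.pos _ hs
    have h3 := (h2.div h1 p1.ne').log (div_pos p2 p1).ne'
    have h4 : ∀ k, Real.log (((fun k => uu L β (n' k) e / uu L β (n' k) e₀)
        / (fun k => uu L β (n k) e / uu L β (n k) e₀)) k)
        = RR (NH L β (n k)) (NH L β (n' k)) (some e)
          - RR (NH L β (n k)) (NH L β (n' k)) (some e₀) := by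
      intro k
      rw [Pi.div_apply]
      have q1 := hC.uu_pos (n k) (hinv.out e (hDS e he))
      have q2 := hC.uu_pos (n k) (hinv.out e₀ (hDS e₀ he₀))
      have q3 := hC.uu_pos (n' k) (hinv.out e (hDS e he))
      have q4 := hC.uu_pos (n' k) (hinv.out e₀ (hDS e₀ he₀))
      unfold RR
      rw [NH_some, NH_some, NH_some, NH_some, Real.log_div (div_pos q3 q4).ne' (div_pos q1 q2).ne',
        Real.log_div q3.ne' q4.ne', Real.log_div q1.ne' q2.ne', Real.log_div q3.ne' q1.ne',
        Real.log_div q4.ne' q2.ne']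
      ring
    have h5 : Tendsto (fun k => Real.log (((fun k => uu L β (n' k) e / uu L β (n' k) e₀)
        / (fun k => uu L β (n k) e / uu L β (n k) e₀)) k)) U (𝓝 0) := by
      rw [tendsto_zero_iff_abs_tendsto_zero]
      refine squeeze_zero (fun k => abs_nonneg _) (fun k => ?_) hε
      simp only [Function.comp_apply]
      rw [h4 k]
      have hsub : some '' D ⊆ Sp (ZS f c) := by
        rintro t ⟨e', he', rfl⟩
        exact some_mem_Sp.2 (hDS e' he')
      have h6 := (hC.OscLe_NH (n k) (n' k) hinv hsub (ε k)).2 (hd k)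
      rw [abs_le]
      have a1 := h6 (some e) ⟨e, he, rfl⟩ (some e₀) ⟨e₀, he₀, rfl⟩
      have a2 := h6 (some e₀) ⟨e₀, he₀, rfl⟩ (some e) ⟨e, he, rfl⟩
      constructor <;> linarith
    have h7 := tendsto_nhds_unique h3 h5
    have h8 : G' (some e) / G (some e) = 1 := Real.eq_one_of_pos_of_log_eq_zero (div_pos p2 p1) h7
    rw [div_eq_one_iff_eq p1.ne'] at h8
    exact h8.symm
  · have hsL : s ∈ Live f c D := by
      intro z hz
      refine ⟨hs z hz, fun hzD => hsD ⟨z, hzD, hz.symm⟩⟩
    have h1 := hG.live s hsL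
    have h2 := hG'.live s hsL
    have p1 := hG.pos _ hs
    have p2 := hG'.pos _ hs
    have h3 := (h2.div h1 p1.ne').log (div_pos p2 p1).ne'
    have h5 : Tendsto (fun k => Real.log (((fun k => NH L β (n' k) s)
        / (fun k => NH L β (n k) s)) k)) U (𝓝 0) := by
      rw [tendsto_zero_iff_abs_tendsto_zero]
      refine squeeze_zero (fun k => abs_nonneg _) (fun k => ?_) hε
      simp only [Function.comp_apply, Pi.div_apply]
      have h6 := (hC.OscLe_NH (n k) (n' k) hinv (live_subset (D := D)) (ε k)).2 (hl k)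
      have a0 := hC.RR_none (n k) (n' k)
      have a1 := h6 s hsL none none_mem_Live
      have a2 := h6 none none_mem_Live s hsL
      rw [a0] at a1 a2
      unfold RR at a1 a2
      rw [abs_le]
      constructor <;> linarith
    have h7 := tendsto_nhds_unique h3 h5
    have h8 : G' s / G s = 1 := Real.eq_one_of_pos_of_log_eq_zero (div_pos p2 p1) h7
    rw [div_eq_one_iff_eq p1.ne'] at h8
    exact h8.symm

/-- (D3) change of digit after a degenerate run -/
theorem change_step (D : Set ℝ) (hD : Closed f α β c D) (c₁ C : ℝ) (hc₁ : 0 < c₁) (hC1 : 1 ≤ C) :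
    ∀ η : ℝ, 0 < η → ∃ ε : ℝ, 0 < ε ∧ ∀ n n' : ℕ,
      DegLevel f α β c L D c₁ C ε n → DegLevel f α β c L D c₁ C ε n' →
      OscLe (Live f c D) (Hn L β n) (Hn L β n') ε →
      OscLe (some '' D) (Hn L β n) (Hn L β n') ε →
      ∀ r : ℕ, r < f.natDegree → r ≠ ell f c D →
        OscLe (Sp (ZS f c)) (Hn L β (f.natDegree * n + r)) (Hn L β (f.natDegree * n' + r)) η := by
  classical
  intro η hη
  by_contra hcon
  push Not at hcon
  choose n n' hn hn' hl hd r hr hrD hnot using
    fun k : ℕ => hcon (1 / ((k : ℝ) + 1)) (by positivity)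
  have h := hC.hull
  have hinv := h.ZS_inv
  obtain ⟨e₀, he₀⟩ := hD.ne
  have he₀S := (mem_Z0.1 (hD.sub he₀)).1
  set U : Ultrafilter ℕ := hyperfilter ℕ with hU
  have hε : Tendsto (fun k : ℕ => 1 / ((k : ℝ) + 1)) U (𝓝 0) :=
    tendsto_one_div_add_atTop_nhds_zero_nat.mono_left Nat.hyperfilter_le_atTop
  obtain ⟨G, hG⟩ := hC.exists_limEnv hD hc₁ hC1 U he₀ hε hn
  obtain ⟨G', hG'⟩ := hC.exists_limEnv hD hc₁ hC1 U he₀ hε hn'
  have hGG := hC.lim_eq hD hG hG' hε hl hd
  obtain ⟨ρ, hρ, hev⟩ := ufin U (Set.finite_Iio f.natDegree) (g := r)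
    (Filter.Eventually.of_forall fun k => hr k)
  have hρD : ρ ≠ ell f c D := by
    obtain ⟨k, hk⟩ := hev.exists
    rw [← hk]; exact hrD k
  -- T0 depends only on the values on `Sp ZS`
  have hT0 : ∀ s ∈ Sp (ZS f c), T0 f c D ρ G s = T0 f c D ρ G' s := by
    intro s hs
    cases s with
    | none =>
      have e1 : om f c (fun y => G (some y)) = om f c (fun y => G' (some y)) := by
        funext i
        unfold om
        simp only
        rw [hGG _ (some_mem_Sp.2 (hinv.val i))]
      unfold T0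
      simp only
      rw [e1, hGG _ hs]
    | some z =>
      have hz := some_mem_Sp.1 hs
      have e1 : om f (xz c z) (fun y => G (some y)) = om f (xz c z) (fun y => G' (some y)) := by
        funext i
        unfold om
        have hval : f.eval (xz c z i) ∈ ZS f c := by
          cases i with
          | none => exact hinv.maps z hz
          | some j => exact hinv.val j
        simp only
        rw [hGG _ (some_mem_Sp.2 hval)]
      unfold T0
      simp only
      rw [e1]
  -- the limit of the log ratio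
  have hRlim : ∀ s ∈ Sp (ZS f c), Tendsto (fun k => RR (NH L β (f.natDegree * n k + r k))
      (NH L β (f.natDegree * n' k + r k)) s) U (𝓝 0) := by
    intro s hs
    have key : ∀ {n : ℕ → ℕ} {G : Option ℝ → ℝ}, LimEnv f α β c L D U e₀ n G →
        Tendsto (fun k => NH L β (f.natDegree * n k + ρ) s) U
          (𝓝 (T0 f c D ρ G s / T0 f c D ρ G none)) := by
      intro n G hG
      have h1 := hC.lim_TT hG he₀S hρ s hs
      have h2 := hC.lim_TT hG he₀S hρ none (none_mem_Sp _)
      have hp := T0_pos h hG hρ none (none_mem_Sp _)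
      refine (h1.div h2 hp.ne').congr fun k => ?_
      rw [Pi.div_apply, hC.NH_rec hinv (n k) ρ hρ s hs, ex_change h hD hρD hs,
        ex_change h hD hρD (none_mem_Sp _)]
      have h3 := hC.uu_pos (n k) (hinv.out e₀ he₀S)
      have h4 : uu L β (n k) e₀ ^ (if ρ < ell f c D then 0 else 1) ≠ 0 := (pow_pos h3 _).ne'
      rw [div_div_div_cancel_right₀ h4]
    have k1 := key hG
    have k2 := key hG'
    have p1 := div_pos (T0_pos h hG hρ s hs) (T0_pos h hG hρ none (none_mem_Sp _))
    have p2 := div_pos (T0_pos h hG' hρ s hs) (T0_pos h hG' hρ none (none_mem_Sp _))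
    have k3 := (k2.div k1 p1.ne').log (div_pos p2 p1).ne'
    rw [hT0 s hs, hT0 none (none_mem_Sp _), div_self p2.ne', Real.log_one] at k3
    refine k3.congr' ?_
    filter_upwards [hev] with k hk
    rw [hk]
    rfl
  -- witnesses
  have hwit : ∀ k, ∃ s t : Option ℝ, s ∈ Sp (ZS f c) ∧ t ∈ Sp (ZS f c) ∧
      η < RR (NH L β (f.natDegree * n k + r k)) (NH L β (f.natDegree * n' k + r k)) s
        - RR (NH L β (f.natDegree * n k + r k)) (NH L β (f.natDegree * n' k + r k)) t := by
    intro k
    have h1 := hnot k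
    rw [← hC.OscLe_NH _ _ hinv (le_refl _)] at h1
    unfold OscLe at h1
    push Not at h1
    obtain ⟨s, hs, t, ht, hlt⟩ := h1
    exact ⟨s, t, hs, ht, hlt⟩
  choose s t hs ht hst using hwit
  obtain ⟨s', hs', hslim⟩ := state_lim h U hs (g := fun _ => 0) hRlim
    (fun k => hC.RR_none _ _) (fun k z hz hd => hC.RR_bound _ _ (hinv.out z hz) hd)
  obtain ⟨t', ht', htlim⟩ := state_lim h U ht (g := fun _ => 0) hRlim
    (fun k => hC.RR_none _ _) (fun k z hz hd => hC.RR_bound _ _ (hinv.out z hz) hd)
  have hfin := ge_of_tendsto (hslim.sub htlim) (Filter.Eventually.of_forall fun k => (hst k).le)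
  simp only [sub_zero] at hfin
  linarith

end

end Pool.Agent.Work.MP_e056c9_an
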