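import Pool.Agent.Work.MP_e056c9_an.C7

/-! # Contraction of the live part in a degenerate run -/

set_option autoImplicit false
set_option linter.unusedSectionVars false
set_option linter.unusedVariables false
open Polynomial Filter Topology

namespace Pool.Agent.Work.MP_e056c9_an

/-! ### harmonic means -/

section
variable {ι : Type*} [DecidableEq ι]

/-- harmonic mean, upper comparison with equality case -/
lemma harm_upper {P : Finset ι} {A G G' : ι → ℝ} (hA : ∀ i ∈ P, 0 < A i) (hG : ∀ i ∈ P, 0 < G i)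
    (hG' : ∀ i ∈ P, 0 < G' i) (hne : P.Nonempty) {T : ℝ} (hT : 0 < T)
    (hle : ∀ i ∈ P, G' i ≤ T * G i) :
    (∑ i ∈ P, A i / G' i)⁻¹ ≤ T * (∑ i ∈ P, A i / G i)⁻¹ ∧
    ((∑ i ∈ P, A i / G' i)⁻¹ = T * (∑ i ∈ P, A i / G i)⁻¹ → ∀ i ∈ P, G' i = T * G i) := by
  have h1 : ∀ i ∈ P, A i / G i ≤ T * (A i / G' i) := by
    intro i hi
    have a1 := hA i hi
    have a2 := hG i hi
    have a3 := hG' i hi
    rw [← mul_div_assoc, div_le_div_iff₀ a2 a3]
    nlinarith [mul_le_mul_of_nonneg_left (hle i hi) a1.le]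
  have s1 : 0 < ∑ i ∈ P, A i / G i := Finset.sum_pos (fun i hi => div_pos (hA i hi) (hG i hi)) hne
  have s2 : 0 < ∑ i ∈ P, A i / G' i := Finset.sum_pos (fun i hi => div_pos (hA i hi) (hG' i hi)) hne
  have h2 : ∑ i ∈ P, A i / G i ≤ T * ∑ i ∈ P, A i / G' i := by
    rw [Finset.mul_sum]; exact Finset.sum_le_sum h1
  constructor
  · rw [← div_eq_mul_inv, le_div_iff₀ s1, inv_mul_le_iff₀ s2, mul_comm]
    exact h2
  · intro heq
    have h3 : ∑ i ∈ P, A i / G i = T * ∑ i ∈ P, A i / G' i := by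
      rw [← div_eq_mul_inv, eq_div_iff s1.ne', inv_mul_eq_iff_eq_mul₀ s2.ne'] at heq
      rw [heq, mul_comm]
    rw [Finset.mul_sum] at h3
    have h4 := (Finset.sum_eq_sum_iff_of_le h1).1 h3
    intro i hi
    have h5 := h4 i hi
    have a1 := hA i hi
    have a2 := hG i hi
    have a3 := hG' i hi
    rw [← mul_div_assoc, div_eq_div_iff a2.ne' a3.ne'] at h5
    have h6 : A i * (G' i - T * G i) = 0 := by linear_combination h5
    rcases mul_eq_zero.1 h6 with h7 | h7
    · exact absurd h7 a1.ne'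
    · linarith

lemma harm_lower {P : Finset ι} {A G G' : ι → ℝ} (hA : ∀ i ∈ P, 0 < A i) (hG : ∀ i ∈ P, 0 < G i)
    (hG' : ∀ i ∈ P, 0 < G' i) (hne : P.Nonempty) {T : ℝ} (hT : 0 < T)
    (hle : ∀ i ∈ P, T * G i ≤ G' i) :
    T * (∑ i ∈ P, A i / G i)⁻¹ ≤ (∑ i ∈ P, A i / G' i)⁻¹ ∧
    ((∑ i ∈ P, A i / G' i)⁻¹ = T * (∑ i ∈ P, A i / G i)⁻¹ → ∀ i ∈ P, G' i = T * G i) := by
  have hle' : ∀ i ∈ P, G i ≤ T⁻¹ * G' i := by
    intro i hi
    rw [inv_mul_eq_div, le_div_iff₀ hT, mul_comm]; exact hle i hi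
  obtain ⟨h1, h2⟩ := harm_upper hA hG' hG hne (inv_pos.2 hT) hle'
  constructor
  · rw [inv_mul_eq_div, le_div_iff₀ hT, mul_comm] at h1
    exact h1
  · intro heq i hi
    have h3 := h2 (by rw [heq, inv_mul_cancel_left₀ hT.ne']) i hi
    rw [h3, mul_inv_cancel_left₀ hT.ne']

end

section
variable {ι : Type*} [Fintype ι] [DecidableEq ι]

/-- the limit at `|P| = r + 1` is a harmonic mean -/
lemma E0_harm {x w : ι → ℝ} (hx : Function.Injective x) (hw : ∀ i, 0 < w i) {P : Finset ι} {r : ℕ}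
    (hP : P.card = r + 1) :
    E0 x w P (r + 1) / E0 x w P r = (∑ j ∈ P, (DD x (P.erase j) / DD x P) / w j)⁻¹ := by
  have h1 : E0 x w P (r + 1) = (∏ i ∈ P, w i) * DD x P := by rw [← hP]; exact E0_card x w P
  rw [h1, E0_pred x w P hP]
  have hpr : 0 < ∏ i ∈ P, w i := Finset.prod_pos fun i _ => hw i
  have hDD := DD_pos hx P
  have h2 : ∑ j ∈ P, (∏ i ∈ P.erase j, w i) * DD x (P.erase j)
      = ((∏ i ∈ P, w i) * DD x P) * ∑ j ∈ P, (DD x (P.erase j) / DD x P) / w j := by
    rw [Finset.mul_sum]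
    refine Finset.sum_congr rfl fun j hj => ?_
    have h3 := Finset.mul_prod_erase P w hj
    have h4 := (hw j).ne'
    rw [← h3]
    field_simp
  rw [h2]
  have h5 : (∏ i ∈ P, w i) * DD x P ≠ 0 := (mul_pos hpr hDD).ne'
  rw [div_mul_eq_div_div, div_self h5, one_div]

end

section
variable {f : ℝ[X]} {α β : ℝ} {c : Fin (f.natDegree - 1) → ℝ}

/-- At the special digit the limit step is a harmonic mean over live targets, with a common
target. -/
lemma T0_live (h : Hull f α β c) {D : Set ℝ} (hD : Closed f α β c D)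
    (hell : ell f c D < f.natDegree) :
    ∃ v₀ : ℝ, some v₀ ∈ Live f c D ∧ ∀ s ∈ Live f c D, ∃ (ι : Type) (_ : DecidableEq ι)
      (P : Finset ι) (y : ι → ℝ) (A : ι → ℝ), (∀ i ∈ P, 0 < A i) ∧
      (∀ i ∈ P, some (y i) ∈ Live f c D) ∧ (∃ i ∈ P, y i = v₀) ∧
      ∀ G : Option ℝ → ℝ, (∀ t ∈ Sp (ZS f c), 0 < G t) →
        T0 f c D (ell f c D) G s = (∑ i ∈ P, A i / G (some (y i)))⁻¹ := by
  have hinv := h.ZS_inv
  obtain ⟨j₀, hj₀⟩ := h.out
  have hlt := h.lt
  have hj₀D : f.eval (c j₀) ∉ D := by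
    intro h0
    rcases (mem_Z0.1 (hD.sub h0)).2 with h1 | h1 <;> rcases hj₀ with h2 | h2 <;> linarith
  have hell1 : 1 ≤ ell f c D := by
    rw [← card_Lset]
    exact Finset.card_pos.2 ⟨j₀, mem_Lset.2 hj₀D⟩
  refine ⟨f.eval (c j₀), mem_Live.2 ⟨hinv.val j₀, hj₀D⟩, ?_⟩
  -- generic computation
  have gen : ∀ {ι : Type} [Fintype ι] [DecidableEq ι] (x : ι → ℝ) (P : Finset ι) (r : ℕ),
      Function.Injective x → (∀ i, f.eval (x i) ∈ ZS f c) → P.card = r + 1 →
      (∀ i ∈ P, 0 < DD x (P.erase i) / DD x P * (|f.leadingCoeff| * |(chie x i).eval (x i)|)) ∧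
      ∀ G : Option ℝ → ℝ, (∀ t ∈ Sp (ZS f c), 0 < G t) →
      E0 x (om f x (fun y => G (some y))) P (r + 1) / E0 x (om f x (fun y => G (some y))) P r
        = (∑ i ∈ P, (DD x (P.erase i) / DD x P * (|f.leadingCoeff| * |(chie x i).eval (x i)|))
          / G (some (f.eval (x i))))⁻¹ := by
    intro ι _ _ x P r hx hv hP
    have hg : ∀ i, 0 < |f.leadingCoeff| * |(chie x i).eval (x i)| := fun i =>
      mul_pos (abs_pos.2 (lc_ne h.two_le)) (abs_pos.2 (chie_eval_ne hx i))
    constructor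
    · intro i _
      exact mul_pos (div_pos (DD_pos hx _) (DD_pos hx _)) (hg i)
    · intro G hG
      have hw : ∀ i, 0 < om f x (fun y => G (some y)) i := fun i =>
        om_pos h.two_le hx (fun i => hG _ (some_mem_Sp.2 (hv i))) i
      rw [E0_harm hx hw hP]
      congr 1
      refine Finset.sum_congr rfl fun i _ => ?_
      have h1 := hG _ (some_mem_Sp.2 (hv i))
      have h2 := (hg i).ne'
      unfold om
      field_simp
  intro s hs
  cases s with
  | none =>
    obtain ⟨g1, g2⟩ := gen c (Lset f c D) (ell f c D - 1) h.inj hinv.val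
      (by rw [card_Lset]; omega)
    refine ⟨Fin (f.natDegree - 1), inferInstance, Lset f c D, fun i => f.eval (c i), _, g1, ?_, ?_, ?_⟩
    · intro i hi
      exact mem_Live.2 ⟨hinv.val i, mem_Lset.1 hi⟩
    · exact ⟨j₀, mem_Lset.2 hj₀D, rfl⟩
    · intro G hG
      rw [← g2 G hG]
      have h1 : ell f c D - 1 + 1 = ell f c D := by omega
      rw [h1]
      unfold T0
      simp only
      rw [if_neg (by omega)]
  | some z =>
    obtain ⟨hz, hzD⟩ := mem_Live.1 hs
    have hval : ∀ i, f.eval (xz c z i) ∈ ZS f c := by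
      intro i
      cases i with
      | none => exact hinv.maps z hz
      | some j => exact hinv.val j
    obtain ⟨g1, g2⟩ := gen (xz c z) (Lz f c D z) (ell f c D) (h.xz_inj (hinv.out z hz)) hval
      (card_Lz_live (fun h0 => hzD ((hD.iff h hz).1 h0)))
    refine ⟨Option (Fin (f.natDegree - 1)), inferInstance, Lz f c D z,
      fun i => f.eval (xz c z i), _, g1, ?_, ?_, ?_⟩
    · intro i hi
      exact mem_Live.2 ⟨hval i, mem_Lz.1 hi⟩
    · exact ⟨some j₀, mem_Lz.2 hj₀D, rfl⟩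
    · intro G hG
      rw [← g2 G hG]
      rfl

/-- equality case of the contraction in the limit -/
lemma live_limit (h : Hull f α β c) {D : Set ℝ} (hD : Closed f α β c D)
    (hell : ell f c D < f.natDegree) {G G' : Option ℝ → ℝ}
    (hG : ∀ t ∈ Sp (ZS f c), 0 < G t) (hG' : ∀ t ∈ Sp (ZS f c), 0 < G' t) {b : ℝ}
    (hosc : OscLe (Live f c D) G G' b) {s t : Option ℝ} (hs : s ∈ Live f c D)
    (ht : t ∈ Live f c D)
    (hst : b ≤ RR (T0 f c D (ell f c D) G) (T0 f c D (ell f c D) G') s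
      - RR (T0 f c D (ell f c D) G) (T0 f c D (ell f c D) G') t) : b ≤ 0 := by
  obtain ⟨v₀, hv₀, hrep⟩ := T0_live h hD hell
  set A : Set ℝ := (RR G G') '' (Live f c D) with hA
  have hAne : A.Nonempty := ⟨_, none, none_mem_Live, rfl⟩
  have hAb : BddAbove A := ⟨RR G G' none + b, by
    rintro y ⟨s, hs, rfl⟩
    have := hosc s hs none none_mem_Live
    linarith⟩
  set m := sSup A with hm
  have h1 : ∀ s ∈ Live f c D, RR G G' s ≤ m := fun s hs => le_csSup hAb ⟨s, hs, rfl⟩
  have h2 : ∀ s ∈ Live f c D, m - b ≤ RR G G' s := by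
    intro s hs
    have : m ≤ RR G G' s + b := csSup_le hAne (by
      rintro y ⟨t, ht, rfl⟩
      linarith [hosc t ht s hs])
    linarith
  have hup : ∀ s ∈ Live f c D, G' s ≤ Real.exp m * G s := by
    intro s hs
    have e1 := h1 s hs
    unfold RR at e1
    have e2 := hG s (live_subset hs)
    have e3 := hG' s (live_subset hs)
    rw [Real.log_le_iff_le_exp (div_pos e3 e2), div_le_iff₀ e2] at e1
    exact e1
  have hlo : ∀ s ∈ Live f c D, Real.exp (m - b) * G s ≤ G' s := by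
    intro s hs
    have e1 := h2 s hs
    unfold RR at e1
    have e2 := hG s (live_subset hs)
    have e3 := hG' s (live_subset hs)
    rw [Real.le_log_iff_exp_le (div_pos e3 e2), le_div_iff₀ e2] at e1
    exact e1
  -- upper bound at `s` and lower bound at `t`
  obtain ⟨ι, _, P, y, B, hB, hy, ⟨i₀, hi₀, hyi₀⟩, hform⟩ := hrep s hs
  obtain ⟨ι', _, P', y', B', hB', hy', ⟨i₁, hi₁, hyi₁⟩, hform'⟩ := hrep t ht
  obtain ⟨u1, u2⟩ := harm_upper (P := P) (A := B) (G := fun i => G (some (y i)))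
    (G' := fun i => G' (some (y i))) hB (fun i hi => hG _ (live_subset (hy i hi)))
    (fun i hi => hG' _ (live_subset (hy i hi))) ⟨i₀, hi₀⟩ (Real.exp_pos m) (fun i hi => hup _ (hy i hi))
  obtain ⟨l1, l2⟩ := harm_lower (P := P') (A := B') (G := fun i => G (some (y' i)))
    (G' := fun i => G' (some (y' i))) hB' (fun i hi => hG _ (live_subset (hy' i hi)))
    (fun i hi => hG' _ (live_subset (hy' i hi))) ⟨i₁, hi₁⟩ (Real.exp_pos (m - b))
    (fun i hi => hlo _ (hy' i hi))
  have p1 : 0 < (∑ i ∈ P, B i / G (some (y i)))⁻¹ := inv_pos.2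
    (Finset.sum_pos (fun i hi => div_pos (hB i hi) (hG _ (live_subset (hy i hi)))) ⟨i₀, hi₀⟩)
  have p2 : 0 < (∑ i ∈ P, B i / G' (some (y i)))⁻¹ := inv_pos.2
    (Finset.sum_pos (fun i hi => div_pos (hB i hi) (hG' _ (live_subset (hy i hi)))) ⟨i₀, hi₀⟩)
  have p3 : 0 < (∑ i ∈ P', B' i / G (some (y' i)))⁻¹ := inv_pos.2
    (Finset.sum_pos (fun i hi => div_pos (hB' i hi) (hG _ (live_subset (hy' i hi)))) ⟨i₁, hi₁⟩)
  have p4 : 0 < (∑ i ∈ P', B' i / G' (some (y' i)))⁻¹ := inv_pos.2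
    (Finset.sum_pos (fun i hi => div_pos (hB' i hi) (hG' _ (live_subset (hy' i hi)))) ⟨i₁, hi₁⟩)
  have es : RR (T0 f c D (ell f c D) G) (T0 f c D (ell f c D) G') s
      = Real.log ((∑ i ∈ P, B i / G' (some (y i)))⁻¹ / (∑ i ∈ P, B i / G (some (y i)))⁻¹) := by
    unfold RR; rw [hform G hG, hform G' hG']
  have et : RR (T0 f c D (ell f c D) G) (T0 f c D (ell f c D) G') t
      = Real.log ((∑ i ∈ P', B' i / G' (some (y' i)))⁻¹ / (∑ i ∈ P', B' i / G (some (y' i)))⁻¹) := by
    unfold RR; rw [hform' G hG, hform' G' hG']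
  have k1 : RR (T0 f c D (ell f c D) G) (T0 f c D (ell f c D) G') s ≤ m := by
    rw [es, Real.log_le_iff_le_exp (div_pos p2 p1), div_le_iff₀ p1]
    exact u1
  have k2 : m - b ≤ RR (T0 f c D (ell f c D) G) (T0 f c D (ell f c D) G') t := by
    rw [et, Real.le_log_iff_exp_le (div_pos p4 p3), le_div_iff₀ p3]
    exact l1
  have k3 : RR (T0 f c D (ell f c D) G) (T0 f c D (ell f c D) G') s = m := by linarith
  have k4 : RR (T0 f c D (ell f c D) G) (T0 f c D (ell f c D) G') t = m - b := by linarith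
  have k5 : (∑ i ∈ P, B i / G' (some (y i)))⁻¹ = Real.exp m * (∑ i ∈ P, B i / G (some (y i)))⁻¹ := by
    rw [es] at k3
    rw [← k3, Real.exp_log (div_pos p2 p1), div_mul_cancel₀ _ p1.ne']
  have k6 : (∑ i ∈ P', B' i / G' (some (y' i)))⁻¹
      = Real.exp (m - b) * (∑ i ∈ P', B' i / G (some (y' i)))⁻¹ := by
    rw [et] at k4
    rw [← k4, Real.exp_log (div_pos p4 p3), div_mul_cancel₀ _ p3.ne']
  have k7 := u2 k5 i₀ hi₀
  have k8 := l2 k6 i₁ hi₁
  rw [hyi₀] at k7
  rw [hyi₁, k7] at k8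
  have k9 := hG _ (live_subset hv₀)
  have k10 : Real.exp m = Real.exp (m - b) := mul_right_cancel₀ k9.ne' k8
  have k11 := Real.exp_injective k10
  linarith

end

section
variable {f : ℝ[X]} {α β : ℝ} {c : Fin (f.natDegree - 1) → ℝ} {L M : ℝ[X] →ₗ[ℝ] ℝ}
  (hC : Core f α β c L M)
include hC

lemma Core.ell_lt {D : Set ℝ} : ell f c D < f.natDegree := by
  have h1 : (Lset f c D).card ≤ Fintype.card (Fin (f.natDegree - 1)) := Finset.card_le_univ _
  rw [card_Lset, Fintype.card_fin] at h1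
  have := hC.d2
  omega

/-- (D1) one step contraction of the live part in a degenerate run -/
theorem live_step (D : Set ℝ) (hD : Closed f α β c D) (c₁ C : ℝ) (hc₁ : 0 < c₁) (hC1 : 1 ≤ C) :
    ∀ η : ℝ, 0 < η → ∃ δ ε : ℝ, 0 < δ ∧ 0 < ε ∧ ∀ n n' : ℕ,
      DegLevel f α β c L D c₁ C ε n → DegLevel f α β c L D c₁ C ε n' →
      ∀ b : ℝ, OscLe (Live f c D) (Hn L β n) (Hn L β n') b →
        OscLe (Live f c D) (Hn L β (f.natDegree * n + ell f c D))
          (Hn L β (f.natDegree * n' + ell f c D)) (max (b - δ) η) := by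
  classical
  intro η hη
  by_contra hcon
  push Not at hcon
  choose n n' hn hn' b hb hnot using
    fun k : ℕ => hcon (1 / ((k : ℝ) + 1)) (1 / ((k : ℝ) + 1)) (by positivity) (by positivity)
  have h := hC.hull
  have hinv := h.ZS_inv
  have hell := hC.ell_lt (D := D)
  obtain ⟨e₀, he₀⟩ := hD.ne
  have he₀S := (mem_Z0.1 (hD.sub he₀)).1
  set U : Ultrafilter ℕ := hyperfilter ℕ with hU
  have hε : Tendsto (fun k : ℕ => 1 / ((k : ℝ) + 1)) U (𝓝 0) :=
    tendsto_one_div_add_atTop_nhds_zero_nat.mono_left Nat.hyperfilter_le_atTop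
  obtain ⟨G, hG⟩ := hC.exists_limEnv hD hc₁ hC1 U he₀ hε hn
  obtain ⟨G', hG'⟩ := hC.exists_limEnv hD hc₁ hC1 U he₀ hε hn'
  -- uniform bound of the log ratio on live states
  obtain ⟨C₁, hC₁, hbd⟩ := hC.live_bounds (D := D) (C := C) (ε := 0) hc₁
  have hmin : 0 < min c₁ 1 := lt_min hc₁ one_pos
  have hρ := rho_PosOn h hinv
  have hρpos : ∀ s ∈ Sp (ZS f c), 0 < rho α β s := by
    intro s hs
    cases s with
    | none => exact hρ.1
    | some z => exact hρ.2 z (some_mem_Sp.1 hs)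
  set B := Real.log (C₁ / min c₁ 1) with hBdef
  have hB0 : 0 ≤ B := by
    apply Real.log_nonneg
    rw [le_div_iff₀ hmin, one_mul]
    exact le_trans (min_le_right _ _) hC₁
  have hRRB : ∀ k, ∀ s ∈ Live f c D, |RR (NH L β (n k)) (NH L β (n' k)) s| ≤ B := by
    intro k s hs
    have e1 := hbd (n k) s hs (hn k).1
    have e2 := hbd (n' k) s hs (hn' k).1
    have p1 := hC.NH_pos' (n k) (live_subset hs)
    have p2 := hC.NH_pos' (n' k) (live_subset hs)
    have p3 := hρpos s (live_subset hs)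
    have key : ∀ x y : ℝ, 0 < x → 0 < y → min c₁ 1 * rho α β s ≤ x → y ≤ C₁ * rho α β s →
        Real.log (y / x) ≤ B := by
      intro x y hx hy h1 h2
      apply Real.log_le_log (div_pos hy hx)
      rw [div_le_div_iff₀ hx hmin]
      nlinarith [mul_le_mul_of_nonneg_left h1 (by linarith : (0:ℝ) ≤ C₁),
        mul_le_mul_of_nonneg_right h2 hmin.le]
    unfold RR
    rw [abs_le]
    constructor
    · have := key _ _ p2 p1 e2.1 e1.2
      rw [Real.log_div p2.ne' p1.ne']
      rw [Real.log_div p1.ne' p2.ne'] at this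
      linarith
    · exact key _ _ p1 p2 e1.1 e2.2
  set b' : ℕ → ℝ := fun k => min (b k) (2 * B) with hb'
  have hosc' : ∀ k, OscLe (Live f c D) (NH L β (n k)) (NH L β (n' k)) (b' k) := by
    intro k s hs t ht
    refine le_min ?_ ?_
    · exact (hC.OscLe_NH (n k) (n' k) hinv (live_subset (D := D)) (b k)).2 (hb k) s hs t ht
    · have h1 := abs_le.1 (hRRB k s hs)
      have h2 := abs_le.1 (hRRB k t ht)
      linarith [h1.2, h2.1]
  have hbB : ∀ k, b' k ∈ Set.Icc 0 (2 * B) := by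
    intro k
    refine ⟨?_, min_le_right _ _⟩
    have := hosc' k none none_mem_Live none none_mem_Live
    linarith
  obtain ⟨b₀, hb₀, hblim⟩ := ulim U hbB
  -- limit of the log ratios at the top level
  have hRlim0 : ∀ s ∈ Live f c D, Tendsto (fun k => RR (NH L β (n k)) (NH L β (n' k)) s) U
      (𝓝 (RR G G' s)) := by
    intro s hs
    unfold RR
    have p1 := hG.pos s (live_subset hs)
    have p2 := hG'.pos s (live_subset hs)
    exact ((hG'.live s hs).div (hG.live s hs) p1.ne').log (div_pos p2 p1).ne'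
  have hosc : OscLe (Live f c D) G G' b₀ := by
    intro s hs t ht
    refine le_of_tendsto_of_tendsto ((hRlim0 s hs).sub (hRlim0 t ht)) hblim ?_
    exact Filter.Eventually.of_forall fun k => hosc' k s hs t ht
  -- limit of the log ratios at the next level
  set σ := ell f c D with hσ
  set T := T0 f c D σ G with hT
  set T' := T0 f c D σ G' with hT'
  have hTp : ∀ s ∈ Sp (ZS f c), 0 < T s := T0_pos h hG hell
  have hTp' : ∀ s ∈ Sp (ZS f c), 0 < T' s := T0_pos h hG' hell
  have key : ∀ {n : ℕ → ℕ} {G : Option ℝ → ℝ}, LimEnv f α β c L D U e₀ n G → ∀ s ∈ Live f c D,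
      Tendsto (fun k => NH L β (f.natDegree * n k + σ) s) U
        (𝓝 (T0 f c D σ G s / T0 f c D σ G none)) := by
    intro n G hG s hs
    have h1 := hC.lim_TT hG he₀S hell s (live_subset hs)
    have h2 := hC.lim_TT hG he₀S hell none (none_mem_Sp _)
    have hp := T0_pos h hG hell none (none_mem_Sp _)
    refine (h1.div h2 hp.ne').congr fun k => ?_
    rw [Pi.div_apply, hC.NH_rec hinv (n k) σ hell s (live_subset hs), ex_live h hD hs,
      ex_live h hD none_mem_Live, pow_zero, div_one, div_one]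
  have hRlim : ∀ s ∈ Live f c D, Tendsto (fun k => RR (NH L β (f.natDegree * n k + σ))
      (NH L β (f.natDegree * n' k + σ)) s) U (𝓝 (RR T T' s - RR T T' none)) := by
    intro s hs
    have p1 := hTp s (live_subset hs)
    have p2 := hTp' s (live_subset hs)
    have p3 := hTp none (none_mem_Sp _)
    have p4 := hTp' none (none_mem_Sp _)
    have k1 := key hG s hs
    have k2 := key hG' s hs
    have k3 := (k2.div k1 (div_pos p1 p3).ne').log (div_pos (div_pos p2 p4) (div_pos p1 p3)).ne'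
    have e1 : Real.log (T' s / T' none / (T s / T none)) = RR T T' s - RR T T' none := by
      unfold RR
      rw [Real.log_div (div_pos p2 p4).ne' (div_pos p1 p3).ne',
        Real.log_div p2.ne' p4.ne', Real.log_div p1.ne' p3.ne', Real.log_div p2.ne' p1.ne',
        Real.log_div p4.ne' p3.ne']
      ring
    rw [← e1]
    exact k3
  -- witnesses
  have hwit : ∀ k, ∃ s t : Option ℝ, s ∈ Live f c D ∧ t ∈ Live f c D ∧
      max (b' k - 1 / ((k : ℝ) + 1)) η
        < RR (NH L β (f.natDegree * n k + σ)) (NH L β (f.natDegree * n' k + σ)) s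
        - RR (NH L β (f.natDegree * n k + σ)) (NH L β (f.natDegree * n' k + σ)) t := by
    intro k
    have h1 := hnot k
    rw [← hC.OscLe_NH _ _ hinv (live_subset (D := D))] at h1
    unfold OscLe at h1
    push Not at h1
    obtain ⟨s, hs, t, ht, hlt⟩ := h1
    refine ⟨s, t, hs, ht, lt_of_le_of_lt (max_le_max ?_ le_rfl) hlt⟩
    have : b' k ≤ b k := min_le_left _ _
    linarith
  choose s t hs ht hst using hwit
  obtain ⟨s', hs', hslim⟩ := state_lim_live h U hs hRlim
    (fun k => hC.RR_none _ _) (fun k z hz hd => hC.RR_bound _ _ (hinv.out z hz) hd)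
  obtain ⟨t', ht', htlim⟩ := state_lim_live h U ht hRlim
    (fun k => hC.RR_none _ _) (fun k z hz hd => hC.RR_bound _ _ (hinv.out z hz) hd)
  have hsub := hslim.sub htlim
  have hfin : η ≤ RR T T' s' - RR T T' none - (RR T T' t' - RR T T' none) :=
    ge_of_tendsto hsub (Filter.Eventually.of_forall fun k =>
      (le_trans (le_max_right _ _) (hst k).le))
  have hfin2 : b₀ - 0 ≤ RR T T' s' - RR T T' none - (RR T T' t' - RR T T' none) :=
    le_of_tendsto_of_tendsto (hblim.sub hε) hsub (Filter.Eventually.of_forall fun k =>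
      (le_trans (le_max_left _ _) (hst k).le))
  have hfin3 : b₀ ≤ RR T T' s' - RR T T' t' := by linarith
  have hb0 := live_limit h hD hell hG.pos hG'.pos hosc hs' ht' hfin3
  -- with `b₀ = 0` the difference is at most `b₀`
  have hfin4 : RR T T' s' - RR T T' t' ≤ b₀ := by
    by_contra hlt2
    push Not at hlt2
    have h3 := live_limit h hD hell hG.pos hG'.pos (b := RR T T' s' - RR T T' t')
      (fun s hs t ht => (hosc s hs t ht).trans hlt2.le) hs' ht' le_rfl
    linarith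
  linarith

end

end Pool.Agent.Work.MP_e056c9_an
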