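import Pool.Agent.Work.MP_e056c9_an.Iter

/-! # Dichotomy for runs of a fixed digit, and the run lemma. -/

set_option autoImplicit false
set_option linter.unusedSectionVars false
set_option linter.unusedVariables false
open Polynomial Filter Topology

namespace Pool.Agent.Work.MP_e056c9_an

/-- a (nonempty) invariant set of end points -/
structure Closed (f : ℝ[X]) (α β : ℝ) (c : Fin (f.natDegree - 1) → ℝ) (D : Set ℝ) : Prop where
  sub : D ⊆ Z0 f α β c
  ne : D.Nonempty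
  inv : ∀ e ∈ Z0 f α β c, (f.eval e ∈ D ↔ e ∈ D)

/-- number of critical points with live value -/
noncomputable def ell (f : ℝ[X]) (c : Fin (f.natDegree - 1) → ℝ) (D : Set ℝ) : ℕ :=
  Nat.card {j : Fin (f.natDegree - 1) // f.eval (c j) ∉ D}

/-- live states -/
def Live (f : ℝ[X]) (c : Fin (f.natDegree - 1) → ℝ) (D : Set ℝ) : Set (Option ℝ) :=
  Sp (ZS f c \ D)

/-- hypotheses on a level in a degenerate run -/
def DegLevel (f : ℝ[X]) (α β : ℝ) (c : Fin (f.natDegree - 1) → ℝ) (L : ℝ[X] →ₗ[ℝ] ℝ) (D : Set ℝ)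
    (c₁ C ε : ℝ) (n : ℕ) : Prop :=
  (∀ e ∈ Z0 f α β c, e ∉ D → c₁ ≤ uu L β n e) ∧
  (∀ e ∈ D, ∀ e' ∈ D, uu L β n e ≤ C * uu L β n e') ∧ (∀ e ∈ D, uu L β n e ≤ ε)

/-- the output of the degenerate block -/
structure DegHyp (f : ℝ[X]) (α β : ℝ) (c : Fin (f.natDegree - 1) → ℝ) (L : ℝ[X] →ₗ[ℝ] ℝ) : Prop where
  reset : ∃ c₀ : ℝ, 0 < c₀ ∧ ∀ m r r' : ℕ, r < f.natDegree → r' < f.natDegree → r ≠ r' →
    ∀ e ∈ Z0 f α β c, c₀ ≤ uu L β (f.natDegree * (f.natDegree * m + r) + r') e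
  struct : ∃ ε₁ c₁ C : ℝ, 0 < ε₁ ∧ 0 < c₁ ∧ 1 ≤ C ∧ ∀ m r r' : ℕ, r < f.natDegree →
    r' < f.natDegree → ∀ n' n : ℕ, n' = f.natDegree * m + r → n = f.natDegree * n' + r' →
    (∃ e ∈ Z0 f α β c, uu L β n e ≤ ε₁) →
    ∃ D : Set ℝ, Closed f α β c D ∧ r' = ell f c D ∧
      (∀ e ∈ Z0 f α β c, e ∉ D → c₁ ≤ uu L β n e ∧ c₁ ≤ uu L β n' e) ∧
      (∀ e ∈ D, ∀ e' ∈ D, uu L β n e ≤ C * uu L β n e') ∧
      (∀ e ∈ D, ∀ e' ∈ D, uu L β n' e ≤ C * uu L β n' e')
  live : ∀ D : Set ℝ, Closed f α β c D → ∀ c₁ C : ℝ, 0 < c₁ → 1 ≤ C →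
    ∀ η : ℝ, 0 < η → ∃ δ ε : ℝ, 0 < δ ∧ 0 < ε ∧ ∀ n n' : ℕ,
      DegLevel f α β c L D c₁ C ε n → DegLevel f α β c L D c₁ C ε n' →
      ∀ b : ℝ, OscLe (Live f c D) (Hn L β n) (Hn L β n') b →
        OscLe (Live f c D) (Hn L β (f.natDegree * n + ell f c D))
          (Hn L β (f.natDegree * n' + ell f c D)) (max (b - δ) η)
  dead : ∀ D : Set ℝ, Closed f α β c D → ∀ c₁ C : ℝ, 0 < c₁ → 1 ≤ C →
    ∀ η : ℝ, 0 < η → ∃ δ ε : ℝ, 0 < δ ∧ 0 < ε ∧ ∀ n n' : ℕ,
      DegLevel f α β c L D c₁ C ε n → DegLevel f α β c L D c₁ C ε n' →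
      ∀ b : ℝ, OscLe (some '' D) (Hn L β n) (Hn L β n') b →
        OscLe (some '' D) (Hn L β (f.natDegree * n + ell f c D))
          (Hn L β (f.natDegree * n' + ell f c D)) (max (b - δ) η)
  change : ∀ D : Set ℝ, Closed f α β c D → ∀ c₁ C : ℝ, 0 < c₁ → 1 ≤ C →
    ∀ η : ℝ, 0 < η → ∃ ε : ℝ, 0 < ε ∧ ∀ n n' : ℕ,
      DegLevel f α β c L D c₁ C ε n → DegLevel f α β c L D c₁ C ε n' →
      OscLe (Live f c D) (Hn L β n) (Hn L β n') ε →
      OscLe (some '' D) (Hn L β n) (Hn L β n') ε →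
      ∀ r : ℕ, r < f.natDegree → r ≠ ell f c D →
        OscLe (Sp (ZS f c)) (Hn L β (f.natDegree * n + r)) (Hn L β (f.natDegree * n' + r)) η

section
variable {f : ℝ[X]} {α β : ℝ} {c : Fin (f.natDegree - 1) → ℝ} {L M : ℝ[X] →ₗ[ℝ] ℝ}
  (hC : Core f α β c L M)
include hC

/-- iterating a one step contraction along a run -/
lemma osc_iter {A : Set (Option ℝ)} {σ : ℕ} {G : ℕ → Prop} {B δ η : ℝ}
    (hδ : 0 < δ) (hB : ∀ n n', G n → G n' → OscLe A (Hn L β n) (Hn L β n') B)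
    (hstep : ∀ n n', G n → G n' → ∀ b, OscLe A (Hn L β n) (Hn L β n') b →
      OscLe A (Hn L β (f.natDegree * n + σ)) (Hn L β (f.natDegree * n' + σ)) (max (b - δ) η)) :
    ∃ K : ℕ, ∀ n n', (∀ i ≤ K, G (run f.natDegree σ i n)) → (∀ i ≤ K, G (run f.natDegree σ i n')) →
      OscLe A (Hn L β (run f.natDegree σ K n)) (Hn L β (run f.natDegree σ K n')) η := by
  obtain ⟨J, hJ⟩ := exists_nat_ge ((B - η) / δ)
  refine ⟨J, fun n n' h h' => ?_⟩
  have key : ∀ j ≤ J, OscLe A (Hn L β (run f.natDegree σ j n)) (Hn L β (run f.natDegree σ j n'))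
      (max (B - j * δ) η) := by
    intro j
    induction j with
    | zero =>
      intro _
      refine (hB _ _ (h 0 (Nat.zero_le _)) (h' 0 (Nat.zero_le _))).mono ?_
      simp
    | succ j ih =>
      intro hj
      have h2 := hstep _ _ (h j (by omega)) (h' j (by omega)) _ (ih (by omega))
      rw [← run_succ, ← run_succ] at h2
      refine h2.mono ?_
      push_cast
      apply max_le _ (le_max_right _ _)
      rcases le_total (B - j * δ) η with h3 | h3
      · rw [max_eq_right h3]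
        exact (by linarith : η - δ ≤ η).trans (le_max_right _ _)
      · rw [max_eq_left h3]
        refine le_trans ?_ (le_max_left _ _)
        linarith
  refine (key J le_rfl).mono ?_
  rw [div_le_iff₀ hδ] at hJ
  apply max_le _ le_rfl
  linarith

/-- base constants -/
lemma Core.exists_base (hD : DegHyp f α β c L) : ∃ c₀ : ℝ, 0 < c₀ ∧ c₀ ≤ 1 ∧
    (∀ m r r' : ℕ, r < f.natDegree → r' < f.natDegree → r ≠ r' →
      Tge f α β c L c₀ (f.natDegree * (f.natDegree * m + r) + r')) ∧ Tge f α β c L c₀ 0 := by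
  classical
  obtain ⟨c₀, hc₀, hr⟩ := hD.reset
  set g : ℝ → ℝ := fun e => if e ∈ Z0 f α β c then uu L β 0 e else 1 with hg
  have hgpos : ∀ e, 0 < g e := by
    intro e
    rw [hg]
    simp only
    split_ifs with h0
    · exact hC.uu_pos 0 (hC.hull.ZS_inv.out e h0.1)
    · exact one_pos
  refine ⟨min (min c₀ 1) (min (g α) (g β)), ?_, ?_, ?_, ?_⟩
  · exact lt_min (lt_min hc₀ one_pos) (lt_min (hgpos _) (hgpos _))
  · exact (min_le_left _ _).trans (min_le_right _ _)
  · intro m r r' h1 h2 h3 e he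
    exact ((min_le_left _ _).trans (min_le_left _ _)).trans (hr m r r' h1 h2 h3 e he)
  · intro e he
    have h1 : min (min c₀ 1) (min (g α) (g β)) ≤ g e := by
      rcases he.2 with h2 | h2
      · rw [h2]; exact (min_le_right _ _).trans (min_le_left _ _)
      · have : e = β := h2
        rw [this]; exact (min_le_right _ _).trans (min_le_right _ _)
    rw [hg] at h1
    simp only [if_pos he] at h1
    exact h1

/-- the degenerate case: `t(y_j) → 0` -/
lemma Core.tendsto_of_not_bdd {σ : ℕ} (hσ : σ < f.natDegree) {y : ℕ} {c₀ : ℝ} (hc₀ : 0 < c₀)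
    (hc₁ : c₀ ≤ 1) (hy : Tge f α β c L c₀ y)
    (hnot : ∀ t : ℝ, 0 < t → ∃ j, ¬ Tge f α β c L t (run f.natDegree σ j y)) :
    ∀ t : ℝ, 0 < t → ∃ J : ℕ, ∀ j ≥ J, ¬ Tge f α β c L t (run f.natDegree σ j y) := by
  classical
  obtain ⟨κ, hκ, hκ1, hK⟩ := hC.exists_kappa
  obtain ⟨C₁, hC₁, hbd⟩ := hC.osc_bdd
  by_contra hcon
  push Not at hcon
  obtain ⟨t', ht'0, hinf'⟩ := hcon
  set t := min t' 1 with ht
  have ht0 : 0 < t := lt_min ht'0 one_pos
  have ht1 : t ≤ 1 := min_le_right _ _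
  have hinf : ∀ J : ℕ, ∃ j ≥ J, Tge f α β c L t (run f.natDegree σ j y) := by
    intro J
    obtain ⟨j, hj, h⟩ := hinf' J
    exact ⟨j, hj, h.mono (min_le_left _ _)⟩
  set S : ℕ → ℕ := fun j => run f.natDegree σ j y with hS
  have hdown : ∀ i k (t₀ : ℝ), 0 < t₀ → t₀ ≤ 1 → Tge f α β c L t₀ (S i) →
      Tge f α β c L (κ ^ k * t₀) (S (i + k)) := by
    intro i k t₀ h1 h2 h3
    have := hC.Tge_app hκ hκ1 hK (S i) (fun _ => σ) (fun _ => hσ) h1 h2 h3 k
    have e : S (i + k) = run f.natDegree σ k (S i) := run_add _ _ _ _ _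
    rw [e]; exact this
  have hmono : ∀ i i' k (b : ℝ), OscLe (Sp (ZS f c)) (Hn L β (S i)) (Hn L β (S i')) b →
      OscLe (Sp (ZS f c)) (Hn L β (S (i + k))) (Hn L β (S (i' + k))) b := by
    intro i i' k b h1
    have := hC.osc_app (S i) (S i') (fun _ => σ) (fun _ => hσ) k h1
    have e : S (i + k) = run f.natDegree σ k (S i) := run_add _ _ _ _ _
    have e' : S (i' + k) = run f.natDegree σ k (S i') := run_add _ _ _ _ _
    rw [e, e']; exact this
  -- successive oscillations tend to zero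
  have hsmall : ∀ η : ℝ, 0 < η → ∃ J, ∀ j ≥ J,
      OscLe (Sp (ZS f c)) (Hn L β (S j)) (Hn L β (S (j + 1))) η := by
    intro η hη
    have hκt : 0 < κ * t := by positivity
    have hκt1 : κ * t ≤ 1 := by nlinarith
    obtain ⟨k₀, δ, hk₀, hδ, hN⟩ := hC.nstep_pos (κ * t) η hκt hκt1 hη
    set B := 2 * Real.log (C₁ / (κ * t)) with hB
    have hboth : ∀ j, Tge f α β c L t (S j) → Tge f α β c L (κ * t) (S j) ∧
        Tge f α β c L (κ * t) (S (j + 1)) := by
      intro j hj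
      refine ⟨hj.mono (by nlinarith), ?_⟩
      have := hdown j 1 t ht0 ht1 hj
      rwa [pow_one] at this
    have key : ∀ i : ℕ, ∃ j, OscLe (Sp (ZS f c)) (Hn L β (S j)) (Hn L β (S (j + 1)))
        (max (B - i * δ) η) := by
      intro i
      induction i with
      | zero =>
        obtain ⟨j, -, hj⟩ := hinf 0
        obtain ⟨h1, h2⟩ := hboth j hj
        refine ⟨j, (hbd _ hκt hκt1 _ _ h1 h2).mono ?_⟩
        simp [hB]
      | succ i ih =>
        obtain ⟨j, hj⟩ := ih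
        obtain ⟨j', hjj', hj't⟩ := hinf j
        obtain ⟨h1, h2⟩ := hboth j' hj't
        have h3 := hmono j (j + 1) (j' - j) _ hj
        have e1 : j + (j' - j) = j' := by omega
        have e2 : j + 1 + (j' - j) = j' + 1 := by omega
        rw [e1, e2] at h3
        have h4 := hN _ _ h1 h2 (fun _ => σ) (fun _ => hσ) _ (le_max_right _ _) h3
        have e3 : app f.natDegree (fun _ => σ) k₀ (S j') = S (j' + k₀) := (run_add _ _ _ _ _).symm
        have e4 : app f.natDegree (fun _ => σ) k₀ (S (j' + 1)) = S (j' + k₀ + 1) := by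
          have : S (j' + k₀ + 1) = S (j' + 1 + k₀) := by congr 1; omega
          rw [this]; exact (run_add _ _ _ _ _).symm
        rw [e3, e4] at h4
        refine ⟨j' + k₀, h4.mono ?_⟩
        push_cast
        rcases le_total (B - i * δ) η with h5 | h5
        · rw [max_eq_right h5]
          exact (by linarith : η - δ ≤ η).trans (le_max_right _ _)
        · rw [max_eq_left h5]
          refine le_trans ?_ (le_max_left _ _)
          linarith
    obtain ⟨I, hI⟩ := exists_nat_ge ((B - η) / δ)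
    obtain ⟨J, hJ⟩ := key I
    refine ⟨J, fun j hj => ?_⟩
    have h3 := hmono J (J + 1) (j - J) _ hJ
    have e1 : J + (j - J) = j := by omega
    have e2 : J + 1 + (j - J) = j + 1 := by omega
    rw [e1, e2] at h3
    refine h3.mono ?_
    rw [div_le_iff₀ hδ] at hI
    exact max_le (by linarith) le_rfl
  -- an invariant ball
  have hexp : 0 < Real.exp (-1) * t := by positivity
  have hexp1 : Real.exp (-1) ≤ 1 := by rw [Real.exp_le_one_iff]; norm_num
  have hexpt : Real.exp (-1) * t ≤ t := by nlinarith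
  obtain ⟨k₀, δ, hk₀, hδ, hN⟩ := hC.nstep_pos (Real.exp (-1) * t) 1 hexp (by linarith) one_pos
  have hk₀' : (0 : ℝ) < k₀ := by exact_mod_cast hk₀
  obtain ⟨J, hJ⟩ := hsmall (δ / k₀) (div_pos hδ hk₀')
  obtain ⟨j₀, hj₀, hj₀t⟩ := hinf J
  have hnear : ∀ k : ℕ, 1 ≤ k → OscLe (Sp (ZS f c)) (Hn L β (S j₀)) (Hn L β (S (j₀ + k)))
      (k * (δ / k₀)) := by
    intro k hk
    induction k, hk using Nat.le_induction with
    | base => simpa using hJ j₀ hj₀
    | succ k hk ih =>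
      have h1 := hJ (j₀ + k) (by omega)
      have h2 := hC.osc_trans (le_refl _) ih h1
      refine h2.mono ?_
      push_cast; linarith
  have hnear' := hnear k₀ hk₀
  have ek : (k₀ : ℝ) * (δ / k₀) = δ := by field_simp
  rw [ek] at hnear'
  have hball : ∀ i : ℕ, OscLe (Sp (ZS f c)) (Hn L β (S j₀)) (Hn L β (S (j₀ + i * k₀))) 1 := by
    intro i
    induction i with
    | zero =>
      rw [Nat.zero_mul, Nat.add_zero]
      intro s _ s' _
      have : ∀ s ∈ Sp (ZS f c), RR (Hn L β (S j₀)) (Hn L β (S j₀)) s = 0 := by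
        intro s hs
        unfold RR
        rw [div_self (hC.Hn_pos' _ hs).ne', Real.log_one]
      rw [this s (by assumption), this s' (by assumption)]
      norm_num
    | succ i ih =>
      have h1 := hC.Tge_of_osc ih hj₀t
      have h2 := hN _ _ (hj₀t.mono hexpt) h1 (fun _ => σ) (fun _ => hσ) 1 le_rfl ih
      have e3 : app f.natDegree (fun _ => σ) k₀ (S j₀) = S (j₀ + k₀) := (run_add _ _ _ _ _).symm
      have e4 : app f.natDegree (fun _ => σ) k₀ (S (j₀ + i * k₀)) = S (j₀ + (i + 1) * k₀) := by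
        have : S (j₀ + (i + 1) * k₀) = S (j₀ + i * k₀ + k₀) := by congr 1; ring
        rw [this]; exact (run_add _ _ _ _ _).symm
      rw [e3, e4] at h2
      have h3 := hC.osc_trans (le_refl _) hnear' h2
      exact h3.mono (by linarith)
  -- lower bound everywhere
  have hlast : ∃ t₀ : ℝ, 0 < t₀ ∧ ∀ j, Tge f α β c L t₀ (S j) := by
    refine ⟨min (κ ^ j₀ * c₀) (κ ^ k₀ * (Real.exp (-1) * t)), lt_min (by positivity) (by positivity), ?_⟩
    intro j
    rcases le_or_gt j j₀ with hj | hj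
    · have h1 := hdown 0 j c₀ hc₀ hc₁ hy
      rw [Nat.zero_add] at h1
      refine h1.mono ((min_le_left _ _).trans ?_)
      have : κ ^ j₀ ≤ κ ^ j := pow_le_pow_of_le_one hκ.le hκ1 hj
      nlinarith
    · set i := (j - j₀) / k₀ with hi
      set l := (j - j₀) % k₀ with hl
      have hdm : k₀ * i + l = j - j₀ := Nat.div_add_mod _ _
      have hlk : l < k₀ := Nat.mod_lt _ (by omega)
      have e : j = j₀ + i * k₀ + l := by rw [mul_comm] at hdm; omega
      have h1 := hC.Tge_of_osc (hball i) hj₀t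
      have h2 := hdown _ l _ hexp (by linarith) h1
      rw [← e] at h2
      refine h2.mono ((min_le_right _ _).trans ?_)
      have : κ ^ k₀ ≤ κ ^ l := pow_le_pow_of_le_one hκ.le hκ1 hlk.le
      nlinarith
  obtain ⟨t₀, ht₀, hall⟩ := hlast
  obtain ⟨j, hj⟩ := hnot t₀ ht₀
  exact hj (hall j)

end

end Pool.Agent.Work.MP_e056c9_an
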