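import Pool.Agent.Work.MP_e056c9_an.C1
import Pool.Agent.Work.MP_e056c9_an.Run

/-! # Definitions for the degenerate block -/

set_option autoImplicit false
set_option linter.unusedSectionVars false
set_option linter.unusedVariables false
open Polynomial

namespace Pool.Agent.Work.MP_e056c9_an

/-- the set of live critical points -/
noncomputable def Lset (f : ℝ[X]) (c : Fin (f.natDegree - 1) → ℝ) (D : Set ℝ) :
    Finset (Fin (f.natDegree - 1)) := by
  classical exact Finset.univ.filter (fun j => f.eval (c j) ∉ D)

lemma mem_Lset {f : ℝ[X]} {c : Fin (f.natDegree - 1) → ℝ} {D : Set ℝ}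
    {j : Fin (f.natDegree - 1)} : j ∈ Lset f c D ↔ f.eval (c j) ∉ D := by
  unfold Lset
  simp

lemma card_Lset {f : ℝ[X]} {c : Fin (f.natDegree - 1) → ℝ} {D : Set ℝ} :
    (Lset f c D).card = ell f c D := by
  classical
  unfold ell
  rw [Nat.card_eq_fintype_card, Fintype.card_subtype]
  congr 1

end Pool.Agent.Work.MP_e056c9_an
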