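import Pool.Agent.Work.MP_e056c9_an.Run

/-! # Dead step, part 1: two general lemmas. -/

set_option autoImplicit false
set_option linter.unusedSectionVars false
open Polynomial

namespace Pool.Agent.Work.MP_e056c9_an

section
variable {ι : Type*} [Fintype ι] [DecidableEq ι]

lemma nodal_upper (x w : ι → ℝ) (hw : ∀ i, 0 ≤ w i) (T : Finset ι) :
    hh (disc x w) T.card ≤ disc x w (Lagrange.nodal T x ^ 2) :=
  hh_le (disc_NN x w hw) (Lagrange.nodal_monic) (Lagrange.natDegree_nodal)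

/-- lower bound in the degenerate situation: `T` are the heavy nodes -/
lemma nodal_lower {x : ι → ℝ} (hx : Function.Injective x) (T : Finset ι) {κ : ι → ℝ}
    (hκ : ∀ i, 0 < κ i) {m₀ : ℝ} (hm₀ : 0 < m₀) :
    ∃ K₃ : ℝ, 0 < K₃ ∧ ∀ (v : ι → ℝ) (ε : ℝ), 0 < ε → (∀ i, 0 < v i) → (∀ i ∈ T, m₀ ≤ v i) →
      (∀ i, i ∉ T → v i ≤ ε) → K₃ * Real.sqrt ε ≤ 1 →
      (1 - K₃ * Real.sqrt ε) ^ 2 * disc x (fun i => v i * κ i) (Lagrange.nodal T x ^ 2)
        ≤ hh (disc x (fun i => v i * κ i)) T.card := by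
  classical
  set ps := Lagrange.nodal T x with hps
  set K₁ := ∑ i, κ i * ps.eval (x i) ^ 2 with hK₁
  set K₂ := ∑ j, K₁ / (κ j * m₀) with hK₂
  set Λ : ι → ℝ := fun i => ∑ j ∈ T, |(Lagrange.basis T x j).eval (x i)| with hΛ
  have hK₁0 : 0 ≤ K₁ := Finset.sum_nonneg fun i _ => mul_nonneg (hκ i).le (sq_nonneg _)
  have hK₂0 : 0 ≤ K₂ := Finset.sum_nonneg fun j _ => div_nonneg hK₁0 (mul_pos (hκ j) hm₀).le
  have hΛ0 : ∀ i, 0 ≤ Λ i := fun i => Finset.sum_nonneg fun j _ => abs_nonneg _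
  set K₃ := Real.sqrt K₂ * (∑ i, Λ i / |ps.eval (x i)|) + 1 with hK₃
  have hsum0 : 0 ≤ ∑ i, Λ i / |ps.eval (x i)| :=
    Finset.sum_nonneg fun i _ => div_nonneg (hΛ0 i) (abs_nonneg _)
  have hK₃0 : 0 < K₃ := by
    have := mul_nonneg (Real.sqrt_nonneg K₂) hsum0
    rw [hK₃]; linarith
  refine ⟨K₃, hK₃0, ?_⟩
  intro v ε hε hv hvT hvN hle
  set w : ι → ℝ := fun i => v i * κ i with hw
  have hw0 : ∀ i, 0 < w i := fun i => mul_pos (hv i) (hκ i)
  have hNN := disc_NN x w (fun i => (hw0 i).le)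
  have hcard : T.card ≤ Fintype.card ι := Finset.card_le_univ T
  obtain ⟨p, hp⟩ := exists_op ((disc_PosTo x w hx hw0).mono hcard)
  rw [hp.hh_eq hNN]
  have hpsm : ps.Monic := Lagrange.nodal_monic
  have hpsd : ps.natDegree = T.card := Lagrange.natDegree_nodal
  have hps0 : ∀ i ∈ T, ps.eval (x i) = 0 := fun i hi => Lagrange.eval_nodal_at_node hi
  have hpsne : ∀ i, i ∉ T → ps.eval (x i) ≠ 0 := by
    intro i hi
    apply Lagrange.eval_nodal_not_at_node
    intro j hj h
    rw [hx h] at hi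
    exact hi hj
  -- S ≤ K₁ ε
  have hS : disc x w (ps ^ 2) ≤ K₁ * ε := by
    rw [disc_sq, hK₁, Finset.sum_mul]
    refine Finset.sum_le_sum fun i _ => ?_
    by_cases hi : i ∈ T
    · rw [hps0 i hi]; simp
    · have h1 := hvN i hi
      have h2 : 0 ≤ κ i * ps.eval (x i) ^ 2 := mul_nonneg (hκ i).le (sq_nonneg _)
      calc w i * ps.eval (x i) ^ 2 = v i * (κ i * ps.eval (x i) ^ 2) := by rw [hw]; ring
        _ ≤ ε * (κ i * ps.eval (x i) ^ 2) := mul_le_mul_of_nonneg_right h1 h2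
        _ = _ := by ring
  have hT : disc x w (p ^ 2) ≤ K₁ * ε := by
    rw [← hp.hh_eq hNN]
    exact (nodal_upper x w (fun i => (hw0 i).le) T).trans hS
  -- values at heavy nodes
  have hval : ∀ j ∈ T, |p.eval (x j)| ≤ Real.sqrt K₂ * Real.sqrt ε := by
    intro j hj
    have h1 : w j * p.eval (x j) ^ 2 ≤ disc x w (p ^ 2) := by
      rw [disc_sq]
      exact Finset.single_le_sum (f := fun i => w i * p.eval (x i) ^ 2)
        (fun i _ => mul_nonneg (hw0 i).le (sq_nonneg _)) (Finset.mem_univ j)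
    have h2 : κ j * m₀ ≤ w j := by
      rw [hw]
      simp only
      rw [mul_comm (v j)]
      exact mul_le_mul_of_nonneg_left (hvT j hj) (hκ j).le
    have h3 : κ j * m₀ * p.eval (x j) ^ 2 ≤ K₁ * ε :=
      (mul_le_mul_of_nonneg_right h2 (sq_nonneg _)).trans (h1.trans hT)
    have h4 : p.eval (x j) ^ 2 ≤ K₂ * ε := by
      have h5 : K₁ / (κ j * m₀) ≤ K₂ :=
        Finset.single_le_sum (f := fun j => K₁ / (κ j * m₀))
          (fun i _ => div_nonneg hK₁0 (mul_pos (hκ i) hm₀).le) (Finset.mem_univ j)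
      have h6 : p.eval (x j) ^ 2 ≤ K₁ / (κ j * m₀) * ε := by
        rw [div_mul_eq_mul_div, le_div_iff₀ (mul_pos (hκ j) hm₀)]
        linarith
      exact h6.trans (mul_le_mul_of_nonneg_right h5 hε.le)
    rw [← Real.sqrt_mul hK₂0]
    exact Real.abs_le_sqrt h4
  -- q = p - ps
  have hqd : (p - ps).degree < T.card := by
    have h0 : p.degree = (T.card : WithBot ℕ) := by
      rw [degree_eq_natDegree hp.monic.ne_zero, hp.deg]
    have h1 : ps.degree = (T.card : WithBot ℕ) := by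
      rw [degree_eq_natDegree hpsm.ne_zero, hpsd]
    rw [← h0]
    exact degree_sub_lt_left (h0.trans h1.symm) hp.monic.ne_zero
      (by rw [hp.monic.leadingCoeff, hpsm.leadingCoeff])
  have hq := Lagrange.eq_interpolate (s := T) (v := x) hx.injOn hqd
  have hqe : ∀ i, |(p - ps).eval (x i)| ≤ Real.sqrt K₂ * Real.sqrt ε * Λ i := by
    intro i
    rw [hq, Lagrange.interpolate_apply, eval_finsetSum, hΛ]
    simp only
    rw [Finset.mul_sum]
    refine (Finset.abs_sum_le_sum_abs _ _).trans (Finset.sum_le_sum fun j hj => ?_)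
    rw [eval_mul, eval_C, abs_mul]
    have : (p - ps).eval (x j) = p.eval (x j) := by rw [eval_sub, hps0 j hj, sub_zero]
    rw [this]
    exact mul_le_mul_of_nonneg_right (hval j hj) (abs_nonneg _)
  -- conclusion
  set θ := K₃ * Real.sqrt ε with hθ
  rw [disc_sq, disc_sq, Finset.mul_sum]
  refine Finset.sum_le_sum fun i _ => ?_
  by_cases hi : i ∈ T
  · rw [hps0 i hi]
    simp only [ne_eq, OfNat.ofNat_ne_zero, not_false_eq_true, zero_pow, mul_zero]
    exact mul_nonneg (hw0 i).le (sq_nonneg _)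
  · have hne := abs_pos.2 (hpsne i hi)
    have h1 : Real.sqrt K₂ * Real.sqrt ε * Λ i ≤ θ * |ps.eval (x i)| := by
      have h2 : Λ i / |ps.eval (x i)| ≤ ∑ i, Λ i / |ps.eval (x i)| :=
        Finset.single_le_sum (f := fun i => Λ i / |ps.eval (x i)|)
          (fun i _ => div_nonneg (hΛ0 i) (abs_nonneg _)) (Finset.mem_univ i)
      have h3 : Real.sqrt K₂ * (Λ i / |ps.eval (x i)|) ≤ K₃ := by
        rw [hK₃]
        have := mul_le_mul_of_nonneg_left h2 (Real.sqrt_nonneg K₂)
        linarith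
      have h4 : Real.sqrt K₂ * Real.sqrt ε * Λ i
          = (Real.sqrt K₂ * (Λ i / |ps.eval (x i)|)) * (Real.sqrt ε * |ps.eval (x i)|) := by
        field_simp
      rw [h4, hθ]
      calc (Real.sqrt K₂ * (Λ i / |ps.eval (x i)|)) * (Real.sqrt ε * |ps.eval (x i)|)
          ≤ K₃ * (Real.sqrt ε * |ps.eval (x i)|) :=
            mul_le_mul_of_nonneg_right h3 (mul_nonneg (Real.sqrt_nonneg _) (abs_nonneg _))
        _ = _ := by ring
    have h2 : (1 - θ) * |ps.eval (x i)| ≤ |p.eval (x i)| := by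
      have h3 : |ps.eval (x i)| - |(p - ps).eval (x i)| ≤ |p.eval (x i)| := by
        have h4 : |ps.eval (x i)| ≤ |p.eval (x i)| + |(p - ps).eval (x i)| := by
          have : ps.eval (x i) = p.eval (x i) - (p - ps).eval (x i) := by
            rw [eval_sub]; ring
          rw [this]
          exact abs_sub _ _
        linarith
      have h5 := hqe i
      linarith
    have h3 : 0 ≤ (1 - θ) * |ps.eval (x i)| := mul_nonneg (by linarith) (abs_nonneg _)
    have h4 := pow_le_pow_left₀ h3 h2 2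
    rw [mul_pow, sq_abs, sq_abs] at h4
    calc (1 - θ) ^ 2 * (w i * ps.eval (x i) ^ 2)
        = w i * ((1 - θ) ^ 2 * ps.eval (x i) ^ 2) := by ring
      _ ≤ w i * p.eval (x i) ^ 2 := mul_le_mul_of_nonneg_left h4 (hw0 i).le

end

/-- contraction for two by two positive forms with a positive column -/
lemma contr_two {P Q P' Q' x z x' z' C δ₀ E : ℝ} (hP : 0 < P) (hQ : 0 ≤ Q) (hP' : 0 < P')
    (hQ' : 0 ≤ Q') (hx : 0 < x) (hz : 0 < z) (hx' : 0 < x') (hz' : 0 < z')
    (hC : z ≤ C * x) (hC' : z' ≤ C * x') (hδ : 0 ≤ δ₀) (hδ1 : δ₀ ≤ 1)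
    (h1 : δ₀ * (P + Q * C) ≤ P) (h2 : δ₀ * (P' + Q' * C) ≤ P') (hE : 1 ≤ E)
    (e1 : x' * z ≤ E * (x * z')) (e2 : x * z' ≤ E * (x' * z)) :
    (P * x' + Q * z') * (P' * x + Q' * z)
      ≤ (1 + (1 - δ₀) * (E - 1)) * ((P * x + Q * z) * (P' * x' + Q' * z')) := by
  have key : (P * x' + Q * z') * (P' * x + Q' * z) - (P * x + Q * z) * (P' * x' + Q' * z')
      = (P * Q' - Q * P') * (x' * z - x * z') := by ring
  have hS1 : 0 ≤ P * x + Q * z := by positivity
  have hS2 : 0 ≤ P' * x' + Q' * z' := by positivity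
  -- Q'z' ≤ (1-δ₀)(P'x'+Q'z')
  have k1 : Q' * z' ≤ (1 - δ₀) * (P' * x' + Q' * z') := by
    have h3 : δ₀ * (P' * x' + Q' * z') ≤ P' * x' := by
      calc δ₀ * (P' * x' + Q' * z') ≤ δ₀ * (P' * x' + Q' * (C * x')) := by gcongr
        _ = (δ₀ * (P' + Q' * C)) * x' := by ring
        _ ≤ P' * x' := mul_le_mul_of_nonneg_right h2 hx'.le
    linarith
  have k2 : Q * z ≤ (1 - δ₀) * (P * x + Q * z) := by
    have h3 : δ₀ * (P * x + Q * z) ≤ P * x := by
      calc δ₀ * (P * x + Q * z) ≤ δ₀ * (P * x + Q * (C * x)) := by gcongr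
        _ = (δ₀ * (P + Q * C)) * x := by ring
        _ ≤ P * x := mul_le_mul_of_nonneg_right h1 hx.le
    linarith
  have hE0 : 0 ≤ E - 1 := by linarith
  suffices hs : (P * Q' - Q * P') * (x' * z - x * z')
      ≤ (1 - δ₀) * (E - 1) * ((P * x + Q * z) * (P' * x' + Q' * z')) by linarith
  rcases le_total (x * z') (x' * z) with h | h
  · -- first case
    have a1 : x' * z - x * z' ≤ (E - 1) * (x * z') := by linarith
    have a2 : (P * Q' - Q * P') * (x' * z - x * z') ≤ (P * Q') * ((E - 1) * (x * z')) := by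
      calc (P * Q' - Q * P') * (x' * z - x * z') ≤ (P * Q') * (x' * z - x * z') := by
            apply mul_le_mul_of_nonneg_right _ (by linarith)
            have : 0 ≤ Q * P' := by positivity
            linarith
        _ ≤ _ := mul_le_mul_of_nonneg_left a1 (by positivity)
    have a3 : P * x * (Q' * z') ≤ (P * x + Q * z) * ((1 - δ₀) * (P' * x' + Q' * z')) := by
      apply mul_le_mul _ k1 (by positivity) hS1
      have : 0 ≤ Q * z := by positivity
      linarith
    calc (P * Q' - Q * P') * (x' * z - x * z') ≤ (E - 1) * (P * x * (Q' * z')) := by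
          calc _ ≤ _ := a2
            _ = _ := by ring
      _ ≤ (E - 1) * ((P * x + Q * z) * ((1 - δ₀) * (P' * x' + Q' * z'))) :=
          mul_le_mul_of_nonneg_left a3 hE0
      _ = _ := by ring
  · have a1 : x * z' - x' * z ≤ (E - 1) * (x' * z) := by linarith
    have a2 : (P * Q' - Q * P') * (x' * z - x * z') ≤ (Q * P') * ((E - 1) * (x' * z)) := by
      calc (P * Q' - Q * P') * (x' * z - x * z') = (Q * P' - P * Q') * (x * z' - x' * z) := by ring
        _ ≤ (Q * P') * (x * z' - x' * z) := by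
            apply mul_le_mul_of_nonneg_right _ (by linarith)
            have : 0 ≤ P * Q' := by positivity
            linarith
        _ ≤ _ := mul_le_mul_of_nonneg_left a1 (by positivity)
    have a3 : Q * z * (P' * x') ≤ ((1 - δ₀) * (P * x + Q * z)) * (P' * x' + Q' * z') := by
      apply mul_le_mul k2 _ (by positivity) (mul_nonneg (by linarith) hS1)
      have : 0 ≤ Q' * z' := by positivity
      linarith
    calc (P * Q' - Q * P') * (x' * z - x * z') ≤ (E - 1) * (Q * z * (P' * x')) := by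
          calc _ ≤ _ := a2
            _ = _ := by ring
      _ ≤ (E - 1) * (((1 - δ₀) * (P * x + Q * z)) * (P' * x' + Q' * z')) :=
          mul_le_mul_of_nonneg_left a3 hE0
      _ = _ := by ring

end Pool.Agent.Work.MP_e056c9_an
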