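import Pool.Agent.Work.MP_e056c9_an.Dead1
import Pool.Agent.Work.MP_e056c9_an.C3

/-! # Dead step (D2) -/

set_option autoImplicit false
set_option linter.unusedSectionVars false
set_option linter.unusedVariables false
open Polynomial

namespace Pool.Agent.Work.MP_e056c9_an

section
variable {f : ℝ[X]} {α β : ℝ} {c : Fin (f.natDegree - 1) → ℝ}

/-- the numerator at a dead end is a two term linear form up to a factor close to one -/
lemma dead_form (h : Hull f α β c) {D : Set ℝ} (hD : Closed f α β c D) {a a' : ℝ}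
    (haa : a ≠ a') (hDa : ∀ y ∈ D, y = a ∨ y = a') {j₀ : Fin (f.natDegree - 1)}
    (ha : a = f.eval (c j₀)) (haD : a ∈ D) (haD' : a' ∈ D)
    {m₀ : ℝ} (hm₀ : 0 < m₀) {e : ℝ} (he : e ∈ D) :
    ∃ P Q K₃ : ℝ, 0 < P ∧ 0 ≤ Q ∧ 0 < K₃ ∧ ∀ (U : ℝ → ℝ) (ε : ℝ), 0 < ε →
      (∀ y, (y ≤ α ∨ β ≤ y) → 0 < U y) →
      (∀ y ∈ D, U y ≤ ε) → (∀ j, f.eval (c j) ∉ D → m₀ ≤ U (f.eval (c j))) →
      K₃ * Real.sqrt ε ≤ 1 →
      (1 - K₃ * Real.sqrt ε) ^ 2 * (P * U a + Q * U a') ≤ num f c U (ell f c D) e ∧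
        num f c U (ell f c D) e ≤ P * U a + Q * U a' := by
  classical
  have heZ : e ∈ Z0 f α β c := hD.sub he
  have hee : e = α ∨ e = β := (mem_Z0.1 heZ).2
  have heo := end_out h hee
  have hx := h.xz_inj heo
  set x := xz c e with hxdef
  set κ : Option (Fin (f.natDegree - 1)) → ℝ := fun i =>
    (|f.leadingCoeff| * |(chie x i).eval (x i)|)⁻¹ with hκdef
  have hκ : ∀ i, 0 < κ i := fun i =>
    inv_pos.2 (mul_pos (abs_pos.2 (lc_ne h.two_le)) (abs_pos.2 (chie_eval_ne hx i)))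
  set T : Finset (Option (Fin (f.natDegree - 1))) := someSet (Lset f c D) with hT
  have hTc : T.card = ell f c D := by rw [hT, card_someSet, card_Lset]
  obtain ⟨K₃, hK₃, hlow⟩ := nodal_lower hx T hκ hm₀
  set ps := Lagrange.nodal T x with hps
  have hps0 : ∀ i ∈ T, ps.eval (x i) = 0 := fun i hi => Lagrange.eval_nodal_at_node hi
  have hpsne : ∀ i, i ∉ T → ps.eval (x i) ≠ 0 := by
    intro i hi
    apply Lagrange.eval_nodal_not_at_node
    intro j hj h
    rw [hx h] at hi
    exact hi hj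
  have hdead : ∀ i, i ∉ T → f.eval (x i) ∈ D := by
    intro i hi
    cases i with
    | none =>
      show f.eval e ∈ D
      exact (hD.inv e heZ).2 he
    | some j =>
      show f.eval (c j) ∈ D
      by_contra hcon
      exact hi (mem_someSet.2 ⟨j, mem_Lset.2 hcon, rfl⟩)
  have hlive : ∀ i ∈ T, ∃ j, f.eval (c j) ∉ D ∧ f.eval (x i) = f.eval (c j) := by
    intro i hi
    obtain ⟨j, hj, rfl⟩ := mem_someSet.1 hi
    exact ⟨j, mem_Lset.1 hj, rfl⟩
  set P := ∑ i, (if f.eval (x i) = a then κ i * ps.eval (x i) ^ 2 else 0) with hP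
  set Q := ∑ i, (if f.eval (x i) = a' then κ i * ps.eval (x i) ^ 2 else 0) with hQ
  have hterm : ∀ i, 0 ≤ κ i * ps.eval (x i) ^ 2 := fun i => mul_nonneg (hκ i).le (sq_nonneg _)
  have hPpos : 0 < P := by
    have h1 : (if f.eval (x (some j₀)) = a then κ (some j₀) * ps.eval (x (some j₀)) ^ 2 else 0) ≤ P :=
      Finset.single_le_sum (f := fun i => if f.eval (x i) = a then κ i * ps.eval (x i) ^ 2 else 0)
        (fun i _ => by split_ifs; exacts [hterm i, le_rfl]) (Finset.mem_univ (some j₀))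
    have h2 : f.eval (x (some j₀)) = a := ha.symm
    rw [if_pos h2] at h1
    have h3 : some j₀ ∉ T := by
      intro hcon
      obtain ⟨j, hj, hj2⟩ := mem_someSet.1 hcon
      rw [Option.some.injEq] at hj2
      rw [hj2] at hj
      rw [mem_Lset, ← ha] at hj
      exact hj haD
    have h4 : 0 < κ (some j₀) * ps.eval (x (some j₀)) ^ 2 :=
      mul_pos (hκ _) (by have := hpsne _ h3; positivity)
    linarith
  have hQnn : 0 ≤ Q := Finset.sum_nonneg fun i _ => by split_ifs; exacts [hterm i, le_rfl]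
  have hform : ∀ U : ℝ → ℝ, disc x (fun i => U (f.eval (x i)) * κ i) (ps ^ 2)
      = P * U a + Q * U a' := by
    intro U
    rw [disc_sq, hP, hQ, Finset.sum_mul, Finset.sum_mul, ← Finset.sum_add_distrib]
    refine Finset.sum_congr rfl fun i _ => ?_
    by_cases hi : i ∈ T
    · rw [hps0 i hi]
      simp
    · rcases hDa _ (hdead i hi) with h1 | h1
      · rw [if_pos h1, if_neg (by rw [h1]; exact haa), h1]; ring
      · rw [if_pos h1, if_neg (by rw [h1]; exact haa.symm), h1]; ring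
  refine ⟨P, Q, K₃, hPpos, hQnn, hK₃, ?_⟩
  intro U ε hε hU hUD hUl hle
  have hom : om f x U = fun i => U (f.eval (x i)) * κ i := by
    funext i
    unfold om
    rw [div_eq_mul_inv]
  have hnum : num f c U (ell f c D) e = hh (disc x (fun i => U (f.eval (x i)) * κ i)) T.card := by
    unfold num
    rw [hTc, ← hom]
  have hUpos : ∀ i, 0 < U (f.eval (x i)) := fun i => hU _ (h.xz_val heo i)
  rw [hnum]
  constructor
  · have := hlow (fun i => U (f.eval (x i))) ε hε hUpos
      (fun i hi => by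
        obtain ⟨j, h1, h2⟩ := hlive i hi
        rw [h2]; exact hUl j h1)
      (fun i hi => hUD _ (hdead i hi)) hle
    rw [hform U] at this
    exact this
  · have := nodal_upper x (fun i => U (f.eval (x i)) * κ i)
      (fun i => (mul_pos (hUpos i) (hκ i)).le) T
    rw [hform U] at this
    exact this

end

section
variable {f : ℝ[X]} {α β : ℝ} {c : Fin (f.natDegree - 1) → ℝ} {L M : ℝ[X] →ₗ[ℝ] ℝ}
  (hC : Core f α β c L M)
include hC

theorem dead_step : ∀ D : Set ℝ, Closed f α β c D → ∀ c₁ C : ℝ, 0 < c₁ → 1 ≤ C →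
    ∀ η : ℝ, 0 < η → ∃ δ ε : ℝ, 0 < δ ∧ 0 < ε ∧ ∀ n n' : ℕ,
      DegLevel f α β c L D c₁ C ε n → DegLevel f α β c L D c₁ C ε n' →
      ∀ b : ℝ, OscLe (some '' D) (Hn L β n) (Hn L β n') b →
        OscLe (some '' D) (Hn L β (f.natDegree * n + ell f c D))
          (Hn L β (f.natDegree * n' + ell f c D)) (max (b - δ) η) := by
  classical
  intro D hD c₁ C hc₁ hC1 η hη
  have h := hC.hull
  have hlt := h.lt
  by_cases hsub : D.Subsingleton
  · refine ⟨1, 1, one_pos, one_pos, ?_⟩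
    rintro n n' - - b - s ⟨e, he, rfl⟩ t ⟨e', he', rfl⟩
    rw [hsub he he', sub_self]
    exact le_max_of_le_right hη.le
  -- two points
  have hDαβ : ∀ y ∈ D, y = α ∨ y = β := fun y hy => (mem_Z0.1 (hD.sub hy)).2
  obtain ⟨e₁, he₁, e₂, he₂, hne⟩ := Set.not_subsingleton_iff.1 hsub
  have hboth : α ∈ D ∧ β ∈ D := by
    rcases hDαβ e₁ he₁ with h1 | h1 <;> rcases hDαβ e₂ he₂ with h2 | h2
    · exact absurd (h1.trans h2.symm) hne
    · exact ⟨h1 ▸ he₁, h2 ▸ he₂⟩
    · exact ⟨h2 ▸ he₂, h1 ▸ he₁⟩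
    · exact absurd (h1.trans h2.symm) hne
  -- a critical value in D
  obtain ⟨j₀, hj₀⟩ : ∃ j, f.eval (c j) ∈ D := by
    obtain ⟨⟨j, n, hjn⟩, hqe⟩ := mem_Z0.1 (hD.sub he₁)
    have h0 : dd α β e₁ = 0 := (dd_eq_zero (end_out h hqe) h.lt).2 hqe
    have h1 := h.it_expand (h.val j) n
    rw [← hjn, h0] at h1
    have h2 : dd α β (f.eval (c j)) = 0 := by
      have h3 := dd_nonneg (h.val j)
      have h4 : (0:ℝ) < 2 ^ n := by positivity
      nlinarith
    refine ⟨j, ?_⟩
    rcases (dd_eq_zero (h.val j) h.lt).1 h2 with h5 | h5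
    · rw [h5]; exact hboth.1
    · rw [h5]; exact hboth.2
  -- a, a'
  obtain ⟨a, a', haa, hDa, haD, haD', haj⟩ : ∃ a a' : ℝ, a ≠ a' ∧ (∀ y ∈ D, y = a ∨ y = a') ∧
      a ∈ D ∧ a' ∈ D ∧ a = f.eval (c j₀) := by
    rcases hDαβ _ hj₀ with h5 | h5
    · exact ⟨α, β, hlt.ne, hDαβ, hboth.1, hboth.2, h5.symm⟩
    · exact ⟨β, α, hlt.ne', fun y hy => (hDαβ y hy).symm, hboth.2, hboth.1, h5.symm⟩
  -- lower bound for live critical values
  obtain ⟨m₀, hm₀, hZ, -⟩ := h.exists_delta
  have hlive : ∀ n j, f.eval (c j) ∉ D → m₀ ≤ uu L β n (f.eval (c j)) := by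
    intro n j hj
    have h1 := hZ (f.eval (c j)) ⟨j, 0, rfl⟩
    rcases h1 with h1 | h1
    · exfalso
      rcases h1 with h1 | h1
      · rw [h1] at hj; exact hj hboth.1
      · rw [h1] at hj; exact hj hboth.2
    · exact h1.trans (hC.uu_bounds n (h.val j)).1
  -- the forms
  have hforms : ∀ e : ℝ, ∃ P Q K₃ : ℝ, e ∈ D → (0 < P ∧ 0 ≤ Q ∧ 0 < K₃ ∧ ∀ (U : ℝ → ℝ) (ε : ℝ), 0 < ε →
      (∀ y, (y ≤ α ∨ β ≤ y) → 0 < U y) →
      (∀ y ∈ D, U y ≤ ε) → (∀ j, f.eval (c j) ∉ D → m₀ ≤ U (f.eval (c j))) →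
      K₃ * Real.sqrt ε ≤ 1 →
      (1 - K₃ * Real.sqrt ε) ^ 2 * (P * U a + Q * U a') ≤ num f c U (ell f c D) e ∧
        num f c U (ell f c D) e ≤ P * U a + Q * U a') := by
    intro e
    by_cases he : e ∈ D
    · obtain ⟨P, Q, K₃, hh⟩ := dead_form h hD haa hDa haj haD haD' hm₀ he
      exact ⟨P, Q, K₃, fun _ => hh⟩
    · exact ⟨0, 0, 0, fun h => absurd h he⟩
  choose P Q K₃ hPQK using hforms
  have hPa := hPQK a haD
  have hPa' := hPQK a' haD'
  -- constants
  obtain ⟨δ₀, hδ₀, hδ₀1, hδP⟩ : ∃ δ₀ : ℝ, 0 < δ₀ ∧ δ₀ ≤ 1 ∧ ∀ e ∈ D, δ₀ * (P e + Q e * C) ≤ P e := by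
    have hp1 : 0 < P a + Q a * C := by have := mul_nonneg hPa.2.1 (by linarith : 0 ≤ C); linarith [hPa.1]
    have hp2 : 0 < P a' + Q a' * C := by
      have := mul_nonneg hPa'.2.1 (by linarith : 0 ≤ C); linarith [hPa'.1]
    refine ⟨min (P a / (P a + Q a * C)) (P a' / (P a' + Q a' * C)),
      lt_min (div_pos hPa.1 hp1) (div_pos hPa'.1 hp2), ?_, ?_⟩
    · refine (min_le_left _ _).trans ?_
      rw [div_le_one hp1]
      have := mul_nonneg hPa.2.1 (by linarith : 0 ≤ C)
      linarith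
    · intro e he
      rcases hDa e he with rfl | rfl
      · rw [← le_div_iff₀ hp1]; exact min_le_left _ _
      · rw [← le_div_iff₀ hp2]; exact min_le_right _ _
  set γ := δ₀ * (1 - Real.exp (-η)) with hγ
  have hexp : Real.exp (-η) < 1 := by rw [Real.exp_lt_one_iff]; linarith
  have hexp0 := Real.exp_pos (-η)
  have hγ0 : 0 < γ := mul_pos hδ₀ (by linarith)
  have hγ1 : γ < 1 := by
    have : γ ≤ 1 * (1 - Real.exp (-η)) := mul_le_mul_of_nonneg_right hδ₀1 (by linarith)
    linarith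
  set Km := K₃ a + K₃ a' with hKm
  have hKm0 : 0 < Km := by rw [hKm]; linarith [hPa.2.2.1, hPa'.2.2.1]
  have hKle : ∀ e ∈ D, K₃ e ≤ Km := by
    intro e he
    rcases hDa e he with rfl | rfl
    · rw [hKm]; linarith [hPa'.2.2.1]
    · rw [hKm]; linarith [hPa.2.2.1]
  set ε := (γ / 8 / Km) ^ 2 with hε
  have hq : 0 < γ / 8 / Km := by positivity
  have hsq : Real.sqrt ε = γ / 8 / Km := Real.sqrt_sq hq.le
  have hθ : ∀ e ∈ D, K₃ e * Real.sqrt ε ≤ γ / 8 := by
    intro e he
    rw [hsq]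
    calc K₃ e * (γ / 8 / Km) ≤ Km * (γ / 8 / Km) := mul_le_mul_of_nonneg_right (hKle e he) hq.le
      _ = γ / 8 := by field_simp
  have hε0 : 0 < ε := by positivity
  refine ⟨-Real.log (1 - γ / 2), ε, ?_, hε0, ?_⟩
  · have := Real.log_neg (x := 1 - γ / 2) (by linarith) (by linarith)
    linarith
  intro n n' hn hn' b hb
  -- pass to b' = max b η
  set b' := max b η with hb'
  have hbb : b ≤ b' := le_max_left _ _
  have hηb : η ≤ b' := le_max_right _ _
  suffices hs : ∀ e ∈ D, ∀ e' ∈ D, e ≠ e' →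
      RR (Hn L β (f.natDegree * n + ell f c D)) (Hn L β (f.natDegree * n' + ell f c D)) (some e)
      - RR (Hn L β (f.natDegree * n + ell f c D)) (Hn L β (f.natDegree * n' + ell f c D)) (some e')
      ≤ b' - -Real.log (1 - γ / 2) by
    rintro s ⟨e, he, rfl⟩ t ⟨e', he', rfl⟩
    by_cases hee : e = e'
    · rw [hee, sub_self]; exact le_max_of_le_right hη.le
    · refine (hs e he e' he' hee).trans ?_
      have hl : Real.log (1 - γ / 2) < 0 := Real.log_neg (by linarith) (by linarith)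
      rcases le_total b η with hle | hle
      · rw [hb', max_eq_right hle]
        exact le_max_of_le_right (by linarith)
      · rw [hb', max_eq_left hle]
        exact le_max_left _ _
  intro e he e' he' hee
  have heo : e ≤ α ∨ β ≤ e := end_out h (hDαβ e he)
  have heo' : e' ≤ α ∨ β ≤ e' := end_out h (hDαβ e' he')
  have hao : a ≤ α ∨ β ≤ a := end_out h (hDαβ a haD)
  have hao' : a' ≤ α ∨ β ≤ a' := end_out h (hDαβ a' haD')
  have hell : ell f c D < f.natDegree := by
    rw [← card_Lset]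
    have h1 := Finset.card_le_univ (Lset f c D)
    rw [Fintype.card_fin] at h1
    have := h.two_le
    omega
  -- the values
  set x := uu L β n a with hx
  set z := uu L β n a' with hz
  set x' := uu L β n' a with hx'
  set z' := uu L β n' a' with hz'
  have px : 0 < x := hC.uu_pos n hao
  have pz : 0 < z := hC.uu_pos n hao'
  have px' : 0 < x' := hC.uu_pos n' hao
  have pz' : 0 < z' := hC.uu_pos n' hao'
  have oscab : ∀ u ∈ D, ∀ v ∈ D, Real.log (uu L β n' u) - Real.log (uu L β n u)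
      - (Real.log (uu L β n' v) - Real.log (uu L β n v)) ≤ b' := by
    intro u hu v hv
    have h1 := hb (some u) ⟨u, hu, rfl⟩ (some v) ⟨v, hv, rfl⟩
    have h2 := hC.RR_sub n n' (end_out h (hDαβ u hu))
    have h3 := hC.RR_sub n n' (end_out h (hDαβ v hv))
    linarith
  set E := Real.exp b' with hE
  have hE1 : 1 ≤ E := by rw [hE]; exact Real.one_le_exp (by linarith)
  have hEpos : 0 < E := Real.exp_pos _
  have osc_mul : ∀ u v u' v' : ℝ, 0 < u → 0 < v → 0 < u' → 0 < v' →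
      Real.log u' - Real.log u - (Real.log v' - Real.log v) ≤ b' → u' * v ≤ E * (u * v') := by
    intro u v u' v' hu hv hu' hv' hle
    rw [← Real.log_le_log_iff (by positivity) (by positivity), Real.log_mul hu'.ne' hv.ne',
      Real.log_mul hEpos.ne' (by positivity), Real.log_mul hu.ne' hv'.ne', hE, Real.log_exp]
    linarith
  have e1 : x' * z ≤ E * (x * z') := osc_mul x z x' z' px pz px' pz' (oscab a haD a' haD')
  have e2 : x * z' ≤ E * (x' * z) := by
    have := osc_mul z x z' x' pz px pz' px' (oscab a' haD' a haD)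
    linarith [mul_comm x z', mul_comm z x']
  have hcz : z ≤ C * x := hn.2.1 a' haD' a haD
  have hcz' : z' ≤ C * x' := hn'.2.1 a' haD' a haD
  obtain ⟨Pe, Qe, Ke, Fe⟩ := hPQK e he
  obtain ⟨Pe', Qe', Ke', Fe'⟩ := hPQK e' he'
  have hUpos : ∀ m y, (y ≤ α ∨ β ≤ y) → 0 < uu L β m y := fun m y hy => hC.uu_pos m hy
  have θe := hθ e he
  have θe' := hθ e' he'
  have F1 := Fe (uu L β n) ε hε0 (hUpos n) hn.2.2 (hlive n) (by linarith)
  have F2 := Fe (uu L β n') ε hε0 (hUpos n') hn'.2.2 (hlive n') (by linarith)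
  have F3 := Fe' (uu L β n) ε hε0 (hUpos n) hn.2.2 (hlive n) (by linarith)
  have F4 := Fe' (uu L β n') ε hε0 (hUpos n') hn'.2.2 (hlive n') (by linarith)
  rw [← hx, ← hz] at F1 F3
  rw [← hx', ← hz'] at F2 F4
  set σ := ell f c D with hσ
  -- rewriting the goal
  have g1 := hC.RR_sub (f.natDegree * n + σ) (f.natDegree * n' + σ) heo
  have g2 := hC.RR_sub (f.natDegree * n + σ) (f.natDegree * n' + σ) heo'
  have n1 := hC.num_pos n σ hell heo
  have n2 := hC.num_pos n' σ hell heo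
  have n3 := hC.num_pos n σ hell heo'
  have n4 := hC.num_pos n' σ hell heo'
  have d1 := hC.den_pos n σ hell
  have d2 := hC.den_pos n' σ hell
  have l1 : Real.log (uu L β (f.natDegree * n + σ) e)
      = Real.log (num f c (uu L β n) σ e) - Real.log (den f c (uu L β n) σ) := by
    rw [hC.uu_rec n σ hell heo, Real.log_div n1.ne' d1.ne']
  have l2 : Real.log (uu L β (f.natDegree * n' + σ) e)
      = Real.log (num f c (uu L β n') σ e) - Real.log (den f c (uu L β n') σ) := by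
    rw [hC.uu_rec n' σ hell heo, Real.log_div n2.ne' d2.ne']
  have l3 : Real.log (uu L β (f.natDegree * n + σ) e')
      = Real.log (num f c (uu L β n) σ e') - Real.log (den f c (uu L β n) σ) := by
    rw [hC.uu_rec n σ hell heo', Real.log_div n3.ne' d1.ne']
  have l4 : Real.log (uu L β (f.natDegree * n' + σ) e')
      = Real.log (num f c (uu L β n') σ e') - Real.log (den f c (uu L β n') σ) := by
    rw [hC.uu_rec n' σ hell heo', Real.log_div n4.ne' d2.ne']
  -- main inequality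
  set N1 := num f c (uu L β n) σ e with hN1
  set N2 := num f c (uu L β n') σ e with hN2
  set N3 := num f c (uu L β n) σ e' with hN3
  set N4 := num f c (uu L β n') σ e' with hN4
  have main : N2 * N3 ≤ (E * (1 - γ / 2)) * (N1 * N4) := by
    have hc := contr_two (E := E) Pe Qe Pe' Qe' px pz px' pz' hcz hcz' hδ₀.le hδ₀1
      (hδP e he) (hδP e' he') hE1 e1 e2
    have s1 : 0 < P e * x + Q e * z := by
      have := mul_nonneg Qe pz.le
      have := mul_pos Pe px
      linarith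
    have s4 : 0 < P e' * x' + Q e' * z' := by
      have := mul_nonneg Qe' pz'.le
      have := mul_pos Pe' px'
      linarith
    have hE2 : 1 + (1 - δ₀) * (E - 1) ≤ E * (1 - γ) := by
      have h1 : 1 ≤ E * Real.exp (-η) := by
        rw [hE, ← Real.exp_add]
        exact Real.one_le_exp (by linarith)
      have h2 : E * (1 - γ) = E - δ₀ * (E - E * Real.exp (-η)) := by rw [hγ]; ring
      rw [h2]
      nlinarith
    have t1 : (1 - γ / 8) ^ 2 * (P e * x + Q e * z) ≤ N1 := by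
      refine le_trans ?_ F1.1
      apply mul_le_mul_of_nonneg_right _ s1.le
      apply pow_le_pow_left₀ (by linarith)
      linarith
    have t4 : (1 - γ / 8) ^ 2 * (P e' * x' + Q e' * z') ≤ N4 := by
      refine le_trans ?_ F4.1
      apply mul_le_mul_of_nonneg_right _ s4.le
      apply pow_le_pow_left₀ (by linarith)
      linarith
    have t14 : (1 - γ / 8) ^ 4 * ((P e * x + Q e * z) * (P e' * x' + Q e' * z')) ≤ N1 * N4 := by
      have := mul_le_mul t1 t4 (by positivity) n1.le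
      calc _ = (1 - γ / 8) ^ 2 * (P e * x + Q e * z) * ((1 - γ / 8) ^ 2 * (P e' * x' + Q e' * z')) := by
            ring
        _ ≤ _ := this
    have hpow : 1 - γ ≤ (1 - γ / 2) * (1 - γ / 8) ^ 4 := by
      have h1 : 1 - γ / 2 ≤ (1 - γ / 8) ^ 4 := by
        have := one_add_mul_le_pow (a := -(γ / 8)) (by linarith) 4
        calc 1 - γ / 2 = 1 + ((4 : ℕ) : ℝ) * (-(γ / 8)) := by push_cast; ring
          _ ≤ (1 + -(γ / 8)) ^ 4 := this
          _ = _ := by ring
      have h2 : 1 - γ ≤ (1 - γ / 2) * (1 - γ / 2) := by nlinarith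
      exact h2.trans (mul_le_mul_of_nonneg_left h1 (by linarith))
    have s14 : 0 < (P e * x + Q e * z) * (P e' * x' + Q e' * z') := mul_pos s1 s4
    calc N2 * N3 ≤ (P e * x' + Q e * z') * (P e' * x + Q e' * z) :=
          mul_le_mul F2.2 F3.2 n3.le (n2.le.trans F2.2)
      _ ≤ (1 + (1 - δ₀) * (E - 1)) * ((P e * x + Q e * z) * (P e' * x' + Q e' * z')) := hc
      _ ≤ (E * (1 - γ)) * ((P e * x + Q e * z) * (P e' * x' + Q e' * z')) :=
          mul_le_mul_of_nonneg_right hE2 s14.le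
      _ ≤ (E * ((1 - γ / 2) * (1 - γ / 8) ^ 4)) * ((P e * x + Q e * z) * (P e' * x' + Q e' * z')) := by
          apply mul_le_mul_of_nonneg_right _ s14.le
          exact mul_le_mul_of_nonneg_left hpow hEpos.le
      _ = (E * (1 - γ / 2)) * ((1 - γ / 8) ^ 4 * ((P e * x + Q e * z) * (P e' * x' + Q e' * z'))) := by
          ring
      _ ≤ _ := mul_le_mul_of_nonneg_left t14 (mul_nonneg hEpos.le (by linarith))
  have hlog := Real.log_le_log (mul_pos n2 n3) main
  have hg2 : 0 < 1 - γ / 2 := by linarith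
  rw [Real.log_mul n2.ne' n3.ne', Real.log_mul (mul_pos hEpos hg2).ne' (mul_pos n1 n4).ne',
    Real.log_mul hEpos.ne' hg2.ne', Real.log_mul n1.ne' n4.ne', hE, Real.log_exp] at hlog
  linarith

end

end Pool.Agent.Work.MP_e056c9_an
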