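import Pool.Agent.Work.MP_e056c9_an.Blocks

/-! # Decomposition `p = q₀(f) + ∑ qᵢ(f) (f - f(xᵢ))/(X - xᵢ)`. -/

set_option autoImplicit false
set_option linter.unusedSectionVars false
set_option linter.unusedVariables false
open Polynomial

namespace Pool.Agent.Work.MP_e056c9_an

section
variable {ι : Type*} [Fintype ι] [DecidableEq ι] {x : ι → ℝ} {f : ℝ[X]}

/-- the pair `(b, a₀)` belongs to `g` -/
structure TopOf (x : ι → ℝ) (f g b : ℝ[X]) (a₀ : ℝ) : Prop where
  deg : b.degree < Fintype.card ι
  eq : g = C a₀ + ∑ i, C (b.eval (x i) / (chie x i).eval (x i)) * ee f (x i)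
  zero : Fintype.card ι = f.natDegree → a₀ = 0
  top : g ≠ 0 → f.natDegree ≤ g.natDegree + Fintype.card ι →
    b.natDegree = g.natDegree + Fintype.card ι - f.natDegree ∧
      b.leadingCoeff = g.leadingCoeff / f.leadingCoeff
  low : g.natDegree + Fintype.card ι < f.natDegree → b = 0

lemma exists_topOf (hd : 2 ≤ f.natDegree) (hx : Function.Injective x)
    (hN : Fintype.card ι ≤ f.natDegree) (hN' : f.natDegree ≤ Fintype.card ι + 1)
    (g : ℝ[X]) (hg : g.natDegree < f.natDegree) : ∃ (b : ℝ[X]) (a₀ : ℝ), TopOf x f g b a₀ := by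
  have hf := f_ne hd
  have hχ := chi_monic x
  have hcχ : (chi x).natDegree = Fintype.card ι := chi_natDegree x
  set b := (chi x * g) / f with hb
  set ρ := (chi x * g) % f with hρ
  have hfb : f * b + ρ = chi x * g := EuclideanDomain.div_add_mod _ _
  have hρd : ρ.degree < f.degree := degree_mod_lt _ hf
  have hdf : f.degree = f.natDegree := degree_eq_natDegree hf
  have hq : (f * b) /ₘ chi x = g - ρ /ₘ chi x := by
    refine (div_modByMonic_unique _ (-(ρ %ₘ chi x)) hχ ⟨?_, ?_⟩).1
    · have := modByMonic_add_div ρ (chi x)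
      linear_combination -this - hfb
    · rw [degree_neg]; exact degree_modByMonic_lt _ hχ
  -- degree of b
  have hbd : g ≠ 0 → f.natDegree ≤ g.natDegree + Fintype.card ι →
      b.natDegree = g.natDegree + Fintype.card ι - f.natDegree ∧
      b.leadingCoeff = g.leadingCoeff / f.leadingCoeff := by
    intro hg0 hle
    have h1 : (chi x * g).natDegree = Fintype.card ι + g.natDegree := by
      rw [natDegree_mul hχ.ne_zero hg0, hcχ]
    have h2 : f.degree ≤ (chi x * g).degree := by
      rw [hdf, degree_eq_natDegree (mul_ne_zero hχ.ne_zero hg0), h1]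
      exact_mod_cast (by omega)
    have h3 := degree_add_div hf h2
    have hb0 : b ≠ 0 := by
      intro h
      rw [hb, Polynomial.div_eq_zero_iff hf] at h
      exact absurd h (not_lt.2 h2)
    constructor
    · rw [← hb, hdf, degree_eq_natDegree hb0, degree_eq_natDegree (mul_ne_zero hχ.ne_zero hg0), h1] at h3
      have : f.natDegree + b.natDegree = Fintype.card ι + g.natDegree := by exact_mod_cast h3
      omega
    · rw [hb, leadingCoeff_div h2, leadingCoeff_mul, hχ.leadingCoeff, one_mul]
  have hlow : g.natDegree + Fintype.card ι < f.natDegree → b = 0 := by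
    intro h
    rw [hb, Polynomial.div_eq_zero_iff hf]
    by_cases hg0 : g = 0
    · rw [hg0, mul_zero, degree_zero, hdf]; exact WithBot.bot_lt_coe _
    · rw [hdf, degree_eq_natDegree (mul_ne_zero hχ.ne_zero hg0), natDegree_mul hχ.ne_zero hg0, hcχ]
      exact_mod_cast (by omega)
  have hbdeg : b.degree < Fintype.card ι := by
    by_cases hb0 : b = 0
    · rw [hb0, degree_zero]; exact WithBot.bot_lt_coe _
    · have hg0 : g ≠ 0 := by rintro rfl; apply hb0; rw [hb, mul_zero, EuclideanDomain.zero_div]
      have hle : f.natDegree ≤ g.natDegree + Fintype.card ι := by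
        by_contra h; exact hb0 (hlow (not_le.1 h))
      rw [degree_eq_natDegree hb0, (hbd hg0 hle).1]
      exact_mod_cast (by omega)
  refine ⟨b, (ρ /ₘ chi x).coeff 0, hbdeg, ?_, ?_, hbd, hlow⟩
  · rw [sum_ee hx f hbdeg, hq]
    have h0 : (ρ /ₘ chi x).natDegree = 0 := by
      rw [natDegree_divByMonic _ hχ, hcχ]
      have : ρ.natDegree < f.natDegree := by
        by_cases hρ0 : ρ = 0
        · rw [hρ0, natDegree_zero]; omega
        · exact natDegree_lt_natDegree hρ0 hρd
      omega
    rw [← eq_C_of_natDegree_eq_zero h0]; ring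
  · intro hc
    have : ρ /ₘ chi x = 0 := by
      rw [divByMonic_eq_zero_iff hχ, degree_eq_natDegree hχ.ne_zero, hcχ, hc, ← hdf]; exact hρd
    rw [this, coeff_zero]

/-- Decomposition. -/
lemma exists_decomp (hd : 2 ≤ f.natDegree) (hx : Function.Injective x)
    (hN : Fintype.card ι ≤ f.natDegree) (hN' : f.natDegree ≤ Fintype.card ι + 1) (m : ℕ) :
    ∀ p : ℝ[X], p.natDegree < f.natDegree * (m + 1) →
    ∃ (q₀ : ℝ[X]) (q : ι → ℝ[X]) (b : ℝ[X]) (a₀ : ℝ), TopOf x f (p / f ^ m) b a₀ ∧
      q₀.natDegree ≤ m ∧ q₀.coeff m = a₀ ∧ (Fintype.card ι = f.natDegree → q₀ = 0) ∧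
      (∀ i, (q i).natDegree ≤ m ∧ (q i).coeff m = b.eval (x i) / (chie x i).eval (x i)) ∧
      p = q₀.comp f + ∑ i, (q i).comp f * ee f (x i) := by
  have hf := f_ne hd
  have hdf : f.degree = f.natDegree := degree_eq_natDegree hf
  -- natDegree of the quotient
  have hquot : ∀ (m : ℕ) (p : ℝ[X]), p.natDegree < f.natDegree * (m + 1) →
      (p / f ^ m).natDegree < f.natDegree := by
    intro m p hp
    by_cases hle : (f ^ m).degree ≤ p.degree
    · have h3 := degree_add_div (pow_ne_zero m hf) hle
      by_cases h0 : p / f ^ m = 0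
      · rw [h0, natDegree_zero]; omega
      · have hp0 : p ≠ 0 := by rintro rfl; exact h0 (EuclideanDomain.zero_div)
        rw [degree_eq_natDegree (pow_ne_zero m hf), degree_eq_natDegree h0, degree_eq_natDegree hp0,
          natDegree_pow] at h3
        have h4 : m * f.natDegree + (p / f ^ m).natDegree = p.natDegree := by exact_mod_cast h3
        have h5 : f.natDegree * (m + 1) = m * f.natDegree + f.natDegree := by ring
        omega
    · have : p / f ^ m = 0 := by
        rw [Polynomial.div_eq_zero_iff (pow_ne_zero m hf)]; exact not_le.1 hle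
      rw [this, natDegree_zero]; omega
  induction m with
  | zero =>
    intro p hp
    have hg := hquot 0 p hp
    obtain ⟨b, a₀, hT⟩ := exists_topOf hd hx hN hN' (p / f ^ 0) hg
    refine ⟨C a₀, fun i => C (b.eval (x i) / (chie x i).eval (x i)), b, a₀, hT, by simp, by simp,
      fun h => by rw [hT.zero h]; simp, fun i => ⟨by simp, by simp⟩, ?_⟩
    have h1 : p / f ^ 0 = p := by
      rw [pow_zero]; simp
    have := hT.eq
    rw [h1] at this
    simpa using this
  | succ m ih =>
    intro p hp
    have hg := hquot (m + 1) p hp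
    obtain ⟨b, a₀, hT⟩ := exists_topOf hd hx hN hN' (p / f ^ (m + 1)) hg
    have hfm : f ^ (m + 1) ≠ 0 := pow_ne_zero _ hf
    have hρd : (p % f ^ (m + 1)).natDegree < f.natDegree * (m + 1) := by
      by_cases h0 : p % f ^ (m + 1) = 0
      · rw [h0, natDegree_zero]; positivity
      · have := natDegree_lt_natDegree h0 (degree_mod_lt p hfm)
        rw [natDegree_pow] at this
        rw [mul_comm]; exact this
    obtain ⟨q₀, q, b', a', hT', h1, h2, h3, h4, h5⟩ := ih _ hρd
    refine ⟨C a₀ * X ^ (m + 1) + q₀,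
      fun i => C (b.eval (x i) / (chie x i).eval (x i)) * X ^ (m + 1) + q i, b, a₀, hT,
      ?_, ?_, ?_, ?_, ?_⟩
    · exact natDegree_add_le_of_degree_le (natDegree_C_mul_X_pow_le _ _) (h1.trans (Nat.le_succ m))
    · rw [coeff_add, coeff_C_mul_X_pow, if_pos rfl,
        coeff_eq_zero_of_natDegree_lt (Nat.lt_succ_of_le h1), add_zero]
    · intro h; rw [hT.zero h, h3 h]; simp
    · intro i
      refine ⟨natDegree_add_le_of_degree_le (natDegree_C_mul_X_pow_le _ _)
        ((h4 i).1.trans (Nat.le_succ m)), ?_⟩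
      rw [coeff_add, coeff_C_mul_X_pow, if_pos rfl,
        coeff_eq_zero_of_natDegree_lt (Nat.lt_succ_of_le (h4 i).1), add_zero]
    · have h6 : p = f ^ (m + 1) * (p / f ^ (m + 1)) + p % f ^ (m + 1) :=
        (EuclideanDomain.div_add_mod _ _).symm
      have h7 : f ^ (m + 1) * (p / f ^ (m + 1)) = C a₀ * f ^ (m + 1)
          + ∑ i, C (b.eval (x i) / (chie x i).eval (x i)) * f ^ (m + 1) * ee f (x i) := by
        conv_lhs => rw [hT.eq]
        rw [mul_add, Finset.mul_sum]
        congr 1
        · ring
        · exact Finset.sum_congr rfl fun i _ => by ring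
      conv_lhs => rw [h6, h7, h5]
      simp only [add_comp, mul_comp, C_comp, pow_comp, X_comp, add_mul, Finset.sum_add_distrib]
      ring

end

end Pool.Agent.Work.MP_e056c9_an
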