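import Mathlib

/-! # Common definitions for MP_e056c9_an (Bellissard's conjecture, frozen S06437) -/

set_option autoImplicit false
open Polynomial MeasureTheory

namespace Pool.Agent.Work.MP_e056c9_an

/-- `f` is a real polynomial with hull `[α, β]`: the critical points `c j` are simple, lie in
`(α, β)`, their values are outside `(α, β)`, at least one value is outside `[α, β]`, and the two
end points are mapped to end points. -/
structure Hull (f : ℝ[X]) (α β : ℝ) (c : Fin (f.natDegree - 1) → ℝ) : Prop where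
  two_le : 2 ≤ f.natDegree
  lt : α < β
  inj : Function.Injective c
  deriv_eq : derivative f = C (f.natDegree * f.leadingCoeff) * ∏ j, (X - C (c j))
  mem : ∀ j, c j ∈ Set.Ioo α β
  val : ∀ j, f.eval (c j) ≤ α ∨ β ≤ f.eval (c j)
  out : ∃ j, f.eval (c j) < α ∨ β < f.eval (c j)
  end_left : f.eval α = α ∨ f.eval α = β
  end_right : f.eval β = α ∨ f.eval β = β
  maps : ∀ z : ℝ, (z ≤ α ∨ β ≤ z) → (f.eval z ≤ α ∨ β ≤ f.eval z)
  splits : ∀ y : ℝ, (y = α ∨ y = β) → Multiset.card (f - C y).roots = f.natDegree ∧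
    ∀ x ∈ (f - C y).roots, x ∈ Set.Icc α β

/-- The points whose whole orbit stays in `[α, β]` (this is the Julia set). -/
def K (f : ℝ[X]) (α β : ℝ) : Set ℝ :=
  {x : ℝ | ∀ n : ℕ, (fun y : ℝ => f.eval y)^[n] x ∈ Set.Icc α β}

/-- Balanced measures: `M G` is `∫ ∑_{f x = y} G x / f' x dμ y`. -/
def Balanced (f : ℝ[X]) (μ : Measure ℝ) : Prop :=
  ∃ M : ℝ[X] →ₗ[ℝ] ℝ,
    (∀ H : ℝ[X], M (derivative f * H) = f.natDegree * ∫ x, H.eval x ∂μ) ∧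
    (∀ Q G : ℝ[X], G.natDegree < f.natDegree →
      M (Q.comp f * G) = (∫ x, Q.eval x ∂μ) * (G.coeff (f.natDegree - 1) / f.leadingCoeff))

/-- The energy of the frozen statement, `D` is the diameter of the set. -/
noncomputable def energy (D : ℝ) (μ : Measure ℝ) : ENNReal :=
  ∫⁻ x, ∫⁻ y, (if x = y then (⊤ : ENNReal)
    else ENNReal.ofReal (Real.log ((D + 1) / |x - y|))) ∂μ ∂μ

/-- The conclusion of the frozen statement. -/
def APConclusion (μ : Measure ℝ) (P : ℕ → ℝ[X]) : Prop :=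
  (∀ ε : ℝ, 0 < ε → ∃ L : ℕ, ∀ m : ℕ, ∃ τ : ℕ, m ≤ τ ∧ τ ≤ m + L ∧
    ∀ n : ℕ,
      |(∫ x, x * (P (n + τ)).eval x ^ 2 ∂μ) / (∫ x, (P (n + τ)).eval x ^ 2 ∂μ)
        - (∫ x, x * (P n).eval x ^ 2 ∂μ) / (∫ x, (P n).eval x ^ 2 ∂μ)| ≤ ε) ∧
  (∀ ε : ℝ, 0 < ε → ∃ L : ℕ, ∀ m : ℕ, ∃ τ : ℕ, m ≤ τ ∧ τ ≤ m + L ∧
    ∀ n : ℕ,
      |(∫ x, (P (n + τ + 1)).eval x ^ 2 ∂μ) / (∫ x, (P (n + τ)).eval x ^ 2 ∂μ)
        - (∫ x, (P (n + 1)).eval x ^ 2 ∂μ) / (∫ x, (P n).eval x ^ 2 ∂μ)| ≤ ε)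

end Pool.Agent.Work.MP_e056c9_an
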