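import Pool.Agent.Work.MP_e056c9_an.Env

/-! # Endgame: from the uniform limit periodicity of `u_n(z)` to that of the Jacobi coefficients. -/

set_option autoImplicit false
open Polynomial

namespace Pool.Agent.Work.MP_e056c9_an

section
variable {f : ℝ[X]} {α β : ℝ} {c : Fin (f.natDegree - 1) → ℝ} {L M : ℝ[X] →ₗ[ℝ] ℝ}

/-- `b_n` -/
noncomputable def bJ (L : ℝ[X] →ₗ[ℝ] ℝ) (P : ℕ → ℝ[X]) (n : ℕ) : ℝ :=
  L (X * P n ^ 2) / L (P n ^ 2)

/-- `a_{n+1}^2` -/
noncomputable def aJ (L : ℝ[X] →ₗ[ℝ] ℝ) (P : ℕ → ℝ[X]) (n : ℕ) : ℝ :=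
  L (P (n + 1) ^ 2) / L (P n ^ 2)

lemma L_X_sub (L : ℝ[X] →ₗ[ℝ] ℝ) (β z : ℝ) (p : ℝ[X]) :
    L ((X - C z) * p) = - (sg β z * LL L β z p) := by
  rw [LL_apply, ← mul_assoc, sg_mul_self, one_mul]
  have : (X - C z) * p = -((C z - X) * p) := by ring
  rw [this, map_neg]

lemma sg_abs (β z : ℝ) : |sg β z| = 1 := by unfold sg; split_ifs <;> simp

/-- key identity -/
lemma christoffel (hP : PosL α β L) {z : ℝ} (hz : z ≤ α ∨ β ≤ z) {n : ℕ} {p p' q : ℝ[X]}
    (hp : IsOP L n p) (hp' : IsOP L (n + 1) p') (hq : IsOP (LL L β z) n q) :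
    (X - C z) * q = p' - C (sg β z * uu L β n z) * p := by
  have hNN := hP.nn
  have hLpos : 0 < hh L n := hh_pos hNN (hP.posTo _)
  set g := (X - C z) * q - p' with hg
  have hmon : ((X - C z) * q).Monic := (monic_X_sub_C z).mul hq.monic
  have hdeg : ((X - C z) * q).natDegree = n + 1 := by
    rw [natDegree_mul (X_sub_C_ne_zero z) hq.monic.ne_zero, natDegree_X_sub_C, hq.deg]; ring
  have hgd : g.degree < (n + 1 : ℕ) := (hp'.pyth hmon hdeg).1
  set t := g.coeff n with ht
  have hkd : (g - C t * p).degree < n := by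
    have h1 : (C t * p).degree ≤ n := by
      refine (degree_mul_le _ _).trans ?_
      have e1 : (C t : ℝ[X]).degree ≤ 0 := degree_C_le
      have e2 : p.degree = n := by rw [degree_eq_natDegree hp.monic.ne_zero, hp.deg]
      calc (C t : ℝ[X]).degree + p.degree ≤ 0 + p.degree := by gcongr
        _ = n := by rw [zero_add, e2]
    have h2 : (g - C t * p).degree < (n + 1 : ℕ) := by
      refine lt_of_le_of_lt (degree_sub_le _ _) (max_lt hgd (lt_of_le_of_lt h1 ?_))
      exact_mod_cast Nat.lt_succ_self n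
    have h3 : (g - C t * p).coeff n = 0 := by
      have : p.coeff n = 1 := by rw [← hp.deg]; exact hp.monic.coeff_natDegree
      rw [coeff_sub, coeff_C_mul, this, mul_one, ← ht, sub_self]
    rw [degree_lt_iff_coeff_zero] at h2 ⊢
    intro m hm
    rcases Nat.eq_or_lt_of_le hm with rfl | hlt
    · exact h3
    · exact h2 m hlt
  have horth : ∀ r : ℝ[X], r.degree < n → L (g * r) = 0 := by
    intro r hr
    have e1 : g * r = (X - C z) * (q * r) - p' * r := by rw [hg]; ring
    rw [e1, map_sub, L_X_sub L β z, hq.orth r hr, hp'.orth r (lt_trans hr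
      (by exact_mod_cast Nat.lt_succ_self n))]
    simp
  have hk0 : g - C t * p = 0 := by
    by_contra hne
    have h1 := hP.pos _ hne
    have h2 : (g - C t * p) ^ 2 = g * (g - C t * p) - t • (p * (g - C t * p)) := by
      rw [smul_eq_C_mul]; ring
    rw [h2, map_sub, map_smul, horth _ hkd, hp.orth _ hkd] at h1
    simp at h1
  have hval : t = -(sg β z * uu L β n z) := by
    have h1 : L (g * p) = -(sg β z * hh (LL L β z) n) := by
      have e1 : g * p = (X - C z) * (q * p) - p' * p := by rw [hg]; ring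
      have e2 : q * p = q ^ 2 + q * (p - q) := by ring
      have e3 : L (p' * p) = 0 := hp'.orth p (by
        rw [degree_eq_natDegree hp.monic.ne_zero, hp.deg]; exact_mod_cast Nat.lt_succ_self n)
      rw [e1, map_sub, e3, L_X_sub L β z, e2, map_add,
        hq.orth _ (hq.pyth hp.monic hp.deg).1, hq.hh_eq (hP.nnz hz)]
      ring
    have h2 : L (g * p) = t * hh L n := by
      have : g * p = (g - C t * p) * p + t • p ^ 2 := by rw [smul_eq_C_mul]; ring
      rw [this, hk0, zero_mul, zero_add, map_smul, hp.hh_eq hNN, smul_eq_mul]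
    unfold uu
    rw [h2] at h1
    field_simp
    linear_combination h1
  have hge : g = C t * p := sub_eq_zero.1 hk0
  have : (X - C z) * q = p' + g := by rw [hg]; ring
  rw [this, hge, hval, C_neg]; ring

/-- three term recurrence -/
lemma three_term (hP : PosL α β L) {n : ℕ} {p₀ p p' : ℝ[X]}
    (hp₀ : IsOP L n p₀) (hp : IsOP L (n + 1) p) (hp' : IsOP L (n + 2) p') :
    p' = (X - C (L (X * p ^ 2) / L (p ^ 2))) * p - C (L (p ^ 2) / L (p₀ ^ 2)) * p₀ := by
  have hNN := hP.nn
  have hp2 : 0 < L (p ^ 2) := hP.pos p hp.monic.ne_zero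
  have hp₀2 : 0 < L (p₀ ^ 2) := hP.pos p₀ hp₀.monic.ne_zero
  set b := L (X * p ^ 2) / L (p ^ 2) with hb
  set a := L (p ^ 2) / L (p₀ ^ 2) with ha
  set g := (X - C b) * p - C a * p₀ - p' with hg
  have hmon : ((X - C b) * p).Monic := (monic_X_sub_C b).mul hp.monic
  have hdeg : ((X - C b) * p).natDegree = n + 2 := by
    rw [natDegree_mul (X_sub_C_ne_zero b) hp.monic.ne_zero, natDegree_X_sub_C, hp.deg]; ring
  have hpd : p.degree = (n + 1 : ℕ) := by rw [degree_eq_natDegree hp.monic.ne_zero, hp.deg]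
  have hp₀d : p₀.degree = n := by rw [degree_eq_natDegree hp₀.monic.ne_zero, hp₀.deg]
  have hgd : g.degree < (n + 2 : ℕ) := by
    have e1 : g = ((X - C b) * p - p') - C a * p₀ := by rw [hg]; ring
    rw [e1]
    refine lt_of_le_of_lt (degree_sub_le _ _) (max_lt (hp'.pyth hmon hdeg).1 ?_)
    refine lt_of_le_of_lt (degree_mul_le _ _) ?_
    have e1 : (C a : ℝ[X]).degree ≤ 0 := degree_C_le
    calc (C a : ℝ[X]).degree + p₀.degree ≤ 0 + p₀.degree := by gcongr
      _ = n := by rw [zero_add, hp₀d]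
      _ < _ := by exact_mod_cast (by omega)
  -- orthogonality
  have o1 : L (g * p) = 0 := by
    have e1 : g * p = X * p ^ 2 - b • p ^ 2 - a • (p * p₀) - p' * p := by
      rw [hg, smul_eq_C_mul, smul_eq_C_mul]; ring
    rw [e1, map_sub, map_sub, map_sub, map_smul, map_smul,
      hp.orth p₀ (by rw [hp₀d]; exact_mod_cast Nat.lt_succ_self n),
      hp'.orth p (by rw [hpd]; exact_mod_cast Nat.lt_succ_self (n + 1)), hb, smul_eq_mul, smul_eq_mul]
    field_simp
    ring
  have o2 : L (g * p₀) = 0 := by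
    have hm : (X * p₀).Monic := monic_X.mul hp₀.monic
    have hmd : (X * p₀).natDegree = n + 1 := by
      rw [natDegree_mul X_ne_zero hp₀.monic.ne_zero, natDegree_X, hp₀.deg]; ring
    have e1 : g * p₀ = p ^ 2 + p * (X * p₀ - p) - b • (p * p₀) - a • (p₀ ^ 2) - p' * p₀ := by
      rw [hg, smul_eq_C_mul, smul_eq_C_mul]; ring
    rw [e1, map_sub, map_sub, map_sub, map_add, map_smul, map_smul,
      hp.orth p₀ (by rw [hp₀d]; exact_mod_cast Nat.lt_succ_self n),
      hp'.orth p₀ (by rw [hp₀d]; exact_mod_cast (by omega)),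
      hp.orth _ (hp.pyth hm hmd).1, ha, smul_eq_mul, smul_eq_mul]
    field_simp
    ring
  have o3 : ∀ q : ℝ[X], q.degree < n → L (g * q) = 0 := by
    intro q hq
    have hXq : (X * q).degree < ((n + 1 : ℕ) : WithBot ℕ) := by
      by_cases hq0 : q = 0
      · rw [hq0, mul_zero, degree_zero]; exact WithBot.bot_lt_coe _
      · rw [degree_mul, degree_X]
        rw [degree_eq_natDegree hq0] at hq ⊢
        have hq' : q.natDegree < n := by exact_mod_cast hq
        have : 1 + q.natDegree < n + 1 := by omega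
        exact_mod_cast this
    have e1 : g * q = p * (X * q) - b • (p * q) - a • (p₀ * q) - p' * q := by
      rw [hg, smul_eq_C_mul, smul_eq_C_mul]; ring
    rw [e1, map_sub, map_sub, map_sub, map_smul, map_smul, hp.orth _ hXq,
      hp.orth q (lt_trans hq (by exact_mod_cast Nat.lt_succ_self n)), hp₀.orth q hq,
      hp'.orth q (lt_trans hq (by exact_mod_cast (by omega)))]
    simp
  have red : ∀ (m : ℕ) (r s : ℝ[X]), r.degree < (m + 1 : ℕ) → IsOP L m s →
      (r - C (r.coeff m) * s).degree < m := by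
    intro m r s hr hs
    have h1 : (C (r.coeff m) * s).degree ≤ m := by
      refine (degree_mul_le _ _).trans ?_
      have e1 : (C (r.coeff m) : ℝ[X]).degree ≤ 0 := degree_C_le
      have e2 : s.degree = m := by rw [degree_eq_natDegree hs.monic.ne_zero, hs.deg]
      calc (C (r.coeff m) : ℝ[X]).degree + s.degree ≤ 0 + s.degree := by gcongr
        _ = m := by rw [zero_add, e2]
    have h2 : (r - C (r.coeff m) * s).degree < (m + 1 : ℕ) := by
      refine lt_of_le_of_lt (degree_sub_le _ _) (max_lt hr (lt_of_le_of_lt h1 ?_))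
      exact_mod_cast Nat.lt_succ_self m
    have h3 : (r - C (r.coeff m) * s).coeff m = 0 := by
      have : s.coeff m = 1 := by rw [← hs.deg]; exact hs.monic.coeff_natDegree
      rw [coeff_sub, coeff_C_mul, this, mul_one, sub_self]
    rw [degree_lt_iff_coeff_zero] at h2 ⊢
    intro k hk
    rcases Nat.eq_or_lt_of_le hk with rfl | hlt
    · exact h3
    · exact h2 k hlt
  have o4 : ∀ q : ℝ[X], q.degree < (n + 1 : ℕ) → L (g * q) = 0 := by
    intro q hq
    have h1 := red n q p₀ hq hp₀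
    have e1 : g * q = g * (q - C (q.coeff n) * p₀) + (q.coeff n) • (g * p₀) := by
      rw [smul_eq_C_mul]; ring
    rw [e1, map_add, map_smul, o3 _ h1, o2]; simp
  have o5 : ∀ q : ℝ[X], q.degree < (n + 2 : ℕ) → L (g * q) = 0 := by
    intro q hq
    have h1 := red (n + 1) q p hq hp
    have e1 : g * q = g * (q - C (q.coeff (n + 1)) * p) + (q.coeff (n + 1)) • (g * p) := by
      rw [smul_eq_C_mul]; ring
    rw [e1, map_add, map_smul, o4 _ h1, o1]; simp
  have hg0 : g = 0 := by
    by_contra hne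
    have h1 := hP.pos g hne
    rw [pow_two, o5 g hgd] at h1
    exact lt_irrefl _ h1
  have : p' = (X - C b) * p - C a * p₀ - g := by rw [hg]; ring
  rw [this, hg0, sub_zero]

section
variable {P : ℕ → ℝ[X]} (hP : PosL α β L) (hop : ∀ n, IsOP L n (P n))
include hP hop

lemma P_eval_succ {z : ℝ} (hz : z ≤ α ∨ β ≤ z) (n : ℕ) :
    (P (n + 1)).eval z = sg β z * uu L β n z * (P n).eval z := by
  obtain ⟨q, hq⟩ := exists_op (hP.posToz hz n)
  have h1 := congrArg (eval z) (christoffel hP hz (hop n) (hop (n + 1)) hq)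
  rw [eval_mul, eval_sub, eval_X, eval_C, sub_self, zero_mul, eval_sub, eval_mul, eval_C] at h1
  linarith

lemma P_eval_ne {z : ℝ} (hz : z ≤ α ∨ β ≤ z) (n : ℕ) : (P n).eval z ≠ 0 := by
  induction n with
  | zero =>
    have h1 : P 0 = 1 := (hop 0).monic.natDegree_eq_zero.1 (hop 0).deg
    rw [h1]; simp
  | succ n ih =>
    rw [P_eval_succ hP hop hz n]
    have h1 : 0 < uu L β n z := div_pos (hh_pos (hP.nnz hz) (hP.posToz hz _))
      (hh_pos hP.nn (hP.posTo _))
    exact mul_ne_zero (mul_ne_zero (sg_ne β z) h1.ne') ih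

omit hop in
lemma uu_pos' {z : ℝ} (hz : z ≤ α ∨ β ≤ z) (n : ℕ) : 0 < uu L β n z :=
  div_pos (hh_pos (hP.nnz hz) (hP.posToz hz _)) (hh_pos hP.nn (hP.posTo _))

/-- the continued fraction relation -/
lemma aJ_eq {z : ℝ} (hz : z ≤ α ∨ β ≤ z) (n : ℕ) :
    aJ L P n = sg β z * uu L β n z * (z - bJ L P (n + 1) - sg β z * uu L β (n + 1) z) := by
  have h1 := congrArg (eval z) (three_term hP (hop n) (hop (n + 1)) (hop (n + 2)))
  rw [eval_sub, eval_mul, eval_mul, eval_sub, eval_X, eval_C, eval_C] at h1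
  rw [P_eval_succ hP hop hz (n + 1), P_eval_succ hP hop hz n] at h1
  have h2 := P_eval_ne hP hop hz n
  have h3 : L (P (n + 1) ^ 2) / L (P n ^ 2) = aJ L P n := rfl
  have h4 : L (X * P (n + 1) ^ 2) / L (P (n + 1) ^ 2) = bJ L P (n + 1) := rfl
  rw [h3, h4] at h1
  have h5 : aJ L P n * eval z (P n)
      = (sg β z * uu L β n z * (z - bJ L P (n + 1) - sg β z * uu L β (n + 1) z)) * eval z (P n) := by
    linear_combination h1
  exact mul_right_cancel₀ h2 h5

lemma bJ_zero {z : ℝ} (hz : z ≤ α ∨ β ≤ z) :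
    z - bJ L P 0 - sg β z * uu L β 0 z = 0 := by
  have h0 : P 0 = 1 := (hop 0).monic.natDegree_eq_zero.1 (hop 0).deg
  have h1 := P_eval_succ hP hop hz 0
  rw [h0, eval_one, mul_one, zero_add] at h1
  have h2 : P 1 = X - C (bJ L P 0) := by
    have hm := (hop 1).monic
    have hd := (hop 1).deg
    obtain ⟨a, ha⟩ : ∃ a : ℝ, P 1 = X + C a := by
      refine ⟨(P 1).coeff 0, ?_⟩
      exact hm.eq_X_add_C hd
    have h3 := (hop 1).orth 1 (by rw [degree_one]; exact_mod_cast one_pos)
    rw [mul_one, ha, map_add] at h3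
    have h4 : L (C a) = a * L 1 := by
      have : (C a : ℝ[X]) = a • 1 := by rw [smul_eq_C_mul, mul_one]
      rw [this, map_smul, smul_eq_mul]
    have h5 : 0 < L 1 := by
      have := hP.pos 1 one_ne_zero
      rwa [one_pow] at this
    rw [ha]
    have h6 : bJ L P 0 = -a := by
      unfold bJ
      rw [h0, one_pow, mul_one, div_eq_iff h5.ne']
      rw [h4] at h3
      linarith
    rw [h6, C_neg]; ring
  rw [h2, eval_sub, eval_X, eval_C] at h1
  linarith

end

end

end Pool.Agent.Work.MP_e056c9_an
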