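import Pool.Agent.Work.MP_e056c9_an.E1

/-! # Endgame: limit periodicity of the Jacobi coefficients. -/

set_option autoImplicit false
open Polynomial

namespace Pool.Agent.Work.MP_e056c9_an

section
variable {f : ℝ[X]} {α β : ℝ} {c : Fin (f.natDegree - 1) → ℝ} {L M : ℝ[X] →ₗ[ℝ] ℝ}
  (hC : Core f α β c L M) {P : ℕ → ℝ[X]} (hop : ∀ n, IsOP L n (P n))
include hC hop

/-- `r_n(z) = P_{n+1}(z)/P_n(z)` -/
noncomputable def rJ (L : ℝ[X] →ₗ[ℝ] ℝ) (β z : ℝ) (n : ℕ) : ℝ := sg β z * uu L β n z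

omit hC hop in
lemma rJ_sub_abs (z : ℝ) (n n' : ℕ) : |rJ L β z n - rJ L β z n'| = |uu L β n z - uu L β n' z| := by
  unfold rJ
  rw [← mul_sub, abs_mul, sg_abs, one_mul]

omit hop in
lemma rJ_abs {z : ℝ} (hz : z ≤ α ∨ β ≤ z) (n : ℕ) : |rJ L β z n| = uu L β n z := by
  unfold rJ
  rw [abs_mul, sg_abs, one_mul, abs_of_pos (hC.uu_pos n hz)]

lemma bJ_mem (n : ℕ) : α ≤ bJ L P n ∧ bJ L P n ≤ β := by
  have hlt := hC.hull.lt
  have hpos : 0 < L (P n ^ 2) := hC.pos.pos _ (hop n).monic.ne_zero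
  have h1 := hC.pos.nnz (z := α) (Or.inl le_rfl) (P n)
  have h2 := hC.pos.nnz (z := β) (Or.inr le_rfl) (P n)
  have hsα : sg β α = -1 := by unfold sg; rw [if_neg (not_le.2 hlt)]
  have hsβ : sg β β = 1 := by unfold sg; rw [if_pos le_rfl]
  rw [LL_apply, hsα] at h1
  rw [LL_apply, hsβ] at h2
  have e1 : L ((C α - X) * P n ^ 2) = α * L (P n ^ 2) - L (X * P n ^ 2) := by
    rw [sub_mul, map_sub, ← smul_eq_C_mul, map_smul, smul_eq_mul]
  have e2 : L ((C β - X) * P n ^ 2) = β * L (P n ^ 2) - L (X * P n ^ 2) := by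
    rw [sub_mul, map_sub, ← smul_eq_C_mul, map_smul, smul_eq_mul]
  rw [e1] at h1
  rw [e2] at h2
  unfold bJ
  constructor
  · rw [le_div_iff₀ hpos]; linarith
  · rw [div_le_iff₀ hpos]; linarith

lemma aJ_bound (n : ℕ) : 0 < aJ L P n ∧ aJ L P n ≤ (β - α) ^ 2 := by
  have hlt := hC.hull.lt
  refine ⟨div_pos (hC.pos.pos _ (hop _).monic.ne_zero) (hC.pos.pos _ (hop _).monic.ne_zero), ?_⟩
  have hsβ : sg β β = 1 := by unfold sg; rw [if_pos le_rfl]
  have hd : dd α β β = 0 := by unfold dd; rw [sub_self]; exact max_eq_left (by linarith)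
  have h1 := aJ_eq hC.pos hop (z := β) (Or.inr le_rfl) n
  rw [hsβ, one_mul, one_mul] at h1
  have h2 := hC.uu_bounds n (z := β) (Or.inr le_rfl)
  have h3 := hC.uu_bounds (n + 1) (z := β) (Or.inr le_rfl)
  have h4 := bJ_mem hC hop (n + 1)
  rw [hd] at h2 h3
  rw [h1]
  have h5 : β - bJ L P (n + 1) - uu L β (n + 1) β ≤ β - α := by linarith [h4.1, h3.1]
  calc uu L β n β * (β - bJ L P (n + 1) - uu L β (n + 1) β)
      ≤ uu L β n β * (β - α) := mul_le_mul_of_nonneg_left h5 h2.1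
    _ ≤ (β - α) * (β - α) := mul_le_mul_of_nonneg_right (by linarith [h2.2]) (by linarith)
    _ = _ := by ring

/-- the error term -/
lemma eJ_bound {z : ℝ} (hz : z ≤ α ∨ β ≤ z) (hdz : 0 < dd α β z) (n : ℕ) :
    |z - bJ L P n - rJ L β z n| ≤ (β - α) ^ 2 / dd α β z := by
  cases n with
  | zero =>
    have h1 := bJ_zero hC.pos hop hz
    have h2 : z - bJ L P 0 - rJ L β z 0 = 0 := h1
    rw [h2, abs_zero]
    positivity
  | succ n =>
    have h1 := aJ_eq hC.pos hop hz n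
    have h2 : aJ L P n = rJ L β z n * (z - bJ L P (n + 1) - rJ L β z (n + 1)) := h1
    have h3 := hC.uu_bounds n hz
    have h4 := aJ_bound hC hop n
    rw [le_div_iff₀ hdz]
    calc |z - bJ L P (n + 1) - rJ L β z (n + 1)| * dd α β z
        ≤ |z - bJ L P (n + 1) - rJ L β z (n + 1)| * |rJ L β z n| := by
          rw [rJ_abs hC hz n]
          exact mul_le_mul_of_nonneg_left h3.1 (abs_nonneg _)
      _ = |aJ L P n| := by rw [h2, abs_mul, mul_comm]
      _ = aJ L P n := abs_of_pos h4.1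
      _ ≤ _ := h4.2

omit hop in
lemma uu_close {z : ℝ} (hz : z ≤ α ∨ β ≤ z) {δ : ℝ} (hδ : 0 < δ) :
    ∃ ε : ℝ, 0 < ε ∧ ∀ n n' : ℕ, |Real.log (uu L β n z) - Real.log (uu L β n' z)| ≤ ε →
      |uu L β n z - uu L β n' z| ≤ δ := by
  have hlt := hC.hull.lt
  set R := dd α β z + (β - α) with hR
  have hRpos : 0 < R := by have := dd_nonneg hz; rw [hR]; linarith
  have hq : 0 < δ / R := div_pos hδ hRpos
  refine ⟨Real.log (1 + δ / R), Real.log_pos (by linarith), ?_⟩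
  have key : ∀ n n' : ℕ, |Real.log (uu L β n z) - Real.log (uu L β n' z)| ≤ Real.log (1 + δ / R) →
      uu L β n z - uu L β n' z ≤ δ := by
    intro n n' h
    have p1 := hC.uu_pos n hz
    have p2 := hC.uu_pos n' hz
    have h1 : Real.log (uu L β n z) ≤ Real.log ((1 + δ / R) * uu L β n' z) := by
      rw [Real.log_mul (by linarith) p2.ne']
      have := (abs_le.1 h).2
      linarith
    have h2 := (Real.log_le_log_iff p1 (by positivity)).1 h1
    have h3 := (hC.uu_bounds n' hz).2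
    have h4 : δ / R * uu L β n' z ≤ δ / R * R := mul_le_mul_of_nonneg_left h3 hq.le
    rw [div_mul_cancel₀ _ hRpos.ne'] at h4
    linarith
  intro n n' h
  rw [abs_le]
  constructor
  · have := key n' n (by rw [abs_sub_comm]; exact h)
    linarith
  · exact key n n' h

omit hop in
/-- there are points of `Z` far away -/
lemma exists_far (B : ℝ) : ∃ z ∈ ZS f c, z ≠ α ∧ z ≠ β ∧ B ≤ dd α β z ∧ 0 < dd α β z := by
  have h := hC.hull
  obtain ⟨j, hj⟩ := h.out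
  have hd0 : 0 < dd α β (f.eval (c j)) := by
    unfold dd
    rcases hj with h1 | h1
    · exact lt_max_of_lt_right (by linarith)
    · exact lt_max_of_lt_left (by linarith)
  obtain ⟨N, hN⟩ : ∃ N : ℕ, B ≤ 2 ^ N * dd α β (f.eval (c j)) := by
    obtain ⟨N, hN⟩ := pow_unbounded_of_one_lt (B / dd α β (f.eval (c j))) (one_lt_two : (1:ℝ) < 2)
    exact ⟨N, by rw [div_lt_iff₀ hd0] at hN; exact hN.le⟩
  have h1 := h.it_expand (h.val j) N
  have h2 : 0 < dd α β (it f N (f.eval (c j))) := lt_of_lt_of_le (by positivity) h1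
  refine ⟨it f N (f.eval (c j)), ⟨j, N, rfl⟩, ?_, ?_, by linarith, h2⟩
  · intro h3
    rw [(dd_eq_zero (h.it_out (h.val j) N) h.lt).2 (Or.inl h3)] at h2
    exact lt_irrefl _ h2
  · intro h3
    rw [(dd_eq_zero (h.it_out (h.val j) N) h.lt).2 (Or.inr h3)] at h2
    exact lt_irrefl _ h2

variable (hU : ∀ ε : ℝ, 0 < ε → ∀ z ∈ ZS f c, z ≠ α → z ≠ β → ∃ k : ℕ, ∀ n n' : ℕ,
  n ≡ n' [MOD f.natDegree ^ k] → |Real.log (uu L β n z) - Real.log (uu L β n' z)| ≤ ε)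
include hU

omit hop in
lemma rJ_per {z : ℝ} (hz : z ∈ ZS f c) (hzα : z ≠ α) (hzβ : z ≠ β) {δ : ℝ} (hδ : 0 < δ) :
    ∃ k : ℕ, ∀ n n' : ℕ, n ≡ n' [MOD f.natDegree ^ k] → |rJ L β z n - rJ L β z n'| ≤ δ := by
  obtain ⟨ε, hε, h⟩ := uu_close hC (hC.hull.ZS_inv.out z hz) hδ
  obtain ⟨k, hk⟩ := hU ε hε z hz hzα hzβ
  refine ⟨k, fun n n' hn => ?_⟩
  rw [rJ_sub_abs]
  exact h n n' (hk n n' hn)

theorem bJ_per {η : ℝ} (hη : 0 < η) :
    ∃ k : ℕ, ∀ n n' : ℕ, n ≡ n' [MOD f.natDegree ^ k] → |bJ L P n - bJ L P n'| ≤ η := by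
  have hlt := hC.hull.lt
  obtain ⟨z, hz, hzα, hzβ, hB, hd⟩ := exists_far hC (3 * (β - α) ^ 2 / η)
  have hzo := hC.hull.ZS_inv.out z hz
  obtain ⟨k, hk⟩ := rJ_per hC hU hz hzα hzβ (δ := η / 3) (by positivity)
  refine ⟨k, fun n n' hn => ?_⟩
  have h1 := eJ_bound hC hop hzo hd n
  have h2 := eJ_bound hC hop hzo hd n'
  have h3 := hk n n' hn
  have h4 : (β - α) ^ 2 / dd α β z ≤ η / 3 := by
    rw [div_le_iff₀ hη] at hB
    rw [div_le_div_iff₀ hd (by norm_num)]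
    linarith
  rw [abs_le] at h1 h2 h3 ⊢
  constructor <;> linarith [h1.1, h1.2, h2.1, h2.2, h3.1, h3.2]

theorem aJ_per {η : ℝ} (hη : 0 < η) :
    ∃ k : ℕ, ∀ n n' : ℕ, n ≡ n' [MOD f.natDegree ^ k] → |aJ L P n - aJ L P n'| ≤ η := by
  have hlt := hC.hull.lt
  obtain ⟨z, hz, hzα, hzβ, -, hd⟩ := exists_far hC 0
  have hzo := hC.hull.ZS_inv.out z hz
  set R := dd α β z + (β - α) with hR
  have hRpos : 0 < R := by rw [hR]; linarith
  set E := (β - α) ^ 2 / dd α β z with hE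
  have hEpos : 0 < E := by
    have : 0 < β - α := by linarith
    positivity
  set δ := η / (E + 2 * R) with hδdef
  have hδ : 0 < δ := by positivity
  obtain ⟨k₁, hk₁⟩ := rJ_per hC hU hz hzα hzβ hδ
  obtain ⟨k₂, hk₂⟩ := bJ_per hC hop hU hδ
  refine ⟨max k₁ k₂, fun n n' hn => ?_⟩
  have hn1 : n ≡ n' [MOD f.natDegree ^ k₁] :=
    hn.of_dvd (pow_dvd_pow _ (le_max_left _ _))
  have hn2 : n ≡ n' [MOD f.natDegree ^ k₂] :=
    hn.of_dvd (pow_dvd_pow _ (le_max_right _ _))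
  have e1 : aJ L P n = rJ L β z n * (z - bJ L P (n + 1) - rJ L β z (n + 1)) :=
    aJ_eq hC.pos hop hzo n
  have e2 : aJ L P n' = rJ L β z n' * (z - bJ L P (n' + 1) - rJ L β z (n' + 1)) :=
    aJ_eq hC.pos hop hzo n'
  have h1 := hk₁ n n' hn1
  have h2 := hk₁ (n + 1) (n' + 1) (hn1.add_right 1)
  have h3 := hk₂ (n + 1) (n' + 1) (hn2.add_right 1)
  have h4 := eJ_bound hC hop hzo hd (n + 1)
  have h5 : |rJ L β z n'| ≤ R := by
    rw [rJ_abs hC hzo]; exact (hC.uu_bounds n' hzo).2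
  have e3 : aJ L P n - aJ L P n' = (rJ L β z n - rJ L β z n') *
      (z - bJ L P (n + 1) - rJ L β z (n + 1)) + rJ L β z n' *
      (-(bJ L P (n + 1) - bJ L P (n' + 1)) - (rJ L β z (n + 1) - rJ L β z (n' + 1))) := by
    rw [e1, e2]; ring
  rw [e3]
  calc |(rJ L β z n - rJ L β z n') *
      (z - bJ L P (n + 1) - rJ L β z (n + 1)) + rJ L β z n' *
      (-(bJ L P (n + 1) - bJ L P (n' + 1)) - (rJ L β z (n + 1) - rJ L β z (n' + 1)))|
      ≤ |rJ L β z n - rJ L β z n'| * |z - bJ L P (n + 1) - rJ L β z (n + 1)|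
        + |rJ L β z n'| * |-(bJ L P (n + 1) - bJ L P (n' + 1))
          - (rJ L β z (n + 1) - rJ L β z (n' + 1))| := by
        refine (abs_add_le _ _).trans ?_
        rw [abs_mul, abs_mul]
    _ ≤ δ * E + R * (δ + δ) := by
        apply add_le_add
        · exact mul_le_mul h1 h4 (abs_nonneg _) hδ.le
        · apply mul_le_mul h5 _ (abs_nonneg _) hRpos.le
          refine (abs_sub _ _).trans ?_
          rw [abs_neg]
          exact add_le_add h3 h2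
    _ = η := by
        rw [hδdef]
        field_simp
        ring

end

/-- from limit periodicity to Bohr almost periodicity -/
lemma ap_of_per {d : ℕ} (hd : 2 ≤ d) (u : ℕ → ℝ)
    (h : ∀ ε : ℝ, 0 < ε → ∃ k : ℕ, ∀ n n' : ℕ, n ≡ n' [MOD d ^ k] → |u n - u n'| ≤ ε) :
    ∀ ε : ℝ, 0 < ε → ∃ L : ℕ, ∀ m : ℕ, ∃ τ : ℕ, m ≤ τ ∧ τ ≤ m + L ∧
      ∀ n : ℕ, |u (n + τ) - u n| ≤ ε := by
  intro ε hε
  obtain ⟨k, hk⟩ := h ε hε
  refine ⟨d ^ k, fun m => ?_⟩
  have hdk : 0 < d ^ k := by positivity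
  refine ⟨d ^ k * (m / d ^ k + 1), ?_, ?_, fun n => ?_⟩
  · exact (Nat.lt_mul_div_succ m hdk).le
  · rw [mul_add, mul_one]
    have := Nat.mul_div_le m (d ^ k)
    omega
  · apply hk
    have : n + d ^ k * (m / d ^ k + 1) ≡ n + 0 [MOD d ^ k] := by
      apply Nat.ModEq.add_left
      exact (Nat.modEq_zero_iff_dvd.2 (dvd_mul_right _ _))
    simp

end Pool.Agent.Work.MP_e056c9_an
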