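import Mathlib

set_option autoImplicit false

namespace Pool.Agent.BJ

open Polynomial Filter Topology

/-- the filled Julia set as in the frozen statement -/
def filled (f : ℂ[X]) : Set ℂ :=
  {z : ℂ | Bornology.IsBounded (Set.range (fun n : ℕ => (fun w : ℂ => f.eval w)^[n] z))}

theorem exists_escape_radius (f : ℂ[X]) (hd : 2 ≤ f.natDegree) :
    ∃ R : ℝ, 0 < R ∧ ∀ z : ℂ, R ≤ ‖z‖ → 2 * ‖z‖ ≤ ‖f.eval z‖ := by
  classical
  set g := f.divX with hg
  have hdg : 0 < g.degree := by
    rw [← natDegree_pos_iff_degree_pos]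
    have : g.natDegree = f.natDegree - 1 := natDegree_divX_eq_natDegree_tsub_one
    omega
  have ht : Tendsto (fun z : ℂ => ‖g.eval z‖) (Bornology.cobounded ℂ) atTop :=
    g.tendsto_norm_atTop hdg tendsto_norm_cobounded_atTop
  have h3 : ∀ᶠ z in Bornology.cobounded ℂ, 3 ≤ ‖g.eval z‖ := ht.eventually_ge_atTop 3
  have h4 : ∀ᶠ z in Bornology.cobounded ℂ, ‖f.coeff 0‖ ≤ ‖z‖ :=
    (tendsto_norm_cobounded_atTop (E := ℂ)).eventually_ge_atTop _
  have h5 := h3.and h4
  rw [← comap_norm_atTop] at h5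
  obtain ⟨S, hS, hS2⟩ := (Filter.mem_comap.1 h5)
  obtain ⟨R, hR⟩ := Filter.mem_atTop_sets.1 hS
  refine ⟨max R 1, lt_max_of_lt_right one_pos, fun z hz => ?_⟩
  have hz1 : R ≤ ‖z‖ := le_trans (le_max_left _ _) hz
  have h6 := hS2 (show z ∈ norm ⁻¹' S from hR _ hz1)
  obtain ⟨h7, h8⟩ := h6
  have h9 : f.eval z = g.eval z * z + f.coeff 0 := by
    conv_lhs => rw [← divX_mul_X_add f]
    simp [hg]
  rw [h9]
  have h10 : ‖g.eval z * z‖ - ‖f.coeff 0‖ ≤ ‖g.eval z * z + f.coeff 0‖ := by
    have := norm_sub_norm_le (g.eval z * z) (-(f.coeff 0))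
    rw [norm_neg, sub_neg_eq_add] at this
    exact this
  have h11 : 3 * ‖z‖ ≤ ‖g.eval z * z‖ := by
    rw [norm_mul]
    exact mul_le_mul_of_nonneg_right h7 (norm_nonneg _)
  linarith

section
variable {f : ℂ[X]} {R : ℝ}

theorem iter_escape (hR0 : 0 < R) (hR : ∀ z : ℂ, R ≤ ‖z‖ → 2 * ‖z‖ ≤ ‖f.eval z‖)
    {z : ℂ} (hz : R ≤ ‖z‖) (n : ℕ) :
    2 ^ n * ‖z‖ ≤ ‖(fun w : ℂ => f.eval w)^[n] z‖ := by
  induction n with
  | zero => simp
  | succ n ih =>
    rw [Function.iterate_succ_apply']
    have h1 : R ≤ ‖(fun w : ℂ => f.eval w)^[n] z‖ := by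
      have : (1:ℝ) ≤ 2 ^ n := one_le_pow₀ (by norm_num)
      nlinarith [norm_nonneg z]
    have h2 := hR _ h1
    calc 2 ^ (n+1) * ‖z‖ = 2 * (2 ^ n * ‖z‖) := by ring
      _ ≤ 2 * ‖(fun w : ℂ => f.eval w)^[n] z‖ := by linarith
      _ ≤ _ := h2

theorem mem_filled_iff (hR0 : 0 < R) (hR : ∀ z : ℂ, R ≤ ‖z‖ → 2 * ‖z‖ ≤ ‖f.eval z‖) (z : ℂ) :
    z ∈ filled f ↔ ∀ n : ℕ, ‖(fun w : ℂ => f.eval w)^[n] z‖ < R := by
  constructor
  · intro h n
    by_contra hn
    push Not at hn
    have hb : Bornology.IsBounded (Set.range (fun n : ℕ => (fun w : ℂ => f.eval w)^[n] z)) := h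
    obtain ⟨C, hC⟩ := hb.exists_norm_le
    have h1 : ∀ k : ℕ, 2 ^ k * R ≤ C := by
      intro k
      have h2 := iter_escape hR0 hR hn k
      rw [← Function.iterate_add_apply] at h2
      have h3 := hC _ (Set.mem_range_self (k + n))
      have h4 : (2:ℝ) ^ k * R ≤ 2 ^ k * ‖(fun w : ℂ => f.eval w)^[n] z‖ :=
        mul_le_mul_of_nonneg_left hn (by positivity)
      exact le_trans h4 (le_trans h2 h3)
    have h5 : Tendsto (fun k : ℕ => (2:ℝ) ^ k * R) atTop atTop :=
      (tendsto_pow_atTop_atTop_of_one_lt (by norm_num : (1:ℝ) < 2)).atTop_mul_const hR0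
    obtain ⟨k, hk⟩ := (h5.eventually_gt_atTop C).exists
    exact absurd (h1 k) (not_le.2 hk)
  · intro h
    show Bornology.IsBounded (Set.range (fun n : ℕ => (fun w : ℂ => f.eval w)^[n] z))
    rw [isBounded_iff_forall_norm_le]
    refine ⟨R, ?_⟩
    rintro _ ⟨n, rfl⟩
    exact (h n).le

theorem not_mem_filled_tendsto (hR0 : 0 < R)
    (hR : ∀ z : ℂ, R ≤ ‖z‖ → 2 * ‖z‖ ≤ ‖f.eval z‖) {z : ℂ} (hz : z ∉ filled f) :
    Tendsto (fun n : ℕ => ‖(fun w : ℂ => f.eval w)^[n] z‖) atTop atTop := by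
  rw [mem_filled_iff hR0 hR] at hz
  push Not at hz
  obtain ⟨n, hn⟩ := hz
  have h5 : Tendsto (fun k : ℕ => (2:ℝ) ^ k * R) atTop atTop :=
    (tendsto_pow_atTop_atTop_of_one_lt (by norm_num : (1:ℝ) < 2)).atTop_mul_const hR0
  have h6 : Tendsto (fun k : ℕ => ‖(fun w : ℂ => f.eval w)^[k + n] z‖) atTop atTop := by
    refine tendsto_atTop_mono (fun k => ?_) h5
    have h2 := iter_escape hR0 hR hn k
    rw [← Function.iterate_add_apply] at h2
    exact le_trans (mul_le_mul_of_nonneg_left hn (by positivity)) h2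
  exact (tendsto_add_atTop_iff_nat n).1 h6

theorem filled_bounded (hR0 : 0 < R) (hR : ∀ z : ℂ, R ≤ ‖z‖ → 2 * ‖z‖ ≤ ‖f.eval z‖) :
    ∀ z ∈ filled f, ‖z‖ < R := by
  intro z hz
  exact (mem_filled_iff hR0 hR z).1 hz 0

theorem filled_isClosed (hd : 2 ≤ f.natDegree) : IsClosed (filled f) := by
  obtain ⟨R, hR0, hR⟩ := exists_escape_radius f hd
  have h1 : filled f = ⋂ n : ℕ, {z | ‖(fun w : ℂ => f.eval w)^[n] z‖ ≤ R} := by
    ext z
    rw [mem_filled_iff hR0 hR, Set.mem_iInter]
    constructor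
    · intro h n; exact (h n).le
    · intro h n
      have hn : ‖(fun w : ℂ => f.eval w)^[n] z‖ ≤ R := h n
      rcases lt_or_eq_of_le hn with h1 | h1
      · exact h1
      · exfalso
        have h2 := hR _ h1.ge
        have h3 : ‖(fun w : ℂ => f.eval w)^[n+1] z‖ ≤ R := h (n+1)
        simp only [Function.iterate_succ_apply'] at h3
        linarith
  rw [h1]
  refine isClosed_iInter (fun n => ?_)
  refine isClosed_le ?_ continuous_const
  exact (Continuous.iterate f.continuous n).norm

theorem filled_isCompact (hd : 2 ≤ f.natDegree) : IsCompact (filled f) := by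
  obtain ⟨R, hR0, hR⟩ := exists_escape_radius f hd
  refine Metric.isCompact_of_isClosed_isBounded (filled_isClosed hd) ?_
  rw [isBounded_iff_forall_norm_le]
  exact ⟨R, fun z hz => (filled_bounded hR0 hR z hz).le⟩

theorem eval_mem_filled_iff (hd : 2 ≤ f.natDegree) (z : ℂ) :
    f.eval z ∈ filled f ↔ z ∈ filled f := by
  obtain ⟨R, hR0, hR⟩ := exists_escape_radius f hd
  rw [mem_filled_iff hR0 hR, mem_filled_iff hR0 hR]
  constructor
  · intro h n
    rcases n with _ | n
    · simp only [Function.iterate_zero, id_eq]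
      by_contra h1
      push Not at h1
      have h2 := hR z h1
      have h3 := h 0
      simp only [Function.iterate_zero, id_eq] at h3
      linarith
    · rw [Function.iterate_succ_apply]; exact h n
  · intro h n
    have := h (n+1)
    rw [Function.iterate_succ_apply] at this
    exact this

theorem filled_nonempty (hd : 2 ≤ f.natDegree) : (filled f).Nonempty := by
  have h1 : (f - X).degree ≠ 0 := by
    have h2 : (f - X).degree = f.degree := by
      apply degree_sub_eq_left_of_degree_lt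
      rw [degree_X]
      have : f ≠ 0 := by rintro rfl; simp at hd
      rw [degree_eq_natDegree this]
      exact_mod_cast hd
    rw [h2]
    have : f ≠ 0 := by rintro rfl; simp at hd
    rw [degree_eq_natDegree this]
    have : (f.natDegree : WithBot ℕ) ≠ (0:ℕ) := by
      norm_cast; omega
    simpa using this
  obtain ⟨z, hz⟩ := Complex.isAlgClosed.exists_root (f - X) h1
  have hz1 : f.eval z = z := by
    have := hz
    simp only [IsRoot.def, eval_sub, eval_X] at this
    exact sub_eq_zero.1 this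
  refine ⟨z, ?_⟩
  show Bornology.IsBounded (Set.range (fun n : ℕ => (fun w : ℂ => f.eval w)^[n] z))
  have h3 : ∀ n : ℕ, (fun w : ℂ => f.eval w)^[n] z = z := by
    intro n
    induction n with
    | zero => rfl
    | succ n ih => rw [Function.iterate_succ_apply', ih]; exact hz1
  have h4 : (Set.range fun n : ℕ => (fun w : ℂ => f.eval w)^[n] z) ⊆ {z} := by
    rintro _ ⟨n, rfl⟩
    simp [h3]
  exact Bornology.IsBounded.subset (Bornology.isBounded_singleton) h4

/-- if the Julia set is real, then the filled Julia set is real -/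
theorem filled_real (hd : 2 ≤ f.natDegree)
    (hJ : frontier (filled f) ⊆ Set.range ((↑) : ℝ → ℂ)) :
    filled f ⊆ Set.range ((↑) : ℝ → ℂ) := by
  obtain ⟨R, hR0, hR⟩ := exists_escape_radius f hd
  intro z hz
  by_contra hzr
  have him : z.im ≠ 0 := by
    intro h
    exact hzr ⟨z.re, by apply Complex.ext <;> simp [h]⟩
  -- the open half plane containing z
  set U : Set ℂ := {w : ℂ | 0 < w.im * z.im} with hU
  have hUc : Convex ℝ U := by
    intro a ha b hb s t hs ht hst
    simp only [hU, Set.mem_ofPred_eq] at ha hb ⊢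
    have h1 : (s • a + t • b).im = s * a.im + t * b.im := by simp
    rw [h1]
    rcases eq_or_lt_of_le hs with hs | hs
    · have : t = 1 := by linarith
      subst this; rw [← hs]; nlinarith
    · nlinarith [mul_pos hs ha, mul_nonneg ht hb.le]
  have hUo : IsOpen U := by
    have : Continuous fun w : ℂ => w.im * z.im := Complex.continuous_im.mul continuous_const
    exact isOpen_lt continuous_const this
  have hfr : ∀ w ∈ U, w ∉ frontier (filled f) := by
    intro w hw hwf
    obtain ⟨x, rfl⟩ := hJ hwf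
    simp [hU] at hw
  have hcov : U ⊆ interior (filled f) ∪ (filled f)ᶜ := by
    intro w hw
    by_cases hwf : w ∈ filled f
    · left
      by_contra hwi
      exact hfr w hw ⟨subset_closure hwf, hwi⟩
    · exact Or.inr hwf
  have hsub : U ⊆ interior (filled f) := by
    refine hUc.isPreconnected.subset_left_of_subset_union isOpen_interior
      (filled_isClosed hd).isOpen_compl ?_ hcov ?_
    · rw [Set.disjoint_left]
      intro w hw hw2
      exact hw2 (interior_subset hw)
    · refine ⟨z, ?_, ?_⟩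
      · simp only [hU, Set.mem_ofPred_eq]
        exact mul_self_pos.2 him
      · by_contra hwi
        have : z ∈ frontier (filled f) := ⟨subset_closure hz, hwi⟩
        exact hzr (hJ this)
  -- a far point in U
  have hfar : (⟨0, (R / |z.im|) * z.im⟩ : ℂ) ∈ U := by
    simp only [hU, Set.mem_ofPred_eq]
    have : 0 < |z.im| := abs_pos.2 him
    have h2 : 0 < z.im * z.im := mul_self_pos.2 him
    have h3 : R / |z.im| * z.im * z.im = (R / |z.im|) * (z.im * z.im) := by ring
    rw [h3]
    positivity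
  have h1 := filled_bounded hR0 hR _ (interior_subset (hsub hfar))
  have h2 : ‖(⟨0, (R / |z.im|) * z.im⟩ : ℂ)‖ = R := by
    have h3 : (⟨0, (R / |z.im|) * z.im⟩ : ℂ) = ((R / |z.im|) * z.im : ℝ) * Complex.I := by
      apply Complex.ext <;> simp
    rw [h3, norm_mul, Complex.norm_I, mul_one, Complex.norm_real, Real.norm_eq_abs, abs_mul,
      abs_div, abs_abs, abs_of_pos hR0, div_mul_cancel₀]
    exact (abs_pos.2 him).ne'
  linarith

theorem interior_empty_of_real {S : Set ℂ} (hS : S ⊆ Set.range ((↑) : ℝ → ℂ)) :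
    interior S = ∅ := by
  rw [Set.eq_empty_iff_forall_notMem]
  intro z hz
  rw [mem_interior_iff_mem_nhds, Metric.mem_nhds_iff] at hz
  obtain ⟨ε, hε, hb⟩ := hz
  have h1 : z + (ε/2 : ℝ) * Complex.I ∈ Metric.ball z ε := by
    rw [Metric.mem_ball, dist_eq_norm, add_sub_cancel_left, norm_mul, Complex.norm_I, mul_one,
      Complex.norm_real, Real.norm_eq_abs, abs_of_pos (by positivity)]
    linarith
  obtain ⟨x, hx⟩ := hS (hb h1)
  obtain ⟨y, hy⟩ := hS (hb (Metric.mem_ball_self hε))
  rw [← hy] at hx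
  have := congrArg Complex.im hx
  simp at this
  linarith

theorem frontier_eq_filled (hd : 2 ≤ f.natDegree)
    (hJ : frontier (filled f) ⊆ Set.range ((↑) : ℝ → ℂ)) :
    frontier (filled f) = filled f := by
  have h1 := filled_real hd hJ
  rw [(filled_isClosed hd).frontier_eq, interior_empty_of_real h1, Set.sdiff_empty]

end

end Pool.Agent.BJ
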