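import Mathlib
import Pool.Agent.Work.MP_e056c9_an.S1

set_option autoImplicit false

namespace Pool.Agent.BJ

open Polynomial Filter Topology

/-- fibers of a polynomial over a finite totally invariant set -/
theorem filled_infinite {f : ℂ[X]} (hd : 2 ≤ f.natDegree) : (filled f).Infinite := by
  classical
  intro hfin
  have hf0 : f ≠ 0 := by rintro rfl; simp at hd
  have hne : ∀ y : ℂ, f - C y ≠ 0 := by
    intro y h
    have h1 : f = C y := sub_eq_zero.1 h
    rw [h1, natDegree_C] at hd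
    omega
  have hdeg : ∀ y : ℂ, (f - C y).natDegree = f.natDegree := fun y => natDegree_sub_C
  -- surjectivity
  have hsurj : ∀ y ∈ filled f, ∃ x ∈ filled f, f.eval x = y := by
    intro y hy
    have h1 : (f - C y).degree ≠ 0 := by
      rw [degree_eq_natDegree (hne y), hdeg]
      have : (f.natDegree : WithBot ℕ) ≠ (0:ℕ) := by norm_cast; omega
      simpa using this
    obtain ⟨x, hx⟩ := Complex.isAlgClosed.exists_root (f - C y) h1
    have hx1 : f.eval x = y := by
      have := hx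
      simp only [IsRoot.def, eval_sub, eval_C] at this
      exact sub_eq_zero.1 this
    refine ⟨x, ?_, hx1⟩
    rw [← eval_mem_filled_iff hd, hx1]; exact hy
  have hinj : Set.InjOn (fun z => f.eval z) (filled f) := by
    have hm : Set.MapsTo (fun z => f.eval z) (filled f) (filled f) := fun z hz =>
      (eval_mem_filled_iff hd z).2 hz
    have hs : Set.SurjOn (fun z => f.eval z) (filled f) (filled f) := by
      intro y hy
      obtain ⟨x, hx, hxy⟩ := hsurj y hy
      exact ⟨x, hx, hxy⟩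
    have h1 : Set.ncard (filled f) ≤ Set.ncard ((fun z => f.eval z) '' (filled f)) :=
      Set.ncard_le_ncard hs (hfin.image _)
    have h2 := Set.ncard_image_le (f := fun z => f.eval z) hfin
    exact Set.injOn_of_ncard_image_eq (le_antisymm h2 h1) hfin
  -- each fiber is a single multiple root
  have hfib : ∀ x ∈ filled f, f - C (f.eval x) = C f.leadingCoeff * (X - C x) ^ f.natDegree := by
    intro x hx
    have h1 : (f - C (f.eval x)).Splits := IsAlgClosed.splits _
    have h2 : ∀ z ∈ (f - C (f.eval x)).roots, z = x := by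
      intro z hz
      rw [mem_roots (hne _)] at hz
      have hz1 : f.eval z = f.eval x := by
        have := hz
        simp only [IsRoot.def, eval_sub, eval_C] at this
        exact sub_eq_zero.1 this
      have hzJ : z ∈ filled f := by
        rw [← eval_mem_filled_iff hd, hz1, eval_mem_filled_iff hd]; exact hx
      exact hinj hzJ hx hz1
    have h3 : (f - C (f.eval x)).roots = Multiset.replicate f.natDegree x := by
      rw [Multiset.eq_replicate]
      refine ⟨?_, h2⟩
      rw [← hdeg (f.eval x)]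
      exact (splits_iff_card_roots.1 h1)
    have h4 := h1.eq_prod_roots
    rw [h3, Multiset.map_replicate, Multiset.prod_replicate] at h4
    rw [h4]
    congr 2
    have h5 : (f - C (f.eval x)).leadingCoeff = f.leadingCoeff := by
      apply leadingCoeff_sub_of_degree_lt
      refine lt_of_le_of_lt degree_C_le ?_
      rw [degree_eq_natDegree hf0]
      have : (0:ℕ) < f.natDegree := by omega
      exact_mod_cast this
    exact h5
  -- the filled set is a singleton
  obtain ⟨x0, hx0⟩ := filled_nonempty hd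
  have huniq : ∀ x ∈ filled f, x = x0 := by
    intro x hx
    have h1 := congrArg derivative (hfib x hx)
    have h2 := congrArg derivative (hfib x0 hx0)
    simp only [derivative_sub, derivative_C, sub_zero] at h1 h2
    have h3 := h1.symm.trans h2
    have h4 := congrArg (fun p => p.eval x) h3
    simp only [derivative_mul, derivative_C, zero_mul, zero_add, derivative_X_sub_C_pow,
      eval_mul, eval_C, eval_pow, eval_sub, eval_X, sub_self] at h4
    rw [zero_pow (by omega), mul_zero, mul_zero] at h4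
    have hlc : f.leadingCoeff ≠ 0 := leadingCoeff_ne_zero.2 hf0
    have hdn : (f.natDegree : ℂ) ≠ 0 := by
      norm_cast; omega
    have h5 : (x - x0) ^ (f.natDegree - 1) = 0 := by
      have h6 := h4.symm
      rcases mul_eq_zero.1 h6 with h7 | h7
      · exact absurd h7 hlc
      · rcases mul_eq_zero.1 h7 with h8 | h8
        · exact absurd h8 hdn
        · exact h8
    exact sub_eq_zero.1 (pow_eq_zero_iff (by omega) |>.1 h5)
  have hfx0 : f.eval x0 = x0 := huniq _ ((eval_mem_filled_iff hd x0).2 hx0)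
  -- nearby points are in the filled set
  set a := ‖f.leadingCoeff‖ with ha
  have ha0 : 0 < a := norm_pos_iff.2 (leadingCoeff_ne_zero.2 hf0)
  have hstep : ∀ z : ℂ, ‖z - x0‖ ≤ min 1 (1/a) → ‖f.eval z - x0‖ ≤ ‖z - x0‖ := by
    intro z hz
    have h1 := congrArg (fun p => p.eval z) (hfib x0 hx0)
    simp only [eval_sub, eval_C, hfx0, eval_mul, eval_pow, eval_X] at h1
    rw [h1, norm_mul, norm_pow, ← ha]
    have hz1 : ‖z - x0‖ ≤ 1 := le_trans hz (min_le_left _ _)
    have hz2 : ‖z - x0‖ ≤ 1/a := le_trans hz (min_le_right _ _)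
    have h2 : ‖z - x0‖ ^ f.natDegree = ‖z - x0‖ ^ (f.natDegree - 2) * ‖z - x0‖ * ‖z - x0‖ := by
      rw [mul_assoc, ← pow_two, ← pow_add]
      congr 1; omega
    rw [h2]
    have h3 : ‖z - x0‖ ^ (f.natDegree - 2) ≤ 1 := pow_le_one₀ (norm_nonneg _) hz1
    have h4 : a * ‖z - x0‖ ≤ 1 := by
      calc a * ‖z - x0‖ ≤ a * (1/a) := mul_le_mul_of_nonneg_left hz2 ha0.le
        _ = 1 := by field_simp
    have h5 : 0 ≤ ‖z - x0‖ := norm_nonneg _
    calc a * (‖z - x0‖ ^ (f.natDegree - 2) * ‖z - x0‖ * ‖z - x0‖)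
        = (a * ‖z - x0‖) * ‖z - x0‖ ^ (f.natDegree - 2) * ‖z - x0‖ := by ring
      _ ≤ 1 * 1 * ‖z - x0‖ := by gcongr
      _ = ‖z - x0‖ := by ring
  have hball : Metric.closedBall x0 (min 1 (1/a)) ⊆ filled f := by
    intro z hz
    rw [mem_closedBall_iff_norm] at hz
    have h1 : ∀ n : ℕ, ‖(fun w : ℂ => f.eval w)^[n] z - x0‖ ≤ min 1 (1/a) := by
      intro n
      induction n with
      | zero => exact hz
      | succ n ih =>
        rw [Function.iterate_succ_apply']
        exact le_trans (hstep _ ih) ih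
    show Bornology.IsBounded (Set.range (fun n : ℕ => (fun w : ℂ => f.eval w)^[n] z))
    rw [isBounded_iff_forall_norm_le]
    refine ⟨1 + ‖x0‖, ?_⟩
    rintro _ ⟨n, rfl⟩
    have h2 := h1 n
    have h3 : ‖(fun w : ℂ => f.eval w)^[n] z‖ ≤ ‖(fun w : ℂ => f.eval w)^[n] z - x0‖ + ‖x0‖ := by
      have := norm_add_le ((fun w : ℂ => f.eval w)^[n] z - x0) x0
      rwa [sub_add_cancel] at this
    have h4 := min_le_left (1:ℝ) (1/a)
    show ‖(fun w : ℂ => f.eval w)^[n] z‖ ≤ 1 + ‖x0‖
    linarith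
  have hpos : 0 < min (1:ℝ) (1/a) := by positivity
  have h1 : x0 + (min 1 (1/a) : ℝ) ∈ filled f := by
    apply hball
    rw [mem_closedBall_iff_norm, add_sub_cancel_left, Complex.norm_real, Real.norm_eq_abs,
      abs_of_pos hpos]
  have h2 := huniq _ h1
  have h3 : ((min 1 (1/a) : ℝ) : ℂ) = 0 := by
    have := h2
    exact add_eq_left.1 this
  rw [Complex.ofReal_eq_zero] at h3
  linarith

/-- a polynomial mapping infinitely many reals to reals is real -/
theorem real_of_infinite {f : ℂ[X]} {S : Set ℂ} (hS : S.Infinite)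
    (hSr : S ⊆ Set.range ((↑) : ℝ → ℂ)) (hf : ∀ z ∈ S, f.eval z ∈ Set.range ((↑) : ℝ → ℂ)) :
    ∃ F : ℝ[X], F.map (algebraMap ℝ ℂ) = f := by
  have h1 : f.map (starRingEnd ℂ) = f := by
    apply Polynomial.eq_of_infinite_eval_eq
    refine hS.mono ?_
    intro z hz
    obtain ⟨x, rfl⟩ := hSr hz
    obtain ⟨y, hy⟩ := hf _ hz
    show (f.map (starRingEnd ℂ)).eval (x:ℂ) = f.eval (x:ℂ)
    have h2 : (f.map (starRingEnd ℂ)).eval (x:ℂ) = (starRingEnd ℂ) (f.eval (x:ℂ)) := by
      have h3 : (x:ℂ) = (starRingEnd ℂ) (x:ℂ) := by simp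
      conv_lhs => rw [h3]
      rw [eval_map_apply]
    rw [h2, ← hy]
    simp
  have h2 : f ∈ lifts (algebraMap ℝ ℂ) := by
    rw [lifts_iff_coeff_lifts]
    intro n
    have h3 := congrArg (fun p => p.coeff n) h1
    simp only [coeff_map] at h3
    obtain ⟨r, hr⟩ := Complex.conj_eq_iff_real.1 h3
    exact ⟨r, hr.symm⟩
  rw [mem_lifts] at h2
  exact h2

/-- the structure extracted from the frozen hypotheses -/
structure RealJulia (f : ℝ[X]) (K : Set ℝ) : Prop where
  deg : 2 ≤ f.natDegree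
  cpt : IsCompact K
  inf : K.Infinite
  inv : ∀ x, f.eval x ∈ K ↔ x ∈ K
  real : ∀ y ∈ K, ∀ z : ℂ, (f.map (algebraMap ℝ ℂ)).eval z = y → ∃ x : ℝ, z = x
  esc : ∀ z : ℂ, (∀ x ∈ K, z ≠ x) →
    Tendsto (fun n : ℕ => ‖(fun w : ℂ => (f.map (algebraMap ℝ ℂ)).eval w)^[n] z‖) atTop atTop
  bdd : ∀ x : ℝ, (∃ C : ℝ, ∀ n : ℕ, |(fun w : ℝ => f.eval w)^[n] x| ≤ C) → x ∈ K
  noint : ∀ a b : ℝ, a < b → ¬ Set.Icc a b ⊆ K

theorem iter_map (f : ℝ[X]) (x : ℝ) (n : ℕ) :
    (fun w : ℂ => (f.map (algebraMap ℝ ℂ)).eval w)^[n] (x:ℂ)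
      = (((fun w : ℝ => f.eval w)^[n] x : ℝ) : ℂ) := by
  induction n with
  | zero => rfl
  | succ n ih =>
    rw [Function.iterate_succ_apply', ih, Function.iterate_succ_apply']
    have := eval_map_apply (f := algebraMap ℝ ℂ) (p := f)
      ((fun w : ℝ => f.eval w)^[n] x)
    simpa using this

theorem realJulia_of_frozen {f : ℂ[X]} (hd : 2 ≤ f.natDegree) {J : Set ℂ}
    (hJ : J = frontier {z : ℂ | Bornology.IsBounded
            (Set.range (fun n : ℕ => (fun w : ℂ => f.eval w)^[n] z))})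
    (hr : J ⊆ Set.range ((↑) : ℝ → ℂ)) (htd : IsTotallyDisconnected J) :
    ∃ F : ℝ[X], F.map (algebraMap ℝ ℂ) = f ∧ RealJulia F {x : ℝ | (x:ℂ) ∈ J} := by
  have hJ1 : J = filled f := by
    rw [hJ]
    exact frontier_eq_filled hd (by rw [hJ] at hr; exact hr)
  have hreal : filled f ⊆ Set.range ((↑) : ℝ → ℂ) := by rw [← hJ1]; exact hr
  obtain ⟨F, hF⟩ := real_of_infinite (filled_infinite hd) hreal
    (fun z hz => hreal ((eval_mem_filled_iff hd z).2 hz))
  have hdF : F.natDegree = f.natDegree := by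
    rw [← hF, natDegree_map_eq_of_injective (algebraMap ℝ ℂ).injective]
  obtain ⟨R, hR0, hR⟩ := exists_escape_radius f hd
  have hK : {x : ℝ | (x:ℂ) ∈ J} = ((↑) : ℝ → ℂ) ⁻¹' (filled f) := by
    rw [hJ1]; rfl
  have himg : ((↑) : ℝ → ℂ) '' {x : ℝ | (x:ℂ) ∈ J} = filled f := by
    rw [hK, Set.image_preimage_eq_inter_range, Set.inter_eq_left]
    exact hreal
  refine ⟨F, hF, ⟨by omega, ?_, ?_, ?_, ?_, ?_, ?_, ?_⟩⟩
  · rw [hK]
    exact Complex.isometry_ofReal.isClosedEmbedding.isCompact_preimage (filled_isCompact hd)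
  · intro hfin
    have := hfin.image ((↑) : ℝ → ℂ)
    rw [himg] at this
    exact filled_infinite hd this
  · intro x
    have h1 : ((F.eval x : ℝ) : ℂ) = f.eval (x:ℂ) := by
      rw [← hF]
      have := eval_map_apply (f := algebraMap ℝ ℂ) (p := F) x
      simpa using this.symm
    rw [hK]
    simp only [Set.mem_preimage]
    rw [h1, eval_mem_filled_iff hd]
  · intro y hy z hz
    rw [hF] at hz
    rw [hK] at hy
    have h1 : z ∈ filled f := by
      rw [← eval_mem_filled_iff hd, hz]; exact hy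
    obtain ⟨x, hx⟩ := hreal h1
    exact ⟨x, hx.symm⟩
  · intro z hz
    rw [hF]
    apply not_mem_filled_tendsto hR0 hR
    intro hzf
    obtain ⟨x, hx⟩ := hreal hzf
    refine hz x ?_ hx.symm
    rw [hK]
    simp only [Set.mem_preimage]
    rw [hx]; exact hzf
  · rintro x ⟨C, hC⟩
    rw [hK]
    simp only [Set.mem_preimage]
    show Bornology.IsBounded (Set.range (fun n : ℕ => (fun w : ℂ => f.eval w)^[n] (x:ℂ)))
    rw [isBounded_iff_forall_norm_le]
    refine ⟨C, ?_⟩
    rintro _ ⟨n, rfl⟩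
    have h1 := iter_map F x n
    rw [hF] at h1
    show ‖(fun w : ℂ => f.eval w)^[n] (x:ℂ)‖ ≤ C
    rw [h1, Complex.norm_real, Real.norm_eq_abs]
    exact hC n
  · intro a b hab hsub
    have h1 : ((↑) : ℝ → ℂ) '' (Set.Icc a b) ⊆ J := by
      rintro _ ⟨x, hx, rfl⟩
      exact hsub hx
    have h2 : (((↑) : ℝ → ℂ) '' (Set.Icc a b)).Subsingleton :=
      htd _ h1 (isPreconnected_Icc.image _ Complex.continuous_ofReal.continuousOn)
    have h3 := h2 ⟨a, Set.left_mem_Icc.2 hab.le, rfl⟩ ⟨b, Set.right_mem_Icc.2 hab.le, rfl⟩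
    rw [Complex.ofReal_inj] at h3
    linarith

end Pool.Agent.BJ
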