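import Mathlib
import Pool.Agent.Work.MP_e056c9_an.S2
import Pool.Agent.Work.MP_e056c9_an.Defs

set_option autoImplicit false

namespace Pool.Agent.BJ

open Polynomial Filter Topology

/-- Laguerre inequality for real rooted polynomials -/
theorem laguerre (s : Multiset ℝ) (x : ℝ) :
    0 ≤ ((s.map (fun b => X - C b)).prod.derivative.eval x) ^ 2
        - (s.map (fun b => X - C b)).prod.eval x
          * (s.map (fun b => X - C b)).prod.derivative.derivative.eval x ∧
    (s ≠ 0 → (s.map (fun b => X - C b)).prod.eval x ≠ 0 →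
      0 < ((s.map (fun b => X - C b)).prod.derivative.eval x) ^ 2
        - (s.map (fun b => X - C b)).prod.eval x
          * (s.map (fun b => X - C b)).prod.derivative.derivative.eval x) := by
  induction s using Multiset.induction_on with
  | empty => simp
  | cons b s ih =>
    set Q : ℝ[X] := (s.map (fun b => X - C b)).prod with hQ
    have h1 : ((b ::ₘ s).map (fun b => X - C b)).prod = (X - C b) * Q := by
      rw [Multiset.map_cons, Multiset.prod_cons]
    rw [h1]
    have h2 : ((X - C b) * Q).derivative = Q + (X - C b) * Q.derivative := by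
      rw [derivative_mul, derivative_X_sub_C, one_mul]
    have h3 : ((X - C b) * Q).derivative.derivative
        = 2 * Q.derivative + (X - C b) * Q.derivative.derivative := by
      rw [h2, derivative_add, derivative_mul, derivative_X_sub_C, one_mul]; ring
    rw [h3, h2]
    simp only [eval_add, eval_mul, eval_sub, eval_X, eval_C, eval_ofNat]
    set u := Q.eval x
    set v := Q.derivative.eval x
    set w := Q.derivative.derivative.eval x
    have h4 : (u + (x - b) * v) ^ 2 - (x - b) * u * (2 * v + (x - b) * w)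
        = u ^ 2 + (x - b) ^ 2 * (v ^ 2 - u * w) := by ring
    rw [h4]
    have h5 := ih.1
    refine ⟨by positivity, fun _ hne => ?_⟩
    have hu : u ≠ 0 := right_ne_zero_of_mul hne
    have : 0 < u ^ 2 := by positivity
    have h6 : 0 ≤ (x - b) ^ 2 * (v ^ 2 - u * w) := mul_nonneg (sq_nonneg _) h5
    linarith

theorem deriv_sign_left (s : Multiset ℝ) (x : ℝ) (hs : ∀ b ∈ s, x < b) :
    (s.map (fun b => X - C b)).prod.eval x ≠ 0 ∧
    (s.map (fun b => X - C b)).prod.derivative.eval x
      * (s.map (fun b => X - C b)).prod.eval x ≤ 0 ∧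
    (s ≠ 0 → (s.map (fun b => X - C b)).prod.derivative.eval x
      * (s.map (fun b => X - C b)).prod.eval x < 0) := by
  induction s using Multiset.induction_on with
  | empty => simp
  | cons b s ih =>
    have ih' := ih (fun a ha => hs a (Multiset.mem_cons_of_mem ha))
    set Q : ℝ[X] := (s.map (fun b => X - C b)).prod with hQ
    have h1 : ((b ::ₘ s).map (fun b => X - C b)).prod = (X - C b) * Q := by
      rw [Multiset.map_cons, Multiset.prod_cons]
    rw [h1]
    have h2 : ((X - C b) * Q).derivative = Q + (X - C b) * Q.derivative := by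
      rw [derivative_mul, derivative_X_sub_C, one_mul]
    rw [h2]
    simp only [eval_add, eval_mul, eval_sub, eval_X, eval_C]
    set u := Q.eval x
    set v := Q.derivative.eval x
    have hb : x - b < 0 := sub_neg.2 (hs b (Multiset.mem_cons_self b s))
    have hu : u ≠ 0 := ih'.1
    have h4 : (u + (x - b) * v) * ((x - b) * u)
        = (x - b) * u ^ 2 + (x - b) ^ 2 * (v * u) := by ring
    rw [h4]
    have h5 := ih'.2.1
    have h6 : (x - b) * u ^ 2 < 0 := mul_neg_of_neg_of_pos hb (by positivity)
    have h7 : (x - b) ^ 2 * (v * u) ≤ 0 := mul_nonpos_of_nonneg_of_nonpos (sq_nonneg _) h5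
    refine ⟨mul_ne_zero hb.ne hu, by linarith, fun _ => by linarith⟩

theorem deriv_sign_right (s : Multiset ℝ) (x : ℝ) (hs : ∀ b ∈ s, b < x) :
    0 < (s.map (fun b => X - C b)).prod.eval x ∧
    0 ≤ (s.map (fun b => X - C b)).prod.derivative.eval x ∧
    (s ≠ 0 → 0 < (s.map (fun b => X - C b)).prod.derivative.eval x) := by
  induction s using Multiset.induction_on with
  | empty => simp
  | cons b s ih =>
    have ih' := ih (fun a ha => hs a (Multiset.mem_cons_of_mem ha))
    set Q : ℝ[X] := (s.map (fun b => X - C b)).prod with hQ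
    have h1 : ((b ::ₘ s).map (fun b => X - C b)).prod = (X - C b) * Q := by
      rw [Multiset.map_cons, Multiset.prod_cons]
    rw [h1]
    have h2 : ((X - C b) * Q).derivative = Q + (X - C b) * Q.derivative := by
      rw [derivative_mul, derivative_X_sub_C, one_mul]
    rw [h2]
    simp only [eval_add, eval_mul, eval_sub, eval_X, eval_C]
    set u := Q.eval x
    set v := Q.derivative.eval x
    have hb : 0 < x - b := sub_pos.2 (hs b (Multiset.mem_cons_self b s))
    have hu : 0 < u := ih'.1
    have hv : 0 ≤ v := ih'.2.1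
    refine ⟨by positivity, by positivity, fun _ => by positivity⟩

section
variable {f : ℝ[X]} {K : Set ℝ}

namespace RealJulia

theorem ne_zero (h : RealJulia f K) : f ≠ 0 := by
  rintro rfl; have := h.deg; simp at this

theorem sub_natDegree (y : ℝ) : (f - C y).natDegree = f.natDegree := natDegree_sub_C

theorem sub_lc (h : RealJulia f K) (y : ℝ) : (f - C y).leadingCoeff = f.leadingCoeff := by
  apply leadingCoeff_sub_of_degree_lt
  refine lt_of_le_of_lt degree_C_le ?_
  rw [degree_eq_natDegree h.ne_zero]
  have : (0:ℕ) < f.natDegree := by have := h.deg; omega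
  exact_mod_cast this

/-- real factorisation of `f - y` -/
theorem split (h : RealJulia f K) {y : ℝ} (hy : y ∈ K) :
    ∃ s : Multiset ℝ, s.card = f.natDegree ∧ (∀ b ∈ s, b ∈ K) ∧
      f - C y = C f.leadingCoeff * (s.map (fun b => X - C b)).prod := by
  classical
  set φ := algebraMap ℝ ℂ with hφ
  set g : ℂ[X] := (f - C y).map φ with hg
  have hg0 : g.Splits := IsAlgClosed.splits _
  have hgd : g.natDegree = f.natDegree := by
    rw [hg, natDegree_map_eq_of_injective φ.injective, sub_natDegree]
  have hlc : g.leadingCoeff = φ f.leadingCoeff := by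
    rw [hg, leadingCoeff_map_of_injective φ.injective, h.sub_lc]
  have hgne : g ≠ 0 := by
    intro h0
    rw [h0] at hgd
    have := h.deg
    simp at hgd; omega
  have hroots : ∀ z ∈ g.roots, φ z.re = z := by
    intro z hz
    rw [mem_roots hgne] at hz
    have hz1 : (f.map φ).eval z = (y:ℂ) := by
      have h1 := hz
      simp only [IsRoot.def, hg, Polynomial.map_sub, map_C, eval_sub, eval_C] at h1
      exact sub_eq_zero.1 h1
    obtain ⟨x, hx⟩ := h.real y hy z hz1
    rw [hx]
    simp [hφ]
  set s : Multiset ℝ := g.roots.map Complex.re with hs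
  have hsr : s.map φ = g.roots := by
    rw [hs, Multiset.map_map]
    conv_rhs => rw [← Multiset.map_id g.roots]
    apply Multiset.map_congr rfl
    intro z hz
    exact hroots z hz
  clear_value s
  have hfac : f - C y = C f.leadingCoeff * (s.map (fun b => X - C b)).prod := by
    apply map_injective φ φ.injective
    have hfun : (fun a : ℂ => X - C a) ∘ φ = (Polynomial.map φ) ∘ (fun b : ℝ => X - C b) := by
      funext b
      simp
    rw [← hg, hg0.eq_prod_roots, hlc, Polynomial.map_mul, map_C, ← hsr, Polynomial.map_multiset_prod,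
      Multiset.map_map, Multiset.map_map, hfun]
  refine ⟨s, ?_, ?_, hfac⟩
  · rw [hs, Multiset.card_map, splits_iff_card_roots.1 hg0, hgd]
  · intro b hb
    have h1 : (f - C y).eval b = 0 := by
      rw [hfac, eval_mul, eval_multiset_prod, Multiset.map_map]
      have : (0:ℝ) ∈ s.map ((fun p : ℝ[X] => p.eval b) ∘ fun b => X - C b) := by
        rw [Multiset.mem_map]
        exact ⟨b, hb, by simp⟩
      rw [Multiset.prod_eq_zero this, mul_zero]
    have h2 : f.eval b = y := by
      rw [eval_sub, eval_C] at h1; linarith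
    rw [← h.inv, h2]; exact hy

theorem lc_ne (h : RealJulia f K) : f.leadingCoeff ≠ 0 := leadingCoeff_ne_zero.2 h.ne_zero

theorem card_roots (h : RealJulia f K) {y : ℝ} (hy : y ∈ K) :
    (f - C y).roots.card = f.natDegree := by
  obtain ⟨s, hs1, hs2, hs3⟩ := h.split hy
  rw [hs3, roots_C_mul _ h.lc_ne, roots_multiset_prod_X_sub_C, hs1]

theorem nonempty (h : RealJulia f K) : K.Nonempty := h.inf.nonempty

/-- bounds for the hull -/
theorem sInf_mem (h : RealJulia f K) : sInf K ∈ K := h.cpt.sInf_mem h.nonempty
theorem sSup_mem (h : RealJulia f K) : sSup K ∈ K := h.cpt.sSup_mem h.nonempty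
theorem subset_Icc (h : RealJulia f K) : K ⊆ Set.Icc (sInf K) (sSup K) := fun _ hx =>
  ⟨csInf_le h.cpt.bddBelow hx, le_csSup h.cpt.bddAbove hx⟩
theorem lt (h : RealJulia f K) : sInf K < sSup K := by
  by_contra hn
  push Not at hn
  have h1 : K ⊆ {sInf K} := by
    intro x hx
    have := h.subset_Icc hx
    rw [Set.mem_singleton_iff]
    exact le_antisymm (le_trans this.2 hn) this.1
  exact h.inf (Set.Finite.subset (Set.finite_singleton _) h1)

theorem exists_ne (h : RealJulia f K) (T : Set ℝ) (hT : T.Finite) : ∃ y ∈ K, y ∉ T := by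
  obtain ⟨y, hy⟩ := (h.inf.sdiff hT).nonempty
  exact ⟨y, hy.1, hy.2⟩

theorem deriv_fac (f : ℝ[X]) (y : ℝ) (s : Multiset ℝ)
    (hs : f - C y = C f.leadingCoeff * (s.map (fun b => X - C b)).prod) :
    f.derivative = C f.leadingCoeff * (s.map (fun b => X - C b)).prod.derivative ∧
    f.derivative.derivative
      = C f.leadingCoeff * (s.map (fun b => X - C b)).prod.derivative.derivative := by
  have h1 : f.derivative = C f.leadingCoeff * (s.map (fun b => X - C b)).prod.derivative := by
    have := congrArg derivative hs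
    rw [derivative_sub, derivative_C, sub_zero, derivative_C_mul] at this
    exact this
  refine ⟨h1, ?_⟩
  have := congrArg derivative h1
  rw [derivative_C_mul] at this
  exact this

/-- critical points lie strictly inside the hull -/
theorem crit_mem (h : RealJulia f K) {c : ℝ} (hc : f.derivative.eval c = 0) :
    c ∈ Set.Ioo (sInf K) (sSup K) := by
  obtain ⟨y, hy, hyc⟩ := h.exists_ne {f.eval c} (Set.finite_singleton _)
  have hyc' : f.eval c ≠ y := fun e => hyc (by rw [e]; rfl)
  obtain ⟨s, hs1, hs2, hs3⟩ := h.split hy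
  have hs0 : s ≠ 0 := by
    rintro rfl
    have := h.deg
    simp at hs1; omega
  have hder := (deriv_fac f y s hs3).1
  have hfc : (f - C y).eval c ≠ 0 := by
    rw [eval_sub, eval_C]; exact sub_ne_zero.2 hyc'
  have hcs : ∀ b ∈ s, b ≠ c := by
    rintro b hb rfl
    apply hfc
    rw [hs3, eval_mul, eval_multiset_prod, Multiset.map_map]
    have : (0:ℝ) ∈ s.map ((fun p : ℝ[X] => p.eval b) ∘ fun b => X - C b) := by
      rw [Multiset.mem_map]
      exact ⟨b, hb, by simp⟩
    rw [Multiset.prod_eq_zero this, mul_zero]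
  rw [hder, eval_mul, eval_C] at hc
  have hc2 : (s.map (fun b => X - C b)).prod.derivative.eval c = 0 :=
    (mul_eq_zero.1 hc).resolve_left h.lc_ne
  constructor
  · by_contra hn
    push Not at hn
    have h1 := (deriv_sign_left s c (fun b hb =>
      lt_of_le_of_ne (le_trans hn (h.subset_Icc (hs2 b hb)).1) (hcs b hb).symm)).2.2 hs0
    rw [hc2, zero_mul] at h1
    exact lt_irrefl _ h1
  · by_contra hn
    push Not at hn
    have h1 := (deriv_sign_right s c (fun b hb =>
      lt_of_le_of_ne (le_trans (h.subset_Icc (hs2 b hb)).2 hn) (hcs b hb))).2.2 hs0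
    rw [hc2] at h1
    exact lt_irrefl _ h1

/-- sign of the second derivative at critical points -/
theorem crit_sign (h : RealJulia f K) {c : ℝ} (hc : f.derivative.eval c = 0) {y : ℝ}
    (hy : y ∈ K) (hyc : f.eval c ≠ y) :
    (f.eval c - y) * f.derivative.derivative.eval c < 0 := by
  obtain ⟨s, hs1, hs2, hs3⟩ := h.split hy
  have hs0 : s ≠ 0 := by
    rintro rfl
    have := h.deg
    simp at hs1; omega
  have hder := deriv_fac f y s hs3
  have hlc := h.lc_ne
  have h1 : f.eval c - y = f.leadingCoeff * (s.map (fun b => X - C b)).prod.eval c := by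
    have := congrArg (fun p => p.eval c) hs3
    simpa only [eval_sub, eval_C, eval_mul] using this
  have h2 : (s.map (fun b => X - C b)).prod.eval c ≠ 0 := by
    intro h0
    rw [h0, mul_zero] at h1
    exact hyc (by linarith)
  rw [hder.1, eval_mul, eval_C] at hc
  have hc2 : (s.map (fun b => X - C b)).prod.derivative.eval c = 0 :=
    (mul_eq_zero.1 hc).resolve_left hlc
  have h3 := (laguerre s c).2 hs0 h2
  rw [hc2] at h3
  rw [h1, hder.2, eval_mul, eval_C]
  have h4 : 0 < f.leadingCoeff ^ 2 := by positivity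
  nlinarith

theorem crit_val (h : RealJulia f K) {c : ℝ} (hc : f.derivative.eval c = 0) :
    f.eval c ≤ sInf K ∨ sSup K ≤ f.eval c := by
  by_contra hn
  push Not at hn
  have h1 := h.crit_sign hc h.sInf_mem hn.1.ne'
  have h2 := h.crit_sign hc h.sSup_mem hn.2.ne
  have h3 : f.derivative.derivative.eval c < 0 := by
    by_contra h4
    push Not at h4
    have : 0 ≤ (f.eval c - sInf K) * f.derivative.derivative.eval c :=
      mul_nonneg (by linarith) h4
    linarith
  have h5 : 0 < (f.eval c - sSup K) * f.derivative.derivative.eval c :=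
    mul_pos_of_neg_of_neg (by linarith) h3
  linarith

theorem simple (h : RealJulia f K) {c : ℝ} (hc : f.derivative.eval c = 0) :
    f.derivative.derivative.eval c ≠ 0 := by
  intro h0
  obtain ⟨y, hy, hyc⟩ := h.exists_ne {f.eval c} (Set.finite_singleton _)
  have := h.crit_sign hc hy (fun e => hyc (by rw [e]; rfl))
  rw [h0, mul_zero] at this
  exact lt_irrefl _ this

/-- the derivative has `d - 1` distinct real roots -/
theorem exists_crit (h : RealJulia f K) :
    ∃ c : Fin (f.natDegree - 1) → ℝ, Function.Injective c ∧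
      derivative f = C (f.natDegree * f.leadingCoeff) * ∏ j, (X - C (c j)) := by
  classical
  have hd := h.deg
  have hdd : f.derivative.natDegree = f.natDegree - 1 := natDegree_derivative f
  have hder0 : f.derivative ≠ 0 := by
    intro h0
    rw [h0] at hdd
    simp at hdd; omega
  set S := f.derivative.roots.toFinset with hS
  obtain ⟨y, hy, hyc⟩ := h.exists_ne ((fun x => f.eval x) '' (S : Set ℝ))
    (S.finite_toSet.image _)
  -- the roots of f - y are simple
  have hfy0 : f - C y ≠ 0 := by
    intro h0
    have := sub_natDegree (f := f) y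
    rw [h0] at this
    simp at this; omega
  have hnd : (f - C y).roots.Nodup := by
    rw [Multiset.nodup_iff_count_le_one]
    intro a
    rw [count_roots]
    by_contra hlt
    push Not at hlt
    have h1 : 1 < (f - C y).rootMultiplicity a := hlt
    have h2 := (one_lt_rootMultiplicity_iff_isRoot hfy0).1 h1
    have h3 : f.eval a = y := by
      have := h2.1
      rw [IsRoot.def, eval_sub, eval_C] at this
      linarith
    have h4 : f.derivative.eval a = 0 := by
      have := h2.2
      rw [IsRoot.def, derivative_sub, derivative_C, sub_zero] at this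
      exact this
    apply hyc
    refine ⟨a, ?_, h3⟩
    rw [hS]
    simp only [Finset.mem_coe, Multiset.mem_toFinset]
    rw [mem_roots hder0]; exact h4
  have hcard : (f - C y).roots.toFinset.card = f.natDegree := by
    rw [Multiset.toFinset_card_of_nodup hnd, h.card_roots hy]
  have h1 := card_roots_toFinset_le_derivative (f - C y)
  rw [hcard] at h1
  have h2 : (f - C y).derivative = f.derivative := by
    rw [derivative_sub, derivative_C, sub_zero]
  rw [h2] at h1
  have h3 : f.derivative.roots.toFinset.card ≤ f.derivative.roots.card :=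
    Multiset.toFinset_card_le _
  have h4 : f.derivative.roots.card ≤ f.derivative.natDegree := card_roots' _
  have h1' : (f.derivative.roots.toFinset \ (f - C y).roots.toFinset).card ≤ S.card :=
    Finset.card_le_card Finset.sdiff_subset
  have h3' : S.card ≤ f.derivative.roots.card := h3
  have h3'' : S.card = f.derivative.roots.toFinset.card := rfl
  have hSc : S.card = f.natDegree - 1 := by omega
  have hrc : f.derivative.roots.card = f.derivative.natDegree := by omega
  have hrn : f.derivative.roots.Nodup := by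
    rw [← Multiset.toFinset_card_eq_card_iff_nodup]; omega
  have hspl : f.derivative.Splits := splits_iff_card_roots.2 hrc
  have hfac := hspl.eq_prod_roots
  have hval : S.val = f.derivative.roots := by
    rw [hS, Multiset.toFinset_val, hrn.dedup]
  have hprod : (f.derivative.roots.map (fun a => X - C a)).prod = ∏ a ∈ S, (X - C a) := by
    rw [Finset.prod, hval]
  have hlc : f.derivative.leadingCoeff = f.natDegree * f.leadingCoeff := by
    rw [leadingCoeff, hdd, coeff_derivative, leadingCoeff]
    have h5 : f.natDegree - 1 + 1 = f.natDegree := by omega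
    rw [h5]
    have h6 : ((f.natDegree - 1 : ℕ) : ℝ) + 1 = f.natDegree := by
      have : ((f.natDegree - 1 + 1 : ℕ) : ℝ) = f.natDegree := by rw [h5]
      push_cast at this
      exact this
    rw [h6]; ring
  refine ⟨fun j => S.orderEmbOfFin hSc j, (S.orderEmbOfFin hSc).injective, ?_⟩
  rw [hfac, hlc, hprod]
  congr 1
  have h7 : (Finset.univ.map (S.orderEmbOfFin hSc).toEmbedding) = S := by
    ext a
    simp only [Finset.mem_map, Finset.mem_univ, true_and, RelEmbedding.coe_toEmbedding]
    have h8 : a ∈ Set.range (S.orderEmbOfFin hSc) ↔ a ∈ (S : Set ℝ) := by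
      rw [Finset.range_orderEmbOfFin]
    exact h8
  conv_lhs => rw [← h7]
  rw [Finset.prod_map]
  rfl

/-- sign of `f x - y` to the right of the hull -/
theorem right_sign (h : RealJulia f K) {x : ℝ} (hx : sSup K < x) {y : ℝ} (hy : y ∈ K) :
    0 < f.leadingCoeff * (f.eval x - y) := by
  obtain ⟨s, hs1, hs2, hs3⟩ := h.split hy
  have h1 : f.eval x - y = f.leadingCoeff * (s.map (fun b => X - C b)).prod.eval x := by
    have := congrArg (fun p => p.eval x) hs3
    simpa only [eval_sub, eval_C, eval_mul] using this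
  have h2 := (deriv_sign_right s x (fun b hb => lt_of_le_of_lt (h.subset_Icc (hs2 b hb)).2 hx)).1
  rw [h1]
  have h3 : 0 < f.leadingCoeff ^ 2 := by have := h.lc_ne; positivity
  nlinarith

theorem right_out (h : RealJulia f K) {x : ℝ} (hx : sSup K < x) :
    f.eval x < sInf K ∨ sSup K < f.eval x := by
  have h1 := h.right_sign hx h.sInf_mem
  have h2 := h.right_sign hx h.sSup_mem
  rcases lt_or_gt_of_ne h.lc_ne with h3 | h3
  · left
    by_contra hn
    push Not at hn
    nlinarith
  · right
    by_contra hn
    push Not at hn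
    nlinarith

theorem left_eval_ne (h : RealJulia f K) {x : ℝ} (hx : x < sInf K) {y : ℝ} (hy : y ∈ K) :
    f.eval x ≠ y := by
  intro he
  have h1 : x ∈ K := by rw [← h.inv, he]; exact hy
  exact absurd (h.subset_Icc h1).1 (not_le.2 hx)

theorem right_eval_ne (h : RealJulia f K) {x : ℝ} (hx : sSup K < x) {y : ℝ} (hy : y ∈ K) :
    f.eval x ≠ y := by
  intro he
  have h1 : x ∈ K := by rw [← h.inv, he]; exact hy
  exact absurd (h.subset_Icc h1).2 (not_le.2 hx)

theorem prod_sign_left (s : Multiset ℝ) (x : ℝ) (hs : ∀ b ∈ s, x < b) :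
    0 < (-1 : ℝ) ^ s.card * (s.map (fun b => X - C b)).prod.eval x := by
  induction s using Multiset.induction_on with
  | empty => simp
  | cons b s ih =>
    have ih' := ih (fun a ha => hs a (Multiset.mem_cons_of_mem ha))
    have hb : 0 < b - x := sub_pos.2 (hs b (Multiset.mem_cons_self b s))
    rw [Multiset.map_cons, Multiset.prod_cons, Multiset.card_cons, eval_mul, eval_sub, eval_X,
      eval_C]
    have : (-1 : ℝ) ^ (s.card + 1) * ((x - b) * (s.map (fun b => X - C b)).prod.eval x)
        = (b - x) * ((-1 : ℝ) ^ s.card * (s.map (fun b => X - C b)).prod.eval x) := by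
      rw [pow_succ]; ring
    rw [this]
    positivity

theorem left_sign (h : RealJulia f K) {x : ℝ} (hx : x < sInf K) {y : ℝ} (hy : y ∈ K) :
    0 < (-1 : ℝ) ^ f.natDegree * f.leadingCoeff * (f.eval x - y) := by
  obtain ⟨s, hs1, hs2, hs3⟩ := h.split hy
  have h1 : f.eval x - y = f.leadingCoeff * (s.map (fun b => X - C b)).prod.eval x := by
    have := congrArg (fun p => p.eval x) hs3
    simpa only [eval_sub, eval_C, eval_mul] using this
  have h2 := prod_sign_left s x (fun b hb => lt_of_lt_of_le hx (h.subset_Icc (hs2 b hb)).1)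
  rw [hs1] at h2
  rw [h1]
  have h3 : 0 < f.leadingCoeff ^ 2 := by have := h.lc_ne; positivity
  have : (-1 : ℝ) ^ f.natDegree * f.leadingCoeff
      * (f.leadingCoeff * (s.map (fun b => X - C b)).prod.eval x)
      = f.leadingCoeff ^ 2 * ((-1 : ℝ) ^ f.natDegree * (s.map (fun b => X - C b)).prod.eval x) := by
    ring
  rw [this]
  positivity

theorem left_out (h : RealJulia f K) {x : ℝ} (hx : x < sInf K) :
    f.eval x < sInf K ∨ sSup K < f.eval x := by
  have h1 := h.left_sign hx h.sInf_mem
  have h2 := h.left_sign hx h.sSup_mem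
  have hlt := h.lt
  have hne : (-1 : ℝ) ^ f.natDegree * f.leadingCoeff ≠ 0 :=
    mul_ne_zero (pow_ne_zero _ (by norm_num)) h.lc_ne
  set a := (-1 : ℝ) ^ f.natDegree * f.leadingCoeff
  rcases lt_or_gt_of_ne hne with h3 | h3
  · left
    by_contra hn
    push Not at hn
    nlinarith
  · right
    by_contra hn
    push Not at hn
    nlinarith

theorem end_right (h : RealJulia f K) : f.eval (sSup K) = sInf K ∨ f.eval (sSup K) = sSup K := by
  have h1 : f.eval (sSup K) ∈ K := (h.inv _).2 h.sSup_mem
  have h2 := h.subset_Icc h1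
  by_contra hn
  push Not at hn
  have h3 : f.eval (sSup K) ∈ Set.Ioo (sInf K) (sSup K) :=
    ⟨lt_of_le_of_ne h2.1 hn.1.symm, lt_of_le_of_ne h2.2 hn.2⟩
  have h4 : ∀ᶠ x in 𝓝 (sSup K), f.eval x ∈ Set.Ioo (sInf K) (sSup K) :=
    f.continuous.continuousAt.eventually (Ioo_mem_nhds h3.1 h3.2)
  have h5 : ∀ᶠ x in 𝓝[>] (sSup K), f.eval x ∈ Set.Ioo (sInf K) (sSup K) :=
    h4.filter_mono nhdsWithin_le_nhds
  obtain ⟨x, hx1, hx2⟩ := (h5.and self_mem_nhdsWithin).exists
  rcases h.right_out hx2 with h6 | h6
  · exact absurd hx1.1 (not_lt.2 h6.le)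
  · exact absurd hx1.2 (not_lt.2 h6.le)

theorem end_left (h : RealJulia f K) : f.eval (sInf K) = sInf K ∨ f.eval (sInf K) = sSup K := by
  have h1 : f.eval (sInf K) ∈ K := (h.inv _).2 h.sInf_mem
  have h2 := h.subset_Icc h1
  by_contra hn
  push Not at hn
  have h3 : f.eval (sInf K) ∈ Set.Ioo (sInf K) (sSup K) :=
    ⟨lt_of_le_of_ne h2.1 hn.1.symm, lt_of_le_of_ne h2.2 hn.2⟩
  have h4 : ∀ᶠ x in 𝓝 (sInf K), f.eval x ∈ Set.Ioo (sInf K) (sSup K) :=
    f.continuous.continuousAt.eventually (Ioo_mem_nhds h3.1 h3.2)
  have h5 : ∀ᶠ x in 𝓝[<] (sInf K), f.eval x ∈ Set.Ioo (sInf K) (sSup K) :=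
    h4.filter_mono nhdsWithin_le_nhds
  obtain ⟨x, hx1, hx2⟩ := (h5.and self_mem_nhdsWithin).exists
  rcases h.left_out hx2 with h6 | h6
  · exact absurd hx1.1 (not_lt.2 h6.le)
  · exact absurd hx1.2 (not_lt.2 h6.le)

/-- some critical value is strictly outside the hull -/
theorem exists_out (h : RealJulia f K) :
    ∃ c : ℝ, f.derivative.eval c = 0 ∧ (f.eval c < sInf K ∨ sSup K < f.eval c) := by
  by_contra hn
  push Not at hn
  have hlt := h.lt
  -- all critical values are in the hull, so the hull is invariant
  have hend : ∀ x, x = sInf K ∨ x = sSup K → f.eval x ∈ Set.Icc (sInf K) (sSup K) := by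
    rintro x (rfl | rfl)
    · exact h.subset_Icc ((h.inv _).2 h.sInf_mem)
    · exact h.subset_Icc ((h.inv _).2 h.sSup_mem)
  have hinv : ∀ x ∈ Set.Icc (sInf K) (sSup K), f.eval x ∈ Set.Icc (sInf K) (sSup K) := by
    have hcont : ContinuousOn (fun x => f.eval x) (Set.Icc (sInf K) (sSup K)) :=
      f.continuous.continuousOn
    obtain ⟨M, hM, hM2⟩ := isCompact_Icc.exists_isMaxOn (Set.nonempty_Icc.2 hlt.le) hcont
    obtain ⟨m, hm, hm2⟩ := isCompact_Icc.exists_isMinOn (Set.nonempty_Icc.2 hlt.le) hcont
    have hcrit : ∀ t ∈ Set.Icc (sInf K) (sSup K), (IsLocalExtr (fun x => f.eval x) t ∨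
        (t = sInf K ∨ t = sSup K)) → f.eval t ∈ Set.Icc (sInf K) (sSup K) := by
      rintro t ht (h1 | h1)
      · have h2 : f.derivative.eval t = 0 := by
          have := h1.deriv_eq_zero
          rwa [Polynomial.deriv] at this
        have h3 := hn t h2
        exact ⟨h3.1, h3.2⟩
      · exact hend t h1
    have hMv : f.eval M ∈ Set.Icc (sInf K) (sSup K) := by
      apply hcrit M hM
      rcases eq_or_lt_of_le hM.1 with h1 | h1
      · exact Or.inr (Or.inl h1.symm)
      · rcases eq_or_lt_of_le hM.2 with h2 | h2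
        · exact Or.inr (Or.inr h2)
        · left
          exact Or.inr (hM2.isLocalMax (Icc_mem_nhds h1 h2))
    have hmv : f.eval m ∈ Set.Icc (sInf K) (sSup K) := by
      apply hcrit m hm
      rcases eq_or_lt_of_le hm.1 with h1 | h1
      · exact Or.inr (Or.inl h1.symm)
      · rcases eq_or_lt_of_le hm.2 with h2 | h2
        · exact Or.inr (Or.inr h2)
        · left
          exact Or.inl (hm2.isLocalMin (Icc_mem_nhds h1 h2))
    intro x hx
    have h3 : f.eval x ≤ f.eval M := hM2 hx
    have h4 : f.eval m ≤ f.eval x := hm2 hx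
    exact ⟨le_trans hmv.1 h4, le_trans h3 hMv.2⟩
  apply h.noint _ _ hlt
  intro x hx
  apply h.bdd
  have h1 : ∀ n : ℕ, (fun w : ℝ => f.eval w)^[n] x ∈ Set.Icc (sInf K) (sSup K) := by
    intro n
    induction n with
    | zero => exact hx
    | succ n ih => rw [Function.iterate_succ_apply']; exact hinv _ ih
  refine ⟨max |sInf K| |sSup K|, fun n => ?_⟩
  have h2 := h1 n
  exact abs_le_max_abs_abs h2.1 h2.2

theorem escape (h : RealJulia f K) {x : ℝ} (hx : x ∉ K) :
    Tendsto (fun n : ℕ => |(fun w : ℝ => f.eval w)^[n] x|) atTop atTop := by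
  have h1 := h.esc (x : ℂ) (fun y hy e => hx (by rw [Complex.ofReal_inj] at e; rw [e]; exact hy))
  refine h1.congr (fun n => ?_)
  rw [iter_map, Complex.norm_real, Real.norm_eq_abs]

theorem eq_K (h : RealJulia f K) :
    K = Pool.Agent.Work.MP_e056c9_an.K f (sInf K) (sSup K) := by
  ext x
  constructor
  · intro hx n
    have h1 : (fun w : ℝ => f.eval w)^[n] x ∈ K := by
      induction n with
      | zero => exact hx
      | succ n ih => rw [Function.iterate_succ_apply']; exact (h.inv _).2 ih
    exact h.subset_Icc h1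
  · intro hx
    apply h.bdd
    refine ⟨max |sInf K| |sSup K|, fun n => ?_⟩
    have h2 := hx n
    exact abs_le_max_abs_abs h2.1 h2.2

theorem hull (h : RealJulia f K) :
    ∃ c : Fin (f.natDegree - 1) → ℝ,
      Pool.Agent.Work.MP_e056c9_an.Hull f (sInf K) (sSup K) c := by
  obtain ⟨c, hc1, hc2⟩ := h.exists_crit
  have hcz : ∀ j, f.derivative.eval (c j) = 0 := by
    intro j
    rw [hc2, eval_mul, eval_prod]
    rw [Finset.prod_eq_zero (Finset.mem_univ j) (by simp), mul_zero]
  refine ⟨c, ⟨h.deg, h.lt, hc1, hc2, fun j => h.crit_mem (hcz j), fun j => h.crit_val (hcz j),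
    ?_, h.end_left, h.end_right, ?_, ?_⟩⟩
  rotate_left
  · rintro z (hz | hz)
    · rcases eq_or_lt_of_le hz with h1 | h1
      · rw [h1]
        rcases h.end_left with h2 | h2 <;> rw [h2]
        · exact Or.inl le_rfl
        · exact Or.inr le_rfl
      · rcases h.left_out h1 with h2 | h2
        · exact Or.inl h2.le
        · exact Or.inr h2.le
    · rcases eq_or_lt_of_le hz with h1 | h1
      · rw [← h1]
        rcases h.end_right with h2 | h2 <;> rw [h2]
        · exact Or.inl le_rfl
        · exact Or.inr le_rfl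
      · rcases h.right_out h1 with h2 | h2
        · exact Or.inl h2.le
        · exact Or.inr h2.le
  · intro y hy
    have hyK : y ∈ K := by
      rcases hy with rfl | rfl
      · exact h.sInf_mem
      · exact h.sSup_mem
    refine ⟨h.card_roots hyK, fun x hx => ?_⟩
    have h1 := (mem_roots'.1 hx).2
    rw [IsRoot, eval_sub, eval_C, sub_eq_zero] at h1
    exact h.subset_Icc ((h.inv x).1 (by rw [h1]; exact hyK))
  obtain ⟨x, hx1, hx2⟩ := h.exists_out
  have h1 : ∃ j, c j = x := by
    rw [hc2, eval_mul, eval_prod, eval_C] at hx1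
    have hlc : (f.natDegree * f.leadingCoeff : ℝ) ≠ 0 := by
      have := h.lc_ne
      have hd := h.deg
      have : (f.natDegree : ℝ) ≠ 0 := by norm_cast; omega
      positivity
    have h2 := (mul_eq_zero.1 hx1).resolve_left hlc
    rw [Finset.prod_eq_zero_iff] at h2
    obtain ⟨j, _, hj⟩ := h2
    refine ⟨j, ?_⟩
    rw [eval_sub, eval_X, eval_C] at hj
    linarith
  obtain ⟨j, hj⟩ := h1
  exact ⟨j, by rw [hj]; exact hx2⟩

end RealJulia

end

end Pool.Agent.BJ
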