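import Mathlib
import Pool.Agent.Work.MP_e056c9_an.S3

set_option autoImplicit false

namespace Pool.Agent.BJ

open Polynomial Filter Topology
open Pool.Agent.Work.MP_e056c9_an (Hull)

theorem iter_comp (F : ℂ[X]) (z : ℂ) (n : ℕ) :
    (fun w : ℂ => (F.comp F).eval w)^[n] z = (fun w : ℂ => F.eval w)^[2 * n] z := by
  have h1 : (fun w : ℂ => (F.comp F).eval w) = (fun w : ℂ => F.eval w)^[2] := by
    funext w
    simp [Function.iterate_succ_apply, eval_comp]
  rw [h1, ← Function.iterate_mul]

theorem filled_comp {F : ℂ[X]} (hd : 2 ≤ F.natDegree) : filled (F.comp F) = filled F := by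
  obtain ⟨R, hR0, hR⟩ := exists_escape_radius F hd
  ext z
  constructor
  · intro hz
    by_contra hzF
    have h1 := not_mem_filled_tendsto hR0 hR hzF
    have h2 : Tendsto (fun n : ℕ => ‖(fun w : ℂ => F.eval w)^[2 * n] z‖) atTop atTop :=
      h1.comp (tendsto_id.const_mul_atTop' (by norm_num : 0 < 2))
    have hb : Bornology.IsBounded
        (Set.range (fun n : ℕ => (fun w : ℂ => (F.comp F).eval w)^[n] z)) := hz
    obtain ⟨C, hC⟩ := hb.exists_norm_le
    obtain ⟨n, hn⟩ := (h2.eventually_gt_atTop C).exists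
    have h3 := hC _ (Set.mem_range_self n)
    simp only [iter_comp] at h3
    linarith
  · intro hz
    have hb : Bornology.IsBounded
        (Set.range (fun n : ℕ => (fun w : ℂ => F.eval w)^[n] z)) := hz
    show Bornology.IsBounded (Set.range (fun n : ℕ => (fun w : ℂ => (F.comp F).eval w)^[n] z))
    refine hb.subset ?_
    rintro _ ⟨n, rfl⟩
    simp only [iter_comp]
    exact Set.mem_range_self (2 * n)

/-- further facts on the polynomial and its hull -/
structure Good (f : ℝ[X]) (α β : ℝ) : Prop where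
  idem : f.eval (f.eval α) = f.eval α ∧ f.eval (f.eval β) = f.eval β
  out : ∀ x, x < α ∨ β < x → f.eval x < α ∨ β < f.eval x
  side : ((∀ x, β ≤ x → β ≤ f.eval x) ∧ (∀ x, x ≤ α → f.eval x ≤ α)) ∨
    (∀ x, x ≤ α ∨ β ≤ x → β ≤ f.eval x) ∨ (∀ x, x ≤ α ∨ β ≤ x → f.eval x ≤ α)
  card_roots : ∀ y ∈ Pool.Agent.Work.MP_e056c9_an.K f α β,
    Multiset.card (f - C y).roots = f.natDegree
  inv : ∀ x, f.eval x ∈ Pool.Agent.Work.MP_e056c9_an.K f α β ↔
    x ∈ Pool.Agent.Work.MP_e056c9_an.K f α β
  escape : ∀ z : ℝ, z ∉ Pool.Agent.Work.MP_e056c9_an.K f α β →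
    Tendsto (fun n : ℕ => |(fun y : ℝ => f.eval y)^[n] z|) atTop atTop
  esc : ∀ z : ℂ, z ∉ ((↑) : ℝ → ℂ) '' Pool.Agent.Work.MP_e056c9_an.K f α β →
    Tendsto (fun n : ℕ => ‖(fun w : ℂ => (f.map (algebraMap ℝ ℂ)).eval w)^[n] z‖) atTop atTop
  left_mem : α ∈ Pool.Agent.Work.MP_e056c9_an.K f α β
  right_mem : β ∈ Pool.Agent.Work.MP_e056c9_an.K f α β

theorem RealJulia.left_side {f : ℝ[X]} {K : Set ℝ} (h : RealJulia f K)
    {x : ℝ} (hx : x < sInf K) (hlc : 0 < (-1 : ℝ) ^ f.natDegree * f.leadingCoeff) :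
    sSup K < f.eval x := by
  have h1 := h.left_sign hx h.sSup_mem
  by_contra hn
  push Not at hn
  nlinarith

theorem RealJulia.left_side' {f : ℝ[X]} {K : Set ℝ} (h : RealJulia f K)
    {x : ℝ} (hx : x < sInf K) (hlc : (-1 : ℝ) ^ f.natDegree * f.leadingCoeff < 0) :
    f.eval x < sInf K := by
  have h1 := h.left_sign hx h.sInf_mem
  by_contra hn
  push Not at hn
  nlinarith

theorem RealJulia.right_side {f : ℝ[X]} {K : Set ℝ} (h : RealJulia f K)
    {x : ℝ} (hx : sSup K < x) (hlc : 0 < f.leadingCoeff) :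
    sSup K < f.eval x := by
  have h1 := h.right_sign hx h.sSup_mem
  by_contra hn
  push Not at hn
  nlinarith

theorem RealJulia.right_side' {f : ℝ[X]} {K : Set ℝ} (h : RealJulia f K)
    {x : ℝ} (hx : sSup K < x) (hlc : f.leadingCoeff < 0) :
    f.eval x < sInf K := by
  have h1 := h.right_sign hx h.sInf_mem
  by_contra hn
  push Not at hn
  nlinarith

theorem ge_of_right {f : ℝ[X]} {a b : ℝ} (h : ∀ x, a < x → b ≤ f.eval x) : b ≤ f.eval a := by
  have h1 : Tendsto (fun x => f.eval x) (𝓝[>] a) (𝓝 (f.eval a)) :=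
    (f.continuous.tendsto a).mono_left nhdsWithin_le_nhds
  exact ge_of_tendsto h1 (eventually_nhdsWithin_of_forall (fun x hx => h x hx))

theorem le_of_right {f : ℝ[X]} {a b : ℝ} (h : ∀ x, a < x → f.eval x ≤ b) : f.eval a ≤ b := by
  have h1 : Tendsto (fun x => f.eval x) (𝓝[>] a) (𝓝 (f.eval a)) :=
    (f.continuous.tendsto a).mono_left nhdsWithin_le_nhds
  exact le_of_tendsto h1 (eventually_nhdsWithin_of_forall (fun x hx => h x hx))

theorem ge_of_left {f : ℝ[X]} {a b : ℝ} (h : ∀ x, x < a → b ≤ f.eval x) : b ≤ f.eval a := by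
  have h1 : Tendsto (fun x => f.eval x) (𝓝[<] a) (𝓝 (f.eval a)) :=
    (f.continuous.tendsto a).mono_left nhdsWithin_le_nhds
  exact ge_of_tendsto h1 (eventually_nhdsWithin_of_forall (fun x hx => h x hx))

theorem le_of_left {f : ℝ[X]} {a b : ℝ} (h : ∀ x, x < a → f.eval x ≤ b) : f.eval a ≤ b := by
  have h1 : Tendsto (fun x => f.eval x) (𝓝[<] a) (𝓝 (f.eval a)) :=
    (f.continuous.tendsto a).mono_left nhdsWithin_le_nhds
  exact le_of_tendsto h1 (eventually_nhdsWithin_of_forall (fun x hx => h x hx))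

theorem structure_S (F : ℂ[X]) (hd : 2 ≤ F.natDegree) (J : Set ℂ)
    (hJ : J = frontier {z : ℂ | Bornology.IsBounded
            (Set.range (fun n : ℕ => (fun w : ℂ => F.eval w)^[n] z))})
    (hreal : J ⊆ Set.range ((↑) : ℝ → ℂ)) (htd : IsTotallyDisconnected J) :
    ∃ (f : ℝ[X]) (α β : ℝ) (c : Fin (f.natDegree - 1) → ℝ),
      F.comp F = f.map (algebraMap ℝ ℂ) ∧ Hull f α β c ∧ Good f α β ∧
      J = ((↑) : ℝ → ℂ) '' Pool.Agent.Work.MP_e056c9_an.K f α β := by
  obtain ⟨g, hg, hgJ⟩ := realJulia_of_frozen hd hJ hreal htd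
  have hd2 : 2 ≤ (F.comp F).natDegree := by
    rw [natDegree_comp]; nlinarith
  have hJ2 : J = frontier {z : ℂ | Bornology.IsBounded
            (Set.range (fun n : ℕ => (fun w : ℂ => (F.comp F).eval w)^[n] z))} := by
    rw [hJ]
    exact congrArg frontier (filled_comp hd).symm
  obtain ⟨f, hf, hfJ⟩ := realJulia_of_frozen hd2 hJ2 hreal htd
  set K : Set ℝ := {x : ℝ | (x:ℂ) ∈ J} with hK
  have hfg : f = g.comp g := by
    apply map_injective (algebraMap ℝ ℂ) (algebraMap ℝ ℂ).injective
    rw [hf, Polynomial.map_comp, hg]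
  obtain ⟨c, hc⟩ := hfJ.hull
  have hKeq := hfJ.eq_K
  refine ⟨f, sInf K, sSup K, c, hf.symm, hc, ?_, ?_⟩
  · have hga := hgJ.end_left
    have hgb := hgJ.end_right
    refine ⟨?_, ?_, ?_, ?_, ?_, ?_, ?_, ?_, ?_⟩
    · rw [hfg]
      simp only [eval_comp]
      constructor
      · rcases hga with h1 | h1 <;> rcases hgb with h2 | h2 <;> simp [h1, h2]
      · rcases hga with h1 | h1 <;> rcases hgb with h2 | h2 <;> simp [h1, h2]
    · rintro x (hx | hx)
      · exact hfJ.left_out hx
      · exact hfJ.right_out hx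
    · have hlc : f.leadingCoeff = g.leadingCoeff ^ (g.natDegree + 1) := by
        rw [hfg, leadingCoeff_comp (by have := hgJ.deg; omega), pow_succ, mul_comm]
      have hdeg : f.natDegree = g.natDegree * g.natDegree := by
        rw [hfg, natDegree_comp]
      rcases Nat.even_or_odd g.natDegree with he | ho
      · -- even degree
        have hde : Even f.natDegree := by rw [hdeg]; exact he.mul_right _
        have h1 : (-1 : ℝ) ^ f.natDegree = 1 := hde.neg_one_pow
        rcases lt_or_gt_of_ne hfJ.lc_ne with h2 | h2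
        · right; right
          have hr : ∀ x, sSup K < x → f.eval x ≤ sInf K := fun x hx =>
            (hfJ.right_side' hx h2).le
          have hl : ∀ x, x < sInf K → f.eval x ≤ sInf K := fun x hx =>
            (hfJ.left_side' hx (by rw [h1, one_mul]; exact h2)).le
          rintro x (hx | hx)
          · rcases eq_or_lt_of_le hx with h3 | h3
            · rw [h3]; exact le_of_left hl
            · exact hl x h3
          · rcases eq_or_lt_of_le hx with h3 | h3
            · rw [← h3]; exact le_of_right hr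
            · exact hr x h3
        · right; left
          have hr : ∀ x, sSup K < x → sSup K ≤ f.eval x := fun x hx =>
            (hfJ.right_side hx h2).le
          have hl : ∀ x, x < sInf K → sSup K ≤ f.eval x := fun x hx =>
            (hfJ.left_side hx (by rw [h1, one_mul]; exact h2)).le
          rintro x (hx | hx)
          · rcases eq_or_lt_of_le hx with h3 | h3
            · rw [h3]; exact ge_of_left hl
            · exact hl x h3
          · rcases eq_or_lt_of_le hx with h3 | h3
            · rw [← h3]; exact ge_of_right hr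
            · exact hr x h3
      · left
        have hdo : Odd f.natDegree := by rw [hdeg]; exact ho.mul ho
        have h1 : (-1 : ℝ) ^ f.natDegree = -1 := hdo.neg_one_pow
        have h2 : 0 < f.leadingCoeff := by
          rw [hlc]
          have h3 : Even (g.natDegree + 1) := ho.add_one
          exact h3.pow_pos hgJ.lc_ne
        have hr : ∀ x, sSup K < x → sSup K ≤ f.eval x := fun x hx =>
          (hfJ.right_side hx h2).le
        have hl : ∀ x, x < sInf K → f.eval x ≤ sInf K := fun x hx =>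
          (hfJ.left_side' hx (by rw [h1]; linarith)).le
        constructor
        · intro x hx
          rcases eq_or_lt_of_le hx with h3 | h3
          · rw [← h3]; exact ge_of_right hr
          · exact hr x h3
        · intro x hx
          rcases eq_or_lt_of_le hx with h3 | h3
          · rw [h3]; exact le_of_left hl
          · exact hl x h3
    · intro y hy
      rw [← hKeq] at hy
      exact hfJ.card_roots hy
    · intro x
      rw [← hKeq]
      exact hfJ.inv x
    · intro z hz
      rw [← hKeq] at hz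
      exact hfJ.escape hz
    · intro z hz
      rw [← hKeq] at hz
      exact hfJ.esc z (fun x hx e => hz ⟨x, hx, e.symm⟩)
    · rw [← hKeq]; exact hfJ.sInf_mem
    · rw [← hKeq]; exact hfJ.sSup_mem
  · rw [← hKeq]
    ext z
    constructor
    · intro hz
      obtain ⟨x, rfl⟩ := hreal hz
      exact ⟨x, hz, rfl⟩
    · rintro ⟨x, hx, rfl⟩
      exact hx

end Pool.Agent.BJ
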