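import Pool.Agent.Work.MP_e056c9_an.PotF
import Pool.Agent.Work.MP_e056c9_an.S4

/-! # Block P: the final statement -/

set_option autoImplicit false
open Polynomial MeasureTheory Filter Topology

namespace Pool.Agent.Work.MP_e056c9_an.Pot

lemma K_isCompact (f : ℝ[X]) (α β : ℝ) : IsCompact (K f α β) := by
  have h1 : IsClosed (K f α β) := by
    have : K f α β = ⋂ n : ℕ, ((fun y : ℝ => f.eval y)^[n]) ⁻¹' (Set.Icc α β) := by
      ext x
      simp [K]
    rw [this]
    apply isClosed_iInter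
    intro n
    apply isClosed_Icc.preimage
    have : Continuous (fun y : ℝ => f.eval y) := by fun_prop
    exact this.iterate n
  exact isCompact_Icc.of_isClosed_subset h1 (fun x hx => hx 0)

lemma K_subset (f : ℝ[X]) (α β : ℝ) : K f α β ⊆ Set.Icc α β := fun _ hx => hx 0

lemma K_inv (f : ℝ[X]) (α β : ℝ) : ∀ x ∈ K f α β, f.eval x ∈ K f α β := by
  intro x hx n
  have := hx (n + 1)
  rwa [Function.iterate_succ_apply] at this

/-- BLOCK P. -/
theorem potential_P (f : ℝ[X]) (α β : ℝ) (c : Fin (f.natDegree - 1) → ℝ) (h : Hull f α β c)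
    (hg : Pool.Agent.BJ.Good f α β)
    (μ : Measure ℝ) (hμ : IsProbabilityMeasure μ) (hsupp : μ (K f α β)ᶜ = 0)
    (hmin : ∀ ν : Measure ℝ, IsProbabilityMeasure ν → ν (K f α β)ᶜ = 0 →
      energy (Metric.diam (K f α β)) μ ≤ energy (Metric.diam (K f α β)) ν) :
    Balanced f μ ∧ ∀ p : ℝ[X], p ≠ 0 → 0 < ∫ x, p.eval x ^ 2 ∂μ := by
  have hd := h.two_le
  have hs : Split f (K f α β) := fun y hy => ⟨hg.card_roots y hy, fun x hx => by
    rw [← hg.inv, hx]; exact hy⟩
  have hK := K_isCompact f α β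
  have hinv := K_inv f α β
  have hesc : ∀ z : ℂ, z ∉ KC (K f α β) → Tendsto (fun n => ‖(FF f)^[n] z‖) atTop atTop :=
    fun z hz => hg.esc z hz
  have hD : ∀ x ∈ K f α β, ∀ y ∈ K f α β, |x - y| ≤ Metric.diam (K f α β) := by
    intro x hx y hy
    rw [← Real.dist_eq]
    exact Metric.dist_le_diam_of_mem hK.isBounded hx hy
  obtain ⟨μ0, hμ0, h0, hc⟩ := exists_mu0 hd hs hg.left_mem hK
  obtain ⟨h1, h2⟩ := main_compare hd hs hg.left_mem hK hinv hesc _ hD h.lt (K_subset f α β)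
    μ0 h0 hc μ hsupp (hmin μ0 hμ0 h0)
  refine ⟨balanced_of hd hs hg.left_mem (K_subset f α β) μ0 hc μ hsupp h1, ?_⟩
  intro p hp
  exact pos_of_noAtoms (a := α) (b := β) μ
    (measure_mono_null (Set.compl_subset_compl.2 (K_subset f α β)) hsupp) p hp

end Pool.Agent.Work.MP_e056c9_an.Pot
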