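import Pool.Agent.Work.MP_e056c9_an.E2
import Pool.Agent.Work.MP_e056c9_an.PotG

/-! # Final assembly: from measures to functionals, and the frozen statement modulo the
uniform limit periodicity of `u_n(z)`. -/

set_option autoImplicit false
open Polynomial MeasureTheory

namespace Pool.Agent.Work.MP_e056c9_an

/-- polynomials are integrable -/
lemma int_poly {α β : ℝ} (μ : Measure ℝ) [IsProbabilityMeasure μ] (hs : μ (Set.Icc α β)ᶜ = 0)
    (p : ℝ[X]) : Integrable (fun x => p.eval x) μ :=
  Pot.poly_integrable α β μ hs _ (by fun_prop)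

/-- the functional of a measure -/
noncomputable def Lm (μ : Measure ℝ) (h : ∀ p : ℝ[X], Integrable (fun x => p.eval x) μ) :
    ℝ[X] →ₗ[ℝ] ℝ where
  toFun p := ∫ x, p.eval x ∂μ
  map_add' p q := by
    simp only [eval_add]
    exact integral_add (h p) (h q)
  map_smul' r p := by
    simp only [eval_smul, smul_eq_mul, RingHom.id_apply]
    exact integral_const_mul _ _

lemma Lm_apply (μ : Measure ℝ) (h : ∀ p : ℝ[X], Integrable (fun x => p.eval x) μ) (p : ℝ[X]) :
    Lm μ h p = ∫ x, p.eval x ∂μ := rfl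

lemma posL_of {α β : ℝ} (hlt : α < β) (μ : Measure ℝ) [IsProbabilityMeasure μ]
    (hs : μ (Set.Icc α β)ᶜ = 0)
    (hpos : ∀ p : ℝ[X], p ≠ 0 → 0 < ∫ x, p.eval x ^ 2 ∂μ) :
    PosL α β (Lm μ (int_poly μ hs)) := by
  have hint := int_poly μ hs
  have hae : ∀ᵐ x ∂μ, x ∈ Set.Icc α β := by rw [ae_iff]; exact hs
  constructor
  · intro p hp
    rw [Lm_apply]
    simp only [eval_pow]
    exact hpos p hp
  · intro z hz p hp
    rw [LL_apply, Lm_apply]
    have hne : (C z - X) * p ≠ 0 := by
      apply mul_ne_zero _ hp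
      intro h0
      have := congrArg (eval (z - 1)) h0
      rw [eval_sub, eval_C, eval_X, eval_zero] at this
      linarith
    have h1 := hpos _ hne
    -- bound
    set B := |z| + |α| + |β| with hB
    have hB0 : 0 < B := by
      have h2 : 0 < |α| + |β| := by
        rcases eq_or_ne α 0 with h3 | h3
        · have : β ≠ 0 := by linarith
          have := abs_pos.2 this
          have := abs_nonneg α
          linarith
        · have := abs_pos.2 h3
          have := abs_nonneg β
          linarith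
      have := abs_nonneg z
      rw [hB]; linarith
    have h2 : ∫ x, ((C z - X) * p).eval x ^ 2 ∂μ
        ≤ ∫ x, B * (sg β z * ((C z - X) * p ^ 2).eval x) ∂μ := by
      apply integral_mono_ae
      · have := hint (((C z - X) * p) ^ 2)
        simpa only [eval_pow] using this
      · exact ((hint _).const_mul _).const_mul _
      · filter_upwards [hae] with x hx
        obtain ⟨hx1, hx2⟩ := hx
        simp only [eval_mul, eval_sub, eval_C, eval_X, eval_pow]
        have h3 : sg β z * (z - x) = |z - x| := by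
          unfold sg
          split_ifs with hb
          · rw [abs_of_nonneg (by linarith)]; ring
          · have : z ≤ α := by
              rcases hz with hz | hz
              · exact hz
              · exact absurd hz hb
            rw [abs_of_nonpos (by linarith)]; ring
        have h4 : |z - x| ≤ B := by
          have h5 : |z - x| ≤ |z| + |x| := abs_sub _ _
          have h6 : |x| ≤ |α| + |β| := by
            rw [abs_le]
            constructor
            · have := neg_abs_le α
              have := abs_nonneg β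
              linarith
            · have := le_abs_self β
              have := abs_nonneg α
              linarith
          rw [hB]; linarith
        have h7 : 0 ≤ |z - x| * p.eval x ^ 2 := by positivity
        calc ((z - x) * p.eval x) ^ 2 = |z - x| * (|z - x| * p.eval x ^ 2) := by
              rw [mul_pow, ← sq_abs (z - x)]; ring
          _ ≤ B * (|z - x| * p.eval x ^ 2) := mul_le_mul_of_nonneg_right h4 h7
          _ = B * (sg β z * ((z - x) * p.eval x ^ 2)) := by rw [← h3]; ring
    rw [integral_const_mul, integral_const_mul] at h2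
    have h3 := lt_of_lt_of_le h1 h2
    exact (mul_pos_iff_of_pos_left hB0).1 h3

lemma core_of {f : ℝ[X]} {α β : ℝ} {c : Fin (f.natDegree - 1) → ℝ} (h : Hull f α β c)
    (μ : Measure ℝ) [IsProbabilityMeasure μ] (hs : μ (Set.Icc α β)ᶜ = 0)
    (hbal : Balanced f μ) (hpos : ∀ p : ℝ[X], p ≠ 0 → 0 < ∫ x, p.eval x ^ 2 ∂μ) :
    ∃ M, Core f α β c (Lm μ (int_poly μ hs)) M := by
  obtain ⟨M, h1, h2⟩ := hbal
  exact ⟨M, h, ⟨h.two_le, h1, h2⟩, posL_of h.lt μ hs hpos⟩

lemma isOP_of {α β : ℝ} (μ : Measure ℝ) [IsProbabilityMeasure μ] (hs : μ (Set.Icc α β)ᶜ = 0)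
    (P : ℕ → ℝ[X])
    (hP : ∀ n : ℕ, (P n).Monic ∧ (P n).natDegree = n ∧
            ∀ k : ℕ, k < n → ∫ x, (P n).eval x * x ^ k ∂μ = 0) (n : ℕ) :
    IsOP (Lm μ (int_poly μ hs)) n (P n) := by
  obtain ⟨h1, h2, h3⟩ := hP n
  refine ⟨h1, h2, fun q hq => ?_⟩
  have e1 : P n * q = ∑ k ∈ Finset.range n, (q.coeff k) • (P n * X ^ k) := by
    by_cases hq0 : q = 0
    · subst hq0; simp
    · have hqd : q.natDegree < n := by
        rw [degree_eq_natDegree hq0] at hq
        exact_mod_cast hq
      conv_lhs => rw [as_sum_range' q n hqd, Finset.mul_sum]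
      refine Finset.sum_congr rfl fun k _ => ?_
      rw [← C_mul_X_pow_eq_monomial, smul_eq_C_mul]; ring
  rw [e1, map_sum]
  refine Finset.sum_eq_zero fun k hk => ?_
  rw [map_smul, Lm_apply]
  simp only [eval_mul, eval_pow, eval_X]
  rw [h3 k (Finset.mem_range.1 hk), smul_zero]

/-- The end: Bohr almost periodicity. -/
theorem apConclusion_of {f : ℝ[X]} {α β : ℝ} {c : Fin (f.natDegree - 1) → ℝ}
    (μ : Measure ℝ) [IsProbabilityMeasure μ] (hs : μ (Set.Icc α β)ᶜ = 0)
    {M : ℝ[X] →ₗ[ℝ] ℝ} (hC : Core f α β c (Lm μ (int_poly μ hs)) M)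
    (P : ℕ → ℝ[X])
    (hP : ∀ n : ℕ, (P n).Monic ∧ (P n).natDegree = n ∧
            ∀ k : ℕ, k < n → ∫ x, (P n).eval x * x ^ k ∂μ = 0)
    (hU : ∀ ε : ℝ, 0 < ε → ∀ z ∈ ZS f c, z ≠ α → z ≠ β → ∃ k : ℕ, ∀ n n' : ℕ,
      n ≡ n' [MOD f.natDegree ^ k] → |Real.log (uu (Lm μ (int_poly μ hs)) β n z)
        - Real.log (uu (Lm μ (int_poly μ hs)) β n' z)| ≤ ε) : APConclusion μ P := by
  have hop := isOP_of μ hs P hP
  have hd := hC.hull.two_le
  have h1 := ap_of_per hd _ (fun ε hε => bJ_per hC hop hU hε)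
  have h2 := ap_of_per hd _ (fun ε hε => aJ_per hC hop hU hε)
  have e1 : ∀ n, bJ (Lm μ (int_poly μ hs)) P n
      = (∫ x, x * (P n).eval x ^ 2 ∂μ) / (∫ x, (P n).eval x ^ 2 ∂μ) := by
    intro n
    unfold bJ
    rw [Lm_apply, Lm_apply]
    simp only [eval_mul, eval_pow, eval_X]
  have e2 : ∀ n, aJ (Lm μ (int_poly μ hs)) P n
      = (∫ x, (P (n + 1)).eval x ^ 2 ∂μ) / (∫ x, (P n).eval x ^ 2 ∂μ) := by
    intro n
    unfold aJ
    rw [Lm_apply, Lm_apply]
    simp only [eval_pow]
  simp only [e1] at h1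
  simp only [e2] at h2
  exact ⟨h1, h2⟩

end Pool.Agent.Work.MP_e056c9_an
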