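import Pool.Agent.Work.MP_e056c9_an.Norm

/-! # Three term recurrence in terms of `u_n(z)`. -/

set_option autoImplicit false
set_option linter.unusedSectionVars false
set_option linter.unusedVariables false
open Polynomial Filter Topology

namespace Pool.Agent.Work.MP_e056c9_an

/-- characterisation of multiples of the orthogonal polynomial -/
lemma IsOP.eq_smul {Λ : ℝ[X] →ₗ[ℝ] ℝ} (hpos : ∀ p : ℝ[X], p ≠ 0 → 0 < Λ (p ^ 2)) {n : ℕ}
    {P g : ℝ[X]} (hP : IsOP Λ n P) (hg : g.degree < ((n + 1 : ℕ) : WithBot ℕ))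
    (horth : ∀ q : ℝ[X], q.degree < n → Λ (g * q) = 0) : g = C (g.coeff n) * P := by
  have hPc : P.coeff n = 1 := by
    have := hP.monic.coeff_natDegree
    rwa [hP.deg] at this
  set g₁ := g - C (g.coeff n) * P with hg₁
  have hdeg : g₁.degree < n := by
    rw [degree_lt_iff_coeff_zero]
    intro m hm
    rcases Nat.eq_or_lt_of_le hm with h | h
    · rw [← h, hg₁, coeff_sub, coeff_C_mul, hPc, mul_one, sub_self]
    · rw [hg₁, coeff_sub, coeff_C_mul, (degree_lt_iff_coeff_zero g (n + 1)).1 hg m h,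
        coeff_eq_zero_of_natDegree_lt (p := P) (n := m) (by rw [hP.deg]; exact h)]
      ring
  have h0 : Λ (g₁ ^ 2) = 0 := by
    have e : g₁ ^ 2 = g * g₁ - (g.coeff n) • (P * g₁) := by
      rw [smul_eq_C_mul, pow_two, hg₁]; ring
    rw [e, map_sub, map_smul, horth _ hdeg, hP.orth _ hdeg]; simp
  by_contra hne
  have := hpos g₁ (sub_ne_zero.2 hne)
  linarith

section
variable {f : ℝ[X]} {α β : ℝ} {c : Fin (f.natDegree - 1) → ℝ} {L M : ℝ[X] →ₗ[ℝ] ℝ}
  (hC : Core f α β c L M) {P : ℕ → ℝ[X]} (hP : ∀ n, IsOP L n (P n))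
include hC hP

lemma PP_pos (n : ℕ) : 0 < L (P n ^ 2) := hC.pos.pos _ (hP n).monic.ne_zero

lemma PP_hh (n : ℕ) : hh L n = L (P n ^ 2) := (hP n).hh_eq hC.pos.nn

/-- `b_n` -/
noncomputable def bb (L : ℝ[X] →ₗ[ℝ] ℝ) (P : ℕ → ℝ[X]) (n : ℕ) : ℝ :=
  L (X * P n ^ 2) / L (P n ^ 2)

/-- `a_{n+1}²` -/
noncomputable def aa (L : ℝ[X] →ₗ[ℝ] ℝ) (P : ℕ → ℝ[X]) (n : ℕ) : ℝ :=
  L (P (n + 1) ^ 2) / L (P n ^ 2)

omit hC in
lemma monic_deg (n : ℕ) : (P n).degree = n := by
  rw [degree_eq_natDegree (hP n).monic.ne_zero, (hP n).deg]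

omit hC in
lemma L_mul_of_monic {n : ℕ} {q : ℝ[X]} (hq : q.Monic) (hqd : q.natDegree = n) :
    L (P n * q) = L (P n ^ 2) := by
  have hdeg : (q - P n).degree < n := by
    have h1 : q.degree = n := by rw [degree_eq_natDegree hq.ne_zero, hqd]
    rw [← h1]
    exact degree_sub_lt_left (h1.trans (monic_deg hP n).symm) hq.ne_zero
      (by rw [hq.leadingCoeff, (hP n).monic.leadingCoeff])
  have h0 := (hP n).orth _ hdeg
  have e : P n * q = P n ^ 2 + P n * (q - P n) := by ring
  rw [e, map_add, h0, add_zero]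

/-- the value of `P_{n+1}/P_n` outside the hull -/
theorem eval_ratio (n : ℕ) {z : ℝ} (hz : z ≤ α ∨ β ≤ z) :
    (P (n + 1)).eval z = sg β z * uu L β n z * (P n).eval z := by
  obtain ⟨q, hq⟩ := exists_op (hC.pos.posToz hz n)
  set g := (X - C z) * q - P (n + 1) with hg
  have hmq : ((X - C z) * q).Monic := (monic_X_sub_C z).mul hq.monic
  have hdq : ((X - C z) * q).natDegree = n + 1 := by
    rw [(monic_X_sub_C z).natDegree_mul hq.monic, natDegree_X_sub_C, hq.deg, add_comm]
  have hgd : g.degree < ((n + 1 : ℕ) : WithBot ℕ) := by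
    have h1 : ((X - C z) * q).degree = ((n + 1 : ℕ) : WithBot ℕ) := by
      rw [degree_eq_natDegree hmq.ne_zero, hdq]
    rw [← h1]
    exact degree_sub_lt_left (h1.trans (monic_deg hP (n + 1)).symm) hmq.ne_zero
      (by rw [hmq.leadingCoeff, (hP (n + 1)).monic.leadingCoeff])
  have hlin : ∀ p : ℝ[X], L ((X - C z) * q * p) = - (sg β z * LL L β z (q * p)) := by
    intro p
    rw [LL_apply, ← mul_assoc, sg_mul_self, one_mul, ← map_neg]
    congr 1; ring
  have horth : ∀ p : ℝ[X], p.degree < n → L (g * p) = 0 := by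
    intro p hp
    rw [hg, sub_mul, map_sub, hlin, hq.orth p hp,
      (hP (n + 1)).orth p (hp.trans (by exact_mod_cast Nat.lt_succ_self n))]
    simp
  have hgP := (hP n).eq_smul hC.pos.pos hgd horth
  set a := g.coeff n with ha
  -- hh of LL
  have h1 : hh (LL L β z) n = - (sg β z * a * L (P n ^ 2)) := by
    rw [hq.hh_eq (hC.pos.nnz hz), pow_two]
    have e : LL L β z (q * q) = - (sg β z * L ((X - C z) * q * q)) := by
      rw [hlin, mul_neg, neg_neg, ← mul_assoc, sg_mul_self, one_mul]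
    have e2 : (X - C z) * q * q = P (n + 1) * q + a • (P n * q) := by
      have : (X - C z) * q = P (n + 1) + C a * P n := by rw [← hgP, hg]; ring
      rw [this, smul_eq_C_mul]; ring
    have hqd : q.degree < ((n + 1 : ℕ) : WithBot ℕ) := by
      rw [degree_eq_natDegree hq.monic.ne_zero, hq.deg]; exact_mod_cast Nat.lt_succ_self n
    rw [e, e2, map_add, map_smul, (hP (n + 1)).orth q hqd, L_mul_of_monic hP hq.monic hq.deg]
    simp only [smul_eq_mul]; ring
  have h2 : sg β z * uu L β n z = - a := by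
    unfold uu
    rw [h1, PP_hh hC hP]
    have h3 := (PP_pos hC hP n).ne'
    have h4 := sg_mul_self β z
    field_simp
    linear_combination (-a) * h4
  rw [h2]
  have h5 := congrArg (eval z) hgP
  rw [hg] at h5
  simp only [eval_sub, eval_mul, eval_X, eval_C, sub_self, zero_mul] at h5
  linarith

lemma P_zero : P 0 = 1 := by
  have h := hP 0
  exact h.monic.natDegree_eq_zero.1 h.deg

lemma eval_ne (n : ℕ) {z : ℝ} (hz : z ≤ α ∨ β ≤ z) : (P n).eval z ≠ 0 := by
  induction n with
  | zero => rw [P_zero hC hP]; simp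
  | succ n ih =>
    rw [eval_ratio hC hP n hz]
    exact mul_ne_zero (mul_ne_zero (sg_ne _ _) (hC.uu_pos n hz).ne') ih

/-- three term recurrence -/
theorem three_term (n : ℕ) :
    X * P (n + 1) = P (n + 2) + C (bb L P (n + 1)) * P (n + 1) + C (aa L P n) * P n := by
  set g := X * P (n + 1) - P (n + 2) with hg
  have hmX : (X * P (n + 1)).Monic := monic_X.mul (hP _).monic
  have hdX : (X * P (n + 1)).natDegree = n + 2 := by
    rw [monic_X.natDegree_mul (hP _).monic, natDegree_X, (hP _).deg]; ring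
  have hgd : g.degree < ((n + 2 : ℕ) : WithBot ℕ) := by
    have h1 : (X * P (n + 1)).degree = ((n + 2 : ℕ) : WithBot ℕ) := by
      rw [degree_eq_natDegree hmX.ne_zero, hdX]
    rw [← h1]
    exact degree_sub_lt_left (h1.trans (monic_deg hP (n + 2)).symm) hmX.ne_zero
      (by rw [hmX.leadingCoeff, (hP (n + 2)).monic.leadingCoeff])
  set b := g.coeff (n + 1) with hb
  set g₁ := g - C b * P (n + 1) with hg₁
  have hPc : (P (n + 1)).coeff (n + 1) = 1 := by
    have := (hP (n + 1)).monic.coeff_natDegree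
    rwa [(hP (n + 1)).deg] at this
  have hg₁d : g₁.degree < ((n + 1 : ℕ) : WithBot ℕ) := by
    rw [degree_lt_iff_coeff_zero]
    intro m hm
    rcases Nat.eq_or_lt_of_le hm with h | h
    · rw [← h, hg₁, coeff_sub, coeff_C_mul, hPc, mul_one, hb, sub_self]
    · rw [hg₁, coeff_sub, coeff_C_mul, (degree_lt_iff_coeff_zero g (n + 2)).1 hgd m h,
        coeff_eq_zero_of_natDegree_lt (p := P (n + 1)) (n := m) (by rw [(hP (n + 1)).deg]; exact h)]
      ring
  have horth : ∀ p : ℝ[X], p.degree < n → L (g₁ * p) = 0 := by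
    intro p hp
    have e : g₁ * p = P (n + 1) * (X * p) - P (n + 2) * p - b • (P (n + 1) * p) := by
      rw [hg₁, hg, smul_eq_C_mul]; ring
    have hXp : (X * p).degree < ((n + 1 : ℕ) : WithBot ℕ) := by
      rw [degree_lt_iff_coeff_zero]
      intro m hm
      obtain ⟨m', rfl⟩ : ∃ m', m = m' + 1 := ⟨m - 1, by omega⟩
      rw [coeff_X_mul]
      exact (degree_lt_iff_coeff_zero p n).1 hp m' (by omega)
    have h1 : (n : WithBot ℕ) < ((n + 1 : ℕ) : WithBot ℕ) := by exact_mod_cast Nat.lt_succ_self n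
    have h2 : (n : WithBot ℕ) < ((n + 2 : ℕ) : WithBot ℕ) := by exact_mod_cast (by omega : n < n + 2)
    rw [e, map_sub, map_sub, map_smul, (hP (n + 1)).orth _ hXp, (hP (n + 2)).orth _ (hp.trans h2),
      (hP (n + 1)).orth _ (hp.trans h1)]
    simp
  have hg₁P := (hP n).eq_smul hC.pos.pos hg₁d horth
  set a := g₁.coeff n with ha
  have hmain : X * P (n + 1) = P (n + 2) + C b * P (n + 1) + C a * P n := by
    rw [← hg₁P, hg₁, hg]; ring
  have hP1 := (PP_pos hC hP (n + 1)).ne'
  have hP0 := (PP_pos hC hP n).ne'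
  have d1 : (P (n + 1)).degree < ((n + 2 : ℕ) : WithBot ℕ) := by
    rw [monic_deg hP]; exact_mod_cast (by omega : n + 1 < n + 2)
  have d2 : (P n).degree < ((n + 1 : ℕ) : WithBot ℕ) := by
    rw [monic_deg hP]; exact_mod_cast (by omega : n < n + 1)
  have d3 : (P n).degree < ((n + 2 : ℕ) : WithBot ℕ) := by
    rw [monic_deg hP]; exact_mod_cast (by omega : n < n + 2)
  have hbval : bb L P (n + 1) = b := by
    unfold bb
    rw [div_eq_iff hP1]
    have e : X * P (n + 1) ^ 2 = P (n + 2) * P (n + 1) + b • (P (n + 1) ^ 2)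
        + a • (P (n + 1) * P n) := by
      have : X * P (n + 1) ^ 2 = (X * P (n + 1)) * P (n + 1) := by ring
      rw [this, hmain, smul_eq_C_mul, smul_eq_C_mul]; ring
    rw [e, map_add, map_add, map_smul, map_smul, (hP (n + 2)).orth _ d1, (hP (n + 1)).orth _ d2]
    simp
  have haval : aa L P n = a := by
    unfold aa
    rw [div_eq_iff hP0]
    have h1 : L (P (n + 1) * (X * P n)) = L (P (n + 1) ^ 2) := by
      apply L_mul_of_monic hP (monic_X.mul (hP n).monic)
      rw [monic_X.natDegree_mul (hP n).monic, natDegree_X, (hP n).deg]; ring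
    have h2 : P (n + 1) * (X * P n) = P (n + 2) * P n + b • (P (n + 1) * P n)
        + a • (P n ^ 2) := by
      have : P (n + 1) * (X * P n) = (X * P (n + 1)) * P n := by ring
      rw [this, hmain, smul_eq_C_mul, smul_eq_C_mul]; ring
    rw [← h1, h2, map_add, map_add, map_smul, map_smul, (hP (n + 2)).orth _ d3,
      (hP (n + 1)).orth _ d2]
    simp
  rw [hbval, haval]
  exact hmain

theorem three_term_zero : X * P 0 = P 1 + C (bb L P 0) * P 0 := by
  have h0 := P_zero hC hP
  have h1 := hP 1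
  have hP1 : P 1 = X + C ((P 1).coeff 0) := by
    have hnd : (P 1).natDegree = 1 := h1.deg
    have hm := h1.monic.coeff_natDegree
    rw [hnd] at hm
    have := Polynomial.eq_X_add_C_of_natDegree_le_one (p := P 1) (by rw [hnd])
    rw [hm, C_1, one_mul] at this
    exact this
  set e := (P 1).coeff 0 with he
  have horth := h1.orth 1 (by rw [degree_one]; exact_mod_cast one_pos)
  rw [mul_one, hP1, map_add] at horth
  have hC1 : L (C e) = e * L 1 := by
    have : (C e : ℝ[X]) = e • (1 : ℝ[X]) := by rw [smul_eq_C_mul, mul_one]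
    rw [this, map_smul, smul_eq_mul]
  have hL1 : 0 < L 1 := by
    have := hC.pos.pos 1 one_ne_zero
    rwa [one_pow] at this
  have hb : bb L P 0 = - e := by
    unfold bb
    rw [h0]
    simp only [one_pow, mul_one]
    rw [div_eq_iff hL1.ne']
    linarith
  rw [hb, h0, hP1]
  simp only [mul_one, map_neg]
  ring

lemma bb_bounds (n : ℕ) : α ≤ bb L P n ∧ bb L P n ≤ β := by
  have hpos := PP_pos hC hP n
  have hlt := hC.hull.lt
  have h1 := hC.pos.nnz (z := α) (Or.inl le_rfl) (P n)
  have h2 := hC.pos.nnz (z := β) (Or.inr le_rfl) (P n)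
  have hsα : sg β α = -1 := by unfold sg; rw [if_neg (not_le.2 hlt)]
  have hsβ : sg β β = 1 := by unfold sg; rw [if_pos le_rfl]
  rw [LL_apply, hsα] at h1
  rw [LL_apply, hsβ] at h2
  have e1 : L ((C α - X) * P n ^ 2) = α * L (P n ^ 2) - L (X * P n ^ 2) := by
    rw [sub_mul, map_sub, ← smul_eq_C_mul, map_smul, smul_eq_mul]
  have e2 : L ((C β - X) * P n ^ 2) = β * L (P n ^ 2) - L (X * P n ^ 2) := by
    rw [sub_mul, map_sub, ← smul_eq_C_mul, map_smul, smul_eq_mul]
  rw [e1] at h1
  rw [e2] at h2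
  unfold bb
  constructor
  · rw [le_div_iff₀ hpos]; linarith
  · rw [div_le_iff₀ hpos]; linarith

lemma aa_pos (n : ℕ) : 0 < aa L P n := div_pos (PP_pos hC hP _) (PP_pos hC hP _)

/-- scalar recurrences -/
lemma rec_zero {z : ℝ} (hz : z ≤ α ∨ β ≤ z) : z = sg β z * uu L β 0 z + bb L P 0 := by
  have h1 := congrArg (eval z) (three_term_zero hC hP)
  have h2 := eval_ratio hC hP 0 hz
  have h3 := P_zero hC hP
  simp only [eval_mul, eval_X, eval_add, eval_C] at h1
  rw [h3] at h1 h2
  simp only [eval_one, mul_one] at h1 h2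
  rw [Nat.zero_add] at h2
  rw [h2] at h1
  exact h1

lemma rec_succ (n : ℕ) {z : ℝ} (hz : z ≤ α ∨ β ≤ z) :
    z = sg β z * uu L β (n + 1) z + bb L P (n + 1) + aa L P n * (sg β z / uu L β n z) := by
  have h1 := congrArg (eval z) (three_term hC hP n)
  have h2 := eval_ratio hC hP n hz
  have h3 := eval_ratio hC hP (n + 1) hz
  have h4 := eval_ne hC hP n hz
  have h5 := (hC.uu_pos n hz).ne'
  have h6 := sg_mul_self β z
  have h7 := sg_ne β z
  simp only [eval_mul, eval_X, eval_add, eval_C] at h1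
  have e3 : n + 1 + 1 = n + 2 := rfl
  rw [e3] at h3
  rw [h3, h2] at h1
  set U := uu L β n z
  set V := uu L β (n + 1) z
  set s := sg β z
  set p := (P n).eval z
  have h8 : s * U * p ≠ 0 := mul_ne_zero (mul_ne_zero h7 h5) h4
  apply mul_right_cancel₀ h8
  have h9 : aa L P n * (s / U) * (s * U * p) = aa L P n * p := by
    field_simp
    linear_combination (aa L P n) * h6
  rw [add_mul, add_mul, h9]
  linear_combination h1

end

end Pool.Agent.Work.MP_e056c9_an
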