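import Pool.Agent.Work.MP_e056c9_an.Run2

/-! # Uniform limit periodicity of the environments. -/

set_option autoImplicit false
set_option linter.unusedSectionVars false
set_option linter.unusedVariables false
open Polynomial Filter Topology

namespace Pool.Agent.Work.MP_e056c9_an

lemma dig_level (d n i : ℕ) : n / d ^ i = d * (n / d ^ (i + 1)) + n / d ^ i % d := by
  rw [pow_succ, ← Nat.div_div_eq_div_mul]
  exact (Nat.div_add_mod _ _).symm

lemma dig_eq {d n n' k i : ℕ} (h : n % d ^ k = n' % d ^ k) (hi : i < k) :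
    n / d ^ i % d = n' / d ^ i % d := by
  have e : d ^ k = d ^ i * (d * d ^ (k - i - 1)) := by
    rw [← pow_succ', ← pow_add]; congr 1; omega
  have key : ∀ m : ℕ, m / d ^ i % d = m % d ^ k / d ^ i % d := by
    intro m
    rw [e, Nat.mod_mul_right_div_self, Nat.mod_mod_of_dvd _ (Dvd.intro _ rfl)]
  rw [key n, key n', h]

/-- word of the digits below position `K` -/
def dw (d n K : ℕ) (t : ℕ) : ℕ := n / d ^ (K - 1 - t) % d

lemma app_dw (d n K : ℕ) : ∀ i ≤ K, app d (dw d n K) i (n / d ^ K) = n / d ^ (K - i) := by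
  intro i
  induction i with
  | zero => intro _; rfl
  | succ i ih =>
    intro hi
    show d * app d (dw d n K) i (n / d ^ K) + dw d n K i = _
    rw [ih (by omega), dig_level d n (K - (i + 1))]
    unfold dw
    have e1 : K - (i + 1) + 1 = K - i := by omega
    have e2 : K - 1 - i = K - (i + 1) := by omega
    rw [e1, e2]

lemma dw_eq {d n n' k K : ℕ} (h : n % d ^ k = n' % d ^ k) (hK : K ≤ k) (hK0 : 0 < K) :
    dw d n K = dw d n' K := by
  funext t
  unfold dw
  exact dig_eq h (by omega)

section
variable {f : ℝ[X]} {α β : ℝ} {c : Fin (f.natDegree - 1) → ℝ} {L M : ℝ[X] →ₗ[ℝ] ℝ}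
  (hC : Core f α β c L M)
include hC

/-- decomposition of a number ending in a run -/
lemma Core.run_dec {c₀ : ℝ} (hreset : ∀ m r r' : ℕ, r < f.natDegree → r' < f.natDegree → r ≠ r' →
      Tge f α β c L c₀ (f.natDegree * (f.natDegree * m + r) + r'))
    (hzero : Tge f α β c L c₀ 0) {σ : ℕ} (hσ : σ < f.natDegree) :
    ∀ m N : ℕ, (∀ i ≤ N, m / f.natDegree ^ i % f.natDegree = σ) →
      ∃ l x, N ≤ l ∧ m = run f.natDegree σ l x ∧ Tge f α β c L c₀ x := by
  have hd := hC.d2
  intro m
  induction m using Nat.strong_induction_on with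
  | _ m ih =>
    intro N hN
    have h0 := hN 0 (Nat.zero_le _)
    rw [pow_zero, Nat.div_one] at h0
    have hm : m = f.natDegree * (m / f.natDegree) + σ := by
      conv_lhs => rw [← Nat.div_add_mod m f.natDegree]
      rw [h0]
    by_cases h1 : m / f.natDegree % f.natDegree = σ
    · by_cases hm0 : m = 0
      · subst hm0
        have hσ0 : σ = 0 := by rw [← h0]; simp
        subst hσ0
        refine ⟨N, 0, le_rfl, ?_, hzero⟩
        clear ih hN h0 hm h1
        induction N with
        | zero => rfl
        | succ N ihN => rw [run_succ, ← ihN]; simp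
      · have hlt : m / f.natDegree < m := Nat.div_lt_self (by omega) (by omega)
        obtain ⟨l, x, hl, hmx, hx⟩ := ih _ hlt (N - 1) (by
          intro i hi
          rw [Nat.div_div_eq_div_mul, ← pow_succ']
          rcases Nat.eq_zero_or_pos N with hN0 | hN0
          · have : i = 0 := by omega
            rw [this, pow_one]; exact h1
          · exact hN (i + 1) (by omega))
        refine ⟨l + 1, x, by omega, ?_, hx⟩
        rw [run_succ, ← hmx]; exact hm
    · have hN0 : N = 0 := by
        by_contra hne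
        have := hN 1 (by omega)
        rw [pow_one] at this
        exact h1 this
      refine ⟨0, m, by omega, rfl, ?_⟩
      have e : m = f.natDegree * (f.natDegree * (m / f.natDegree / f.natDegree)
          + m / f.natDegree % f.natDegree) + σ := by
        rw [Nat.div_add_mod]; exact hm
      rw [e]
      exact hreset _ _ _ (Nat.mod_lt _ (by omega)) hσ h1

lemma Core.Tge_down {κ c₀ : ℝ} (hκ : 0 < κ) (hκ1 : κ ≤ 1) (hc₀ : 0 < c₀) (hc₁ : c₀ ≤ 1)
    (hK : ∀ (n r : ℕ) (c₀ : ℝ), 0 < c₀ → c₀ ≤ 1 →
      r < f.natDegree → Tge f α β c L c₀ n → Tge f α β c L (κ * c₀) (f.natDegree * n + r))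
    (n i t : ℕ) (h : Tge f α β c L c₀ (n / f.natDegree ^ (i + t))) :
    Tge f α β c L (κ ^ t * c₀) (n / f.natDegree ^ i) := by
  have hd := hC.d2
  induction t generalizing i with
  | zero => simpa using h
  | succ t ih =>
    have e : i + (t + 1) = i + 1 + t := by omega
    rw [e] at h
    have h1 := ih (i + 1) h
    have h2 : κ ^ t * c₀ ≤ 1 := by
      have : κ ^ t ≤ 1 := pow_le_one₀ hκ.le hκ1
      nlinarith
    have h3 := hK _ (n / f.natDegree ^ i % f.natDegree) (κ ^ t * c₀) (by positivity) h2
      (Nat.mod_lt _ (by omega)) h1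
    rw [← dig_level] at h3
    rw [pow_succ, mul_comm (κ ^ t) κ, mul_assoc]
    exact h3

/-- MAIN THEOREM of the core -/
theorem Core.final (hDeg : DegHyp f α β c L) (ε : ℝ) (hε : 0 < ε) :
    ∃ k : ℕ, ∀ n n' : ℕ, n % f.natDegree ^ k = n' % f.natDegree ^ k →
      OscLe (Sp (ZS f c \ Z0 f α β c)) (Hn L β n) (Hn L β n') ε := by
  classical
  have hd := hC.d2
  obtain ⟨c₀, hc₀, hc₁, hreset, hzero⟩ := hC.exists_base hDeg
  obtain ⟨κ, hκ, hκ1, hK⟩ := hC.exists_kappa
  choose Kσ hKσ using fun (σ : ℕ) (hσ : σ < f.natDegree) =>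
    hC.run_lemma hDeg hc₀ hc₁ hσ hzero ε hε
  obtain ⟨N, hN⟩ : ∃ N : ℕ, ∀ (σ : ℕ) (hσ : σ < f.natDegree), Kσ σ hσ ≤ N := by
    refine ⟨∑ σ : Fin f.natDegree, Kσ σ.1 σ.2, fun σ hσ => ?_⟩
    exact Finset.single_le_sum (f := fun σ : Fin f.natDegree => Kσ σ.1 σ.2)
      (fun _ _ => Nat.zero_le _) (Finset.mem_univ ⟨σ, hσ⟩)
  have hκN : 0 < κ ^ N * c₀ := by positivity
  have hκN1 : κ ^ N * c₀ ≤ 1 := by
    have : κ ^ N ≤ 1 := pow_le_one₀ hκ.le hκ1
    nlinarith
  obtain ⟨K, hKit⟩ := hC.niter (κ ^ N * c₀) ε hκN hκN1 hε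
  refine ⟨N + 1 + K, fun n n' hnn => ?_⟩
  set k := N + 1 + K with hk
  have hsubZ : Sp (ZS f c \ Z0 f α β c) ⊆ Sp (ZS f c) := fun s hs z hz => (hs z hz).1
  have hdig : ∀ i < k, n / f.natDegree ^ i % f.natDegree = n' / f.natDegree ^ i % f.natDegree :=
    fun i hi => dig_eq hnn hi
  have hrun : ∀ i : ℕ, ∀ σ : ℕ, σ < f.natDegree → i + N < k →
      (∀ t, i ≤ t → t ≤ i + N → n / f.natDegree ^ t % f.natDegree = σ) →
      ∃ l x l' x', N ≤ l ∧ N ≤ l' ∧ n / f.natDegree ^ i = run f.natDegree σ l x ∧
        n' / f.natDegree ^ i = run f.natDegree σ l' x' ∧ Tge f α β c L c₀ x ∧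
        Tge f α β c L c₀ x' := by
    intro i σ hσ hik hall
    obtain ⟨l, x, h1, h2, h3⟩ := hC.run_dec hreset hzero hσ (n / f.natDegree ^ i) N (by
      intro t ht
      rw [Nat.div_div_eq_div_mul, ← pow_add]
      exact hall (i + t) (by omega) (by omega))
    obtain ⟨l', x', h1', h2', h3'⟩ := hC.run_dec hreset hzero hσ (n' / f.natDegree ^ i) N (by
      intro t ht
      rw [Nat.div_div_eq_div_mul, ← pow_add, ← hdig (i + t) (by omega)]
      exact hall (i + t) (by omega) (by omega))
    exact ⟨l, x, l', x', h1, h1', h2, h2', h3, h3'⟩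
  by_cases hlong : ∃ i : ℕ, i + N < k ∧ ∃ σ < f.natDegree,
      ∀ t, i ≤ t → t ≤ i + N → n / f.natDegree ^ t % f.natDegree = σ
  · -- a long run
    obtain ⟨hi, σ, hσ, hall⟩ := Nat.find_spec hlong
    set i := Nat.find hlong with hidef
    obtain ⟨l, x, l', x', h1, h1', h2, h2', h3, h3'⟩ := hrun i σ hσ hi hall
    have hR := hKσ σ hσ l l' ((hN σ hσ).trans h1) ((hN σ hσ).trans h1') x x' h3 h3'
    rcases Nat.eq_zero_or_pos i with hi0 | hi0
    · rw [hi0, pow_zero, Nat.div_one] at h2
      rw [hi0, pow_zero, Nat.div_one] at h2'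
      rw [h2, h2']
      exact hR.1
    · -- a different digit below
      have hne : n / f.natDegree ^ (i - 1) % f.natDegree ≠ σ := by
        intro heq
        refine Nat.find_min hlong (m := i - 1) (by omega) ⟨by omega, σ, hσ, ?_⟩
        intro t ht1 ht2
        rcases Nat.eq_or_lt_of_le ht1 with h4 | h4
        · rw [← h4]; exact heq
        · exact hall t (by omega) (by omega)
      have hR2 := hR.2 _ (Nat.mod_lt (n / f.natDegree ^ (i - 1)) (by omega)) hne
      rw [← h2, ← h2'] at hR2
      have e1 : f.natDegree * (n / f.natDegree ^ i) + n / f.natDegree ^ (i - 1) % f.natDegree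
          = n / f.natDegree ^ (i - 1) := by
        have := dig_level f.natDegree n (i - 1)
        rw [show i - 1 + 1 = i by omega] at this
        exact this.symm
      have e2 : f.natDegree * (n' / f.natDegree ^ i) + n / f.natDegree ^ (i - 1) % f.natDegree
          = n' / f.natDegree ^ (i - 1) := by
        have := dig_level f.natDegree n' (i - 1)
        rw [show i - 1 + 1 = i by omega] at this
        rw [hdig (i - 1) (by omega)]
        exact this.symm
      rw [e1, e2] at hR2
      -- go down to level 0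
      rcases Nat.eq_zero_or_pos (i - 1) with h0 | h0
      · rw [h0, pow_zero, Nat.div_one, Nat.div_one] at hR2
        exact hR2.subset hsubZ
      · have h5 := hC.osc_word (n / f.natDegree ^ (i - 1)) (n' / f.natDegree ^ (i - 1))
          (dw f.natDegree n (i - 1)) (fun t => Nat.mod_lt _ (by omega)) (i - 1) hR2 hsubZ
        rw [app_dw _ _ _ _ le_rfl, dw_eq hnn (by omega) h0, app_dw _ _ _ _ le_rfl] at h5
        simpa using h5
  · -- no long run
    push Not at hlong
    have hT : ∀ m : ℕ, (∀ i < k, n / f.natDegree ^ i % f.natDegree = m / f.natDegree ^ i % f.natDegree) →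
        ∀ i ≤ K, Tge f α β c L (κ ^ N * c₀) (m / f.natDegree ^ i) := by
      intro m hm i hi
      obtain ⟨t, ht1, ht2, ht3⟩ := hlong i (by omega) (n / f.natDegree ^ i % f.natDegree)
        (Nat.mod_lt _ (by omega))
      -- first change
      have hex : ∃ t : ℕ, n / f.natDegree ^ (i + t) % f.natDegree ≠ n / f.natDegree ^ i % f.natDegree :=
        ⟨t - i, by rw [show i + (t - i) = t by omega]; exact ht3⟩
      have hfmin : Nat.find hex ≤ t - i :=
        Nat.find_min' hex (by rw [show i + (t - i) = t by omega]; exact ht3)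
      have hfs := Nat.find_spec hex
      set u := Nat.find hex with hu
      have hu0 : 0 < u := by
        rcases Nat.eq_zero_or_pos u with h0 | h0
        · exfalso; apply hfs; rw [h0, Nat.add_zero]
        · exact h0
      have hprev : n / f.natDegree ^ (i + (u - 1)) % f.natDegree = n / f.natDegree ^ i % f.natDegree := by
        by_contra hcon
        exact Nat.find_min hex (m := u - 1) (by omega) hcon
      set j := i + (u - 1) with hj
      have hj1 : j + 1 < k := by omega
      have hneq : m / f.natDegree ^ (j + 1) % f.natDegree ≠ m / f.natDegree ^ j % f.natDegree := by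
        rw [← hm (j + 1) hj1, ← hm j (by omega), hprev]
        have : j + 1 = i + u := by omega
        rw [this]; exact hfs
      have h1 : Tge f α β c L c₀ (m / f.natDegree ^ j) := by
        have e : m / f.natDegree ^ j = f.natDegree * (f.natDegree * (m / f.natDegree ^ (j + 1 + 1))
            + m / f.natDegree ^ (j + 1) % f.natDegree) + m / f.natDegree ^ j % f.natDegree := by
          rw [← dig_level f.natDegree m (j + 1)]
          exact dig_level f.natDegree m j
        rw [e]
        exact hreset _ _ _ (Nat.mod_lt _ (by omega)) (Nat.mod_lt _ (by omega)) hneq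
      have h2 := hC.Tge_down hκ hκ1 hc₀ hc₁ hK m i (u - 1) h1
      refine h2.mono ?_
      have : κ ^ N ≤ κ ^ (u - 1) := pow_le_pow_of_le_one hκ.le hκ1 (by omega)
      nlinarith
    have hTn := hT n (fun _ _ => rfl)
    have hTn' := hT n' hdig
    rcases Nat.eq_zero_or_pos K with hK0 | hK0
    · have h1 := hKit n n' (dw f.natDegree n 0) (fun t => Nat.mod_lt _ (by omega))
        (fun i hi => by
          have : i = 0 := by omega
          subst this
          have := hTn 0 (Nat.zero_le _)
          rw [pow_zero, Nat.div_one] at this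
          exact this)
        (fun i hi => by
          have : i = 0 := by omega
          subst this
          have := hTn' 0 (Nat.zero_le _)
          rw [pow_zero, Nat.div_one] at this
          exact this)
      rw [hK0] at h1
      exact h1.subset hsubZ
    · have h1 := hKit (n / f.natDegree ^ K) (n' / f.natDegree ^ K) (dw f.natDegree n K)
        (fun t => Nat.mod_lt _ (by omega))
        (fun i hi => by rw [app_dw _ _ _ _ hi]; exact hTn _ (by omega))
        (fun i hi => by
          rw [dw_eq hnn (by omega) hK0, app_dw _ _ _ _ hi]; exact hTn' _ (by omega))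
      rw [app_dw _ _ _ _ le_rfl, dw_eq hnn (by omega) hK0, app_dw _ _ _ _ le_rfl] at h1
      simpa using h1.subset hsubZ

end

end Pool.Agent.Work.MP_e056c9_an
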