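import Pool.Agent.Work.MP_e056c9_an.End1
import Pool.Agent.Work.MP_e056c9_an.Final

/-! # Limit periodicity of the recurrence coefficients. -/

set_option autoImplicit false
set_option linter.unusedSectionVars false
set_option linter.unusedVariables false
open Polynomial Filter Topology

namespace Pool.Agent.Work.MP_e056c9_an

/-- uniform limit periodicity with periods `d^k` -/
def LP (d : ℕ) (g : ℕ → ℝ) : Prop :=
  ∀ ε : ℝ, 0 < ε → ∃ k : ℕ, ∀ n n' : ℕ, n % d ^ k = n' % d ^ k → |g n - g n'| ≤ ε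

lemma mod_of_le {d n n' k k' : ℕ} (h : n % d ^ k = n' % d ^ k) (hk : k' ≤ k) :
    n % d ^ k' = n' % d ^ k' :=
  (Nat.ModEq.of_dvd (pow_dvd_pow d hk) h : n ≡ n' [MOD d ^ k'])

lemma LP.ap {d : ℕ} (hd : 2 ≤ d) {g : ℕ → ℝ} (h : LP d g) :
    ∀ ε : ℝ, 0 < ε → ∃ l : ℕ, ∀ m : ℕ, ∃ τ : ℕ, m ≤ τ ∧ τ ≤ m + l ∧ ∀ n : ℕ, |g (n + τ) - g n| ≤ ε := by
  intro ε hε
  obtain ⟨k, hk⟩ := h ε hε
  refine ⟨d ^ k, fun m => ?_⟩
  have hpos : 0 < d ^ k := pow_pos (by omega) k
  refine ⟨d ^ k * (m / d ^ k + 1), ?_, ?_, fun n => hk _ _ (by simp)⟩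
  · have h1 := Nat.div_add_mod m (d ^ k)
    have h2 := Nat.mod_lt m hpos
    rw [mul_add, mul_one]; linarith
  · have h1 := Nat.div_add_mod m (d ^ k)
    rw [mul_add, mul_one]; linarith [Nat.zero_le (m % d ^ k)]

section
variable {f : ℝ[X]} {α β : ℝ} {c : Fin (f.natDegree - 1) → ℝ} {L M : ℝ[X] →ₗ[ℝ] ℝ}
  (hC : Core f α β c L M)
include hC

/-- there are large points in the orbits of the critical values -/
lemma exists_large (B : ℝ) : ∃ z ∈ ZS f c \ Z0 f α β c, B ≤ dd α β z ∧ 0 < dd α β z := by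
  obtain ⟨j, hj⟩ := hC.hull.out
  have hlt := hC.hull.lt
  have h0 : 0 < dd α β (f.eval (c j)) := by
    unfold dd
    rcases hj with hj | hj
    · exact lt_of_lt_of_le (by linarith) (le_max_right _ _)
    · exact lt_of_lt_of_le (by linarith) (le_max_left _ _)
  obtain ⟨n, hn⟩ := pow_unbounded_of_one_lt (B / dd α β (f.eval (c j))) (one_lt_two : (1:ℝ) < 2)
  have h1 := hC.hull.it_expand (hC.hull.val j) n
  rw [div_lt_iff₀ h0] at hn
  have h2 : 0 < dd α β (it f n (f.eval (c j))) :=
    lt_of_lt_of_le (mul_pos (by positivity) h0) h1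
  refine ⟨it f n (f.eval (c j)), ⟨⟨j, n, rfl⟩, fun h3 => ?_⟩, by linarith, h2⟩
  have h4 := (dd_eq_zero (hC.hull.it_out (hC.hull.val j) n) hlt).2 (by simpa using h3.2)
  linarith

/-- the functions `u_n(z)` are limit periodic -/
lemma uu_LP (hDeg : DegHyp f α β c L) {z : ℝ} (hz : z ∈ ZS f c \ Z0 f α β c) :
    LP f.natDegree (fun n => uu L β n z) := by
  intro ε hε
  have hzE := hC.hull.ZS_inv.out z hz.1
  set U := dd α β z + (β - α) with hU
  have hlt := hC.hull.lt
  have hdn : 0 ≤ dd α β z := dd_nonneg hzE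
  have hU0 : 0 < U := by linarith
  -- choose ε' with (exp ε' - 1) U ≤ ε
  have hlog : 0 < Real.log (1 + ε / U) := Real.log_pos (by have := div_pos hε hU0; linarith)
  obtain ⟨k, hk⟩ := hC.final hDeg _ hlog
  refine ⟨k, fun n n' hnn => ?_⟩
  have h1 := hC.uu_le_of_osc (none_mem_Sp _) (hk n n' hnn) (some_mem_Sp.2 hz) hzE
  have hexp : Real.exp (Real.log (1 + ε / U)) = 1 + ε / U :=
    Real.exp_log (by have := div_pos hε hU0; linarith)
  rw [hexp] at h1
  have b1 := (hC.uu_bounds n hzE).2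
  have b2 := (hC.uu_bounds n' hzE).2
  have h3 : 0 < ε / U := div_pos hε hU0
  have h4 : ε / U * U = ε := by field_simp
  have e1 : ε / U * uu L β n z ≤ ε := by
    calc ε / U * uu L β n z ≤ ε / U * U := mul_le_mul_of_nonneg_left b1 h3.le
      _ = ε := h4
  have e2 : ε / U * uu L β n' z ≤ ε := by
    calc ε / U * uu L β n' z ≤ ε / U * U := mul_le_mul_of_nonneg_left b2 h3.le
      _ = ε := h4
  rw [abs_le]
  constructor
  · linarith [h1.2]
  · linarith [h1.1]

variable {P : ℕ → ℝ[X]} (hP : ∀ n, IsOP L n (P n))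
include hP

lemma abs_sg (z : ℝ) : |sg β z| = 1 := by unfold sg; split_ifs <;> simp

lemma aa_bdd : ∃ A : ℝ, 0 < A ∧ ∀ n, aa L P n ≤ A := by
  obtain ⟨z, hz, -, hdz⟩ := exists_large hC 1
  have hzE := hC.hull.ZS_inv.out z hz.1
  have hlt := hC.hull.lt
  set U := dd α β z + (β - α) with hU
  have hU0 : 0 < U := by linarith
  refine ⟨(|z| + U + (|α| + |β|) + 1) * U, by positivity, fun n => ?_⟩
  have h1 := rec_succ hC hP n hzE
  have hu := hC.uu_pos n hzE
  have h2 : aa L P n = (z - sg β z * uu L β (n + 1) z - bb L P (n + 1)) * (sg β z * uu L β n z) := by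
    have h6 := sg_mul_self β z
    have : z - sg β z * uu L β (n + 1) z - bb L P (n + 1) = aa L P n * (sg β z / uu L β n z) := by
      linarith
    rw [this]
    field_simp
    linear_combination (-aa L P n) * h6
  have h3 : |aa L P n| ≤ (|z| + U + (|α| + |β|)) * U := by
    rw [h2, abs_mul]
    have b1 := (hC.uu_bounds n hzE).2
    have b2 := (hC.uu_bounds (n + 1) hzE).2
    have hu1 := hC.uu_pos (n + 1) hzE
    have e1 : |sg β z * uu L β n z| ≤ U := by
      rw [abs_mul, abs_sg hC hP, one_mul, abs_of_pos hu]; exact b1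
    have e2 : |z - sg β z * uu L β (n + 1) z - bb L P (n + 1)| ≤ |z| + U + (|α| + |β|) := by
      have t1 := abs_sub (z - sg β z * uu L β (n + 1) z) (bb L P (n + 1))
      have t2 := abs_sub z (sg β z * uu L β (n + 1) z)
      have t3 : |sg β z * uu L β (n + 1) z| ≤ U := by
        rw [abs_mul, abs_sg hC hP, one_mul, abs_of_pos hu1]; exact b2
      have t4 : |bb L P (n + 1)| ≤ |α| + |β| := by
        obtain ⟨l1, l2⟩ := bb_bounds hC hP (n + 1)
        rw [abs_le]
        constructor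
        · have := neg_abs_le α; have := abs_nonneg β; linarith
        · have := le_abs_self β; have := abs_nonneg α; linarith
      linarith
    exact mul_le_mul e2 e1 (abs_nonneg _) (by positivity)
  have h4 := le_abs_self (aa L P n)
  nlinarith

/-- `b_n` from one large point -/
lemma bb_approx {A : ℝ} (hA : 0 < A) (hAn : ∀ n, aa L P n ≤ A) (n : ℕ) {z : ℝ} (hz : z ≤ α ∨ β ≤ z)
    (hd : 0 < dd α β z) : |z - sg β z * uu L β n z - bb L P n| ≤ A / dd α β z := by
  cases n with
  | zero =>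
    have h1 := rec_zero hC hP hz
    have : z - sg β z * uu L β 0 z - bb L P 0 = 0 := by linarith
    rw [this, abs_zero]
    positivity
  | succ n =>
    have h1 := rec_succ hC hP n hz
    have : z - sg β z * uu L β (n + 1) z - bb L P (n + 1) = aa L P n * (sg β z / uu L β n z) := by
      linarith
    have hu := hC.uu_pos n hz
    rw [this, abs_mul, abs_div, abs_sg hC hP, abs_of_pos hu, abs_of_pos (aa_pos hC hP n),
      mul_one_div]
    exact div_le_div₀ hA.le (hAn n) hd (hC.uu_bounds n hz).1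

theorem bb_LP (hDeg : DegHyp f α β c L) : LP f.natDegree (bb L P) := by
  intro ε hε
  obtain ⟨A, hA, hAn⟩ := aa_bdd hC hP
  obtain ⟨z, hz, hzB, hzd⟩ := exists_large hC (4 * A / ε)
  have hzE := hC.hull.ZS_inv.out z hz.1
  obtain ⟨k, hk⟩ := uu_LP hC hDeg hz (ε / 2) (by linarith)
  refine ⟨k, fun n n' hnn => ?_⟩
  have h1 := bb_approx hC hP hA hAn n hzE hzd
  have h2 := bb_approx hC hP hA hAn n' hzE hzd
  have h3 := hk n n' hnn
  have h4 : A / dd α β z ≤ ε / 4 := by
    rw [div_le_iff₀ hε] at hzB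
    rw [div_le_iff₀ hzd]; linarith
  have h5 : |sg β z * (uu L β n z - uu L β n' z)| ≤ ε / 2 := by
    rw [abs_mul, abs_sg hC hP, one_mul]; exact h3
  have e : bb L P n - bb L P n' = -(z - sg β z * uu L β n z - bb L P n)
      + (z - sg β z * uu L β n' z - bb L P n') - sg β z * (uu L β n z - uu L β n' z) := by ring
  rw [e]
  have t1 := abs_sub (-(z - sg β z * uu L β n z - bb L P n)
      + (z - sg β z * uu L β n' z - bb L P n')) (sg β z * (uu L β n z - uu L β n' z))
  have t2 := abs_add_le (-(z - sg β z * uu L β n z - bb L P n))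
      (z - sg β z * uu L β n' z - bb L P n')
  rw [abs_neg] at t2
  linarith

theorem aa_LP (hDeg : DegHyp f α β c L) : LP f.natDegree (aa L P) := by
  intro ε hε
  obtain ⟨z, hz, -, hdz⟩ := exists_large hC 1
  have hzE := hC.hull.ZS_inv.out z hz.1
  have hlt := hC.hull.lt
  set U := dd α β z + (β - α) with hU
  have hU0 : 0 < U := by linarith
  set V := |z| + U + (|α| + |β|) with hV
  have hV0 : 0 < V := by positivity
  obtain ⟨k₁, hk₁⟩ := uu_LP hC hDeg hz (ε / (2 * (U + V))) (by positivity)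
  obtain ⟨k₂, hk₂⟩ := bb_LP hC hP hDeg (ε / (2 * (U + V))) (by positivity)
  refine ⟨max k₁ k₂, fun n n' hnn => ?_⟩
  have hnn1 : (n + 1) % f.natDegree ^ max k₁ k₂ = (n' + 1) % f.natDegree ^ max k₁ k₂ :=
    Nat.ModEq.add_right 1 hnn
  have g1 := hk₁ n n' (mod_of_le hnn (le_max_left _ _))
  have g2 := hk₁ (n + 1) (n' + 1) (mod_of_le hnn1 (le_max_left _ _))
  have g3 := hk₂ (n + 1) (n' + 1) (mod_of_le hnn1 (le_max_right _ _))
  simp only at g1 g2
  have hval : ∀ m, aa L P m = (z - sg β z * uu L β (m + 1) z - bb L P (m + 1))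
      * (sg β z * uu L β m z) := by
    intro m
    have h1 := rec_succ hC hP m hzE
    have hu := hC.uu_pos m hzE
    have h6 := sg_mul_self β z
    have : z - sg β z * uu L β (m + 1) z - bb L P (m + 1) = aa L P m * (sg β z / uu L β m z) := by
      linarith
    rw [this]
    field_simp
    linear_combination (-aa L P m) * h6
  set x := z - sg β z * uu L β (n + 1) z - bb L P (n + 1) with hx
  set x' := z - sg β z * uu L β (n' + 1) z - bb L P (n' + 1) with hx'
  have hs := abs_sg hC hP z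
  have hxb : |x'| ≤ V := by
    have b2 := (hC.uu_bounds (n' + 1) hzE).2
    have hu1 := hC.uu_pos (n' + 1) hzE
    have t1 := abs_sub (z - sg β z * uu L β (n' + 1) z) (bb L P (n' + 1))
    have t2 := abs_sub z (sg β z * uu L β (n' + 1) z)
    have t3 : |sg β z * uu L β (n' + 1) z| ≤ U := by
      rw [abs_mul, hs, one_mul, abs_of_pos hu1]; exact b2
    have t4 : |bb L P (n' + 1)| ≤ |α| + |β| := by
      obtain ⟨l1, l2⟩ := bb_bounds hC hP (n' + 1)
      rw [abs_le]
      constructor
      · have := neg_abs_le α; have := abs_nonneg β; linarith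
      · have := le_abs_self β; have := abs_nonneg α; linarith
    linarith
  have hxx : |x - x'| ≤ ε / (2 * (U + V)) + ε / (2 * (U + V)) := by
    have e : x - x' = -(sg β z * (uu L β (n + 1) z - uu L β (n' + 1) z))
        - (bb L P (n + 1) - bb L P (n' + 1)) := by rw [hx, hx']; ring
    rw [e]
    have t1 := abs_sub (-(sg β z * (uu L β (n + 1) z - uu L β (n' + 1) z)))
      (bb L P (n + 1) - bb L P (n' + 1))
    rw [abs_neg, abs_mul, hs, one_mul] at t1
    linarith
  have hub : |sg β z * uu L β n z| ≤ U := by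
    rw [abs_mul, hs, one_mul, abs_of_pos (hC.uu_pos n hzE)]
    exact (hC.uu_bounds n hzE).2
  have hmain : aa L P n - aa L P n' = (x - x') * (sg β z * uu L β n z)
      + x' * (sg β z * (uu L β n z - uu L β n' z)) := by
    rw [hval n, hval n']; ring
  rw [hmain]
  have t1 := abs_add_le ((x - x') * (sg β z * uu L β n z)) (x' * (sg β z * (uu L β n z - uu L β n' z)))
  rw [abs_mul (x - x'), abs_mul x', abs_mul (sg β z) (uu L β n z - uu L β n' z), hs, one_mul] at t1
  have t2 : |x - x'| * |sg β z * uu L β n z| ≤ (ε / (2 * (U + V)) + ε / (2 * (U + V))) * U :=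
    mul_le_mul hxx hub (abs_nonneg _) (by positivity)
  have t3 : |x'| * |uu L β n z - uu L β n' z| ≤ V * (ε / (2 * (U + V))) :=
    mul_le_mul hxb g1 (abs_nonneg _) hV0.le
  have t4 : (ε / (2 * (U + V)) + ε / (2 * (U + V))) * U + V * (ε / (2 * (U + V))) ≤ ε := by
    have e : (ε / (2 * (U + V)) + ε / (2 * (U + V))) * U + V * (ε / (2 * (U + V)))
        = ε * (2 * U + V) / (2 * (U + V)) := by field_simp; ring
    rw [e, div_le_iff₀ (by positivity)]
    nlinarith
  linarith

end

end Pool.Agent.Work.MP_e056c9_an
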