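import Pool.Agent.Work.MP_e056c9_an.Rigid

/-! # The environments `H_n` and the oscillation. -/

set_option autoImplicit false
set_option linter.unusedSectionVars false
set_option linter.unusedVariables false
open Polynomial

namespace Pool.Agent.Work.MP_e056c9_an

/-- everything the core needs -/
structure Core (f : ℝ[X]) (α β : ℝ) (c : Fin (f.natDegree - 1) → ℝ) (L M : ℝ[X] →ₗ[ℝ] ℝ) :
    Prop where
  hull : Hull f α β c
  bal : BalL f L M
  pos : PosL α β L

/-- the environment at level `n` -/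
noncomputable def Hn (L : ℝ[X] →ₗ[ℝ] ℝ) (β : ℝ) (n : ℕ) : Option ℝ → ℝ
  | none => hh L n
  | some z => hh (LL L β z) n

/-- normalised environment -/
noncomputable def uu (L : ℝ[X] →ₗ[ℝ] ℝ) (β : ℝ) (n : ℕ) (z : ℝ) : ℝ := hh (LL L β z) n / hh L n

/-- log ratio of two environments -/
noncomputable def RR (H H' : Option ℝ → ℝ) (s : Option ℝ) : ℝ := Real.log (H' s / H s)

/-- oscillation at most `b` on `A` -/
def OscLe (A : Set (Option ℝ)) (H H' : Option ℝ → ℝ) (b : ℝ) : Prop :=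
  ∀ s ∈ A, ∀ t ∈ A, RR H H' s - RR H H' t ≤ b

section
variable {f : ℝ[X]} {α β : ℝ} {c : Fin (f.natDegree - 1) → ℝ} {L M : ℝ[X] →ₗ[ℝ] ℝ}
  (hC : Core f α β c L M)
include hC

lemma Core.d2 : 2 ≤ f.natDegree := hC.hull.two_le

lemma Core.hh_pos (n : ℕ) : 0 < hh L n := Pool.Agent.Work.MP_e056c9_an.hh_pos hC.pos.nn (hC.pos.posTo _)

lemma Core.hhz_pos (n : ℕ) {z : ℝ} (hz : z ≤ α ∨ β ≤ z) : 0 < hh (LL L β z) n :=
  Pool.Agent.Work.MP_e056c9_an.hh_pos (hC.pos.nnz hz) (hC.pos.posToz hz _)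

lemma Core.Hn_pos {S : Set ℝ} (hS : InvSet f α β c S) (n : ℕ) : PosOn S (Hn L β n) :=
  ⟨hC.hh_pos n, fun z hz => hC.hhz_pos n (hS.out z hz)⟩

lemma Core.uu_pos (n : ℕ) {z : ℝ} (hz : z ≤ α ∨ β ≤ z) : 0 < uu L β n z :=
  div_pos (hC.hhz_pos n hz) (hC.hh_pos n)

/-- the recursion in terms of `TT` -/
theorem Core.Hn_rec {S : Set ℝ} (hS : InvSet f α β c S) (m r : ℕ) (hr : r < f.natDegree) :
    ∀ s ∈ Sp S, Hn L β (f.natDegree * m + r) s
      = ((f.leadingCoeff ^ m) ^ 2)⁻¹ * TT f c r (Hn L β m) s := by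
  intro s hs
  cases s with
  | none =>
    unfold TT
    split_ifs with h0
    · subst h0
      rw [Nat.add_zero]
      exact rec_inf_zero hC.hull hC.bal hC.pos m
    · exact rec_inf hC.hull hC.bal hC.pos m r hr (by omega)
  | some z => exact rec_z hC.hull hC.bal hC.pos (hS.out z (some_mem_Sp.1 hs)) m r hr

/-- bounds for `u_n(z)` -/
lemma Core.uu_bounds (n : ℕ) {z : ℝ} (hz : z ≤ α ∨ β ≤ z) :
    dd α β z ≤ uu L β n z ∧ uu L β n z ≤ dd α β z + (β - α) := by
  have hlt := hC.hull.lt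
  have hNN := hC.pos.nn
  have hα := hC.pos.nnz (z := α) (Or.inl le_rfl)
  have hβ := hC.pos.nnz (z := β) (Or.inr le_rfl)
  have hsα : sg β α = -1 := by unfold sg; rw [if_neg (not_le.2 hlt)]
  have hsβ : sg β β = 1 := by unfold sg; rw [if_pos le_rfl]
  have key : ∀ p : ℝ[X], dd α β z * L (p ^ 2) ≤ LL L β z (p ^ 2) ∧
      LL L β z (p ^ 2) ≤ (dd α β z + (β - α)) * L (p ^ 2) := by
    intro p
    have h1 := hα p
    have h2 := hβ p
    rw [LL_apply, hsα] at h1
    rw [LL_apply, hsβ] at h2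
    have e1 : L ((C α - X) * p ^ 2) = α * L (p ^ 2) - L (X * p ^ 2) := by
      rw [sub_mul, map_sub, ← smul_eq_C_mul, map_smul, smul_eq_mul]
    have e2 : L ((C β - X) * p ^ 2) = β * L (p ^ 2) - L (X * p ^ 2) := by
      rw [sub_mul, map_sub, ← smul_eq_C_mul, map_smul, smul_eq_mul]
    have e3 : L ((C z - X) * p ^ 2) = z * L (p ^ 2) - L (X * p ^ 2) := by
      rw [sub_mul, map_sub, ← smul_eq_C_mul, map_smul, smul_eq_mul]
    rw [e1] at h1
    rw [e2] at h2
    rw [LL_apply, e3]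
    rcases le_or_gt β z with hb | hb
    · have hs : sg β z = 1 := by unfold sg; rw [if_pos hb]
      have hdd : dd α β z = z - β := by unfold dd; exact max_eq_left (by linarith)
      rw [hs, hdd]
      constructor <;> nlinarith
    · have hza : z ≤ α := by rcases hz with hz | hz; exact hz; linarith
      have hs : sg β z = -1 := by unfold sg; rw [if_neg (not_le.2 hb)]
      have hdd : dd α β z = α - z := by unfold dd; exact max_eq_right (by linarith)
      rw [hs, hdd]
      constructor <;> nlinarith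
  have hLpos := hC.hh_pos n
  have hdn := dd_nonneg hz
  constructor
  · unfold uu
    rw [le_div_iff₀ hLpos]
    refine le_hh fun p hp hpd => ?_
    calc dd α β z * hh L n ≤ dd α β z * L (p ^ 2) :=
          mul_le_mul_of_nonneg_left (hh_le hNN hp hpd) hdn
      _ ≤ _ := (key p).1
  · unfold uu
    rw [div_le_iff₀ hLpos]
    have h3 : hh (LL L β z) n / (dd α β z + (β - α)) ≤ hh L n := by
      refine le_hh fun p hp hpd => ?_
      rw [div_le_iff₀ (by linarith)]
      calc hh (LL L β z) n ≤ LL L β z (p ^ 2) := hh_le (hC.pos.nnz hz) hp hpd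
        _ ≤ (dd α β z + (β - α)) * L (p ^ 2) := (key p).2
        _ = _ := by ring
    rw [div_le_iff₀ (by linarith)] at h3
    linarith

/-- relation between `RR` and `uu` -/
lemma Core.RR_sub (n n' : ℕ) {z : ℝ} (hz : z ≤ α ∨ β ≤ z) :
    RR (Hn L β n) (Hn L β n') (some z) - RR (Hn L β n) (Hn L β n') none
      = Real.log (uu L β n' z) - Real.log (uu L β n z) := by
  have h1 := hC.hh_pos n
  have h2 := hC.hh_pos n'
  have h3 := hC.hhz_pos n hz
  have h4 := hC.hhz_pos n' hz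
  unfold RR uu Hn
  simp only
  rw [Real.log_div h4.ne' h3.ne', Real.log_div h2.ne' h1.ne', Real.log_div h4.ne' h2.ne',
    Real.log_div h3.ne' h1.ne']
  ring

end

end Pool.Agent.Work.MP_e056c9_an
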