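import Mathlib

/-! # The extremal problem `min Λ (p²)` over monic polynomials of degree `n`. -/

set_option autoImplicit false
open Polynomial

namespace Pool.Agent.Work.MP_e056c9_an

/-- `Λ` is nonnegative on squares. -/
def NN (Λ : ℝ[X] →ₗ[ℝ] ℝ) : Prop := ∀ q : ℝ[X], 0 ≤ Λ (q ^ 2)

/-- `Λ` is positive on squares of nonzero polynomials of degree `< n`. -/
def PosTo (Λ : ℝ[X] →ₗ[ℝ] ℝ) (n : ℕ) : Prop := ∀ q : ℝ[X], q ≠ 0 → q.degree < n → 0 < Λ (q ^ 2)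

/-- `min Λ (p²)`, `p` monic of degree `n`. -/
noncomputable def hh (Λ : ℝ[X] →ₗ[ℝ] ℝ) (n : ℕ) : ℝ :=
  sInf {y : ℝ | ∃ p : ℝ[X], p.Monic ∧ p.natDegree = n ∧ y = Λ (p ^ 2)}

/-- `p` is the `n`-th monic orthogonal polynomial of `Λ`. -/
structure IsOP (Λ : ℝ[X] →ₗ[ℝ] ℝ) (n : ℕ) (p : ℝ[X]) : Prop where
  monic : p.Monic
  deg : p.natDegree = n
  orth : ∀ q : ℝ[X], q.degree < n → Λ (p * q) = 0

lemma PosTo.mono {Λ : ℝ[X] →ₗ[ℝ] ℝ} {m n : ℕ} (h : PosTo Λ n) (hmn : m ≤ n) : PosTo Λ m :=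
  fun q hq hd => h q hq (lt_of_lt_of_le hd (by exact_mod_cast hmn))

lemma set_nonempty (Λ : ℝ[X] →ₗ[ℝ] ℝ) (n : ℕ) :
    {y : ℝ | ∃ p : ℝ[X], p.Monic ∧ p.natDegree = n ∧ y = Λ (p ^ 2)}.Nonempty :=
  ⟨_, X ^ n, monic_X_pow n, natDegree_X_pow n, rfl⟩

lemma NN.bdd {Λ : ℝ[X] →ₗ[ℝ] ℝ} (h : NN Λ) (n : ℕ) :
    BddBelow {y : ℝ | ∃ p : ℝ[X], p.Monic ∧ p.natDegree = n ∧ y = Λ (p ^ 2)} :=
  ⟨0, by rintro y ⟨p, -, -, rfl⟩; exact h p⟩

lemma hh_le {Λ : ℝ[X] →ₗ[ℝ] ℝ} (h : NN Λ) {n : ℕ} {p : ℝ[X]} (hp : p.Monic)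
    (hd : p.natDegree = n) : hh Λ n ≤ Λ (p ^ 2) :=
  csInf_le (h.bdd n) ⟨p, hp, hd, rfl⟩

lemma le_hh {Λ : ℝ[X] →ₗ[ℝ] ℝ} {n : ℕ} {b : ℝ}
    (h : ∀ p : ℝ[X], p.Monic → p.natDegree = n → b ≤ Λ (p ^ 2)) : b ≤ hh Λ n :=
  le_csInf (set_nonempty Λ n) (by rintro y ⟨p, hp, hd, rfl⟩; exact h p hp hd)

lemma hh_nonneg {Λ : ℝ[X] →ₗ[ℝ] ℝ} (h : NN Λ) (n : ℕ) : 0 ≤ hh Λ n :=
  le_hh fun p _ _ => h p

lemma hh_mono {Λ Λ' : ℝ[X] →ₗ[ℝ] ℝ} (h : NN Λ) (hle : ∀ p : ℝ[X], Λ (p ^ 2) ≤ Λ' (p ^ 2))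
    (n : ℕ) : hh Λ n ≤ hh Λ' n :=
  le_hh fun p hp hd => (hh_le h hp hd).trans (hle p)

lemma hh_smul {Λ : ℝ[X] →ₗ[ℝ] ℝ} {t : ℝ} (ht : 0 < t) (h : NN Λ) (n : ℕ) :
    hh (t • Λ) n = t * hh Λ n := by
  have h' : NN (t • Λ) := fun q => by
    simp only [LinearMap.smul_apply, smul_eq_mul]; exact mul_nonneg ht.le (h q)
  apply le_antisymm
  · have : hh (t • Λ) n / t ≤ hh Λ n := by
      refine le_hh fun p hp hd => ?_
      rw [div_le_iff₀ ht]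
      have := hh_le h' hp hd
      simp only [LinearMap.smul_apply, smul_eq_mul] at this
      linarith
    rw [div_le_iff₀ ht] at this; linarith
  · refine le_hh fun p hp hd => ?_
    simp only [LinearMap.smul_apply, smul_eq_mul]
    exact mul_le_mul_of_nonneg_left (hh_le h hp hd) ht.le

/-- Pythagoras. -/
lemma IsOP.pyth {Λ : ℝ[X] →ₗ[ℝ] ℝ} {n : ℕ} {p : ℝ[X]} (hp : IsOP Λ n p) {p' : ℝ[X]}
    (h' : p'.Monic) (hd : p'.natDegree = n) :
    (p' - p).degree < n ∧ Λ (p' ^ 2) = Λ (p ^ 2) + Λ ((p' - p) ^ 2) := by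
  have hdeg : (p' - p).degree < n := by
    have h1 : p'.degree = n := by rw [degree_eq_natDegree h'.ne_zero, hd]
    have h2 : p.degree = n := by rw [degree_eq_natDegree hp.monic.ne_zero, hp.deg]
    rw [← h1]
    exact degree_sub_lt_left (h1.trans h2.symm) h'.ne_zero (by rw [h'.leadingCoeff, hp.monic.leadingCoeff])
  refine ⟨hdeg, ?_⟩
  have h0 := hp.orth _ hdeg
  have : p' ^ 2 = p ^ 2 + (p' - p) ^ 2 + (2 : ℝ) • (p * (p' - p)) := by
    rw [Polynomial.smul_eq_C_mul]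
    have : (C (2:ℝ) : ℝ[X]) = 2 := rfl
    rw [this]; ring
  rw [this, map_add, map_add, map_smul, h0]; simp

lemma IsOP.hh_eq {Λ : ℝ[X] →ₗ[ℝ] ℝ} (h : NN Λ) {n : ℕ} {p : ℝ[X]} (hp : IsOP Λ n p) :
    hh Λ n = Λ (p ^ 2) := by
  apply le_antisymm (hh_le h hp.monic hp.deg)
  refine le_hh fun p' h' hd => ?_
  rw [(hp.pyth h' hd).2]
  linarith [h (p' - p)]

lemma IsOP.eq_of_le {Λ : ℝ[X] →ₗ[ℝ] ℝ} {n : ℕ} (hpos : PosTo Λ n) {p : ℝ[X]} (hp : IsOP Λ n p)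
    {p' : ℝ[X]} (h' : p'.Monic) (hd : p'.natDegree = n) (hle : Λ (p' ^ 2) ≤ Λ (p ^ 2)) :
    p' = p := by
  obtain ⟨h1, h2⟩ := hp.pyth h' hd
  by_contra hne
  have := hpos (p' - p) (sub_ne_zero.2 hne) h1
  linarith

/-- Existence of monic orthogonal polynomials. -/
lemma exists_op {Λ : ℝ[X] →ₗ[ℝ] ℝ} {n : ℕ} (hpos : PosTo Λ n) : ∃ p : ℝ[X], IsOP Λ n p := by
  classical
  -- bilinear form on `degreeLT n`
  let V := Polynomial.degreeLT ℝ n
  let B : V →ₗ[ℝ] Module.Dual ℝ V :=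
    LinearMap.mk₂ ℝ (fun q q' : V => Λ ((q : ℝ[X]) * (q' : ℝ[X])))
      (by intro a b c; simp [add_mul]) (by intro a b c; simp)
      (by intro a b c; simp [mul_add]) (by intro a b c; simp)
  have hBinj : Function.Injective B := by
    rw [injective_iff_map_eq_zero]
    intro q hq
    by_contra hne
    have h1 : (B q) q = 0 := by rw [hq]; rfl
    have h2 : (B q) q = Λ ((q : ℝ[X]) ^ 2) := by
      simp only [B, LinearMap.mk₂_apply]; rw [pow_two]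
    have h3 := hpos (q : ℝ[X]) (by simpa using hne) (Polynomial.mem_degreeLT.1 q.2)
    linarith
  have hfd : FiniteDimensional ℝ V := by
    have := (Polynomial.degreeLTEquiv ℝ n).symm
    exact Module.Finite.equiv this
  have hBsurj : Function.Surjective B := by
    have := LinearMap.injective_iff_surjective_of_finrank_eq_finrank
      (f := B) (by rw [Subspace.dual_finrank_eq])
    exact this.1 hBinj
  let φ : Module.Dual ℝ V :=
    { toFun := fun q => Λ (X ^ n * (q : ℝ[X]))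
      map_add' := by intro a b; simp [mul_add]
      map_smul' := by intro a b; simp }
  obtain ⟨q, hq⟩ := hBsurj φ
  have hqd : (q : ℝ[X]).degree < n := Polynomial.mem_degreeLT.1 q.2
  have hqd' : (-(q : ℝ[X])).degree < n := by rw [degree_neg]; exact hqd
  refine ⟨X ^ n + -(q : ℝ[X]), monic_X_pow_add hqd', ?_, ?_⟩
  · rw [natDegree_add_eq_left_of_degree_lt (by rw [degree_X_pow]; exact hqd'), natDegree_X_pow]
  · intro r hr
    have h1 : (B q) ⟨r, Polynomial.mem_degreeLT.2 hr⟩ = φ ⟨r, Polynomial.mem_degreeLT.2 hr⟩ := by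
      rw [hq]
    simp only [B, φ, LinearMap.mk₂_apply, LinearMap.coe_mk, AddHom.coe_mk] at h1
    rw [add_mul, map_add, ← h1, neg_mul, map_neg]; ring

lemma hh_pos {Λ : ℝ[X] →ₗ[ℝ] ℝ} (h : NN Λ) {n : ℕ} (hpos : PosTo Λ (n + 1)) : 0 < hh Λ n := by
  obtain ⟨p, hp⟩ := exists_op (hpos.mono (Nat.le_succ n))
  rw [hp.hh_eq h]
  refine hpos p hp.monic.ne_zero ?_
  rw [degree_eq_natDegree hp.monic.ne_zero, hp.deg]
  exact_mod_cast Nat.lt_succ_self n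

/-- homogeneous form of the extremal property -/
lemma coeff_sq_mul_hh_le {Λ : ℝ[X] →ₗ[ℝ] ℝ} (h : NN Λ) {m : ℕ} {q : ℝ[X]}
    (hq : q.natDegree ≤ m) : q.coeff m ^ 2 * hh Λ m ≤ Λ (q ^ 2) := by
  by_cases h0 : q.coeff m = 0
  · rw [h0]; simpa using h q
  · have hd : q.natDegree = m := le_antisymm hq (le_natDegree_of_ne_zero h0)
    have hlc : q.leadingCoeff = q.coeff m := by rw [leadingCoeff, hd]
    have hne : q ≠ 0 := by rintro rfl; simp at h0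
    have hmon : (C (q.coeff m)⁻¹ * q).Monic := by
      rw [← hlc, mul_comm]; exact monic_mul_leadingCoeff_inv hne
    have hdeg : (C (q.coeff m)⁻¹ * q).natDegree = m := by
      rw [natDegree_C_mul (inv_ne_zero h0), hd]
    have h1 := hh_le h hmon hdeg
    have h2 : (C (q.coeff m)⁻¹ * q) ^ 2 = ((q.coeff m)⁻¹ ^ 2) • q ^ 2 := by
      rw [mul_pow, Polynomial.smul_eq_C_mul, ← C_pow]
    rw [h2, map_smul, smul_eq_mul] at h1
    have h3 : 0 < q.coeff m ^ 2 := by positivity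
    calc q.coeff m ^ 2 * hh Λ m ≤ q.coeff m ^ 2 * ((q.coeff m)⁻¹ ^ 2 * Λ (q ^ 2)) :=
          mul_le_mul_of_nonneg_left h1 h3.le
      _ = Λ (q ^ 2) := by field_simp

/-! ## Discrete functionals -/

/-- `p ↦ ∑ w i p(x i)` -/
noncomputable def disc {ι : Type*} [Fintype ι] (x w : ι → ℝ) : ℝ[X] →ₗ[ℝ] ℝ :=
  ∑ i, w i • Polynomial.leval (x i)

lemma disc_apply {ι : Type*} [Fintype ι] (x w : ι → ℝ) (p : ℝ[X]) :
    disc x w p = ∑ i, w i * p.eval (x i) := by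
  simp [disc, LinearMap.sum_apply]

lemma disc_sq {ι : Type*} [Fintype ι] (x w : ι → ℝ) (p : ℝ[X]) :
    disc x w (p ^ 2) = ∑ i, w i * p.eval (x i) ^ 2 := by
  simp [disc_apply]

lemma disc_NN {ι : Type*} [Fintype ι] (x w : ι → ℝ) (hw : ∀ i, 0 ≤ w i) : NN (disc x w) := by
  intro q
  rw [disc_sq]
  exact Finset.sum_nonneg fun i _ => mul_nonneg (hw i) (sq_nonneg _)

lemma disc_PosTo {ι : Type*} [Fintype ι] (x w : ι → ℝ) (hx : Function.Injective x)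
    (hw : ∀ i, 0 < w i) : PosTo (disc x w) (Fintype.card ι) := by
  classical
  intro q hq hd
  rw [disc_sq]
  by_contra hle
  push Not at hle
  have h0 : ∀ i ∈ Finset.univ, w i * q.eval (x i) ^ 2 = 0 := by
    rw [← Finset.sum_eq_zero_iff_of_nonneg]
    · exact le_antisymm hle (Finset.sum_nonneg fun i _ => mul_nonneg (hw i).le (sq_nonneg _))
    · intro i _; exact mul_nonneg (hw i).le (sq_nonneg _)
  apply hq
  apply Polynomial.eq_zero_of_degree_lt_of_eval_finset_eq_zero (Finset.univ.image x)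
  · rw [Finset.card_image_of_injective _ hx, Finset.card_univ]; exact hd
  · intro y hy
    obtain ⟨i, hi, rfl⟩ := Finset.mem_image.1 hy
    have := h0 i hi
    rcases mul_eq_zero.1 this with h | h
    · exact absurd h (hw i).ne'
    · exact pow_eq_zero_iff (two_ne_zero) |>.1 h

end Pool.Agent.Work.MP_e056c9_an
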