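import Pool.Agent.Work.MP_e056c9_an.NMain

/-! # Iterating (N); oscillation calculus. -/

set_option autoImplicit false
set_option linter.unusedSectionVars false
set_option linter.unusedVariables false
open Polynomial Filter Topology

namespace Pool.Agent.Work.MP_e056c9_an

/-! ### calculus of `OscLe` -/

lemma OscLe.mono {A : Set (Option ℝ)} {H H' : Option ℝ → ℝ} {b b' : ℝ} (h : OscLe A H H' b)
    (hb : b ≤ b') : OscLe A H H' b' := fun s hs t ht => (h s hs t ht).trans hb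

lemma OscLe.subset {A A' : Set (Option ℝ)} {H H' : Option ℝ → ℝ} {b : ℝ} (h : OscLe A H H' b)
    (hA : A' ⊆ A) : OscLe A' H H' b := fun s hs t ht => h s (hA hs) t (hA ht)

lemma RR_symm (H H' : Option ℝ → ℝ) (s : Option ℝ) : RR H' H s = - RR H H' s := by
  unfold RR
  rw [← Real.log_inv, inv_div]

lemma OscLe.symm {A : Set (Option ℝ)} {H H' : Option ℝ → ℝ} {b : ℝ} (h : OscLe A H H' b) :
    OscLe A H' H b := by
  intro s hs t ht
  rw [RR_symm H H', RR_symm H H']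
  linarith [h t ht s hs]

lemma RR_trans {H H' H'' : Option ℝ → ℝ} {s : Option ℝ} (h1 : 0 < H s) (h2 : 0 < H' s)
    (h3 : 0 < H'' s) : RR H H'' s = RR H H' s + RR H' H'' s := by
  unfold RR
  rw [Real.log_div h3.ne' h1.ne', Real.log_div h2.ne' h1.ne', Real.log_div h3.ne' h2.ne']
  ring

lemma OscLe.trans {A : Set (Option ℝ)} {H H' H'' : Option ℝ → ℝ} {b b' : ℝ}
    (h1 : ∀ s ∈ A, 0 < H s) (h2 : ∀ s ∈ A, 0 < H' s) (h3 : ∀ s ∈ A, 0 < H'' s)
    (h : OscLe A H H' b) (h' : OscLe A H' H'' b') : OscLe A H H'' (b + b') := by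
  intro s hs t ht
  rw [RR_trans (h1 s hs) (h2 s hs) (h3 s hs), RR_trans (h1 t ht) (h2 t ht) (h3 t ht)]
  linarith [h s hs t ht, h' s hs t ht]

/-- oscillation from two sided bounds -/
lemma osc_of_bounds {A : Set (Option ℝ)} {H H' ρ : Option ℝ → ℝ} {a b : ℝ} (ha : 0 < a)
    (hb : 0 < b) (hρ : ∀ s ∈ A, 0 < ρ s) (h1 : ∀ s ∈ A, a * ρ s ≤ H s) (h2 : ∀ s ∈ A, H s ≤ b * ρ s)
    (h1' : ∀ s ∈ A, a * ρ s ≤ H' s) (h2' : ∀ s ∈ A, H' s ≤ b * ρ s) :
    OscLe A H H' (2 * Real.log (b / a)) := by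
  have key : ∀ x y z : ℝ, 0 < z → a * z ≤ x → y ≤ b * z → 0 < y →
      Real.log (y / x) ≤ Real.log (b / a) := by
    intro x y z hz hx hy hyp
    have hxp : 0 < x := lt_of_lt_of_le (mul_pos ha hz) hx
    apply Real.log_le_log (div_pos hyp hxp)
    rw [div_le_div_iff₀ hxp ha]
    nlinarith [mul_le_mul_of_nonneg_left hx hb.le, mul_le_mul_of_nonneg_right hy ha.le]
  intro s hs t ht
  have p1 : 0 < H s := lt_of_lt_of_le (mul_pos ha (hρ s hs)) (h1 s hs)
  have p2 : 0 < H' s := lt_of_lt_of_le (mul_pos ha (hρ s hs)) (h1' s hs)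
  have p3 : 0 < H t := lt_of_lt_of_le (mul_pos ha (hρ t ht)) (h1 t ht)
  have p4 : 0 < H' t := lt_of_lt_of_le (mul_pos ha (hρ t ht)) (h1' t ht)
  have e1 := key _ _ _ (hρ s hs) (h1 s hs) (h2' s hs) p2
  have e2 := key _ _ _ (hρ t ht) (h1' t ht) (h2 t ht) p3
  have e3 : RR H H' t = - Real.log (H t / H' t) := by
    rw [RR_symm H' H]; rfl
  rw [e3]
  have e4 : RR H H' s = Real.log (H' s / H s) := rfl
  rw [e4]
  linarith

/-! ### words -/

lemma app_congr (d : ℕ) (r r' : ℕ → ℕ) (k n : ℕ) (h : ∀ i < k, r i = r' i) :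
    app d r k n = app d r' k n := by
  induction k with
  | zero => rfl
  | succ k ih =>
    show d * app d r k n + r k = d * app d r' k n + r' k
    rw [ih fun i hi => h i (by omega), h k (by omega)]

lemma app_add (d : ℕ) (r : ℕ → ℕ) (i k n : ℕ) :
    app d r (i + k) n = app d (fun t => r (i + t)) k (app d r i n) := by
  induction k with
  | zero => rfl
  | succ k ih =>
    show d * app d r (i + k) n + r (i + k) = _
    rw [ih]; rfl

/-- `σ`-runs -/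
def run (d σ L x : ℕ) : ℕ := app d (fun _ => σ) L x

lemma run_zero (d σ x : ℕ) : run d σ 0 x = x := rfl
lemma run_succ (d σ L x : ℕ) : run d σ (L + 1) x = d * run d σ L x + σ := rfl
lemma run_add (d σ i k x : ℕ) : run d σ (i + k) x = run d σ k (run d σ i x) :=
  app_add d (fun _ => σ) i k x

section
variable {f : ℝ[X]} {α β : ℝ} {c : Fin (f.natDegree - 1) → ℝ} {L M : ℝ[X] →ₗ[ℝ] ℝ}

lemma Tge.mono {c₀ c₁ : ℝ} {n : ℕ} (h : Tge f α β c L c₀ n) (hc : c₁ ≤ c₀) :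
    Tge f α β c L c₁ n := fun e he => hc.trans (h e he)

variable (hC : Core f α β c L M)
include hC

lemma Core.Hn_pos' (n : ℕ) {s : Option ℝ} (hs : s ∈ Sp (ZS f c)) : 0 < Hn L β n s := by
  have := hC.Hn_pos hC.hull.ZS_inv n
  cases s with
  | none => exact this.1
  | some z => exact this.2 z (some_mem_Sp.1 hs)

lemma Core.osc_trans {A : Set (Option ℝ)} (hA : A ⊆ Sp (ZS f c)) {n n' n'' : ℕ} {b b' : ℝ}
    (h : OscLe A (Hn L β n) (Hn L β n') b) (h' : OscLe A (Hn L β n') (Hn L β n'') b') :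
    OscLe A (Hn L β n) (Hn L β n'') (b + b') :=
  OscLe.trans (fun s hs => hC.Hn_pos' n (hA hs)) (fun s hs => hC.Hn_pos' n' (hA hs))
    (fun s hs => hC.Hn_pos' n'' (hA hs)) h h'

/-- bounded oscillation -/
lemma Core.osc_bdd : ∃ C₁ : ℝ, 1 ≤ C₁ ∧ ∀ (c₀ : ℝ), 0 < c₀ → c₀ ≤ 1 → ∀ n n' : ℕ,
    Tge f α β c L c₀ n → Tge f α β c L c₀ n' →
    OscLe (Sp (ZS f c)) (Hn L β n) (Hn L β n') (2 * Real.log (C₁ / c₀)) := by
  obtain ⟨C₁, hC₁, hup⟩ := hC.exists_upper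
  refine ⟨C₁, hC₁, fun c₀ hc₀ hc₁ n n' ht ht' => ?_⟩
  rw [← hC.OscLe_NH n n' hC.hull.ZS_inv (le_refl _)]
  have hρ := rho_PosOn hC.hull hC.hull.ZS_inv
  refine osc_of_bounds (ρ := rho α β) hc₀ (by linarith) ?_ (hC.lower n hc₀ hc₁ ht) (hup n)
    (hC.lower n' hc₀ hc₁ ht') (hup n')
  intro s hs
  cases s with
  | none => exact hρ.1
  | some z => exact hρ.2 z (some_mem_Sp.1 hs)

/-- pointwise comparison from oscillation -/
lemma Core.uu_le_of_osc {A : Set (Option ℝ)} (hA : none ∈ A) {n n' : ℕ} {b : ℝ}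
    (h : OscLe A (Hn L β n) (Hn L β n') b) {z : ℝ} (hz : some z ∈ A) (hzE : z ≤ α ∨ β ≤ z) :
    uu L β n z ≤ Real.exp b * uu L β n' z ∧ uu L β n' z ≤ Real.exp b * uu L β n z := by
  have p1 := hC.uu_pos n hzE
  have p2 := hC.uu_pos n' hzE
  have e := hC.RR_sub n n' hzE
  have e1 := h _ hz _ hA
  have e2 := h _ hA _ hz
  constructor
  · have : Real.log (uu L β n z) ≤ b + Real.log (uu L β n' z) := by linarith
    have h3 := Real.exp_le_exp.2 this
    rwa [Real.exp_add, Real.exp_log p1, Real.exp_log p2] at h3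
  · have : Real.log (uu L β n' z) ≤ b + Real.log (uu L β n z) := by linarith
    have h3 := Real.exp_le_exp.2 this
    rwa [Real.exp_add, Real.exp_log p1, Real.exp_log p2] at h3

lemma Core.Tge_of_osc {n n' : ℕ} {b t : ℝ}
    (h : OscLe (Sp (ZS f c)) (Hn L β n) (Hn L β n') b) (ht : Tge f α β c L t n) :
    Tge f α β c L (Real.exp (-b) * t) n' := by
  intro e he
  have h1 := (hC.uu_le_of_osc (none_mem_Sp _) h (some_mem_Sp.2 he.1) (hC.hull.ZS_inv.out e he.1)).1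
  have h2 := ht e he
  rw [Real.exp_neg, inv_mul_le_iff₀ (Real.exp_pos b)]
  linarith

/-- nonexpansiveness along words -/
lemma Core.osc_word {A : Set (Option ℝ)} (n n' : ℕ) (r : ℕ → ℕ) (hr : ∀ i, r i < f.natDegree) (i : ℕ)
    {b : ℝ} (hb : OscLe (Sp (ZS f c)) (Hn L β n) (Hn L β n') b) (hA : A ⊆ Sp (ZS f c)) :
    OscLe A (Hn L β (app f.natDegree r i n)) (Hn L β (app f.natDegree r i n')) b :=
  (hC.osc_app n n' r hr i hb).subset hA

lemma Core.nstep_pos (c₀ η : ℝ) (hc₀ : 0 < c₀) (hc₁ : c₀ ≤ 1) (hη : 0 < η) :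
    ∃ (k₀ : ℕ) (δ : ℝ), 1 ≤ k₀ ∧ 0 < δ ∧ ∀ n n' : ℕ, Tge f α β c L c₀ n → Tge f α β c L c₀ n' →
      ∀ r : ℕ → ℕ, (∀ i, r i < f.natDegree) → ∀ b : ℝ, η ≤ b →
      OscLe (Sp (ZS f c)) (Hn L β n) (Hn L β n') b →
      OscLe (Sp (ZS f c)) (Hn L β (app f.natDegree r k₀ n)) (Hn L β (app f.natDegree r k₀ n'))
        (b - δ) := by
  obtain ⟨k₀, δ, hδ, hN⟩ := hC.nstep c₀ η hc₀ hc₁ hη
  refine ⟨k₀ + 1, δ, by omega, hδ, fun n n' ht ht' r hr b hb hosc => ?_⟩
  exact hC.osc_step _ _ _ (hr k₀) (hN n n' ht ht' r hr b hb hosc)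

/-- iterated (N) -/
theorem Core.niter (c₀ ε : ℝ) (hc₀ : 0 < c₀) (hc₁ : c₀ ≤ 1) (hε : 0 < ε) :
    ∃ K : ℕ, ∀ n n' : ℕ, ∀ r : ℕ → ℕ, (∀ i, r i < f.natDegree) →
      (∀ i ≤ K, Tge f α β c L c₀ (app f.natDegree r i n)) →
      (∀ i ≤ K, Tge f α β c L c₀ (app f.natDegree r i n')) →
      OscLe (Sp (ZS f c)) (Hn L β (app f.natDegree r K n)) (Hn L β (app f.natDegree r K n')) ε := by
  obtain ⟨k₀, δ, hk₀, hδ, hN⟩ := hC.nstep_pos c₀ ε hc₀ hc₁ hε
  obtain ⟨C₁, hC₁, hbd⟩ := hC.osc_bdd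
  set B := 2 * Real.log (C₁ / c₀) with hB
  obtain ⟨J, hJ⟩ := exists_nat_ge (B / δ)
  refine ⟨J * k₀, fun n n' r hr ht ht' => ?_⟩
  have key : ∀ j ≤ J, OscLe (Sp (ZS f c)) (Hn L β (app f.natDegree r (j * k₀) n))
      (Hn L β (app f.natDegree r (j * k₀) n')) (max (B - j * δ) ε) := by
    intro j
    induction j with
    | zero =>
      intro _
      have h0 := hbd c₀ hc₀ hc₁ _ _ (ht 0 (Nat.zero_le _)) (ht' 0 (Nat.zero_le _))
      rw [Nat.zero_mul]
      refine h0.mono ?_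
      simp [hB]
    | succ j ih =>
      intro hj
      have h1 := ih (by omega)
      have hle : j * k₀ ≤ J * k₀ := Nat.mul_le_mul_right _ (by omega)
      have h2 := hN _ _ (ht _ hle) (ht' _ hle) (fun t => r (j * k₀ + t)) (fun t => hr _) _
        (le_max_right _ _) h1
      rw [← app_add, ← app_add] at h2
      have e : (j + 1) * k₀ = j * k₀ + k₀ := by ring
      rw [e]
      refine h2.mono ?_
      push_cast
      rcases le_total (B - j * δ) ε with h3 | h3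
      · rw [max_eq_right h3]
        exact (by linarith : ε - δ ≤ ε).trans (le_max_right _ _)
      · rw [max_eq_left h3]
        refine le_trans ?_ (le_max_left _ _)
        linarith
  refine (key J le_rfl).mono ?_
  rw [div_le_iff₀ hδ] at hJ
  apply max_le _ le_rfl
  linarith

end

end Pool.Agent.Work.MP_e056c9_an
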