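import Pool.Agent.Work.MP_e056c9_an.Norm

/-! # Nonexpansiveness, compactness and the contraction lemma (N). -/

set_option autoImplicit false
set_option linter.unusedSectionVars false
set_option linter.unusedVariables false
open Polynomial Filter Topology

namespace Pool.Agent.Work.MP_e056c9_an

/-! ### ultrafilter limits -/

lemma ulim (U : Ultrafilter ℕ) {g : ℕ → ℝ} {a b : ℝ} (hg : ∀ k, g k ∈ Set.Icc a b) :
    ∃ x ∈ Set.Icc a b, Tendsto g U (𝓝 x) := by
  have h := isCompact_Icc.ultrafilter_le_nhds (U.map g) (s := Set.Icc a b)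
    (by
      rw [le_principal_iff]
      exact Filter.mem_map.2 (Filter.univ_mem' hg))
  obtain ⟨x, hx, hle⟩ := h
  exact ⟨x, hx, hle⟩

lemma ufin (U : Ultrafilter ℕ) {γ : Type*} {g : ℕ → γ} {F : Set γ} (hF : F.Finite)
    (hg : ∀ᶠ k in (U : Filter ℕ), g k ∈ F) : ∃ x ∈ F, ∀ᶠ k in (U : Filter ℕ), g k = x := by
  obtain ⟨x, hx, hU⟩ := Ultrafilter.eq_pure_of_finite_mem (f := U.map g) hF hg
  refine ⟨x, hx, ?_⟩
  have : {x} ∈ U.map g := by rw [hU]; exact Ultrafilter.mem_pure.2 rfl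
  exact this

/-! ### continuity of `hh` in the weights -/

lemma hh_tendsto {ι : Type*} [Fintype ι] {x : ι → ℝ} {l : Filter ℕ} {w : ℕ → ι → ℝ} {w₀ : ι → ℝ}
    (hw : ∀ k i, 0 < w k i) (hw₀ : ∀ i, 0 < w₀ i) (hlim : ∀ i, Tendsto (fun k => w k i) l (𝓝 (w₀ i)))
    (m : ℕ) : Tendsto (fun k => hh (disc x (w k)) m) l (𝓝 (hh (disc x w₀) m)) := by
  rw [Metric.tendsto_nhds]
  intro ε hε
  set h₀ := hh (disc x w₀) m with hh₀
  have h0 : 0 ≤ h₀ := hh_nonneg (disc_NN _ _ fun i => (hw₀ i).le) m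
  set e := min (1 / 2) (ε / (2 * (h₀ + 1))) with he
  have he0 : 0 < e := lt_min (by norm_num) (by positivity)
  have he1 : e ≤ 1 / 2 := min_le_left _ _
  have he2 : e * h₀ < ε := by
    have h1 : e ≤ ε / (2 * (h₀ + 1)) := min_le_right _ _
    rw [le_div_iff₀ (by positivity)] at h1
    nlinarith
  have hev : ∀ᶠ k in l, ∀ i, |w k i - w₀ i| < e * w₀ i := by
    rw [eventually_all]
    intro i
    have := (Metric.tendsto_nhds.1 (hlim i)) (e * w₀ i) (mul_pos he0 (hw₀ i))
    exact this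
  filter_upwards [hev] with k hk
  rw [Real.dist_eq]
  have hup : hh (disc x (w k)) m ≤ (1 + e) * h₀ :=
    hh_disc_le_mul (by linarith) (fun i => (hw₀ i).le) (fun i => (hw k i).le)
      (fun i => by have := (abs_lt.1 (hk i)).2; linarith) m
  have hlo : (1 - e) * h₀ ≤ hh (disc x (w k)) m := by
    rw [hh₀, ← hh_disc_smul (by linarith) (fun i => (hw₀ i).le)]
    exact hh_disc_mono (fun i => mul_nonneg (by linarith) (hw₀ i).le)
      (fun i => by have := (abs_lt.1 (hk i)).1; linarith) m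
  rw [abs_lt]
  constructor <;> nlinarith

section
variable {f : ℝ[X]} {α β : ℝ} {c : Fin (f.natDegree - 1) → ℝ} (h : Hull f α β c)
  {S : Set ℝ} (hS : InvSet f α β c S)
include h hS

lemma TT_tendsto {l : Filter ℕ} {N : ℕ → Option ℝ → ℝ} {G : Option ℝ → ℝ}
    (hN : ∀ k, PosOn S (N k)) (hG : PosOn S G)
    (hlim : ∀ s ∈ Sp S, Tendsto (fun k => N k s) l (𝓝 (G s))) (r : ℕ) :
    ∀ s ∈ Sp S, Tendsto (fun k => TT f c r (N k) s) l (𝓝 (TT f c r G s)) := by
  intro s hs
  cases s with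
  | none =>
    unfold TT
    split_ifs with h0
    · exact hlim _ hs
    · unfold Dinf
      refine hh_tendsto (fun k i => omc_pos h hS (hN k) i) (omc_pos h hS hG) ?_ _
      intro i
      unfold om
      exact (hlim _ (some_mem_Sp.2 (hS.val i))).div_const _
  | some z =>
    have hz := some_mem_Sp.1 hs
    unfold TT Dz
    refine hh_tendsto (fun k i => omz_pos h hS (hN k) hz i) (omz_pos h hS hG hz) ?_ _
    intro i
    unfold om
    refine (hlim _ (some_mem_Sp.2 ?_)).div_const _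
    cases i with
    | none => exact hS.maps z hz
    | some j => exact hS.val j

/-- nonexpansiveness -/
lemma TT_osc {H H' : Option ℝ → ℝ} (hH : PosOn S H) (hH' : PosOn S H') {b : ℝ} (r : ℕ)
    (hr : r < f.natDegree)
    (hb : OscLe (Sp S) H H' b) : OscLe (Sp S) (TT f c r H) (TT f c r H') b := by
  have hpos : ∀ {G : Option ℝ → ℝ}, PosOn S G → ∀ s ∈ Sp S, 0 < G s := by
    intro G hG s hs
    cases s with
    | none => exact hG.1
    | some z => exact hG.2 z (some_mem_Sp.1 hs)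
  set A : Set ℝ := (RR H H') '' (Sp S) with hA
  have hAne : A.Nonempty := ⟨_, none, none_mem_Sp S, rfl⟩
  have hAb : BddAbove A := ⟨RR H H' none + b, by
    rintro y ⟨s, hs, rfl⟩
    have := hb s hs none (none_mem_Sp S)
    linarith⟩
  set m := sSup A with hm
  have h1 : ∀ s ∈ Sp S, RR H H' s ≤ m := fun s hs => le_csSup hAb ⟨s, hs, rfl⟩
  have h2 : ∀ s ∈ Sp S, m - b ≤ RR H H' s := by
    intro s hs
    have : m ≤ RR H H' s + b := csSup_le hAne (by
      rintro y ⟨t, ht, rfl⟩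
      linarith [hb t ht s hs])
    linarith
  have hup : ∀ s ∈ Sp S, H' s ≤ Real.exp m * H s := by
    intro s hs
    have e1 := h1 s hs
    unfold RR at e1
    have e2 := hpos hH s hs
    have e3 := hpos hH' s hs
    rw [Real.log_le_iff_le_exp (div_pos e3 e2), div_le_iff₀ e2] at e1
    exact e1
  have hlo : ∀ s ∈ Sp S, Real.exp (m - b) * H s ≤ H' s := by
    intro s hs
    have e1 := h2 s hs
    unfold RR at e1
    have e2 := hpos hH s hs
    have e3 := hpos hH' s hs
    rw [Real.le_log_iff_exp_le (div_pos e3 e2), le_div_iff₀ e2] at e1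
    exact e1
  have hT := TT_pos h hS hH hr
  have hT' := TT_pos h hS hH' hr
  have g1 := TT_le h hS hH hH' (r := r) (Real.exp_pos m) hup
  have g2 := TT_ge h hS hH hH' (r := r) (Real.exp_pos (m - b)) hlo
  intro s hs t ht
  have k1 : RR (TT f c r H) (TT f c r H') s ≤ m := by
    unfold RR
    rw [Real.log_le_iff_le_exp (div_pos (hpos hT' s hs) (hpos hT s hs)), div_le_iff₀ (hpos hT s hs)]
    exact g1 s hs
  have k2 : m - b ≤ RR (TT f c r H) (TT f c r H') t := by
    unfold RR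
    rw [Real.le_log_iff_exp_le (div_pos (hpos hT' t ht) (hpos hT t ht)), le_div_iff₀ (hpos hT t ht)]
    exact g2 t ht
  linarith

end

section
variable {f : ℝ[X]} {α β : ℝ} {c : Fin (f.natDegree - 1) → ℝ} {L M : ℝ[X] →ₗ[ℝ] ℝ}
  (hC : Core f α β c L M)
include hC

lemma Core.osc_step (n n' r : ℕ) (hr : r < f.natDegree) {b : ℝ}
    (hb : OscLe (Sp (ZS f c)) (Hn L β n) (Hn L β n') b) :
    OscLe (Sp (ZS f c)) (Hn L β (f.natDegree * n + r)) (Hn L β (f.natDegree * n' + r)) b := by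
  have hinv := hC.hull.ZS_inv
  have h1 := TT_osc hC.hull hinv (hC.Hn_pos hinv n) (hC.Hn_pos hinv n') r hr hb
  have hlc := lc_ne hC.d2
  have key : ∀ s ∈ Sp (ZS f c), RR (Hn L β (f.natDegree * n + r)) (Hn L β (f.natDegree * n' + r)) s
      = RR (TT f c r (Hn L β n)) (TT f c r (Hn L β n')) s
        + Real.log (((f.leadingCoeff ^ n') ^ 2)⁻¹ / ((f.leadingCoeff ^ n) ^ 2)⁻¹) := by
    intro s hs
    have e1 : 0 < TT f c r (Hn L β n) s := by
      have := TT_pos hC.hull hinv (hC.Hn_pos hinv n) hr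
      cases s with
      | none => exact this.1
      | some z => exact this.2 z (some_mem_Sp.1 hs)
    have e2 : 0 < TT f c r (Hn L β n') s := by
      have := TT_pos hC.hull hinv (hC.Hn_pos hinv n') hr
      cases s with
      | none => exact this.1
      | some z => exact this.2 z (some_mem_Sp.1 hs)
    unfold RR
    rw [hC.Hn_rec hinv n r hr s hs, hC.Hn_rec hinv n' r hr s hs, mul_div_mul_comm,
      Real.log_mul (by positivity) (by positivity)]
    ring
  intro s hs t ht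
  rw [key s hs, key t ht]
  linarith [h1 s hs t ht]

/-- downward word -/
def app (d : ℕ) (r : ℕ → ℕ) : ℕ → ℕ → ℕ
  | 0, n => n
  | i + 1, n => d * app d r i n + r i

lemma Core.osc_app (n n' : ℕ) (r : ℕ → ℕ) (hr : ∀ i, r i < f.natDegree) (i : ℕ) {b : ℝ}
    (hb : OscLe (Sp (ZS f c)) (Hn L β n) (Hn L β n') b) :
    OscLe (Sp (ZS f c)) (Hn L β (app f.natDegree r i n)) (Hn L β (app f.natDegree r i n')) b := by
  induction i with
  | zero => exact hb
  | succ i ih => exact hC.osc_step _ _ _ (hr i) ih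

lemma Core.osc_app_sub (n n' : ℕ) (r : ℕ → ℕ) (hr : ∀ i, r i < f.natDegree) (i k : ℕ) (hik : i ≤ k)
    {b : ℝ}
    (hb : OscLe (Sp (ZS f c)) (Hn L β (app f.natDegree r i n)) (Hn L β (app f.natDegree r i n')) b) :
    OscLe (Sp (ZS f c)) (Hn L β (app f.natDegree r k n)) (Hn L β (app f.natDegree r k n')) b := by
  induction k, hik using Nat.le_induction with
  | base => exact hb
  | succ k _ ih => exact hC.osc_step _ _ _ (hr k) ih

lemma Core.Tge_app {κ : ℝ} (hκ : 0 < κ) (hκ1 : κ ≤ 1)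
    (hK : ∀ (n r : ℕ) (c₀ : ℝ), 0 < c₀ → c₀ ≤ 1 →
      r < f.natDegree → Tge f α β c L c₀ n → Tge f α β c L (κ * c₀) (f.natDegree * n + r))
    (n : ℕ) (r : ℕ → ℕ) (hr : ∀ i, r i < f.natDegree) {c₀ : ℝ} (hc₀ : 0 < c₀) (hc₁ : c₀ ≤ 1)
    (ht : Tge f α β c L c₀ n) (i : ℕ) : Tge f α β c L (κ ^ i * c₀) (app f.natDegree r i n) := by
  induction i with
  | zero => rw [pow_zero, one_mul]; exact ht
  | succ i ih =>
    have h1 : κ ^ i * c₀ ≤ 1 := by
      have : κ ^ i ≤ 1 := pow_le_one₀ hκ.le hκ1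
      nlinarith
    have := hK _ (r i) (κ ^ i * c₀) (by positivity) h1 (hr i) ih
    rw [pow_succ, mul_comm (κ ^ i) κ, mul_assoc]
    exact this

end

end Pool.Agent.Work.MP_e056c9_an
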