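import Pool.Agent.Work.MP_e056c9_an.NLemma

/-! # The contraction lemma (N). -/

set_option autoImplicit false
set_option linter.unusedSectionVars false
set_option linter.unusedVariables false
open Polynomial Filter Topology

namespace Pool.Agent.Work.MP_e056c9_an

section
variable {f : ℝ[X]} {α β : ℝ} {c : Fin (f.natDegree - 1) → ℝ} {L M : ℝ[X] →ₗ[ℝ] ℝ}
  (hC : Core f α β c L M)
include hC

omit hC in
lemma log_ratio_le {d b x y : ℝ} (hd : 0 < d) (hb : 0 ≤ b) (hx1 : d ≤ x) (hx2 : x ≤ d + b)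
    (hy1 : d ≤ y) (hy2 : y ≤ d + b) : |Real.log (y / x)| ≤ b / d := by
  have hx : 0 < x := by linarith
  have hy : 0 < y := by linarith
  have key : ∀ x y : ℝ, d ≤ x → y ≤ d + b → 0 < y → Real.log (y / x) ≤ b / d := by
    intro x y hx hy hyp
    have hx0 : 0 < x := by linarith
    have h1 : Real.log (y / x) ≤ y / x - 1 := Real.log_le_sub_one_of_pos (div_pos hyp hx0)
    have h2 : y / x ≤ (d + b) / d := by
      rw [div_le_div_iff₀ hx0 hd]
      nlinarith
    have h3 : (d + b) / d = 1 + b / d := by field_simp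
    linarith
  rw [abs_le]
  constructor
  · have := key y x hy1 hx2 hx
    have h4 : Real.log (y / x) = - Real.log (x / y) := by
      rw [Real.log_div hy.ne' hx.ne', Real.log_div hx.ne' hy.ne']; ring
    linarith
  · exact key x y hx1 hy2 hy

omit hC in
/-- limit of a sequence of states -/
lemma state_lim (h : Hull f α β c) (U : Ultrafilter ℕ) {s : ℕ → Option ℝ}
    (hs : ∀ k, s k ∈ Sp (ZS f c)) {G : ℕ → Option ℝ → ℝ} {g : Option ℝ → ℝ}
    (hlim : ∀ t ∈ Sp (ZS f c), Tendsto (fun k => G k t) U (𝓝 (g t)))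
    (hnone : ∀ k, G k none = 0)
    (hbd : ∀ k z, z ∈ ZS f c → 0 < dd α β z → |G k (some z)| ≤ (β - α) / dd α β z) :
    ∃ t ∈ Sp (ZS f c), Tendsto (fun k => G k (s k)) U (𝓝 (g t)) := by
  classical
  set F : ℝ → Set (Option ℝ) := fun B => {s ∈ Sp (ZS f c) | ∀ z, s = some z → dd α β z ≤ B} with hF
  obtain ⟨δ₀, hδ, -, hfin⟩ := h.exists_delta
  have hFfin : ∀ B, (F B).Finite := by
    intro B
    have : F B ⊆ {none} ∪ some '' {z ∈ ZS f c | dd α β z ≤ B} := by
      rintro s ⟨hs, hs2⟩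
      cases s with
      | none => left; rfl
      | some z => right; exact ⟨z, ⟨some_mem_Sp.1 hs, hs2 z rfl⟩, rfl⟩
    exact Set.Finite.subset ((Set.finite_singleton _).union ((hfin B).image _)) this
  by_cases hB : ∃ B, ∀ᶠ k in (U : Filter ℕ), s k ∈ F B
  · obtain ⟨B, hB⟩ := hB
    obtain ⟨t, ht, hev⟩ := ufin U (hFfin B) hB
    refine ⟨t, ht.1, ?_⟩
    refine (hlim t ht.1).congr' ?_
    filter_upwards [hev] with k hk
    rw [hk]
  · push Not at hB
    refine ⟨none, none_mem_Sp _, ?_⟩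
    have hg0 : g none = 0 := by
      have h1 := hlim none (none_mem_Sp _)
      have h2 : Tendsto (fun k => G k none) U (𝓝 0) := by
        have : (fun k => G k none) = fun _ => (0 : ℝ) := by funext k; exact hnone k
        rw [this]; exact tendsto_const_nhds
      exact tendsto_nhds_unique h1 h2
    rw [hg0, Metric.tendsto_nhds]
    intro ε hε
    have hαβ := h.lt
    have h1 : ∀ᶠ k in (U : Filter ℕ), s k ∉ F ((β - α) / ε + 1) :=
      hB _
    filter_upwards [h1] with k hk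
    rw [Real.dist_eq, sub_zero]
    have hk2 : ∃ z, s k = some z ∧ (β - α) / ε + 1 < dd α β z := by
      by_contra hcon
      push Not at hcon
      exact hk ⟨hs k, hcon⟩
    obtain ⟨z, hz, hdz⟩ := hk2
    have hzS : z ∈ ZS f c := some_mem_Sp.1 (by rw [← hz]; exact hs k)
    have h3 : 0 ≤ (β - α) / ε := div_nonneg (by linarith) hε.le
    have h4 : 0 < dd α β z := by linarith
    rw [hz]
    refine lt_of_le_of_lt (hbd k z hzS h4) ?_
    rw [div_lt_iff₀ h4]
    have h5 : (β - α) = (β - α) / ε * ε := by field_simp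
    nlinarith

lemma Core.RR_bound (n n' : ℕ) {z : ℝ} (hz : z ≤ α ∨ β ≤ z) (hd : 0 < dd α β z) :
    |RR (NH L β n) (NH L β n') (some z)| ≤ (β - α) / dd α β z := by
  have hlt := hC.hull.lt
  have h1 := hC.uu_bounds n hz
  have h2 := hC.uu_bounds n' hz
  exact log_ratio_le hd (by linarith) h1.1 h1.2 h2.1 h2.2

/-- (N) -/
theorem Core.nstep (c₀ η : ℝ) (hc₀ : 0 < c₀) (hc₁ : c₀ ≤ 1) (hη : 0 < η) :
    ∃ (k₀ : ℕ) (δ : ℝ), 0 < δ ∧ ∀ n n' : ℕ, Tge f α β c L c₀ n → Tge f α β c L c₀ n' →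
      ∀ r : ℕ → ℕ, (∀ i, r i < f.natDegree) → ∀ b : ℝ, η ≤ b →
      OscLe (Sp (ZS f c)) (Hn L β n) (Hn L β n') b →
      OscLe (Sp (ZS f c)) (Hn L β (app f.natDegree r k₀ n)) (Hn L β (app f.natDegree r k₀ n'))
        (b - δ) := by
  classical
  by_contra hcon
  push Not at hcon
  have hinv := hC.hull.ZS_inv
  have hlt := hC.hull.lt
  choose n n' ht ht' r hr b hηb hosc hnot using
    fun k : ℕ => hcon k (1 / ((k : ℝ) + 1)) (by positivity)
  obtain ⟨κ, hκ, hκ1, hK⟩ := hC.exists_kappa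
  obtain ⟨C₁, hC₁, hup⟩ := hC.exists_upper
  have hρ := rho_PosOn hC.hull hinv
  have hρpos : ∀ s ∈ Sp (ZS f c), 0 < rho α β s := by
    intro s hs
    cases s with
    | none => exact hρ.1
    | some z => exact hρ.2 z (some_mem_Sp.1 hs)
  -- levels
  set a : ℕ → ℕ → ℕ := fun k i => app f.natDegree (r k) i (n k) with ha
  set a' : ℕ → ℕ → ℕ := fun k i => app f.natDegree (r k) i (n' k) with ha'
  have hT : ∀ k i, Tge f α β c L (κ ^ i * c₀) (a k i) := fun k i =>
    hC.Tge_app hκ hκ1 hK (n k) (r k) (hr k) hc₀ hc₁ (ht k) i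
  have hT' : ∀ k i, Tge f α β c L (κ ^ i * c₀) (a' k i) := fun k i =>
    hC.Tge_app hκ hκ1 hK (n' k) (r k) (hr k) hc₀ hc₁ (ht' k) i
  have hκi : ∀ i, κ ^ i * c₀ ≤ 1 := fun i => by
    have : κ ^ i ≤ 1 := pow_le_one₀ hκ.le hκ1
    nlinarith
  have hκi0 : ∀ i, 0 < κ ^ i * c₀ := fun i => by positivity
  have hlow : ∀ k i, ∀ s ∈ Sp (ZS f c), κ ^ i * c₀ * rho α β s ≤ NH L β (a k i) s := fun k i =>
    hC.lower _ (hκi0 i) (hκi i) (hT k i)
  have hlow' : ∀ k i, ∀ s ∈ Sp (ZS f c), κ ^ i * c₀ * rho α β s ≤ NH L β (a' k i) s := fun k i =>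
    hC.lower _ (hκi0 i) (hκi i) (hT' k i)
  have hNpos : ∀ m, PosOn (ZS f c) (NH L β m) := fun m => hC.NH_pos hinv m
  have hNpos' : ∀ m, ∀ s ∈ Sp (ZS f c), 0 < NH L β m s := by
    intro m s hs
    cases s with
    | none => exact (hNpos m).1
    | some z => exact (hNpos m).2 z (some_mem_Sp.1 hs)
  -- oscillations at all levels
  have hosc_i : ∀ k i, OscLe (Sp (ZS f c)) (NH L β (a k i)) (NH L β (a' k i)) (b k) := by
    intro k i
    rw [hC.OscLe_NH _ _ hinv (le_refl _)]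
    exact hC.osc_app _ _ _ (hr k) i (hosc k)
  have hnot_i : ∀ k i, i ≤ k → ¬ OscLe (Sp (ZS f c)) (NH L β (a k i)) (NH L β (a' k i))
      (b k - 1 / ((k : ℝ) + 1)) := by
    intro k i hik hcon2
    rw [hC.OscLe_NH _ _ hinv (le_refl _)] at hcon2
    exact hnot k (hC.osc_app_sub _ _ _ (hr k) i k hik hcon2)
  have hwit : ∀ i k, ∃ s t : Option ℝ, s ∈ Sp (ZS f c) ∧ t ∈ Sp (ZS f c) ∧ (i ≤ k →
      b k - 1 / ((k : ℝ) + 1) < RR (NH L β (a k i)) (NH L β (a' k i)) s
        - RR (NH L β (a k i)) (NH L β (a' k i)) t) := by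
    intro i k
    by_cases hik : i ≤ k
    · have := hnot_i k i hik
      unfold OscLe at this
      push Not at this
      obtain ⟨s, hs, t, ht, hlt⟩ := this
      exact ⟨s, t, hs, ht, fun _ => hlt⟩
    · exact ⟨none, none, none_mem_Sp _, none_mem_Sp _, fun h0 => absurd h0 hik⟩
  -- bound for b
  set Bm := 2 * Real.log (C₁ / c₀) + 1 with hBm
  have hRRtop : ∀ k, ∀ s ∈ Sp (ZS f c), |RR (NH L β (a k 0)) (NH L β (a' k 0)) s| ≤ Real.log (C₁ / c₀) := by
    intro k s hs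
    have e1 := hlow k 0 s hs
    have e2 := hlow' k 0 s hs
    have e3 := hup (a k 0) s hs
    have e4 := hup (a' k 0) s hs
    rw [pow_zero, one_mul] at e1 e2
    have p1 := hNpos' (a k 0) s hs
    have p2 := hNpos' (a' k 0) s hs
    have p3 := hρpos s hs
    have key : ∀ x y : ℝ, 0 < x → 0 < y → c₀ * rho α β s ≤ x → y ≤ C₁ * rho α β s →
        Real.log (y / x) ≤ Real.log (C₁ / c₀) := by
      intro x y hx hy h1 h2
      apply Real.log_le_log (div_pos hy hx)
      rw [div_le_div_iff₀ hx hc₀]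
      nlinarith [mul_le_mul_of_nonneg_left h1 (by linarith : (0:ℝ) ≤ C₁), mul_le_mul_of_nonneg_right h2 hc₀.le]
    unfold RR
    rw [abs_le]
    constructor
    · have := key _ _ p2 p1 e2 e3
      rw [Real.log_div p2.ne' p1.ne']
      rw [Real.log_div p1.ne' p2.ne'] at this
      linarith
    · exact key _ _ p1 p2 e1 e4
  have hbB : ∀ k, b k ∈ Set.Icc η Bm := by
    intro k
    refine ⟨hηb k, ?_⟩
    obtain ⟨s, t, hs, ht, hlt2⟩ := hwit 0 k
    have h1 := hlt2 (Nat.zero_le k)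
    have h2 := abs_le.1 (hRRtop k s hs)
    have h3 := abs_le.1 (hRRtop k t ht)
    have h4 : 1 / ((k : ℝ) + 1) ≤ 1 := by
      rw [div_le_one (by positivity)]
      have : (0 : ℝ) ≤ k := Nat.cast_nonneg k
      linarith
    rw [hBm]; linarith [h2.2, h3.1]
  -- the ultrafilter
  set U : Ultrafilter ℕ := hyperfilter ℕ with hU
  have hUat : ∀ i : ℕ, ∀ᶠ k in (U : Filter ℕ), i ≤ k := by
    intro i
    have h1 : ∀ᶠ k in (atTop : Filter ℕ), i ≤ k := eventually_ge_atTop i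
    exact Nat.hyperfilter_le_atTop h1
  obtain ⟨b₀, hb₀, hblim⟩ := ulim U hbB
  -- limits of the environments
  have hG : ∀ i s, ∃ x : ℝ, (s ∈ Sp (ZS f c) → 0 < x ∧ Tendsto (fun k => NH L β (a k i) s) U (𝓝 x)) := by
    intro i s
    by_cases hs : s ∈ Sp (ZS f c)
    · obtain ⟨x, hx, hlim⟩ := ulim U (g := fun k => NH L β (a k i) s)
        (a := κ ^ i * c₀ * rho α β s) (b := C₁ * rho α β s)
        (fun k => ⟨hlow k i s hs, hup _ s hs⟩)
      exact ⟨x, fun _ => ⟨lt_of_lt_of_le (mul_pos (hκi0 i) (hρpos s hs)) hx.1, hlim⟩⟩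
    · exact ⟨1, fun h0 => absurd h0 hs⟩
  have hG' : ∀ i s, ∃ x : ℝ, (s ∈ Sp (ZS f c) → 0 < x ∧ Tendsto (fun k => NH L β (a' k i) s) U (𝓝 x)) := by
    intro i s
    by_cases hs : s ∈ Sp (ZS f c)
    · obtain ⟨x, hx, hlim⟩ := ulim U (g := fun k => NH L β (a' k i) s)
        (a := κ ^ i * c₀ * rho α β s) (b := C₁ * rho α β s)
        (fun k => ⟨hlow' k i s hs, hup _ s hs⟩)
      exact ⟨x, fun _ => ⟨lt_of_lt_of_le (mul_pos (hκi0 i) (hρpos s hs)) hx.1, hlim⟩⟩
    · exact ⟨1, fun h0 => absurd h0 hs⟩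
  choose G hGs using hG
  choose G' hGs' using hG'
  have hGpos : ∀ i, PosOn (ZS f c) (G i) := fun i =>
    ⟨(hGs i none (none_mem_Sp _)).1, fun z hz => (hGs i (some z) (some_mem_Sp.2 hz)).1⟩
  have hGpos' : ∀ i, PosOn (ZS f c) (G' i) := fun i =>
    ⟨(hGs' i none (none_mem_Sp _)).1, fun z hz => (hGs' i (some z) (some_mem_Sp.2 hz)).1⟩
  have hGp : ∀ i, ∀ s ∈ Sp (ZS f c), 0 < G i s := fun i s hs => (hGs i s hs).1
  have hGp' : ∀ i, ∀ s ∈ Sp (ZS f c), 0 < G' i s := fun i s hs => (hGs' i s hs).1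
  -- digits
  have hdig : ∀ i, ∃ ρ, ρ < f.natDegree ∧ ∀ᶠ k in (U : Filter ℕ), r k i = ρ := by
    intro i
    obtain ⟨ρ, hρ, hev⟩ := ufin U (Set.finite_Iio f.natDegree) (g := fun k => r k i)
      (Filter.Eventually.of_forall fun k => hr k i)
    exact ⟨ρ, hρ, hev⟩
  choose ρ hρd hρev using hdig
  -- recursion in the limit
  have hrecG : ∀ i, ∀ s ∈ Sp (ZS f c), G (i + 1) s = TT f c (ρ i) (G i) s / TT f c (ρ i) (G i) none := by
    intro i s hs
    have h1 := (hGs (i + 1) s hs).2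
    have h2 := TT_tendsto hC.hull hinv (fun k => hNpos (a k i)) (hGpos i)
      (fun s hs => (hGs i s hs).2) (ρ i)
    have h3 := (h2 s hs).div (h2 none (none_mem_Sp _))
      (TT_pos hC.hull hinv (hGpos i) (hρd i)).1.ne'
    refine tendsto_nhds_unique h1 (h3.congr' ?_)
    filter_upwards [hρev i] with k hk
    have : a k (i + 1) = f.natDegree * a k i + ρ i := by rw [← hk]; rfl
    rw [this]
    exact (hC.NH_rec hinv _ _ (hρd i) s hs).symm
  have hrecG' : ∀ i, ∀ s ∈ Sp (ZS f c), G' (i + 1) s = TT f c (ρ i) (G' i) s / TT f c (ρ i) (G' i) none := by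
    intro i s hs
    have h1 := (hGs' (i + 1) s hs).2
    have h2 := TT_tendsto hC.hull hinv (fun k => hNpos (a' k i)) (hGpos' i)
      (fun s hs => (hGs' i s hs).2) (ρ i)
    have h3 := (h2 s hs).div (h2 none (none_mem_Sp _))
      (TT_pos hC.hull hinv (hGpos' i) (hρd i)).1.ne'
    refine tendsto_nhds_unique h1 (h3.congr' ?_)
    filter_upwards [hρev i] with k hk
    have : a' k (i + 1) = f.natDegree * a' k i + ρ i := by rw [← hk]; rfl
    rw [this]
    exact (hC.NH_rec hinv _ _ (hρd i) s hs).symm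
  -- convergence of the log ratios
  have hRlim : ∀ i, ∀ s ∈ Sp (ZS f c), Tendsto (fun k => RR (NH L β (a k i)) (NH L β (a' k i)) s) U
      (𝓝 (RR (G i) (G' i) s)) := by
    intro i s hs
    unfold RR
    exact ((hGs' i s hs).2.div (hGs i s hs).2 (hGp i s hs).ne').log
      (div_pos (hGp' i s hs) (hGp i s hs)).ne'
  have hRle : ∀ i, OscLe (Sp (ZS f c)) (G i) (G' i) b₀ := by
    intro i s hs t ht
    refine le_of_tendsto_of_tendsto ((hRlim i s hs).sub (hRlim i t ht)) hblim ?_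
    exact Filter.Eventually.of_forall fun k => hosc_i k i s hs t ht
  have hRnone : ∀ k i, RR (NH L β (a k i)) (NH L β (a' k i)) none = 0 := by
    intro k i
    unfold RR
    rw [hC.NH_none, hC.NH_none]; simp
  have hatt : ∀ i, ∃ s t : Option ℝ, s ∈ Sp (ZS f c) ∧ t ∈ Sp (ZS f c) ∧
      RR (G i) (G' i) s - RR (G i) (G' i) t = b₀ := by
    intro i
    choose s t hs ht hst using hwit i
    obtain ⟨s', hs', hslim⟩ := state_lim hC.hull U hs (hRlim i) (fun k => hRnone k i)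
      (fun k z hz hd => hC.RR_bound _ _ (hinv.out z hz) hd)
    obtain ⟨t', ht', htlim⟩ := state_lim hC.hull U ht (hRlim i) (fun k => hRnone k i)
      (fun k z hz hd => hC.RR_bound _ _ (hinv.out z hz) hd)
    refine ⟨s', t', hs', ht', le_antisymm (hRle i s' hs' t' ht') ?_⟩
    have h1 : Tendsto (fun k : ℕ => b k - 1 / ((k : ℝ) + 1)) U (𝓝 (b₀ - 0)) := by
      refine hblim.sub ?_
      exact tendsto_one_div_add_atTop_nhds_zero_nat.mono_left Nat.hyperfilter_le_atTop
    rw [sub_zero] at h1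
    refine le_of_tendsto_of_tendsto h1 (hslim.sub htlim) ?_
    filter_upwards [hUat i] with k hk
    exact (hst k hk).le
  choose sM sm hsM hsm hdiff using hatt
  have hmax : ∀ i, ∀ s ∈ Sp (ZS f c), RR (G i) (G' i) s ≤ RR (G i) (G' i) (sM i) := by
    intro i s hs
    have := hRle i s hs (sm i) (hsm i)
    linarith [hdiff i]
  have hmin : ∀ i, ∀ s ∈ Sp (ZS f c), RR (G i) (G' i) (sm i) ≤ RR (G i) (G' i) s := by
    intro i s hs
    have := hRle i (sM i) (hsM i) s hs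
    linarith [hdiff i]
  have hb₀pos : 0 < b₀ := lt_of_lt_of_le hη hb₀.1
  -- asymptotics in the limit
  have hasym : ∀ i z, z ∈ (ZS f c) → 0 < dd α β z → |RR (G i) (G' i) (some z)| ≤ (β - α) / dd α β z := by
    intro i z hz hdz
    have h1 := (hRlim i (some z) (some_mem_Sp.2 hz)).abs
    refine le_of_tendsto h1 ?_
    exact Filter.Eventually.of_forall fun k => hC.RR_bound _ _ (hinv.out z hz) hdz
  have hlimnone : ∀ i, RR (G i) (G' i) none = 0 := by
    intro i
    have h1 := hRlim i none (none_mem_Sp _)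
    have h2 : Tendsto (fun k => RR (NH L β (a k i)) (NH L β (a' k i)) none) U (𝓝 0) := by
      have : (fun k => RR (NH L β (a k i)) (NH L β (a' k i)) none) = fun _ => (0 : ℝ) := by
        funext k; exact hRnone k i
      rw [this]; exact tendsto_const_nhds
    exact tendsto_nhds_unique h1 h2
  have hclose : ∀ i (v : ℝ), (∀ B : ℝ, ∃ z, B ≤ dd α β z ∧ z ∈ (ZS f c) ∧ RR (G i) (G' i) (some z) = v) →
      v = 0 := by
    intro i v hv
    by_contra hne
    have hv0 : 0 < |v| := abs_pos.2 hne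
    obtain ⟨z, hB, hz, hzv⟩ := hv ((β - α) / |v| + 1)
    have h3 : 0 ≤ (β - α) / |v| := div_nonneg (by linarith) hv0.le
    have h4 : 0 < dd α β z := by linarith
    have h5 := hasym i z hz h4
    rw [hzv, le_div_iff₀ h4] at h5
    have h6 : |v| * ((β - α) / |v|) = β - α := by field_simp
    nlinarith
  -- propagation
  have hTTp : ∀ i, ∀ s ∈ Sp (ZS f c), 0 < TT f c (ρ i) (G i) s := by
    intro i s hs
    have := TT_pos hC.hull hinv (hGpos i) (hρd i)
    cases s with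
    | none => exact this.1
    | some z => exact this.2 z (some_mem_Sp.1 hs)
  have hTTp' : ∀ i, ∀ s ∈ Sp (ZS f c), 0 < TT f c (ρ i) (G' i) s := by
    intro i s hs
    have := TT_pos hC.hull hinv (hGpos' i) (hρd i)
    cases s with
    | none => exact this.1
    | some z => exact this.2 z (some_mem_Sp.1 hs)
  have hRRs : ∀ i, ∀ s ∈ Sp (ZS f c), RR (G (i + 1)) (G' (i + 1)) s
      = RR (TT f c (ρ i) (G i)) (TT f c (ρ i) (G' i)) s
        - RR (TT f c (ρ i) (G i)) (TT f c (ρ i) (G' i)) none := by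
    intro i s hs
    have e1 := hTTp i s hs
    have e2 := hTTp' i s hs
    have e3 := hTTp i none (none_mem_Sp _)
    have e4 := hTTp' i none (none_mem_Sp _)
    unfold RR
    rw [hrecG i s hs, hrecG' i s hs, Real.log_div (div_pos e2 e4).ne' (div_pos e1 e3).ne',
      Real.log_div e2.ne' e4.ne', Real.log_div e1.ne' e3.ne', Real.log_div e2.ne' e1.ne',
      Real.log_div e4.ne' e3.ne']
    ring
  have hupper : ∀ i, ∀ s ∈ Sp (ZS f c), G' i s ≤ Real.exp (RR (G i) (G' i) (sM i)) * G i s := by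
    intro i s hs
    have e1 := hmax i s hs
    have e2 : RR (G i) (G' i) s = Real.log (G' i s / G i s) := rfl
    rw [e2, Real.log_le_iff_le_exp (div_pos (hGp' i s hs) (hGp i s hs)),
      div_le_iff₀ (hGp i s hs)] at e1
    exact e1
  have hlower : ∀ i, ∀ s ∈ Sp (ZS f c), Real.exp (RR (G i) (G' i) (sm i)) * G i s ≤ G' i s := by
    intro i s hs
    have e1 := hmin i s hs
    have e2 : RR (G i) (G' i) s = Real.log (G' i s / G i s) := rfl
    rw [e2, Real.le_log_iff_exp_le (div_pos (hGp' i s hs) (hGp i s hs)),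
      le_div_iff₀ (hGp i s hs)] at e1
    exact e1
  have hTup : ∀ i, ∀ s ∈ Sp (ZS f c), RR (TT f c (ρ i) (G i)) (TT f c (ρ i) (G' i)) s
      ≤ RR (G i) (G' i) (sM i) := by
    intro i s hs
    have e1 := TT_le hC.hull hinv (hGpos i) (hGpos' i) (r := ρ i) (Real.exp_pos _) (hupper i) s hs
    unfold RR
    rw [Real.log_le_iff_le_exp (div_pos (hTTp' i s hs) (hTTp i s hs)), div_le_iff₀ (hTTp i s hs)]
    exact e1
  have hTlo : ∀ i, ∀ s ∈ Sp (ZS f c), RR (G i) (G' i) (sm i)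
      ≤ RR (TT f c (ρ i) (G i)) (TT f c (ρ i) (G' i)) s := by
    intro i s hs
    have e1 := TT_ge hC.hull hinv (hGpos i) (hGpos' i) (r := ρ i) (Real.exp_pos _) (hlower i) s hs
    have e2 : RR (TT f c (ρ i) (G i)) (TT f c (ρ i) (G' i)) s
      = Real.log (TT f c (ρ i) (G' i) s / TT f c (ρ i) (G i) s) := rfl
    rw [e2, Real.le_log_iff_exp_le (div_pos (hTTp' i s hs) (hTTp i s hs)), le_div_iff₀ (hTTp i s hs)]
    exact e1
  have hMeq : ∀ i, ∀ s ∈ Sp (ZS f c), RR (G (i + 1)) (G' (i + 1)) s = RR (G (i + 1)) (G' (i + 1)) (sM (i + 1)) →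
      RR (TT f c (ρ i) (G i)) (TT f c (ρ i) (G' i)) s = RR (G i) (G' i) (sM i) := by
    intro i s hs heq
    have e1 := hRRs i s hs
    have e2 := hRRs i (sm (i + 1)) (hsm _)
    have e3 := hTup i s hs
    have e4 := hTlo i (sm (i + 1)) (hsm _)
    have e5 := hdiff i
    have e6 := hdiff (i + 1)
    linarith
  have hmeq : ∀ i, ∀ s ∈ Sp (ZS f c), RR (G (i + 1)) (G' (i + 1)) s = RR (G (i + 1)) (G' (i + 1)) (sm (i + 1)) →
      RR (TT f c (ρ i) (G i)) (TT f c (ρ i) (G' i)) s = RR (G i) (G' i) (sm i) := by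
    intro i s hs heq
    have e1 := hRRs i s hs
    have e2 := hRRs i (sM (i + 1)) (hsM _)
    have e3 := hTlo i s hs
    have e4 := hTup i (sM (i + 1)) (hsM _)
    have e5 := hdiff i
    have e6 := hdiff (i + 1)
    linarith
  have hsuppSp : ∀ i s w, s ∈ Sp (ZS f c) → Supp f c (ρ i) (G i) s w → w ∈ Sp (ZS f c) := by
    intro i s w hs hw
    cases s with
    | none =>
      rcases hw with ⟨_, rfl⟩ | ⟨_, _, _, j, _, rfl⟩
      · exact none_mem_Sp _
      · exact some_mem_Sp.2 (hinv.val j)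
    | some z =>
      obtain ⟨p, _, ⟨_, rfl⟩ | ⟨j, _, rfl⟩⟩ := hw
      · exact some_mem_Sp.2 (hinv.maps z (some_mem_Sp.1 hs))
      · exact some_mem_Sp.2 (hinv.val j)
  have hfromeq : ∀ i w (v : ℝ), w ∈ Sp (ZS f c) → G' i w = Real.exp v * G i w → RR (G i) (G' i) w = v := by
    intro i w v hw heq
    unfold RR
    rw [heq, mul_div_assoc, div_self (hGp i w hw).ne', mul_one, Real.log_exp]
  have htoeq : ∀ i s (v : ℝ), s ∈ Sp (ZS f c) → RR (TT f c (ρ i) (G i)) (TT f c (ρ i) (G' i)) s = v →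
      TT f c (ρ i) (G' i) s = Real.exp v * TT f c (ρ i) (G i) s := by
    intro i s v hs heq
    rw [← heq]
    unfold RR
    rw [Real.exp_log (div_pos (hTTp' i s hs) (hTTp i s hs))]
    have := (hTTp i s hs).ne'
    field_simp
  -- final contradiction
  refine comb hC.hull hρd hGpos
    (MM := fun i => {s ∈ Sp (ZS f c) | RR (G i) (G' i) s = RR (G i) (G' i) (sM i)})
    (NN := fun i => {s ∈ Sp (ZS f c) | RR (G i) (G' i) s = RR (G i) (G' i) (sm i)}) ?_ ?_ ?_
  · refine ⟨fun i s hs => hs.1, fun i => ⟨sM i, hsM i, rfl⟩, ?_, ?_⟩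
    · rintro i s w ⟨hs, heq⟩ hw
      have hwS := hsuppSp i s w hs hw
      refine ⟨hwS, hfromeq i w _ hwS ?_⟩
      exact supp_upper hC.hull hinv (hGpos i) (hGpos' i) (hρd i) (Real.exp_pos _) (hupper i) hs
        (htoeq i s _ hs (hMeq i s hs heq)) hw
    · intro i hB
      refine ⟨none_mem_Sp _, ?_⟩
      rw [hlimnone i]
      symm
      apply hclose i
      intro B
      obtain ⟨z, h1, h2, h3⟩ := hB B
      exact ⟨z, h1, some_mem_Sp.1 h2, h3⟩
  · refine ⟨fun i s hs => hs.1, fun i => ⟨sm i, hsm i, rfl⟩, ?_, ?_⟩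
    · rintro i s w ⟨hs, heq⟩ hw
      have hwS := hsuppSp i s w hs hw
      refine ⟨hwS, hfromeq i w _ hwS ?_⟩
      exact supp_lower hC.hull hinv (hGpos i) (hGpos' i) (hρd i) (Real.exp_pos _) (hlower i) hs
        (htoeq i s _ hs (hmeq i s hs heq)) hw
    · intro i hB
      refine ⟨none_mem_Sp _, ?_⟩
      rw [hlimnone i]
      symm
      apply hclose i
      intro B
      obtain ⟨z, h1, h2, h3⟩ := hB B
      exact ⟨z, h1, some_mem_Sp.1 h2, h3⟩
  · rintro i s ⟨_, h1⟩ ⟨_, h2⟩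
    have := hdiff i
    linarith

end

end Pool.Agent.Work.MP_e056c9_an
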