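import Pool.Agent.Work.MP_e056c9_an.Env

/-! # Normalised environments, comparison function, lower bounds. -/

set_option autoImplicit false
set_option linter.unusedSectionVars false
set_option linter.unusedVariables false
open Polynomial

namespace Pool.Agent.Work.MP_e056c9_an

/-- end points in the orbits of critical values -/
def Z0 (f : ℝ[X]) (α β : ℝ) (c : Fin (f.natDegree - 1) → ℝ) : Set ℝ := ZS f c ∩ {α, β}

/-- normalised environment -/
noncomputable def NH (L : ℝ[X] →ₗ[ℝ] ℝ) (β : ℝ) (n : ℕ) (s : Option ℝ) : ℝ := Hn L β n s / hh L n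

lemma NH_some (L : ℝ[X] →ₗ[ℝ] ℝ) (β : ℝ) (n : ℕ) (z : ℝ) : NH L β n (some z) = uu L β n z := rfl

/-- comparison function -/
noncomputable def rho (α β : ℝ) : Option ℝ → ℝ
  | none => 1
  | some z => if dd α β z = 0 then 1 else dd α β z

lemma rho_some (α β z : ℝ) : rho α β (some z) = if dd α β z = 0 then 1 else dd α β z := rfl
lemma rho_none (α β : ℝ) : rho α β none = 1 := rfl

section
variable {f : ℝ[X]} {α β : ℝ} {c : Fin (f.natDegree - 1) → ℝ} (h : Hull f α β c)
  {S : Set ℝ} (hS : InvSet f α β c S) {H H' : Option ℝ → ℝ} (hH : PosOn S H)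
include h hS hH

lemma TT_smul {r : ℕ} {t : ℝ} (ht : 0 < t) :
    ∀ s ∈ Sp S, TT f c r (fun s => t * H s) s = t * TT f c r H s := by
  have hH' : PosOn S (fun s => t * H s) := ⟨mul_pos ht hH.1, fun z hz => mul_pos ht (hH.2 z hz)⟩
  intro s hs
  apply le_antisymm
  · exact TT_le h hS hH hH' ht (fun s _ => le_rfl) s hs
  · exact TT_ge h hS hH hH' ht (fun s _ => le_rfl) s hs

end

section
variable {f : ℝ[X]} {α β : ℝ} {c : Fin (f.natDegree - 1) → ℝ} {L M : ℝ[X] →ₗ[ℝ] ℝ}
  (hC : Core f α β c L M)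
include hC

lemma Core.NH_none (n : ℕ) : NH L β n none = 1 := div_self (hC.hh_pos n).ne'

lemma Core.NH_pos {S : Set ℝ} (hS : InvSet f α β c S) (n : ℕ) : PosOn S (NH L β n) :=
  ⟨div_pos (hC.hh_pos n) (hC.hh_pos n), fun z hz => hC.uu_pos n (hS.out z hz)⟩

lemma Core.NH_rec {S : Set ℝ} (hS : InvSet f α β c S) (m r : ℕ) (hr : r < f.natDegree) :
    ∀ s ∈ Sp S, NH L β (f.natDegree * m + r) s
      = TT f c r (NH L β m) s / TT f c r (NH L β m) none := by
  intro s hs
  have h1 := hC.Hn_rec hS m r hr s hs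
  have h2 := hC.Hn_rec hS m r hr none (none_mem_Sp S)
  have hpos := hC.hh_pos m
  have e : Hn L β m = fun s => hh L m * NH L β m s := by
    funext s; unfold NH; field_simp
  have h3 : ∀ s ∈ Sp S, TT f c r (Hn L β m) s = hh L m * TT f c r (NH L β m) s := by
    intro s hs
    rw [e]
    have := TT_smul hC.hull hS (hC.NH_pos hS m) (r := r) hpos s hs
    rw [← e] at this ⊢
    exact this
  have hTpos := (TT_pos hC.hull hS (hC.NH_pos hS m) hr).1
  have hlc := lc_ne hC.d2
  have h4 : hh L (f.natDegree * m + r) = Hn L β (f.natDegree * m + r) none := rfl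
  unfold NH
  rw [h4, h1, h2, h3 s hs, h3 none (none_mem_Sp S)]
  have h5 : ((f.leadingCoeff ^ m) ^ 2)⁻¹ ≠ 0 := by positivity
  unfold NH
  have h6 : TT f c r (fun s => Hn L β m s / hh L m) none ≠ 0 := hTpos.ne'
  field_simp

lemma Core.RR_NH (n n' : ℕ) {S : Set ℝ} (hS : InvSet f α β c S) {s : Option ℝ} (hs : s ∈ Sp S) :
    RR (NH L β n) (NH L β n') s = RR (Hn L β n) (Hn L β n') s - RR (Hn L β n) (Hn L β n') none := by
  have hp := hC.Hn_pos hS n
  have hp' := hC.Hn_pos hS n'
  have h1 := hC.hh_pos n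
  have h2 := hC.hh_pos n'
  have h3 : 0 < Hn L β n s := by
    cases s with
    | none => exact hp.1
    | some z => exact hp.2 z (some_mem_Sp.1 hs)
  have h4 : 0 < Hn L β n' s := by
    cases s with
    | none => exact hp'.1
    | some z => exact hp'.2 z (some_mem_Sp.1 hs)
  unfold RR NH
  have e1 : Hn L β n none = hh L n := rfl
  have e2 : Hn L β n' none = hh L n' := rfl
  rw [e1, e2, Real.log_div (div_pos h4 h2).ne' (div_pos h3 h1).ne', Real.log_div h4.ne' h2.ne',
    Real.log_div h3.ne' h1.ne', Real.log_div h4.ne' h3.ne', Real.log_div h2.ne' h1.ne']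
  ring

lemma Core.OscLe_NH (n n' : ℕ) {S : Set ℝ} (hS : InvSet f α β c S) {A : Set (Option ℝ)}
    (hA : A ⊆ Sp S) (b : ℝ) :
    OscLe A (NH L β n) (NH L β n') b ↔ OscLe A (Hn L β n) (Hn L β n') b := by
  unfold OscLe
  constructor
  · intro h s hs t ht
    have := h s hs t ht
    rw [hC.RR_NH n n' hS (hA hs), hC.RR_NH n n' hS (hA ht)] at this
    linarith
  · intro h s hs t ht
    rw [hC.RR_NH n n' hS (hA hs), hC.RR_NH n n' hS (hA ht)]
    linarith [h s hs t ht]

omit hC

lemma rho_pos (hab : α < β) {z : ℝ} (hz : z ≤ α ∨ β ≤ z) : 0 < rho α β (some z) := by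
  rw [rho_some]
  split_ifs with h0
  · exact one_pos
  · exact lt_of_le_of_ne (dd_nonneg hz) (Ne.symm h0)

lemma rho_PosOn (h : Hull f α β c) {S : Set ℝ} (hS : InvSet f α β c S) : PosOn S (rho α β) :=
  ⟨one_pos, fun z hz => rho_pos h.lt (hS.out z hz)⟩

/-- `t(n) ≥ c₀` -/
def Tge (f : ℝ[X]) (α β : ℝ) (c : Fin (f.natDegree - 1) → ℝ) (L : ℝ[X] →ₗ[ℝ] ℝ) (c₀ : ℝ)
    (n : ℕ) : Prop := ∀ e ∈ Z0 f α β c, c₀ ≤ uu L β n e
include hC

/-- upper comparison constant -/
lemma Core.exists_upper : ∃ C₁ : ℝ, 1 ≤ C₁ ∧ ∀ n, ∀ s ∈ Sp (ZS f c), NH L β n s ≤ C₁ * rho α β s := by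
  obtain ⟨δ₀, hδ, h1, -⟩ := hC.hull.exists_delta
  have hlt := hC.hull.lt
  refine ⟨1 + (β - α) + (β - α) / δ₀, by
    have : 0 ≤ (β - α) / δ₀ := div_nonneg (by linarith) hδ.le
    linarith, ?_⟩
  intro n s hs
  have hnn : 0 ≤ (β - α) / δ₀ := div_nonneg (by linarith) hδ.le
  cases s with
  | none =>
    rw [hC.NH_none]; unfold rho; rw [mul_one]
    linarith
  | some z =>
    have hz := some_mem_Sp.1 hs
    have hzE := hC.hull.ZS_inv.out z hz
    have h2 := (hC.uu_bounds n hzE).2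
    rw [NH_some, rho_some]
    split_ifs with h0
    · rw [h0] at h2; linarith
    · have h3 : δ₀ ≤ dd α β z := by
        rcases h1 z hz with h4 | h4
        · exact absurd ((dd_eq_zero hzE hlt).2 h4) h0
        · exact h4
      have h5 : 0 < dd α β z := by linarith
      have h6 : (β - α) ≤ (β - α) / δ₀ * dd α β z := by
        rw [div_mul_eq_mul_div, le_div_iff₀ hδ]
        nlinarith
      nlinarith

/-- lower comparison -/
lemma Core.lower (n : ℕ) {c₀ : ℝ} (hc₀ : 0 < c₀) (hc₁ : c₀ ≤ 1) (ht : Tge f α β c L c₀ n) :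
    ∀ s ∈ Sp (ZS f c), c₀ * rho α β s ≤ NH L β n s := by
  intro s hs
  cases s with
  | none => rw [hC.NH_none]; unfold rho; linarith
  | some z =>
    have hz := some_mem_Sp.1 hs
    have hzE := hC.hull.ZS_inv.out z hz
    rw [NH_some, rho_some]
    split_ifs with h0
    · rw [mul_one]
      apply ht z ⟨hz, ?_⟩
      have := (dd_eq_zero hzE hC.hull.lt).1 h0
      simpa using this
    · have h1 := (hC.uu_bounds n hzE).1
      have h2 : 0 ≤ dd α β z := dd_nonneg hzE
      nlinarith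

/-- the environment cannot degenerate fast -/
lemma Core.exists_kappa : ∃ κ : ℝ, 0 < κ ∧ κ ≤ 1 ∧ ∀ (n r : ℕ) (c₀ : ℝ), 0 < c₀ → c₀ ≤ 1 →
    r < f.natDegree → Tge f α β c L c₀ n → Tge f α β c L (κ * c₀) (f.natDegree * n + r) := by
  classical
  obtain ⟨C₁, hC₁, hup⟩ := hC.exists_upper
  have hinv := hC.hull.ZS_inv
  have hρ := rho_PosOn hC.hull hinv
  -- minimal ratio over digits and the two ends
  have hfin : ∃ κ : ℝ, 0 < κ ∧ ∀ r < f.natDegree, ∀ e ∈ Z0 f α β c,
      κ ≤ TT f c r (rho α β) (some e) / TT f c r (rho α β) none := by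
    have hpos : ∀ r < f.natDegree, ∀ e ∈ Z0 f α β c,
        0 < TT f c r (rho α β) (some e) / TT f c r (rho α β) none := by
      intro r hr e he
      have := TT_pos hC.hull hinv hρ hr
      exact div_pos (this.2 e he.1) this.1
    set g : ℕ × ℝ → ℝ := fun q => if q.2 ∈ Z0 f α β c then
      TT f c q.1 (rho α β) (some q.2) / TT f c q.1 (rho α β) none else 1 with hg
    have hne : ((Finset.range f.natDegree) ×ˢ ({α, β} : Finset ℝ)).Nonempty := by
      refine Finset.Nonempty.product ?_ ⟨α, by simp⟩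
      exact ⟨0, Finset.mem_range.2 (by have := hC.d2; omega)⟩
    obtain ⟨q, hq, hmin⟩ := Finset.exists_min_image _ g hne
    refine ⟨g q, ?_, ?_⟩
    · rw [hg]
      simp only
      split_ifs with h0
      · exact hpos _ (Finset.mem_range.1 (Finset.mem_product.1 hq).1) _ h0
      · exact one_pos
    · intro r hr e he
      have := hmin (r, e) (Finset.mem_product.2 ⟨Finset.mem_range.2 hr, by
        have := he.2
        simpa using this⟩)
      rw [hg] at this
      simp only [if_pos he] at this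
      exact this
  obtain ⟨κ, hκ, hmin⟩ := hfin
  refine ⟨min 1 (κ / C₁), lt_min one_pos (div_pos hκ (by linarith)), min_le_left _ _, ?_⟩
  intro n r c₀ hc₀ hc₁ hr ht e he
  have hN := hC.NH_pos hinv n
  have h1 := TT_ge hC.hull hinv hρ hN (r := r) hc₀ (hC.lower n hc₀ hc₁ ht) (some e)
    (some_mem_Sp.2 he.1)
  have h2 := TT_le hC.hull hinv hρ hN (r := r) (by linarith : 0 < C₁) (hup n) none
    (none_mem_Sp _)
  have h3 := hC.NH_rec hinv n r hr (some e) (some_mem_Sp.2 he.1)
  rw [NH_some] at h3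
  rw [h3]
  have hT := TT_pos hC.hull hinv hN hr
  have hT' := TT_pos hC.hull hinv hρ hr
  have h4 := hmin r hr e he
  rw [le_div_iff₀ hT'.1] at h4
  rw [le_div_iff₀ hT.1]
  calc min 1 (κ / C₁) * c₀ * TT f c r (NH L β n) none
      ≤ (κ / C₁) * c₀ * (C₁ * TT f c r (rho α β) none) := by
        have : min 1 (κ / C₁) ≤ κ / C₁ := min_le_right _ _
        have hκC : 0 ≤ κ / C₁ := (div_pos hκ (by linarith)).le
        apply mul_le_mul
        · exact mul_le_mul_of_nonneg_right this hc₀.le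
        · exact h2
        · exact hT.1.le
        · positivity
    _ = c₀ * (κ * TT f c r (rho α β) none) := by field_simp
    _ ≤ c₀ * TT f c r (rho α β) (some e) := mul_le_mul_of_nonneg_left h4 hc₀.le
    _ ≤ _ := h1

end

end Pool.Agent.Work.MP_e056c9_an
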