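import Pool.Agent.Work.MP_e056c9_an.Rec2

/-! # Orthogonal polynomials of the discrete measures. -/

set_option autoImplicit false
set_option linter.unusedSectionVars false
set_option linter.unusedVariables false
open Polynomial

namespace Pool.Agent.Work.MP_e056c9_an

/-! ## Equality in the monotonicity of `hh` -/

section
variable {ι : Type*} [Fintype ι] {x w w' : ι → ℝ} {k : ℕ} {t : ℝ}

lemma disc_mono (hle : ∀ i, w i ≤ w' i) (p : ℝ[X]) : disc x w (p ^ 2) ≤ disc x w' (p ^ 2) := by
  rw [disc_sq, disc_sq]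
  exact Finset.sum_le_sum fun i _ => mul_le_mul_of_nonneg_right (hle i) (sq_nonneg _)

lemma disc_smul_w (t : ℝ) (p : ℝ[X]) : disc x (fun i => t * w i) p = t * disc x w p := by
  rw [disc_apply, disc_apply, Finset.mul_sum]
  exact Finset.sum_congr rfl fun i _ => by ring

lemma disc_smul_w' (t : ℝ) : disc x (fun i => t * w i) = t • disc x w := by
  refine LinearMap.ext fun p => ?_
  rw [LinearMap.smul_apply, smul_eq_mul, disc_smul_w]

lemma hh_disc_mono (hw : ∀ i, 0 ≤ w i) (hle : ∀ i, w i ≤ w' i) (k : ℕ) :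
    hh (disc x w) k ≤ hh (disc x w') k :=
  hh_mono (disc_NN _ _ hw) (fun p => disc_mono hle p) k

lemma hh_disc_smul (ht : 0 < t) (hw : ∀ i, 0 ≤ w i) (k : ℕ) :
    hh (disc x (fun i => t * w i)) k = t * hh (disc x w) k := by
  rw [disc_smul_w']
  exact hh_smul ht (disc_NN _ _ hw) k

lemma hh_disc_le_mul (ht : 0 < t) (hw : ∀ i, 0 ≤ w i) (hw' : ∀ i, 0 ≤ w' i)
    (hle : ∀ i, w' i ≤ t * w i) (k : ℕ) :
    hh (disc x w') k ≤ t * hh (disc x w) k := by
  rw [← hh_disc_smul ht hw]
  exact hh_disc_mono hw' hle k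

/-- equality case, upper -/
lemma eq_case_upper (hw : ∀ i, 0 ≤ w i) (hw' : ∀ i, 0 ≤ w' i)
    (hle : ∀ i, w' i ≤ t * w i) (heq : hh (disc x w') k = t * hh (disc x w) k)
    {p : ℝ[X]} (hp : IsOP (disc x w) k p) {i : ι} (hi : p.eval (x i) ≠ 0) : w' i = t * w i := by
  have h1 := hh_le (disc_NN x w' hw') hp.monic hp.deg
  rw [heq, hp.hh_eq (disc_NN x w hw), disc_sq, disc_sq, Finset.mul_sum] at h1
  have h2 : ∀ i ∈ Finset.univ, w' i * p.eval (x i) ^ 2 ≤ t * (w i * p.eval (x i) ^ 2) := by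
    intro i _
    rw [← mul_assoc]
    exact mul_le_mul_of_nonneg_right (hle i) (sq_nonneg _)
  have h3 := (Finset.sum_eq_sum_iff_of_le h2).1 (le_antisymm (Finset.sum_le_sum h2) h1) i
    (Finset.mem_univ i)
  rw [← mul_assoc] at h3
  exact mul_right_cancel₀ (pow_ne_zero 2 hi) h3

/-- equality case, lower -/
lemma eq_case_lower (ht : 0 < t) (hx : Function.Injective x) (hw : ∀ i, 0 < w i)
    (hw' : ∀ i, 0 < w' i) (hk : k ≤ Fintype.card ι)
    (hle : ∀ i, t * w i ≤ w' i) (heq : hh (disc x w') k = t * hh (disc x w) k)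
    {p : ℝ[X]} (hp : IsOP (disc x w) k p) {i : ι} (hi : p.eval (x i) ≠ 0) : w' i = t * w i := by
  have hNN := disc_NN x w (fun i => (hw i).le)
  have hNN' := disc_NN x w' (fun i => (hw' i).le)
  obtain ⟨p', hp'⟩ := exists_op ((disc_PosTo x w' hx hw').mono hk)
  have h0 : t * disc x w (p' ^ 2) ≤ disc x w' (p' ^ 2) := by
    rw [← disc_smul_w]
    exact disc_mono hle p'
  have h1 : disc x w (p' ^ 2) ≤ disc x w (p ^ 2) := by
    have := hp'.hh_eq hNN'
    rw [heq, hp.hh_eq hNN] at this
    rw [← this] at h0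
    exact le_of_mul_le_mul_left h0 ht
  have h2 := hp.eq_of_le ((disc_PosTo x w hx hw).mono hk) hp'.monic hp'.deg h1
  subst h2
  have h3 : disc x w' (p' ^ 2) = t * disc x w (p' ^ 2) := by
    rw [← hp'.hh_eq hNN', heq, hp.hh_eq hNN]
  rw [disc_sq, disc_sq, Finset.mul_sum] at h3
  have h4 : ∀ i ∈ Finset.univ, t * (w i * p'.eval (x i) ^ 2) ≤ w' i * p'.eval (x i) ^ 2 := by
    intro i _
    rw [← mul_assoc]
    exact mul_le_mul_of_nonneg_right (hle i) (sq_nonneg _)
  have h5 := (Finset.sum_eq_sum_iff_of_le h4).1 h3.symm i (Finset.mem_univ i)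
  rw [← mul_assoc] at h5
  exact (mul_right_cancel₀ (pow_ne_zero 2 hi) h5).symm

end

/-! ## the functionals at the states -/

section
variable {f : ℝ[X]} {α β : ℝ} {c : Fin (f.natDegree - 1) → ℝ}

/-- functional at infinity -/
noncomputable def Dinf (f : ℝ[X]) (c : Fin (f.natDegree - 1) → ℝ) (H : Option ℝ → ℝ) :
    ℝ[X] →ₗ[ℝ] ℝ := disc c (om f c (fun y => H (some y)))

/-- functional at `z` -/
noncomputable def Dz (f : ℝ[X]) (c : Fin (f.natDegree - 1) → ℝ) (H : Option ℝ → ℝ) (z : ℝ) :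
    ℝ[X] →ₗ[ℝ] ℝ := disc (xz c z) (om f (xz c z) (fun y => H (some y)))

/-- a forward invariant set of real points outside the open hull containing the critical values -/
structure InvSet (f : ℝ[X]) (α β : ℝ) (c : Fin (f.natDegree - 1) → ℝ) (S : Set ℝ) : Prop where
  out : ∀ z ∈ S, z ≤ α ∨ β ≤ z
  val : ∀ j, f.eval (c j) ∈ S
  maps : ∀ z ∈ S, f.eval z ∈ S

/-- positivity of `H` at infinity and on `S` -/
def PosOn (S : Set ℝ) (H : Option ℝ → ℝ) : Prop := 0 < H none ∧ ∀ z ∈ S, 0 < H (some z)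

lemma chie_some (z : ℝ) (j : Fin (f.natDegree - 1)) :
    (chie (xz c z) (some j)).eval (c j) = (c j - z) * (chie c j).eval (c j) := by
  have h1 : chie (xz c z) (some j) = (X - C z) * chie c j := by
    have e1 := chi_eq (xz c z) (some j)
    have e2 : chi (xz c z) = (X - C z) * chi c := by
      unfold chi; rw [Fintype.prod_option]; rfl
    have e3 := chi_eq c j
    rw [e2, e3] at e1
    have e4 : (X - C (c j)) * ((X - C z) * chie c j) = (X - C (c j)) * chie (xz c z) (some j) := by
      have : xz c z (some j) = c j := rfl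
      rw [this] at e1
      rw [← e1]; ring
    exact (mul_left_cancel₀ (X_sub_C_ne_zero (c j)) e4).symm
  rw [h1, eval_mul]; simp

lemma om_some {H : ℝ → ℝ} {z : ℝ} (j : Fin (f.natDegree - 1)) :
    om f (xz c z) H (some j) = om f c H j / |c j - z| := by
  unfold om
  have : xz c z (some j) = c j := rfl
  rw [this, chie_some, abs_mul, div_div]
  congr 1
  ring

variable (h : Hull f α β c)
include h

lemma Hull.c_ne {z : ℝ} (hz : z ≤ α ∨ β ≤ z) (j : Fin (f.natDegree - 1)) : c j - z ≠ 0 := by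
  have := h.mem j
  rw [Set.mem_Ioo] at this
  intro h0
  rcases hz with hz | hz <;> linarith [this.1, this.2]

lemma Hull.sg_mul {z : ℝ} (hz : z ≤ α ∨ β ≤ z) (j : Fin (f.natDegree - 1)) :
    c j - z = - (sg β z * |c j - z|) := by
  have h1 := h.mem j
  rw [Set.mem_Ioo] at h1
  unfold sg
  split_ifs with hb
  · rw [abs_of_neg (by linarith [h1.2])]; ring
  · have : z ≤ α := by rcases hz with hz | hz; exact hz; exact absurd hz hb
    rw [abs_of_pos (by linarith [h1.1])]; ring

variable {S : Set ℝ} (hS : InvSet f α β c S) {H : Option ℝ → ℝ} (hH : PosOn S H)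
include hS hH

lemma omc_pos (j : Fin (f.natDegree - 1)) : 0 < om f c (fun y => H (some y)) j :=
  om_pos h.two_le h.inj (fun i => hH.2 _ (hS.val i)) j

lemma omz_pos {z : ℝ} (hz : z ∈ S) (i : Option (Fin (f.natDegree - 1))) :
    0 < om f (xz c z) (fun y => H (some y)) i :=
  om_pos h.two_le (h.xz_inj (hS.out z hz)) (fun i => hH.2 _ (by
    cases i with
    | none => exact hS.maps z hz
    | some j => exact hS.val j)) i

lemma Dinf_NN : NN (Dinf f c H) := disc_NN _ _ fun j => (omc_pos h hS hH j).le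
lemma Dz_NN {z : ℝ} (hz : z ∈ S) : NN (Dz f c H z) :=
  disc_NN _ _ fun j => (omz_pos h hS hH hz j).le

lemma Dinf_PosTo {k : ℕ} (hk : k ≤ f.natDegree - 1) : PosTo (Dinf f c H) k := by
  have := disc_PosTo c _ h.inj (omc_pos h hS hH)
  rw [Fintype.card_fin] at this
  exact this.mono hk

lemma Dz_PosTo {z : ℝ} (hz : z ∈ S) {k : ℕ} (hk : k ≤ f.natDegree) :
    PosTo (Dz f c H z) k := by
  have := disc_PosTo (xz c z) _ (h.xz_inj (hS.out z hz)) (omz_pos h hS hH hz)
  rw [card_opt h.two_le] at this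
  exact this.mono hk

/-- `D_∞(p) = s D_z((z - X) p)` -/
lemma Dinf_eq {z : ℝ} (hz : z ∈ S) (p : ℝ[X]) :
    Dinf f c H p = sg β z * Dz f c H z ((C z - X) * p) := by
  unfold Dinf Dz
  rw [disc_apply, disc_apply, Fintype.sum_option]
  have h0 : ((C z - X) * p).eval (xz c z none) = 0 := by
    have : xz c z none = z := rfl
    rw [this]; simp
  rw [h0, mul_zero, zero_add, Finset.mul_sum]
  refine Finset.sum_congr rfl fun j _ => ?_
  rw [om_some]
  have e1 : xz c z (some j) = c j := rfl
  have e2 := h.sg_mul (hS.out z hz) j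
  have e3 : |c j - z| ≠ 0 := abs_ne_zero.2 (h.c_ne (hS.out z hz) j)
  have e4 := sg_mul_self β z
  rw [e1, eval_mul, eval_sub, eval_C, eval_X]
  have e5 : z - c j = sg β z * |c j - z| := by linarith
  rw [e5]
  field_simp
  linear_combination (-(om f c (fun y => H (some y)) j * eval (c j) p)) * e4

/-- (P1) -/
lemma P1 {z : ℝ} (hz : z ∈ S) {r : ℕ} (hr : r < f.natDegree) {p : ℝ[X]}
    (hp : IsOP (Dz f c H z) r p) : p.eval z ≠ 0 := by
  intro h0
  obtain ⟨g, hg⟩ := dvd_iff_isRoot.2 (show p.IsRoot z from h0)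
  have hpne := hp.monic.ne_zero
  have hg0 : g ≠ 0 := by rintro rfl; rw [mul_zero] at hg; exact hpne hg
  have hgd : g.natDegree + 1 = r := by
    have := congrArg natDegree hg
    rw [natDegree_mul (X_sub_C_ne_zero z) hg0, natDegree_X_sub_C, hp.deg] at this
    omega
  have h1 : Dz f c H z (p * g) = 0 := by
    apply hp.orth
    rw [degree_eq_natDegree hg0]
    exact_mod_cast (by omega)
  have h2 : Dinf f c H (g ^ 2) = 0 := by
    rw [Dinf_eq h hS hH hz]
    have : (C z - X) * g ^ 2 = -(p * g) := by rw [hg]; ring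
    rw [this, map_neg, h1]; simp
  have h3 := Dinf_PosTo h hS hH (k := f.natDegree - 1) le_rfl g hg0 (by
    rw [degree_eq_natDegree hg0]
    exact_mod_cast (by omega))
  linarith

/-- (P2) `D_∞(p_z a) = - s h_r(D_z)`. -/
lemma P2 {z : ℝ} (hz : z ∈ S) {r : ℕ} (hr : r + 1 < f.natDegree) {p a : ℝ[X]}
    (hp : IsOP (Dz f c H z) (r + 1) p) (ha : a.Monic) (had : a.natDegree = r) :
    Dinf f c H (p * a) = - (sg β z * hh (Dz f c H z) (r + 1)) := by
  rw [Dinf_eq h hS hH hz]
  have hmon : ((X - C z) * a).Monic := (monic_X_sub_C z).mul ha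
  have hdeg : ((X - C z) * a).natDegree = r + 1 := by
    rw [natDegree_mul (X_sub_C_ne_zero z) ha.ne_zero, natDegree_X_sub_C, had]; ring
  have h1 : (C z - X) * (p * a) = -(p ^ 2 + p * ((X - C z) * a - p)) := by ring
  rw [h1, map_neg, map_add, hp.orth _ (hp.pyth hmon hdeg).1, hp.hh_eq (Dz_NN h hS hH hz)]
  ring

lemma P2' {z : ℝ} (hz : z ∈ S) {r : ℕ} (hr : r + 1 < f.natDegree) {p a : ℝ[X]}
    (hp : IsOP (Dz f c H z) (r + 1) p) (ha : a.Monic) (had : a.natDegree = r) :
    ∃ j, p.eval (c j) ≠ 0 ∧ a.eval (c j) ≠ 0 := by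
  by_contra hcon
  push Not at hcon
  have h1 := P2 h hS hH hz hr hp ha had
  have h2 : Dinf f c H (p * a) = 0 := by
    unfold Dinf
    rw [disc_apply]
    refine Finset.sum_eq_zero fun j _ => ?_
    by_cases h0 : p.eval (c j) = 0
    · rw [eval_mul, h0]; ring
    · rw [eval_mul, hcon j h0]; ring
  have h3 : 0 < hh (Dz f c H z) (r + 1) := hh_pos (Dz_NN h hS hH hz) (Dz_PosTo h hS hH hz (by omega))
  rw [h2] at h1
  have h4 : sg β z * hh (Dz f c H z) (r + 1) = 0 := by linarith
  rcases mul_eq_zero.1 h4 with h5 | h5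
  · exact sg_ne β z h5
  · linarith

/-- `p_z = b + t a` with `t = - s h_r(D_z)/h_{r-1}(D_∞)`. -/
lemma p_eq {z : ℝ} (hz : z ∈ S) {r : ℕ} (hr : r + 1 < f.natDegree) {p a b : ℝ[X]}
    (hp : IsOP (Dz f c H z) (r + 1) p) (ha : IsOP (Dinf f c H) r a)
    (hb : IsOP (Dinf f c H) (r + 1) b) :
    p = b + C (-(sg β z * hh (Dz f c H z) (r + 1)) / hh (Dinf f c H) r) * a := by
  have hNN := Dinf_NN h hS hH
  have hpos := Dinf_PosTo h hS hH (k := f.natDegree - 1) le_rfl
  set t := (p - b).coeff r with ht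
  set g := p - b - C t * a with hg
  have hpb : (p - b).degree < (r + 1 : ℕ) := (hb.pyth hp.monic hp.deg).1
  have hgd : g.degree < r := by
    have h1 : (C t * a).degree ≤ r := by
      refine (degree_mul_le _ _).trans ?_
      have e1 : (C t : ℝ[X]).degree ≤ 0 := degree_C_le
      have e2 : a.degree = r := by rw [degree_eq_natDegree ha.monic.ne_zero, ha.deg]
      calc (C t : ℝ[X]).degree + a.degree ≤ 0 + a.degree := by gcongr
        _ = r := by rw [zero_add, e2]
    have h2 : g.degree < (r + 1 : ℕ) := by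
      refine lt_of_le_of_lt (degree_sub_le _ _) (max_lt hpb (lt_of_le_of_lt h1 ?_))
      exact_mod_cast Nat.lt_succ_self r
    have h3 : g.coeff r = 0 := by
      have : a.coeff r = 1 := by rw [← ha.deg]; exact ha.monic.coeff_natDegree
      rw [hg, coeff_sub, coeff_C_mul, this, mul_one, ← ht, sub_self]
    rw [degree_lt_iff_coeff_zero] at h2 ⊢
    intro m hm
    rcases Nat.eq_or_lt_of_le hm with rfl | hlt
    · exact h3
    · exact h2 m hlt
  -- orthogonality of p - b to degree < r
  have horth : ∀ q : ℝ[X], q.degree < r → Dinf f c H (p * q) = 0 := by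
    intro q hq
    rw [Dinf_eq h hS hH hz]
    have : Dz f c H z (p * ((C z - X) * q)) = 0 := by
      apply hp.orth
      by_cases hq0 : q = 0
      · rw [hq0, mul_zero, degree_zero]; exact WithBot.bot_lt_coe _
      · have e1 : (C z - X : ℝ[X]).degree = 1 := by
          rw [← degree_neg]; simp [neg_sub, degree_X_sub_C]
        rw [degree_mul, e1]
        rw [degree_eq_natDegree hq0] at hq ⊢
        have hq' : q.natDegree < r := by exact_mod_cast hq
        have : 1 + q.natDegree < r + 1 := by omega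
        exact_mod_cast this
    have e : (C z - X) * (p * q) = p * ((C z - X) * q) := by ring
    rw [e, this, mul_zero]
  have hg0 : g = 0 := by
    by_contra hne
    have h1 := hpos g hne (lt_of_lt_of_le hgd (by exact_mod_cast (by omega)))
    have h2 : Dinf f c H (g ^ 2) = 0 := by
      have : g ^ 2 = p * g - b * g - t • (a * g) := by
        rw [smul_eq_C_mul, hg]; ring
      rw [this, map_sub, map_sub, map_smul, horth g hgd,
        hb.orth g (lt_trans hgd (by exact_mod_cast Nat.lt_succ_self r)), ha.orth g hgd]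
      simp
    linarith
  have hpt : p = b + C t * a := by
    have : p - b - C t * a = 0 := by rw [← hg]; exact hg0
    linear_combination this
  have hval : t = -(sg β z * hh (Dz f c H z) (r + 1)) / hh (Dinf f c H) r := by
    have h1 := P2 h hS hH hz hr hp ha.monic ha.deg
    have h2 : Dinf f c H (p * a) = t * hh (Dinf f c H) r := by
      rw [hpt, ha.hh_eq hNN]
      have : (b + C t * a) * a = b * a + t • a ^ 2 := by rw [smul_eq_C_mul]; ring
      rw [this, map_add, map_smul, hb.orth a (by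
        rw [degree_eq_natDegree ha.monic.ne_zero, ha.deg]; exact_mod_cast Nat.lt_succ_self r)]
      simp
    have h3 : 0 < hh (Dinf f c H) r := hh_pos hNN (Dinf_PosTo h hS hH (by omega))
    rw [eq_div_iff h3.ne', ← h1, h2]
  rw [← hval]; exact hpt

/-- consecutive OPs have no common zero -/
lemma no_common {r : ℕ} (hr : r + 1 < f.natDegree) {a b : ℝ[X]}
    (ha : IsOP (Dinf f c H) r a) (hb : IsOP (Dinf f c H) (r + 1) b) {y : ℝ}
    (h1 : a.eval y = 0) (h2 : b.eval y = 0) : False := by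
  have hNN := Dinf_NN h hS hH
  obtain ⟨g, hg⟩ := dvd_iff_isRoot.2 (show a.IsRoot y from h1)
  obtain ⟨g', hg'⟩ := dvd_iff_isRoot.2 (show b.IsRoot y from h2)
  have hg0 : g ≠ 0 := by rintro rfl; rw [mul_zero] at hg; exact ha.monic.ne_zero hg
  have hg0' : g' ≠ 0 := by rintro rfl; rw [mul_zero] at hg'; exact hb.monic.ne_zero hg'
  have hgd : g.natDegree + 1 = r := by
    have := congrArg natDegree hg
    rw [natDegree_mul (X_sub_C_ne_zero y) hg0, natDegree_X_sub_C, ha.deg] at this
    omega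
  have hgd' : g'.natDegree = r := by
    have := congrArg natDegree hg'
    rw [natDegree_mul (X_sub_C_ne_zero y) hg0', natDegree_X_sub_C, hb.deg] at this
    omega
  have hgm' : g'.Monic := by
    have := congrArg leadingCoeff hg'
    rw [hb.monic.leadingCoeff, leadingCoeff_mul, leadingCoeff_X_sub_C, one_mul] at this
    exact this.symm
  have e1 : Dinf f c H (b * g) = 0 := by
    apply hb.orth
    rw [degree_eq_natDegree hg0]; exact_mod_cast (by omega)
  have e2 : b * g = a ^ 2 + a * (g' - a) := by rw [hg', hg]; ring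
  rw [e2, map_add, ha.orth _ (ha.pyth hgm' hgd').1, ← ha.hh_eq hNN] at e1
  have h3 : 0 < hh (Dinf f c H) r := hh_pos hNN (Dinf_PosTo h hS hH (by omega))
  linarith

end

end Pool.Agent.Work.MP_e056c9_an
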