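import Pool.Agent.Work.MP_e056c9_an.OP

/-! # Expansion outside the hull, the set `Z` of orbits of critical values. -/

set_option autoImplicit false
set_option linter.unusedSectionVars false
set_option linter.unusedVariables false
open Polynomial

namespace Pool.Agent.Work.MP_e056c9_an

/-- distance to the hull for points outside the open hull -/
noncomputable def dd (α β z : ℝ) : ℝ := max (z - β) (α - z)

lemma dd_nonneg {α β z : ℝ} (hz : z ≤ α ∨ β ≤ z) : 0 ≤ dd α β z := by
  unfold dd
  rcases hz with hz | hz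
  · exact le_max_of_le_right (by linarith)
  · exact le_max_of_le_left (by linarith)

lemma dd_eq_zero {α β z : ℝ} (hz : z ≤ α ∨ β ≤ z) (hab : α < β) : dd α β z = 0 ↔ z = α ∨ z = β := by
  unfold dd
  constructor
  · intro h0
    have h1 := le_max_left (z - β) (α - z)
    have h2 := le_max_right (z - β) (α - z)
    rw [h0] at h1 h2
    rcases hz with hz | hz
    · left; linarith
    · right; linarith
  · rintro (rfl | rfl)
    · rw [sub_self]; exact max_eq_right (by linarith)
    · rw [sub_self]; exact max_eq_left (by linarith)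

/-- product ratio estimate -/
lemma prod_ratio (T : Multiset ℝ) (e e' z t : ℝ) (ht : 0 ≤ t) (hz : z - e = t * (e - e'))
    (hT : ∀ x ∈ T, 0 < (e - x) / (e - e') ∧ (e - x) / (e - e') ≤ 1) (hne : e - e' ≠ 0) :
    ∃ ρ : ℝ, (1 + t) ^ (Multiset.card T) ≤ ρ ∧
      (T.map (fun x => z - x)).prod = ρ * (T.map (fun x => e - x)).prod := by
  induction T using Multiset.induction_on with
  | empty => exact ⟨1, by simp, by simp⟩
  | cons a T ih =>
    obtain ⟨ρ, hρ, hprod⟩ := ih fun x hx => hT x (Multiset.mem_cons_of_mem hx)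
    obtain ⟨h1, h2⟩ := hT a (Multiset.mem_cons_self a T)
    have hea : e - a ≠ 0 := by
      intro h0; rw [h0, zero_div] at h1; exact lt_irrefl _ h1
    refine ⟨(1 + t / ((e - a) / (e - e'))) * ρ, ?_, ?_⟩
    · rw [Multiset.card_cons, pow_succ, mul_comm]
      have h3 : 1 + t ≤ 1 + t / ((e - a) / (e - e')) := by
        have : t ≤ t / ((e - a) / (e - e')) := by
          rw [le_div_iff₀ h1]
          exact mul_le_of_le_one_right ht h2
        linarith
      have h4 : (0 : ℝ) ≤ (1 + t) ^ (Multiset.card T) := by positivity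
      exact mul_le_mul h3 hρ h4 (by linarith)
    · rw [Multiset.map_cons, Multiset.prod_cons, Multiset.map_cons, Multiset.prod_cons, hprod]
      have h5 : z - a = (1 + t / ((e - a) / (e - e'))) * (e - a) := by
        field_simp
        linear_combination hz
      rw [h5]; ring

section
variable {f : ℝ[X]} {α β : ℝ} {c : Fin (f.natDegree - 1) → ℝ}

lemma eval_eq_roots {f : ℝ[X]} {y : ℝ} (hf : 2 ≤ f.natDegree)
    (hs : Multiset.card (f - C y).roots = f.natDegree) (z : ℝ) :
    f.eval z - y = f.leadingCoeff * ((f - C y).roots.map (fun x => z - x)).prod := by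
  have hnd : (f - C y).natDegree = f.natDegree := natDegree_sub_C
  have hlc : (f - C y).leadingCoeff = f.leadingCoeff := by
    apply leadingCoeff_sub_of_degree_lt
    refine lt_of_le_of_lt degree_C_le ?_
    rw [← natDegree_pos_iff_degree_pos]; omega
  have h1 := C_leadingCoeff_mul_prod_multiset_X_sub_C (hs.trans hnd.symm)
  have h2 := congrArg (eval z) h1
  rw [eval_mul, eval_C, eval_multiset_prod, Multiset.map_map, hlc] at h2
  simp only [eval_sub, eval_C] at h2
  rw [← h2]
  congr 2
  apply Multiset.map_congr rfl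
  intro x _
  simp

/-- core ratio computation: `e` an end, `y'` the end different from `f e`. -/
lemma Hull.ratio (h : Hull f α β c) {e e' y' z : ℝ} (hee : (e = α ∧ e' = β) ∨ (e = β ∧ e' = α))
    (hy' : y' = α ∨ y' = β) (hfe : f.eval e ≠ y') {t : ℝ} (ht : 0 ≤ t)
    (hz : z - e = t * (e - e')) :
    ∃ ρ : ℝ, 1 + 2 * t ≤ ρ ∧ f.eval z - y' = ρ * (f.eval e - y') := by
  obtain ⟨hs, hmem⟩ := h.splits y' hy'
  have hlt := h.lt
  have hne : e - e' ≠ 0 := by
    rcases hee with ⟨rfl, rfl⟩ | ⟨rfl, rfl⟩
    · linarith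
    · intro h0; linarith
  have hT : ∀ x ∈ (f - C y').roots, 0 < (e - x) / (e - e') ∧ (e - x) / (e - e') ≤ 1 := by
    intro x hx
    have hxI := hmem x hx
    rw [Set.mem_Icc] at hxI
    have hxe : x ≠ e := by
      rintro rfl
      have := (mem_roots'.1 hx).2
      rw [IsRoot, eval_sub, eval_C, sub_eq_zero] at this
      exact hfe this
    rcases hee with ⟨rfl, rfl⟩ | ⟨rfl, rfl⟩
    · have h1 : e < x := lt_of_le_of_ne hxI.1 (Ne.symm hxe)
      constructor
      · exact div_pos_of_neg_of_neg (by linarith) (by linarith)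
      · rw [div_le_one_of_neg (by linarith)]; linarith [hxI.2]
    · have h1 : x < e := lt_of_le_of_ne hxI.2 hxe
      constructor
      · exact div_pos (by linarith) (by linarith)
      · rw [div_le_one (by linarith)]; linarith [hxI.1]
  obtain ⟨ρ, hρ, hprod⟩ := prod_ratio _ e e' z t ht hz hT hne
  refine ⟨ρ, le_trans ?_ hρ, ?_⟩
  · rw [hs]
    have h1 : (1 + t) ^ 2 ≤ (1 + t) ^ f.natDegree := pow_le_pow_right₀ (by linarith) h.two_le
    nlinarith
  · rw [eval_eq_roots h.two_le hs z, eval_eq_roots h.two_le hs e, hprod]; ring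

/-- Expansion outside the hull. -/
lemma Hull.expand (h : Hull f α β c) {z : ℝ} (hz : z ≤ α ∨ β ≤ z) :
    2 * dd α β z ≤ dd α β (f.eval z) := by
  have hlt := h.lt
  have hba : 0 < β - α := by linarith
  -- general end
  have main : ∀ e e' : ℝ, ((e = α ∧ e' = β) ∨ (e = β ∧ e' = α)) → ∀ t : ℝ, 0 ≤ t →
      z - e = t * (e - e') → 2 * (t * (β - α)) ≤ dd α β (f.eval z) := by
    intro e e' hee t ht hze
    have hfe : f.eval e = α ∨ f.eval e = β := by
      rcases hee with ⟨rfl, _⟩ | ⟨rfl, _⟩
      · exact h.end_left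
      · exact h.end_right
    rcases hfe with hfe | hfe
    · obtain ⟨ρ, hρ, heq⟩ := h.ratio hee (Or.inr rfl) (by rw [hfe]; exact hlt.ne) ht hze
      rw [hfe] at heq
      have : α - f.eval z = (ρ - 1) * (β - α) := by linear_combination -heq
      unfold dd
      refine le_max_of_le_right ?_
      rw [this]
      nlinarith
    · obtain ⟨ρ, hρ, heq⟩ := h.ratio hee (Or.inl rfl) (by rw [hfe]; exact hlt.ne') ht hze
      rw [hfe] at heq
      have : f.eval z - β = (ρ - 1) * (β - α) := by linear_combination heq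
      unfold dd
      refine le_max_of_le_left ?_
      rw [this]
      nlinarith
  rcases hz with hz | hz
  · have := main α β (Or.inl ⟨rfl, rfl⟩) ((α - z) / (β - α)) (div_nonneg (by linarith) hba.le)
      (by field_simp; ring)
    rw [div_mul_cancel₀ _ hba.ne'] at this
    have h1 : dd α β z = α - z := by unfold dd; exact max_eq_right (by linarith)
    rw [h1]; exact this
  · have := main β α (Or.inr ⟨rfl, rfl⟩) ((z - β) / (β - α)) (div_nonneg (by linarith) hba.le)
      (by field_simp)
    rw [div_mul_cancel₀ _ hba.ne'] at this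
    have h1 : dd α β z = z - β := by unfold dd; exact max_eq_left (by linarith)
    rw [h1]; exact this

/-- iterates -/
noncomputable def it (f : ℝ[X]) (n : ℕ) (z : ℝ) : ℝ := (fun y : ℝ => f.eval y)^[n] z

lemma it_zero (z : ℝ) : it f 0 z = z := rfl
lemma it_succ (n : ℕ) (z : ℝ) : it f (n + 1) z = f.eval (it f n z) := by
  unfold it; rw [Function.iterate_succ_apply']

/-- orbits of critical values -/
def ZS (f : ℝ[X]) (c : Fin (f.natDegree - 1) → ℝ) : Set ℝ :=
  {z | ∃ (j : Fin (f.natDegree - 1)) (n : ℕ), z = it f n (f.eval (c j))}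

lemma Hull.it_out (h : Hull f α β c) {z : ℝ} (hz : z ≤ α ∨ β ≤ z) (n : ℕ) :
    it f n z ≤ α ∨ β ≤ it f n z := by
  induction n with
  | zero => exact hz
  | succ n ih => rw [it_succ]; exact h.maps _ ih

lemma Hull.it_expand (h : Hull f α β c) {z : ℝ} (hz : z ≤ α ∨ β ≤ z) (n : ℕ) :
    2 ^ n * dd α β z ≤ dd α β (it f n z) := by
  induction n with
  | zero => simp [it_zero]
  | succ n ih =>
    rw [it_succ]
    have := h.expand (h.it_out hz n)
    calc (2 : ℝ) ^ (n + 1) * dd α β z = 2 * (2 ^ n * dd α β z) := by ring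
      _ ≤ 2 * dd α β (it f n z) := by linarith
      _ ≤ _ := this

lemma Hull.ZS_inv (h : Hull f α β c) : InvSet f α β c (ZS f c) where
  out := by rintro z ⟨j, n, rfl⟩; exact h.it_out (h.val j) n
  val := fun j => ⟨j, 0, rfl⟩
  maps := by rintro z ⟨j, n, rfl⟩; exact ⟨j, n + 1, (it_succ n _).symm⟩

lemma Hull.end_maps (h : Hull f α β c) {z : ℝ} (hz : z = α ∨ z = β) :
    f.eval z = α ∨ f.eval z = β := by
  rcases hz with rfl | rfl
  · exact h.end_left
  · exact h.end_right

lemma Hull.it_end (h : Hull f α β c) {z : ℝ} (hz : z = α ∨ z = β) (n : ℕ) :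
    it f n z = α ∨ it f n z = β := by
  induction n with
  | zero => exact hz
  | succ n ih => rw [it_succ]; exact h.end_maps ih

/-- points of `Z` are end points or at distance at least `δ₀` from the hull -/
lemma Hull.exists_delta (h : Hull f α β c) :
    ∃ δ₀ : ℝ, 0 < δ₀ ∧ (∀ z ∈ ZS f c, (z = α ∨ z = β) ∨ δ₀ ≤ dd α β z) ∧
      ∀ B : ℝ, {z ∈ ZS f c | dd α β z ≤ B}.Finite := by
  classical
  have h1 : ∃ δ₀ : ℝ, 0 < δ₀ ∧ ∀ j, 0 < dd α β (f.eval (c j)) → δ₀ ≤ dd α β (f.eval (c j)) := by
    by_cases hne : Nonempty (Fin (f.natDegree - 1))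
    · obtain ⟨j, -, hj⟩ := Finset.exists_min_image Finset.univ
        (fun j => if 0 < dd α β (f.eval (c j)) then dd α β (f.eval (c j)) else 1)
        Finset.univ_nonempty
      refine ⟨if 0 < dd α β (f.eval (c j)) then dd α β (f.eval (c j)) else 1, ?_, ?_⟩
      · split_ifs with h0
        · exact h0
        · exact one_pos
      · intro k hk
        have := hj k (Finset.mem_univ k)
        simp only [if_pos hk] at this
        exact this
    · exact ⟨1, one_pos, fun j => absurd ⟨j⟩ hne⟩
  obtain ⟨δ₀, hδ, hj⟩ := h1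
  have key : ∀ j n, (it f n (f.eval (c j)) = α ∨ it f n (f.eval (c j)) = β) ∨
      2 ^ n * δ₀ ≤ dd α β (it f n (f.eval (c j))) := by
    intro j n
    rcases (dd_nonneg (h.val j)).eq_or_lt with h0 | h0
    · left
      exact h.it_end ((dd_eq_zero (h.val j) h.lt).1 h0.symm) n
    · right
      have := h.it_expand (h.val j) n
      have h2 := hj j h0
      have h3 : (0 : ℝ) < 2 ^ n := by positivity
      nlinarith
  refine ⟨δ₀, hδ, ?_, ?_⟩
  · rintro z ⟨j, n, rfl⟩
    rcases key j n with h2 | h2
    · left; exact h2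
    · right
      have h3 : (1 : ℝ) ≤ 2 ^ n := one_le_pow₀ (by norm_num)
      nlinarith
  · intro B
    obtain ⟨N, hN⟩ : ∃ N : ℕ, B < 2 ^ N * δ₀ := by
      obtain ⟨N, hN⟩ := pow_unbounded_of_one_lt (B / δ₀) (one_lt_two : (1:ℝ) < 2)
      exact ⟨N, by rwa [div_lt_iff₀ hδ] at hN⟩
    have hsub : {z ∈ ZS f c | dd α β z ≤ B} ⊆
        ({α, β} : Set ℝ) ∪ Set.range (fun q : Fin (f.natDegree - 1) × Fin N => it f q.2 (f.eval (c q.1))) := by
      rintro z ⟨⟨j, n, rfl⟩, hB⟩
      rcases key j n with h2 | h2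
      · left; simpa using h2
      · right
        have hn : n < N := by
          by_contra hcon
          push Not at hcon
          have : (2 : ℝ) ^ N ≤ 2 ^ n := pow_le_pow_right₀ (by norm_num) hcon
          nlinarith
        exact ⟨(j, ⟨n, hn⟩), rfl⟩
    exact Set.Finite.subset (Set.Finite.union (Set.toFinite _) (Set.finite_range _)) hsub

end

end Pool.Agent.Work.MP_e056c9_an
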