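import Pool.Agent.Work.MP_e056c9_an.Defs

/-! # Block P, part A: algebra of the balanced property -/

set_option autoImplicit false
open Polynomial MeasureTheory

namespace Pool.Agent.Work.MP_e056c9_an.Pot

/-- monic version of `f - y` -/
noncomputable def mon (f : ℝ[X]) (y : ℝ) : ℝ[X] := C f.leadingCoeff⁻¹ * (f - C y)

variable {f : ℝ[X]}

lemma lc_ne (hd : 2 ≤ f.natDegree) : f.leadingCoeff ≠ 0 := by
  intro h
  rw [leadingCoeff_eq_zero] at h
  simp [h] at hd

lemma leadingCoeff_sub (hd : 2 ≤ f.natDegree) (y : ℝ) :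
    (f - C y).leadingCoeff = f.leadingCoeff := by
  unfold leadingCoeff
  rw [natDegree_sub_C, coeff_sub, coeff_C, if_neg (by omega), sub_zero]

lemma mon_monic (hd : 2 ≤ f.natDegree) (y : ℝ) : (mon f y).Monic := by
  unfold mon Monic
  rw [leadingCoeff_mul, leadingCoeff_C, leadingCoeff_sub hd, inv_mul_cancel₀ (lc_ne hd)]

lemma mon_natDegree (hd : 2 ≤ f.natDegree) (y : ℝ) : (mon f y).natDegree = f.natDegree := by
  unfold mon
  rw [natDegree_C_mul (inv_ne_zero (lc_ne hd)), natDegree_sub_C]

lemma mon_degree (hd : 2 ≤ f.natDegree) (y : ℝ) : (mon f y).degree = f.natDegree := by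
  rw [degree_eq_natDegree (mon_monic hd y).ne_zero, mon_natDegree hd]

/-- The functional `G ↦ ∑_{f x = y} G x / f' x`. -/
noncomputable def phi (f : ℝ[X]) (y : ℝ) : ℝ[X] →ₗ[ℝ] ℝ :=
  (f.leadingCoeff)⁻¹ • ((lcoeff ℝ (f.natDegree - 1)) ∘ₗ (modByMonicHom (mon f y)))

lemma phi_apply (y : ℝ) (G : ℝ[X]) :
    phi f y G = f.leadingCoeff⁻¹ * (G %ₘ (mon f y)).coeff (f.natDegree - 1) := rfl

lemma degree_lt_of_natDegree_lt {G : ℝ[X]} {n : ℕ} (h : G.natDegree < n) :
    G.degree < (n : WithBot ℕ) :=
  lt_of_le_of_lt degree_le_natDegree (by exact_mod_cast h)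

lemma phi_of_lt (hd : 2 ≤ f.natDegree) (y : ℝ) (G : ℝ[X]) (hG : G.natDegree < f.natDegree) :
    phi f y G = G.coeff (f.natDegree - 1) / f.leadingCoeff := by
  rw [phi_apply, (modByMonic_eq_self_iff (mon_monic hd y)).2]
  · ring
  · rw [mon_degree hd]; exact degree_lt_of_natDegree_lt hG

lemma phi_mul_sub (hd : 2 ≤ f.natDegree) (y : ℝ) (S : ℝ[X]) :
    phi f y ((f - C y) * S) = 0 := by
  have h1 : (f - C y) * S = mon f y * (C f.leadingCoeff * S) := by
    unfold mon
    have : (C f.leadingCoeff⁻¹ : ℝ[X]) * C f.leadingCoeff = 1 := by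
      rw [← C_mul, inv_mul_cancel₀ (lc_ne hd), C_1]
    linear_combination (-(f - C y) * S) * this
  have h2 : ((f - C y) * S) %ₘ (mon f y) = 0 := by
    rw [(modByMonic_eq_zero_iff_dvd (mon_monic hd y)), h1]
    exact dvd_mul_right _ _
  rw [phi_apply, h2]
  simp

lemma phi_comp (hd : 2 ≤ f.natDegree) (y : ℝ) (Q G : ℝ[X]) (hG : G.natDegree < f.natDegree) :
    phi f y (Q.comp f * G) = Q.eval y * (G.coeff (f.natDegree - 1) / f.leadingCoeff) := by
  obtain ⟨S, hS⟩ : (f - C y) ∣ Q.comp f - C (Q.eval y) := by
    have := sub_dvd_eval_sub f (C y) (Q.map C)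
    rw [eval_map, eval_map] at this
    have h1 : eval₂ C f Q = Q.comp f := rfl
    have h2 : eval₂ C (C y) Q = C (Q.eval y) := by
      rw [eval₂_at_apply]
    rwa [h1, h2] at this
  have h3 : Q.comp f * G = Q.eval y • G + (f - C y) * (S * G) := by
    have : Q.comp f = C (Q.eval y) + (f - C y) * S := by rw [← hS]; ring
    rw [this, smul_eq_C_mul]; ring
  rw [h3, map_add, map_smul, phi_mul_sub hd, phi_of_lt hd y G hG, smul_eq_mul, add_zero]

/-- The residue formula. -/
lemma phi_deriv (hd : 2 ≤ f.natDegree) (y : ℝ)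
    (hy : Multiset.card (f - C y).roots = f.natDegree) (H : ℝ[X]) :
    phi f y (derivative f * H) = ((f - C y).roots.map (fun w => H.eval w)).sum := by
  classical
  set R := (f - C y).roots with hR
  have hfac : C f.leadingCoeff * (R.map fun a => X - C a).prod = f - C y := by
    have := C_leadingCoeff_mul_prod_multiset_X_sub_C (p := f - C y) (by rw [natDegree_sub_C]; exact hy)
    rwa [leadingCoeff_sub hd] at this
  have hder : derivative f = (R.map (fun a => C f.leadingCoeff *
      ((R.erase a).map fun b => X - C b).prod)).sum := by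
    have h1 : derivative f = derivative (f - C y) := by simp
    rw [h1, ← hfac, derivative_C_mul, derivative_prod, Multiset.sum_map_mul_left]
    congr 2
    apply Multiset.map_congr rfl
    intro a _
    simp
  rw [hder, Multiset.sum_map_mul_right.symm, map_multiset_sum, Multiset.map_map]
  congr 1
  apply Multiset.map_congr rfl
  intro a ha
  simp only [Function.comp]
  obtain ⟨S, hS⟩ : (X - C a) ∣ H - C (H.eval a) := by
    have := X_sub_C_dvd_sub_C_eval (a := a) (p := H)
    exact this
  have hprod : (R.map fun b => X - C b).prod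
      = (X - C a) * ((R.erase a).map fun b => X - C b).prod := by
    rw [← Multiset.prod_map_erase ha]
  have hH : H = C (H.eval a) + (X - C a) * S := by rw [← hS]; ring
  have h4 : C f.leadingCoeff * ((R.erase a).map fun b => X - C b).prod * H
      = (f.leadingCoeff * H.eval a) • ((R.erase a).map fun b => X - C b).prod
        + (f - C y) * S := by
    rw [← hfac, hprod, smul_eq_C_mul, C_mul]
    linear_combination (C f.leadingCoeff * ((R.erase a).map fun b => X - C b).prod) * hH
  have hmonic : ((R.erase a).map fun b => X - C b).prod.Monic :=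
    monic_multiset_prod_of_monic _ _ (fun b _ => monic_X_sub_C b)
  have hcard : Multiset.card (R.erase a) = f.natDegree - 1 := by
    rw [Multiset.card_erase_of_mem ha, hy]; rfl
  have hdeg : ((R.erase a).map fun b => X - C b).prod.natDegree = f.natDegree - 1 := by
    rw [natDegree_multiset_prod_X_sub_C_eq_card, hcard]
  rw [h4, map_add, map_smul, phi_mul_sub hd, phi_of_lt hd y _ (by rw [hdeg]; omega), add_zero,
    smul_eq_mul]
  have : (((R.erase a).map fun b => X - C b).prod).coeff (f.natDegree - 1) = 1 := by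
    rw [← hdeg]; exact hmonic
  rw [this]
  field_simp [lc_ne hd]

/-- Constant value of `∑_{f x = y} G x` for `deg G < deg f`. -/
noncomputable def sig (f G : ℝ[X]) : ℝ := ((derivative f * G) %ₘ (mon f 0)).coeff (f.natDegree - 1)
    / f.leadingCoeff

lemma phi_deriv_const (hd : 2 ≤ f.natDegree) (y : ℝ) (G : ℝ[X]) (hG : G.natDegree < f.natDegree) :
    phi f y (derivative f * G) = sig f G := by
  have hm := mon_monic hd 0
  set A := (derivative f * G) /ₘ (mon f 0) with hA
  set B := (derivative f * G) %ₘ (mon f 0) with hB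
  have h1 : derivative f * G = B + mon f 0 * A := (modByMonic_add_div _ _).symm
  have hf0 : mon f 0 = C f.leadingCoeff⁻¹ * f := by unfold mon; simp
  have h2 : mon f 0 * A = X.comp f * (C f.leadingCoeff⁻¹ * A) := by
    rw [hf0, X_comp]; ring
  have hdegA : A.natDegree ≤ f.natDegree - 2 := by
    rw [hA, natDegree_divByMonic _ hm, mon_natDegree hd]
    have h3 : (derivative f * G).natDegree ≤ (f.natDegree - 1) + (f.natDegree - 1) := by
      refine natDegree_mul_le.trans ?_
      have := natDegree_derivative_le f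
      omega
    omega
  have hdegA' : (C f.leadingCoeff⁻¹ * A).natDegree ≤ f.natDegree - 2 :=
    (natDegree_C_mul_le _ _).trans hdegA
  have hdegB : B.natDegree < f.natDegree := by
    rw [hB, ← mon_natDegree hd 0]
    apply natDegree_modByMonic_lt _ hm
    intro h
    have := mon_natDegree hd (0 : ℝ)
    rw [h, natDegree_one] at this
    omega
  have hz : (C f.leadingCoeff⁻¹ * A).coeff (f.natDegree - 1) = 0 :=
    coeff_eq_zero_of_natDegree_lt (by omega)
  rw [h1, map_add, h2, phi_comp hd y _ _ (by omega), phi_of_lt hd y B hdegB, hz]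
  simp [sig, ← hB]

/-- induction principle: base `f` expansions -/
lemma base_induct (hd : 2 ≤ f.natDegree) (V : Submodule ℝ ℝ[X]) (h1 : (1 : ℝ[X]) ∈ V)
    (h : ∀ Q ∈ V, ∀ G : ℝ[X], G.natDegree < f.natDegree → Q.comp f * G ∈ V) : V = ⊤ := by
  have key : ∀ m : ℕ, ∀ p : ℝ[X], p.natDegree < m → p ∈ V := by
    intro m
    induction m with
    | zero => intro p hp; omega
    | succ m ih =>
      intro p hp
      by_cases hm : p.natDegree < m
      · exact ih p hm
      have hpm : p.natDegree = m := by omega
      by_cases hm0 : m = 0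
      · rw [hm0] at hpm
        rw [eq_C_of_natDegree_eq_zero hpm]
        have := V.smul_mem (p.coeff 0) h1
        rwa [smul_eq_C_mul, mul_one] at this
      -- m ≥ 1
      set q := m / f.natDegree with hq
      set j := m % f.natDegree with hj
      have hjd : j < f.natDegree := Nat.mod_lt _ (by omega)
      have hqm : q < m := Nat.div_lt_self (by omega) (by omega)
      have hmqj : m = q * f.natDegree + j := by
        rw [hq, hj]; exact (Nat.div_add_mod' m f.natDegree).symm
      have hE : ((X : ℝ[X]) ^ q).comp f * X ^ j ∈ V := by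
        apply h
        · apply ih; rw [natDegree_X_pow]; exact hqm
        · rw [natDegree_X_pow]; exact hjd
      set E : ℝ[X] := ((X : ℝ[X]) ^ q).comp f * X ^ j with hEdef
      have hf0 : f ≠ 0 := by rintro rfl; simp at hd
      have hE' : E = f ^ q * X ^ j := by rw [hEdef, X_pow_comp]
      have hEdeg : E.natDegree = m := by
        rw [hE', natDegree_mul (pow_ne_zero _ hf0) (pow_ne_zero _ X_ne_zero), natDegree_pow,
          natDegree_X_pow, ← hmqj]
      have hElc : E.leadingCoeff = f.leadingCoeff ^ q := by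
        rw [hE', leadingCoeff_mul, leadingCoeff_pow, leadingCoeff_X_pow, mul_one]
      have hElc0 : E.leadingCoeff ≠ 0 := by rw [hElc]; exact pow_ne_zero _ (lc_ne hd)
      set r : ℝ := p.leadingCoeff / E.leadingCoeff with hr
      have hp0 : p ≠ 0 := by
        rintro rfl
        simp at hpm
        omega
      have hr0 : r ≠ 0 := by
        rw [hr]
        exact div_ne_zero (by rwa [Ne, leadingCoeff_eq_zero]) hElc0
      have hdiff : p - r • E ∈ V := by
        by_cases hz : p - r • E = 0
        · rw [hz]; exact V.zero_mem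
        apply ih
        have hdlt : (p - r • E).degree < p.degree := by
          apply degree_sub_lt_left
          · rw [smul_eq_C_mul, degree_C_mul hr0, degree_eq_natDegree hp0,
              degree_eq_natDegree (by intro h0; simp [h0] at hElc0), hEdeg, hpm]
          · exact hp0
          · rw [smul_eq_C_mul, leadingCoeff_mul, leadingCoeff_C, hr]
            field_simp
        have := natDegree_lt_natDegree hz hdlt
        omega
      have := V.add_mem hdiff (V.smul_mem r hE)
      rwa [sub_add_cancel] at this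
  rw [eq_top_iff]
  intro p _
  exact key (p.natDegree + 1) p (by omega)

/-- `φ_y(p)` is a polynomial in `y`. -/
lemma phi_poly (hd : 2 ≤ f.natDegree) (p : ℝ[X]) : ∃ T : ℝ[X], ∀ y, phi f y p = T.eval y := by
  let V : Submodule ℝ ℝ[X] :=
    { carrier := {p | ∃ T : ℝ[X], ∀ y, phi f y p = T.eval y}
      add_mem' := by
        rintro a b ⟨T, hT⟩ ⟨T', hT'⟩
        exact ⟨T + T', fun y => by rw [map_add, hT, hT', eval_add]⟩
      zero_mem' := ⟨0, fun y => by simp⟩
      smul_mem' := by
        rintro c a ⟨T, hT⟩
        exact ⟨c • T, fun y => by rw [map_smul, hT, eval_smul]⟩ }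
  have : V = ⊤ := by
    apply base_induct hd
    · refine ⟨C ((1 : ℝ[X]).coeff (f.natDegree - 1) / f.leadingCoeff), fun y => ?_⟩
      rw [phi_of_lt hd y _ (by rw [natDegree_one]; omega), eval_C]
    · intro Q _ G hG
      refine ⟨Q * C (G.coeff (f.natDegree - 1) / f.leadingCoeff), fun y => ?_⟩
      rw [phi_comp hd y Q G hG, eval_mul, eval_C]
  have hp : p ∈ V := by rw [this]; trivial
  exact hp

end Pool.Agent.Work.MP_e056c9_an.Pot
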