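import Mathlib

/-! # Block P, part B: positivity of the logarithmic energy on an interval (Chebyshev) -/

set_option autoImplicit false
open MeasureTheory Filter Topology Real

namespace Pool.Agent.Work.MP_e056c9_an.Pot

lemma hasSum_cos (r ψ : ℝ) (hr0 : 0 ≤ r) (hr1 : r < 1) :
    HasSum (fun n : ℕ => r ^ n * cos (n * ψ) / n)
      (-(1 / 2) * log (1 - 2 * r * cos ψ + r ^ 2)) := by
  have hz : ‖(r : ℂ) * Complex.exp (ψ * Complex.I)‖ < 1 := by
    rw [norm_mul, Complex.norm_exp_ofReal_mul_I, mul_one, Complex.norm_real, norm_of_nonneg hr0]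
    exact hr1
  have h := (Complex.hasSum_taylorSeries_neg_log hz)
  have h2 := h.mapL Complex.reCLM
  simp only [Complex.reCLM_apply] at h2
  convert h2 using 1
  · funext n
    rw [mul_pow, ← Complex.exp_nat_mul, show ((n : ℂ) * (ψ * Complex.I)) = ((n * ψ : ℝ) : ℂ) *
      Complex.I by push_cast; ring, ← Complex.ofReal_pow]
    rw [show ((r ^ n : ℝ) : ℂ) * Complex.exp (((n * ψ : ℝ) : ℂ) * Complex.I) / (n : ℂ)
      = ((r ^ n / n : ℝ) : ℂ) * Complex.exp (((n * ψ : ℝ) : ℂ) * Complex.I) by push_cast; ring]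
    rw [Complex.re_ofReal_mul, Complex.exp_ofReal_mul_I_re]
    ring
  · rw [Complex.neg_re, Complex.log_re]
    have hn : ‖1 - (r : ℂ) * Complex.exp (ψ * Complex.I)‖ ^ 2 = 1 - 2 * r * cos ψ + r ^ 2 := by
      rw [← Complex.normSq_eq_norm_sq, Complex.normSq_apply]
      simp only [Complex.sub_re, Complex.one_re, Complex.re_ofReal_mul,
        Complex.exp_ofReal_mul_I_re, Complex.sub_im, Complex.one_im, Complex.im_ofReal_mul,
        Complex.exp_ofReal_mul_I_im]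
      nlinarith [sin_sq_add_cos_sq ψ]
    rw [← hn, log_pow]
    push_cast
    ring

/-- the regularised kernel -/
noncomputable def PP (r x y : ℝ) : ℝ :=
  (1 - r ^ 2) ^ 2 + 4 * r ^ 2 * (x - y) ^ 2 - 4 * r * (1 - r) ^ 2 * (x * y)

noncomputable def kk (r x y : ℝ) : ℝ := -(1 / 2) * log (PP r x y)

lemma PP_factor (r θ φ : ℝ) :
    PP r (cos θ) (cos φ) = (1 - 2 * r * cos (θ + φ) + r ^ 2) * (1 - 2 * r * cos (θ - φ) + r ^ 2) := by
  unfold PP
  rw [cos_add, cos_sub]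
  have h1 := sin_sq_add_cos_sq θ
  have h2 := sin_sq_add_cos_sq φ
  have h3 : (cos θ * cos φ - sin θ * sin φ) * (cos θ * cos φ + sin θ * sin φ)
      = cos θ ^ 2 + cos φ ^ 2 - 1 := by
    have h4 : sin θ ^ 2 = 1 - cos θ ^ 2 := by linarith
    have h5 : sin φ ^ 2 = 1 - cos φ ^ 2 := by linarith
    calc _ = cos θ ^ 2 * cos φ ^ 2 - sin θ ^ 2 * sin φ ^ 2 := by ring
      _ = _ := by rw [h4, h5]; ring
  linear_combination (-4 * r ^ 2) * h3

lemma factor_pos (r ψ : ℝ) (hr0 : 0 ≤ r) (hr1 : r < 1) : 0 < 1 - 2 * r * cos ψ + r ^ 2 := by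
  have := cos_le_one ψ
  nlinarith [mul_nonneg hr0 (sub_nonneg.2 this), sq_nonneg (1 - r), mul_self_pos.2 (sub_ne_zero.2 hr1.ne')]

lemma factor_le (r ψ : ℝ) (hr0 : 0 ≤ r) (hr1 : r < 1) : 1 - 2 * r * cos ψ + r ^ 2 ≤ 4 := by
  have := neg_one_le_cos ψ
  nlinarith [mul_nonneg hr0 (by linarith : (0:ℝ) ≤ cos ψ + 1)]

lemma hasSum_kk (r x y : ℝ) (hr0 : 0 ≤ r) (hr1 : r < 1) (hx : x ∈ Set.Icc (-1 : ℝ) 1)
    (hy : y ∈ Set.Icc (-1 : ℝ) 1) :
    HasSum (fun n : ℕ => (2 * r ^ n / n) * (cos (n * arccos x) * cos (n * arccos y))) (kk r x y) := by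
  have h1 := hasSum_cos r (arccos x + arccos y) hr0 hr1
  have h2 := hasSum_cos r (arccos x - arccos y) hr0 hr1
  have h := h1.add h2
  convert h using 1
  · funext n
    rw [show (n : ℝ) * (arccos x + arccos y) = n * arccos x + n * arccos y by ring,
      show (n : ℝ) * (arccos x - arccos y) = n * arccos x - n * arccos y by ring, cos_add, cos_sub]
    ring
  · unfold kk
    have hP := PP_factor r (arccos x) (arccos y)
    rw [cos_arccos hx.1 hx.2, cos_arccos hy.1 hy.2] at hP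
    rw [hP, log_mul (factor_pos r _ hr0 hr1).ne' (factor_pos r _ hr0 hr1).ne']
    ring

lemma PP_ge (r x y : ℝ) (hr0 : 0 ≤ r) (hx : x ∈ Set.Icc (-1 : ℝ) 1)
    (hy : y ∈ Set.Icc (-1 : ℝ) 1) : 4 * r ^ 2 * (x - y) ^ 2 ≤ PP r x y := by
  unfold PP
  have hxy : x * y ≤ 1 := by
    obtain ⟨hx1, hx2⟩ := hx
    obtain ⟨hy1, hy2⟩ := hy
    nlinarith [mul_nonneg (by linarith : (0:ℝ) ≤ 1 - x) (by linarith : (0:ℝ) ≤ 1 + y),
      mul_nonneg (by linarith : (0:ℝ) ≤ 1 + x) (by linarith : (0:ℝ) ≤ 1 - y)]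
  have h1 : 0 ≤ 4 * r * (1 - r) ^ 2 * (1 - x * y) := by
    apply mul_nonneg (by positivity) (by linarith)
  nlinarith [sq_nonneg ((1 - r) ^ 2), sq_nonneg (1 - r)]

lemma PP_le (r x y : ℝ) (hr0 : 0 ≤ r) (hr1 : r < 1) (hx : x ∈ Set.Icc (-1 : ℝ) 1)
    (hy : y ∈ Set.Icc (-1 : ℝ) 1) : PP r x y ≤ 16 := by
  have hP := PP_factor r (arccos x) (arccos y)
  rw [cos_arccos hx.1 hx.2, cos_arccos hy.1 hy.2] at hP
  rw [hP]
  have a1 := factor_le r (arccos x + arccos y) hr0 hr1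
  have a2 := factor_le r (arccos x - arccos y) hr0 hr1
  have b1 := factor_pos r (arccos x + arccos y) hr0 hr1
  have b2 := factor_pos r (arccos x - arccos y) hr0 hr1
  nlinarith

lemma PP_pos (r x y : ℝ) (hr0 : 0 ≤ r) (hr1 : r < 1) (hx : x ∈ Set.Icc (-1 : ℝ) 1)
    (hy : y ∈ Set.Icc (-1 : ℝ) 1) : 0 < PP r x y := by
  have hP := PP_factor r (arccos x) (arccos y)
  rw [cos_arccos hx.1 hx.2, cos_arccos hy.1 hy.2] at hP
  rw [hP]
  exact mul_pos (factor_pos r _ hr0 hr1) (factor_pos r _ hr0 hr1)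

lemma kk_bound (r x y : ℝ) (hr0 : 1 / 2 ≤ r) (hr1 : r < 1) (hx : x ∈ Set.Icc (-1 : ℝ) 1)
    (hy : y ∈ Set.Icc (-1 : ℝ) 1) (hxy : x ≠ y) :
    |kk r x y| ≤ log 4 + abs (log |x - y|) := by
  have hr : 0 ≤ r := by linarith
  have h1 := PP_ge r x y hr hx hy
  have h2 := PP_le r x y hr hr1 hx hy
  have h3 := PP_pos r x y hr hr1 hx hy
  have hd : 0 < |x - y| := abs_pos.2 (sub_ne_zero.2 hxy)
  have h4 : |x - y| ^ 2 ≤ PP r x y := by
    rw [sq_abs]
    refine le_trans ?_ h1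
    have : 1 ≤ 4 * r ^ 2 := by nlinarith
    nlinarith [sq_nonneg (x - y)]
  have h5 : 2 * log |x - y| ≤ log (PP r x y) := by
    have := log_le_log (by positivity) h4
    rw [log_pow] at this
    exact_mod_cast this
  have h6 : log (PP r x y) ≤ 2 * log 4 := by
    have := log_le_log h3 h2
    rw [show (16 : ℝ) = 4 ^ 2 by norm_num, log_pow] at this
    exact_mod_cast this
  have h7 : 0 ≤ log 4 := log_nonneg (by norm_num)
  unfold kk
  rw [abs_le]
  constructor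
  · have := abs_nonneg (log |x - y|)
    linarith
  · have := neg_abs_le (log |x - y|)
    linarith

lemma kk_tendsto (x y : ℝ) (hxy : x ≠ y) :
    Tendsto (fun r => kk r x y) (𝓝[<] 1) (𝓝 (-(log 2 + log |x - y|))) := by
  have h1 : Tendsto (fun r => PP r x y) (𝓝[<] 1) (𝓝 (4 * (x - y) ^ 2)) := by
    have : ContinuousAt (fun r => PP r x y) 1 := by
      unfold PP
      fun_prop
    have h2 := this.tendsto.mono_left (nhdsWithin_le_nhds (s := Set.Iio (1 : ℝ)))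
    have h3 : PP 1 x y = 4 * (x - y) ^ 2 := by unfold PP; ring
    rwa [h3] at h2
  have hd : 0 < |x - y| := abs_pos.2 (sub_ne_zero.2 hxy)
  have h2 : (4 * (x - y) ^ 2) ≠ 0 := by
    rw [← sq_abs]; positivity
  have h3 := (h1.log h2).const_mul (-(1 / 2))
  have h4 : -(1 / 2) * log (4 * (x - y) ^ 2) = -(log 2 + log |x - y|) := by
    rw [← sq_abs, show (4 : ℝ) * |x - y| ^ 2 = (2 * |x - y|) ^ 2 by ring, log_pow,
      log_mul (by norm_num) hd.ne']
    push_cast; ring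
  rw [h4] at h3
  exact h3

end Pool.Agent.Work.MP_e056c9_an.Pot
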