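import Pool.Agent.Work.MP_e056c9_an.PotB

/-! # Block P, part C: positivity of the logarithmic energy, measure version -/

set_option autoImplicit false
open MeasureTheory Filter Topology Real

namespace Pool.Agent.Work.MP_e056c9_an.Pot

/-- affine map `[a,b] → [-1,1]` -/
noncomputable def aff (a b x : ℝ) : ℝ := (2 * x - a - b) / (b - a)

lemma aff_mem {a b x : ℝ} (hab : a < b) (hx : x ∈ Set.Icc a b) :
    aff a b x ∈ Set.Icc (-1 : ℝ) 1 := by
  unfold aff
  have hba : 0 < b - a := sub_pos.2 hab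
  obtain ⟨h1, h2⟩ := hx
  constructor
  · rw [le_div_iff₀ hba]; linarith
  · rw [div_le_iff₀ hba]; linarith

lemma aff_sub {a b : ℝ} (hab : a < b) (x y : ℝ) :
    aff a b x - aff a b y = 2 / (b - a) * (x - y) := by
  unfold aff
  have hba : b - a ≠ 0 := (sub_pos.2 hab).ne'
  field_simp
  ring

lemma aff_continuous (a b : ℝ) : Continuous (aff a b) := by
  unfold aff; fun_prop

/-- Chebyshev moments -/
noncomputable def mom (a b : ℝ) (n : ℕ) (ρ : Measure ℝ) : ℝ :=
  ∫ x, cos (n * arccos (aff a b x)) ∂ρ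

section pair

variable {a b : ℝ} (hab : a < b) (ρ ρ' : Measure ℝ) [IsProbabilityMeasure ρ]
  [IsProbabilityMeasure ρ'] (hs : ρ (Set.Icc a b)ᶜ = 0) (hs' : ρ' (Set.Icc a b)ᶜ = 0)

omit [IsProbabilityMeasure ρ] [IsProbabilityMeasure ρ'] in
include hs hs' in
lemma ae_mem [SFinite ρ] [SFinite ρ'] : ∀ᵐ p ∂(ρ.prod ρ'), p.1 ∈ Set.Icc a b ∧ p.2 ∈ Set.Icc a b := by
  have h1 : ∀ᵐ p ∂(ρ.prod ρ'), p.1 ∈ Set.Icc a b := by
    have : ∀ᵐ x ∂ρ, x ∈ Set.Icc a b := by
      rw [ae_iff]; exact hs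
    exact Measure.quasiMeasurePreserving_fst.ae this
  have h2 : ∀ᵐ p ∂(ρ.prod ρ'), p.2 ∈ Set.Icc a b := by
    have : ∀ᵐ x ∂ρ', x ∈ Set.Icc a b := by
      rw [ae_iff]; exact hs'
    exact Measure.quasiMeasurePreserving_snd.ae this
  filter_upwards [h1, h2] with p hp1 hp2
  exact ⟨hp1, hp2⟩

noncomputable def JJ (a b r : ℝ) (ρ ρ' : Measure ℝ) : ℝ :=
  ∫ p, kk r (aff a b p.1) (aff a b p.2) ∂(ρ.prod ρ')

lemma kk_measurable (a b r : ℝ) :
    Measurable (fun p : ℝ × ℝ => kk r (aff a b p.1) (aff a b p.2)) := by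
  unfold kk PP aff
  fun_prop

include hab hs hs' in
lemma JJ_hasSum (r : ℝ) (hr0 : 0 ≤ r) (hr1 : r < 1) :
    HasSum (fun n : ℕ => (2 * r ^ n / n) * (mom a b n ρ * mom a b n ρ')) (JJ a b r ρ ρ') := by
  set F : ℕ → ℝ × ℝ → ℝ := fun n p =>
    (2 * r ^ n / n) * (cos (n * arccos (aff a b p.1)) * cos (n * arccos (aff a b p.2))) with hF
  have hmeas : ∀ n, Measurable (F n) := by
    intro n
    have h0 := (aff_continuous a b).measurable
    have h1 : Measurable (fun x : ℝ => cos (n * arccos (aff a b x))) := by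
      apply Real.measurable_cos.comp
      apply Measurable.const_mul
      exact Real.measurable_arccos.comp h0
    simp only [hF]
    exact ((h1.comp measurable_fst).mul (h1.comp measurable_snd)).const_mul _
  have hbd : ∀ n p, ‖F n p‖ ≤ 2 * r ^ n := by
    intro n p
    simp only [hF]
    rw [norm_mul, norm_mul, norm_div, norm_mul]
    have h1 : ‖cos (n * arccos (aff a b p.1))‖ ≤ 1 := abs_cos_le_one _
    have h2 : ‖cos (n * arccos (aff a b p.2))‖ ≤ 1 := abs_cos_le_one _
    have h3 : ‖cos (n * arccos (aff a b p.1))‖ * ‖cos (n * arccos (aff a b p.2))‖ ≤ 1 := by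
      have := norm_nonneg (cos (n * arccos (aff a b p.1)))
      have := norm_nonneg (cos (n * arccos (aff a b p.2)))
      nlinarith
    have h4 : ‖(2 : ℝ)‖ * ‖r ^ n‖ / ‖(n : ℝ)‖ ≤ 2 * r ^ n := by
      have e1 : ‖(2 : ℝ)‖ = 2 := by norm_num
      have e2 : ‖r ^ n‖ = r ^ n := norm_of_nonneg (pow_nonneg hr0 n)
      rw [e1, e2]
      rcases Nat.eq_zero_or_pos n with h | h
      · subst h; simp
      · have : (1 : ℝ) ≤ ‖(n : ℝ)‖ := by
          rw [norm_of_nonneg (by positivity)]; exact_mod_cast h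
        apply div_le_self (by positivity) this
    calc _ ≤ (2 * r ^ n) * 1 := by
          apply mul_le_mul h4 h3 (by positivity) (by positivity)
      _ = _ := mul_one _
  have hint : ∀ n, Integrable (F n) (ρ.prod ρ') := by
    intro n
    apply Integrable.of_bound (hmeas n).aestronglyMeasurable (2 * r ^ n)
    exact Eventually.of_forall (hbd n)
  have hsum : Summable fun n => ∫ p, ‖F n p‖ ∂(ρ.prod ρ') := by
    apply Summable.of_nonneg_of_le (fun n => integral_nonneg (fun p => norm_nonneg _)) _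
      ((summable_geometric_of_lt_one hr0 hr1).mul_left 2)
    intro n
    calc ∫ p, ‖F n p‖ ∂(ρ.prod ρ') ≤ ∫ p, 2 * r ^ n ∂(ρ.prod ρ') :=
          integral_mono (hint n).norm (integrable_const _) (hbd n)
      _ = 2 * r ^ n := by simp
  have h := hasSum_integral_of_summable_integral_norm hint hsum
  have e1 : ∫ p, (∑' n, F n p) ∂(ρ.prod ρ') = JJ a b r ρ ρ' := by
    unfold JJ
    apply integral_congr_ae
    filter_upwards [ae_mem ρ ρ' hs hs'] with p hp
    exact (hasSum_kk r _ _ hr0 hr1 (aff_mem hab hp.1) (aff_mem hab hp.2)).tsum_eq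
  rw [e1] at h
  have e2 : (fun n : ℕ => (2 * r ^ n / n) * (mom a b n ρ * mom a b n ρ'))
      = fun n => ∫ p, F n p ∂(ρ.prod ρ') := by
    funext n
    simp only [hF]
    rw [integral_const_mul, integral_prod_mul (μ := ρ) (ν := ρ')
      (fun x => cos (n * arccos (aff a b x))) (fun x => cos (n * arccos (aff a b x)))]
    rfl
  rw [e2]
  exact h

include hab hs hs' in
lemma JJ_tendsto (hdiag : (ρ.prod ρ') {p | p.1 = p.2} = 0)
    (hint : Integrable (fun p : ℝ × ℝ => log |p.1 - p.2|) (ρ.prod ρ')) :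
    Tendsto (fun r => JJ a b r ρ ρ') (𝓝[<] 1)
      (𝓝 (-log (4 / (b - a)) - ∫ p, log |p.1 - p.2| ∂(ρ.prod ρ'))) := by
  have hba : 0 < b - a := sub_pos.2 hab
  have hne : ∀ᵐ p ∂(ρ.prod ρ'), p.1 ≠ p.2 := by
    rw [ae_iff]; simpa using! hdiag
  have hlog : ∀ᵐ p ∂(ρ.prod ρ'), log |aff a b p.1 - aff a b p.2|
      = log (2 / (b - a)) + log |p.1 - p.2| := by
    filter_upwards [hne] with p hp
    rw [aff_sub hab, abs_mul, log_mul (by positivity) (abs_pos.2 (sub_ne_zero.2 hp)).ne',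
      abs_of_pos (by positivity)]
  have hint2 : Integrable (fun p : ℝ × ℝ => log |aff a b p.1 - aff a b p.2|) (ρ.prod ρ') := by
    apply ((integrable_const (log (2 / (b - a)))).add hint).congr
    filter_upwards [hlog] with p hp
    rw [hp]; rfl
  have hlim : Tendsto (fun r => JJ a b r ρ ρ') (𝓝[<] 1)
      (𝓝 (∫ p, -(log 2 + log |aff a b p.1 - aff a b p.2|) ∂(ρ.prod ρ'))) := by
    unfold JJ
    apply tendsto_integral_filter_of_dominated_convergence
      (fun p : ℝ × ℝ => log 4 + abs (log |aff a b p.1 - aff a b p.2|))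
    · exact Eventually.of_forall fun r => (kk_measurable a b r).aestronglyMeasurable
    · have h1 : ∀ᶠ r in 𝓝[<] (1 : ℝ), 1 / 2 < r ∧ r < 1 := by
        have := Ioo_mem_nhdsLT (show (1 / 2 : ℝ) < 1 by norm_num)
        filter_upwards [this] with r hr
        exact hr
      filter_upwards [h1] with r hr
      filter_upwards [ae_mem ρ ρ' hs hs', hne] with p hp hpne
      have hne' : aff a b p.1 ≠ aff a b p.2 := by
        rw [← sub_ne_zero, aff_sub hab]
        exact mul_ne_zero (by positivity) (sub_ne_zero.2 hpne)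
      exact kk_bound r _ _ hr.1.le hr.2 (aff_mem hab hp.1) (aff_mem hab hp.2) hne'
    · exact (integrable_const _).add hint2.abs
    · filter_upwards [hne] with p hpne
      have hne' : aff a b p.1 ≠ aff a b p.2 := by
        rw [← sub_ne_zero, aff_sub hab]
        exact mul_ne_zero (by positivity) (sub_ne_zero.2 hpne)
      exact kk_tendsto _ _ hne'
  convert hlim using 2
  have h5 : ∫ p, -(log 2 + log |aff a b p.1 - aff a b p.2|) ∂(ρ.prod ρ')
      = ∫ p, (-log (4 / (b - a)) - log |p.1 - p.2|) ∂(ρ.prod ρ') := by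
    apply integral_congr_ae
    filter_upwards [hlog] with p hp
    rw [hp, show (4 : ℝ) / (b - a) = 2 * (2 / (b - a)) by ring, log_mul (by norm_num) (by positivity)]
    ring
  rw [h5, integral_sub (integrable_const _) hint]
  simp

end pair

/-- Positivity: if the energy combination is `≤ 0`, all Chebyshev moments agree. -/
theorem mom_eq {a b : ℝ} (hab : a < b) (μ ν : Measure ℝ) [IsProbabilityMeasure μ]
    [IsProbabilityMeasure ν] (hs : μ (Set.Icc a b)ᶜ = 0) (hs' : ν (Set.Icc a b)ᶜ = 0)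
    (d1 : (μ.prod μ) {p | p.1 = p.2} = 0) (d2 : (ν.prod ν) {p | p.1 = p.2} = 0)
    (d3 : (μ.prod ν) {p | p.1 = p.2} = 0)
    (i1 : Integrable (fun p : ℝ × ℝ => log |p.1 - p.2|) (μ.prod μ))
    (i2 : Integrable (fun p : ℝ × ℝ => log |p.1 - p.2|) (ν.prod ν))
    (i3 : Integrable (fun p : ℝ × ℝ => log |p.1 - p.2|) (μ.prod ν))
    (hle : 2 * (∫ p, log |p.1 - p.2| ∂(μ.prod ν)) ≤ (∫ p, log |p.1 - p.2| ∂(μ.prod μ))
      + ∫ p, log |p.1 - p.2| ∂(ν.prod ν)) (N : ℕ) : mom a b N μ = mom a b N ν := by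
  rcases Nat.eq_zero_or_pos N with h0 | hN
  · subst h0
    simp [mom]
  have key : ∀ r : ℝ, 0 ≤ r → r < 1 → (2 * r ^ N / N) * (mom a b N μ - mom a b N ν) ^ 2
      ≤ JJ a b r μ μ + JJ a b r ν ν - 2 * JJ a b r μ ν := by
    intro r hr0 hr1
    have h1 := JJ_hasSum hab μ μ hs hs r hr0 hr1
    have h2 := JJ_hasSum hab ν ν hs' hs' r hr0 hr1
    have h3 := JJ_hasSum hab μ ν hs hs' r hr0 hr1
    have h4 := (h1.add h2).sub (h3.mul_left 2)
    have h5 : (fun n : ℕ => (2 * r ^ n / n) * (mom a b n μ * mom a b n μ)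
        + (2 * r ^ n / n) * (mom a b n ν * mom a b n ν)
        - 2 * ((2 * r ^ n / n) * (mom a b n μ * mom a b n ν)))
        = fun n : ℕ => (2 * r ^ n / n) * (mom a b n μ - mom a b n ν) ^ 2 := by
      funext n; ring
    rw [h5] at h4
    exact le_hasSum h4 N (fun n _ => by positivity)
  have hl := ((JJ_tendsto hab μ μ hs hs d1 i1).add (JJ_tendsto hab ν ν hs' hs' d2 i2)).sub
    ((JJ_tendsto hab μ ν hs hs' d3 i3).const_mul 2)
  have hl2 : Tendsto (fun r : ℝ => (2 * r ^ N / N) * (mom a b N μ - mom a b N ν) ^ 2) (𝓝[<] 1)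
      (𝓝 ((2 * 1 ^ N / N) * (mom a b N μ - mom a b N ν) ^ 2)) := by
    have : Continuous (fun r : ℝ => (2 * r ^ N / N) * (mom a b N μ - mom a b N ν) ^ 2) := by
      fun_prop
    exact (this.tendsto 1).mono_left nhdsWithin_le_nhds
  have hfin := le_of_tendsto_of_tendsto hl2 hl (by
    have := Ioo_mem_nhdsLT (show (0 : ℝ) < 1 by norm_num)
    filter_upwards [this] with r hr
    exact key r hr.1.le hr.2)
  have h6 : (2 * 1 ^ N / N : ℝ) * (mom a b N μ - mom a b N ν) ^ 2 ≤ 0 := by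
    refine hfin.trans ?_
    linarith
  have hNpos : (0 : ℝ) < 2 * 1 ^ N / N := by positivity
  have h7 : (mom a b N μ - mom a b N ν) ^ 2 ≤ 0 := by
    by_contra hc
    push Not at hc
    have := mul_pos hNpos hc
    linarith
  have h8 : mom a b N μ - mom a b N ν = 0 := by
    have := le_antisymm h7 (sq_nonneg _)
    exact pow_eq_zero_iff (two_ne_zero) |>.1 this
  linarith

open Polynomial in
/-- Chebyshev polynomials span. -/
lemma cheb_span (V : Submodule ℝ ℝ[X]) (h : ∀ n : ℕ, Polynomial.Chebyshev.T ℝ n ∈ V) : V = ⊤ := by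
  have hX : ∀ p ∈ Submodule.span ℝ (Set.range (fun n : ℕ => Polynomial.Chebyshev.T ℝ (n : ℤ))),
      X * p ∈ Submodule.span ℝ (Set.range (fun n : ℕ => Polynomial.Chebyshev.T ℝ (n : ℤ))) := by
    intro p hp
    induction hp using Submodule.span_induction with
    | mem x hx =>
      obtain ⟨n, rfl⟩ := hx
      simp only
      rcases Nat.eq_zero_or_pos n with h0 | hn
      · subst h0
        have : (X : ℝ[X]) * Polynomial.Chebyshev.T ℝ ((0 : ℕ) : ℤ)
            = Polynomial.Chebyshev.T ℝ ((1 : ℕ) : ℤ) := by simp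
        rw [this]
        exact Submodule.subset_span ⟨1, rfl⟩
      · obtain ⟨m, rfl⟩ : ∃ m, n = m + 1 := ⟨n - 1, by omega⟩
        have h1 := Polynomial.Chebyshev.T_add_two ℝ (m : ℤ)
        have h2 : (X : ℝ[X]) * Polynomial.Chebyshev.T ℝ ((m + 1 : ℕ) : ℤ)
            = (1 / 2 : ℝ) • (Polynomial.Chebyshev.T ℝ ((m + 2 : ℕ) : ℤ)
              + Polynomial.Chebyshev.T ℝ ((m : ℕ) : ℤ)) := by
          push_cast
          rw [h1, smul_eq_C_mul]
          have : (C (1 / 2 : ℝ) : ℝ[X]) * 2 = 1 := by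
            rw [show (2 : ℝ[X]) = C 2 by rfl, ← C_mul]; norm_num
          linear_combination (-(X * Polynomial.Chebyshev.T ℝ (m + 1))) * this
        rw [h2]
        exact Submodule.smul_mem _ _ (Submodule.add_mem _ (Submodule.subset_span ⟨m + 2, rfl⟩)
          (Submodule.subset_span ⟨m, rfl⟩))
    | zero => simp
    | add x y _ _ hx hy => rw [mul_add]; exact Submodule.add_mem _ hx hy
    | smul c x _ hx => rw [mul_smul_comm]; exact Submodule.smul_mem _ _ hx
  have hpow : ∀ k : ℕ, (X : ℝ[X]) ^ k ∈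
      Submodule.span ℝ (Set.range (fun n : ℕ => Polynomial.Chebyshev.T ℝ (n : ℤ))) := by
    intro k
    induction k with
    | zero =>
      rw [pow_zero]
      exact Submodule.subset_span ⟨0, by simp⟩
    | succ k ih => rw [pow_succ']; exact hX _ ih
  rw [eq_top_iff]
  intro p _
  have hle : Submodule.span ℝ (Set.range (fun n : ℕ => Polynomial.Chebyshev.T ℝ (n : ℤ))) ≤ V := by
    rw [Submodule.span_le]
    rintro _ ⟨n, rfl⟩
    exact h n
  apply hle
  rw [Polynomial.as_sum_range_C_mul_X_pow p]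
  apply Submodule.sum_mem
  intro i _
  rw [← smul_eq_C_mul]
  exact Submodule.smul_mem _ _ (hpow i)

lemma poly_integrable (a b : ℝ) (μ : Measure ℝ) [IsProbabilityMeasure μ]
    (hs : μ (Set.Icc a b)ᶜ = 0) (g : ℝ → ℝ) (hg : ContinuousOn g (Set.Icc a b)) :
    Integrable g μ := by
  have h1 : μ = μ.restrict (Set.Icc a b) := by
    rw [Measure.restrict_eq_self_of_ae_mem]
    rw [ae_iff]; exact hs
  rw [h1]
  exact hg.integrableOn_compact isCompact_Icc

open Polynomial in
/-- All polynomial moments agree. -/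
theorem poly_eq_of_mom {a b : ℝ} (hab : a < b) (μ ν : Measure ℝ) [IsProbabilityMeasure μ]
    [IsProbabilityMeasure ν] (hs : μ (Set.Icc a b)ᶜ = 0) (hs' : ν (Set.Icc a b)ᶜ = 0)
    (h : ∀ N : ℕ, mom a b N μ = mom a b N ν) (p : ℝ[X]) :
    ∫ x, p.eval x ∂μ = ∫ x, p.eval x ∂ν := by
  -- polynomials in `aff`
  let A : ℝ[X] := C (2 / (b - a)) * X - C ((a + b) / (b - a))
  have hba : b - a ≠ 0 := (sub_pos.2 hab).ne'
  have hA : ∀ x, A.eval x = aff a b x := by
    intro x
    simp only [A, eval_sub, eval_mul, eval_C, eval_X, aff]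
    field_simp
    ring
  have hint : ∀ (ρ : Measure ℝ) [IsProbabilityMeasure ρ], ρ (Set.Icc a b)ᶜ = 0 → ∀ q : ℝ[X],
      Integrable (fun x => q.eval x) ρ := by
    intro ρ _ hρ q
    exact poly_integrable a b ρ hρ _ q.continuous.continuousOn
  let V : Submodule ℝ ℝ[X] :=
    { carrier := {q | ∫ x, (q.comp A).eval x ∂μ = ∫ x, (q.comp A).eval x ∂ν}
      add_mem' := by
        intro p q hp hq
        simp only [Set.mem_ofPred_eq, add_comp, eval_add] at *
        rw [integral_add (hint μ hs _) (hint μ hs _), integral_add (hint ν hs' _) (hint ν hs' _),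
          hp, hq]
      zero_mem' := by simp
      smul_mem' := by
        intro c q hq
        simp only [Set.mem_ofPred_eq, smul_comp, eval_smul, smul_eq_mul] at *
        rw [integral_const_mul, integral_const_mul, hq] }
  have hV : V = ⊤ := by
    apply cheb_span
    intro n
    show ∫ x, ((Polynomial.Chebyshev.T ℝ n).comp A).eval x ∂μ
      = ∫ x, ((Polynomial.Chebyshev.T ℝ n).comp A).eval x ∂ν
    have e : ∀ (ρ : Measure ℝ) [IsProbabilityMeasure ρ], ρ (Set.Icc a b)ᶜ = 0 →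
        ∫ x, ((Polynomial.Chebyshev.T ℝ n).comp A).eval x ∂ρ = mom a b n ρ := by
      intro ρ _ hρ
      unfold mom
      apply integral_congr_ae
      have : ∀ᵐ x ∂ρ, x ∈ Set.Icc a b := by rw [ae_iff]; exact hρ
      filter_upwards [this] with x hx
      have hx' := aff_mem hab hx
      rw [eval_comp, hA]
      conv_lhs => rw [← cos_arccos hx'.1 hx'.2]
      rw [Polynomial.Chebyshev.T_real_cos]
      simp
    rw [e μ hs, e ν hs', h n]
  -- invert the affine map
  let B : ℝ[X] := C ((b - a) / 2) * X + C ((a + b) / 2)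
  have hBA : B.comp A = X := by
    simp only [A, B, add_comp, mul_comp, C_comp, X_comp]
    have e1 : (C ((b - a) / 2) : ℝ[X]) * C (2 / (b - a)) = 1 := by
      rw [← C_mul, show (b - a) / 2 * (2 / (b - a)) = 1 by field_simp, C_1]
    have e2 : (C ((b - a) / 2) : ℝ[X]) * C ((a + b) / (b - a)) = C ((a + b) / 2) := by
      rw [← C_mul]; congr 1; field_simp
    linear_combination X * e1 - e2
  have hq : p.comp B ∈ V := by rw [hV]; trivial
  have hq' : ∫ x, ((p.comp B).comp A).eval x ∂μ = ∫ x, ((p.comp B).comp A).eval x ∂ν := hq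
  rw [comp_assoc, hBA, comp_X] at hq'
  exact hq'

end Pool.Agent.Work.MP_e056c9_an.Pot
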