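import Pool.Agent.Work.MP_e056c9_an.PotA

/-! # Block P, part D: construction of a balanced measure -/

set_option autoImplicit false
open Polynomial MeasureTheory Filter Topology

namespace Pool.Agent.Work.MP_e056c9_an.Pot

/-- iterated preimages, with multiplicity -/
noncomputable def SS (f : ℝ[X]) (y0 : ℝ) : ℕ → Multiset ℝ
  | 0 => {y0}
  | n + 1 => (SS f y0 n).bind (fun y => (f - C y).roots)

noncomputable def avg (f : ℝ[X]) (y0 : ℝ) (n : ℕ) (g : ℝ → ℝ) : ℝ :=
  ((SS f y0 n).map g).sum / (f.natDegree : ℝ) ^ n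

/-- The splitting hypothesis. -/
def Split (f : ℝ[X]) (K : Set ℝ) : Prop :=
  ∀ y ∈ K, Multiset.card (f - C y).roots = f.natDegree ∧ ∀ x, f.eval x = y → x ∈ K

section

variable {f : ℝ[X]} {K : Set ℝ} {y0 : ℝ}

lemma sub_ne_zero' (hd : 2 ≤ f.natDegree) (y : ℝ) : f - C y ≠ 0 := by
  intro h
  have := natDegree_sub_C (a := y) (p := f)
  rw [h, natDegree_zero] at this
  omega

lemma root_eval (hd : 2 ≤ f.natDegree) {y w : ℝ} (h : w ∈ (f - C y).roots) : f.eval w = y := by
  rw [mem_roots (sub_ne_zero' hd y)] at h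
  have : (f - C y).eval w = 0 := h
  rw [eval_sub, eval_C] at this
  linarith

lemma SS_mem (hd : 2 ≤ f.natDegree) (hs : Split f K) (hy : y0 ∈ K) (n : ℕ) :
    ∀ w ∈ SS f y0 n, w ∈ K := by
  induction n with
  | zero => intro w hw; rw [SS, Multiset.mem_singleton] at hw; rw [hw]; exact hy
  | succ n ih =>
    intro w hw
    rw [SS, Multiset.mem_bind] at hw
    obtain ⟨y, hy, hw⟩ := hw
    exact (hs y (ih y hy)).2 w (root_eval hd hw)

lemma SS_card (hd : 2 ≤ f.natDegree) (hs : Split f K) (hy : y0 ∈ K) (n : ℕ) :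
    Multiset.card (SS f y0 n) = f.natDegree ^ n := by
  induction n with
  | zero => rw [SS]; simp
  | succ n ih =>
    rw [SS, Multiset.card_bind]
    have : (SS f y0 n).map (Multiset.card ∘ fun y => (f - C y).roots)
        = (SS f y0 n).map (fun _ => f.natDegree) := by
      apply Multiset.map_congr rfl
      intro y hy'
      exact (hs y (SS_mem hd hs hy n y hy')).1
    rw [this, Multiset.map_const', Multiset.sum_replicate, ih, smul_eq_mul, pow_succ]

lemma avg_succ (n : ℕ) (g : ℝ → ℝ) :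
    avg f y0 (n + 1) g = avg f y0 n (fun y => ((f - C y).roots.map g).sum / f.natDegree) := by
  unfold avg
  rw [SS, Multiset.map_bind, Multiset.sum_bind, Multiset.sum_map_div, pow_succ]
  rw [div_div, mul_comm]

lemma avg_congr (hd : 2 ≤ f.natDegree) (hs : Split f K) (hy : y0 ∈ K) (n : ℕ) {g h : ℝ → ℝ}
    (hgh : ∀ x ∈ K, g x = h x) : avg f y0 n g = avg f y0 n h := by
  unfold avg
  congr 2
  apply Multiset.map_congr rfl
  intro w hw
  exact hgh w (SS_mem hd hs hy n w hw)

lemma avg_add (n : ℕ) (g h : ℝ → ℝ) :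
    avg f y0 n (fun x => g x + h x) = avg f y0 n g + avg f y0 n h := by
  unfold avg
  rw [Multiset.sum_map_add, add_div]

lemma avg_mul (n : ℕ) (c : ℝ) (g : ℝ → ℝ) :
    avg f y0 n (fun x => c * g x) = c * avg f y0 n g := by
  unfold avg
  rw [Multiset.sum_map_mul_left, mul_div_assoc]

lemma avg_const (hd : 2 ≤ f.natDegree) (hs : Split f K) (hy : y0 ∈ K) (n : ℕ) (c : ℝ) :
    avg f y0 n (fun _ => c) = c := by
  unfold avg
  rw [Multiset.map_const', Multiset.sum_replicate, SS_card hd hs hy n, nsmul_eq_mul]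
  push_cast
  have : (f.natDegree : ℝ) ^ n ≠ 0 := by positivity
  field_simp

lemma avg_mono (hd : 2 ≤ f.natDegree) (hs : Split f K) (hy : y0 ∈ K) (n : ℕ) {g h : ℝ → ℝ}
    (hgh : ∀ x ∈ K, g x ≤ h x) : avg f y0 n g ≤ avg f y0 n h := by
  unfold avg
  apply div_le_div_of_nonneg_right _ (by positivity)
  apply Multiset.sum_map_le_sum_map
  intro w hw
  exact hgh w (SS_mem hd hs hy n w hw)

lemma avg_close (hd : 2 ≤ f.natDegree) (hs : Split f K) (hy : y0 ∈ K) (n : ℕ) {g h : ℝ → ℝ}
    {ε : ℝ} (hgh : ∀ x ∈ K, |g x - h x| ≤ ε) : |avg f y0 n g - avg f y0 n h| ≤ ε := by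
  have h1 : avg f y0 n g ≤ avg f y0 n h + ε := by
    calc avg f y0 n g ≤ avg f y0 n (fun x => h x + ε) := by
          apply avg_mono hd hs hy
          intro x hx
          have := (abs_le.1 (hgh x hx)).2
          linarith
      _ = _ := by rw [avg_add, avg_const hd hs hy]
  have h2 : avg f y0 n h ≤ avg f y0 n g + ε := by
    calc avg f y0 n h ≤ avg f y0 n (fun x => g x + ε) := by
          apply avg_mono hd hs hy
          intro x hx
          have := (abs_le.1 (hgh x hx)).1
          linarith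
      _ = _ := by rw [avg_add, avg_const hd hs hy]
  rw [abs_le]
  constructor <;> linarith

lemma avg_comp (hd : 2 ≤ f.natDegree) (hs : Split f K) (hy : y0 ∈ K) (n : ℕ) (Q G : ℝ[X])
    (hG : G.natDegree < f.natDegree) :
    avg f y0 (n + 1) (fun x => (Q.comp f * G).eval x)
      = sig f G / f.natDegree * avg f y0 n (fun x => Q.eval x) := by
  rw [avg_succ, ← avg_mul]
  apply avg_congr hd hs hy
  intro y hyK
  have h1 : ((f - C y).roots.map (fun x => (Q.comp f * G).eval x))
      = ((f - C y).roots.map (fun x => Q.eval y * G.eval x)) := by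
    apply Multiset.map_congr rfl
    intro w hw
    rw [eval_mul, eval_comp, root_eval hd hw]
  rw [h1, Multiset.sum_map_mul_left, ← phi_deriv hd y (hs y hyK).1, phi_deriv_const hd y G hG]
  ring

lemma avg_eventually (hd : 2 ≤ f.natDegree) (hs : Split f K) (hy : y0 ∈ K) (H : ℝ[X]) :
    ∃ c : ℝ, ∃ N : ℕ, ∀ n, N ≤ n → avg f y0 n (fun x => H.eval x) = c := by
  let V : Submodule ℝ ℝ[X] :=
    { carrier := {H | ∃ c : ℝ, ∃ N : ℕ, ∀ n, N ≤ n → avg f y0 n (fun x => H.eval x) = c}
      add_mem' := by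
        rintro a b ⟨c, N, h⟩ ⟨c', N', h'⟩
        refine ⟨c + c', max N N', fun n hn => ?_⟩
        rw [← h n (le_trans (le_max_left _ _) hn), ← h' n (le_trans (le_max_right _ _) hn),
          ← avg_add]
        congr 1
        funext x
        rw [eval_add]
      zero_mem' := ⟨0, 0, fun n _ => by simp [avg]⟩
      smul_mem' := by
        rintro r a ⟨c, N, h⟩
        refine ⟨r * c, N, fun n hn => ?_⟩
        rw [← h n hn, ← avg_mul]
        congr 1
        funext x
        rw [eval_smul, smul_eq_mul] }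
  have : V = ⊤ := by
    apply base_induct hd
    · refine ⟨1, 0, fun n _ => ?_⟩
      simp only [eval_one]
      exact avg_const hd hs hy n 1
    · rintro Q ⟨c, N, h⟩ G hG
      refine ⟨sig f G / f.natDegree * c, N + 1, fun n hn => ?_⟩
      obtain ⟨m, rfl⟩ : ∃ m, n = m + 1 := ⟨n - 1, by omega⟩
      rw [avg_comp hd hs hy m Q G hG, h m (by omega)]
  have hp : H ∈ V := by rw [this]; trivial
  exact hp

/-- sum of Dirac masses -/
noncomputable def dsum (S : Multiset ℝ) : Measure ℝ := (S.map Measure.dirac).sum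

lemma dsum_integral (S : Multiset ℝ) (g : ℝ → ℝ) :
    Integrable g (dsum S) ∧ ∫ x, g x ∂(dsum S) = (S.map g).sum := by
  induction S using Multiset.induction_on with
  | empty => simp [dsum]
  | cons a S ih =>
    have h1 : dsum (a ::ₘ S) = Measure.dirac a + dsum S := by
      unfold dsum; rw [Multiset.map_cons, Multiset.sum_cons]
    have h2 : Integrable g (Measure.dirac a) := integrable_dirac (by simp)
    rw [h1]
    refine ⟨h2.add_measure ih.1, ?_⟩
    rw [integral_add_measure h2 ih.1, integral_dirac, ih.2, Multiset.map_cons, Multiset.sum_cons]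

lemma dsum_univ (S : Multiset ℝ) : dsum S Set.univ = Multiset.card S := by
  induction S using Multiset.induction_on with
  | empty => simp [dsum]
  | cons a S ih =>
    have h1 : dsum (a ::ₘ S) = Measure.dirac a + dsum S := by
      unfold dsum; rw [Multiset.map_cons, Multiset.sum_cons]
    rw [h1, Measure.add_apply, ih, Multiset.card_cons]
    simp [add_comm]

lemma dsum_compl (S : Multiset ℝ) (K : Set ℝ) (h : ∀ w ∈ S, w ∈ K) : dsum S Kᶜ = 0 := by
  induction S using Multiset.induction_on with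
  | empty => simp [dsum]
  | cons a S ih =>
    have h1 : dsum (a ::ₘ S) = Measure.dirac a + dsum S := by
      unfold dsum; rw [Multiset.map_cons, Multiset.sum_cons]
    rw [h1, Measure.add_apply, ih (fun w hw => h w (Multiset.mem_cons_of_mem hw)), add_zero,
      Measure.dirac_apply]
    simp [h a (Multiset.mem_cons_self a S)]

noncomputable def nuM (f : ℝ[X]) (y0 : ℝ) (n : ℕ) : Measure ℝ :=
  ((f.natDegree : ENNReal) ^ n)⁻¹ • dsum (SS f y0 n)

lemma nuM_prob (hd : 2 ≤ f.natDegree) (hs : Split f K) (hy : y0 ∈ K) (n : ℕ) :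
    IsProbabilityMeasure (nuM f y0 n) := by
  constructor
  unfold nuM
  rw [Measure.smul_apply, dsum_univ, SS_card hd hs hy n, smul_eq_mul]
  push_cast
  apply ENNReal.inv_mul_cancel
  · apply pow_ne_zero
    have : f.natDegree ≠ 0 := by omega
    exact_mod_cast this
  · exact ENNReal.pow_ne_top (ENNReal.natCast_ne_top _)

lemma nuM_integral (n : ℕ) (g : ℝ → ℝ) : ∫ x, g x ∂(nuM f y0 n) = avg f y0 n g := by
  unfold nuM avg
  rw [integral_smul_measure, (dsum_integral _ g).2, smul_eq_mul]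
  simp only [ENNReal.toReal_inv, ENNReal.toReal_pow, ENNReal.toReal_natCast]
  rw [mul_comm]; rfl

lemma nuM_compl (hd : 2 ≤ f.natDegree) (hs : Split f K) (hy : y0 ∈ K) (n : ℕ) :
    nuM f y0 n Kᶜ = 0 := by
  unfold nuM
  rw [Measure.smul_apply, dsum_compl _ K (SS_mem hd hs hy n), smul_zero]

/-- integrals only see `K ⊆ [a,b]` -/
lemma integral_congr_K (μ : Measure ℝ) (hμ : μ Kᶜ = 0) {g h : ℝ → ℝ} (hgh : ∀ x ∈ K, g x = h x) :
    ∫ x, g x ∂μ = ∫ x, h x ∂μ := by
  apply integral_congr_ae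
  have : ∀ᵐ x ∂μ, x ∈ K := by rw [ae_iff]; exact hμ
  filter_upwards [this] with x hx
  exact hgh x hx

theorem exists_mu0 (hd : 2 ≤ f.natDegree) (hs : Split f K) (hy : y0 ∈ K) (hK : IsCompact K) :
    ∃ μ0 : Measure ℝ, IsProbabilityMeasure μ0 ∧ μ0 Kᶜ = 0 ∧
      ∀ g : ℝ → ℝ, Continuous g →
        Tendsto (fun n => avg f y0 n g) atTop (𝓝 (∫ x, g x ∂μ0)) := by
  obtain ⟨a, b, hab⟩ : ∃ a b : ℝ, K ⊆ Set.Icc a b := by
    obtain ⟨a, ha⟩ := hK.bddBelow
    obtain ⟨b, hb⟩ := hK.bddAbove
    exact ⟨a, b, fun x hx => ⟨ha hx, hb hx⟩⟩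
  let P : ℕ → ProbabilityMeasure ℝ := fun n => ⟨nuM f y0 n, nuM_prob hd hs hy n⟩
  have hcomp := isCompact_setOfPred_probabilityMeasure_mass_eq_compl_isCompact_le
    (E := ℝ) (u := fun _ => 0) (K := fun _ => K) tendsto_const_nhds (fun _ => hK)
    (Or.inl inferInstance)
  have hPmem : ∀ n, P n ∈ {μ : ProbabilityMeasure ℝ | ∀ n : ℕ, μ ((fun _ : ℕ => K) n)ᶜ ≤ (0 : NNReal)} := by
    intro n m
    have h1 : (nuM f y0 n) Kᶜ = 0 := nuM_compl hd hs hy n
    have h2 : (P n : Measure ℝ) Kᶜ = 0 := h1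
    have h3 : (P n) Kᶜ = 0 := by
      rw [← ENNReal.coe_eq_zero, ProbabilityMeasure.ennreal_coeFn_eq_coeFn_toMeasure]
      exact h2
    exact h3.le
  obtain ⟨M, hM, hlim⟩ := hcomp.ultrafilter_le_nhds ((hyperfilter ℕ).map P) (by
    rw [le_principal_iff]
    show P ⁻¹' {μ : ProbabilityMeasure ℝ | ∀ n : ℕ, μ ((fun _ : ℕ => K) n)ᶜ ≤ (0 : NNReal)}
      ∈ (hyperfilter ℕ)
    rw [Set.eq_univ_of_forall (s := P ⁻¹' {μ : ProbabilityMeasure ℝ |
      ∀ n : ℕ, μ ((fun _ : ℕ => K) n)ᶜ ≤ (0 : NNReal)}) hPmem]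
    exact univ_mem)
  have hlim' : Tendsto P (hyperfilter ℕ) (𝓝 M) := hlim
  have hMK : (M : Measure ℝ) Kᶜ = 0 := by
    have h1 : M Kᶜ ≤ 0 := hM 0
    have h2 : M Kᶜ = 0 := le_antisymm h1 zero_le
    rw [← ProbabilityMeasure.ennreal_coeFn_eq_coeFn_toMeasure, h2]
    rfl
  -- convergence along the hyperfilter for continuous functions
  have hconv : ∀ g : ℝ → ℝ, Continuous g →
      Tendsto (fun n => avg f y0 n g) (hyperfilter ℕ) (𝓝 (∫ x, g x ∂(M : Measure ℝ))) := by
    intro g hg
    -- clamp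
    let c : ℝ → ℝ := fun x => g (max a (min b x))
    have hc : Continuous c := by
      apply hg.comp; fun_prop
    have hcK : ∀ x ∈ K, c x = g x := by
      intro x hx
      have := hab hx
      show g (max a (min b x)) = g x
      rw [min_eq_right this.2, max_eq_right this.1]
    have hbd : ∃ B, ∀ x, |c x| ≤ B := by
      obtain ⟨B, hB⟩ := (isCompact_Icc (a := min a b) (b := max a b)).exists_bound_of_continuousOn
        hg.continuousOn
      refine ⟨B, fun x => ?_⟩
      apply hB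
      constructor
      · exact le_trans (min_le_left _ _) (le_max_left _ _)
      · apply max_le (le_max_left _ _)
        exact le_trans (min_le_left _ _) (le_max_right _ _)
    obtain ⟨B, hB⟩ := hbd
    let cb : BoundedContinuousFunction ℝ ℝ :=
      BoundedContinuousFunction.ofNormedAddCommGroup c hc B hB
    have h1 := (ProbabilityMeasure.tendsto_iff_forall_integral_tendsto.1 hlim') cb
    have h2 : ∫ x, cb x ∂(M : Measure ℝ) = ∫ x, g x ∂(M : Measure ℝ) :=
      integral_congr_K _ hMK hcK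
    have h3 : ∀ n, ∫ x, cb x ∂((P n : ProbabilityMeasure ℝ) : Measure ℝ) = avg f y0 n g := by
      intro n
      rw [← nuM_integral]
      exact integral_congr_K _ (nuM_compl hd hs hy n) hcK
    rw [h2] at h1
    simpa only [h3] using h1
  refine ⟨M, inferInstance, hMK, ?_⟩
  -- polynomials
  have hpoly : ∀ H : ℝ[X], Tendsto (fun n => avg f y0 n (fun x => H.eval x)) atTop
      (𝓝 (∫ x, H.eval x ∂(M : Measure ℝ))) := by
    intro H
    obtain ⟨c, N, hc⟩ := avg_eventually hd hs hy H
    have h1 : Tendsto (fun n => avg f y0 n (fun x => H.eval x)) atTop (𝓝 c) := by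
      apply tendsto_const_nhds.congr'
      filter_upwards [eventually_ge_atTop N] with n hn
      exact (hc n hn).symm
    have h2 := hconv (fun x => H.eval x) H.continuous
    have h3 : Tendsto (fun n => avg f y0 n (fun x => H.eval x)) (hyperfilter ℕ) (𝓝 c) :=
      h1.mono_left Nat.hyperfilter_le_atTop
    rw [← tendsto_nhds_unique h3 h2]
    exact h1
  intro g hg
  rw [Metric.tendsto_atTop]
  intro ε hε
  obtain ⟨H, hH⟩ := exists_polynomial_near_of_continuousOn a b g hg.continuousOn (ε / 4)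
    (by positivity)
  have hH' : ∀ x ∈ K, |g x - H.eval x| ≤ ε / 4 := by
    intro x hx
    rw [abs_sub_comm]
    exact (hH x (hab hx)).le
  obtain ⟨N, hN⟩ := (Metric.tendsto_atTop.1 (hpoly H)) (ε / 4) (by positivity)
  refine ⟨N, fun n hn => ?_⟩
  have h1 := avg_close hd hs hy n hH'
  have h2 := hN n hn
  have hint : ∀ h : ℝ → ℝ, Continuous h → Integrable h (M : Measure ℝ) := by
    intro h hh
    have e1 : (M : Measure ℝ) = (M : Measure ℝ).restrict K := by
      rw [Measure.restrict_eq_self_of_ae_mem]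
      rw [ae_iff]; exact hMK
    rw [e1]
    exact hh.continuousOn.integrableOn_compact hK
  have h3 : |∫ x, g x ∂(M : Measure ℝ) - ∫ x, H.eval x ∂(M : Measure ℝ)| ≤ ε / 4 := by
    rw [← integral_sub (hint g hg) (hint _ H.continuous)]
    have : ∀ᵐ x ∂(M : Measure ℝ), x ∈ K := by rw [ae_iff]; exact hMK
    calc |∫ x, (g x - H.eval x) ∂(M : Measure ℝ)|
        ≤ ∫ x, |g x - H.eval x| ∂(M : Measure ℝ) := abs_integral_le_integral_abs
      _ ≤ ∫ x, ε / 4 ∂(M : Measure ℝ) := by
          apply integral_mono_ae ((hint g hg).sub (hint _ H.continuous)).abs (integrable_const _)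
          filter_upwards [this] with x hx
          exact hH' x hx
      _ = ε / 4 := by simp
  rw [Real.dist_eq] at h2 ⊢
  have h4 : avg f y0 n g - ∫ x, g x ∂(M : Measure ℝ)
      = (avg f y0 n g - avg f y0 n (fun x => H.eval x))
        + (avg f y0 n (fun x => H.eval x) - ∫ x, H.eval x ∂(M : Measure ℝ))
        - (∫ x, g x ∂(M : Measure ℝ) - ∫ x, H.eval x ∂(M : Measure ℝ)) := by ring
  rw [h4]
  calc _ ≤ |(avg f y0 n g - avg f y0 n (fun x => H.eval x))
        + (avg f y0 n (fun x => H.eval x) - ∫ x, H.eval x ∂(M : Measure ℝ))|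
        + |(∫ x, g x ∂(M : Measure ℝ) - ∫ x, H.eval x ∂(M : Measure ℝ))| := abs_sub _ _
    _ ≤ |avg f y0 n g - avg f y0 n (fun x => H.eval x)|
        + |avg f y0 n (fun x => H.eval x) - ∫ x, H.eval x ∂(M : Measure ℝ)|
        + |(∫ x, g x ∂(M : Measure ℝ) - ∫ x, H.eval x ∂(M : Measure ℝ))| := by
        gcongr; exact abs_add_le _ _
    _ < ε := by linarith

end

end Pool.Agent.Work.MP_e056c9_an.Pot
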