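import Pool.Agent.Work.MP_e056c9_an.PotD

/-! # Block P, part E: the potential of the balanced measure is constant on `K` -/

set_option autoImplicit false
open Polynomial MeasureTheory Filter Topology

namespace Pool.Agent.Work.MP_e056c9_an.Pot

/-- complex polynomial map -/
noncomputable def FF (f : ℝ[X]) (z : ℂ) : ℂ := (f.map (algebraMap ℝ ℂ)).eval z

/-- `K` inside `ℂ` -/
def KC (K : Set ℝ) : Set ℂ := (fun x : ℝ => (x : ℂ)) '' K

/-- potential -/
noncomputable def UU (μ : Measure ℝ) (z : ℂ) : ℝ := ∫ y, -Real.log ‖z - (y : ℂ)‖ ∂μ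

noncomputable def kap (D x y : ℝ) : ENNReal :=
  if x = y then ⊤ else ENNReal.ofReal (Real.log ((D + 1) / |x - y|))

noncomputable def gam (f : ℝ[X]) : ℝ := Real.log |f.leadingCoeff| / (f.natDegree - 1)

lemma FF_continuous (f : ℝ[X]) : Continuous (FF f) := by
  unfold FF; exact Polynomial.continuous _

lemma FF_real (f : ℝ[X]) (x : ℝ) : FF f x = ((f.eval x : ℝ) : ℂ) := by
  unfold FF
  rw [show (x : ℂ) = algebraMap ℝ ℂ x from rfl, eval_map_algebraMap, aeval_algebraMap_apply]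
  simp

lemma FF_iter_real (f : ℝ[X]) (x : ℝ) (n : ℕ) :
    (FF f)^[n] (x : ℂ) = (((fun y : ℝ => f.eval y)^[n] x : ℝ) : ℂ) := by
  induction n with
  | zero => rfl
  | succ n ih => rw [Function.iterate_succ_apply', Function.iterate_succ_apply', ih, FF_real]

lemma log_prod_multiset (S : Multiset ℝ) (h : ∀ x ∈ S, x ≠ 0) :
    Real.log S.prod = (S.map Real.log).sum := by
  induction S using Multiset.induction_on with
  | empty => simp
  | cons a S ih =>
    rw [Multiset.prod_cons, Multiset.map_cons, Multiset.sum_cons, Real.log_mul, ih]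
    · exact fun x hx => h x (Multiset.mem_cons_of_mem hx)
    · exact h a (Multiset.mem_cons_self a S)
    · intro h0
      rw [Multiset.prod_eq_zero_iff] at h0
      exact h 0 (Multiset.mem_cons_of_mem h0) rfl

lemma norm_multiset_prod' (S : Multiset ℂ) : ‖S.prod‖ = (S.map (fun w => ‖w‖)).prod := by
  induction S using Multiset.induction_on with
  | empty => simp
  | cons a S ih => rw [Multiset.prod_cons, norm_mul, ih, Multiset.map_cons, Multiset.prod_cons]

section

variable {f : ℝ[X]} {K : Set ℝ} {y0 : ℝ}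

lemma FF_prod (hd : 2 ≤ f.natDegree) (y : ℝ) (hy : Multiset.card (f - C y).roots = f.natDegree)
    (z : ℂ) : ‖FF f z - y‖ = |f.leadingCoeff| * ((f - C y).roots.map (fun w : ℝ => ‖z - (w : ℂ)‖)).prod := by
  have hfac : C f.leadingCoeff * ((f - C y).roots.map fun a => X - C a).prod = f - C y := by
    have := C_leadingCoeff_mul_prod_multiset_X_sub_C (p := f - C y) (by rw [natDegree_sub_C]; exact hy)
    rwa [leadingCoeff_sub hd] at this
  have h1 : FF f z - y = ((f - C y).map (algebraMap ℝ ℂ)).eval z := by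
    unfold FF
    rw [Polynomial.map_sub, eval_sub, map_C, eval_C]; rfl
  rw [h1]
  conv_lhs => rw [← hfac]
  rw [Polynomial.map_mul, eval_mul, map_C, eval_C, norm_mul, Polynomial.map_multiset_prod,
    eval_multiset_prod, Multiset.map_map, Multiset.map_map]
  congr 1
  · simp
  · rw [norm_multiset_prod', Multiset.map_map]
    congr 1
    apply Multiset.map_congr rfl
    intro w _
    simp

lemma FF_notMem (hd : 2 ≤ f.natDegree) (hs : Split f K) {z : ℂ} (hz : z ∉ KC K) :
    FF f z ∉ KC K := by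
  rintro ⟨y, hy, hyz⟩
  have hyz' : FF f z = (y : ℂ) := hyz.symm
  have h1 := FF_prod hd y (hs y hy).1 z
  rw [hyz', sub_self, norm_zero] at h1
  have h2 : ((f - C y).roots.map (fun w : ℝ => ‖z - (w : ℂ)‖)).prod = 0 := by
    have := lc_ne hd
    have h3 : |f.leadingCoeff| ≠ 0 := abs_ne_zero.2 this
    rcases mul_eq_zero.1 h1.symm with h | h
    · exact absurd h h3
    · exact h
  rw [Multiset.prod_eq_zero_iff, Multiset.mem_map] at h2
  obtain ⟨w, hw, hw0⟩ := h2
  rw [norm_eq_zero, sub_eq_zero] at hw0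
  exact hz ⟨w, (hs y hy).2 w (root_eval hd hw), hw0.symm⟩

lemma sum_log (hd : 2 ≤ f.natDegree) (hs : Split f K) {z : ℂ} (hz : z ∉ KC K) {y : ℝ}
    (hy : y ∈ K) : ((f - C y).roots.map (fun w : ℝ => -Real.log ‖z - (w : ℂ)‖)).sum
      = -Real.log ‖FF f z - y‖ + Real.log |f.leadingCoeff| := by
  have h1 := FF_prod hd y (hs y hy).1 z
  have hne : ∀ x ∈ ((f - C y).roots.map (fun w : ℝ => ‖z - (w : ℂ)‖)), x ≠ 0 := by
    intro x hx
    rw [Multiset.mem_map] at hx
    obtain ⟨w, hw, rfl⟩ := hx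
    rw [norm_ne_zero_iff, sub_ne_zero]
    rintro rfl
    exact hz ⟨w, (hs y hy).2 w (root_eval hd hw), rfl⟩
  have hprod : ((f - C y).roots.map (fun w : ℝ => ‖z - (w : ℂ)‖)).prod ≠ 0 := by
    intro h0
    rw [Multiset.prod_eq_zero_iff] at h0
    exact hne 0 h0 rfl
  rw [h1, Real.log_mul (abs_ne_zero.2 (lc_ne hd)) hprod, log_prod_multiset _ hne,
    Multiset.map_map]
  have : ((f - C y).roots.map (fun w : ℝ => -Real.log ‖z - (w : ℂ)‖)).sum
      = -((f - C y).roots.map (Real.log ∘ fun w : ℝ => ‖z - (w : ℂ)‖)).sum := by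
    rw [← Multiset.sum_map_neg', Multiset.map_map]
    rfl
  rw [this]
  ring

lemma KC_dist (hK : IsCompact K) {z : ℂ} (hz : z ∉ KC K) :
    ∃ δ > 0, ∀ y ∈ K, δ ≤ ‖z - (y : ℂ)‖ := by
  have hc : IsClosed (KC K) := (hK.image Complex.continuous_ofReal).isClosed
  obtain ⟨δ, hδ, h⟩ := Metric.isOpen_iff.1 hc.isOpen_compl z hz
  refine ⟨δ, hδ, fun y hy => ?_⟩
  by_contra hc'
  push Not at hc'
  have : (y : ℂ) ∈ Metric.ball z δ := by
    rw [Metric.mem_ball, dist_comm, dist_eq_norm]; exact hc'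
  exact h this ⟨y, hy, rfl⟩

/-- The defining property of `μ0`. -/
def Conv (f : ℝ[X]) (y0 : ℝ) (μ0 : Measure ℝ) : Prop :=
  ∀ g : ℝ → ℝ, Continuous g → Tendsto (fun n => avg f y0 n g) atTop (𝓝 (∫ x, g x ∂μ0))

lemma UU_tendsto (hd : 2 ≤ f.natDegree) (hs : Split f K) (hy : y0 ∈ K) (hK : IsCompact K)
    (μ0 : Measure ℝ) (h0 : μ0 Kᶜ = 0) (hc : Conv f y0 μ0) {z : ℂ} (hz : z ∉ KC K) :
    Tendsto (fun n => avg f y0 n (fun y => -Real.log ‖z - (y : ℂ)‖)) atTop (𝓝 (UU μ0 z)) := by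
  obtain ⟨δ, hδ, h⟩ := KC_dist hK hz
  let c : ℝ → ℝ := fun y => -Real.log (max δ ‖z - (y : ℂ)‖)
  have hcc : Continuous c := by
    apply Continuous.neg
    apply Continuous.log
    · fun_prop
    · intro y
      have : 0 < max δ ‖z - (y : ℂ)‖ := lt_of_lt_of_le hδ (le_max_left _ _)
      exact this.ne'
  have hcK : ∀ y ∈ K, -Real.log ‖z - (y : ℂ)‖ = c y := by
    intro y hyK
    show _ = -Real.log (max δ ‖z - (y : ℂ)‖)
    rw [max_eq_right (h y hyK)]
  have h1 := hc c hcc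
  have h2 : UU μ0 z = ∫ y, c y ∂μ0 := integral_congr_K μ0 h0 hcK
  rw [h2]
  refine h1.congr (fun n => ?_)
  exact (avg_congr hd hs hy n hcK).symm

lemma UU_step (hd : 2 ≤ f.natDegree) (hs : Split f K) (hy : y0 ∈ K) (hK : IsCompact K)
    (μ0 : Measure ℝ) (h0 : μ0 Kᶜ = 0) (hc : Conv f y0 μ0) {z : ℂ} (hz : z ∉ KC K) :
    UU μ0 z = (UU μ0 (FF f z) + Real.log |f.leadingCoeff|) / f.natDegree := by
  have h1 := (UU_tendsto hd hs hy hK μ0 h0 hc hz).comp (tendsto_add_atTop_nat 1)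
  have h2 := UU_tendsto hd hs hy hK μ0 h0 hc (FF_notMem hd hs hz)
  have h3 := (h2.add_const (Real.log |f.leadingCoeff|)).div_const (f.natDegree : ℝ)
  refine tendsto_nhds_unique h1 (h3.congr (fun n => ?_))
  simp only [Function.comp]
  rw [avg_succ]
  have h4 : avg f y0 n (fun y : ℝ => ((f - C y).roots.map (fun w : ℝ => -Real.log ‖z - (w : ℂ)‖)).sum
      / f.natDegree) = avg f y0 n (fun y => (f.natDegree : ℝ)⁻¹ *
        ((-Real.log ‖FF f z - (y : ℂ)‖) + Real.log |f.leadingCoeff|)) := by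
    apply avg_congr hd hs hy
    intro y hyK
    rw [sum_log hd hs hz hyK]
    ring
  rw [h4, avg_mul, avg_add, avg_const hd hs hy]
  ring

lemma natDegree_sub_one_pos (hd : 2 ≤ f.natDegree) : (0 : ℝ) < f.natDegree - 1 := by
  have : (2 : ℝ) ≤ f.natDegree := by exact_mod_cast hd
  linarith

lemma UU_iter (hd : 2 ≤ f.natDegree) (hs : Split f K) (hy : y0 ∈ K) (hK : IsCompact K)
    (μ0 : Measure ℝ) (h0 : μ0 Kᶜ = 0) (hc : Conv f y0 μ0) {z : ℂ} (hz : z ∉ KC K) (n : ℕ) :
    (FF f)^[n] z ∉ KC K ∧ UU μ0 z = gam f * (1 - (1 / (f.natDegree : ℝ)) ^ n)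
      + (1 / (f.natDegree : ℝ)) ^ n * UU μ0 ((FF f)^[n] z) := by
  induction n with
  | zero => exact ⟨hz, by simp⟩
  | succ n ih =>
    have hd1 := natDegree_sub_one_pos hd
    have hd0 : (0 : ℝ) < f.natDegree := by linarith
    refine ⟨?_, ?_⟩
    · rw [Function.iterate_succ_apply']; exact FF_notMem hd hs ih.1
    · rw [Function.iterate_succ_apply', ih.2, UU_step hd hs hy hK μ0 h0 hc ih.1, pow_succ]
      unfold gam
      field_simp
      ring

lemma UU_le (hd : 2 ≤ f.natDegree) (hs : Split f K) (hy : y0 ∈ K) (hK : IsCompact K)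
    (μ0 : Measure ℝ) [IsProbabilityMeasure μ0] (h0 : μ0 Kᶜ = 0) (hc : Conv f y0 μ0) {z : ℂ}
    (hz : z ∉ KC K) (hesc : Tendsto (fun n => ‖(FF f)^[n] z‖) atTop atTop) :
    UU μ0 z ≤ gam f := by
  have hd1 := natDegree_sub_one_pos hd
  have hd0 : (1 : ℝ) < f.natDegree := by linarith
  obtain ⟨B, hB⟩ : ∃ B : ℝ, ∀ y ∈ K, ‖(y : ℂ)‖ ≤ B := by
    obtain ⟨B, hB⟩ := hK.exists_bound_of_continuousOn Complex.continuous_ofReal.continuousOn
    exact ⟨B, hB⟩
  have h1 : ∀ᶠ n in atTop, UU μ0 z ≤ gam f * (1 - (1 / (f.natDegree : ℝ)) ^ n) := by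
    filter_upwards [hesc.eventually_ge_atTop (B + 1)] with n hn
    rw [(UU_iter hd hs hy hK μ0 h0 hc hz n).2]
    have h2 : UU μ0 ((FF f)^[n] z) ≤ 0 := by
      unfold UU
      have : ∀ᵐ x ∂μ0, x ∈ K := by rw [ae_iff]; exact h0
      apply integral_nonpos_of_ae
      filter_upwards [this] with y hyK
      have h3 : 1 ≤ ‖(FF f)^[n] z - (y : ℂ)‖ := by
        have := norm_sub_norm_le ((FF f)^[n] z) (y : ℂ)
        have := hB y hyK
        linarith
      have := Real.log_nonneg h3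
      simpa using this
    have h3 : (1 / (f.natDegree : ℝ)) ^ n * UU μ0 ((FF f)^[n] z) ≤ 0 :=
      mul_nonpos_of_nonneg_of_nonpos (by positivity) h2
    linarith
  have h2 : Tendsto (fun n : ℕ => gam f * (1 - (1 / (f.natDegree : ℝ)) ^ n)) atTop
      (𝓝 (gam f * (1 - 0))) := by
    apply Tendsto.const_mul
    apply Tendsto.const_sub
    apply tendsto_pow_atTop_nhds_zero_of_lt_one (by positivity)
    rw [div_lt_one (by linarith)]; exact hd0
  rw [sub_zero, mul_one] at h2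
  exact ge_of_tendsto h2 h1

/-- vertical approach points -/
noncomputable def zpt (x : ℝ) (k : ℕ) : ℂ := (x : ℂ) + ((1 / ((k : ℝ) + 1) : ℝ) : ℂ) * Complex.I

lemma zpt_notMem (x : ℝ) (k : ℕ) : zpt x k ∉ KC K := by
  rintro ⟨y, _, hy⟩
  have := congrArg Complex.im hy
  simp only [zpt, Complex.ofReal_im, Complex.add_im, Complex.mul_im, Complex.ofReal_re,
    Complex.I_im, Complex.I_re, mul_one, mul_zero, add_zero, zero_add] at this
  have h2 : (0 : ℝ) < 1 / ((k : ℝ) + 1) := by positivity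
  linarith

lemma zpt_tendsto (x : ℝ) : Tendsto (zpt x) atTop (𝓝 (x : ℂ)) := by
  have h1 : Tendsto (fun k : ℕ => ((1 / ((k : ℝ) + 1) : ℝ) : ℂ)) atTop (𝓝 ((0 : ℝ) : ℂ)) :=
    (Complex.continuous_ofReal.tendsto 0).comp tendsto_one_div_add_atTop_nhds_zero_nat
  have h2 := (h1.mul_const Complex.I).const_add (x : ℂ)
  have h3 : (x : ℂ) + ((0 : ℝ) : ℂ) * Complex.I = (x : ℂ) := by simp
  rw [h3] at h2
  exact h2

lemma zpt_norm (x y : ℝ) (k : ℕ) :
    ‖zpt x k - (y : ℂ)‖ = Real.sqrt ((x - y) ^ 2 + (1 / ((k : ℝ) + 1)) ^ 2) := by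
  rw [Complex.norm_eq_sqrt_sq_add_sq]
  have h1 : (zpt x k - (y : ℂ)).re = x - y := by
    simp only [zpt, Complex.sub_re, Complex.add_re, Complex.mul_re, Complex.ofReal_re,
      Complex.ofReal_im, Complex.I_re, Complex.I_im]
    ring
  have h2 : (zpt x k - (y : ℂ)).im = 1 / ((k : ℝ) + 1) := by
    simp only [zpt, Complex.sub_im, Complex.add_im, Complex.mul_im, Complex.ofReal_re,
      Complex.ofReal_im, Complex.I_re, Complex.I_im]
    ring
  rw [h1, h2]

lemma UU_zpt_ge (hd : 2 ≤ f.natDegree) (hs : Split f K) (hy : y0 ∈ K) (hK : IsCompact K)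
    (hinv : ∀ x ∈ K, f.eval x ∈ K)
    (μ0 : Measure ℝ) [IsProbabilityMeasure μ0] (h0 : μ0 Kᶜ = 0) (hc : Conv f y0 μ0)
    (D : ℝ) (hD : ∀ x ∈ K, ∀ y ∈ K, |x - y| ≤ D) {x : ℝ} (hx : x ∈ K) (m : ℕ) :
    ∀ᶠ k in atTop, gam f * (1 - (1 / (f.natDegree : ℝ)) ^ m)
      - (1 / (f.natDegree : ℝ)) ^ m * Real.log (D + 1) ≤ UU μ0 (zpt x k) := by
  have hD0 : 0 ≤ D := le_trans (abs_nonneg _) (hD x hx x hx)
  have hcont : Continuous ((FF f)^[m]) := (FF_continuous f).iterate m
  have h1 : Tendsto (fun k => (FF f)^[m] (zpt x k)) atTop (𝓝 ((FF f)^[m] (x : ℂ))) :=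
    (hcont.tendsto _).comp (zpt_tendsto x)
  rw [FF_iter_real] at h1
  set w : ℝ := (fun y : ℝ => f.eval y)^[m] x with hw
  have hwK : w ∈ K := by
    rw [hw]
    clear hw w h1 hcont
    induction m with
    | zero => exact hx
    | succ m ih => rw [Function.iterate_succ_apply']; exact hinv _ ih
  have h2 : ∀ᶠ k in atTop, dist ((FF f)^[m] (zpt x k)) (w : ℂ) < 1 :=
    h1.eventually (Metric.ball_mem_nhds _ one_pos)
  filter_upwards [h2] with k hk
  obtain ⟨hn, he⟩ := UU_iter hd hs hy hK μ0 h0 hc (zpt_notMem (K := K) x k) m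
  rw [he]
  have h3 : -Real.log (D + 1) ≤ UU μ0 ((FF f)^[m] (zpt x k)) := by
    unfold UU
    obtain ⟨δ, hδ, hδK⟩ := KC_dist hK hn
    have hae : ∀ᵐ x ∂μ0, x ∈ K := by rw [ae_iff]; exact h0
    have hbound : ∀ y ∈ K, ‖(FF f)^[m] (zpt x k) - (y : ℂ)‖ ≤ D + 1 := by
      intro y hyK
      calc ‖(FF f)^[m] (zpt x k) - (y : ℂ)‖
          = ‖((FF f)^[m] (zpt x k) - (w : ℂ)) + ((w : ℂ) - (y : ℂ))‖ := by ring_nf
        _ ≤ ‖(FF f)^[m] (zpt x k) - (w : ℂ)‖ + ‖(w : ℂ) - (y : ℂ)‖ := norm_add_le _ _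
        _ ≤ 1 + D := by
            apply add_le_add
            · rw [← dist_eq_norm]; exact hk.le
            · rw [← Complex.ofReal_sub, Complex.norm_real]
              exact hD w hwK y hyK
        _ = D + 1 := add_comm _ _
    have hint : Integrable (fun y : ℝ => -Real.log ‖(FF f)^[m] (zpt x k) - (y : ℂ)‖) μ0 := by
      apply Integrable.of_bound (C := |Real.log δ| + |Real.log (D + 1)|)
      · apply Measurable.aestronglyMeasurable
        fun_prop
      · filter_upwards [hae] with y hyK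
        rw [norm_neg, Real.norm_eq_abs, abs_le]
        have e1 := Real.log_le_log hδ (hδK y hyK)
        have e2 := Real.log_le_log (lt_of_lt_of_le hδ (hδK y hyK)) (hbound y hyK)
        have e3 := neg_abs_le (Real.log δ)
        have e4 := le_abs_self (Real.log (D + 1))
        have e5 := abs_nonneg (Real.log δ)
        have e6 := abs_nonneg (Real.log (D + 1))
        constructor <;> linarith
    calc -Real.log (D + 1) = ∫ y : ℝ, -Real.log (D + 1) ∂μ0 := by simp
      _ ≤ _ := by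
        apply integral_mono_ae (integrable_const _) hint
        filter_upwards [hae] with y hyK
        have e2 := Real.log_le_log (lt_of_lt_of_le hδ (hδK y hyK)) (hbound y hyK)
        linarith
  have h4 : (0 : ℝ) ≤ (1 / (f.natDegree : ℝ)) ^ m := by positivity
  nlinarith [mul_le_mul_of_nonneg_left h3 h4]

lemma kap_iSup (D x y : ℝ) (hxy : |x - y| ≤ D) :
    kap D x y = ⨆ k : ℕ, ENNReal.ofReal (Real.log (D + 1) - Real.log ‖zpt x k - (y : ℂ)‖) := by
  have hD0 : 0 ≤ D := le_trans (abs_nonneg _) hxy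
  have hmono : Monotone (fun k : ℕ => ENNReal.ofReal (Real.log (D + 1)
      - Real.log ‖zpt x k - (y : ℂ)‖)) := by
    intro k l hkl
    apply ENNReal.ofReal_le_ofReal
    have h1 : ‖zpt x l - (y : ℂ)‖ ≤ ‖zpt x k - (y : ℂ)‖ := by
      rw [zpt_norm, zpt_norm]
      apply Real.sqrt_le_sqrt
      have : (1 / ((l : ℝ) + 1)) ≤ (1 / ((k : ℝ) + 1)) := by
        apply one_div_le_one_div_of_le (by positivity)
        have : (k : ℝ) ≤ l := by exact_mod_cast hkl
        linarith
      have h0 : (0 : ℝ) ≤ 1 / ((l : ℝ) + 1) := by positivity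
      have := pow_le_pow_left₀ h0 this 2
      linarith
    have h2 : 0 < ‖zpt x l - (y : ℂ)‖ := by
      rw [zpt_norm]; positivity
    have := Real.log_le_log h2 h1
    linarith
  symm
  apply iSup_eq_of_tendsto hmono
  unfold kap
  split_ifs with h
  · subst h
    rw [ENNReal.tendsto_ofReal_nhds_top]
    have h1 : ∀ k : ℕ, Real.log ‖zpt x k - (x : ℂ)‖ = -Real.log ((k : ℝ) + 1) := by
      intro k
      rw [zpt_norm, sub_self]
      rw [show (0 : ℝ) ^ 2 + (1 / ((k : ℝ) + 1)) ^ 2 = (1 / ((k : ℝ) + 1)) ^ 2 by ring,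
        Real.sqrt_sq (by positivity), one_div, Real.log_inv]
    simp only [h1, sub_neg_eq_add]
    apply tendsto_atTop_add_const_left
    apply Real.tendsto_log_atTop.comp
    apply tendsto_atTop_add_const_right
    exact tendsto_natCast_atTop_atTop
  · have hne : (0 : ℝ) < |x - y| := abs_pos.2 (sub_ne_zero.2 h)
    rw [Real.log_div (by linarith) hne.ne']
    apply ENNReal.tendsto_ofReal
    apply Tendsto.const_sub
    have h1 : Tendsto (fun k => ‖zpt x k - (y : ℂ)‖) atTop (𝓝 ‖(x : ℂ) - (y : ℂ)‖) :=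
      ((zpt_tendsto x).sub_const _).norm
    rw [← Complex.ofReal_sub, Complex.norm_real, Real.norm_eq_abs] at h1
    exact h1.log hne.ne'

theorem lintegral_kap (hd : 2 ≤ f.natDegree) (hs : Split f K) (hy : y0 ∈ K) (hK : IsCompact K)
    (hinv : ∀ x ∈ K, f.eval x ∈ K)
    (hesc : ∀ z : ℂ, z ∉ KC K → Tendsto (fun n => ‖(FF f)^[n] z‖) atTop atTop)
    (μ0 : Measure ℝ) [IsProbabilityMeasure μ0] (h0 : μ0 Kᶜ = 0) (hc : Conv f y0 μ0)
    (D : ℝ) (hD : ∀ x ∈ K, ∀ y ∈ K, |x - y| ≤ D) {x : ℝ} (hx : x ∈ K) :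
    ∫⁻ y, kap D x y ∂μ0 = ENNReal.ofReal (Real.log (D + 1) + gam f) := by
  have hD0 : 0 ≤ D := le_trans (abs_nonneg _) (hD x hx x hx)
  have hae : ∀ᵐ x ∂μ0, x ∈ K := by rw [ae_iff]; exact h0
  have hmono' : ∀ y ∈ K, Monotone (fun k : ℕ => ENNReal.ofReal (Real.log (D + 1)
      - Real.log ‖zpt x k - (y : ℂ)‖)) := by
    intro y _ k l hkl
    apply ENNReal.ofReal_le_ofReal
    have h1 : ‖zpt x l - (y : ℂ)‖ ≤ ‖zpt x k - (y : ℂ)‖ := by
      rw [zpt_norm, zpt_norm]
      apply Real.sqrt_le_sqrt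
      have : (1 / ((l : ℝ) + 1)) ≤ (1 / ((k : ℝ) + 1)) := by
        apply one_div_le_one_div_of_le (by positivity)
        have : (k : ℝ) ≤ l := by exact_mod_cast hkl
        linarith
      have h0 : (0 : ℝ) ≤ 1 / ((l : ℝ) + 1) := by positivity
      have := pow_le_pow_left₀ h0 this 2
      linarith
    have h2 : 0 < ‖zpt x l - (y : ℂ)‖ := by
      rw [zpt_norm]; positivity
    have := Real.log_le_log h2 h1
    linarith
  have h1 : ∫⁻ y, kap D x y ∂μ0 = ∫⁻ y, ⨆ k : ℕ, ENNReal.ofReal (Real.log (D + 1)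
      - Real.log ‖zpt x k - (y : ℂ)‖) ∂μ0 := by
    apply lintegral_congr_ae
    filter_upwards [hae] with y hyK
    exact kap_iSup D x y (hD x hx y hyK)
  rw [h1, lintegral_iSup' (fun k => by
    apply Measurable.aemeasurable
    fun_prop) (by filter_upwards [hae] with y hyK; exact hmono' y hyK)]
  have h2 : ∀ k : ℕ, ∫⁻ y, ENNReal.ofReal (Real.log (D + 1) - Real.log ‖zpt x k - (y : ℂ)‖) ∂μ0
      = ENNReal.ofReal (Real.log (D + 1) + UU μ0 (zpt x k)) := by
    intro k
    obtain ⟨δ, hδ, hδK⟩ := KC_dist hK (zpt_notMem (K := K) x k)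
    have hbound : ∀ y ∈ K, ‖zpt x k - (y : ℂ)‖ ≤ D + 1 := by
      intro y hyK
      have e1 : |x - y| ≤ D := hD x hx y hyK
      have e2 : (1 / ((k : ℝ) + 1)) ≤ 1 := by
        rw [div_le_one (by positivity)]
        have : (0 : ℝ) ≤ k := by positivity
        linarith
      have e3 : (0 : ℝ) ≤ 1 / ((k : ℝ) + 1) := by positivity
      rw [zpt_norm, Real.sqrt_le_left (by linarith)]
      rw [← sq_abs (x - y)]
      nlinarith [abs_nonneg (x - y)]
    have hint : Integrable (fun y : ℝ => Real.log ‖zpt x k - (y : ℂ)‖) μ0 := by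
      apply Integrable.of_bound (C := |Real.log δ| + |Real.log (D + 1)|)
      · apply Measurable.aestronglyMeasurable
        fun_prop
      · filter_upwards [hae] with y hyK
        rw [Real.norm_eq_abs, abs_le]
        have e1 := Real.log_le_log hδ (hδK y hyK)
        have e2 := Real.log_le_log (lt_of_lt_of_le hδ (hδK y hyK)) (hbound y hyK)
        have e3 := neg_abs_le (Real.log δ)
        have e4 := le_abs_self (Real.log (D + 1))
        have e5 := abs_nonneg (Real.log δ)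
        have e6 := abs_nonneg (Real.log (D + 1))
        constructor <;> linarith
    have hint2 : Integrable (fun y : ℝ => Real.log (D + 1) - Real.log ‖zpt x k - (y : ℂ)‖) μ0 :=
      (integrable_const _).sub hint
    have hnn : 0 ≤ᵐ[μ0] (fun y : ℝ => Real.log (D + 1) - Real.log ‖zpt x k - (y : ℂ)‖) := by
      filter_upwards [hae] with y hyK
      have e2 := Real.log_le_log (lt_of_lt_of_le hδ (hδK y hyK)) (hbound y hyK)
      simp only [Pi.zero_apply]
      linarith
    rw [← ofReal_integral_eq_lintegral_ofReal hint2 hnn]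
    congr 1
    rw [integral_sub (integrable_const _) hint]
    unfold UU
    rw [integral_neg]
    simp [sub_eq_add_neg]
  simp only [h2]
  apply le_antisymm
  · apply iSup_le
    intro k
    apply ENNReal.ofReal_le_ofReal
    have := UU_le hd hs hy hK μ0 h0 hc (zpt_notMem (K := K) x k) (hesc _ (zpt_notMem x k))
    linarith
  · have hd1 := natDegree_sub_one_pos hd
    have h3 : ∀ m : ℕ, ENNReal.ofReal (Real.log (D + 1) + (gam f * (1 - (1 / (f.natDegree : ℝ)) ^ m)
        - (1 / (f.natDegree : ℝ)) ^ m * Real.log (D + 1)))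
        ≤ ⨆ k : ℕ, ENNReal.ofReal (Real.log (D + 1) + UU μ0 (zpt x k)) := by
      intro m
      obtain ⟨k, hk⟩ := (UU_zpt_ge hd hs hy hK hinv μ0 h0 hc D hD hx m).exists
      refine le_trans ?_ (le_iSup _ k)
      apply ENNReal.ofReal_le_ofReal
      linarith
    have h4 : Tendsto (fun m : ℕ => ENNReal.ofReal (Real.log (D + 1)
        + (gam f * (1 - (1 / (f.natDegree : ℝ)) ^ m)
        - (1 / (f.natDegree : ℝ)) ^ m * Real.log (D + 1)))) atTop
        (𝓝 (ENNReal.ofReal (Real.log (D + 1) + (gam f * (1 - 0) - 0 * Real.log (D + 1))))) := by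
      have h5 : Tendsto (fun m : ℕ => (1 / (f.natDegree : ℝ)) ^ m) atTop (𝓝 0) := by
        apply tendsto_pow_atTop_nhds_zero_of_lt_one (by positivity)
        rw [div_lt_one (by linarith)]
        linarith
      apply ENNReal.tendsto_ofReal
      apply Tendsto.const_add
      exact ((h5.const_sub 1).const_mul _).sub (h5.mul_const _)
    have h5 := le_of_tendsto' h4 h3
    simpa using h5

end

end Pool.Agent.Work.MP_e056c9_an.Pot
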