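import Pool.Agent.Work.MP_e056c9_an.PotE
import Pool.Agent.Work.MP_e056c9_an.PotC
import Pool.Agent.Work.MP_e056c9_an.Defs

/-! # Block P, part F: the energy minimiser is balanced -/

set_option autoImplicit false
open Polynomial MeasureTheory Filter Topology

namespace Pool.Agent.Work.MP_e056c9_an.Pot

noncomputable def EE (D : ℝ) (ρ ρ' : Measure ℝ) : ENNReal := ∫⁻ x, ∫⁻ y, kap D x y ∂ρ' ∂ρ

lemma energy_eq (D : ℝ) (μ : Measure ℝ) : energy D μ = EE D μ μ := rfl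

lemma kap_measurable (D : ℝ) : Measurable (fun p : ℝ × ℝ => kap D p.1 p.2) := by
  unfold kap
  apply Measurable.ite
  · exact measurableSet_eq_fun measurable_fst measurable_snd
  · exact measurable_const
  · fun_prop

lemma EE_prod (D : ℝ) (ρ ρ' : Measure ℝ) [SFinite ρ] [SFinite ρ'] :
    ∫⁻ p, kap D p.1 p.2 ∂(ρ.prod ρ') = EE D ρ ρ' := by
  rw [lintegral_prod _ (kap_measurable D).aemeasurable]
  rfl

section pair

variable {K : Set ℝ} (D : ℝ) (hD : ∀ x ∈ K, ∀ y ∈ K, |x - y| ≤ D) (ρ ρ' : Measure ℝ)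
  [IsProbabilityMeasure ρ] [IsProbabilityMeasure ρ'] (h : ρ Kᶜ = 0) (h' : ρ' Kᶜ = 0)
  (hE : EE D ρ ρ' ≠ ⊤)

omit [IsProbabilityMeasure ρ] [IsProbabilityMeasure ρ'] in
include h h' in
lemma ae_mem' [SFinite ρ] [SFinite ρ'] : ∀ᵐ p ∂(ρ.prod ρ'), p.1 ∈ K ∧ p.2 ∈ K := by
  have h1 : ∀ᵐ p ∂(ρ.prod ρ'), p.1 ∈ K := by
    have : ∀ᵐ x ∂ρ, x ∈ K := by rw [ae_iff]; exact h
    exact Measure.quasiMeasurePreserving_fst.ae this
  have h2 : ∀ᵐ p ∂(ρ.prod ρ'), p.2 ∈ K := by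
    have : ∀ᵐ x ∂ρ', x ∈ K := by rw [ae_iff]; exact h'
    exact Measure.quasiMeasurePreserving_snd.ae this
  filter_upwards [h1, h2] with p hp1 hp2
  exact ⟨hp1, hp2⟩

include hE in
lemma pair_ne : ∀ᵐ p ∂(ρ.prod ρ'), p.1 ≠ p.2 := by
  have h1 : ∀ᵐ p ∂(ρ.prod ρ'), kap D p.1 p.2 < ⊤ :=
    ae_lt_top (kap_measurable D) (by rw [EE_prod]; exact hE)
  filter_upwards [h1] with p hp hpe
  unfold kap at hp
  rw [if_pos hpe] at hp
  exact lt_irrefl _ hp

include hE in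
lemma pair_diag : (ρ.prod ρ') {p | p.1 = p.2} = 0 := by
  have := pair_ne D ρ ρ' hE
  rw [ae_iff] at this
  simpa using! this

include hD h h' hE in
lemma pair_log : Integrable (fun p : ℝ × ℝ => Real.log |p.1 - p.2|) (ρ.prod ρ') ∧
    ∫ p, Real.log |p.1 - p.2| ∂(ρ.prod ρ') = Real.log (D + 1) - (EE D ρ ρ').toReal := by
  set g : ℝ × ℝ → ℝ := fun p => Real.log (D + 1) - Real.log |p.1 - p.2| with hg
  have hgm : Measurable g := by rw [hg]; fun_prop
  have hg0 : 0 ≤ᵐ[ρ.prod ρ'] g := by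
    filter_upwards [ae_mem' ρ ρ' h h', pair_ne D ρ ρ' hE] with p hp hne
    have h1 : 0 < |p.1 - p.2| := abs_pos.2 (sub_ne_zero.2 hne)
    have h2 : |p.1 - p.2| ≤ D := hD _ hp.1 _ hp.2
    have := Real.log_le_log h1 (show |p.1 - p.2| ≤ D + 1 by linarith)
    simp only [Pi.zero_apply, hg]
    linarith
  have hgk : ∫⁻ p, ENNReal.ofReal (g p) ∂(ρ.prod ρ') = EE D ρ ρ' := by
    rw [← EE_prod]
    apply lintegral_congr_ae
    filter_upwards [ae_mem' ρ ρ' h h', pair_ne D ρ ρ' hE] with p hp hne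
    have h1 : 0 < |p.1 - p.2| := abs_pos.2 (sub_ne_zero.2 hne)
    have h2 : |p.1 - p.2| ≤ D := hD _ hp.1 _ hp.2
    unfold kap
    rw [if_neg hne, Real.log_div (by linarith) h1.ne']
  have hgi : Integrable g (ρ.prod ρ') := by
    refine ⟨hgm.aestronglyMeasurable, ?_⟩
    rw [hasFiniteIntegral_iff_ofReal hg0, hgk]
    exact lt_top_iff_ne_top.2 hE
  have hgint : ∫ p, g p ∂(ρ.prod ρ') = (EE D ρ ρ').toReal := by
    rw [integral_eq_lintegral_of_nonneg_ae hg0 hgm.aestronglyMeasurable, hgk]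
  have hlog : (fun p : ℝ × ℝ => Real.log |p.1 - p.2|) = fun p => Real.log (D + 1) - g p := by
    funext p; simp only [hg]; ring
  rw [hlog]
  refine ⟨(integrable_const _).sub hgi, ?_⟩
  rw [integral_sub (integrable_const _) hgi, hgint]
  simp

end pair

lemma noAtoms_of_diag (μ : Measure ℝ) [SFinite μ] (h : (μ.prod μ) {p | p.1 = p.2} = 0) :
    NullSingletonClass μ := by
  refine ⟨fun x => ?_⟩
  have h1 : (μ.prod μ) ({x} ×ˢ {x}) ≤ (μ.prod μ) {p | p.1 = p.2} := by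
    apply measure_mono
    rintro ⟨a, b⟩ ⟨ha, hb⟩
    simp only [Set.mem_singleton_iff] at ha hb
    show a = b
    rw [ha, hb]
  rw [h, Measure.prod_prod] at h1
  have h2 : μ {x} * μ {x} = 0 := le_antisymm h1 (by positivity)
  simpa using h2

lemma pos_of_noAtoms {a b : ℝ} (μ : Measure ℝ) [IsProbabilityMeasure μ] [NullSingletonClass μ]
    (hs : μ (Set.Icc a b)ᶜ = 0) (p : ℝ[X]) (hp : p ≠ 0) : 0 < ∫ x, p.eval x ^ 2 ∂μ := by
  have hint : Integrable (fun x => p.eval x ^ 2) μ :=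
    poly_integrable a b μ hs _ (by fun_prop)
  rw [integral_pos_iff_support_of_nonneg (fun x => sq_nonneg _) hint]
  have h1 : (Function.support fun x => p.eval x ^ 2) = ((p.roots.toFinset : Set ℝ))ᶜ := by
    ext x
    simp [Function.mem_support, hp]
  rw [h1]
  have h2 : μ (p.roots.toFinset : Set ℝ) = 0 := (Finset.finite_toSet _).measure_zero μ
  have h3 : μ ((p.roots.toFinset : Set ℝ))ᶜ = 1 := by
    rw [prob_compl_eq_one_iff (Finset.measurableSet _)]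
    exact h2
  rw [h3]
  exact one_pos

/-- The main comparison: the minimiser has the moments of `μ0`. -/
theorem main_compare {f : ℝ[X]} {K : Set ℝ} {y0 : ℝ} (hd : 2 ≤ f.natDegree) (hs : Split f K)
    (hy : y0 ∈ K) (hK : IsCompact K) (hinv : ∀ x ∈ K, f.eval x ∈ K)
    (hesc : ∀ z : ℂ, z ∉ KC K → Tendsto (fun n => ‖(FF f)^[n] z‖) atTop atTop)
    (D : ℝ) (hD : ∀ x ∈ K, ∀ y ∈ K, |x - y| ≤ D) {a b : ℝ} (hab : a < b)
    (hKab : K ⊆ Set.Icc a b)
    (μ0 : Measure ℝ) [IsProbabilityMeasure μ0] (h0 : μ0 Kᶜ = 0) (hc : Conv f y0 μ0)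
    (μ : Measure ℝ) [IsProbabilityMeasure μ] (hsupp : μ Kᶜ = 0)
    (hmin : energy D μ ≤ energy D μ0) :
    (∀ p : ℝ[X], ∫ x, p.eval x ∂μ = ∫ x, p.eval x ∂μ0) ∧ NullSingletonClass μ := by
  set Γ := ENNReal.ofReal (Real.log (D + 1) + gam f) with hΓ
  have hΓt : Γ ≠ ⊤ := ENNReal.ofReal_ne_top
  have e : ∀ ρ : Measure ℝ, IsProbabilityMeasure ρ → ρ Kᶜ = 0 → EE D ρ μ0 = Γ := by
    intro ρ hρ hρK
    unfold EE
    have : ∀ᵐ x ∂ρ, x ∈ K := by rw [ae_iff]; exact hρK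
    have h1 : ∫⁻ x, ∫⁻ y, kap D x y ∂μ0 ∂ρ = ∫⁻ x, Γ ∂ρ := by
      apply lintegral_congr_ae
      filter_upwards [this] with x hx
      exact lintegral_kap hd hs hy hK hinv hesc μ0 h0 hc D hD hx
    rw [h1, lintegral_const, measure_univ, mul_one]
  have e0 := e μ0 inferInstance h0
  have e1 := e μ inferInstance hsupp
  rw [energy_eq, energy_eq, e0] at hmin
  have e2 : EE D μ μ ≠ ⊤ := ne_top_of_le_ne_top hΓt hmin
  have e0' : EE D μ0 μ0 ≠ ⊤ := by rw [e0]; exact hΓt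
  have e1' : EE D μ μ0 ≠ ⊤ := by rw [e1]; exact hΓt
  have l0 := pair_log D hD μ0 μ0 h0 h0 e0'
  have l1 := pair_log D hD μ μ0 hsupp h0 e1'
  have l2 := pair_log D hD μ μ hsupp hsupp e2
  have hsab : ∀ ρ : Measure ℝ, ρ Kᶜ = 0 → ρ (Set.Icc a b)ᶜ = 0 := by
    intro ρ hρ
    exact measure_mono_null (Set.compl_subset_compl.2 hKab) hρ
  have hdiag := pair_diag D μ μ e2
  refine ⟨?_, noAtoms_of_diag μ hdiag⟩
  apply poly_eq_of_mom hab μ μ0 (hsab μ hsupp) (hsab μ0 h0)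
  intro N
  apply mom_eq hab μ μ0 (hsab μ hsupp) (hsab μ0 h0) hdiag
    (pair_diag D μ0 μ0 e0') (pair_diag D μ μ0 e1') l2.1 l0.1 l1.1
  rw [l0.2, l1.2, l2.2, e0, e1]
  have := ENNReal.toReal_mono hΓt hmin
  linarith

/-- `μ` with the moments of `μ0` is balanced. -/
theorem balanced_of {f : ℝ[X]} {K : Set ℝ} {y0 : ℝ} (hd : 2 ≤ f.natDegree) (hs : Split f K)
    (hy : y0 ∈ K) {a b : ℝ}
    (hKab : K ⊆ Set.Icc a b)
    (μ0 : Measure ℝ) [IsProbabilityMeasure μ0] (hc : Conv f y0 μ0)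
    (μ : Measure ℝ) [IsProbabilityMeasure μ] (hsupp : μ Kᶜ = 0)
    (hpoly : ∀ p : ℝ[X], ∫ x, p.eval x ∂μ = ∫ x, p.eval x ∂μ0) : Balanced f μ := by
  have hsab : μ (Set.Icc a b)ᶜ = 0 := measure_mono_null (Set.compl_subset_compl.2 hKab) hsupp
  have hint : ∀ p : ℝ[X], Integrable (fun y => phi f y p) μ := by
    intro p
    obtain ⟨T, hT⟩ := phi_poly hd p
    simp only [hT]
    exact poly_integrable a b μ hsab _ (by fun_prop)
  let M : ℝ[X] →ₗ[ℝ] ℝ :=
    { toFun := fun p => ∫ y, phi f y p ∂μ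
      map_add' := by
        intro p q
        simp only [map_add]
        exact integral_add (hint p) (hint q)
      map_smul' := by
        intro r p
        simp only [map_smul, smul_eq_mul, RingHom.id_apply]
        exact integral_const_mul _ _ }
  have hM : ∀ p, M p = ∫ y, phi f y p ∂μ := fun p => rfl
  refine ⟨M, ?_, ?_⟩
  · intro H
    rw [hM]
    obtain ⟨T, hT⟩ := phi_poly hd (derivative f * H)
    simp only [hT]
    rw [hpoly T, hpoly H]
    have h1 := hc (fun x => T.eval x) (by fun_prop)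
    have h2 := (hc (fun x => H.eval x) (by fun_prop)).comp (tendsto_add_atTop_nat 1)
    have h3 := h2.const_mul (f.natDegree : ℝ)
    refine tendsto_nhds_unique h1 (h3.congr (fun n => ?_))
    simp only [Function.comp]
    rw [avg_succ, ← avg_mul]
    apply avg_congr hd hs hy
    intro y hyK
    rw [← hT, phi_deriv hd y (hs y hyK).1]
    have : (f.natDegree : ℝ) ≠ 0 := by
      have : 0 < f.natDegree := by omega
      positivity
    field_simp
  · intro Q G hG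
    rw [hM]
    simp only [phi_comp hd _ Q G hG]
    exact integral_mul_const _ _

end Pool.Agent.Work.MP_e056c9_an.Pot
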