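import Pool.Agent.Work.MP_e056c9_an.Recursion

/-! # The recursion theorems. -/

set_option autoImplicit false
set_option linter.unusedSectionVars false
set_option linter.unusedVariables false
open Polynomial

namespace Pool.Agent.Work.MP_e056c9_an

/-- discrete weights -/
noncomputable def om {ι : Type*} [Fintype ι] [DecidableEq ι] (f : ℝ[X]) (x : ι → ℝ) (H : ℝ → ℝ)
    (i : ι) : ℝ :=
  H (f.eval (x i)) / (|f.leadingCoeff| * |(chie x i).eval (x i)|)

section
variable {ι : Type*} [Fintype ι] [DecidableEq ι] {x : ι → ℝ}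
variable {f : ℝ[X]} {L M : ℝ[X] →ₗ[ℝ] ℝ} {α β : ℝ}

lemma om_nonneg {H : ℝ → ℝ} (hH : ∀ i, 0 ≤ H (f.eval (x i))) (i : ι) : 0 ≤ om f x H i :=
  div_nonneg (hH i) (mul_nonneg (abs_nonneg _) (abs_nonneg _))

lemma om_pos (hd : 2 ≤ f.natDegree) (hx : Function.Injective x) {H : ℝ → ℝ}
    (hH : ∀ i, 0 < H (f.eval (x i))) (i : ι) : 0 < om f x H i :=
  div_pos (hH i) (mul_pos (abs_pos.2 (lc_ne hd)) (abs_pos.2 (chie_eval_ne hx i)))

lemma sum_eq_disc (hd : 2 ≤ f.natDegree) (hx : Function.Injective x) (m : ℕ) (H : ℝ → ℝ)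
    (b : ℝ[X]) :
    ∑ i, |f.leadingCoeff| * |(chie x i).eval (x i)| *
        ((b.eval (x i) / (chie x i).eval (x i)) ^ 2 * H (f.eval (x i)))
      = ((f.leadingCoeff ^ m) ^ 2)⁻¹ *
        disc x (om f x H) ((C (f.leadingCoeff ^ (m + 1)) * b) ^ 2) := by
  rw [disc_sq, Finset.mul_sum]
  refine Finset.sum_congr rfl fun i _ => ?_
  have hlc := lc_ne hd
  have hχ := chie_eval_ne hx i
  have h1 : |f.leadingCoeff| ≠ 0 := abs_ne_zero.2 hlc
  have h2 : |(chie x i).eval (x i)| ≠ 0 := abs_ne_zero.2 hχ
  have h3 : |f.leadingCoeff| ^ 2 = f.leadingCoeff ^ 2 := sq_abs _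
  have h4 : |(chie x i).eval (x i)| ^ 2 = (chie x i).eval (x i) ^ 2 := sq_abs _
  unfold om
  rw [eval_mul, eval_C, div_pow, ← h4, mul_pow, pow_succ (f.leadingCoeff) m, mul_pow, ← h3]
  field_simp

theorem rec_gen (hB : BalL f L M) (hP : PosL α β L) {W : ℝ[X]} {κ s : ℝ}
    (hx : Function.Injective x)
    (hW : derivative f * W = C κ * chi x) (hcard : Fintype.card ι ≤ f.natDegree)
    (hcard' : f.natDegree ≤ Fintype.card ι + 1)
    (hκ : |s * κ| = f.natDegree * |f.leadingCoeff|)
    (hval : ∀ i, f.eval (x i) ≤ α ∨ β ≤ f.eval (x i))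
    (hpos : ∀ p : ℝ[X], p ≠ 0 → 0 < s * L (W * p ^ 2))
    {Λ : ℝ[X] →ₗ[ℝ] ℝ} (hΛ : ∀ p, Λ p = s * L (W * p)) (m r : ℕ) (hr : r < f.natDegree)
    (hrN : f.natDegree ≤ r + Fintype.card ι) :
    hh Λ (f.natDegree * m + r) = ((f.leadingCoeff ^ m) ^ 2)⁻¹ *
      hh (disc x (om f x (fun y => hh (LL L β y) m))) (r + Fintype.card ι - f.natDegree) := by
  have hd := hB.two_le
  have hlc := lc_ne hd
  have hNN : NN Λ := by
    intro p
    by_cases hp : p = 0
    · subst hp; simp
    · rw [hΛ]; exact (hpos p hp).le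
  have hH : ∀ i, 0 ≤ hh (LL L β (f.eval (x i))) m := fun i => hh_nonneg (hP.nnz (hval i)) m
  have hNNd : NN (disc x (om f x (fun y => hh (LL L β y) m))) :=
    disc_NN _ _ fun i => om_nonneg hH i
  have ht : (0 : ℝ) < ((f.leadingCoeff ^ m) ^ 2)⁻¹ := by positivity
  have hsq := sq_formula hB hP hx hW hcard hκ hval hpos
  apply le_antisymm
  · -- upper bound
    have key : hh Λ (f.natDegree * m + r) / ((f.leadingCoeff ^ m) ^ 2)⁻¹ ≤
        hh (disc x (om f x (fun y => hh (LL L β y) m))) (r + Fintype.card ι - f.natDegree) := by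
      refine le_hh fun b₀ hb₀ hb₀d => ?_
      rw [div_le_iff₀ ht]
      choose g hg using fun i => exists_op (hP.posToz (hval i) m)
      have ht' : f.leadingCoeff ^ (m + 1) ≠ 0 := pow_ne_zero _ hlc
      set b : ℝ[X] := C (f.leadingCoeff ^ (m + 1))⁻¹ * b₀ with hb
      have hbd : b.natDegree = r + Fintype.card ι - f.natDegree := by
        rw [hb, natDegree_C_mul (inv_ne_zero ht'), hb₀d]
      have hb0 : b ≠ 0 := mul_ne_zero (C_ne_zero.2 (inv_ne_zero ht')) hb₀.ne_zero
      have hbl : b.leadingCoeff = (f.leadingCoeff ^ (m + 1))⁻¹ := by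
        rw [hb, leadingCoeff_mul, leadingCoeff_C, hb₀.leadingCoeff, mul_one]
      have htm := test_monic hd hx m r (b := b)
        (by rw [degree_eq_natDegree hb0, hbd]; exact_mod_cast (by omega)) hb0
        (by rw [hbd]; omega)
        (by rw [hbl, pow_succ]; field_simp) g (fun i => ⟨(hg i).monic, (hg i).deg⟩)
      have h1 := hh_le hNN htm.1 htm.2
      refine h1.trans (le_of_eq ?_)
      rw [hΛ, hsq]
      have hsd := sum_eq_disc hd hx m (fun y => hh (LL L β y) m) b
      have hCb : C (f.leadingCoeff ^ (m + 1)) * b = b₀ := by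
        rw [hb, ← mul_assoc, ← C_mul, mul_inv_cancel₀ ht', C_1, one_mul]
      rw [hCb] at hsd
      rw [mul_comm (disc _ _ _), ← hsd]
      refine Finset.sum_congr rfl fun i _ => ?_
      rw [(hg i).hh_eq (hP.nnz (hval i))]
      have : (C (b.eval (x i) / (chie x i).eval (x i)) * g i) ^ 2
          = ((b.eval (x i) / (chie x i).eval (x i)) ^ 2) • (g i) ^ 2 := by
        rw [smul_eq_C_mul, mul_pow, C_pow]
      rw [this, map_smul, smul_eq_mul]
    rw [div_le_iff₀ ht] at key
    linarith
  · -- lower bound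
    refine le_hh fun p hp hpd => ?_
    obtain ⟨hgd, hgl⟩ := quot_facts hd m r hr hp hpd
    have hpd' : p.natDegree < f.natDegree * (m + 1) := by rw [hpd, mul_add]; omega
    obtain ⟨q₀, q, b, a₀, hT, hq1, hq2, hq3, hq4, hq5⟩ :=
      exists_decomp hd hx hcard hcard' m p hpd'
    have hg0 : p / f ^ m ≠ 0 := by
      rw [← leadingCoeff_ne_zero, hgl]; exact inv_ne_zero (pow_ne_zero _ hlc)
    obtain ⟨hbd, hbl⟩ := hT.top hg0 (by rw [hgd]; omega)
    rw [hgd] at hbd
    rw [hgl] at hbl
    -- the sum part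
    have hsum : ∑ i, |f.leadingCoeff| * |(chie x i).eval (x i)| *
        LL L β (f.eval (x i)) ((q i) ^ 2) ≤ Λ (p ^ 2) := by
      rcases Nat.lt_or_ge (Fintype.card ι) f.natDegree with hlt | hge
      · -- here W is arbitrary but orthogonality holds
        set S := ∑ i, (q i).comp f * ee f (x i) with hS
        have h1 : p ^ 2 = S ^ 2 + (q₀.comp f) ^ 2 + 2 * (q₀.comp f * S) := by rw [hq5]; ring
        have h2 : L (W * (q₀.comp f * S)) = 0 := by
          rw [hS, Finset.mul_sum, Finset.mul_sum, map_sum]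
          refine Finset.sum_eq_zero fun i _ => ?_
          exact L_one hB hW hcard hlt i q₀ (q i)
        have h3 : Λ (q₀.comp f * S) = 0 := by rw [hΛ, h2, mul_zero]
        have h4 : Λ (p ^ 2) = Λ (S ^ 2) + Λ ((q₀.comp f) ^ 2) := by
          have e : (2 : ℝ[X]) * (q₀.comp f * S) = (2 : ℝ) • (q₀.comp f * S) := by
            rw [smul_eq_C_mul]; rfl
          rw [h1, map_add, map_add, e, map_smul, h3]; simp
        rw [h4, hΛ (S ^ 2), hS, hsq]
        linarith [hNN (q₀.comp f)]
      · have hc : Fintype.card ι = f.natDegree := le_antisymm hcard hge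
        rw [hq3 hc, zero_comp, zero_add] at hq5
        rw [hq5, hΛ, hsq]
    refine le_trans ?_ hsum
    have hsd := sum_eq_disc hd hx m (fun y => hh (LL L β y) m) b
    have hmon : (C (f.leadingCoeff ^ (m + 1)) * b).Monic := by
      rw [Monic, leadingCoeff_mul, leadingCoeff_C, hbl, pow_succ]
      field_simp
    have hnd : (C (f.leadingCoeff ^ (m + 1)) * b).natDegree = r + Fintype.card ι - f.natDegree := by
      rw [natDegree_C_mul (pow_ne_zero _ hlc), hbd]
    calc ((f.leadingCoeff ^ m) ^ 2)⁻¹ *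
        hh (disc x (om f x (fun y => hh (LL L β y) m))) (r + Fintype.card ι - f.natDegree)
        ≤ ((f.leadingCoeff ^ m) ^ 2)⁻¹ * disc x (om f x (fun y => hh (LL L β y) m))
            ((C (f.leadingCoeff ^ (m + 1)) * b) ^ 2) :=
          mul_le_mul_of_nonneg_left (hh_le hNNd hmon hnd) ht.le
      _ = _ := hsd.symm
      _ ≤ _ := by
          refine Finset.sum_le_sum fun i _ => ?_
          refine mul_le_mul_of_nonneg_left ?_ (mul_nonneg (abs_nonneg _) (abs_nonneg _))
          have := coeff_sq_mul_hh_le (hP.nnz (hval i)) (hq4 i).1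
          rw [(hq4 i).2] at this
          exact this

end

section
variable {f : ℝ[X]} {L M : ℝ[X] →ₗ[ℝ] ℝ} {α β : ℝ} {c : Fin (f.natDegree - 1) → ℝ}

/-- nodes: critical points and `z` -/
def xz (c : Fin (f.natDegree - 1) → ℝ) (z : ℝ) : Option (Fin (f.natDegree - 1)) → ℝ :=
  fun o => o.elim z c

lemma Hull.xz_inj (h : Hull f α β c) {z : ℝ} (hz : z ≤ α ∨ β ≤ z) : Function.Injective (xz c z) := by
  have hne : ∀ j, c j ≠ z := by
    intro j hj
    have := h.mem j
    rw [hj, Set.mem_Ioo] at this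
    rcases hz with hz | hz <;> linarith [this.1, this.2]
  intro a b hab
  cases a with
  | none =>
    cases b with
    | none => rfl
    | some b => exact absurd hab.symm (hne b)
  | some a =>
    cases b with
    | none => exact absurd hab (hne a)
    | some b => exact congrArg some (h.inj hab)

lemma Hull.xz_val (h : Hull f α β c) {z : ℝ} (hz : z ≤ α ∨ β ≤ z)
    (i : Option (Fin (f.natDegree - 1))) :
    f.eval (xz c z i) ≤ α ∨ β ≤ f.eval (xz c z i) := by
  cases i with
  | none => exact h.maps z hz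
  | some j => exact h.val j

lemma card_opt (hd : 2 ≤ f.natDegree) :
    Fintype.card (Option (Fin (f.natDegree - 1))) = f.natDegree := by
  rw [Fintype.card_option, Fintype.card_fin]; omega

/-- Recursion at a finite point. -/
theorem rec_z (h : Hull f α β c) (hB : BalL f L M) (hP : PosL α β L) {z : ℝ}
    (hz : z ≤ α ∨ β ≤ z) (m r : ℕ) (hr : r < f.natDegree) :
    hh (LL L β z) (f.natDegree * m + r) = ((f.leadingCoeff ^ m) ^ 2)⁻¹ *
      hh (disc (xz c z) (om f (xz c z) (fun y => hh (LL L β y) m))) r := by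
  have hd := h.two_le
  have hW : derivative f * (C z - X) = C (-(f.natDegree * f.leadingCoeff)) * chi (xz c z) := by
    have : chi (xz c z) = (X - C z) * ∏ j, (X - C (c j)) := by
      unfold chi; rw [Fintype.prod_option]; rfl
    rw [this, h.deriv_eq, C_neg]; ring
  have := rec_gen (Λ := LL L β z) hB hP (s := sg β z) (h.xz_inj hz) hW (card_opt hd).le
    (by rw [card_opt hd]; omega)
    (by
      rw [abs_mul, abs_neg, abs_mul, Nat.abs_cast]
      have : |sg β z| = 1 := by unfold sg; split_ifs <;> simp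
      rw [this, one_mul])
    (h.xz_val hz) (fun p hp => by have := hP.posz z hz p hp; rwa [LL_apply] at this)
    (fun p => rfl) m r hr (by rw [card_opt hd]; omega)
  rw [this, card_opt hd, Nat.add_sub_cancel]

/-- Recursion at infinity, nonzero digit. -/
theorem rec_inf (h : Hull f α β c) (hB : BalL f L M) (hP : PosL α β L)
    (m r : ℕ) (hr : r < f.natDegree) (hr0 : 1 ≤ r) :
    hh L (f.natDegree * m + r) = ((f.leadingCoeff ^ m) ^ 2)⁻¹ *
      hh (disc c (om f c (fun y => hh (LL L β y) m))) (r - 1) := by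
  have hd := h.two_le
  have hcard : Fintype.card (Fin (f.natDegree - 1)) = f.natDegree - 1 := Fintype.card_fin _
  have hW : derivative f * 1 = C (f.natDegree * f.leadingCoeff) * chi c := by
    rw [mul_one]; exact h.deriv_eq
  have := rec_gen (Λ := L) hB hP (s := 1) h.inj hW (by rw [hcard]; omega)
    (by rw [hcard]; omega)
    (by rw [one_mul, abs_mul, Nat.abs_cast])
    h.val (fun p hp => by rw [one_mul, one_mul]; exact hP.pos p hp)
    (fun p => by rw [one_mul, one_mul]) m r hr (by rw [hcard]; omega)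
  rw [this, hcard]
  congr 2
  omega

/-- Recursion at infinity, digit `0`. -/
theorem rec_inf_zero (h : Hull f α β c) (hB : BalL f L M) (hP : PosL α β L) (m : ℕ) :
    hh L (f.natDegree * m) = ((f.leadingCoeff ^ m) ^ 2)⁻¹ * hh L m := by
  have hd := hB.two_le
  have hf := f_ne hd
  have hlc := lc_ne hd
  obtain ⟨p, hp⟩ := exists_op (hP.posTo m)
  have hcd : (p.comp f).natDegree = f.natDegree * m := by rw [natDegree_comp, hp.deg, mul_comm]
  have hcl : (p.comp f).leadingCoeff = f.leadingCoeff ^ m := by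
    rw [leadingCoeff_comp (by omega), hp.monic.leadingCoeff, one_mul, hp.deg]
  have hne : f.leadingCoeff ^ m ≠ 0 := pow_ne_zero _ hlc
  have hcard : Fintype.card (Fin (f.natDegree - 1)) = f.natDegree - 1 := Fintype.card_fin _
  have hW : derivative f * 1 = C (f.natDegree * f.leadingCoeff) * chi c := by
    rw [mul_one]; exact h.deriv_eq
  -- the candidate is orthogonal
  have hop : IsOP L (f.natDegree * m) (C (f.leadingCoeff ^ m)⁻¹ * p.comp f) := by
    refine ⟨?_, ?_, ?_⟩
    · rw [Monic, leadingCoeff_mul, leadingCoeff_C, hcl]; exact inv_mul_cancel₀ hne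
    · rw [natDegree_C_mul (inv_ne_zero hne), hcd]
    · intro q hq
      by_cases hq0 : q = 0
      · rw [hq0, mul_zero, map_zero]
      rcases Nat.eq_zero_or_pos m with rfl | hm
      · rw [degree_eq_natDegree hq0, Nat.mul_zero] at hq
        exact absurd hq (by simp)
      · have hqd : q.natDegree < f.natDegree * (m - 1 + 1) := by
          rw [Nat.sub_add_cancel hm]
          rw [degree_eq_natDegree hq0] at hq
          exact_mod_cast hq
        obtain ⟨q₀, qq, b, a₀, hT, h1, h2, h3, h4, h5⟩ :=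
          exists_decomp hd h.inj (by rw [hcard]; omega) (by rw [hcard]; omega) (m - 1) q hqd
        have e1 : L (p.comp f * q₀.comp f) = 0 := by
          rw [← mul_comp, L_comp hB]
          apply hp.orth
          refine lt_of_le_of_lt degree_le_natDegree ?_
          exact_mod_cast (by omega)
        have e2 : ∀ j, L (p.comp f * ((qq j).comp f * ee f (c j))) = 0 := by
          intro j
          have := L_one hB hW (by rw [hcard]; omega) (by rw [hcard]; omega) j p (qq j)
          rwa [one_mul] at this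
        have e3 : C (f.leadingCoeff ^ m)⁻¹ * p.comp f * q
            = (f.leadingCoeff ^ m)⁻¹ • (p.comp f * q₀.comp f
              + ∑ j, p.comp f * ((qq j).comp f * ee f (c j))) := by
          conv_lhs => rw [h5]
          rw [smul_eq_C_mul, mul_add, Finset.mul_sum, mul_add, Finset.mul_sum]
          congr 1
          · ring
          · refine Finset.sum_congr rfl fun j _ => by ring
        rw [e3, map_smul, map_add, e1, map_sum, Finset.sum_eq_zero fun j _ => e2 j]
        simp
  rw [hop.hh_eq hP.nn, hp.hh_eq hP.nn]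
  have : (C (f.leadingCoeff ^ m)⁻¹ * p.comp f) ^ 2
      = (((f.leadingCoeff ^ m) ^ 2)⁻¹) • (p ^ 2).comp f := by
    rw [smul_eq_C_mul, mul_pow, pow_comp, ← C_pow, inv_pow]
  rw [this, map_smul, smul_eq_mul, L_comp hB]

end

end Pool.Agent.Work.MP_e056c9_an
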