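import Pool.Agent.Work.MP_e056c9_an.Defs
import Pool.Agent.Work.MP_e056c9_an.Decomp

/-! # The renormalisation recursion for `h_n[|x - z| μ]` and `h_n[μ]`. -/

set_option autoImplicit false
set_option linter.unusedSectionVars false
set_option linter.unusedVariables false
open Polynomial

namespace Pool.Agent.Work.MP_e056c9_an

/-- sign of `z - x` for `x` in the hull -/
noncomputable def sg (β z : ℝ) : ℝ := if β ≤ z then 1 else -1

lemma sg_mul_self (β z : ℝ) : sg β z * sg β z = 1 := by unfold sg; split_ifs <;> norm_num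
lemma sg_ne (β z : ℝ) : sg β z ≠ 0 := by unfold sg; split_ifs <;> norm_num

/-- `p ↦ ∫ p |z - x|` -/
noncomputable def LL (L : ℝ[X] →ₗ[ℝ] ℝ) (β z : ℝ) : ℝ[X] →ₗ[ℝ] ℝ :=
  sg β z • (L ∘ₗ LinearMap.mulLeft ℝ (C z - X))

lemma LL_apply (L : ℝ[X] →ₗ[ℝ] ℝ) (β z : ℝ) (p : ℝ[X]) :
    LL L β z p = sg β z * L ((C z - X) * p) := rfl

/-- positivity of all the functionals -/
structure PosL (α β : ℝ) (L : ℝ[X] →ₗ[ℝ] ℝ) : Prop where
  pos : ∀ p : ℝ[X], p ≠ 0 → 0 < L (p ^ 2)
  posz : ∀ z : ℝ, (z ≤ α ∨ β ≤ z) → ∀ p : ℝ[X], p ≠ 0 → 0 < LL L β z (p ^ 2)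

lemma PosL.nn {α β : ℝ} {L : ℝ[X] →ₗ[ℝ] ℝ} (h : PosL α β L) : NN L := by
  intro p
  by_cases hp : p = 0
  · subst hp; simp
  · exact (h.pos p hp).le

lemma PosL.nnz {α β : ℝ} {L : ℝ[X] →ₗ[ℝ] ℝ} (h : PosL α β L) {z : ℝ} (hz : z ≤ α ∨ β ≤ z) :
    NN (LL L β z) := by
  intro p
  by_cases hp : p = 0
  · subst hp; simp
  · exact (h.posz z hz p hp).le

lemma PosL.posTo {α β : ℝ} {L : ℝ[X] →ₗ[ℝ] ℝ} (h : PosL α β L) (n : ℕ) : PosTo L n :=
  fun p hp _ => h.pos p hp

lemma PosL.posToz {α β : ℝ} {L : ℝ[X] →ₗ[ℝ] ℝ} (h : PosL α β L) {z : ℝ} (hz : z ≤ α ∨ β ≤ z)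
    (n : ℕ) : PosTo (LL L β z) n :=
  fun p hp _ => h.posz z hz p hp

section general
variable {ι : Type*} [Fintype ι] [DecidableEq ι] {x : ι → ℝ} {f : ℝ[X]} {L M : ℝ[X] →ₗ[ℝ] ℝ}
  {α β : ℝ}

/-- diagonal formula with positive coefficients -/
lemma diag_pos (hB : BalL f L M) (hP : PosL α β L) {W : ℝ[X]} {κ s : ℝ}
    (hx : Function.Injective x)
    (hW : derivative f * W = C κ * chi x) (hcard : Fintype.card ι ≤ f.natDegree)
    (hκ : |s * κ| = f.natDegree * |f.leadingCoeff|)
    (hval : ∀ i, f.eval (x i) ≤ α ∨ β ≤ f.eval (x i))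
    (hpos : ∀ p : ℝ[X], p ≠ 0 → 0 < s * L (W * p ^ 2)) (i : ι) :
    s * (κ / f.natDegree * (chie x i).eval (x i)) * (-sg β (f.eval (x i)))
      = |f.leadingCoeff| * |(chie x i).eval (x i)| := by
  have hd := hB.two_le
  have hd0 : (0 : ℝ) < f.natDegree := by exact_mod_cast (by omega : 0 < f.natDegree)
  set k := s * (κ / f.natDegree * (chie x i).eval (x i)) * (-sg β (f.eval (x i))) with hk
  have h1 := hpos (ee f (x i)) (ee_ne hd _)
  have h2 := L_diag hB hW hcard i 1 1
  simp only [one_comp, one_mul, mul_one] at h2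
  rw [← pow_two] at h2
  rw [h2] at h1
  have h3 := hP.posz _ (hval i) 1 one_ne_zero
  rw [LL_apply] at h3
  simp only [one_pow, mul_one] at h3
  have h4 : L (X - C (f.eval (x i))) = - L (C (f.eval (x i)) - X) := by
    rw [← map_neg]; congr 1; ring
  rw [h4] at h1
  have h5 : s * (κ / f.natDegree * (chie x i).eval (x i) * -L (C (f.eval (x i)) - X))
      = k * (sg β (f.eval (x i)) * L (C (f.eval (x i)) - X)) := by
    rw [hk]
    have := sg_mul_self β (f.eval (x i))
    linear_combination (s * (κ / f.natDegree * (chie x i).eval (x i))) * L (C (f.eval (x i)) - X) * this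
  rw [h5] at h1
  have hkpos : 0 < k := by
    by_contra hneg
    have := mul_nonpos_of_nonpos_of_nonneg (not_lt.1 hneg) h3.le
    linarith
  rw [← abs_of_pos hkpos, hk, abs_mul, abs_neg]
  have h6 : |sg β (f.eval (x i))| = 1 := by unfold sg; split_ifs <;> simp
  rw [h6, mul_one]
  have h7 : s * (κ / f.natDegree * (chie x i).eval (x i))
      = (s * κ) / f.natDegree * (chie x i).eval (x i) := by ring
  rw [h7, abs_mul, abs_div, hκ, Nat.abs_cast]
  field_simp

end general

section
variable {f : ℝ[X]} {L M : ℝ[X] →ₗ[ℝ] ℝ} {α β : ℝ}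

/-- the square formula -/
lemma sq_formula {ι : Type*} [Fintype ι] [DecidableEq ι] {x : ι → ℝ}
    (hB : BalL f L M) (hP : PosL α β L) {W : ℝ[X]} {κ s : ℝ}
    (hx : Function.Injective x)
    (hW : derivative f * W = C κ * chi x) (hcard : Fintype.card ι ≤ f.natDegree)
    (hκ : |s * κ| = f.natDegree * |f.leadingCoeff|)
    (hval : ∀ i, f.eval (x i) ≤ α ∨ β ≤ f.eval (x i))
    (hpos : ∀ p : ℝ[X], p ≠ 0 → 0 < s * L (W * p ^ 2)) (q : ι → ℝ[X]) :
    s * L (W * (∑ i, (q i).comp f * ee f (x i)) ^ 2)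
      = ∑ i, |f.leadingCoeff| * |(chie x i).eval (x i)| * LL L β (f.eval (x i)) ((q i) ^ 2) := by
  rw [L_sq hB hW hcard, Finset.mul_sum]
  refine Finset.sum_congr rfl fun i _ => ?_
  rw [← diag_pos hB hP hx hW hcard hκ hval hpos i, LL_apply]
  have h4 : L ((X - C (f.eval (x i))) * q i ^ 2) = - L ((C (f.eval (x i)) - X) * q i ^ 2) := by
    rw [← map_neg]; congr 1; ring
  rw [h4]
  have := sg_mul_self β (f.eval (x i))
  linear_combination (s * (κ / f.natDegree * (chie x i).eval (x i))) *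
    L ((C (f.eval (x i)) - X) * q i ^ 2) * this

/-- test polynomial: `∑ C (A i) (p̂ i)(f) e_i` is monic of the right degree -/
lemma test_monic {ι : Type*} [Fintype ι] [DecidableEq ι] {x : ι → ℝ}
    (hd : 2 ≤ f.natDegree) (hx : Function.Injective x) (m r : ℕ) {b : ℝ[X]}
    (hb : b.degree < Fintype.card ι) (hb0 : b ≠ 0)
    (hr : r + Fintype.card ι = f.natDegree + b.natDegree)
    (hlead : b.leadingCoeff * f.leadingCoeff * f.leadingCoeff ^ m = 1)
    (g : ι → ℝ[X]) (hg : ∀ i, (g i).Monic ∧ (g i).natDegree = m) :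
    (∑ i, (C (b.eval (x i) / (chie x i).eval (x i)) * g i).comp f * ee f (x i)).Monic ∧
    (∑ i, (C (b.eval (x i) / (chie x i).eval (x i)) * g i).comp f * ee f (x i)).natDegree
      = f.natDegree * m + r := by
  have hf := f_ne hd
  have hχ := chi_monic x
  have hcχ : (chi x).natDegree = Fintype.card ι := chi_natDegree x
  set E := (f * b) /ₘ chi x with hE
  have hle : (chi x).degree ≤ (f * b).degree := by
    rw [degree_eq_natDegree hχ.ne_zero, degree_eq_natDegree (mul_ne_zero hf hb0), hcχ,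
      natDegree_mul hf hb0]
    exact_mod_cast (by omega)
  have hEd : E.natDegree = r := by
    rw [hE, natDegree_divByMonic _ hχ, natDegree_mul hf hb0, hcχ]; omega
  have hEl : E.leadingCoeff = f.leadingCoeff * b.leadingCoeff := by
    rw [hE, leadingCoeff_divByMonic_of_monic hχ hle, leadingCoeff_mul]
  have hlc := lc_ne hd
  have hbl : b.leadingCoeff ≠ 0 := leadingCoeff_ne_zero.2 hb0
  have hE0 : E ≠ 0 := by
    rw [← leadingCoeff_ne_zero, hEl]; exact mul_ne_zero hlc hbl
  -- split off the leading part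
  set rest := ∑ i, (C (b.eval (x i) / (chie x i).eval (x i)) * (g i - X ^ m)).comp f * ee f (x i)
    with hrest
  have hsplit : (∑ i, (C (b.eval (x i) / (chie x i).eval (x i)) * g i).comp f * ee f (x i))
      = f ^ m * E + rest := by
    rw [hE, ← sum_ee hx f hb, Finset.mul_sum, hrest, ← Finset.sum_add_distrib]
    refine Finset.sum_congr rfl fun i _ => ?_
    simp only [mul_comp, sub_comp, C_comp, pow_comp, X_comp]
    ring
  have hrestd : rest.degree < (f ^ m * E).degree := by
    have h1 : (f ^ m * E).degree = ((f.natDegree * m + r : ℕ) : WithBot ℕ) := by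
      rw [degree_eq_natDegree (mul_ne_zero (pow_ne_zero m hf) hE0),
        natDegree_mul (pow_ne_zero m hf) hE0, natDegree_pow, hEd, mul_comm]
    rw [h1, hrest]
    refine lt_of_le_of_lt (degree_sum_le _ _) ?_
    rw [Finset.sup_lt_iff (WithBot.bot_lt_coe _)]
    intro i _
    by_cases h0 : (C (b.eval (x i) / (chie x i).eval (x i)) * (g i - X ^ m)).comp f * ee f (x i) = 0
    · rw [h0, degree_zero]; exact WithBot.bot_lt_coe _
    · rw [degree_eq_natDegree h0]
      have h2 := left_ne_zero_of_mul h0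
      rw [natDegree_mul h2 (ee_ne hd _), ee_natDegree hd, natDegree_comp]
      have h3 : C (b.eval (x i) / (chie x i).eval (x i)) * (g i - X ^ m) ≠ 0 := by
        rintro h; rw [h, zero_comp] at h2; exact h2 rfl
      have h4 : g i - X ^ m ≠ 0 := right_ne_zero_of_mul h3
      have h5 : (g i - X ^ m).degree < (g i).degree := by
        apply degree_sub_lt_left
        · rw [degree_eq_natDegree (hg i).1.ne_zero, (hg i).2, degree_X_pow]
        · exact (hg i).1.ne_zero
        · rw [(hg i).1.leadingCoeff, (monic_X_pow m).leadingCoeff]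
      have h6 : (g i - X ^ m).natDegree < m := by
        have := natDegree_lt_natDegree h4 h5
        rwa [(hg i).2] at this
      have h7 : (C (b.eval (x i) / (chie x i).eval (x i)) * (g i - X ^ m)).natDegree < m :=
        lt_of_le_of_lt (natDegree_C_mul_le _ _) h6
      have h8 : ((C (b.eval (x i) / (chie x i).eval (x i)) * (g i - X ^ m)).natDegree + 1) * f.natDegree
          ≤ m * f.natDegree := Nat.mul_le_mul_right _ h7
      have h9 : (C (b.eval (x i) / (chie x i).eval (x i)) * (g i - X ^ m)).natDegree * f.natDegree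
          + (f.natDegree - 1) < f.natDegree * m + r := by
        rw [mul_comm f.natDegree m]
        rw [add_mul, one_mul] at h8
        omega
      exact_mod_cast h9
  constructor
  · rw [hsplit, Monic, leadingCoeff_add_of_degree_lt' hrestd, leadingCoeff_mul, leadingCoeff_pow, hEl,
      ← hlead]
    ring
  · rw [hsplit, natDegree_add_eq_left_of_degree_lt hrestd, natDegree_mul (pow_ne_zero m hf) hE0,
      natDegree_pow, hEd, mul_comm]

/-- quotient by `f ^ m` of a monic polynomial of degree `d m + r`. -/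
lemma quot_facts (hd : 2 ≤ f.natDegree) (m r : ℕ) (hr : r < f.natDegree) {p : ℝ[X]} (hp : p.Monic)
    (hpd : p.natDegree = f.natDegree * m + r) :
    (p / f ^ m).natDegree = r ∧ (p / f ^ m).leadingCoeff = (f.leadingCoeff ^ m)⁻¹ := by
  have hf := f_ne hd
  have hfm : f ^ m ≠ 0 := pow_ne_zero m hf
  have hle : (f ^ m).degree ≤ p.degree := by
    rw [degree_eq_natDegree hfm, degree_eq_natDegree hp.ne_zero, natDegree_pow, hpd]
    exact_mod_cast (by rw [mul_comm]; omega)
  have hl : (p / f ^ m).leadingCoeff = (f.leadingCoeff ^ m)⁻¹ := by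
    rw [leadingCoeff_div hle, hp.leadingCoeff, leadingCoeff_pow, one_div]
  have h0 : p / f ^ m ≠ 0 := by
    rw [← leadingCoeff_ne_zero, hl]
    exact inv_ne_zero (pow_ne_zero _ (lc_ne hd))
  refine ⟨?_, hl⟩
  have h3 := degree_add_div hfm hle
  rw [degree_eq_natDegree hfm, degree_eq_natDegree h0, degree_eq_natDegree hp.ne_zero,
    natDegree_pow, hpd] at h3
  have h4 : m * f.natDegree + (p / f ^ m).natDegree = f.natDegree * m + r := by exact_mod_cast h3
  rw [mul_comm m] at h4
  omega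

end

end Pool.Agent.Work.MP_e056c9_an
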