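import Pool.Agent.Work.MP_e056c9_an.Outside

/-! # Rigidity of chains with constant oscillation. -/

set_option autoImplicit false
set_option linter.unusedSectionVars false
set_option linter.unusedVariables false
open Polynomial

namespace Pool.Agent.Work.MP_e056c9_an

/-- admissible states -/
def Sp (S : Set ℝ) : Set (Option ℝ) := {s | ∀ z, s = some z → z ∈ S}

lemma none_mem_Sp (S : Set ℝ) : (none : Option ℝ) ∈ Sp S := fun z hz => by simp at hz
lemma some_mem_Sp {S : Set ℝ} {z : ℝ} : some z ∈ Sp S ↔ z ∈ S := by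
  constructor
  · intro h; exact h z rfl
  · intro h w hw; rw [Option.some.injEq] at hw; rw [← hw]; exact h

/-- one renormalisation step -/
noncomputable def TT (f : ℝ[X]) (c : Fin (f.natDegree - 1) → ℝ) (r : ℕ) (H : Option ℝ → ℝ) :
    Option ℝ → ℝ
  | none => if r = 0 then H none else hh (Dinf f c H) (r - 1)
  | some z => hh (Dz f c H z) r

/-- the support of the kernel -/
def Supp (f : ℝ[X]) (c : Fin (f.natDegree - 1) → ℝ) (r : ℕ) (H : Option ℝ → ℝ) :
    Option ℝ → Option ℝ → Prop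
  | none, w => (r = 0 ∧ w = none) ∨
      (1 ≤ r ∧ ∃ a, IsOP (Dinf f c H) (r - 1) a ∧ ∃ j, a.eval (c j) ≠ 0 ∧ w = some (f.eval (c j)))
  | some z, w => ∃ p, IsOP (Dz f c H z) r p ∧ ((p.eval z ≠ 0 ∧ w = some (f.eval z)) ∨
      ∃ j, p.eval (c j) ≠ 0 ∧ w = some (f.eval (c j)))

section
variable {f : ℝ[X]} {α β : ℝ} {c : Fin (f.natDegree - 1) → ℝ} (h : Hull f α β c)
  {S : Set ℝ} (hS : InvSet f α β c S) {H H' : Option ℝ → ℝ} (hH : PosOn S H) (hH' : PosOn S H')
include h hS hH

lemma TT_pos {r : ℕ} (hr : r < f.natDegree) : PosOn S (TT f c r H) := by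
  constructor
  · unfold TT
    split_ifs with h0
    · exact hH.1
    · exact hh_pos (Dinf_NN h hS hH) (Dinf_PosTo h hS hH (by omega))
  · intro z hz
    exact hh_pos (Dz_NN h hS hH hz) (Dz_PosTo h hS hH hz (by omega))

include hH'
lemma TT_le {r : ℕ} {t : ℝ} (ht : 0 < t) (hle : ∀ s ∈ Sp S, H' s ≤ t * H s) :
    ∀ s ∈ Sp S, TT f c r H' s ≤ t * TT f c r H s := by
  have hle' : ∀ y ∈ S, H' (some y) ≤ t * H (some y) := fun y hy => hle _ (some_mem_Sp.2 hy)
  have hom : ∀ {ι : Type} [Fintype ι] [DecidableEq ι] (x : ι → ℝ), (∀ i, f.eval (x i) ∈ S) →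
      ∀ i, om f x (fun y => H' (some y)) i ≤ t * om f x (fun y => H (some y)) i := by
    intro ι _ _ x hx i
    unfold om
    rw [← mul_div_assoc]
    exact div_le_div_of_nonneg_right (hle' _ (hx i)) (mul_nonneg (abs_nonneg _) (abs_nonneg _))
  intro s hs
  cases s with
  | none =>
    unfold TT
    split_ifs with h0
    · exact hle _ hs
    · exact hh_disc_le_mul ht (fun j => (omc_pos h hS hH j).le) (fun j => (omc_pos h hS hH' j).le)
        (hom c hS.val) _
  | some z =>
    have hz := some_mem_Sp.1 hs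
    refine hh_disc_le_mul ht (fun j => (omz_pos h hS hH hz j).le)
      (fun j => (omz_pos h hS hH' hz j).le) (hom (xz c z) ?_) _
    intro i
    cases i with
    | none => exact hS.maps z hz
    | some j => exact hS.val j

lemma TT_ge {r : ℕ} {t : ℝ} (ht : 0 < t) (hle : ∀ s ∈ Sp S, t * H s ≤ H' s) :
    ∀ s ∈ Sp S, t * TT f c r H s ≤ TT f c r H' s := by
  intro s hs
  have h1 := TT_le h hS hH' hH (r := r) (inv_pos.2 ht) (fun s hs => by
    rw [inv_mul_eq_div, le_div_iff₀ ht, mul_comm]; exact hle s hs) s hs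
  rw [inv_mul_eq_div, le_div_iff₀ ht, mul_comm] at h1
  exact h1

/-- propagation of equality, upper -/
lemma supp_upper {r : ℕ} (hr : r < f.natDegree) {t : ℝ} (ht : 0 < t)
    (hle : ∀ s ∈ Sp S, H' s ≤ t * H s) {s w : Option ℝ} (hs : s ∈ Sp S)
    (heq : TT f c r H' s = t * TT f c r H s) (hw : Supp f c r H s w) : H' w = t * H w := by
  have hlc := lc_ne h.two_le
  have hle' : ∀ y ∈ S, H' (some y) ≤ t * H (some y) := fun y hy => hle _ (some_mem_Sp.2 hy)
  have hom : ∀ {ι : Type} [Fintype ι] [DecidableEq ι] (x : ι → ℝ), (∀ i, f.eval (x i) ∈ S) →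
      ∀ i, om f x (fun y => H' (some y)) i ≤ t * om f x (fun y => H (some y)) i := by
    intro ι _ _ x hx i
    unfold om
    rw [← mul_div_assoc]
    exact div_le_div_of_nonneg_right (hle' _ (hx i)) (mul_nonneg (abs_nonneg _) (abs_nonneg _))
  have hback : ∀ {ι : Type} [Fintype ι] [DecidableEq ι] (x : ι → ℝ), Function.Injective x →
      ∀ i, om f x (fun y => H' (some y)) i = t * om f x (fun y => H (some y)) i →
      H' (some (f.eval (x i))) = t * H (some (f.eval (x i))) := by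
    intro ι _ _ x hx i hi
    unfold om at hi
    have h2 : |f.leadingCoeff| * |(chie x i).eval (x i)| ≠ 0 :=
      mul_ne_zero (abs_ne_zero.2 hlc) (abs_ne_zero.2 (chie_eval_ne hx i))
    rw [← mul_div_assoc, div_left_inj' h2] at hi
    exact hi
  cases s with
  | none =>
    rcases hw with ⟨h0, rfl⟩ | ⟨h1, a, ha, j, hj, rfl⟩
    · unfold TT at heq
      rw [if_pos h0, if_pos h0] at heq
      exact heq
    · unfold TT at heq
      rw [if_neg (by omega), if_neg (by omega)] at heq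
      exact hback c h.inj j (eq_case_upper (fun j => (omc_pos h hS hH j).le)
        (fun j => (omc_pos h hS hH' j).le) (hom c hS.val) heq ha hj)
  | some z =>
    have hz := some_mem_Sp.1 hs
    have hinj := h.xz_inj (hS.out z hz)
    have hval : ∀ i, f.eval (xz c z i) ∈ S := by
      intro i
      cases i with
      | none => exact hS.maps z hz
      | some j => exact hS.val j
    obtain ⟨p, hp, hcase⟩ := hw
    have key : ∀ i, p.eval (xz c z i) ≠ 0 → H' (some (f.eval (xz c z i))) = t * H (some (f.eval (xz c z i))) := by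
      intro i hi
      exact hback (xz c z) hinj i (eq_case_upper (fun j => (omz_pos h hS hH hz j).le)
        (fun j => (omz_pos h hS hH' hz j).le) (hom (xz c z) hval) heq hp hi)
    rcases hcase with ⟨h1, rfl⟩ | ⟨j, h1, rfl⟩
    · exact key none h1
    · exact key (some j) h1

/-- propagation of equality, lower -/
lemma supp_lower {r : ℕ} (hr : r < f.natDegree) {t : ℝ} (ht : 0 < t)
    (hle : ∀ s ∈ Sp S, t * H s ≤ H' s) {s w : Option ℝ} (hs : s ∈ Sp S)
    (heq : TT f c r H' s = t * TT f c r H s) (hw : Supp f c r H s w) : H' w = t * H w := by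
  have hlc := lc_ne h.two_le
  have hle' : ∀ y ∈ S, t * H (some y) ≤ H' (some y) := fun y hy => hle _ (some_mem_Sp.2 hy)
  have hom : ∀ {ι : Type} [Fintype ι] [DecidableEq ι] (x : ι → ℝ), (∀ i, f.eval (x i) ∈ S) →
      ∀ i, t * om f x (fun y => H (some y)) i ≤ om f x (fun y => H' (some y)) i := by
    intro ι _ _ x hx i
    unfold om
    rw [← mul_div_assoc]
    exact div_le_div_of_nonneg_right (hle' _ (hx i)) (mul_nonneg (abs_nonneg _) (abs_nonneg _))
  have hback : ∀ {ι : Type} [Fintype ι] [DecidableEq ι] (x : ι → ℝ), Function.Injective x →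
      ∀ i, om f x (fun y => H' (some y)) i = t * om f x (fun y => H (some y)) i →
      H' (some (f.eval (x i))) = t * H (some (f.eval (x i))) := by
    intro ι _ _ x hx i hi
    unfold om at hi
    have h2 : |f.leadingCoeff| * |(chie x i).eval (x i)| ≠ 0 :=
      mul_ne_zero (abs_ne_zero.2 hlc) (abs_ne_zero.2 (chie_eval_ne hx i))
    rw [← mul_div_assoc, div_left_inj' h2] at hi
    exact hi
  cases s with
  | none =>
    rcases hw with ⟨h0, rfl⟩ | ⟨h1, a, ha, j, hj, rfl⟩
    · unfold TT at heq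
      rw [if_pos h0, if_pos h0] at heq
      exact heq
    · unfold TT at heq
      rw [if_neg (by omega), if_neg (by omega)] at heq
      exact hback c h.inj j (eq_case_lower ht h.inj (omc_pos h hS hH) (omc_pos h hS hH')
        (by rw [Fintype.card_fin]; omega) (hom c hS.val) heq ha hj)
  | some z =>
    have hz := some_mem_Sp.1 hs
    have hinj := h.xz_inj (hS.out z hz)
    have hval : ∀ i, f.eval (xz c z i) ∈ S := by
      intro i
      cases i with
      | none => exact hS.maps z hz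
      | some j => exact hS.val j
    obtain ⟨p, hp, hcase⟩ := hw
    have key : ∀ i, p.eval (xz c z i) ≠ 0 → H' (some (f.eval (xz c z i))) = t * H (some (f.eval (xz c z i))) := by
      intro i hi
      exact hback (xz c z) hinj i (eq_case_lower ht hinj (omz_pos h hS hH hz)
        (omz_pos h hS hH' hz) (by rw [card_opt h.two_le]; omega) (hom (xz c z) hval) heq hp hi)
    rcases hcase with ⟨h1, rfl⟩ | ⟨j, h1, rfl⟩
    · exact key none h1
    · exact key (some j) h1

omit hH'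

/-! ### facts on supports -/

lemma supp_self {r : ℕ} (hr : r < f.natDegree) {z : ℝ} (hz : z ∈ S) :
    Supp f c r H (some z) (some (f.eval z)) := by
  obtain ⟨p, hp⟩ := exists_op (Dz_PosTo h hS hH hz (k := r) (by omega))
  exact ⟨p, hp, Or.inl ⟨P1 h hS hH hz hr hp, rfl⟩⟩

lemma isOP_zero {Λ : ℝ[X] →ₗ[ℝ] ℝ} : IsOP Λ 0 (1 : ℝ[X]) := by
  refine ⟨monic_one, natDegree_one, ?_⟩
  intro q hq
  have : q = 0 := by
    by_contra h0
    rw [degree_eq_natDegree h0] at hq
    exact absurd hq (by simp)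
  rw [this, mul_zero, map_zero]

lemma supp_zero {z : ℝ} (hz : z ∈ S) (j : Fin (f.natDegree - 1)) :
    Supp f c 0 H (some z) (some (f.eval (c j))) :=
  ⟨1, isOP_zero h hS hH, Or.inr ⟨j, by simp, rfl⟩⟩

lemma supp_overlap {r : ℕ} (hr : r < f.natDegree) (hr1 : 1 ≤ r) {z : ℝ} (hz : z ∈ S) :
    ∃ j, Supp f c r H (some z) (some (f.eval (c j))) ∧ Supp f c r H none (some (f.eval (c j))) := by
  obtain ⟨r, rfl⟩ : ∃ k, r = k + 1 := ⟨r - 1, by omega⟩
  obtain ⟨p, hp⟩ := exists_op (Dz_PosTo h hS hH hz (k := r + 1) (by omega))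
  obtain ⟨a, ha⟩ := exists_op (Dinf_PosTo h hS hH (k := r) (by omega))
  obtain ⟨j, h1, h2⟩ := P2' h hS hH hz hr hp ha.monic ha.deg
  exact ⟨j, ⟨p, hp, Or.inr ⟨j, h1, rfl⟩⟩, Or.inr ⟨by omega, a, ha, j, h2, rfl⟩⟩

/-- two different states among `∞, α, β` cannot both miss the same critical point -/
lemma supp_two {r : ℕ} (hr : r < f.natDegree) (hr1 : 1 ≤ r) {s s' : Option ℝ} (hs : s ∈ Sp S)
    (hs' : s' ∈ Sp S) (hne : s ≠ s') (h1 : s = none ∨ s = some α ∨ s = some β)
    (h1' : s' = none ∨ s' = some α ∨ s' = some β) (j : Fin (f.natDegree - 1)) :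
    Supp f c r H s (some (f.eval (c j))) ∨ Supp f c r H s' (some (f.eval (c j))) := by
  obtain ⟨r, rfl⟩ : ∃ k, r = k + 1 := ⟨r - 1, by omega⟩
  obtain ⟨a, ha⟩ := exists_op (Dinf_PosTo h hS hH (k := r) (by omega))
  obtain ⟨b, hb⟩ := exists_op (Dinf_PosTo h hS hH (k := r + 1) (by omega))
  have hαβ : α < β := h.lt
  have hainf : 0 < hh (Dinf f c H) r := hh_pos (Dinf_NN h hS hH) (Dinf_PosTo h hS hH (by omega))
  -- a point and infinity
  have one : ∀ z ∈ S, a.eval (c j) ≠ 0 ∨ Supp f c (r + 1) H (some z) (some (f.eval (c j))) := by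
    intro z hz
    obtain ⟨p, hp⟩ := exists_op (Dz_PosTo h hS hH hz (k := r + 1) (by omega))
    by_contra hcon
    push Not at hcon
    obtain ⟨h2, h3⟩ := hcon
    have h4 : p.eval (c j) = 0 := by
      by_contra h5; exact h3 ⟨p, hp, Or.inr ⟨j, h5, rfl⟩⟩
    have h6 := congrArg (eval (c j)) (p_eq h hS hH hz hr hp ha hb)
    rw [h4, eval_add, eval_mul, h2, mul_zero, add_zero] at h6
    exact no_common h hS hH hr ha hb h2 h6.symm
  -- the two ends
  have two : α ∈ S → β ∈ S → Supp f c (r + 1) H (some α) (some (f.eval (c j))) ∨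
      Supp f c (r + 1) H (some β) (some (f.eval (c j))) := by
    intro hα hβ
    obtain ⟨p, hp⟩ := exists_op (Dz_PosTo h hS hH hα (k := r + 1) (by omega))
    obtain ⟨q, hq⟩ := exists_op (Dz_PosTo h hS hH hβ (k := r + 1) (by omega))
    by_contra hcon
    push Not at hcon
    have h4 : p.eval (c j) = 0 := by
      by_contra h5; exact hcon.1 ⟨p, hp, Or.inr ⟨j, h5, rfl⟩⟩
    have h4' : q.eval (c j) = 0 := by
      by_contra h5; exact hcon.2 ⟨q, hq, Or.inr ⟨j, h5, rfl⟩⟩
    have e1 := congrArg (eval (c j)) (p_eq h hS hH hα hr hp ha hb)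
    have e2 := congrArg (eval (c j)) (p_eq h hS hH hβ hr hq ha hb)
    rw [h4, eval_add, eval_mul, eval_C] at e1
    rw [h4', eval_add, eval_mul, eval_C] at e2
    have hsα : sg β α = -1 := by unfold sg; rw [if_neg (not_le.2 hαβ)]
    have hsβ : sg β β = 1 := by unfold sg; rw [if_pos le_rfl]
    have hpα : 0 < hh (Dz f c H α) (r + 1) := hh_pos (Dz_NN h hS hH hα) (Dz_PosTo h hS hH hα (by omega))
    have hpβ : 0 < hh (Dz f c H β) (r + 1) := hh_pos (Dz_NN h hS hH hβ) (Dz_PosTo h hS hH hβ (by omega))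
    rw [hsα] at e1
    rw [hsβ] at e2
    have e3 : (hh (Dz f c H α) (r + 1) + hh (Dz f c H β) (r + 1)) / hh (Dinf f c H) r * a.eval (c j) = 0 := by
      have := e1.symm.trans e2
      field_simp
      field_simp at this
      linear_combination this
    have h2 : a.eval (c j) = 0 := by
      rcases mul_eq_zero.1 e3 with h5 | h5
      · exact absurd h5 (div_pos (by linarith) hainf).ne'
      · exact h5
    rw [h2, mul_zero, add_zero] at e1
    exact no_common h hS hH hr ha hb h2 e1.symm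
  have hninf : a.eval (c j) ≠ 0 → Supp f c (r + 1) H none (some (f.eval (c j))) := fun h2 =>
    Or.inr ⟨by omega, a, ha, j, h2, rfl⟩
  rcases h1 with rfl | rfl | rfl <;> rcases h1' with rfl | rfl | rfl
  · exact absurd rfl hne
  · rcases one α (some_mem_Sp.1 hs') with h2 | h2
    · exact Or.inl (hninf h2)
    · exact Or.inr h2
  · rcases one β (some_mem_Sp.1 hs') with h2 | h2
    · exact Or.inl (hninf h2)
    · exact Or.inr h2
  · rcases one α (some_mem_Sp.1 hs) with h2 | h2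
    · exact Or.inr (hninf h2)
    · exact Or.inl h2
  · exact absurd rfl hne
  · exact two (some_mem_Sp.1 hs) (some_mem_Sp.1 hs')
  · rcases one β (some_mem_Sp.1 hs) with h2 | h2
    · exact Or.inr (hninf h2)
    · exact Or.inl h2
  · exact (two (some_mem_Sp.1 hs') (some_mem_Sp.1 hs)).symm
  · exact absurd rfl hne

end

/-! ### the combinatorial core -/

/-- properties of the sets of extremal states along a downward chain -/
structure Ext (f : ℝ[X]) (α β : ℝ) (c : Fin (f.natDegree - 1) → ℝ) (r : ℕ → ℕ)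
    (H : ℕ → Option ℝ → ℝ) (MM : ℕ → Set (Option ℝ)) : Prop where
  sub : ∀ i, MM i ⊆ Sp (ZS f c)
  ne : ∀ i, (MM i).Nonempty
  prop : ∀ i s w, s ∈ MM (i + 1) → Supp f c (r i) (H i) s w → w ∈ MM i
  lim : ∀ i, (∀ B : ℝ, ∃ z, B ≤ dd α β z ∧ some z ∈ MM i) → none ∈ MM i

section
variable {f : ℝ[X]} {α β : ℝ} {c : Fin (f.natDegree - 1) → ℝ} (h : Hull f α β c)
  {r : ℕ → ℕ} (hr : ∀ i, r i < f.natDegree)
  {H : ℕ → Option ℝ → ℝ} (hH : ∀ i, PosOn (ZS f c) (H i))
include h hr hH

/-- `MM i` contains a point off the hull -/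
def Esc (α β : ℝ) (MM : ℕ → Set (Option ℝ)) (i : ℕ) : Prop :=
  ∃ z, z ≠ α ∧ z ≠ β ∧ some z ∈ MM i

lemma Ext.iter {MM : ℕ → Set (Option ℝ)} (hM : Ext f α β c r H MM) (j k : ℕ) {z : ℝ}
    (hz : some z ∈ MM (j + k)) : some (it f k z) ∈ MM j := by
  induction k generalizing j with
  | zero => exact hz
  | succ k ih =>
    rw [it_succ]
    have h1 : some (it f k z) ∈ MM (j + 1) := ih (j + 1) (by rw [add_right_comm]; exact hz)
    have h2 : it f k z ∈ ZS f c := some_mem_Sp.1 (hM.sub _ h1)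
    exact hM.prop j _ _ h1 (supp_self h h.ZS_inv (hH j) (hr j) h2)

lemma Ext.none_of_esc {MM : ℕ → Set (Option ℝ)} (hM : Ext f α β c r H MM)
    (hesc : ∀ i₀, ∃ i, i₀ ≤ i ∧ Esc α β MM i) (j : ℕ) : none ∈ MM j := by
  obtain ⟨δ₀, hδ, h1, -⟩ := h.exists_delta
  apply hM.lim
  intro B
  obtain ⟨N, hN⟩ : ∃ N : ℕ, B ≤ 2 ^ N * δ₀ := by
    obtain ⟨N, hN⟩ := pow_unbounded_of_one_lt (B / δ₀) (one_lt_two : (1:ℝ) < 2)
    exact ⟨N, by rw [div_lt_iff₀ hδ] at hN; exact hN.le⟩
  obtain ⟨i, hi, z, hzα, hzβ, hz⟩ := hesc (j + N)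
  obtain ⟨k, rfl⟩ : ∃ k, i = j + (N + k) := ⟨i - j - N, by omega⟩
  have hzS : z ∈ ZS f c := some_mem_Sp.1 (hM.sub _ hz)
  refine ⟨it f (N + k) z, ?_, Ext.iter h hr hH hM j (N + k) hz⟩
  have h2 := h.it_expand (h.ZS_inv.out z hzS) (N + k)
  have h3 : δ₀ ≤ dd α β z := by
    rcases h1 z hzS with h4 | h4
    · rcases h4 with h4 | h4
      · exact absurd h4 hzα
      · exact absurd h4 hzβ
    · exact h4
  have h5 : (2 : ℝ) ^ N ≤ 2 ^ (N + k) := pow_le_pow_right₀ (by norm_num) (by omega)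
  have h6 : (0 : ℝ) < 2 ^ N := by positivity
  calc B ≤ 2 ^ N * δ₀ := hN
    _ ≤ 2 ^ (N + k) * dd α β z := by nlinarith
    _ ≤ _ := h2

/-- The two sets cannot be disjoint at all levels. -/
theorem comb_aux {MM NN : ℕ → Set (Option ℝ)} (hM : Ext f α β c r H MM)
    (hN : Ext f α β c r H NN) (hdis : ∀ i s, s ∈ MM i → s ∈ NN i → False)
    (i₀ : ℕ) (hno : ∀ i, i₀ ≤ i → ¬ Esc α β MM i) : False := by
  have hend : ∀ {A : ℕ → Set (Option ℝ)} {i : ℕ} {s : Option ℝ}, ¬ Esc α β A i → s ∈ A i →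
      s = none ∨ s = some α ∨ s = some β := by
    intro A i s hA hs
    cases s with
    | none => left; rfl
    | some z =>
      right
      by_contra hcon
      push Not at hcon
      exact hA ⟨z, fun h0 => hcon.1 (by rw [h0]), fun h0 => hcon.2 (by rw [h0]), hs⟩
  obtain ⟨jo, hjo⟩ := h.out
  have hjα : f.eval (c jo) ≠ α ∧ f.eval (c jo) ≠ β := by
    have := h.lt
    constructor
    · intro h0; rcases hjo with h1 | h1 <;> linarith
    · intro h0; rcases hjo with h1 | h1 <;> linarith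
  by_cases hinf : ∀ i₁, ∃ i, i₁ ≤ i ∧ Esc α β NN i
  · have hn := Ext.none_of_esc h hr hH hN hinf
    obtain ⟨s, hs⟩ := hM.ne (i₀ + 1)
    rcases hend (hno (i₀ + 1) (by omega)) hs with rfl | hs'
    · exact hdis _ _ hs (hn _)
    · obtain ⟨z, rfl⟩ : ∃ z, s = some z := by
        rcases hs' with rfl | rfl
        · exact ⟨_, rfl⟩
        · exact ⟨_, rfl⟩
      have hzS : z ∈ ZS f c := some_mem_Sp.1 (hM.sub _ hs)
      rcases Nat.eq_zero_or_pos (r i₀) with h0 | h0
      · have h1 := supp_zero h h.ZS_inv (hH i₀) hzS jo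
        rw [← h0] at h1
        exact hno i₀ le_rfl ⟨_, hjα.1, hjα.2, hM.prop _ _ _ hs h1⟩
      · obtain ⟨j, h1, h2⟩ := supp_overlap h h.ZS_inv (hH i₀) (hr i₀) h0 hzS
        exact hdis _ _ (hM.prop _ _ _ hs h1) (hN.prop _ _ _ (hn _) h2)
  · push Not at hinf
    obtain ⟨i₁, hi₁⟩ := hinf
    set i := max i₀ i₁ with hi
    have h0 : i₀ ≤ i := le_max_left _ _
    have h1 : i₁ ≤ i := le_max_right _ _
    obtain ⟨s, hs⟩ := hM.ne (i + 1)
    obtain ⟨s', hs'⟩ := hN.ne (i + 1)
    have hss : s ≠ s' := by rintro rfl; exact hdis _ _ hs hs'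
    have e1 := hend (hno (i + 1) (by omega)) hs
    have e2 := hend (hi₁ (i + 1) (by omega)) hs'
    rcases Nat.eq_zero_or_pos (r i) with hr0 | hr0
    · -- one of them is finite
      have : (∃ z, s = some z) ∨ ∃ z, s' = some z := by
        cases s with
        | some z => left; exact ⟨z, rfl⟩
        | none =>
          cases s' with
          | some z => right; exact ⟨z, rfl⟩
          | none => exact absurd rfl hss
      rcases this with ⟨z, rfl⟩ | ⟨z, rfl⟩
      · have h2 := supp_zero h h.ZS_inv (hH i) (some_mem_Sp.1 (hM.sub _ hs)) jo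
        rw [← hr0] at h2
        exact hno i h0 ⟨_, hjα.1, hjα.2, hM.prop _ _ _ hs h2⟩
      · have h2 := supp_zero h h.ZS_inv (hH i) (some_mem_Sp.1 (hN.sub _ hs')) jo
        rw [← hr0] at h2
        exact hi₁ i h1 ⟨_, hjα.1, hjα.2, hN.prop _ _ _ hs' h2⟩
    · rcases supp_two h h.ZS_inv (hH i) (hr i) hr0 (hM.sub _ hs) (hN.sub _ hs') hss e1 e2 jo with h2 | h2
      · exact hno i h0 ⟨_, hjα.1, hjα.2, hM.prop _ _ _ hs h2⟩
      · exact hi₁ i h1 ⟨_, hjα.1, hjα.2, hN.prop _ _ _ hs' h2⟩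

theorem comb {MM NN : ℕ → Set (Option ℝ)} (hM : Ext f α β c r H MM)
    (hN : Ext f α β c r H NN) (hdis : ∀ i s, s ∈ MM i → s ∈ NN i → False) : False := by
  by_cases h1 : ∀ i₁, ∃ i, i₁ ≤ i ∧ Esc α β MM i
  · by_cases h2 : ∀ i₁, ∃ i, i₁ ≤ i ∧ Esc α β NN i
    · exact hdis 0 none (Ext.none_of_esc h hr hH hM h1 0) (Ext.none_of_esc h hr hH hN h2 0)
    · push Not at h2
      obtain ⟨i₀, hi₀⟩ := h2
      exact comb_aux h hr hH hN hM (fun i s a b => hdis i s b a) i₀ hi₀
  · push Not at h1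
    obtain ⟨i₀, hi₀⟩ := h1
    exact comb_aux h hr hH hM hN hdis i₀ hi₀

end

end Pool.Agent.Work.MP_e056c9_an
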