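import Pool.Agent.Work.MP_e056c9_an.Run

/-! # The run lemma. -/

set_option autoImplicit false
set_option linter.unusedSectionVars false
set_option linter.unusedVariables false
open Polynomial Filter Topology

namespace Pool.Agent.Work.MP_e056c9_an

section
variable {f : ℝ[X]} {α β : ℝ} {c : Fin (f.natDegree - 1) → ℝ} {L M : ℝ[X] →ₗ[ℝ] ℝ}

lemma char_D {D : Set ℝ} {c₁ C : ℝ} {n : ℕ} (hc₁ : 0 < c₁) (hC1 : 1 ≤ C)
    (hDc : Closed f α β c D)
    (h1 : ∀ e ∈ Z0 f α β c, e ∉ D → c₁ ≤ uu L β n e)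
    (h2 : ∀ e ∈ D, ∀ e' ∈ D, uu L β n e ≤ C * uu L β n e')
    (h3 : ∃ e ∈ Z0 f α β c, uu L β n e < c₁ / (2 * C)) :
    D = {e ∈ Z0 f α β c | uu L β n e < c₁} := by
  obtain ⟨e₀, he₀, hlt⟩ := h3
  rw [lt_div_iff₀ (by linarith)] at hlt
  have hpos : c₁ / 2 < c₁ := by linarith
  have he₀D : e₀ ∈ D := by
    by_contra hcon
    have := h1 e₀ he₀ hcon
    nlinarith
  ext e
  constructor
  · intro he
    refine ⟨hDc.sub he, ?_⟩
    have := h2 e he e₀ he₀D
    have h4 : C * uu L β n e₀ ≤ c₁ / 2 := by linarith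
    linarith
  · rintro ⟨he, hlt2⟩
    by_contra hcon
    have := h1 e he hcon
    linarith

variable (hC : Core f α β c L M)
include hC

/-- the dead set of a degenerate digit -/
lemma Core.exists_D (hDeg : DegHyp f α β c L) {σ : ℕ} (hσ : σ < f.natDegree) {y : ℕ}
    (hten : ∀ t : ℝ, 0 < t → ∃ J : ℕ, ∀ j ≥ J, ¬ Tge f α β c L t (run f.natDegree σ j y)) :
    ∃ (D : Set ℝ) (c₁ C : ℝ), Closed f α β c D ∧ σ = ell f c D ∧ 0 < c₁ ∧ 1 ≤ C ∧
      ∀ ε : ℝ, 0 < ε → ∃ J : ℕ, ∀ j ≥ J, DegLevel f α β c L D c₁ C ε (run f.natDegree σ j y) := by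
  classical
  obtain ⟨ε₁, c₁, C, hε₁, hc₁, hC1, hst⟩ := hDeg.struct
  have hq : 0 < c₁ / (2 * C) := div_pos hc₁ (by linarith)
  obtain ⟨J, hJ⟩ := hten (min ε₁ (c₁ / (2 * C))) (lt_min hε₁ hq)
  have hex : ∀ j ≥ J, ∃ e ∈ Z0 f α β c, uu L β (run f.natDegree σ j y) e < min ε₁ (c₁ / (2 * C)) := by
    intro j hj
    have := hJ j hj
    unfold Tge at this
    push Not at this
    exact this
  have hstr : ∀ j ≥ J, ∃ D : Set ℝ, Closed f α β c D ∧ σ = ell f c D ∧
      (∀ e ∈ Z0 f α β c, e ∉ D → c₁ ≤ uu L β (run f.natDegree σ (j + 2) y) e ∧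
        c₁ ≤ uu L β (run f.natDegree σ (j + 1) y) e) ∧
      (∀ e ∈ D, ∀ e' ∈ D, uu L β (run f.natDegree σ (j + 2) y) e
        ≤ C * uu L β (run f.natDegree σ (j + 2) y) e') ∧
      (∀ e ∈ D, ∀ e' ∈ D, uu L β (run f.natDegree σ (j + 1) y) e
        ≤ C * uu L β (run f.natDegree σ (j + 1) y) e') := by
    intro j hj
    obtain ⟨e, he, hlt⟩ := hex (j + 2) (by omega)
    exact hst (run f.natDegree σ j y) σ σ hσ hσ _ _ (run_succ _ _ _ _) (run_succ _ _ _ _)
      ⟨e, he, (lt_of_lt_of_le hlt (min_le_left _ _)).le⟩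
  have hex' : ∀ j ≥ J, ∃ e ∈ Z0 f α β c, uu L β (run f.natDegree σ j y) e < c₁ / (2 * C) := by
    intro j hj
    obtain ⟨e, he, hlt⟩ := hex j hj
    exact ⟨e, he, lt_of_lt_of_le hlt (min_le_right _ _)⟩
  set DD : ℕ → Set ℝ := fun j => {e ∈ Z0 f α β c | uu L β (run f.natDegree σ j y) e < c₁} with hDD
  have hDD1 : ∀ j ≥ J, Closed f α β c (DD (j + 2)) ∧ σ = ell f c (DD (j + 2)) ∧
      DD (j + 1) = DD (j + 2) ∧
      (∀ e ∈ Z0 f α β c, e ∉ DD (j + 2) → c₁ ≤ uu L β (run f.natDegree σ (j + 2) y) e) ∧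
      (∀ e ∈ DD (j + 2), ∀ e' ∈ DD (j + 2), uu L β (run f.natDegree σ (j + 2) y) e
        ≤ C * uu L β (run f.natDegree σ (j + 2) y) e') := by
    intro j hj
    obtain ⟨D, h1, h2, h3, h4, h5⟩ := hstr j hj
    have e1 : D = DD (j + 2) := char_D hc₁ hC1 h1 (fun e he hn => (h3 e he hn).1) h4
      (hex' (j + 2) (by omega))
    have e2 : D = DD (j + 1) := char_D hc₁ hC1 h1 (fun e he hn => (h3 e he hn).2) h5
      (hex' (j + 1) (by omega))
    rw [← e1]
    exact ⟨h1, h2, e2.symm, fun e he hn => (h3 e he hn).1, h4⟩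
  have hconst : ∀ j ≥ J, DD (j + 2) = DD (J + 2) := by
    intro j hj
    induction j, hj using Nat.le_induction with
    | base => rfl
    | succ j hj ih =>
      rw [← ih]
      have := (hDD1 (j + 1) (by omega)).2.2.1
      rw [← this]
  refine ⟨DD (J + 2), c₁, C, (hDD1 J le_rfl).1, (hDD1 J le_rfl).2.1, hc₁, hC1, ?_⟩
  intro ε hε
  obtain ⟨J', hJ'⟩ := hten (min (ε / C) c₁) (lt_min (div_pos hε (by linarith)) hc₁)
  refine ⟨max (J + 2) J', fun j hj => ?_⟩
  have hj1 : J + 2 ≤ j := (le_max_left _ _).trans hj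
  obtain ⟨i, rfl⟩ : ∃ i, j = i + 2 := ⟨j - 2, by omega⟩
  have hi : J ≤ i := by omega
  obtain ⟨-, -, -, h4, h5⟩ := hDD1 i hi
  have h6 := hJ' (i + 2) ((le_max_right _ _).trans hj)
  rw [hconst i hi] at h4 h5
  refine ⟨h4, h5, ?_⟩
  unfold Tge at h6
  push Not at h6
  obtain ⟨e₀, he₀, hlt⟩ := h6
  have he₀D : e₀ ∈ DD (J + 2) := by
    by_contra hcon
    have := h4 e₀ he₀ hcon
    exact absurd (lt_of_lt_of_le hlt (min_le_right _ _)) (not_lt.2 this)
  intro e he
  have h7 := h5 e he e₀ he₀D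
  have h8 := lt_of_lt_of_le hlt (min_le_left (ε / C) c₁)
  rw [lt_div_iff₀ (by linarith)] at h8
  linarith

/-- lower bound on live states -/
lemma Core.lower_live {D : Set ℝ} (n : ℕ) {c₂ : ℝ} (hc₀ : 0 < c₂) (hc₁ : c₂ ≤ 1)
    (h : ∀ e ∈ Z0 f α β c, e ∉ D → c₂ ≤ uu L β n e) :
    ∀ s ∈ Live f c D, c₂ * rho α β s ≤ NH L β n s := by
  intro s hs
  cases s with
  | none => rw [hC.NH_none]; unfold rho; linarith
  | some z =>
    have hz := some_mem_Sp.1 hs
    have hzE := hC.hull.ZS_inv.out z hz.1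
    rw [NH_some, rho_some]
    split_ifs with h0
    · rw [mul_one]
      apply h z ⟨hz.1, ?_⟩ hz.2
      have := (dd_eq_zero hzE hC.hull.lt).1 h0
      simpa using this
    · have h1 := (hC.uu_bounds n hzE).1
      have h2 : 0 ≤ dd α β z := dd_nonneg hzE
      nlinarith

lemma Live_sub_Sp (D : Set ℝ) : Live f c D ⊆ Sp (ZS f c) := fun s hs z hz => (hs z hz).1

/-- bounded oscillation in degenerate levels -/
lemma Core.deg_bdd {D : Set ℝ} {c₂ C₂ : ℝ} (hD : D ⊆ Z0 f α β c) (hc₂ : 0 < c₂) (hC₂ : 1 ≤ C₂) :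
    ∃ B : ℝ, ∀ (ε : ℝ) (n n' : ℕ), DegLevel f α β c L D c₂ C₂ ε n →
      DegLevel f α β c L D c₂ C₂ ε n' →
      OscLe (Live f c D) (Hn L β n) (Hn L β n') B ∧ OscLe (some '' D) (Hn L β n) (Hn L β n') B := by
  obtain ⟨C₁, hC₁, hup⟩ := hC.exists_upper
  refine ⟨max (2 * Real.log (C₁ / min c₂ 1)) (2 * Real.log C₂), fun ε n n' h h' => ⟨?_, ?_⟩⟩
  · refine OscLe.mono ?_ (le_max_left _ _)
    rw [← hC.OscLe_NH n n' hC.hull.ZS_inv (Live_sub_Sp hC D)]
    have hρ := rho_PosOn hC.hull hC.hull.ZS_inv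
    have hm : 0 < min c₂ 1 := lt_min hc₂ one_pos
    refine osc_of_bounds (ρ := rho α β) hm (by linarith) ?_
      (hC.lower_live n hm (min_le_right _ _) fun e he hn => (min_le_left _ _).trans (h.1 e he hn))
      (fun s hs => hup n s (Live_sub_Sp hC D hs))
      (hC.lower_live n' hm (min_le_right _ _) fun e he hn => (min_le_left _ _).trans (h'.1 e he hn))
      (fun s hs => hup n' s (Live_sub_Sp hC D hs))
    intro s hs
    cases s with
    | none => exact hρ.1
    | some z => exact hρ.2 z (some_mem_Sp.1 hs).1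
  · refine OscLe.mono ?_ (le_max_right _ _)
    rintro s ⟨e, he, rfl⟩ t ⟨e', he', rfl⟩
    have o1 := hC.hull.ZS_inv.out e (hD he).1
    have o2 := hC.hull.ZS_inv.out e' (hD he').1
    have e1 := hC.RR_sub n n' o1
    have e2 := hC.RR_sub n n' o2
    have p1 := hC.uu_pos n o1
    have p2 := hC.uu_pos n o2
    have p3 := hC.uu_pos n' o1
    have p4 := hC.uu_pos n' o2
    have hCp : 0 < C₂ := by linarith
    have l1 : Real.log (uu L β n' e) ≤ Real.log C₂ + Real.log (uu L β n' e') := by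
      rw [← Real.log_mul hCp.ne' p4.ne']
      exact Real.log_le_log p3 (h'.2.1 e he e' he')
    have l2 : Real.log (uu L β n e') ≤ Real.log C₂ + Real.log (uu L β n e) := by
      rw [← Real.log_mul hCp.ne' p1.ne']
      exact Real.log_le_log p2 (h.2.1 e' he' e he)
    linarith

/-- THE RUN LEMMA -/
theorem Core.run_lemma (hDeg : DegHyp f α β c L) {c₀ : ℝ} (hc₀ : 0 < c₀) (hc₁ : c₀ ≤ 1) {σ : ℕ}
    (hσ : σ < f.natDegree) {y : ℕ} (hy : Tge f α β c L c₀ y) (ε : ℝ) (hε : 0 < ε) :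
    ∃ K : ℕ, ∀ i i' : ℕ, K ≤ i → K ≤ i' → ∀ x x' : ℕ, Tge f α β c L c₀ x → Tge f α β c L c₀ x' →
      OscLe (Sp (ZS f c \ Z0 f α β c)) (Hn L β (run f.natDegree σ i x))
        (Hn L β (run f.natDegree σ i' x')) ε ∧
      ∀ r < f.natDegree, r ≠ σ → OscLe (Sp (ZS f c))
        (Hn L β (f.natDegree * run f.natDegree σ i x + r))
        (Hn L β (f.natDegree * run f.natDegree σ i' x' + r)) ε := by
  classical
  obtain ⟨C₁, hC₁, hbd⟩ := hC.osc_bdd
  set B := 2 * Real.log (C₁ / c₀) with hB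
  -- comparison with the reference orbit
  have hcmp : ∀ x, Tge f α β c L c₀ x → ∀ j, OscLe (Sp (ZS f c)) (Hn L β (run f.natDegree σ j y))
      (Hn L β (run f.natDegree σ j x)) B := fun x hx j =>
    hC.osc_app y x (fun _ => σ) (fun _ => hσ) j (hbd c₀ hc₀ hc₁ _ _ hy hx)
  have hsubZ : Sp (ZS f c \ Z0 f α β c) ⊆ Sp (ZS f c) := fun s hs z hz => (hs z hz).1
  by_cases hcase : ∃ t : ℝ, 0 < t ∧ ∀ j, Tge f α β c L t (run f.natDegree σ j y)
  · -- nondegenerate digit
    obtain ⟨t', ht'0, ht'⟩ := hcase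
    set t := min t' 1 with ht
    have ht0 : 0 < t := lt_min ht'0 one_pos
    set t₁ := Real.exp (-B) * t with ht₁
    have ht₁0 : 0 < t₁ := by positivity
    have hB0 : 0 ≤ B := by
      have := hbd c₀ hc₀ hc₁ y y hy hy none (none_mem_Sp _) none (none_mem_Sp _)
      linarith
    have ht₁1 : t₁ ≤ 1 := by
      have h1 : Real.exp (-B) ≤ 1 := by rw [Real.exp_le_one_iff]; linarith
      have h2 : t ≤ 1 := min_le_right _ _
      have h3 := Real.exp_pos (-B)
      nlinarith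
    have hall : ∀ x, Tge f α β c L c₀ x → ∀ j, Tge f α β c L t₁ (run f.natDegree σ j x) :=
      fun x hx j => hC.Tge_of_osc (hcmp x hx j) ((ht' j).mono (min_le_left _ _))
    obtain ⟨K, hK⟩ := hC.niter t₁ ε ht₁0 ht₁1 hε
    refine ⟨K, fun i i' hi hi' x x' hx hx' => ?_⟩
    have key : OscLe (Sp (ZS f c)) (Hn L β (run f.natDegree σ i x))
        (Hn L β (run f.natDegree σ i' x')) ε := by
      have h1 := hK (run f.natDegree σ (i - K) x) (run f.natDegree σ (i' - K) x') (fun _ => σ)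
        (fun _ => hσ)
        (fun k _ => by
          have e := run_add f.natDegree σ (i - K) k x
          have h2 := hall x hx (i - K + k)
          rw [e] at h2; exact h2)
        (fun k _ => by
          have e := run_add f.natDegree σ (i' - K) k x'
          have h2 := hall x' hx' (i' - K + k)
          rw [e] at h2; exact h2)
      have e1 : run f.natDegree σ i x
          = app f.natDegree (fun _ => σ) K (run f.natDegree σ (i - K) x) := by
        have : i = i - K + K := by omega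
        conv_lhs => rw [this]
        exact run_add _ _ _ _ _
      have e2 : run f.natDegree σ i' x'
          = app f.natDegree (fun _ => σ) K (run f.natDegree σ (i' - K) x') := by
        have : i' = i' - K + K := by omega
        conv_lhs => rw [this]
        exact run_add _ _ _ _ _
      rw [e1, e2]; exact h1
    exact ⟨key.subset hsubZ, fun r hr _ => hC.osc_step _ _ _ hr key⟩
  · -- degenerate digit
    push Not at hcase
    have hten := hC.tendsto_of_not_bdd hσ hc₀ hc₁ hy hcase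
    obtain ⟨D, c₁, C, hDc, hell, hc₁0, hC1, hlev⟩ := hC.exists_D hDeg hσ hten
    set c₂ := Real.exp (-B) * c₁ with hc₂
    set C₂ := Real.exp B * Real.exp B * C with hC₂
    have hB0 : 0 ≤ B := by
      have := hbd c₀ hc₀ hc₁ y y hy hy none (none_mem_Sp _) none (none_mem_Sp _)
      linarith
    have hc₂0 : 0 < c₂ := by positivity
    have hC₂1 : 1 ≤ C₂ := by
      have h1 : 1 ≤ Real.exp B := Real.one_le_exp hB0
      have h2 : 1 ≤ Real.exp B * Real.exp B := by nlinarith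
      nlinarith
    have hlevx : ∀ e' : ℝ, 0 < e' → ∃ J : ℕ, ∀ x, Tge f α β c L c₀ x → ∀ j ≥ J,
        DegLevel f α β c L D c₂ C₂ e' (run f.natDegree σ j x) := by
      intro e' he'
      obtain ⟨J, hJ⟩ := hlev (e' / Real.exp B) (div_pos he' (Real.exp_pos _))
      refine ⟨J, fun x hx j hj => ?_⟩
      obtain ⟨h1, h2, h3⟩ := hJ j hj
      have hpt : ∀ z ∈ Z0 f α β c,
          uu L β (run f.natDegree σ j y) z ≤ Real.exp B * uu L β (run f.natDegree σ j x) z ∧
          uu L β (run f.natDegree σ j x) z ≤ Real.exp B * uu L β (run f.natDegree σ j y) z :=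
        fun z hz => hC.uu_le_of_osc (none_mem_Sp _) (hcmp x hx j) (some_mem_Sp.2 hz.1)
          (hC.hull.ZS_inv.out z hz.1)
      refine ⟨?_, ?_, ?_⟩
      · intro z hz hzD
        have h4 := h1 z hz hzD
        have h5 := (hpt z hz).1
        rw [hc₂, Real.exp_neg, inv_mul_le_iff₀ (Real.exp_pos B)]
        linarith
      · intro z hz z' hz'
        have h4 := h2 z hz z' hz'
        have h5 := (hpt z (hDc.sub hz)).2
        have h6 := (hpt z' (hDc.sub hz')).1
        have hE := Real.exp_pos B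
        calc uu L β (run f.natDegree σ j x) z ≤ Real.exp B * uu L β (run f.natDegree σ j y) z := h5
          _ ≤ Real.exp B * (C * uu L β (run f.natDegree σ j y) z') :=
              mul_le_mul_of_nonneg_left h4 hE.le
          _ ≤ Real.exp B * (C * (Real.exp B * uu L β (run f.natDegree σ j x) z')) :=
              mul_le_mul_of_nonneg_left (mul_le_mul_of_nonneg_left h6 (by linarith)) hE.le
          _ = _ := by rw [hC₂]; ring
      · intro z hz
        have h4 := h3 z hz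
        have h5 := (hpt z (hDc.sub hz)).2
        rw [le_div_iff₀ (Real.exp_pos B)] at h4
        linarith
    obtain ⟨Bd, hBd⟩ := hC.deg_bdd hDc.sub hc₂0 hC₂1
    -- contraction of a part
    obtain ⟨ε₃, hε₃, hch⟩ := hDeg.change D hDc c₂ C₂ hc₂0 hC₂1 ε hε
    set η := min ε ε₃ with hη
    have hη0 : 0 < η := lt_min hε hε₃
    have hpart : ∀ A : Set (Option ℝ),
        (∀ (e' : ℝ) (n n' : ℕ), DegLevel f α β c L D c₂ C₂ e' n → DegLevel f α β c L D c₂ C₂ e' n' →
          OscLe A (Hn L β n) (Hn L β n') Bd) →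
        (∃ δ ε' : ℝ, 0 < δ ∧ 0 < ε' ∧ ∀ n n' : ℕ,
          DegLevel f α β c L D c₂ C₂ ε' n → DegLevel f α β c L D c₂ C₂ ε' n' →
          ∀ b : ℝ, OscLe A (Hn L β n) (Hn L β n') b →
            OscLe A (Hn L β (f.natDegree * n + ell f c D))
              (Hn L β (f.natDegree * n' + ell f c D)) (max (b - δ) η)) →
        ∃ K : ℕ, ∀ i i' : ℕ, K ≤ i → K ≤ i' → ∀ x x' : ℕ, Tge f α β c L c₀ x →
          Tge f α β c L c₀ x' → OscLe A (Hn L β (run f.natDegree σ i x))
            (Hn L β (run f.natDegree σ i' x')) η := by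
      intro A hA hstep
      obtain ⟨δ, ε', hδ, hε', hst⟩ := hstep
      obtain ⟨J, hJ⟩ := hlevx ε' hε'
      rw [← hell] at hst
      obtain ⟨K, hK⟩ := osc_iter hC (A := A) (σ := σ) (G := DegLevel f α β c L D c₂ C₂ ε')
        (B := Bd) (δ := δ) (η := η) hδ (fun n n' h h' => hA ε' n n' h h') hst
      refine ⟨J + K, fun i i' hi hi' x x' hx hx' => ?_⟩
      have h1 := hK (run f.natDegree σ (i - K) x) (run f.natDegree σ (i' - K) x')
        (fun k _ => by rw [← run_add]; exact hJ x hx _ (by omega))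
        (fun k _ => by rw [← run_add]; exact hJ x' hx' _ (by omega))
      rw [← run_add, ← run_add] at h1
      have e1 : i - K + K = i := by omega
      have e2 : i' - K + K = i' := by omega
      rw [e1, e2] at h1
      exact h1
    obtain ⟨K₁, hK₁⟩ := hpart (Live f c D) (fun e' n n' h h' => (hBd e' n n' h h').1)
      (hDeg.live D hDc c₂ C₂ hc₂0 hC₂1 η hη0)
    obtain ⟨K₂, hK₂⟩ := hpart (some '' D) (fun e' n n' h h' => (hBd e' n n' h h').2)
      (hDeg.dead D hDc c₂ C₂ hc₂0 hC₂1 η hη0)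
    obtain ⟨J₃, hJ₃⟩ := hlevx ε₃ hε₃
    refine ⟨max (max K₁ K₂) J₃, fun i i' hi hi' x x' hx hx' => ?_⟩
    have h1 := hK₁ i i' (by omega) (by omega) x x' hx hx'
    have h2 := hK₂ i i' (by omega) (by omega) x x' hx hx'
    refine ⟨?_, fun r hr hrσ => ?_⟩
    · refine (h1.mono (min_le_left _ _)).subset ?_
      intro s hs z hz
      exact ⟨(hs z hz).1, fun h3 => (hs z hz).2 (hDc.sub h3)⟩
    · exact hch _ _ (hJ₃ x hx i (by omega)) (hJ₃ x' hx' i' (by omega))
        (h1.mono (min_le_right _ _)) (h2.mono (min_le_right _ _)) r hr (by rw [← hell]; exact hrσ)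

end

end Pool.Agent.Work.MP_e056c9_an
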